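import Pool.Agent.helper25.PW.Main5

set_option autoImplicit false
set_option linter.unusedSectionVars false
set_option linter.unusedVariables false

/-!
# Project AG: the planes of the affine space of dimension four over the field with two elements,
basic definitions and the check of linear inequalities
-/

namespace Pool.Agent.helper25.AG

open Finset Pool.Agent.helper25.PV

/-- the point with number `n` -/
def pt (n : ℕ) : W4 := fun i => if n.testBit i then 1 else 0

/-- the number of a point -/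
def ix (v : W4) : ℕ := (v 0).val + 2 * (v 1).val + 4 * (v 2).val + 8 * (v 3).val

theorem pt_ix (v : W4) : pt (ix v) = v := by revert v; decide +kernel

theorem ix_lt (v : W4) : ix v < 16 := by revert v; decide +kernel

theorem ix_pt : ∀ n < 16, ix (pt n) = n := by decide +kernel

theorem pt_xor (a b : ℕ) : pt (a ^^^ b) = pt a + pt b := by
  funext i
  show (if (a ^^^ b).testBit i then (1 : ZMod 2) else 0) =
    (if a.testBit i then 1 else 0) + (if b.testBit i then 1 else 0)
  rw [Nat.testBit_xor]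
  cases a.testBit i <;> cases b.testBit i <;> decide

theorem pt_zero : pt 0 = 0 := by decide +kernel

theorem sum_ix {A : Type*} [AddCommMonoid A] (F : W4 → A) :
    ∑ v, F v = ∑ n ∈ range 16, F (pt n) := by
  refine sum_nbij' ix pt (fun v _ => mem_range.2 (ix_lt v)) (fun n _ => mem_univ _)
    (fun v _ => pt_ix v) (fun n hn => ix_pt n (mem_range.1 hn)) (fun v _ => ?_)
  rw [pt_ix]

theorem forall_pt {P : W4 → Prop} (h : ∀ n < 16, P (pt n)) : ∀ v, P v := by
  intro v
  rw [← pt_ix v]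
  exact h _ (ix_lt v)

/-- linear maps, by the images of the basis -/
def lin (c : ℕ × ℕ × ℕ × ℕ) (y : ℕ) : ℕ :=
  (if y.testBit 0 then c.1 else 0) ^^^ ((if y.testBit 1 then c.2.1 else 0) ^^^
    ((if y.testBit 2 then c.2.2.1 else 0) ^^^ (if y.testBit 3 then c.2.2.2 else 0)))

/-- the same as a homomorphism -/
def fm (a b c d : W4) : W4 →+ W4 where
  toFun v := fun i => v 0 * a i + v 1 * b i + v 2 * c i + v 3 * d i
  map_zero' := by funext i; simp
  map_add' v w := by
    funext i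
    simp only [Pi.add_apply]
    ring

theorem ix_bit (v : W4) : (ix v).testBit 0 = decide (v 0 = 1) ∧ (ix v).testBit 1 = decide (v 1 = 1) ∧
    (ix v).testBit 2 = decide (v 2 = 1) ∧ (ix v).testBit 3 = decide (v 3 = 1) := by
  revert v; decide +kernel

theorem pt_lin (c : ℕ × ℕ × ℕ × ℕ) (v : W4) :
    pt (lin c (ix v)) = fm (pt c.1) (pt c.2.1) (pt c.2.2.1) (pt c.2.2.2) v := by
  obtain ⟨h0, h1, h2, h3⟩ := ix_bit v
  unfold lin
  rw [pt_xor, pt_xor, pt_xor, h0, h1, h2, h3]
  funext i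
  show pt _ i + (pt _ i + (pt _ i + pt _ i)) = v 0 * pt _ i + v 1 * pt _ i + v 2 * pt _ i +
    v 3 * pt _ i
  have key : ∀ (x : ZMod 2) (n : ℕ), pt (if decide (x = 1) = true then n else 0) i = x * pt n i := by
    intro x n
    rcases z2 x with rfl | rfl
    · rw [zero_mul]
      simp [pt_zero]
    · rw [one_mul]
      simp
  rw [key, key, key, key]
  ring

theorem lin_lt {c : ℕ × ℕ × ℕ × ℕ} (h1 : c.1 < 16) (h2 : c.2.1 < 16) (h3 : c.2.2.1 < 16)
    (h4 : c.2.2.2 < 16) (y : ℕ) : lin c y < 16 := by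
  unfold lin
  have h : ∀ (b : Bool) (n : ℕ), n < 16 → (if b then n else 0) < 2 ^ 4 := by
    intro b n hn
    cases b <;> simp [hn]
  have := Nat.xor_lt_two_pow (h (y.testBit 2) _ h3) (h (y.testBit 3) _ h4)
  have := Nat.xor_lt_two_pow (h (y.testBit 1) _ h2) this
  have := Nat.xor_lt_two_pow (h (y.testBit 0) _ h1) this
  exact this

/-- the frame is a basis -/
def okc (c : ℕ × ℕ × ℕ × ℕ) : Bool :=
  Nat.ble c.1 15 && (Nat.ble c.2.1 15 && (Nat.ble c.2.2.1 15 && (Nat.ble c.2.2.2 15 &&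
    (List.range 15).all fun y => !(Nat.beq (lin c (y + 1)) 0))))

theorem fm_of_inj {a b c d : W4} (h : ∀ v, fm a b c d v = 0 → v = 0) :
    ∃ g : W4 ≃+ W4, ∀ v, g v = fm a b c d v := by
  have hinj : Function.Injective (fm a b c d) := (injective_iff_map_eq_zero _).2 h
  exact ⟨AddEquiv.ofBijective (fm a b c d) (Finite.injective_iff_bijective.1 hinj), fun v => rfl⟩

theorem okc_equiv {c : ℕ × ℕ × ℕ × ℕ} (h : okc c = true) :
    (∀ y, lin c y < 16) ∧ ∃ g : W4 ≃+ W4, ∀ v, g v = pt (lin c (ix v)) := by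
  unfold okc at h
  simp only [Bool.and_eq_true, List.all_eq_true, List.mem_range, Bool.not_eq_true',
    Nat.ble_eq] at h
  obtain ⟨h1, h2, h3, h4, h5⟩ := h
  have hl := lin_lt (c := c) (by omega) (by omega) (by omega) (by omega)
  refine ⟨hl, ?_⟩
  obtain ⟨g, hg⟩ := fm_of_inj (a := pt c.1) (b := pt c.2.1) (c := pt c.2.2.1) (d := pt c.2.2.2)
    (fun v hv => by
      rw [← pt_lin] at hv
      have h6 : lin c (ix v) = 0 := by
        have h7 := congrArg ix hv
        rw [ix_pt _ (hl _)] at h7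
        rw [h7]; decide +kernel
      by_contra hne
      have h7 : ix v ≠ 0 := by
        intro h8
        apply hne
        rw [← pt_ix v, h8, pt_zero]
      have h8 := h5 (ix v - 1) (by have := ix_lt v; omega)
      rw [show ix v - 1 + 1 = ix v by omega, h6] at h8
      exact absurd h8 (by decide))
  exact ⟨g, fun v => by rw [hg, pt_lin]⟩

/-! ### the inequalities -/

/-- the coefficients of the inequalities -/
def facT : ℕ → List ℤ
  | 0 => [0, 0, 0, 0, 0, 0, 0, 0, 0, 0, 0, 0, 0, 0, 0, 1]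
  | 1 => [-3, 1, 1, 1, 1, 1, 1, 1, 1, 1, 1, 1, 1, 1, 1, 1]
  | 2 => [-1, 0, 0, 1, 0, 1, 1, 0, 0, 1, 1, 0, 1, 0, 0, 1]
  | 3 => [-1, -1, -1, 3, -1, 3, 3, 3, 1, 1, 1, 1, 1, 1, 1, 1]
  | 4 => [-1, -1, -1, 3, -1, 3, 3, 3, -1, 3, 3, 3, 3, 3, 3, -1]
  | 5 => [-1, -1, -1, 3, 1, 1, 1, 1, 1, 1, 1, 1, 1, 1, 1, 1]
  | 6 => [-3, -1, -1, 5, 1, 3, 3, 1, 1, 3, 3, 1, 1, 3, 3, 1]
  | 7 => [-1, -1, 0, 2, 0, 2, 1, 1, 0, 2, 1, 1, 1, 1, 2, 0]
  | _ => []

/-- the coefficient with number `n` -/
def fcv (i n : ℕ) : ℤ := (facT i).getD n 0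

/-- the value of the form with number `i`, moved by `g` and `t` -/
def fval (i : ℕ) (g : W4 ≃+ W4) (t : W4) (D : W4 → ℚ) : ℚ :=
  ∑ v, (fcv i (ix (g v + t)) : ℚ) * D v

/-- the inequalities -/
def Cq (D : W4 → ℚ) : Prop := ∀ i (g : W4 ≃+ W4) (t : W4), i < 8 → 0 ≤ fval i g t D

theorem fval_comp (i : ℕ) (g : W4 ≃+ W4) (t : W4) (D : W4 → ℚ) (h : W4 ≃+ W4) (s : W4) :
    fval i g t (fun v => D (h v + s)) =
      fval i (h.symm.trans g) (t + g (h.symm s)) D := by
  unfold fval
  let e : W4 ≃ W4 := h.toEquiv.trans (Equiv.addRight s)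
  rw [← Equiv.sum_comp e fun v => (fcv i (ix ((h.symm.trans g) v + (t + g (h.symm s)))) : ℚ) * D v]
  refine sum_congr rfl fun v _ => ?_
  have h1 : e v = h v + s := rfl
  rw [h1]
  congr 3
  apply congrArg ix
  show g v + t = g (h.symm (h v + s)) + (t + g (h.symm s))
  rw [map_add, AddEquiv.symm_apply_apply, map_add, add_assoc, add_comm t, ← add_assoc (g (h.symm s)),
    W_add_self, zero_add]

theorem Cq.comp {D : W4 → ℚ} (h : Cq D) (g : W4 ≃+ W4) (s : W4) : Cq fun v => D (g v + s) := by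
  intro i g' t hi
  rw [fval_comp]
  exact h _ _ _ hi

/-- an inequality: its type, the translation and the frame -/
abbrev Item := ℕ × ℕ × (ℕ × ℕ × ℕ × ℕ)

/-- the coefficients -/
def iv (it : Item) (n : ℕ) : ℤ := fcv it.1 (lin it.2.2 n ^^^ it.2.1)

/-- an admissible item -/
def oki (it : Item) : Bool := Nat.ble it.1 7 && (Nat.ble it.2.1 15 && okc it.2.2)

theorem oki_val {it : Item} (h : oki it = true) : ∃ (g : W4 ≃+ W4) (t : W4), it.1 < 8 ∧
    ∀ D : W4 → ℚ, ∑ n ∈ range 16, (iv it n : ℚ) * D (pt n) = fval it.1 g t D := by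
  unfold oki at h
  simp only [Bool.and_eq_true, Nat.ble_eq] at h
  obtain ⟨h1, h2, h3⟩ := h
  obtain ⟨h4, g, hg⟩ := okc_equiv h3
  refine ⟨g, pt it.2.1, by omega, fun D => ?_⟩
  unfold fval
  rw [sum_ix]
  refine sum_congr rfl fun n hn => ?_
  rw [hg, ix_pt n (mem_range.1 hn), ← pt_xor, ix_pt]
  · rfl
  · exact Nat.xor_lt_two_pow (n := 4) (h4 n) (by omega)

/-- linear forms in coordinates -/
def dotn (n : ℕ) (f : ℕ → ℤ) (E : ℕ → ℚ) : ℚ := ∑ k ∈ range n, (f k : ℚ) * E k

theorem dotn_add (n : ℕ) (f g : ℕ → ℤ) (E : ℕ → ℚ) :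
    dotn n (fun k => f k + g k) E = dotn n f E + dotn n g E := by
  unfold dotn
  rw [← sum_add_distrib]
  refine sum_congr rfl fun k _ => ?_
  push_cast; ring

theorem dotn_mul (n : ℕ) (c : ℤ) (f : ℕ → ℤ) (E : ℕ → ℚ) :
    dotn n (fun k => c * f k) E = c * dotn n f E := by
  unfold dotn
  rw [mul_sum]
  refine sum_congr rfl fun k _ => ?_
  push_cast; ring

theorem dotn_zero (n : ℕ) (E : ℕ → ℚ) : dotn n (fun _ => 0) E = 0 := by
  unfold dotn
  simp

theorem dotn_congr {n : ℕ} {f g : ℕ → ℤ} (h : ∀ k < n, f k = g k) (E : ℕ → ℚ) :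
    dotn n f E = dotn n g E := by
  unfold dotn
  refine sum_congr rfl fun k hk => ?_
  rw [h k (mem_range.1 hk)]

/-- the sum of given forms with coefficients -/
def sumF (facts : List (List ℤ)) : List (ℕ × ℕ) → ℕ → ℤ
  | [], _ => 0
  | a :: l, k => (a.1 : ℤ) * ((facts.getD a.2 []).getD k 0) + sumF facts l k

/-- a certificate: a multiplier and given forms with coefficients -/
abbrev Cert := ℕ × List (ℕ × ℕ)

/-- the check of a certificate -/
def chk (n : ℕ) (facts : List (List ℤ)) (f : ℕ → ℤ) (c : Cert) : Bool :=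
  Nat.blt 0 c.1 && (List.range n).all fun k => decide ((c.1 : ℤ) * f k = sumF facts c.2 k)

theorem sumF_nonneg {n : ℕ} {E : ℕ → ℚ} {facts : List (List ℤ)}
    (hf : ∀ l ∈ facts, 0 ≤ dotn n (fun k => l.getD k 0) E) :
    ∀ l : List (ℕ × ℕ), 0 ≤ dotn n (fun k => sumF facts l k) E := by
  intro l
  induction l with
  | nil => rw [show (fun k => sumF facts [] k) = fun _ => (0 : ℤ) from rfl, dotn_zero]
  | cons a l ih =>
    have h1 : (fun k => sumF facts (a :: l) k) =
        fun k => (a.1 : ℤ) * ((facts.getD a.2 []).getD k 0) + sumF facts l k := rfl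
    rw [h1, dotn_add, dotn_mul]
    have h3 : 0 ≤ dotn n (fun k => (facts.getD a.2 []).getD k 0) E := by
      by_cases h2 : a.2 < facts.length
      · have h4 : facts.getD a.2 [] = facts[a.2] := by
          rw [List.getD_eq_getElem?_getD, List.getElem?_eq_getElem h2]; rfl
        rw [h4]
        exact hf _ (List.getElem_mem h2)
      · have h4 : facts.getD a.2 [] = [] := by
          rw [List.getD_eq_getElem?_getD, List.getElem?_eq_none (by omega)]; rfl
        rw [h4]
        have : (fun k => ([] : List ℤ).getD k 0) = fun _ => (0 : ℤ) := by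
          funext k; simp
        rw [this, dotn_zero]
    have h7 : (0 : ℚ) ≤ (((a.1 : ℕ) : ℤ) : ℚ) := by positivity
    positivity

/-- soundness of the check -/
theorem chk_sound {n : ℕ} {E : ℕ → ℚ} {facts : List (List ℤ)}
    (hf : ∀ l ∈ facts, 0 ≤ dotn n (fun k => l.getD k 0) E)
    {f : ℕ → ℤ} {c : Cert} (h : chk n facts f c = true) : 0 ≤ dotn n f E := by
  unfold chk at h
  simp only [Bool.and_eq_true, List.all_eq_true, List.mem_range, decide_eq_true_eq,
    Nat.blt_eq] at h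
  obtain ⟨h1, h3⟩ := h
  have h4 : (((c.1 : ℕ) : ℤ) : ℚ) * dotn n f E = dotn n (fun k => sumF facts c.2 k) E := by
    rw [← dotn_mul]
    exact dotn_congr h3 E
  have h6 := sumF_nonneg hf c.2
  have h7 : (0 : ℚ) < (((c.1 : ℕ) : ℤ) : ℚ) := by exact_mod_cast h1
  by_contra hcon
  push Not at hcon
  have := mul_neg_of_pos_of_neg h7 hcon
  linarith only [this, h4, h6]

/-- a form of a list -/
def dl (D : W4 → ℚ) (l : List ℤ) : ℚ := dotn 16 (fun k => l.getD k 0) fun k => D (pt k)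

/-- the check that forms are multiples of inequalities -/
def chkR (R : List (List ℤ)) (its : List (ℕ × Item)) : Bool :=
  (List.range R.length).all fun j => oki (its.getD j (0, 0, 0, 0, 0, 0, 0)).2 &&
    (List.range 16).all fun k => decide ((R.getD j []).getD k 0 =
      ((its.getD j (0, 0, 0, 0, 0, 0, 0)).1 : ℤ) * iv (its.getD j (0, 0, 0, 0, 0, 0, 0)).2 k)

theorem chkR_sound {R : List (List ℤ)} {its : List (ℕ × Item)} (h : chkR R its = true)
    {D : W4 → ℚ} (hD : Cq D) : ∀ l ∈ R, 0 ≤ dl D l := by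
  intro l hl
  obtain ⟨j, hj, rfl⟩ := List.mem_iff_getElem.1 hl
  unfold chkR at h
  simp only [Bool.and_eq_true, List.all_eq_true, List.mem_range, decide_eq_true_eq] at h
  obtain ⟨h1, h2⟩ := h j hj
  obtain ⟨g, t, h3, h4⟩ := oki_val h1
  have h5 : R.getD j [] = R[j] := by
    rw [List.getD_eq_getElem?_getD, List.getElem?_eq_getElem hj]; rfl
  rw [h5] at h2
  unfold dl
  rw [dotn_congr h2, dotn_mul]
  have h6 : dotn 16 (iv (its.getD j (0, 0, 0, 0, 0, 0, 0)).2) (fun k => D (pt k)) =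
      fval (its.getD j (0, 0, 0, 0, 0, 0, 0)).2.1 g t D := h4 D
  rw [h6]
  exact mul_nonneg (by positivity) (hD _ g t h3)

end Pool.Agent.helper25.AG
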