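import Pool.Agent.helper25.AG.Tree

set_option autoImplicit false
set_option linter.unusedSectionVars false
set_option linter.unusedVariables false

/-!
# Project AG: pulling decomposition 4
-/

namespace Pool.Agent.helper25.AG

open Finset Pool.Agent.helper25.PV

def R4 : List (List ℤ) :=
  [[-1, -1, -1, 3, -1, 3, 3, 3, -1, 3, 3, 3, 3, 3, 3, -1],
    [0, 0, 0, 0, 0, 0, 0, 0, 0, 0, 0, 0, 0, 0, 4, 0],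
    [0, 0, 0, 0, 0, 0, 0, 0, 0, 0, 0, 0, 0, 4, 0, 0],
    [0, 0, 0, 0, 0, 0, 0, 0, 0, 0, 0, 0, 4, 0, 0, 0],
    [0, 0, 0, 0, 0, 0, 0, 0, 0, 0, 0, 4, 0, 0, 0, 0],
    [0, 0, 0, 0, 0, 0, 0, 0, 0, 0, 4, 0, 0, 0, 0, 0],
    [0, 0, 0, 0, 0, 0, 0, 0, 0, 4, 0, 0, 0, 0, 0, 0],
    [0, 0, 0, 0, 0, 0, 0, 4, 0, 0, 0, 0, 0, 0, 0, 0],
    [0, 0, 0, 0, 0, 0, 4, 0, 0, 0, 0, 0, 0, 0, 0, 0],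
    [0, 0, 0, 0, 0, 4, 0, 0, 0, 0, 0, 0, 0, 0, 0, 0],
    [0, 0, 0, 4, 0, 0, 0, 0, 0, 0, 0, 0, 0, 0, 0, 0],
    [-1, -1, -1, 3, -1, 3, 3, 3, 1, 1, 1, 1, 1, 1, 1, 1],
    [-1, -1, -1, 3, 1, 1, 1, 1, -1, 3, 3, 3, 1, 1, 1, 1],
    [-1, -1, -1, 3, 1, 1, 1, 1, 1, 1, 1, 1, 3, 3, 3, -1],
    [-1, -1, 1, 1, -1, 3, 1, 1, -1, 3, 1, 1, 3, 3, 1, 1],
    [-1, -1, 1, 1, -1, 3, 1, 1, 1, 1, 3, 3, 1, 1, 3, -1],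
    [-1, -1, 1, 1, 1, 1, 3, 3, -1, 3, 1, 1, 1, 1, 3, -1],
    [-1, 1, -1, 1, -1, 1, 3, 1, -1, 1, 3, 1, 3, 1, 3, 1],
    [-1, 1, -1, 1, -1, 1, 3, 1, 1, 3, 1, 3, 1, 3, 1, -1],
    [-1, 1, -1, 1, 1, 3, 1, 3, -1, 1, 3, 1, 1, 3, 1, -1],
    [-1, 1, 1, 3, -1, 1, 1, 3, -1, 1, 1, 3, 3, 1, 1, -1],
    [1, -1, -1, 1, -1, 1, 1, 3, -1, 1, 1, 3, 1, 3, 3, 1],
    [1, -1, -1, 1, -1, 1, 1, 3, 1, 3, 3, 1, 3, 1, 1, -1],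
    [1, -1, -1, 1, 1, 3, 3, 1, -1, 1, 1, 3, 3, 1, 1, -1],
    [1, -1, 1, 3, -1, 1, 3, 1, -1, 1, 3, 1, 1, 3, 1, -1],
    [1, 1, -1, 3, -1, 3, 1, 1, -1, 3, 1, 1, 1, 1, 3, -1],
    [-2, -2, 0, 4, 0, 4, 2, 2, 0, 4, 2, 2, 2, 2, 4, 0],
    [-2, 0, -2, 4, 0, 2, 4, 2, 0, 2, 4, 2, 2, 4, 2, 0],
    [-2, 0, 0, 2, -2, 4, 4, 2, 0, 2, 2, 4, 4, 2, 2, 0],
    [-2, 0, 0, 2, 0, 2, 2, 4, -2, 4, 4, 2, 4, 2, 2, 0],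
    [-2, 0, 0, 2, 0, 2, 2, 4, 0, 2, 2, 4, 2, 4, 4, -2],
    [0, -2, -2, 4, 0, 2, 2, 4, 0, 2, 2, 4, 4, 2, 2, 0],
    [0, -2, 0, 2, -2, 4, 2, 4, 0, 2, 4, 2, 2, 4, 2, 0],
    [0, -2, 0, 2, 0, 2, 4, 2, -2, 4, 2, 4, 2, 4, 2, 0],
    [0, -2, 0, 2, 0, 2, 4, 2, 0, 2, 4, 2, 4, 2, 4, -2],
    [0, 0, -2, 2, -2, 2, 4, 4, 0, 4, 2, 2, 2, 2, 4, 0],
    [0, 0, -2, 2, 0, 4, 2, 2, -2, 2, 4, 4, 2, 2, 4, 0],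
    [0, 0, -2, 2, 0, 4, 2, 2, 0, 4, 2, 2, 4, 4, 2, -2],
    [0, 0, 0, 4, -2, 2, 2, 2, -2, 2, 2, 2, 4, 4, 4, 0],
    [0, 0, 0, 4, -2, 2, 2, 2, 0, 4, 4, 4, 2, 2, 2, -2],
    [0, 0, 0, 4, 0, 4, 4, 4, -2, 2, 2, 2, 2, 2, 2, -2],
    [-2, 0, 0, 2, 0, 2, 2, 0, 0, 2, 2, 0, 2, 0, 0, 2],
    [-2, 0, 0, 2, 0, 2, 2, 0, 2, 0, 0, 2, 0, 2, 2, 0],
    [-2, 0, 0, 2, 2, 0, 0, 2, 0, 2, 2, 0, 0, 2, 2, 0],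
    [-2, 0, 2, 0, 0, 2, 0, 2, 0, 2, 0, 2, 2, 0, 2, 0],
    [-2, 2, 0, 0, 0, 0, 2, 2, 0, 0, 2, 2, 2, 2, 0, 0],
    [0, -2, 0, 2, 0, 2, 0, 2, 0, 2, 0, 2, 0, 2, 0, 2],
    [0, -2, 0, 2, 0, 2, 0, 2, 2, 0, 2, 0, 2, 0, 2, 0],
    [0, -2, 0, 2, 2, 0, 2, 0, 0, 2, 0, 2, 2, 0, 2, 0],
    [0, -2, 2, 0, 0, 2, 2, 0, 0, 2, 2, 0, 0, 2, 2, 0],
    [0, 0, -2, 2, 0, 0, 2, 2, 0, 0, 2, 2, 0, 0, 2, 2],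
    [0, 0, -2, 2, 0, 0, 2, 2, 2, 2, 0, 0, 2, 2, 0, 0],
    [0, 0, -2, 2, 2, 2, 0, 0, 0, 0, 2, 2, 2, 2, 0, 0],
    [0, 0, 0, 0, -2, 2, 2, 2, 0, 0, 0, 0, 2, 2, 2, 2],
    [0, 0, 0, 0, -2, 2, 2, 2, 2, 2, 2, 2, 0, 0, 0, 0],
    [0, 0, 0, 0, 0, 0, 0, 0, -2, 2, 2, 2, 2, 2, 2, 2],
    [0, 0, 0, 0, 0, 0, 0, 0, 2, 2, 2, 2, 2, 2, 2, -2],
    [0, 0, 0, 0, 2, 2, 2, 2, -2, 2, 2, 2, 0, 0, 0, 0],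
    [0, 0, 0, 0, 2, 2, 2, 2, 0, 0, 0, 0, 2, 2, 2, -2],
    [0, 0, 2, 2, -2, 2, 0, 0, 0, 0, 2, 2, 2, 2, 0, 0],
    [0, 0, 2, 2, 0, 0, 2, 2, -2, 2, 0, 0, 2, 2, 0, 0],
    [0, 0, 2, 2, 0, 0, 2, 2, 0, 0, 2, 2, 0, 0, 2, -2],
    [0, 2, -2, 0, 0, 2, 2, 0, 0, 2, 2, 0, 0, 2, 2, 0],
    [0, 2, 0, 2, -2, 0, 2, 0, 0, 2, 0, 2, 2, 0, 2, 0],
    [0, 2, 0, 2, 0, 2, 0, 2, -2, 0, 2, 0, 2, 0, 2, 0],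
    [0, 2, 0, 2, 0, 2, 0, 2, 0, 2, 0, 2, 0, 2, 0, -2],
    [2, -2, 0, 0, 0, 0, 2, 2, 0, 0, 2, 2, 2, 2, 0, 0],
    [2, 0, -2, 0, 0, 2, 0, 2, 0, 2, 0, 2, 2, 0, 2, 0],
    [2, 0, 0, 2, -2, 0, 0, 2, 0, 2, 2, 0, 0, 2, 2, 0],
    [2, 0, 0, 2, 0, 2, 2, 0, -2, 0, 0, 2, 0, 2, 2, 0],
    [2, 0, 0, 2, 0, 2, 2, 0, 0, 2, 2, 0, 2, 0, 0, -2]]

def I4 : List (ℕ × Item) :=
  [(4, 0, 0, 1, 2, 4, 9),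
    (4, 0, 0, 1, 2, 4, 10),
    (4, 0, 0, 1, 2, 4, 11),
    (4, 0, 0, 1, 2, 4, 12),
    (4, 0, 0, 1, 2, 4, 13),
    (4, 0, 0, 1, 2, 4, 14),
    (4, 0, 0, 1, 2, 12, 4),
    (4, 0, 0, 1, 2, 13, 4),
    (4, 0, 0, 1, 2, 14, 4),
    (4, 0, 0, 1, 14, 2, 4),
    (1, 3, 0, 1, 2, 4, 8),
    (1, 3, 0, 1, 2, 8, 4),
    (1, 3, 0, 1, 2, 8, 15),
    (1, 3, 0, 1, 8, 2, 4),
    (1, 3, 0, 1, 8, 2, 15),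
    (1, 3, 0, 1, 8, 15, 2),
    (1, 3, 0, 8, 1, 2, 4),
    (1, 3, 0, 8, 1, 2, 15),
    (1, 3, 0, 8, 1, 15, 2),
    (1, 3, 0, 8, 15, 1, 2),
    (1, 3, 8, 8, 9, 10, 12),
    (1, 3, 8, 8, 9, 10, 7),
    (1, 3, 8, 8, 9, 7, 10),
    (1, 3, 8, 8, 7, 9, 10),
    (1, 3, 8, 7, 8, 9, 10),
    (2, 7, 0, 1, 2, 4, 8),
    (2, 7, 0, 2, 1, 4, 8),
    (2, 7, 0, 2, 4, 1, 8),
    (2, 7, 0, 2, 4, 8, 1),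
    (2, 7, 0, 2, 4, 8, 15),
    (2, 7, 2, 2, 3, 6, 10),
    (2, 7, 2, 2, 6, 3, 10),
    (2, 7, 2, 2, 6, 10, 3),
    (2, 7, 2, 2, 6, 10, 13),
    (2, 7, 2, 6, 2, 3, 10),
    (2, 7, 2, 6, 2, 10, 3),
    (2, 7, 2, 6, 2, 10, 13),
    (2, 7, 2, 6, 10, 2, 3),
    (2, 7, 2, 6, 10, 2, 13),
    (2, 7, 2, 6, 10, 13, 2),
    (2, 2, 0, 1, 2, 4, 8),
    (2, 2, 0, 1, 2, 4, 9),
    (2, 2, 0, 1, 2, 5, 8),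
    (2, 2, 0, 1, 3, 4, 8),
    (2, 2, 0, 3, 1, 4, 8),
    (2, 2, 1, 1, 3, 5, 9),
    (2, 2, 1, 1, 3, 5, 8),
    (2, 2, 1, 1, 3, 4, 9),
    (2, 2, 1, 1, 2, 5, 9),
    (2, 2, 1, 3, 1, 5, 9),
    (2, 2, 1, 3, 1, 5, 8),
    (2, 2, 1, 3, 1, 4, 9),
    (2, 2, 1, 3, 5, 1, 9),
    (2, 2, 1, 3, 5, 1, 8),
    (2, 2, 1, 3, 5, 9, 1),
    (2, 2, 1, 3, 5, 9, 14),
    (2, 2, 1, 3, 5, 8, 1),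
    (2, 2, 1, 3, 5, 8, 15),
    (2, 2, 1, 3, 4, 1, 9),
    (2, 2, 1, 3, 4, 9, 1),
    (2, 2, 1, 3, 4, 9, 15),
    (2, 2, 1, 2, 1, 5, 9),
    (2, 2, 1, 2, 5, 1, 9),
    (2, 2, 1, 2, 5, 9, 1),
    (2, 2, 1, 2, 5, 9, 15),
    (2, 2, 3, 3, 1, 4, 8),
    (2, 2, 3, 1, 3, 4, 8),
    (2, 2, 3, 1, 4, 3, 8),
    (2, 2, 3, 1, 4, 8, 3),
    (2, 2, 3, 1, 4, 8, 14)]

def tab4_0 : List Nd :=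
  [⟨[2, 7, 1, 3, 9, 0], [13, 14, 19, 21, 30, 32, 37, 38, 53, 58], (0, 0, 0), [], [((0, 1, 2), 38), ((0, 1, 8), 37), ((0, 2, 4), 58), ((0, 2, 8), 32), ((0, 4, 11), 21), ((1, 2, 8), 30), ((1, 4, 10), 19), ((1, 6, 8), 53), ((2, 4, 9), 14), ((3, 4, 8), 13)], 1, [[-2, -1, -1, -1, -1, -3], [-2, -1, -1, -1, -1, -3], [-2, -1, -1, -1, -1, -3], [-1, 0, -1, -1, 0, -1], [-2, -1, -1, -1, -1, -2], [0, 0, 0, 0, 1, 0], [-1, -1, -1, -1, -1, 0], [0, 1, 0, 0, 0, 0], [-2, -1, -1, -1, -1, -3], [-1, 0, 0, -1, -1, -1], [-1, -1, 0, 0, -1, -1], [-1, -1, -1, 0, 0, -1], [0, 0, 0, 1, 0, 0], [1, 0, 0, 0, 0, 0], [0, 0, 1, 0, 0, 0], [-2, -1, -1, -1, -1, -2]]⟩,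
    ⟨[14, 7, 1, 3, 9, 0], [2, 6, 16, 21, 26, 29, 32, 38, 44, 53], (0, 0, 0), [], [((0, 1, 2), 38), ((0, 1, 8), 6), ((0, 2, 4), 16), ((0, 2, 8), 32), ((0, 4, 11), 21), ((1, 2, 8), 44), ((1, 4, 8), 2), ((1, 4, 10), 29), ((1, 6, 8), 53), ((3, 4, 8), 26)], 1, [[-2, -1, -1, 1, 1, -2], [-3, -1, -1, 0, 1, -1], [-1, -1, -1, 0, 0, -2], [-1, 0, -1, 0, 0, -1], [-2, -1, -1, 1, 1, -2], [0, 0, 0, 0, 1, 0], [-1, -1, -1, 0, 0, 0], [0, 1, 0, 0, 0, 0], [-3, -1, -1, 1, 0, -1], [0, 0, 0, 0, 0, 0], [-1, -1, 0, 0, 0, -1], [-1, -1, -1, 0, 0, 0], [0, 0, 0, 1, 0, 0], [0, 0, 0, 0, 0, 0], [0, 0, 1, 0, 0, 0], [-1, -1, -1, 0, 0, -2]]⟩,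
    ⟨[21, 7, 1, 3, 9, 0], [2, 4, 14, 23, 31, 32, 36, 38, 53, 67], (0, 0, 0), [], [((0, 1, 2), 38), ((0, 1, 8), 67), ((0, 2, 4), 23), ((0, 2, 8), 32), ((1, 2, 8), 4), ((1, 4, 8), 2), ((1, 4, 10), 36), ((1, 6, 8), 53), ((2, 4, 9), 14), ((3, 4, 8), 31)], 1, [[-1, 0, 0, -1, -1, -2], [-3, 1, 0, -1, -1, -1], [-2, 1, 1, -1, -1, -2], [-1, 0, 0, -1, 0, -1], [-2, 1, 1, -1, -1, -2], [0, 0, 0, 0, 1, 0], [-1, 0, 0, -1, -1, 0], [0, 1, 0, 0, 0, 0], [-3, 0, 1, -1, -1, -1], [-1, 0, 0, -1, -1, 0], [-1, 0, 0, 0, -1, -1], [0, 0, 0, 0, 0, 0], [0, 0, 0, 1, 0, 0], [0, 0, 0, 0, 0, 0], [0, 0, 1, 0, 0, 0], [-1, 0, 0, -1, -1, -2]]⟩,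
    ⟨[32, 7, 1, 3, 9, 0], [2, 5, 14, 15, 21, 22, 34, 38, 47, 53], (0, 0, 0), [], [((0, 1, 2), 38), ((0, 1, 8), 22), ((0, 2, 4), 34), ((0, 4, 11), 21), ((1, 2, 8), 15), ((1, 4, 8), 2), ((1, 4, 10), 5), ((1, 6, 8), 53), ((2, 4, 9), 14), ((3, 4, 8), 47)], 1, [[-1, 0, -1, -1, 1, -2], [-3, 1, -1, -1, 1, 0], [-1, 1, -1, -1, 0, -2], [-1, 0, -1, -1, 0, 0], [-3, 1, -1, -1, 1, 0], [0, 0, 0, 0, 1, 0], [-1, 0, -1, -1, 0, 0], [0, 1, 0, 0, 0, 0], [-2, 0, -1, -1, 0, 0], [-1, 0, 0, -1, 0, 0], [0, 0, 0, 0, 0, 0], [-1, 0, -1, 0, 0, 0], [0, 0, 0, 1, 0, 0], [0, 0, 0, 0, 0, 0], [0, 0, 1, 0, 0, 0], [-2, 0, -1, -1, 0, 0]]⟩,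
    ⟨[38, 7, 1, 3, 9, 0], [2, 10, 14, 20, 21, 25, 32, 40, 53, 64], (0, 0, 0), [], [((0, 1, 8), 25), ((0, 2, 4), 40), ((0, 2, 8), 32), ((0, 4, 11), 21), ((1, 2, 8), 20), ((1, 4, 8), 2), ((1, 4, 10), 64), ((1, 6, 8), 53), ((2, 4, 9), 14), ((3, 4, 8), 10)], 1, [[-1, -1, 0, 1, -1, -2], [-2, -1, 0, 0, -1, 0], [-1, -1, 1, 0, -1, -2], [0, 0, 0, 0, 0, 0], [-3, -1, 1, 1, -1, 0], [0, 0, 0, 0, 1, 0], [-1, -1, 0, 0, -1, 0], [0, 1, 0, 0, 0, 0], [-3, -1, 1, 1, -1, 0], [-1, 0, 0, 0, -1, 0], [-1, -1, 0, 0, -1, 0], [-1, -1, 0, 0, 0, 0], [0, 0, 0, 1, 0, 0], [0, 0, 0, 0, 0, 0], [0, 0, 1, 0, 0, 0], [-2, -1, 0, 0, -1, 0]]⟩,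
    ⟨[53, 7, 1, 3, 9, 0], [2, 8, 11, 14, 17, 21, 28, 32, 35, 38], (0, 0, 0), [], [((0, 1, 2), 38), ((0, 1, 8), 35), ((0, 2, 4), 8), ((0, 2, 8), 32), ((0, 4, 11), 21), ((1, 2, 8), 28), ((1, 4, 8), 2), ((1, 4, 10), 17), ((2, 4, 9), 14), ((3, 4, 8), 11)], 1, [[-2, 0, 0, 1, 1, -3], [-2, 1, 0, 0, 1, -3], [-2, 1, 1, 0, 0, -3], [-1, 0, 0, 0, 0, -1], [-3, 1, 1, 1, 1, -2], [0, 0, 0, 0, 1, 0], [0, 0, 0, 0, 0, 0], [0, 1, 0, 0, 0, 0], [-2, 0, 1, 1, 0, -3], [-1, 0, 0, 0, 0, -1], [-1, 0, 0, 0, 0, -1], [-1, 0, 0, 0, 0, -1], [0, 0, 0, 1, 0, 0], [0, 0, 0, 0, 0, 0], [0, 0, 1, 0, 0, 0], [-1, 0, 0, 0, 0, -2]]⟩,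
    ⟨[7, 1, 3, 9, 0], [2, 4, 5, 6, 8, 10, 11, 13, 14, 15, 16, 17, 19, 20, 21, 22, 23, 25, 26, 28, 29, 30, 31, 32, 34, 35, 36, 37, 38, 40, 44, 47, 53, 58, 64, 67], (0, 2, 13), [(2, 0), (14, 1), (21, 2), (32, 3), (38, 4), (53, 5)], [], 0, []⟩,
    ⟨[11, 1, 3, 9, 0], [7, 8, 10, 13, 17, 26, 28, 31, 35, 47, 53], (0, 0, 0), [], [((0, 1, 2), 10), ((0, 1, 8), 35), ((0, 2, 4), 8), ((0, 2, 8), 47), ((0, 2, 13), 53), ((0, 4, 11), 31), ((1, 2, 4), 7), ((1, 2, 8), 28), ((1, 4, 8), 13), ((1, 4, 10), 17), ((2, 4, 9), 26)], 1, [[-3, -1, -1, 1, -1], [-2, -1, -1, 1, -2], [-3, -1, -1, 0, -1], [0, 0, 0, 0, 0], [-2, -1, -1, 1, -2], [0, 0, 0, 1, 0], [0, 0, 0, 0, 0], [0, 0, 0, 0, 0], [-1, -1, -1, 0, -2], [-1, -1, 0, 0, -1], [-1, -1, -1, 0, 0], [-1, 0, -1, 0, -1], [0,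 0, 1, 0, 0], [-1, -1, -1, 0, 0], [0, 1, 0, 0, 0], [-1, -1, -1, 0, -2]]⟩,
    ⟨[21, 1, 3, 9, 0], [2, 4, 7, 14, 23, 31, 32, 36, 38, 53, 67], (0, 0, 0), [], [((0, 1, 2), 38), ((0, 1, 8), 67), ((0, 2, 4), 23), ((0, 2, 8), 32), ((1, 2, 4), 7), ((1, 2, 8), 4), ((1, 4, 8), 2), ((1, 4, 10), 36), ((1, 6, 8), 53), ((2, 4, 9), 14), ((3, 4, 8), 31)], 1, [[-1, 0, -1, -1, -2], [-3, 0, -1, -1, -1], [-2, 1, -1, -1, -2], [-1, 0, -1, 0, -1], [-2, 1, -1, -1, -2], [0, 0, 0, 1, 0], [-1, 0, -1, -1, 0], [0, 0, 0, 0, 0], [-3, 1, -1, -1, -1], [-1, 0, -1, -1, 0], [-1, 0, 0, -1, -1], [0, 0, 0, 0, 0], [0, 0, 1, 0, 0], [0, 0, 0, 0, 0], [0, 1, 0, 0, 0], [-1, 0, -1, -1, -2]]⟩,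
    ⟨[22, 1, 3, 9, 0], [5, 6, 7, 15, 25, 32, 34, 35, 37, 47, 67], (0, 0, 0), [], [((0, 1, 2), 25), ((0, 2, 4), 34), ((0, 2, 13), 32), ((0, 4, 11), 67), ((1, 2, 4), 7), ((1, 2, 8), 15), ((1, 4, 8), 37), ((1, 4, 10), 5), ((1, 6, 8), 35), ((2, 4, 9), 6), ((3, 4, 8), 47)], 1, [[-1, -1, 0, -1, -2], [-2, -1, 1, -1, -2], [-2, -1, 1, -1, -2], [-1, -1, 0, -1, 0], [-3, -1, 0, -1, -1], [0, 0, 0, 1, 0], [-1, -1, 0, 0, -1], [0, 0, 0, 0, 0], [-1, -1, 0, -1, -2], [0, 0, 0, 0, 0], [0, 0, 0, 0, 0], [-1, -1, 0, -1, 0], [0, 0, 1, 0, 0], [-1, 0, 0, -1, -1], [0, 1, 0, 0, 0], [-3, -1, 1, -1, -1]]⟩,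
    ⟨[31, 1, 3, 9, 0], [4, 7, 10, 11, 13, 21, 23, 26, 36, 47, 67], (0, 0, 0), [], [((0, 1, 2), 10), ((0, 1, 8), 67), ((0, 2, 4), 23), ((0, 2, 8), 47), ((0, 2, 13), 21), ((1, 2, 4), 7), ((1, 2, 8), 4), ((1, 4, 8), 13), ((1, 4, 10), 36), ((1, 6, 8), 11), ((2, 4, 9), 26)], 1, [[-2, -1, 0, -1, 0], [-3, -1, 1, -1, 0], [-3, -1, 1, -1, 0], [0, 0, 0, 0, 0], [-1, -1, 0, -1, -2], [0, 0, 0, 1, 0], [-1, 0, 0, -1, 0], [0, 0, 0, 0, 0], [-2, -1, 0, -1, 0], [-1, -1, 0, -1, 0], [-1, -1, 0, -1, 0], [0, 0, 0, 0, 0], [0, 0, 1, 0, 0], [-1, -1, 0, 0, 0], [0, 1, 0, 0, 0], [-1, -1, 1, -1, -2]]⟩,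
    ⟨[32, 1, 3, 9, 0], [2, 5, 7, 14, 15, 21, 22, 34, 38, 47, 53], (0, 0, 0), [], [((0, 1, 2), 38), ((0, 1, 8), 22), ((0, 2, 4), 34), ((0, 4, 11), 21), ((1, 2, 4), 7), ((1, 2, 8), 15), ((1, 4, 8), 2), ((1, 4, 10), 5), ((1, 6, 8), 53), ((2, 4, 9), 14), ((3, 4, 8), 47)], 1, [[-1, -1, -1, 1, -2], [-3, -1, -1, 1, 0], [-1, -1, -1, 0, -2], [-1, -1, -1, 0, 0], [-3, -1, -1, 1, 0], [0, 0, 0, 1, 0], [-1, -1, -1, 0, 0], [0, 0, 0, 0, 0], [-2, -1, -1, 0, 0], [-1, 0, -1, 0, 0], [0, 0, 0, 0, 0], [-1, -1, 0, 0, 0], [0, 0, 1, 0, 0], [0, 0, 0, 0, 0], [0, 1, 0, 0, 0], [-2, -1, -1, 0, 0]]⟩,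
    ⟨[35, 1, 3, 9, 0], [6, 7, 8, 11, 17, 22, 25, 28, 37, 53, 67], (0, 0, 0), [], [((0, 1, 2), 25), ((0, 2, 4), 8), ((0, 2, 8), 22), ((0, 2, 13), 53), ((0, 4, 11), 67), ((1, 2, 4), 7), ((1, 2, 8), 28), ((1, 4, 8), 37), ((1, 4, 10), 17), ((2, 4, 9), 6), ((3, 4, 8), 11)], 1, [[-2, 0, -1, -1, 0], [-1, 0, -1, -1, -2], [-3, 1, -1, -1, 0], [-1, 0, 0, -1, 0], [-3, 1, -1, -1, 0], [0, 0, 0, 1, 0], [0, 0, 0, 0, 0], [0, 0, 0, 0, 0], [-1, 1, -1, -1, -2], [0, 0, 0, 0, 0], [-1, 0, -1, 0, 0], [-1, 0, -1, -1, 0], [0, 0, 1, 0, 0], [-1, 0, -1, -1, 0], [0, 1, 0, 0, 0], [-2, 0, -1, -1, 0]]⟩,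
    ⟨[47, 1, 3, 9, 0], [5, 7, 10, 11, 13, 15, 22, 26, 31, 32, 34], (0, 0, 0), [], [((0, 1, 2), 10), ((0, 1, 8), 22), ((0, 2, 4), 34), ((0, 2, 13), 32), ((0, 4, 11), 31), ((1, 2, 4), 7), ((1, 2, 8), 15), ((1, 4, 8), 13), ((1, 4, 10), 5), ((1, 6, 8), 11), ((2, 4, 9), 26)], 1, [[-2, 1, 0, 1, -3], [-3, 1, 1, 1, -2], [-2, 0, 1, 0, -3], [0, 0, 0, 0, 0], [-2, 0, 0, 1, -3], [0, 0, 0, 1, 0], [-1, 0, 0, 0, -1], [0, 0, 0, 0, 0], [-1, 0, 0, 0, -2], [-1, 0, 0, 0, -1], [0, 0, 0, 0, 0], [-1, 0, 0, 0, -1], [0, 0, 1, 0, 0], [-1, 0, 0, 0, -1], [0, 1, 0, 0, 0], [-2, 1, 1, 0, -3]]⟩,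
    ⟨[53, 1, 3, 9, 0], [2, 7, 8, 11, 14, 17, 21, 28, 32, 35, 38], (0, 0, 0), [], [((0, 1, 2), 38), ((0, 1, 8), 35), ((0, 2, 4), 8), ((0, 2, 8), 32), ((0, 4, 11), 21), ((1, 2, 4), 7), ((1, 2, 8), 28), ((1, 4, 8), 2), ((1, 4, 10), 17), ((2, 4, 9), 14), ((3, 4, 8), 11)], 1, [[-2, 0, 1, 1, -3], [-2, 0, 0, 1, -3], [-2, 1, 0, 0, -3], [-1, 0, 0, 0, -1], [-3, 1, 1, 1, -2], [0, 0, 0, 1, 0], [0, 0, 0, 0, 0], [0, 0, 0, 0, 0], [-2, 1, 1, 0, -3], [-1, 0, 0, 0, -1], [-1, 0, 0, 0, -1], [-1, 0, 0, 0, -1], [0, 0, 1, 0, 0], [0, 0, 0, 0, 0], [0, 1, 0, 0, 0], [-1, 0, 0, 0, -2]]⟩,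
    ⟨[67, 1, 3, 9, 0], [4, 6, 7, 21, 22, 23, 25, 31, 35, 36, 37], (0, 0, 0), [], [((0, 1, 2), 25), ((0, 2, 4), 23), ((0, 2, 8), 22), ((0, 2, 13), 21), ((1, 2, 4), 7), ((1, 2, 8), 4), ((1, 4, 8), 37), ((1, 4, 10), 36), ((1, 6, 8), 35), ((2, 4, 9), 6), ((3, 4, 8), 31)], 1, [[-1, 0, 0, 0, -2], [-2, 0, 1, 0, -3], [-3, 1, 1, 1, -2], [-1, 0, 0, 0, -1], [-2, 1, 0, 0, -3], [0, 0, 0, 1, 0], [-1, 0, 0, 0, -1], [0, 0, 0, 0, 0], [-2, 1, 0, 1, -3], [0, 0, 0, 0, 0], [-1, 0, 0, 0, -1], [0, 0, 0, 0, 0], [0, 0, 1, 0, 0], [-1, 0, 0, 0, -1], [0, 1, 0, 0, 0], [-2, 0, 1, 1, -3]]⟩,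
    ⟨[1, 3, 9, 0], [2, 4, 5, 6, 7, 8, 10, 11, 13, 14, 15, 16, 17, 19, 20, 21, 22, 23, 25, 26, 28, 29, 30, 31, 32, 34, 35, 36, 37, 38, 40, 44, 47, 53, 58, 64, 67], (0, 7, 8), [(7, 6), (11, 7), (21, 8), (22, 9), (31, 10), (32, 11), (35, 12), (47, 13), (53, 14), (67, 15)], [], 0, []⟩,
    ⟨[7, 17, 3, 9, 0], [1, 5, 8, 11, 19, 28, 29, 35, 36, 53, 64], (0, 0, 0), [], [((0, 1, 2), 64), ((0, 1, 8), 35), ((0, 2, 4), 8), ((0, 2, 8), 5), ((0, 2, 13), 53), ((0, 4, 11), 36), ((1, 2, 8), 28), ((1, 4, 8), 19), ((2, 4, 8), 1), ((2, 4, 9), 29), ((3, 4, 8), 11)], 1, [[-1, -3, 1, -1, -1], [-1, -1, 0, -1, -2], [-1, -3, 0, -1, -1], [-1, -1, 0, -1, 0], [-1, -2, 1, -1, -2], [0, 0, 0, 1, 0], [0, 0, 0, 0, 0], [1, 0, 0, 0, 0], [-1, -2, 1, -1, -2], [-1, -1, 0, 0, -1],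 [0, 0, 0, 0, 0], [0, -1, 0, -1, -1], [0, 0, 1, 0, 0], [-1, -1, 0, -1, 0], [0, 0, 0, 0, 0], [-1, -1, 0, -1, -2]]⟩,
    ⟨[11, 17, 3, 9, 0], [1, 5, 7, 8, 10, 27, 28, 35, 36, 41, 53], (0, 0, 0), [], [((0, 1, 2), 10), ((0, 1, 8), 35), ((0, 2, 4), 8), ((0, 2, 8), 5), ((0, 2, 13), 53), ((0, 4, 11), 36), ((1, 2, 4), 7), ((1, 2, 8), 28), ((1, 4, 8), 27), ((2, 4, 8), 1), ((2, 4, 9), 41)], 1, [[-1, -2, 1, 0, -1], [-2, 0, 0, 1, -2], [-2, -2, 0, 0, 0], [0, 0, 0, 0, 0], [-1, -2, 1, 0, -1], [0, 0, 0, 1, 0], [0, 0, 0, 0, 0], [0, 0, 0, 0, 0], [0, -2, 1, 0, -2], [-1, -1, 0, 0, 0], [0, 0, 0, 0, 0], [0, -1, 0, -1, -1], [0, 0, 1, 0, 0], [-1, -1, 0, 0, 0], [0, 0, 0, 0, 0], [0, -1, 0, -1, -1]]⟩,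
    ⟨[35, 17, 3, 9, 0], [1, 5, 6, 7, 8, 11, 25, 28, 36, 37, 53], (0, 0, 0), [], [((0, 1, 2), 25), ((0, 2, 4), 8), ((0, 2, 8), 5), ((0, 2, 13), 53), ((0, 4, 11), 36), ((1, 2, 4), 7), ((1, 2, 8), 28), ((1, 4, 8), 37), ((2, 4, 8), 1), ((2, 4, 9), 6), ((3, 4, 8), 11)], 1, [[0, -2, 1, -1, -1], [-1, 1, -1, -1, -2], [-2, -1, 0, -1, 0], [-1, 0, 0, -1, 0], [-2, 0, 0, -1, -1], [0, 0, 0, 1, 0], [0, 0, 0, 0, 0], [0, 0, 0, 0, 0], [0, -1, 0, -1, -2], [0, 0, 0, 0, 0], [0, 0, 0, 0, 0], [0, -1, 0, -1, -1], [0, 0, 1, 0, 0], [-1, 0, -1, -1, 0], [0, 0, 0, 0, 0], [-1, 0, 0, -1, -1]]⟩,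
    ⟨[53, 17, 3, 9, 0], [1, 2, 5, 7, 8, 11, 14, 28, 35, 36, 38], (0, 0, 0), [], [((0, 1, 2), 38), ((0, 1, 8), 35), ((0, 2, 4), 8), ((0, 2, 8), 5), ((0, 4, 11), 36), ((1, 2, 4), 7), ((1, 2, 8), 28), ((1, 4, 8), 2), ((2, 4, 8), 1), ((2, 4, 9), 14), ((3, 4, 8), 11)], 1, [[0, -2, 1, 0, -2], [-2, 1, 0, 1, -3], [-1, -1, 0, 0, -2], [-1, 0, 0, 0, -1], [-2, 0, 1, 0, -2], [0, 0, 0, 1, 0], [0, 0, 0, 0, 0], [0, 0, 0, 0, 0], [-1, -1, 1, 0, -2], [-1, 0, 0, 0, -1], [0, 0, 0, 0, 0], [0, -1, 0, -1, -1], [0, 0, 1, 0, 0], [0, 0, 0, 0, 0], [0, 0, 0, 0, 0], [0, 0, 0, -1, -2]]⟩,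
    ⟨[17, 3, 9, 0], [1, 2, 5, 6, 7, 8, 10, 11, 14, 19, 25, 27, 28, 29, 35, 36, 37, 38, 41, 53, 64], (0, 7, 8), [(7, 17), (11, 18), (35, 19), (53, 20)], [], 0, []⟩,
    ⟨[7, 25, 3, 9, 0], [1, 6, 10, 20, 22, 35, 37, 38, 40, 64, 67], (0, 0, 0), [], [((0, 2, 4), 40), ((0, 2, 8), 22), ((0, 2, 13), 38), ((0, 4, 11), 67), ((1, 2, 8), 20), ((1, 4, 8), 37), ((1, 4, 10), 64), ((1, 6, 8), 35), ((2, 4, 8), 1), ((2, 4, 9), 6), ((3, 4, 8), 10)], 1, [[-1, -1, -1, 0, -2], [-1, -1, -1, 0, -2], [-1, -2, -1, 1, -2], [0, 0, 0, 0, 0], [-1, -3, -1, 0, -1], [0, 0, 0, 1, 0], [-1, -1, 0, 0, -1], [1, 0, 0, 0, 0], [-1, -2, -1, 1, -2], [0, 0, 0, 0, 0], [-1, -1, -1, 0, 0], [-1, -1, -1, 0, 0], [0, 0, 1, 0, 0], [0, -1, -1, 0, -1], [0, 0, 0, 0, 0], [-1, -3, -1, 1, -1]]⟩,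
    ⟨[22, 25, 3, 9, 0], [1, 5, 6, 7, 10, 35, 37, 38, 39, 67, 70], (0, 0, 0), [], [((0, 2, 4), 70), ((0, 2, 13), 38), ((0, 4, 11), 67), ((1, 2, 4), 7), ((1, 2, 8), 39), ((1, 4, 8), 37), ((1, 4, 10), 5), ((1, 6, 8), 35), ((2, 4, 8), 1), ((2, 4, 9), 6), ((3, 4, 8), 10)], 1, [[0, -1, -1, 0, -1], [-2, 0, 1, 0, -2], [-1, -2, 0, 1, -1], [0, 0, 0, 0, 0], [-2, -2, 0, 0, 0], [0, 0, 0, 1, 0], [-1, -1, 0, 0, 0], [0, 0, 0, 0, 0], [0, -2, 0, 1, -2], [0, 0, 0, 0, 0], [0, 0, 0, 0, 0], [-1, -1, 0, 0, 0], [0, 0, 1, 0, 0], [0, -1, -1, 0, -1], [0, 0, 0, 0, 0], [-1, -2, 0, 1, -1]]⟩,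
    ⟨[35, 25, 3, 9, 0], [1, 6, 7, 8, 10, 17, 22, 28, 37, 38, 67], (0, 0, 0), [], [((0, 2, 4), 8), ((0, 2, 8), 22), ((0, 2, 13), 38), ((0, 4, 11), 67), ((1, 2, 4), 7), ((1, 2, 8), 28), ((1, 4, 8), 37), ((1, 4, 10), 17), ((2, 4, 8), 1), ((2, 4, 9), 6), ((3, 4, 8), 10)], 1, [[-1, 0, -1, 0, -1], [-1, 1, -1, -1, -2], [-2, 0, -1, 0, -1], [0, 0, 0, 0, 0], [-2, -1, -1, 0, 0], [0, 0, 0, 1, 0], [0, 0, 0, 0, 0], [0, 0, 0, 0, 0], [0, -1, -1, 0, -2], [0, 0, 0, 0, 0], [-1, 0, -1, 0, 0], [-1, 0, -1, -1, 0], [0, 0, 1, 0, 0], [0, -1, -1, 0, -1], [0, 0, 0, 0, 0], [0, -2, -1, 1, -1]]⟩,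
    ⟨[67, 25, 3, 9, 0], [1, 4, 6, 7, 10, 22, 23, 35, 36, 37, 38], (0, 0, 0), [], [((0, 2, 4), 23), ((0, 2, 8), 22), ((0, 2, 13), 38), ((1, 2, 4), 7), ((1, 2, 8), 4), ((1, 4, 8), 37), ((1, 4, 10), 36), ((1, 6, 8), 35), ((2, 4, 8), 1), ((2, 4, 9), 6), ((3, 4, 8), 10)], 1, [[0, 0, -1, 0, -2], [-2, 1, 1, 0, -3], [-2, 0, 0, 1, -2], [0, 0, 0, 0, 0], [-1, -1, 0, 0, -2], [0, 0, 0, 1, 0], [-1, 0, 0, 0, -1], [0, 0, 0, 0, 0], [-1, -1, 0, 1, -2], [0, 0, 0, 0, 0], [-1, 0, 0, 0, -1], [0, 0, 0, 0, 0], [0, 0, 1, 0, 0], [0, -1, -1, 0, -1], [0, 0, 0, 0, 0], [0, -2, 0, 1, -2]]⟩,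
    ⟨[25, 3, 9, 0], [1, 4, 5, 6, 7, 8, 10, 17, 20, 22, 23, 28, 35, 36, 37, 38, 39, 40, 64, 67, 70], (0, 7, 8), [(7, 22), (22, 23), (35, 24), (67, 25)], [], 0, []⟩,
    ⟨[7, 36, 3, 9, 0], [1, 4, 5, 17, 19, 21, 23, 29, 31, 64, 67], (0, 0, 0), [], [((0, 1, 2), 64), ((0, 1, 8), 67), ((0, 2, 4), 23), ((0, 2, 8), 5), ((0, 2, 13), 21), ((1, 2, 8), 4), ((1, 4, 8), 19), ((1, 6, 8), 17), ((2, 4, 8), 1), ((2, 4, 9), 29), ((3, 4, 8), 31)], 1, [[-1, -2, -1, 0, 0], [-1, -2, -1, 0, 0], [-1, -3, -1, 1, 0], [-1, -1, -1, 0, 0], [-1, -1, -1, 0, -2], [0, 0, 0, 1, 0], [0, -1, -1, 0, 0], [1, 0, 0, 0, 0], [-1, -3, -1, 1, 0], [-1, -1, -1, 0, 0], [0, 0, 0, 0, 0], [0, 0, 0, 0, 0], [0, 0, 1, 0, 0], [-1, -1, 0, 0, 0], [0, 0, 0, 0, 0], [-1, -1, -1, 1, -2]]⟩,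
    ⟨[21, 36, 3, 9, 0], [1, 2, 4, 5, 7, 14, 17, 23, 31, 38, 67], (0, 0, 0), [], [((0, 1, 2), 38), ((0, 1, 8), 67), ((0, 2, 4), 23), ((0, 2, 8), 5), ((1, 2, 4), 7), ((1, 2, 8), 4), ((1, 4, 8), 2), ((1, 6, 8), 17), ((2, 4, 8), 1), ((2, 4, 9), 14), ((3, 4, 8), 31)], 1, [[0, -1, -1, 0, -1], [-2, 0, -1, 0, -1], [-1, -1, -1, 0, -1], [-1, 0, -1, 0, -1], [-2, 1, -1, -1, -2], [0, 0, 0, 1, 0], [0, -1, -1, 0, 0], [0, 0, 0, 0, 0], [-1, -2, -1, 1, 0], [-1, 0, -1, -1, 0], [0, 0, 0, 0, 0], [0, 0, 0, 0, 0], [0, 0, 1, 0, 0], [0, 0, 0, 0, 0], [0, 0, 0, 0, 0], [0, 0, -1, 0, -2]]⟩,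
    ⟨[31, 36, 3, 9, 0], [1, 4, 5, 7, 10, 12, 17, 21, 23, 52, 67], (0, 0, 0), [], [((0, 1, 2), 10), ((0, 1, 8), 67), ((0, 2, 4), 23), ((0, 2, 8), 5), ((0, 2, 13), 21), ((1, 2, 4), 7), ((1, 2, 8), 4), ((1, 4, 8), 52), ((1, 6, 8), 17), ((2, 4, 8), 1), ((2, 4, 9), 12)], 1, [[-1, -1, 0, 0, 0], [-2, -1, 0, 0, 1], [-2, -2, 1, 1, 1], [0, 0, 0, 0, 0], [-1, -1, 0, 0, 0], [0, 0, 0, 1, 0], [0, -1, -1, 0, 0], [0, 0, 0, 0, 0], [0, -3, -1, 1, 1], [-1, -1, 0, 0, 1], [0, 0, 0, 0, 0], [0, 0, 0, 0, 0], [0, 0, 1, 0, 0], [-1, -1, 0, 0, 1], [0, 0, 0, 0, 0], [0, -1, 0, 1, -1]]⟩,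
    ⟨[67, 36, 3, 9, 0], [1, 4, 5, 6, 7, 17, 21, 23, 25, 31, 37], (0, 0, 0), [], [((0, 1, 2), 25), ((0, 2, 4), 23), ((0, 2, 8), 5), ((0, 2, 13), 21), ((1, 2, 4), 7), ((1, 2, 8), 4), ((1, 4, 8), 37), ((1, 6, 8), 17), ((2, 4, 8), 1), ((2, 4, 9), 6), ((3, 4, 8), 31)], 1, [[0, -1, 0, 0, -1], [-1, 0, 0, 0, -2], [-2, -1, 1, 1, -1], [-1, 0, 0, 0, -1], [-2, 1, 0, 0, -3], [0, 0, 0, 1, 0], [0, -1, -1, 0, 0], [0, 0, 0, 0, 0], [0, -2, -1, 1, -1], [0, 0, 0, 0, 0], [0, 0, 0, 0, 0], [0, 0, 0, 0, 0], [0, 0, 1, 0, 0], [-1, 0, 0, 0, -1], [0, 0, 0, 0, 0], [-1, 0, 0, 1, -2]]⟩,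
    ⟨[36, 3, 9, 0], [1, 2, 4, 5, 6, 7, 10, 12, 14, 17, 19, 21, 23, 25, 29, 31, 37, 38, 52, 64, 67], (0, 7, 8), [(7, 27), (21, 28), (31, 29), (67, 30)], [], 0, []⟩,
    ⟨[7, 38, 3, 9, 0], [1, 2, 10, 14, 20, 21, 25, 32, 40, 53, 64], (0, 0, 0), [], [((0, 1, 8), 25), ((0, 2, 4), 40), ((0, 2, 8), 32), ((0, 4, 11), 21), ((1, 2, 8), 20), ((1, 4, 8), 2), ((1, 4, 10), 64), ((1, 6, 8), 53), ((2, 4, 8), 1), ((2, 4, 9), 14), ((3, 4, 8), 10)], 1, [[-1, -1, 1, -1, -2], [-1, -2, 0, -1, 0], [-1, -1, 0, -1, -2], [0, 0, 0, 0, 0], [-1, -3, 1, -1, 0], [0, 0, 0, 1, 0], [-1, -1, 0, -1, 0], [1, 0, 0, 0, 0], [-1, -3, 1, -1, 0], [0, -1, 0, -1, 0], [-1, -1, 0, -1, 0], [-1, -1, 0, 0, 0], [0, 0, 1, 0, 0], [0, 0, 0, 0, 0], [0, 0, 0, 0, 0], [-1, -2, 0, -1, 0]]⟩,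
    ⟨[21, 38, 3, 9, 0], [1, 2, 4, 7, 10, 14, 23, 25, 32, 36, 53], (0, 0, 0), [], [((0, 1, 8), 25), ((0, 2, 4), 23), ((0, 2, 8), 32), ((1, 2, 4), 7), ((1, 2, 8), 4), ((1, 4, 8), 2), ((1, 4, 10), 36), ((1, 6, 8), 53), ((2, 4, 8), 1), ((2, 4, 9), 14), ((3, 4, 8), 10)], 1, [[0, 0, 0, -1, -2], [-2, 0, 0, -1, -1], [-2, 1, -1, -1, -2], [0, 0, 0, 0, 0], [-1, -1, 0, -1, -1], [0, 0, 0, 1, 0], [-1, 0, -1, -1, 0], [0, 0, 0, 0, 0], [-1, -2, 1, -1, 0], [0, -1, 0, -1, 0], [-1, 0, 0, -1, -1], [0, 0, 0, 0, 0], [0, 0, 1, 0, 0], [0, 0, 0, 0, 0], [0, 0, 0, 0, 0], [0, -1, 0, -1, -1]]⟩,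
    ⟨[32, 38, 3, 9, 0], [1, 2, 5, 7, 10, 14, 21, 24, 25, 53, 59], (0, 0, 0), [], [((0, 1, 8), 25), ((0, 2, 4), 24), ((0, 4, 11), 21), ((1, 2, 4), 7), ((1, 2, 8), 59), ((1, 4, 8), 2), ((1, 4, 10), 5), ((1, 6, 8), 53), ((2, 4, 8), 1), ((2, 4, 9), 14), ((3, 4, 8), 10)], 1, [[0, -1, 1, 0, -1], [-2, -1, 0, 0, 1], [-1, -1, 0, 0, 0], [0, 0, 0, 0, 0], [-2, -2, 1, 1, 1], [0, 0, 0, 1, 0], [-1, -1, 0, 0, 1], [0, 0, 0, 0, 0], [0, -3, 1, -1, 1], [0, -1, 0, -1, 0], [0, 0, 0, 0, 0], [-1, -1, 0, 0, 1], [0, 0, 1, 0, 0], [0, 0, 0, 0, 0], [0, 0, 0, 0, 0], [-1, -1, 0, 0, 0]]⟩,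
    ⟨[53, 38, 3, 9, 0], [1, 2, 7, 8, 10, 14, 17, 21, 25, 28, 32], (0, 0, 0), [], [((0, 1, 8), 25), ((0, 2, 4), 8), ((0, 2, 8), 32), ((0, 4, 11), 21), ((1, 2, 4), 7), ((1, 2, 8), 28), ((1, 4, 8), 2), ((1, 4, 10), 17), ((2, 4, 8), 1), ((2, 4, 9), 14), ((3, 4, 8), 10)], 1, [[-1, 0, 1, 0, -2], [-1, 0, 0, 0, -2], [-2, 1, 0, 0, -3], [0, 0, 0, 0, 0], [-2, -1, 1, 1, -1], [0, 0, 0, 1, 0], [0, 0, 0, 0, 0], [0, 0, 0, 0, 0], [0, -2, 1, -1, -1], [0, -1, 0, -1, 0], [-1, 0, 0, 0, -1], [-1, 0, 0, 0, -1], [0, 0, 1, 0, 0], [0, 0, 0, 0, 0], [0, 0, 0, 0, 0], [0, -1, 0, 0, -1]]⟩,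
    ⟨[38, 3, 9, 0], [1, 2, 4, 5, 7, 8, 10, 14, 17, 20, 21, 23, 24, 25, 28, 32, 36, 40, 53, 59, 64], (0, 7, 8), [(7, 32), (21, 33), (32, 34), (53, 35)], [], 0, []⟩,
    ⟨[21, 3, 9, 0], [1, 2, 4, 7, 14, 23, 31, 32, 36, 38, 53, 67], (0, 0, 0), [], [((0, 1, 2), 38), ((0, 1, 8), 67), ((0, 2, 4), 23), ((0, 2, 8), 32), ((1, 2, 4), 7), ((1, 2, 8), 4), ((1, 4, 8), 2), ((1, 4, 10), 36), ((1, 6, 8), 53), ((2, 4, 8), 1), ((2, 4, 9), 14), ((3, 4, 8), 31)], 1, [[-1, -1, -1, -2], [-3, -1, -1, -1], [-2, -1, -1, -2], [-1, -1, 0, -1], [-2, -1, -1, -2], [0, 0, 1, 0], [-1, -1, -1, 0], [0, 0, 0, 0], [-3, -1, -1, -1], [-1, -1, -1, 0], [-1, 0, -1, -1], [0, 0, 0, 0], [0, 1, 0, 0], [0, 0, 0, 0], [0, 0, 0, 0], [-1, -1, -1, -2]]⟩,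
    ⟨[35, 3, 9, 0], [1, 6, 7, 8, 11, 17, 22, 25, 28, 37, 53, 67], (0, 0, 0), [], [((0, 1, 2), 25), ((0, 2, 4), 8), ((0, 2, 8), 22), ((0, 2, 13), 53), ((0, 4, 11), 67), ((1, 2, 4), 7), ((1, 2, 8), 28), ((1, 4, 8), 37), ((1, 4, 10), 17), ((2, 4, 8), 1), ((2, 4, 9), 6), ((3, 4, 8), 11)], 1, [[-2, -1, -1, 0], [-1, -1, -1, -2], [-3, -1, -1, 0], [-1, 0, -1, 0], [-3, -1, -1, 0], [0, 0, 1, 0], [0, 0, 0, 0], [0, 0, 0, 0], [-1, -1, -1, -2], [0, 0, 0, 0], [-1, -1, 0, 0], [-1, -1, -1, 0], [0, 1, 0, 0], [-1, -1, -1, 0], [0, 0, 0, 0], [-2, -1, -1, 0]]⟩,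
    ⟨[53, 3, 9, 0], [1, 2, 7, 8, 11, 14, 17, 21, 28, 32, 35, 38], (0, 0, 0), [], [((0, 1, 2), 38), ((0, 1, 8), 35), ((0, 2, 4), 8), ((0, 2, 8), 32), ((0, 4, 11), 21), ((1, 2, 4), 7), ((1, 2, 8), 28), ((1, 4, 8), 2), ((1, 4, 10), 17), ((2, 4, 8), 1), ((2, 4, 9), 14), ((3, 4, 8), 11)], 1, [[-2, 1, 1, -3], [-2, 0, 1, -3], [-2, 0, 0, -3], [-1, 0, 0, -1], [-3, 1, 1, -2], [0, 0, 1, 0], [0, 0, 0, 0], [0, 0, 0, 0], [-2, 1, 0, -3], [-1, 0, 0, -1], [-1, 0, 0, -1], [-1, 0, 0, -1], [0, 1, 0, 0], [0, 0, 0, 0], [0, 0, 0, 0], [-1, 0, 0, -2]]⟩]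

def tab4_1 : List Nd :=
  [⟨[64, 3, 9, 0], [1, 5, 7, 10, 17, 19, 20, 25, 29, 36, 38, 40], (0, 0, 0), [], [((0, 1, 8), 25), ((0, 2, 4), 40), ((0, 2, 8), 5), ((0, 2, 13), 38), ((0, 4, 11), 36), ((0, 7, 8), 7), ((1, 2, 8), 20), ((1, 4, 8), 19), ((1, 6, 8), 17), ((2, 4, 8), 1), ((2, 4, 9), 29), ((3, 4, 8), 10)], 1, [[-2, 1, 0, -3], [-1, 0, 0, -2], [-2, 0, 1, -3], [0, 0, 0, 0], [-2, 1, 0, -3], [0, 0, 1, 0], [-1, 0, 0, -1], [0, 0, 0, 0], [-3, 1, 1, -2], [-1, 0, 0, -1], [0, 0, 0, 0], [-1, 0, 0, -1], [0, 1, 0, 0], [-1, 0, 0, -1], [0, 0, 0, 0], [-2, 0, 1, -3]]⟩,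
    ⟨[67, 3, 9, 0], [1, 4, 6, 7, 21, 22, 23, 25, 31, 35, 36, 37], (0, 0, 0), [], [((0, 1, 2), 25), ((0, 2, 4), 23), ((0, 2, 8), 22), ((0, 2, 13), 21), ((1, 2, 4), 7), ((1, 2, 8), 4), ((1, 4, 8), 37), ((1, 4, 10), 36), ((1, 6, 8), 35), ((2, 4, 8), 1), ((2, 4, 9), 6), ((3, 4, 8), 31)], 1, [[-1, 0, 0, -2], [-2, 1, 0, -3], [-3, 1, 1, -2], [-1, 0, 0, -1], [-2, 0, 0, -3], [0, 0, 1, 0], [-1, 0, 0, -1], [0, 0, 0, 0], [-2, 0, 1, -3], [0, 0, 0, 0], [-1, 0, 0, -1], [0, 0, 0, 0], [0, 1, 0, 0], [-1, 0, 0, -1], [0, 0, 0, 0], [-2, 1, 1, -3]]⟩,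
    ⟨[3, 9, 0], [1, 2, 4, 5, 6, 7, 8, 10, 11, 12, 13, 14, 15, 16, 17, 19, 20, 21, 22, 23, 24, 25, 26, 27, 28, 29, 30, 31, 32, 34, 35, 36, 37, 38, 39, 40, 41, 44, 47, 52, 53, 58, 59, 64, 67, 70], (0, 1, 14), [(1, 16), (17, 21), (25, 26), (36, 31), (38, 36), (21, 37), (35, 38), (53, 39), (64, 40), (67, 41)], [], 0, []⟩,
    ⟨[7, 1, 23, 9, 0], [3, 4, 8, 16, 21, 31, 34, 36, 40, 58, 67], (0, 0, 0), [], [((0, 1, 2), 40), ((0, 1, 8), 67), ((0, 2, 8), 34), ((0, 2, 13), 21), ((1, 2, 8), 4), ((1, 2, 12), 3), ((1, 4, 8), 58), ((1, 4, 10), 36), ((1, 6, 8), 8), ((2, 4, 9), 16), ((3, 4, 8), 31)], 1, [[-1, -1, -1, 0, -2], [-1, -1, -3, 0, -1], [-1, -1, -2, 1, -2], [-1, 0, -1, 0, -1], [-1, -1, -1, 0, -2], [0, 0, 0, 1, 0], [0, 0, 0, 0, 0], [1, 0, 0, 0, 0], [-1,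 -1, -3, 1, -1], [-1, -1, -1, 0, 0], [0, -1, -1, 0, -1], [0, 0, 0, 0, 0], [0, 0, 0, 0, 0], [-1, -1, -1, 0, 0], [0, 1, 0, 0, 0], [-1, -1, -2, 1, -2]]⟩,
    ⟨[21, 1, 23, 9, 0], [2, 3, 4, 7, 8, 31, 33, 34, 36, 67, 69], (0, 0, 0), [], [((0, 1, 2), 69), ((0, 1, 8), 67), ((0, 2, 8), 34), ((1, 2, 4), 7), ((1, 2, 8), 4), ((1, 2, 12), 3), ((1, 4, 8), 2), ((1, 4, 10), 36), ((1, 6, 8), 8), ((2, 4, 9), 33), ((3, 4, 8), 31)], 1, [[0, -1, -1, 0, -1], [-2, 0, -2, 0, 0], [-1, 0, -2, 1, -1], [-1, 0, -1, 0, 0], [-2, 1, 0, 0, -2], [0, 0, 0, 1, 0], [0, 0, 0, 0, 0], [0, 0, 0, 0, 0], [-1, 0, -2, 1, -1], [-1, 0, -1, 0, 0], [0, -1, -1, 0, -1], [0, 0, 0, 0, 0], [0, 0, 0, 0, 0], [0, 0, 0, 0, 0], [0, 1, 0, 0, 0], [0, 0, -2, 1, -2]]⟩,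
    ⟨[31, 1, 23, 9, 0], [3, 4, 7, 8, 10, 13, 21, 26, 34, 36, 67], (0, 0, 0), [], [((0, 1, 2), 10), ((0, 1, 8), 67), ((0, 2, 8), 34), ((0, 2, 13), 21), ((1, 2, 4), 7), ((1, 2, 8), 4), ((1, 2, 12), 3), ((1, 4, 8), 13), ((1, 4, 10), 36), ((1, 6, 8), 8), ((2, 4, 9), 26)], 1, [[-1, -1, 0, 0, -1], [-2, -1, -1, 0, 0], [-2, -1, 0, 0, -1], [0, 0, 0, 0, 0], [-1, -1, 1, -1, -2], [0, 0, 0, 1, 0], [0, 0, 0, 0, 0], [0, 0, 0, 0, 0], [0, -1, -2, 1, -1], [-1, -1, 0, -1, 0], [0, -1, -1, 0, -1], [0, 0, 0, 0, 0], [0, 0, 0, 0, 0], [-1, -1, 0, 0, 0], [0, 1, 0, 0, 0], [0, -1, -1, 0, -2]]⟩,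
    ⟨[67, 1, 23, 9, 0], [3, 4, 6, 7, 8, 21, 25, 31, 34, 36, 37], (0, 0, 0), [], [((0, 1, 2), 25), ((0, 2, 8), 34), ((0, 2, 13), 21), ((1, 2, 4), 7), ((1, 2, 8), 4), ((1, 2, 12), 3), ((1, 4, 8), 37), ((1, 4, 10), 36), ((1, 6, 8), 8), ((2, 4, 9), 6), ((3, 4, 8), 31)], 1, [[0, -1, 0, 0, -2], [-1, 0, -1, 0, -2], [-2, 0, 0, 1, -2], [-1, 0, 0, 0, -1], [-2, 1, 1, 0, -3], [0, 0, 0, 1, 0], [0, 0, 0, 0, 0], [0, 0, 0, 0, 0], [0, 0, -2, 1, -2], [0, 0, 0, 0, 0], [0, -1, -1, 0, -1], [0, 0, 0, 0, 0], [0, 0, 0, 0, 0], [-1, 0, 0, 0, -1], [0, 1, 0, 0, 0], [-1, 0, -1, 1, -2]]⟩,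
    ⟨[1, 23, 9, 0], [2, 3, 4, 6, 7, 8, 10, 13, 16, 21, 25, 26, 31, 33, 34, 36, 37, 40, 58, 67, 69], (0, 7, 8), [(7, 43), (21, 44), (31, 45), (67, 46)], [], 0, []⟩,
    ⟨[7, 36, 23, 9, 0], [1, 3, 4, 5, 8, 19, 21, 31, 40, 57, 67], (0, 0, 0), [], [((0, 1, 2), 40), ((0, 1, 8), 67), ((0, 2, 8), 5), ((0, 2, 13), 21), ((1, 2, 8), 4), ((1, 2, 12), 3), ((1, 4, 8), 19), ((1, 6, 8), 8), ((2, 4, 8), 1), ((2, 4, 9), 57), ((3, 4, 8), 31)], 1, [[-1, -1, 0, 0, -1], [-1, 0, -2, 0, -1], [-1, -2, -1, 1, 0], [-1, 0, -1, 0, -1], [-1, -1, 0, 0, -1], [0, 0, 0, 1, 0], [0, 0, 0, 0, 0], [1, 0, 0, 0, 0], [-1, -2, -1, 1, 0], [-1, -1, -1, 0, 1], [0, 0, 0, 0, 0], [0, 0, 0, 0, 0], [0, 0, 0, 0, 0], [-1, -1, 0, 0, 0], [0, 0, 0, 0, 0], [-1, 0, -2, 1, -1]]⟩,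
    ⟨[21, 36, 23, 9, 0], [1, 2, 3, 4, 5, 7, 8, 31, 33, 67, 69], (0, 0, 0), [], [((0, 1, 2), 69), ((0, 1, 8), 67), ((0, 2, 8), 5), ((1, 2, 4), 7), ((1, 2, 8), 4), ((1, 2, 12), 3), ((1, 4, 8), 2), ((1, 6, 8), 8), ((2, 4, 8), 1), ((2, 4, 9), 33), ((3, 4, 8), 31)], 1, [[0, -1, 0, 0, 0], [-2, 1, -2, 0, 0], [-1, -1, -1, 1, 0], [-1, 0, -1, 0, 0], [-2, 1, 0, 0, -2], [0, 0, 0, 1, 0], [0, 0, 0, 0, 0], [0, 0, 0, 0, 0], [-1, -1, -1, 1, 0], [-1, 0, -1, 0, 0], [0, 0, 0, 0, 0], [0, 0, 0, 0, 0], [0, 0, 0, 0, 0], [0, 0, 0, 0, 0], [0, 0, 0, 0, 0], [0, 1, -2, 1, -2]]⟩,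
    ⟨[31, 36, 23, 9, 0], [1, 3, 4, 5, 7, 8, 10, 12, 21, 52, 67], (0, 0, 0), [], [((0, 1, 2), 10), ((0, 1, 8), 67), ((0, 2, 8), 5), ((0, 2, 13), 21), ((1, 2, 4), 7), ((1, 2, 8), 4), ((1, 2, 12), 3), ((1, 4, 8), 52), ((1, 6, 8), 8), ((2, 4, 8), 1), ((2, 4, 9), 12)], 1, [[-1, -1, 1, 0, 0], [-2, 0, -1, 0, 1], [-2, -2, 1, 1, 1], [0, 0, 0, 0, 0], [-1, -1, 1, 0, 0], [0, 0, 0, 1, 0], [0, 0, 0, 0, 0], [0, 0, 0, 0, 0], [0, -2, -1, 1, 1], [-1, -1, 0, 0, 1], [0, 0, 0, 0, 0], [0, 0, 0, 0, 0], [0, 0, 0, 0, 0], [-1, -1, 0, 0, 1], [0, 0, 0, 0, 0], [0, 0, -1, 1, -1]]⟩,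
    ⟨[67, 36, 23, 9, 0], [1, 3, 4, 5, 6, 7, 8, 21, 25, 31, 37], (0, 0, 0), [], [((0, 1, 2), 25), ((0, 2, 8), 5), ((0, 2, 13), 21), ((1, 2, 4), 7), ((1, 2, 8), 4), ((1, 2, 12), 3), ((1, 4, 8), 37), ((1, 6, 8), 8), ((2, 4, 8), 1), ((2, 4, 9), 6), ((3, 4, 8), 31)], 1, [[0, -1, 1, 0, -1], [-1, 1, -1, 0, -2], [-2, -1, 1, 1, -1], [-1, 0, 0, 0, -1], [-2, 1, 1, 0, -3], [0, 0, 0, 1, 0], [0, 0, 0, 0, 0], [0, 0, 0, 0, 0], [0, -1, -1, 1, -1], [0, 0, 0, 0, 0], [0, 0, 0, 0, 0], [0, 0, 0, 0, 0], [0, 0, 0, 0, 0], [-1, 0, 0, 0, -1], [0, 0, 0, 0, 0], [-1, 1, -1, 1, -2]]⟩,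
    ⟨[36, 23, 9, 0], [1, 2, 3, 4, 5, 6, 7, 8, 10, 12, 19, 21, 25, 31, 33, 37, 40, 52, 57, 67, 69], (0, 7, 8), [(7, 48), (21, 49), (31, 50), (67, 51)], [], 0, []⟩,
    ⟨[21, 23, 9, 0], [1, 2, 3, 4, 7, 8, 31, 32, 33, 36, 67, 69], (0, 0, 0), [], [((0, 1, 2), 69), ((0, 1, 8), 67), ((0, 2, 8), 32), ((1, 2, 4), 7), ((1, 2, 8), 4), ((1, 2, 12), 3), ((1, 4, 8), 2), ((1, 4, 10), 36), ((1, 6, 8), 8), ((2, 4, 8), 1), ((2, 4, 9), 33), ((3, 4, 8), 31)], 1, [[-1, 0, -1, -1], [-2, -2, 0, 0], [-2, -1, 0, -1], [-1, -1, 0, 0], [-2, 0, 0, -2], [0, 0, 1, 0], [0, 0, 0, 0], [0, 0, 0, 0], [-2, -1, 0, -1], [-1, -1, 0, 0], [-1, 0, -1, -1], [0, 0, 0, 0], [0, 0, 0, 0], [0, 0, 0, 0], [0, 0, 0, 0], [0, -2, 1, -2]]⟩,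
    ⟨[25, 23, 9, 0], [1, 3, 4, 6, 8, 10, 36, 37, 40, 67, 69, 70], (0, 0, 0), [], [((0, 2, 8), 70), ((0, 2, 13), 69), ((0, 7, 8), 67), ((1, 2, 4), 40), ((1, 2, 8), 4), ((1, 2, 12), 3), ((1, 4, 8), 37), ((1, 4, 10), 36), ((1, 6, 8), 8), ((2, 4, 8), 1), ((2, 4, 9), 6), ((3, 4, 8), 10)], 1, [[-1, -1, 0, 0], [0, -2, 0, -2], [-2, -2, 1, 0], [0, 0, 0, 0], [-2, 0, 0, -2], [0, 0, 1, 0], [0, 0, 0, 0], [-1, -1, 0, 0], [-2, -2, 1, 0], [0, 0, 0, 0], [-1, -1, 0, 0], [0, 0, 0, 0], [0, 0, 0, 0], [-1, -1, 0, 0], [0, 0, 0, 0], [-2, -2, 1, 0]]⟩,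
    ⟨[67, 23, 9, 0], [1, 3, 4, 6, 7, 8, 21, 22, 25, 31, 36, 37], (0, 0, 0), [], [((0, 1, 2), 25), ((0, 2, 8), 22), ((0, 2, 13), 21), ((1, 2, 4), 7), ((1, 2, 8), 4), ((1, 2, 12), 3), ((1, 4, 8), 37), ((1, 4, 10), 36), ((1, 6, 8), 8), ((2, 4, 8), 1), ((2, 4, 9), 6), ((3, 4, 8), 31)], 1, [[-1, 1, 0, -2], [-1, -1, 0, -2], [-3, 1, 1, -2], [-1, 0, 0, -1], [-2, 1, 0, -3], [0, 0, 1, 0], [0, 0, 0, 0], [0, 0, 0, 0], [-1, -1, 1, -2], [0, 0, 0, 0], [-1, 0, 0, -1], [0, 0, 0, 0], [0, 0, 0, 0], [-1, 0, 0, -1], [0, 0, 0, 0], [-1, -1, 1, -2]]⟩,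
    ⟨[69, 23, 9, 0], [1, 2, 3, 4, 8, 10, 21, 24, 25, 33, 36, 40], (0, 0, 0), [], [((0, 1, 8), 25), ((0, 2, 8), 24), ((0, 7, 8), 21), ((1, 2, 4), 40), ((1, 2, 8), 4), ((1, 2, 12), 3), ((1, 4, 8), 2), ((1, 4, 10), 36), ((1, 6, 8), 8), ((2, 4, 8), 1), ((2, 4, 9), 33), ((3, 4, 8), 10)], 1, [[-1, 1, 0, -2], [-1, -1, 0, -2], [-1, -1, 1, -2], [0, 0, 0, 0], [-2, 1, 0, -3], [0, 0, 1, 0], [0, 0, 0, 0], [-1, 0, 0, -1], [-3, 1, 1, -2], [-1, 0, 0, -1], [-1, 0, 0, -1], [0, 0, 0, 0], [0, 0, 0, 0], [0, 0, 0, 0], [0, 0, 0, 0], [-1, -1, 1, -2]]⟩,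
    ⟨[23, 9, 0], [1, 2, 3, 4, 5, 6, 7, 8, 10, 12, 13, 16, 19, 21, 22, 24, 25, 26, 31, 32, 33, 34, 36, 37, 40, 52, 57, 58, 67, 69, 70], (0, 1, 14), [(1, 47), (36, 52), (21, 53), (25, 54), (67, 55), (69, 56)], [], 0, []⟩,
    ⟨[7, 1, 37, 9, 0], [2, 3, 6, 13, 19, 22, 25, 30, 35, 58, 67], (0, 0, 0), [], [((0, 1, 2), 25), ((0, 2, 4), 58), ((0, 2, 8), 22), ((0, 2, 13), 2), ((0, 4, 11), 67), ((1, 2, 8), 30), ((1, 2, 12), 3), ((1, 4, 10), 19), ((1, 6, 8), 35), ((2, 4, 9), 6), ((3, 4, 8), 13)], 1, [[-1, -1, -2, 0, 0], [-1, -1, -1, 0, -2], [-1, -1, -3, 1, 0], [0, -1, -1, 0, 0], [-1, -1, -2, 0, 0], [0, 0, 0, 1, 0], [-1, -1, -1, 0, 0], [1, 0, 0, 0, 0], [-1, -1, -1, 1, -2], [0, 0, 0, 0, 0], [-1, 0, -1, 0, 0], [-1, -1, -1, 0, 0], [0, 0, 0, 0, 0], [0, 0, 0,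 0, 0], [0, 1, 0, 0, 0], [-1, -1, -3, 1, 0]]⟩,
    ⟨[22, 1, 37, 9, 0], [2, 3, 5, 6, 7, 13, 15, 25, 34, 35, 67], (0, 0, 0), [], [((0, 1, 2), 25), ((0, 2, 4), 34), ((0, 2, 13), 2), ((0, 4, 11), 67), ((1, 2, 4), 7), ((1, 2, 8), 15), ((1, 2, 12), 3), ((1, 4, 10), 5), ((1, 6, 8), 35), ((2, 4, 9), 6), ((3, 4, 8), 13)], 1, [[0, -1, -1, 0, -1], [-2, -1, 1, -1, -2], [-1, -1, -1, 0, -1], [0, -1, -1, 0, 0], [-2, -1, 0, 0, -1], [0, 0, 0, 1, 0], [-1, -1, 0, 0, -1], [0, 0, 0, 0, 0], [0, -1, 0, 0, -2], [0, 0, 0, 0, 0], [0, 0, 0, 0, 0], [-1, -1, 0, -1, 0], [0, 0, 0, 0, 0], [0, 0, 0, 0, 0], [0, 1, 0, 0, 0], [-1, -1, -2, 1, 0]]⟩,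
    ⟨[35, 1, 37, 9, 0], [2, 3, 6, 7, 8, 13, 18, 22, 25, 62, 67], (0, 0, 0), [], [((0, 1, 2), 25), ((0, 2, 4), 8), ((0, 2, 8), 22), ((0, 2, 13), 2), ((0, 4, 11), 67), ((1, 2, 4), 7), ((1, 2, 8), 18), ((1, 2, 12), 3), ((1, 4, 10), 62), ((2, 4, 9), 6), ((3, 4, 8), 13)], 1, [[-1, 0, -1, 0, 0], [-1, 0, -1, 0, 0], [-2, 1, -2, 1, 1], [0, -1, -1, 0, 0], [-2, 0, -1, 0, 1], [0, 0, 0, 1, 0], [0, 0, 0, 0, 0], [0, 0, 0, 0, 0], [0, 0, -1, 1, -1], [0, 0, 0, 0, 0], [-1, 0, -1, 0, 1], [-1, 0, -1, 0, 1], [0, 0, 0, 0, 0], [0, 0, 0, 0, 0], [0, 1, 0, 0, 0], [0, -1, -3, 1, 1]]⟩,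
    ⟨[67, 1, 37, 9, 0], [2, 3, 4, 6, 7, 13, 22, 23, 25, 35, 36], (0, 0, 0), [], [((0, 1, 2), 25), ((0, 2, 4), 23), ((0, 2, 8), 22), ((0, 2, 13), 2), ((1, 2, 4), 7), ((1, 2, 8), 4), ((1, 2, 12), 3), ((1, 4, 10), 36), ((1, 6, 8), 35), ((2, 4, 9), 6), ((3, 4, 8), 13)], 1, [[0, 0, -1, 0, -1], [-2, 0, 1, 0, -3], [-2, 1, -1, 1, -1], [0, -1, -1, 0, 0], [-1, 0, 0, 0, -2], [0, 0, 0, 1, 0], [-1, 0, 0, 0, -1], [0, 0, 0, 0, 0], [-1, 0, 0, 1, -2], [0, 0, 0, 0, 0], [-1, 0, 0, 0, -1], [0, 0, 0, 0, 0], [0, 0, 0, 0, 0], [0, 0, 0, 0, 0], [0, 1, 0, 0, 0], [0, -1, -2, 1, -1]]⟩,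
    ⟨[1, 37, 9, 0], [2, 3, 4, 5, 6, 7, 8, 13, 15, 18, 19, 22, 23, 25, 30, 34, 35, 36, 58, 62, 67], (0, 7, 8), [(7, 58), (22, 59), (35, 60), (67, 61)], [], 0, []⟩,
    ⟨[7, 25, 37, 9, 0], [1, 2, 3, 6, 10, 19, 22, 35, 40, 65, 67], (0, 0, 0), [], [((0, 2, 4), 40), ((0, 2, 8), 22), ((0, 2, 13), 2), ((0, 4, 11), 67), ((1, 2, 8), 65), ((1, 2, 12), 3), ((1, 4, 10), 19), ((1, 6, 8), 35), ((2, 4, 8), 1), ((2, 4, 9), 6), ((3, 4, 8), 10)], 1, [[-1, 0, -1, 0, -1], [-1, 0, -1, 0, -1], [-1, -1, -2, 1, 0], [0, 0, 0, 0, 0], [-1, -2, 0, 0, -1], [0, 0, 0, 1, 0], [-1, -1, 0, 0, -1], [1, 0, 0, 0, 0], [-1, -2, 0, 1, -1], [0, 0, 0, 0, 0], [-1, 0, -1, 0, 0], [-1, -1, -1, 0, 1], [0, 0, 0, 0, 0], [0, 0, 0, 0, 0], [0, 0, 0, 0, 0], [-1, -1, -2, 1, 0]]⟩,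
    ⟨[22, 25, 37, 9, 0], [1, 2, 3, 5, 6, 7, 10, 35, 39, 67, 70], (0, 0, 0), [], [((0, 2, 4), 70), ((0, 2, 13), 2), ((0, 4, 11), 67), ((1, 2, 4), 7), ((1, 2, 8), 39), ((1, 2, 12), 3), ((1, 4, 10), 5), ((1, 6, 8), 35), ((2, 4, 8), 1), ((2, 4, 9), 6), ((3, 4, 8), 10)], 1, [[0, 0, -1, 0, 0], [-2, 0, 1, 0, -2], [-1, -1, -1, 1, 0], [0, 0, 0, 0, 0], [-2, -2, 1, 0, 0], [0, 0, 0, 1, 0], [-1, -1, 0, 0, 0], [0, 0, 0, 0, 0], [0, -2, 1, 1, -2], [0, 0, 0, 0, 0], [0, 0, 0, 0, 0], [-1, -1, 0, 0, 0], [0, 0, 0, 0, 0], [0, 0, 0, 0, 0], [0, 0, 0, 0, 0], [-1, -1, -1, 1, 0]]⟩,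
    ⟨[35, 25, 37, 9, 0], [1, 2, 3, 6, 7, 8, 10, 18, 22, 62, 67], (0, 0, 0), [], [((0, 2, 4), 8), ((0, 2, 8), 22), ((0, 2, 13), 2), ((0, 4, 11), 67), ((1, 2, 4), 7), ((1, 2, 8), 18), ((1, 2, 12), 3), ((1, 4, 10), 62), ((2, 4, 8), 1), ((2, 4, 9), 6), ((3, 4, 8), 10)], 1, [[-1, 1, -1, 0, 0], [-1, 1, -1, 0, 0], [-2, 1, -2, 1, 1], [0, 0, 0, 0, 0], [-2, -1, 0, 0, 1], [0, 0, 0, 1, 0], [0, 0, 0, 0, 0], [0, 0, 0, 0, 0], [0, -1, 0, 1, -1], [0, 0, 0, 0, 0], [-1, 0, -1, 0, 1], [-1, 0, -1, 0, 1], [0, 0, 0, 0, 0], [0, 0, 0, 0, 0], [0, 0, 0, 0, 0], [0, -1, -2, 1, 1]]⟩,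
    ⟨[67, 25, 37, 9, 0], [1, 2, 3, 4, 6, 7, 10, 22, 23, 35, 36], (0, 0, 0), [], [((0, 2, 4), 23), ((0, 2, 8), 22), ((0, 2, 13), 2), ((1, 2, 4), 7), ((1, 2, 8), 4), ((1, 2, 12), 3), ((1, 4, 10), 36), ((1, 6, 8), 35), ((2, 4, 8), 1), ((2, 4, 9), 6), ((3, 4, 8), 10)], 1, [[0, 1, -1, 0, -1], [-2, 1, 1, 0, -3], [-2, 1, -1, 1, -1], [0, 0, 0, 0, 0], [-1, -1, 1, 0, -2], [0, 0, 0, 1, 0], [-1, 0, 0, 0, -1], [0, 0, 0, 0, 0], [-1, -1, 1, 1, -2], [0, 0, 0, 0, 0], [-1, 0, 0, 0, -1], [0, 0, 0, 0, 0], [0, 0, 0, 0, 0], [0, 0, 0, 0, 0], [0, 0, 0, 0, 0], [0, -1, -1, 1, -1]]⟩,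
    ⟨[25, 37, 9, 0], [1, 2, 3, 4, 5, 6, 7, 8, 10, 18, 19, 22, 23, 35, 36, 39, 40, 62, 65, 67, 70], (0, 7, 8), [(7, 63), (22, 64), (35, 65), (67, 66)], [], 0, []⟩,
    ⟨[35, 37, 9, 0], [1, 2, 3, 6, 7, 8, 11, 18, 22, 25, 62, 67], (0, 0, 0), [], [((0, 1, 2), 25), ((0, 2, 4), 8), ((0, 2, 8), 22), ((0, 2, 13), 2), ((0, 4, 11), 67), ((1, 2, 4), 7), ((1, 2, 8), 18), ((1, 2, 12), 3), ((1, 4, 10), 62), ((2, 4, 8), 1), ((2, 4, 9), 6), ((3, 4, 8), 11)], 1, [[-1, -1, 0, 0], [-1, -1, 0, 0], [-2, -2, 1, 1], [-1, 0, -1, 0], [-3, 0, -1, 1], [0, 0, 1, 0], [0, 0, 0, 0], [0, 0, 0, 0], [-1, 0, 0, -1], [0, 0, 0, 0], [-1, -1, 0, 1], [-1, -1, 0, 1], [0, 0, 0, 0], [0, 0, 0, 0], [0, 0, 0, 0], [-1, -2, 0, 1]]⟩,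
    ⟨[36, 37, 9, 0], [1, 2, 3, 4, 5, 6, 19, 23, 25, 52, 62, 67], (0, 0, 0), [], [((0, 1, 2), 25), ((0, 2, 4), 23), ((0, 2, 8), 5), ((0, 2, 13), 2), ((0, 7, 8), 67), ((1, 2, 4), 19), ((1, 2, 8), 4), ((1, 2, 12), 3), ((1, 6, 8), 62), ((2, 4, 8), 1), ((2, 4, 9), 6), ((3, 4, 8), 52)], 1, [[-1, -1, 0, 0], [-1, -1, 0, 0], [-2, -2, 1, 1], [-1, -1, 0, 1], [-1, -1, 0, 0], [0, 0, 1, 0], [-1, -1, 0, 1], [-1, -1, 0, 1], [-3, -1, 1, 2], [0, 0, 0, 0], [0, 0, 0, 0], [0, 0, 0, 0], [0, 0, 0, 0], [0, 0, 0, 0], [0, 0, 0, 0], [-1, -3, 1, 2]]⟩,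
    ⟨[62, 37, 9, 0], [1, 2, 3, 5, 6, 8, 18, 19, 25, 27, 35, 36], (0, 0, 0), [], [((0, 1, 2), 25), ((0, 2, 4), 8), ((0, 2, 8), 5), ((0, 2, 13), 2), ((0, 4, 11), 36), ((0, 7, 8), 35), ((1, 2, 4), 19), ((1, 2, 8), 18), ((1, 2, 12), 3), ((2, 4, 8), 1), ((2, 4, 9), 6), ((3, 4, 8), 27)], 1, [[-2, 1, 0, -3], [0, -1, 0, -1], [-2, -1, 1, -1], [-1, 0, 0, -1], [-2, 1, 0, -3], [0, 0, 1, 0], [0, 0, 0, 0], [-1, 0, 0, -1], [-2, 1, 1, -3], [0, 0, 0, 0], [0, 0, 0, 0], [-1, 0, 0, -1], [0, 0, 0, 0], [0, 0, 0, 0], [0, 0, 0, 0], [-1, -1, 1, -2]]⟩,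
    ⟨[67, 37, 9, 0], [1, 2, 3, 4, 6, 7, 22, 23, 25, 31, 35, 36], (0, 0, 0), [], [((0, 1, 2), 25), ((0, 2, 4), 23), ((0, 2, 8), 22), ((0, 2, 13), 2), ((1, 2, 4), 7), ((1, 2, 8), 4), ((1, 2, 12), 3), ((1, 4, 10), 36), ((1, 6, 8), 35), ((2, 4, 8), 1), ((2, 4, 9), 6), ((3, 4, 8), 31)], 1, [[0, -1, 0, -1], [-2, 1, 0, -3], [-2, -1, 1, -1], [-1, 0, 0, -1], [-2, 1, 0, -3], [0, 0, 1, 0], [-1, 0, 0, -1], [0, 0, 0, 0], [-2, 1, 1, -3], [0, 0, 0, 0], [-1, 0, 0, -1], [0, 0, 0, 0], [0, 0, 0, 0], [0, 0, 0, 0], [0, 0, 0, 0], [-1, -1, 1, -2]]⟩,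
    ⟨[37, 9, 0], [1, 2, 3, 4, 5, 6, 7, 8, 10, 11, 13, 15, 18, 19, 22, 23, 25, 27, 30, 31, 34, 35, 36, 39, 40, 52, 58, 62, 65, 67, 70], (0, 1, 14), [(1, 62), (25, 67), (35, 68), (36, 69), (62, 70), (67, 71)], [], 0, []⟩,
    ⟨[7, 1, 13, 9, 0], [2, 3, 10, 11, 19, 26, 30, 31, 37, 47, 58], (0, 0, 0), [], [((0, 1, 2), 10), ((0, 1, 8), 37), ((0, 2, 4), 58), ((0, 2, 8), 47), ((0, 2, 13), 2), ((0, 4, 11), 31), ((1, 2, 8), 30), ((1, 2, 12), 3), ((1, 4, 10), 19), ((1, 6, 8), 11), ((2, 4, 9), 26)], 1, [[-1, 1, -3, -1, -1], [-1, 1, -2, -1, -2], [-1, 0, -3, -1, -1], [0, 0, 0, 0, 0], [-1, 0, -1, -1, -2], [0, 0, 0, 1, 0], [-1, 0, -1, -1, 0], [1, 0, 0, 0, 0], [-1, 0, -1, -1, -2], [0, 0, -1, -1, -1], [-1, 0, -1, -1, 0], [-1, 0, -1, 0, -1], [0, 0, 0, 0, 0], [0,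 0, 0, 0, 0], [0, 1, 0, 0, 0], [-1, 1, -2, -1, -2]]⟩,
    ⟨[11, 1, 13, 9, 0], [2, 3, 7, 8, 10, 26, 27, 31, 37, 42, 47], (0, 0, 0), [], [((0, 1, 2), 10), ((0, 1, 8), 37), ((0, 2, 4), 8), ((0, 2, 8), 47), ((0, 2, 13), 2), ((0, 4, 11), 31), ((1, 2, 4), 7), ((1, 2, 8), 42), ((1, 2, 12), 3), ((1, 4, 10), 27), ((2, 4, 9), 26)], 1, [[-1, 1, -2, 0, -1], [-1, 1, -2, 0, -1], [-2, 0, -2, 0, 0], [0, 0, 0, 0, 0], [-2, 0, 0, 1, -2], [0, 0, 0, 1, 0], [0, 0, 0, 0, 0], [0, 0, 0, 0, 0], [0, 0, -1, -1, -1], [0, 0, -1, -1, -1], [-1, 0, -1, 0, 0], [-1, 0, -1, 0, 0], [0, 0, 0, 0, 0], [0, 0, 0, 0, 0], [0, 1, 0, 0, 0], [0, 1, -2, 0, -2]]⟩,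
    ⟨[31, 1, 13, 9, 0], [2, 3, 4, 7, 10, 11, 23, 26, 37, 47, 52], (0, 0, 0), [], [((0, 1, 2), 10), ((0, 1, 8), 37), ((0, 2, 4), 23), ((0, 2, 8), 47), ((0, 2, 13), 2), ((1, 2, 4), 7), ((1, 2, 8), 4), ((1, 2, 12), 3), ((1, 4, 10), 52), ((1, 6, 8), 11), ((2, 4, 9), 26)], 1, [[0, 1, -2, -1, -1], [-2, 1, -1, -1, 0], [-2, 0, -1, -1, 0], [0, 0, 0, 0, 0], [-1, 0, 0, -1, -1], [0, 0, 0, 1, 0], [-1, 0, 0, -1, 0], [0, 0, 0, 0, 0], [-1, 0, 0, -1, -1], [0, 0, -1, -1, -1], [-1, 0, -1, -1, 1], [0, 0, 0, 0, 0], [0, 0, 0, 0, 0], [0, 0, 0, 0, 0], [0, 1, 0, 0, 0], [0, 1, -2, -1, -1]]⟩,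
    ⟨[47, 1, 13, 9, 0], [2, 3, 5, 7, 10, 11, 15, 26, 31, 34, 37], (0, 0, 0), [], [((0, 1, 2), 10), ((0, 1, 8), 37), ((0, 2, 4), 34), ((0, 2, 13), 2), ((0, 4, 11), 31), ((1, 2, 4), 7), ((1, 2, 8), 15), ((1, 2, 12), 3), ((1, 4, 10), 5), ((1, 6, 8), 11), ((2, 4, 9), 26)], 1, [[0, 1, -2, 0, -2], [-2, 1, 0, 0, -2], [-1, 0, -1, 0, -2], [0, 0, 0, 0, 0], [-2, 0, 1, 1, -3], [0, 0, 0, 1, 0], [-1, 0, 0, 0, -1], [0, 0, 0, 0, 0], [0, 0, 0, -1, -2], [0, 0, -1, -1, -1], [0, 0, 0, 0, 0], [-1, 0, 0, 0, -1], [0, 0, 0, 0, 0], [0, 0, 0, 0, 0], [0, 1, 0, 0, 0], [-1, 1, -1, 0, -2]]⟩,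
    ⟨[1, 13, 9, 0], [2, 3, 4, 5, 7, 8, 10, 11, 15, 19, 23, 26, 27, 30, 31, 34, 37, 42, 47, 52, 58], (0, 7, 8), [(7, 73), (11, 74), (31, 75), (47, 76)], [], 0, []⟩,
    ⟨[13, 9, 0], [1, 2, 3, 4, 5, 7, 8, 10, 11, 15, 19, 23, 26, 27, 30, 31, 34, 37, 42, 47, 52, 58], (0, 1, 14), [(1, 77)], [], 0, []⟩,
    ⟨[1, 22, 9, 0], [3, 5, 6, 7, 15, 25, 32, 34, 35, 37, 47, 67], (0, 0, 0), [], [((0, 1, 2), 25), ((0, 2, 4), 34), ((0, 2, 13), 32), ((0, 4, 11), 67), ((1, 2, 4), 7), ((1, 2, 8), 15), ((1, 2, 12), 3), ((1, 4, 8), 37), ((1, 4, 10), 5), ((1, 6, 8), 35), ((2, 4, 9), 6), ((3, 4, 8), 47)], 1, [[-1, -1, -1, -2], [-1, -2, -1, -2], [-1, -2, -1, -2], [-1, -1, -1, 0], [-1, -3, -1, -1], [0, 0, 1, 0], [-1, -1, 0, -1], [0, 0, 0, 0], [-1, -1, -1, -2], [0, 0, 0,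 0], [0, 0, 0, 0], [-1, -1, -1, 0], [0, 0, 0, 0], [0, -1, -1, -1], [1, 0, 0, 0], [-1, -3, -1, -1]]⟩]

def tab4_2 : List Nd :=
  [⟨[25, 22, 9, 0], [1, 3, 5, 6, 7, 10, 32, 35, 37, 39, 67, 70], (0, 0, 0), [], [((0, 2, 4), 70), ((0, 2, 13), 32), ((0, 4, 11), 67), ((1, 2, 4), 7), ((1, 2, 8), 39), ((1, 2, 12), 3), ((1, 4, 8), 37), ((1, 4, 10), 5), ((1, 6, 8), 35), ((2, 4, 8), 1), ((2, 4, 9), 6), ((3, 4, 8), 10)], 1, [[0, -1, -1, -1], [0, -2, 0, -2], [-1, -2, 0, -1], [0, 0, 0, 0], [-2, -2, 0, 0], [0, 0, 1, 0], [-1, -1, 0, 0], [0, 0, 0, 0], [-2, 0, 1, -2], [0, 0, 0, 0], [0, 0, 0, 0], [-1, -1, 0, 0], [0, 0, 0, 0], [0, -1, -1, -1], [0, 0, 0, 0], [-1, -2, 0, -1]]⟩,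
    ⟨[35, 22, 9, 0], [1, 3, 5, 6, 7, 8, 11, 25, 32, 37, 54, 67], (0, 0, 0), [], [((0, 1, 2), 25), ((0, 2, 4), 8), ((0, 2, 13), 32), ((0, 4, 11), 67), ((1, 2, 4), 7), ((1, 2, 8), 54), ((1, 2, 12), 3), ((1, 4, 8), 37), ((1, 4, 10), 5), ((2, 4, 8), 1), ((2, 4, 9), 6), ((3, 4, 8), 11)], 1, [[-1, 0, -1, -1], [0, -2, -1, -1], [-2, -1, -1, 0], [-1, 0, -1, 0], [-2, -1, -1, 0], [0, 0, 1, 0], [0, 0, 0, 0], [0, 0, 0, 0], [-1, 0, -1, -1], [0, 0, 0, 0], [0, 0, 0, 0], [-1, -1, -1, 1], [0, 0, 0, 0], [0, -1, -1, -1], [0, 0, 0, 0], [0, -2, -1, -1]]⟩,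
    ⟨[67, 22, 9, 0], [1, 3, 4, 5, 6, 7, 23, 25, 31, 32, 35, 37], (0, 0, 0), [], [((0, 1, 2), 25), ((0, 2, 4), 23), ((0, 2, 13), 32), ((1, 2, 4), 7), ((1, 2, 8), 4), ((1, 2, 12), 3), ((1, 4, 8), 37), ((1, 4, 10), 5), ((1, 6, 8), 35), ((2, 4, 8), 1), ((2, 4, 9), 6), ((3, 4, 8), 31)], 1, [[0, 0, -1, -2], [-1, -1, 0, -2], [-2, 0, 0, -2], [-1, 0, 0, -1], [-1, -1, 0, -2], [0, 0, 1, 0], [-1, 0, 0, -1], [0, 0, 0, 0], [-2, 1, 1, -3], [0, 0, 0, 0], [0, 0, 0, 0], [0, 0, 0, 0], [0, 0, 0, 0], [0, -1, -1, -1], [0, 0, 0, 0], [0, -2, 0, -2]]⟩,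
    ⟨[22, 9, 0], [1, 3, 4, 5, 6, 7, 8, 10, 11, 15, 23, 25, 31, 32, 34, 35, 37, 39, 47, 54, 67, 70], (0, 1, 14), [(1, 79), (25, 80), (35, 81), (67, 82)], [], 0, []⟩,
    ⟨[1, 31, 9, 0], [3, 4, 7, 10, 11, 13, 21, 23, 26, 36, 47, 67], (0, 0, 0), [], [((0, 1, 2), 10), ((0, 1, 8), 67), ((0, 2, 4), 23), ((0, 2, 8), 47), ((0, 2, 13), 21), ((1, 2, 4), 7), ((1, 2, 8), 4), ((1, 2, 12), 3), ((1, 4, 8), 13), ((1, 4, 10), 36), ((1, 6, 8), 11), ((2, 4, 9), 26)], 1, [[-1, -2, -1, 0], [-1, -3, -1, 0], [-1, -3, -1, 0], [0, 0, 0, 0], [-1, -1, -1, -2], [0, 0, 1, 0], [0, -1, -1, 0], [0, 0, 0, 0], [-1, -2, -1, 0], [-1, -1, -1, 0], [-1, -1, -1, 0], [0, 0, 0, 0], [0, 0, 0, 0], [-1, -1, 0, 0], [1, 0, 0, 0], [-1, -1, -1, -2]]⟩,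
    ⟨[21, 31, 9, 0], [1, 2, 3, 4, 7, 10, 11, 23, 32, 36, 46, 67], (0, 0, 0), [], [((0, 1, 2), 10), ((0, 1, 8), 67), ((0, 2, 4), 23), ((0, 2, 8), 32), ((1, 2, 4), 7), ((1, 2, 8), 4), ((1, 2, 12), 3), ((1, 4, 8), 2), ((1, 4, 10), 36), ((1, 6, 8), 11), ((2, 4, 8), 1), ((2, 4, 9), 46)], 1, [[0, -1, -1, -1], [-1, -2, -1, 0], [-1, -2, -1, 0], [0, 0, 0, 0], [-2, 0, -1, -1], [0, 0, 1, 0], [0, -1, -1, 0], [0, 0, 0, 0], [-2, 0, -1, -1], [-1, -1, -1, 1], [-1, 0, -1, -1], [0, 0, 0, 0], [0, 0, 0, 0], [0, 0, 0, 0], [0, 0, 0, 0], [0, -1, -1, -1]]⟩,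
    ⟨[36, 31, 9, 0], [1, 3, 4, 5, 7, 10, 11, 12, 21, 23, 52, 67], (0, 0, 0), [], [((0, 1, 2), 10), ((0, 1, 8), 67), ((0, 2, 4), 23), ((0, 2, 8), 5), ((0, 2, 13), 21), ((1, 2, 4), 7), ((1, 2, 8), 4), ((1, 2, 12), 3), ((1, 4, 8), 52), ((1, 6, 8), 11), ((2, 4, 8), 1), ((2, 4, 9), 12)], 1, [[-1, -1, 0, 0], [0, -3, -1, 1], [-2, -2, 1, 1], [0, 0, 0, 0], [-1, -1, 0, 0], [0, 0, 1, 0], [0, -1, -1, 0], [0, 0, 0, 0], [-2, -1, 0, 1], [-1, -1, 0, 1], [0, 0, 0, 0], [0, 0, 0, 0], [0, 0, 0, 0], [-1, -1, 0, 1], [0, 0, 0, 0], [0, -1, 0, -1]]⟩,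
    ⟨[67, 31, 9, 0], [1, 3, 4, 6, 7, 10, 11, 21, 22, 23, 36, 37], (0, 0, 0), [], [((0, 1, 2), 10), ((0, 2, 4), 23), ((0, 2, 8), 22), ((0, 2, 13), 21), ((1, 2, 4), 7), ((1, 2, 8), 4), ((1, 2, 12), 3), ((1, 4, 8), 37), ((1, 4, 10), 36), ((1, 6, 8), 11), ((2, 4, 8), 1), ((2, 4, 9), 6)], 1, [[0, -1, 0, -1], [0, -2, -1, -1], [-2, -1, 1, -1], [0, 0, 0, 0], [-2, 1, 0, -3], [0, 0, 1, 0], [0, -1, -1, 0], [0, 0, 0, 0], [-1, 0, 0, -2], [0, 0, 0, 0], [-1, 0, 0, -1], [0, 0, 0, 0], [0, 0, 0, 0], [-1, 0, 0, -1], [0, 0, 0, 0], [-1, 0, 0, -2]]⟩,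
    ⟨[31, 9, 0], [1, 2, 3, 4, 5, 6, 7, 10, 11, 12, 13, 21, 22, 23, 26, 32, 36, 37, 46, 47, 52, 67], (0, 1, 14), [(1, 84), (21, 85), (36, 86), (67, 87)], [], 0, []⟩,
    ⟨[7, 1, 34, 9, 0], [3, 5, 8, 15, 16, 22, 23, 32, 40, 47, 58], (0, 0, 0), [], [((0, 1, 2), 40), ((0, 1, 8), 22), ((0, 2, 13), 32), ((0, 4, 11), 23), ((1, 2, 8), 15), ((1, 2, 12), 3), ((1, 4, 8), 58), ((1, 4, 10), 5), ((1, 6, 8), 8), ((2, 4, 9), 16), ((3, 4, 8), 47)], 1, [[-1, 1, -1, -1, -2], [-1, 1, -3, -1, 0], [-1, 0, -1, -1, -2], [-1, 0, -1, -1, 0], [-1, 0, -2, -1, 0], [0, 0, 0, 1, 0], [0, 0, 0, 0, 0], [1, 0, 0, 0, 0], [-1, 0, -2, -1, 0], [-1, 0, -1, 0, 0], [0, 0, 0, 0, 0], [0, 0, -1, -1, 0], [0, 0, 0, 0, 0], [-1, 0, -1, -1, 0], [0, 1, 0, 0, 0], [-1, 1, -3, -1, 0]]⟩,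
    ⟨[22, 1, 34, 9, 0], [3, 5, 6, 7, 8, 15, 23, 32, 37, 47, 70], (0, 0, 0), [], [((0, 1, 2), 70), ((0, 2, 13), 32), ((0, 4, 11), 23), ((1, 2, 4), 7), ((1, 2, 8), 15), ((1, 2, 12), 3), ((1, 4, 8), 37), ((1, 4, 10), 5), ((1, 6, 8), 8), ((2, 4, 9), 6), ((3, 4, 8), 47)], 1, [[0, 1, -1, -1, -1], [-1, 1, -2, -1, 0], [-2, 0, 0, -1, -1], [-1, 0, -1, -1, 1], [-2, 0, 0, -1, -1], [0, 0, 0, 1, 0], [0, 0, 0, 0, 0], [0, 0, 0, 0, 0], [0, 0, -1, -1, -1], [0, 0, 0, 0, 0], [0, 0, 0, 0, 0], [0, 0, -1, -1, 0], [0, 0, 0, 0, 0], [-1, 0, 0, -1, -1], [0, 1, 0, 0, 0], [-1, 1, -2, -1, 0]]⟩,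
    ⟨[32, 1, 34, 9, 0], [2, 3, 5, 7, 8, 15, 22, 23, 24, 47, 49], (0, 0, 0), [], [((0, 1, 2), 24), ((0, 1, 8), 22), ((0, 4, 11), 23), ((1, 2, 4), 7), ((1, 2, 8), 15), ((1, 2, 12), 3), ((1, 4, 8), 2), ((1, 4, 10), 5), ((1, 6, 8), 8), ((2, 4, 9), 49), ((3, 4, 8), 47)], 1, [[0, 1, -1, 0, -1], [-2, 1, -2, 1, 1], [-1, 0, -1, 0, 0], [-1, 0, -1, 0, 1], [-2, 0, -1, 0, 1], [0, 0, 0, 1, 0], [0, 0, 0, 0, 0], [0, 0, 0, 0, 0], [-1, 0, -1, 0, 0], [-1, 0, -1, 0, 1], [0, 0, 0, 0, 0], [0, 0, -1, -1, 0], [0, 0, 0, 0, 0], [0, 0, 0, 0, 0], [0, 1, 0, 0, 0], [0, 1, -3, -1, 1]]⟩,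
    ⟨[47, 1, 34, 9, 0], [3, 5, 7, 8, 10, 13, 15, 22, 23, 26, 32], (0, 0, 0), [], [((0, 1, 2), 10), ((0, 1, 8), 22), ((0, 2, 13), 32), ((0, 4, 11), 23), ((1, 2, 4), 7), ((1, 2, 8), 15), ((1, 2, 12), 3), ((1, 4, 8), 13), ((1, 4, 10), 5), ((1, 6, 8), 8), ((2, 4, 9), 26)], 1, [[-1, 1, 0, 0, -2], [-2, 1, -1, 1, -1], [-2, 0, 1, 0, -3], [0, 0, 0, 0, 0], [-1, 0, 0, 0, -2], [0, 0, 0, 1, 0], [0, 0, 0, 0, 0], [0, 0, 0, 0, 0], [0, 0, -1, 0, -1], [-1, 0, 0, 0, -1], [0, 0, 0, 0, 0], [0, 0, -1, -1, 0], [0, 0, 0, 0, 0], [-1, 0, 0, 0, -1], [0, 1, 0, 0, 0], [0, 1, -2, -1, -1]]⟩,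
    ⟨[1, 34, 9, 0], [2, 3, 5, 6, 7, 8, 10, 13, 15, 16, 22, 23, 24, 26, 32, 37, 40, 47, 49, 58, 70], (0, 7, 8), [(7, 89), (22, 90), (32, 91), (47, 92)], [], 0, []⟩,
    ⟨[34, 9, 0], [1, 2, 3, 5, 6, 7, 8, 10, 13, 15, 16, 22, 23, 24, 26, 32, 37, 40, 47, 49, 58, 70], (0, 1, 14), [(1, 93)], [], 0, []⟩,
    ⟨[47, 9, 0], [1, 3, 5, 7, 10, 11, 13, 15, 22, 26, 31, 32, 34], (0, 0, 0), [], [((0, 1, 2), 10), ((0, 1, 8), 22), ((0, 1, 14), 1), ((0, 2, 4), 34), ((0, 2, 13), 32), ((0, 4, 11), 31), ((1, 2, 4), 7), ((1, 2, 8), 15), ((1, 2, 12), 3), ((1, 4, 8), 13), ((1, 4, 10), 5), ((1, 6, 8), 11), ((2, 4, 9), 26)], 1, [[-2, 1, -3], [-3, 1, -2], [-2, 0, -3], [0, 0, 0], [-2, 1, -3], [0, 1, 0], [-1, 0, -1], [0, 0, 0], [-1, 0, -2], [-1, 0, -1], [0, 0, 0], [-1, 0,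 -1], [0, 0, 0], [-1, 0, -1], [0, 0, 0], [-2, 0, -3]]⟩,
    ⟨[52, 9, 0], [2, 3, 4, 5, 10, 12, 13, 19, 23, 27, 31, 36, 37], (0, 0, 0), [], [((0, 1, 2), 10), ((0, 1, 8), 37), ((0, 1, 14), 36), ((0, 2, 4), 23), ((0, 2, 8), 5), ((0, 2, 13), 2), ((0, 7, 8), 31), ((1, 2, 4), 19), ((1, 2, 8), 4), ((1, 2, 12), 3), ((1, 6, 8), 27), ((2, 4, 8), 13), ((2, 4, 9), 12)], 1, [[-2, 0, -3], [-2, 0, -3], [-3, 1, -2], [0, 0, 0], [-1, 0, -2], [0, 1, 0], [-1, 0, -1], [-1, 0, -1], [-2, 1, -3], [-1, 0, -1], [0, 0, 0], [0, 0, 0], [0, 0, 0], [0, 0, 0], [-1, 0, -1], [-2, 1, -3]]⟩,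
    ⟨[58, 9, 0], [1, 2, 3, 7, 8, 13, 16, 19, 23, 30, 34, 37, 40], (0, 0, 0), [], [((0, 1, 2), 40), ((0, 1, 8), 37), ((0, 1, 14), 1), ((0, 2, 8), 34), ((0, 2, 13), 2), ((0, 4, 11), 23), ((0, 7, 8), 7), ((1, 2, 8), 30), ((1, 2, 12), 3), ((1, 4, 10), 19), ((1, 6, 8), 8), ((2, 4, 9), 16), ((3, 4, 8), 13)], 1, [[-2, 0, -3], [-2, 0, -3], [-2, 1, -3], [-1, 0, -1], [-1, 0, -2], [0, 1, 0], [0, 0, 0], [0, 0, 0], [-2, 1, -3], [-1, 0, -1], [-1, 0, -1], [-1, 0, -1], [0, 0, 0], [0, 0, 0], [0, 0, 0], [-3, 1, -2]]⟩,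
    ⟨[67, 9, 0], [1, 3, 4, 6, 7, 21, 22, 23, 25, 31, 35, 36, 37], (0, 0, 0), [], [((0, 1, 2), 25), ((0, 2, 4), 23), ((0, 2, 8), 22), ((0, 2, 13), 21), ((1, 2, 4), 7), ((1, 2, 8), 4), ((1, 2, 12), 3), ((1, 4, 8), 37), ((1, 4, 10), 36), ((1, 6, 8), 35), ((2, 4, 8), 1), ((2, 4, 9), 6), ((3, 4, 8), 31)], 1, [[-1, 0, -2], [-2, 0, -3], [-3, 1, -2], [-1, 0, -1], [-2, 0, -3], [0, 1, 0], [-1, 0, -1], [0, 0, 0], [-2, 1, -3], [0, 0, 0], [-1, 0, -1], [0, 0, 0], [0, 0, 0], [-1, 0, -1], [0, 0, 0], [-2, 1, -3]]⟩,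
    ⟨[70, 9, 0], [3, 5, 6, 8, 10, 22, 23, 24, 25, 34, 37, 39, 40], (0, 0, 0), [], [((0, 1, 14), 25), ((0, 2, 13), 24), ((0, 4, 11), 23), ((0, 7, 8), 22), ((1, 2, 4), 40), ((1, 2, 8), 39), ((1, 2, 12), 3), ((1, 4, 8), 37), ((1, 4, 10), 5), ((1, 6, 8), 8), ((2, 4, 8), 34), ((2, 4, 9), 6), ((3, 4, 8), 10)], 1, [[-1, 0, -2], [-2, 0, -3], [-2, 1, -3], [0, 0, 0], [-2, 0, -3], [0, 1, 0], [0, 0, 0], [-1, 0, -1], [-2, 1, -3], [0, 0, 0], [0, 0, 0], [-1, 0, -1], [0, 0, 0], [-1, 0, -1], [-1, 0, -1], [-3, 1, -2]]⟩,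
    ⟨[9, 0], [1, 2, 3, 4, 5, 6, 7, 8, 10, 11, 12, 13, 14, 15, 16, 17, 18, 19, 20, 21, 22, 23, 24, 25, 26, 27, 28, 29, 30, 31, 32, 33, 34, 35, 36, 37, 38, 39, 40, 41, 42, 44, 46, 47, 49, 52, 53, 54, 57, 58, 59, 62, 64, 65, 67, 69, 70], (0, 4, 8), [(3, 42), (23, 57), (37, 72), (13, 78), (22, 83), (31, 88), (34, 94), (47, 95), (52, 96), (58, 97), (67, 98), (70, 99)], [], 0, []⟩,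
    ⟨[1, 3, 19, 0], [2, 5, 7, 9, 13, 17, 29, 30, 36, 37, 58, 64], (0, 0, 0), [], [((0, 1, 2), 64), ((0, 1, 8), 37), ((0, 2, 4), 58), ((0, 2, 8), 5), ((0, 2, 13), 2), ((0, 4, 11), 36), ((0, 7, 8), 7), ((1, 2, 8), 30), ((1, 6, 8), 17), ((2, 4, 9), 29), ((2, 5, 8), 9), ((3, 4, 8), 13)], 1, [[-1, -1, -3, -1], [-1, -1, -1, -2], [-1, -1, -3, -1], [-1, -1, -1, 0], [-1, -1, -1, -2], [0, 0, 0, 0], [-1, -1, -1, 0], [0, 0, 0, 0], [-1, -1, -2, -2], [0, -1, -1, -1], [0, 0, 0, 0], [-1, 0, -1, -1], [0, 1, 0, 0], [0, 0, 0, 0], [1, 0, 0, 0], [-1, -1, -2, -2]]⟩,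
    ⟨[17, 3, 19, 0], [1, 2, 5, 7, 8, 9, 27, 29, 36, 37, 45, 64], (0, 0, 0), [], [((0, 1, 2), 64), ((0, 1, 8), 37), ((0, 2, 4), 8), ((0, 2, 8), 5), ((0, 2, 13), 2), ((0, 4, 11), 36), ((0, 7, 8), 7), ((1, 2, 8), 45), ((2, 4, 8), 1), ((2, 4, 9), 29), ((2, 5, 8), 9), ((3, 4, 8), 27)], 1, [[-1, 0, -2, -1], [0, -1, -1, -1], [-2, 0, -2, 0], [-1, 0, -1, 0], [-2, 1, 0, -2], [0, 0, 0, 0], [0, 0, 0, 0], [0, 0, 0, 0], [-1, 0, -2, -1], [0, -1, -1, -1], [0, 0, 0, 0], [-1, 0, -1, 0], [0, 1, 0, 0], [0, 0, 0, 0], [0, 0, 0, 0], [0, 0, -2, -2]]⟩,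
    ⟨[36, 3, 19, 0], [1, 2, 4, 5, 7, 9, 17, 23, 29, 37, 52, 64], (0, 0, 0), [], [((0, 1, 2), 64), ((0, 1, 8), 37), ((0, 2, 4), 23), ((0, 2, 8), 5), ((0, 2, 13), 2), ((0, 7, 8), 7), ((1, 2, 8), 4), ((1, 6, 8), 17), ((2, 4, 8), 1), ((2, 4, 9), 29), ((2, 5, 8), 9), ((3, 4, 8), 52)], 1, [[0, -1, -2, -1], [-1, -1, 0, -1], [-2, -1, -1, 0], [-1, -1, -1, 1], [-1, -1, 0, -1], [0, 0, 0, 0], [-1, -1, 0, 0], [0, 0, 0, 0], [-2, -1, -1, 0], [0, -1, -1, -1], [0, 0, 0, 0], [0, 0, 0, 0], [0, 1, 0, 0], [0, 0, 0, 0], [0, 0, 0, 0], [0, -1, -2, -1]]⟩,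
    ⟨[64, 3, 19, 0], [1, 2, 5, 7, 9, 10, 17, 20, 29, 36, 37, 40], (0, 0, 0), [], [((0, 1, 8), 37), ((0, 2, 4), 40), ((0, 2, 8), 5), ((0, 2, 13), 2), ((0, 4, 11), 36), ((0, 7, 8), 7), ((1, 2, 8), 20), ((1, 6, 8), 17), ((2, 4, 8), 1), ((2, 4, 9), 29), ((2, 5, 8), 9), ((3, 4, 8), 10)], 1, [[0, 0, -2, -2], [0, -1, 0, -2], [-1, 0, -1, -2], [0, 0, 0, 0], [-2, 1, 1, -3], [0, 0, 0, 0], [-1, 0, 0, -1], [0, 0, 0, 0], [-2, 0, 0, -2], [0, -1, -1, -1], [0, 0, 0, 0], [-1, 0, 0, -1], [0, 1, 0, 0], [0, 0, 0, 0], [0, 0, 0, 0], [-1, 0, -1, -2]]⟩,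
    ⟨[3, 19, 0], [1, 2, 4, 5, 7, 8, 9, 10, 13, 17, 20, 23, 27, 29, 30, 36, 37, 40, 45, 52, 58, 64], (0, 1, 14), [(1, 101), (17, 102), (36, 103), (64, 104)], [], 0, []⟩,
    ⟨[1, 37, 19, 0], [2, 3, 5, 6, 7, 9, 13, 25, 30, 36, 58, 62], (0, 0, 0), [], [((0, 1, 2), 25), ((0, 2, 4), 58), ((0, 2, 8), 5), ((0, 2, 13), 2), ((0, 4, 11), 36), ((0, 7, 8), 7), ((1, 2, 8), 30), ((1, 2, 12), 3), ((1, 6, 8), 62), ((2, 4, 9), 6), ((2, 5, 8), 9), ((3, 4, 8), 13)], 1, [[-1, 0, -2, -1], [-1, -1, 0, -1], [-1, -2, -1, 0], [-1, -1, 0, 0], [-1, -1, 0, -1], [0, 0, 0, 0], [-1, -1, -1, 1], [0, 0, 0, 0], [-1, 0, -2, -1], [0, 0, 0, 0], [0, 0, 0, 0], [-1, 0, -1, -1], [0, 0, 0, 0], [0, 0, 0, 0], [1, 0, 0, 0], [-1, -2, -1, 0]]⟩,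
    ⟨[25, 37, 19, 0], [1, 2, 3, 5, 6, 7, 9, 10, 36, 40, 62, 65], (0, 0, 0), [], [((0, 2, 4), 40), ((0, 2, 8), 5), ((0, 2, 13), 2), ((0, 4, 11), 36), ((0, 7, 8), 7), ((1, 2, 8), 65), ((1, 2, 12), 3), ((1, 6, 8), 62), ((2, 4, 8), 1), ((2, 4, 9), 6), ((2, 5, 8), 9), ((3, 4, 8), 10)], 1, [[0, 1, -2, -2], [0, -1, 0, 0], [-1, -1, -1, 0], [0, 0, 0, 0], [-2, 1, 0, -2], [0, 0, 0, 0], [-1, 0, -1, 0], [0, 0, 0, 0], [-2, 1, -2, 0], [0, 0, 0, 0], [0, 0, 0, 0], [-1, 0, -1, 0], [0, 0, 0, 0], [0, 0, 0, 0], [0, 0, 0, 0], [-1, -1, -1, 0]]⟩,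
    ⟨[36, 37, 19, 0], [1, 2, 3, 4, 5, 6, 7, 9, 23, 25, 52, 62], (0, 0, 0), [], [((0, 1, 2), 25), ((0, 2, 4), 23), ((0, 2, 8), 5), ((0, 2, 13), 2), ((0, 7, 8), 7), ((1, 2, 8), 4), ((1, 2, 12), 3), ((1, 6, 8), 62), ((2, 4, 8), 1), ((2, 4, 9), 6), ((2, 5, 8), 9), ((3, 4, 8), 52)], 1, [[0, 0, -1, -1], [-1, -1, 1, 0], [-2, -2, 1, 1], [-1, -1, 0, 1], [-1, -1, 1, 0], [0, 0, 0, 0], [-1, -1, 0, 1], [0, 0, 0, 0], [-2, 0, -1, 1], [0, 0, 0, 0], [0, 0, 0, 0], [0, 0, 0, 0], [0, 0, 0, 0], [0, 0, 0, 0], [0, 0, 0, 0], [0, -2, -1, 1]]⟩,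
    ⟨[62, 37, 19, 0], [1, 2, 3, 5, 6, 7, 8, 9, 18, 25, 27, 36], (0, 0, 0), [], [((0, 1, 2), 25), ((0, 2, 4), 8), ((0, 2, 8), 5), ((0, 2, 13), 2), ((0, 4, 11), 36), ((0, 7, 8), 7), ((1, 2, 8), 18), ((1, 2, 12), 3), ((2, 4, 8), 1), ((2, 4, 9), 6), ((2, 5, 8), 9), ((3, 4, 8), 27)], 1, [[-1, 1, -1, -2], [0, -1, 1, -1], [-2, -1, 1, -1], [-1, 0, 0, -1], [-2, 1, 1, -3], [0, 0, 0, 0], [0, 0, 0, 0], [0, 0, 0, 0], [-1, 1, -1, -2], [0, 0, 0, 0], [0, 0, 0, 0], [-1, 0, 0, -1], [0, 0, 0, 0], [0, 0, 0, 0], [0, 0, 0, 0], [0, -1, -1, -1]]⟩,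
    ⟨[37, 19, 0], [1, 2, 3, 4, 5, 6, 7, 8, 9, 10, 13, 18, 23, 25, 27, 30, 36, 40, 52, 58, 62, 65], (0, 1, 14), [(1, 106), (25, 107), (36, 108), (62, 109)], [], 0, []⟩,
    ⟨[13, 19, 0], [1, 2, 3, 5, 7, 9, 10, 27, 30, 37, 43, 52, 58], (0, 0, 0), [], [((0, 1, 2), 10), ((0, 1, 8), 37), ((0, 1, 14), 1), ((0, 2, 4), 58), ((0, 2, 8), 5), ((0, 2, 13), 2), ((0, 4, 11), 52), ((0, 7, 8), 7), ((1, 2, 8), 30), ((1, 2, 12), 3), ((1, 6, 8), 27), ((2, 4, 9), 43), ((2, 5, 8), 9)], 1, [[-2, -2, 0], [-2, 0, -2], [-2, -2, 0], [0, 0, 0], [-1, -1, 0], [0, 0, 0], [-1, -1, 0], [0, 0, 0], [0, -2, -2], [-1, -1, 0], [0, 0, 0], [-1, -1, 0], [0, 0, 0], [0, 0, 0], [0, 0, 0], [-2, -2, 0]]⟩,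
    ⟨[23, 19, 0], [2, 3, 4, 5, 7, 8, 9, 36, 37, 40, 52, 57, 58], (0, 0, 0), [], [((0, 1, 2), 40), ((0, 1, 8), 37), ((0, 1, 14), 36), ((0, 2, 8), 5), ((0, 2, 13), 2), ((0, 7, 8), 7), ((1, 2, 8), 4), ((1, 2, 12), 3), ((1, 6, 8), 8), ((2, 4, 8), 58), ((2, 4, 9), 57), ((2, 5, 8), 9), ((3, 4, 8), 52)], 1, [[0, -2, -2], [-2, 0, -2], [-2, -2, 0], [-1, -1, 0], [-1, -1, 0], [0, 0, 0], [0, 0, 0], [0, 0, 0], [-2, -2, 0], [-1, -1, 0], [0, 0, 0], [0, 0, 0], [0, 0, 0], [0, 0, 0], [-1, -1, 0], [-2, -2, 0]]⟩,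
    ⟨[52, 19, 0], [2, 3, 4, 5, 7, 9, 10, 12, 13, 23, 27, 36, 37], (0, 0, 0), [], [((0, 1, 2), 10), ((0, 1, 8), 37), ((0, 1, 14), 36), ((0, 2, 4), 23), ((0, 2, 8), 5), ((0, 2, 13), 2), ((0, 7, 8), 7), ((1, 2, 8), 4), ((1, 2, 12), 3), ((1, 6, 8), 27), ((2, 4, 8), 13), ((2, 4, 9), 12), ((2, 5, 8), 9)], 1, [[-1, -1, -2], [-2, 1, -3], [-3, 1, -2], [0, 0, 0], [-1, 1, -2], [0, 0, 0], [-1, 0, -1], [0, 0, 0], [-1, -1, -2], [-1, 0, -1], [0, 0, 0], [0, 0, 0], [0, 0, 0], [0, 0, 0], [-1, 0, -1], [-1, -1, -2]]⟩,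
    ⟨[58, 19, 0], [1, 2, 3, 5, 7, 8, 9, 13, 16, 23, 30, 37, 40], (0, 0, 0), [], [((0, 1, 2), 40), ((0, 1, 8), 37), ((0, 1, 14), 1), ((0, 2, 8), 5), ((0, 2, 13), 2), ((0, 4, 11), 23), ((0, 7, 8), 7), ((1, 2, 8), 30), ((1, 2, 12), 3), ((1, 6, 8), 8), ((2, 4, 9), 16), ((2, 5, 8), 9), ((3, 4, 8), 13)], 1, [[-1, -1, -2], [-2, 1, -3], [-1, -1, -2], [-1, 0, -1], [-1, 1, -2], [0, 0, 0], [0, 0, 0], [0, 0, 0], [-1, -1, -2], [-1, 0, -1], [0, 0, 0], [-1, 0, -1], [0, 0, 0], [0, 0, 0], [0, 0, 0], [-3, 1, -2]]⟩,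
    ⟨[19, 0], [1, 2, 3, 4, 5, 6, 7, 8, 9, 10, 12, 13, 16, 17, 18, 20, 23, 25, 27, 29, 30, 36, 37, 40, 43, 45, 52, 57, 58, 62, 64, 65], (0, 4, 8), [(3, 105), (37, 110), (13, 111), (23, 112), (52, 113), (58, 114)], [], 0, []⟩,
    ⟨[7, 1, 23, 0], [3, 4, 8, 9, 16, 21, 31, 34, 36, 40, 58, 67], (0, 0, 0), [], [((0, 1, 2), 40), ((0, 1, 8), 67), ((0, 2, 8), 34), ((0, 2, 13), 21), ((1, 2, 8), 4), ((1, 2, 12), 3), ((1, 4, 8), 58), ((1, 4, 10), 36), ((1, 6, 8), 8), ((2, 4, 9), 16), ((2, 5, 8), 9), ((3, 4, 8), 31)], 1, [[-1, -1, -1, -2], [-1, -1, -3, -1], [-1, -1, -2, -2], [-1, 0, -1, -1], [-1, -1, -1, -2], [0, 0, 0, 0], [0, 0, 0, 0], [1, 0, 0, 0], [-1, -1, -3, -1], [-1, -1, -1, 0], [0, -1, -1, -1], [0, 0, 0, 0], [0, 0, 0, 0], [-1, -1, -1, 0], [0, 1, 0,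 0], [-1, -1, -2, -2]]⟩,
    ⟨[21, 1, 23, 0], [2, 3, 4, 7, 8, 9, 31, 33, 34, 36, 67, 69], (0, 0, 0), [], [((0, 1, 2), 69), ((0, 1, 8), 67), ((0, 2, 8), 34), ((1, 2, 4), 7), ((1, 2, 8), 4), ((1, 2, 12), 3), ((1, 4, 8), 2), ((1, 4, 10), 36), ((1, 6, 8), 8), ((2, 4, 9), 33), ((2, 5, 8), 9), ((3, 4, 8), 31)], 1, [[0, -1, -1, -1], [-2, 0, -2, 0], [-1, 0, -2, -1], [-1, 0, -1, 0], [-2, 1, 0, -2], [0, 0, 0, 0], [0, 0, 0, 0], [0, 0, 0, 0], [-1, 0, -2, -1], [-1, 0, -1, 0], [0, -1, -1, -1], [0, 0, 0, 0], [0, 0, 0, 0], [0, 0, 0, 0], [0, 1, 0, 0], [0, 0, -2, -2]]⟩,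
    ⟨[31, 1, 23, 0], [3, 4, 7, 8, 9, 10, 13, 21, 34, 36, 48, 67], (0, 0, 0), [], [((0, 1, 2), 10), ((0, 1, 8), 67), ((0, 2, 8), 34), ((0, 2, 13), 21), ((1, 2, 4), 7), ((1, 2, 8), 4), ((1, 2, 12), 3), ((1, 4, 8), 13), ((1, 4, 10), 36), ((1, 6, 8), 8), ((2, 4, 9), 48), ((2, 5, 8), 9)], 1, [[-1, -1, 0, -1], [-2, -1, -1, 0], [-2, -1, -1, 0], [0, 0, 0, 0], [-1, -1, 0, -1], [0, 0, 0, 0], [0, 0, 0, 0], [0, 0, 0, 0], [0, -1, -2, -1], [-1, -1, -1, 1], [0, -1, -1, -1], [0, 0, 0, 0], [0, 0, 0, 0], [-1, -1, 0, 0], [0, 1, 0, 0], [0, -1, -2, -1]]⟩,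
    ⟨[67, 1, 23, 0], [3, 4, 6, 7, 8, 9, 21, 25, 31, 34, 36, 37], (0, 0, 0), [], [((0, 1, 2), 25), ((0, 2, 8), 34), ((0, 2, 13), 21), ((1, 2, 4), 7), ((1, 2, 8), 4), ((1, 2, 12), 3), ((1, 4, 8), 37), ((1, 4, 10), 36), ((1, 6, 8), 8), ((2, 4, 9), 6), ((2, 5, 8), 9), ((3, 4, 8), 31)], 1, [[0, -1, 0, -2], [-1, 0, -1, -2], [-2, 0, 0, -2], [-1, 0, 0, -1], [-2, 1, 1, -3], [0, 0, 0, 0], [0, 0, 0, 0], [0, 0, 0, 0], [0, 0, -2, -2], [0, 0, 0, 0], [0, -1, -1, -1], [0, 0, 0, 0], [0, 0, 0, 0], [-1, 0, 0, -1], [0, 1, 0, 0], [-1, 0, -1, -2]]⟩]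

def tab4_3 : List Nd :=
  [⟨[1, 23, 0], [2, 3, 4, 6, 7, 8, 9, 10, 13, 16, 21, 25, 31, 33, 34, 36, 37, 40, 48, 58, 67, 69], (0, 7, 8), [(7, 116), (21, 117), (31, 118), (67, 119)], [], 0, []⟩,
    ⟨[7, 36, 23, 0], [1, 3, 4, 5, 8, 9, 19, 21, 31, 40, 57, 67], (0, 0, 0), [], [((0, 1, 2), 40), ((0, 1, 8), 67), ((0, 2, 8), 5), ((0, 2, 13), 21), ((1, 2, 8), 4), ((1, 2, 12), 3), ((1, 4, 8), 19), ((1, 6, 8), 8), ((2, 4, 8), 1), ((2, 4, 9), 57), ((2, 5, 8), 9), ((3, 4, 8), 31)], 1, [[-1, -1, 0, -1], [-1, 0, -2, -1], [-1, -2, -1, 0], [-1, 0, -1, -1], [-1, -1, 0, -1], [0, 0, 0, 0], [0, 0, 0, 0], [1, 0, 0, 0], [-1, -2, -1, 0], [-1, -1, -1, 1], [0, 0, 0, 0], [0, 0, 0, 0], [0, 0, 0, 0], [-1, -1, 0, 0], [0, 0, 0, 0], [-1, 0, -2, -1]]⟩,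
    ⟨[21, 36, 23, 0], [1, 2, 3, 4, 5, 7, 8, 9, 31, 33, 67, 69], (0, 0, 0), [], [((0, 1, 2), 69), ((0, 1, 8), 67), ((0, 2, 8), 5), ((1, 2, 4), 7), ((1, 2, 8), 4), ((1, 2, 12), 3), ((1, 4, 8), 2), ((1, 6, 8), 8), ((2, 4, 8), 1), ((2, 4, 9), 33), ((2, 5, 8), 9), ((3, 4, 8), 31)], 1, [[0, -1, 0, 0], [-2, 1, -2, 0], [-1, -1, -1, 0], [-1, 0, -1, 0], [-2, 1, 0, -2], [0, 0, 0, 0], [0, 0, 0, 0], [0, 0, 0, 0], [-1, -1, -1, 0], [-1, 0, -1, 0], [0, 0, 0, 0], [0, 0, 0, 0], [0, 0, 0, 0], [0, 0, 0, 0], [0, 0, 0, 0], [0, 1, -2, -2]]⟩,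
    ⟨[31, 36, 23, 0], [1, 3, 4, 5, 7, 8, 9, 10, 12, 21, 52, 67], (0, 0, 0), [], [((0, 1, 2), 10), ((0, 1, 8), 67), ((0, 2, 8), 5), ((0, 2, 13), 21), ((1, 2, 4), 7), ((1, 2, 8), 4), ((1, 2, 12), 3), ((1, 4, 8), 52), ((1, 6, 8), 8), ((2, 4, 8), 1), ((2, 4, 9), 12), ((2, 5, 8), 9)], 1, [[-1, -1, 1, 0], [-2, 0, -1, 1], [-2, -2, 1, 1], [0, 0, 0, 0], [-1, -1, 1, 0], [0, 0, 0, 0], [0, 0, 0, 0], [0, 0, 0, 0], [0, -2, -1, 1], [-1, -1, 0, 1], [0, 0, 0, 0], [0, 0, 0, 0], [0, 0, 0, 0], [-1, -1, 0, 1], [0, 0, 0, 0], [0, 0, -1, -1]]⟩,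
    ⟨[67, 36, 23, 0], [1, 3, 4, 5, 6, 7, 8, 9, 21, 25, 31, 37], (0, 0, 0), [], [((0, 1, 2), 25), ((0, 2, 8), 5), ((0, 2, 13), 21), ((1, 2, 4), 7), ((1, 2, 8), 4), ((1, 2, 12), 3), ((1, 4, 8), 37), ((1, 6, 8), 8), ((2, 4, 8), 1), ((2, 4, 9), 6), ((2, 5, 8), 9), ((3, 4, 8), 31)], 1, [[0, -1, 1, -1], [-1, 1, -1, -2], [-2, -1, 1, -1], [-1, 0, 0, -1], [-2, 1, 1, -3], [0, 0, 0, 0], [0, 0, 0, 0], [0, 0, 0, 0], [0, -1, -1, -1], [0, 0, 0, 0], [0, 0, 0, 0], [0, 0, 0, 0], [0, 0, 0, 0], [-1, 0, 0, -1], [0, 0, 0, 0], [-1, 1, -1, -2]]⟩,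
    ⟨[36, 23, 0], [1, 2, 3, 4, 5, 6, 7, 8, 9, 10, 12, 19, 21, 25, 31, 33, 37, 40, 52, 57, 67, 69], (0, 7, 8), [(7, 121), (21, 122), (31, 123), (67, 124)], [], 0, []⟩,
    ⟨[21, 23, 0], [1, 2, 3, 4, 7, 8, 9, 31, 33, 36, 66, 67, 69], (0, 0, 0), [], [((0, 1, 2), 69), ((0, 1, 8), 67), ((0, 2, 8), 66), ((1, 2, 4), 7), ((1, 2, 8), 4), ((1, 2, 12), 3), ((1, 4, 8), 2), ((1, 4, 10), 36), ((1, 6, 8), 8), ((2, 4, 8), 1), ((2, 4, 9), 33), ((2, 5, 8), 9), ((3, 4, 8), 31)], 1, [[-1, -1, 0], [-2, -2, 0], [-2, -2, 0], [-1, -1, 0], [-2, 0, -2], [0, 0, 0], [0, 0, 0], [0, 0, 0], [-2, -2, 0], [-1, -1, 0], [-1, -1, 0], [0, 0, 0], [0, 0, 0], [0, 0, 0], [0, 0, 0], [0, -2, -2]]⟩,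
    ⟨[25, 23, 0], [1, 3, 4, 6, 8, 9, 10, 36, 37, 40, 67, 69, 70], (0, 0, 0), [], [((0, 2, 8), 70), ((0, 2, 13), 69), ((0, 7, 8), 67), ((1, 2, 4), 40), ((1, 2, 8), 4), ((1, 2, 12), 3), ((1, 4, 8), 37), ((1, 4, 10), 36), ((1, 6, 8), 8), ((2, 4, 8), 1), ((2, 4, 9), 6), ((2, 5, 8), 9), ((3, 4, 8), 10)], 1, [[-1, -1, 0], [0, -2, -2], [-2, -2, 0], [0, 0, 0], [-2, 0, -2], [0, 0, 0], [0, 0, 0], [-1, -1, 0], [-2, -2, 0], [0, 0, 0], [-1, -1, 0], [0, 0, 0], [0, 0, 0], [-1, -1, 0], [0, 0, 0], [-2, -2, 0]]⟩,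
    ⟨[67, 23, 0], [1, 3, 4, 6, 7, 8, 9, 21, 22, 25, 31, 36, 37], (0, 0, 0), [], [((0, 1, 2), 25), ((0, 2, 8), 22), ((0, 2, 13), 21), ((1, 2, 4), 7), ((1, 2, 8), 4), ((1, 2, 12), 3), ((1, 4, 8), 37), ((1, 4, 10), 36), ((1, 6, 8), 8), ((2, 4, 8), 1), ((2, 4, 9), 6), ((2, 5, 8), 9), ((3, 4, 8), 31)], 1, [[-1, 1, -2], [-1, -1, -2], [-3, 1, -2], [-1, 0, -1], [-2, 1, -3], [0, 0, 0], [0, 0, 0], [0, 0, 0], [-1, -1, -2], [0, 0, 0], [-1, 0, -1], [0, 0, 0], [0, 0, 0], [-1, 0, -1], [0, 0, 0], [-1, -1, -2]]⟩,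
    ⟨[69, 23, 0], [1, 2, 3, 4, 8, 9, 10, 21, 24, 25, 33, 36, 40], (0, 0, 0), [], [((0, 1, 8), 25), ((0, 2, 8), 24), ((0, 7, 8), 21), ((1, 2, 4), 40), ((1, 2, 8), 4), ((1, 2, 12), 3), ((1, 4, 8), 2), ((1, 4, 10), 36), ((1, 6, 8), 8), ((2, 4, 8), 1), ((2, 4, 9), 33), ((2, 5, 8), 9), ((3, 4, 8), 10)], 1, [[-1, 1, -2], [-1, -1, -2], [-1, -1, -2], [0, 0, 0], [-2, 1, -3], [0, 0, 0], [0, 0, 0], [-1, 0, -1], [-3, 1, -2], [-1, 0, -1], [-1, 0, -1], [0, 0, 0], [0, 0, 0], [0, 0, 0], [0, 0, 0], [-1, -1, -2]]⟩,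
    ⟨[23, 0], [1, 2, 3, 4, 5, 6, 7, 8, 9, 10, 12, 13, 16, 19, 21, 22, 24, 25, 31, 33, 34, 36, 37, 40, 48, 52, 57, 58, 66, 67, 69, 70], (0, 1, 14), [(1, 120), (36, 125), (21, 126), (25, 127), (67, 128), (69, 129)], [], 0, []⟩,
    ⟨[7, 3, 25, 0], [1, 6, 9, 10, 20, 22, 35, 37, 38, 40, 64, 67], (0, 0, 0), [], [((0, 2, 4), 40), ((0, 2, 8), 22), ((0, 2, 13), 38), ((0, 4, 11), 67), ((1, 2, 8), 20), ((1, 4, 8), 37), ((1, 4, 10), 64), ((1, 6, 8), 35), ((2, 4, 8), 1), ((2, 4, 9), 6), ((2, 5, 8), 9), ((3, 4, 8), 10)], 1, [[-1, -1, -1, -2], [-1, -1, -1, -2], [-1, -1, -2, -2], [0, 0, 0, 0], [-1, -1, -3, -1], [0, 0, 0, 0], [-1, 0, -1, -1], [1, 0, 0, 0], [-1, -1, -2, -2], [0, 0, 0, 0], [-1, -1, -1, 0], [-1, -1, -1, 0], [0, 1, 0, 0], [0, -1, -1, -1], [0, 0,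 0, 0], [-1, -1, -3, -1]]⟩,
    ⟨[22, 3, 25, 0], [1, 5, 6, 7, 9, 10, 35, 37, 38, 39, 67, 70], (0, 0, 0), [], [((0, 2, 4), 70), ((0, 2, 13), 38), ((0, 4, 11), 67), ((1, 2, 4), 7), ((1, 2, 8), 39), ((1, 4, 8), 37), ((1, 4, 10), 5), ((1, 6, 8), 35), ((2, 4, 8), 1), ((2, 4, 9), 6), ((2, 5, 8), 9), ((3, 4, 8), 10)], 1, [[0, -1, -1, -1], [-2, 1, 0, -2], [-1, 0, -2, -1], [0, 0, 0, 0], [-2, 0, -2, 0], [0, 0, 0, 0], [-1, 0, -1, 0], [0, 0, 0, 0], [0, 0, -2, -2], [0, 0, 0, 0], [0, 0, 0, 0], [-1, 0, -1, 0], [0, 1, 0, 0], [0, -1, -1, -1], [0, 0, 0, 0], [-1, 0, -2, -1]]⟩,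
    ⟨[35, 3, 25, 0], [1, 6, 7, 8, 9, 10, 17, 22, 37, 38, 63, 67], (0, 0, 0), [], [((0, 2, 4), 8), ((0, 2, 8), 22), ((0, 2, 13), 38), ((0, 4, 11), 67), ((1, 2, 4), 7), ((1, 2, 8), 63), ((1, 4, 8), 37), ((1, 4, 10), 17), ((2, 4, 8), 1), ((2, 4, 9), 6), ((2, 5, 8), 9), ((3, 4, 8), 10)], 1, [[-1, -1, 0, -1], [-1, -1, 0, -1], [-2, -1, -1, 0], [0, 0, 0, 0], [-2, -1, -1, 0], [0, 0, 0, 0], [0, 0, 0, 0], [0, 0, 0, 0], [0, -1, -2, -1], [0, 0, 0, 0], [-1, -1, 0, 0], [-1, -1, -1, 1], [0, 1, 0, 0], [0, -1, -1, -1], [0, 0, 0, 0], [0, -1, -2, -1]]⟩,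
    ⟨[67, 3, 25, 0], [1, 4, 6, 7, 9, 10, 22, 23, 35, 36, 37, 38], (0, 0, 0), [], [((0, 2, 4), 23), ((0, 2, 8), 22), ((0, 2, 13), 38), ((1, 2, 4), 7), ((1, 2, 8), 4), ((1, 4, 8), 37), ((1, 4, 10), 36), ((1, 6, 8), 35), ((2, 4, 8), 1), ((2, 4, 9), 6), ((2, 5, 8), 9), ((3, 4, 8), 10)], 1, [[0, -1, 0, -2], [-2, 1, 1, -3], [-2, 0, 0, -2], [0, 0, 0, 0], [-1, 0, -1, -2], [0, 0, 0, 0], [-1, 0, 0, -1], [0, 0, 0, 0], [-1, 0, -1, -2], [0, 0, 0, 0], [-1, 0, 0, -1], [0, 0, 0, 0], [0, 1, 0, 0], [0, -1, -1, -1], [0, 0, 0, 0], [0, 0, -2, -2]]⟩,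
    ⟨[3, 25, 0], [1, 4, 5, 6, 7, 8, 9, 10, 17, 20, 22, 23, 35, 36, 37, 38, 39, 40, 63, 64, 67, 70], (0, 7, 8), [(7, 131), (22, 132), (35, 133), (67, 134)], [], 0, []⟩,
    ⟨[7, 37, 25, 0], [1, 2, 3, 6, 9, 10, 19, 22, 35, 40, 65, 67], (0, 0, 0), [], [((0, 2, 4), 40), ((0, 2, 8), 22), ((0, 2, 13), 2), ((0, 4, 11), 67), ((1, 2, 8), 65), ((1, 2, 12), 3), ((1, 4, 10), 19), ((1, 6, 8), 35), ((2, 4, 8), 1), ((2, 4, 9), 6), ((2, 5, 8), 9), ((3, 4, 8), 10)], 1, [[-1, -1, 0, -1], [-1, -1, 0, -1], [-1, -2, -1, 0], [0, 0, 0, 0], [-1, 0, -2, -1], [0, 0, 0, 0], [-1, 0, -1, -1], [1, 0, 0, 0], [-1, 0, -2, -1], [0, 0, 0, 0], [-1, -1, 0, 0], [-1, -1, -1, 1], [0, 0, 0, 0], [0, 0, 0, 0], [0, 0, 0, 0], [-1, -2, -1, 0]]⟩,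
    ⟨[22, 37, 25, 0], [1, 2, 3, 5, 6, 7, 9, 10, 35, 39, 67, 70], (0, 0, 0), [], [((0, 2, 4), 70), ((0, 2, 13), 2), ((0, 4, 11), 67), ((1, 2, 4), 7), ((1, 2, 8), 39), ((1, 2, 12), 3), ((1, 4, 10), 5), ((1, 6, 8), 35), ((2, 4, 8), 1), ((2, 4, 9), 6), ((2, 5, 8), 9), ((3, 4, 8), 10)], 1, [[0, -1, 0, 0], [-2, 1, 0, -2], [-1, -1, -1, 0], [0, 0, 0, 0], [-2, 1, -2, 0], [0, 0, 0, 0], [-1, 0, -1, 0], [0, 0, 0, 0], [0, 1, -2, -2], [0, 0, 0, 0], [0, 0, 0, 0], [-1, 0, -1, 0], [0, 0, 0, 0], [0, 0, 0, 0], [0, 0, 0, 0], [-1, -1, -1, 0]]⟩,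
    ⟨[35, 37, 25, 0], [1, 2, 3, 6, 7, 8, 9, 10, 18, 22, 62, 67], (0, 0, 0), [], [((0, 2, 4), 8), ((0, 2, 8), 22), ((0, 2, 13), 2), ((0, 4, 11), 67), ((1, 2, 4), 7), ((1, 2, 8), 18), ((1, 2, 12), 3), ((1, 4, 10), 62), ((2, 4, 8), 1), ((2, 4, 9), 6), ((2, 5, 8), 9), ((3, 4, 8), 10)], 1, [[-1, -1, 1, 0], [-1, -1, 1, 0], [-2, -2, 1, 1], [0, 0, 0, 0], [-2, 0, -1, 1], [0, 0, 0, 0], [0, 0, 0, 0], [0, 0, 0, 0], [0, 0, -1, -1], [0, 0, 0, 0], [-1, -1, 0, 1], [-1, -1, 0, 1], [0, 0, 0, 0], [0, 0, 0, 0], [0, 0, 0, 0], [0, -2, -1, 1]]⟩,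
    ⟨[67, 37, 25, 0], [1, 2, 3, 4, 6, 7, 9, 10, 22, 23, 35, 36], (0, 0, 0), [], [((0, 2, 4), 23), ((0, 2, 8), 22), ((0, 2, 13), 2), ((1, 2, 4), 7), ((1, 2, 8), 4), ((1, 2, 12), 3), ((1, 4, 10), 36), ((1, 6, 8), 35), ((2, 4, 8), 1), ((2, 4, 9), 6), ((2, 5, 8), 9), ((3, 4, 8), 10)], 1, [[0, -1, 1, -1], [-2, 1, 1, -3], [-2, -1, 1, -1], [0, 0, 0, 0], [-1, 1, -1, -2], [0, 0, 0, 0], [-1, 0, 0, -1], [0, 0, 0, 0], [-1, 1, -1, -2], [0, 0, 0, 0], [-1, 0, 0, -1], [0, 0, 0, 0], [0, 0, 0, 0], [0, 0, 0, 0], [0, 0, 0, 0], [0, -1, -1, -1]]⟩,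
    ⟨[37, 25, 0], [1, 2, 3, 4, 5, 6, 7, 8, 9, 10, 18, 19, 22, 23, 35, 36, 39, 40, 62, 65, 67, 70], (0, 7, 8), [(7, 136), (22, 137), (35, 138), (67, 139)], [], 0, []⟩,
    ⟨[22, 25, 0], [1, 3, 5, 6, 7, 9, 10, 35, 37, 39, 67, 68, 70], (0, 0, 0), [], [((0, 2, 4), 70), ((0, 2, 13), 68), ((0, 4, 11), 67), ((1, 2, 4), 7), ((1, 2, 8), 39), ((1, 2, 12), 3), ((1, 4, 8), 37), ((1, 4, 10), 5), ((1, 6, 8), 35), ((2, 4, 8), 1), ((2, 4, 9), 6), ((2, 5, 8), 9), ((3, 4, 8), 10)], 1, [[-1, -1, 0], [-2, 0, -2], [-2, -2, 0], [0, 0, 0], [-2, -2, 0], [0, 0, 0], [-1, -1, 0], [0, 0, 0], [0, -2, -2], [0, 0, 0], [0, 0, 0], [-1, -1, 0], [0, 0, 0], [-1, -1, 0], [0, 0, 0], [-2, -2, 0]]⟩,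
    ⟨[23, 25, 0], [1, 3, 4, 6, 8, 9, 10, 36, 37, 40, 67, 69, 70], (0, 0, 0), [], [((0, 2, 8), 70), ((0, 2, 13), 69), ((0, 7, 8), 67), ((1, 2, 4), 40), ((1, 2, 8), 4), ((1, 2, 12), 3), ((1, 4, 8), 37), ((1, 4, 10), 36), ((1, 6, 8), 8), ((2, 4, 8), 1), ((2, 4, 9), 6), ((2, 5, 8), 9), ((3, 4, 8), 10)], 1, [[-1, -1, 0], [-2, 0, -2], [-2, -2, 0], [0, 0, 0], [0, -2, -2], [0, 0, 0], [0, 0, 0], [-1, -1, 0], [-2, -2, 0], [0, 0, 0], [-1, -1, 0], [0, 0, 0], [0, 0, 0], [-1, -1, 0], [0, 0, 0], [-2, -2, 0]]⟩,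
    ⟨[67, 25, 0], [1, 3, 4, 6, 7, 9, 10, 21, 22, 23, 35, 36, 37], (0, 0, 0), [], [((0, 2, 4), 23), ((0, 2, 8), 22), ((0, 2, 13), 21), ((1, 2, 4), 7), ((1, 2, 8), 4), ((1, 2, 12), 3), ((1, 4, 8), 37), ((1, 4, 10), 36), ((1, 6, 8), 35), ((2, 4, 8), 1), ((2, 4, 9), 6), ((2, 5, 8), 9), ((3, 4, 8), 10)], 1, [[-1, 1, -2], [-2, 1, -3], [-3, 1, -2], [0, 0, 0], [-1, -1, -2], [0, 0, 0], [-1, 0, -1], [0, 0, 0], [-1, -1, -2], [0, 0, 0], [-1, 0, -1], [0, 0, 0], [0, 0, 0], [-1, 0, -1], [0, 0, 0], [-1, -1, -2]]⟩,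
    ⟨[70, 25, 0], [1, 3, 5, 6, 8, 9, 10, 22, 23, 24, 37, 39, 40], (0, 0, 0), [], [((0, 2, 13), 24), ((0, 4, 11), 23), ((0, 7, 8), 22), ((1, 2, 4), 40), ((1, 2, 8), 39), ((1, 2, 12), 3), ((1, 4, 8), 37), ((1, 4, 10), 5), ((1, 6, 8), 8), ((2, 4, 8), 1), ((2, 4, 9), 6), ((2, 5, 8), 9), ((3, 4, 8), 10)], 1, [[-1, 1, -2], [-2, 1, -3], [-1, -1, -2], [0, 0, 0], [-1, -1, -2], [0, 0, 0], [0, 0, 0], [-1, 0, -1], [-1, -1, -2], [0, 0, 0], [0, 0, 0], [-1, 0, -1], [0, 0, 0], [-1, 0, -1], [0, 0, 0], [-3, 1, -2]]⟩,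
    ⟨[25, 0], [1, 2, 3, 4, 5, 6, 7, 8, 9, 10, 17, 18, 19, 20, 21, 22, 23, 24, 35, 36, 37, 38, 39, 40, 62, 63, 64, 65, 67, 68, 69, 70], (0, 4, 8), [(3, 135), (37, 140), (22, 141), (23, 142), (67, 143), (70, 144)], [], 0, []⟩,
    ⟨[7, 3, 36, 0], [1, 4, 5, 9, 17, 19, 21, 23, 29, 31, 64, 67], (0, 0, 0), [], [((0, 1, 2), 64), ((0, 1, 8), 67), ((0, 2, 4), 23), ((0, 2, 8), 5), ((0, 2, 13), 21), ((1, 2, 8), 4), ((1, 4, 8), 19), ((1, 6, 8), 17), ((2, 4, 8), 1), ((2, 4, 9), 29), ((2, 5, 8), 9), ((3, 4, 8), 31)], 1, [[-1, -1, -2, 0], [-1, -1, -2, 0], [-1, -1, -3, 0], [-1, -1, -1, 0], [-1, -1, -1, -2], [0, 0, 0, 0], [0, -1, -1, 0], [1, 0, 0, 0], [-1, -1, -3, 0], [-1, -1, -1, 0], [0, 0, 0, 0], [0, 0, 0, 0], [0, 1, 0, 0], [-1, 0, -1, 0], [0, 0, 0, 0], [-1,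 -1, -1, -2]]⟩,
    ⟨[21, 3, 36, 0], [1, 2, 4, 5, 7, 9, 17, 23, 31, 38, 55, 67], (0, 0, 0), [], [((0, 1, 2), 38), ((0, 1, 8), 67), ((0, 2, 4), 23), ((0, 2, 8), 5), ((1, 2, 4), 7), ((1, 2, 8), 4), ((1, 4, 8), 2), ((1, 6, 8), 17), ((2, 4, 8), 1), ((2, 4, 9), 55), ((2, 5, 8), 9), ((3, 4, 8), 31)], 1, [[0, -1, -1, -1], [-2, -1, 0, -1], [-1, -1, -2, 0], [-1, -1, 0, -1], [-2, -1, 0, -1], [0, 0, 0, 0], [0, -1, -1, 0], [0, 0, 0, 0], [-1, -1, -2, 0], [-1, -1, -1, 1], [0, 0, 0, 0], [0, 0, 0, 0], [0, 1, 0, 0], [0, 0, 0, 0], [0, 0, 0, 0], [0, -1, -1, -1]]⟩,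
    ⟨[31, 3, 36, 0], [1, 4, 5, 7, 9, 10, 12, 17, 21, 23, 52, 67], (0, 0, 0), [], [((0, 1, 2), 10), ((0, 1, 8), 67), ((0, 2, 4), 23), ((0, 2, 8), 5), ((0, 2, 13), 21), ((1, 2, 4), 7), ((1, 2, 8), 4), ((1, 4, 8), 52), ((1, 6, 8), 17), ((2, 4, 8), 1), ((2, 4, 9), 12), ((2, 5, 8), 9)], 1, [[-1, 0, -1, 0], [-2, 0, -1, 1], [-2, 1, -2, 1], [0, 0, 0, 0], [-1, 0, -1, 0], [0, 0, 0, 0], [0, -1, -1, 0], [0, 0, 0, 0], [0, -1, -3, 1], [-1, 0, -1, 1], [0, 0, 0, 0], [0, 0, 0, 0], [0, 1, 0, 0], [-1, 0, -1, 1], [0, 0, 0, 0], [0, 0, -1, -1]]⟩,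
    ⟨[67, 3, 36, 0], [1, 4, 5, 6, 7, 9, 17, 21, 23, 25, 31, 37], (0, 0, 0), [], [((0, 1, 2), 25), ((0, 2, 4), 23), ((0, 2, 8), 5), ((0, 2, 13), 21), ((1, 2, 4), 7), ((1, 2, 8), 4), ((1, 4, 8), 37), ((1, 6, 8), 17), ((2, 4, 8), 1), ((2, 4, 9), 6), ((2, 5, 8), 9), ((3, 4, 8), 31)], 1, [[0, 0, -1, -1], [-1, 0, 0, -2], [-2, 1, -1, -1], [-1, 0, 0, -1], [-2, 0, 1, -3], [0, 0, 0, 0], [0, -1, -1, 0], [0, 0, 0, 0], [0, -1, -2, -1], [0, 0, 0, 0], [0, 0, 0, 0], [0, 0, 0, 0], [0, 1, 0, 0], [-1, 0, 0, -1], [0, 0, 0, 0], [-1, 0, 0, -2]]⟩,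
    ⟨[3, 36, 0], [1, 2, 4, 5, 6, 7, 9, 10, 12, 17, 19, 21, 23, 25, 29, 31, 37, 38, 52, 55, 64, 67], (0, 7, 8), [(7, 146), (21, 147), (31, 148), (67, 149)], [], 0, []⟩,
    ⟨[7, 23, 36, 0], [1, 3, 4, 5, 8, 9, 19, 21, 31, 40, 57, 67], (0, 0, 0), [], [((0, 1, 2), 40), ((0, 1, 8), 67), ((0, 2, 8), 5), ((0, 2, 13), 21), ((1, 2, 8), 4), ((1, 2, 12), 3), ((1, 4, 8), 19), ((1, 6, 8), 8), ((2, 4, 8), 1), ((2, 4, 9), 57), ((2, 5, 8), 9), ((3, 4, 8), 31)], 1, [[-1, 0, -1, -1], [-1, -2, 0, -1], [-1, -1, -2, 0], [-1, -1, 0, -1], [-1, 0, -1, -1], [0, 0, 0, 0], [0, 0, 0, 0], [1, 0, 0, 0], [-1, -1, -2, 0], [-1, -1, -1, 1], [0, 0, 0, 0], [0, 0, 0, 0], [0, 0, 0, 0], [-1, 0, -1, 0], [0, 0, 0, 0], [-1, -2, 0, -1]]⟩,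
    ⟨[21, 23, 36, 0], [1, 2, 3, 4, 5, 7, 8, 9, 31, 33, 67, 69], (0, 0, 0), [], [((0, 1, 2), 69), ((0, 1, 8), 67), ((0, 2, 8), 5), ((1, 2, 4), 7), ((1, 2, 8), 4), ((1, 2, 12), 3), ((1, 4, 8), 2), ((1, 6, 8), 8), ((2, 4, 8), 1), ((2, 4, 9), 33), ((2, 5, 8), 9), ((3, 4, 8), 31)], 1, [[0, 0, -1, 0], [-2, -2, 1, 0], [-1, -1, -1, 0], [-1, -1, 0, 0], [-2, 0, 1, -2], [0, 0, 0, 0], [0, 0, 0, 0], [0, 0, 0, 0], [-1, -1, -1, 0], [-1, -1, 0, 0], [0, 0, 0, 0], [0, 0, 0, 0], [0, 0, 0, 0], [0, 0, 0, 0], [0, 0, 0, 0], [0, -2, 1, -2]]⟩,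
    ⟨[31, 23, 36, 0], [1, 3, 4, 5, 7, 8, 9, 10, 12, 21, 52, 67], (0, 0, 0), [], [((0, 1, 2), 10), ((0, 1, 8), 67), ((0, 2, 8), 5), ((0, 2, 13), 21), ((1, 2, 4), 7), ((1, 2, 8), 4), ((1, 2, 12), 3), ((1, 4, 8), 52), ((1, 6, 8), 8), ((2, 4, 8), 1), ((2, 4, 9), 12), ((2, 5, 8), 9)], 1, [[-1, 1, -1, 0], [-2, -1, 0, 1], [-2, 1, -2, 1], [0, 0, 0, 0], [-1, 1, -1, 0], [0, 0, 0, 0], [0, 0, 0, 0], [0, 0, 0, 0], [0, -1, -2, 1], [-1, 0, -1, 1], [0, 0, 0, 0], [0, 0, 0, 0], [0, 0, 0, 0], [-1, 0, -1, 1], [0, 0, 0, 0], [0, -1, 0, -1]]⟩,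
    ⟨[67, 23, 36, 0], [1, 3, 4, 5, 6, 7, 8, 9, 21, 25, 31, 37], (0, 0, 0), [], [((0, 1, 2), 25), ((0, 2, 8), 5), ((0, 2, 13), 21), ((1, 2, 4), 7), ((1, 2, 8), 4), ((1, 2, 12), 3), ((1, 4, 8), 37), ((1, 6, 8), 8), ((2, 4, 8), 1), ((2, 4, 9), 6), ((2, 5, 8), 9), ((3, 4, 8), 31)], 1, [[0, 1, -1, -1], [-1, -1, 1, -2], [-2, 1, -1, -1], [-1, 0, 0, -1], [-2, 1, 1, -3], [0, 0, 0, 0], [0, 0, 0, 0], [0, 0, 0, 0], [0, -1, -1, -1], [0, 0, 0, 0], [0, 0, 0, 0], [0, 0, 0, 0], [0, 0, 0, 0], [-1, 0, 0, -1], [0, 0, 0, 0], [-1, -1, 1, -2]]⟩,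
    ⟨[23, 36, 0], [1, 2, 3, 4, 5, 6, 7, 8, 9, 10, 12, 19, 21, 25, 31, 33, 37, 40, 52, 57, 67, 69], (0, 7, 8), [(7, 151), (21, 152), (31, 153), (67, 154)], [], 0, []⟩,
    ⟨[31, 36, 0], [1, 3, 4, 5, 7, 9, 10, 12, 21, 23, 50, 52, 67], (0, 0, 0), [], [((0, 1, 2), 10), ((0, 1, 8), 67), ((0, 2, 4), 23), ((0, 2, 8), 5), ((0, 2, 13), 21), ((1, 2, 4), 7), ((1, 2, 8), 4), ((1, 2, 12), 3), ((1, 4, 8), 52), ((1, 6, 8), 50), ((2, 4, 8), 1), ((2, 4, 9), 12), ((2, 5, 8), 9)], 1, [[-1, -1, 0], [-3, -1, 2], [-2, -2, 1], [0, 0, 0], [-1, -1, 0], [0, 0, 0], [-1, -1, 1], [0, 0, 0], [-1, -3, 2], [-1, -1, 1], [0, 0, 0], [0, 0, 0], [0, 0, 0], [-1, -1, 1], [0, 0, 0], [-1, -1, 0]]⟩,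
    ⟨[37, 36, 0], [1, 2, 3, 4, 5, 6, 9, 19, 23, 25, 52, 62, 67], (0, 0, 0), [], [((0, 1, 2), 25), ((0, 2, 4), 23), ((0, 2, 8), 5), ((0, 2, 13), 2), ((0, 7, 8), 67), ((1, 2, 4), 19), ((1, 2, 8), 4), ((1, 2, 12), 3), ((1, 6, 8), 62), ((2, 4, 8), 1), ((2, 4, 9), 6), ((2, 5, 8), 9), ((3, 4, 8), 52)], 1, [[-1, -1, 0], [-1, -1, 0], [-2, -2, 1], [-1, -1, 1], [-1, -1, 0], [0, 0, 0], [-1, -1, 1], [-1, -1, 1], [-1, -3, 2], [0, 0, 0], [0, 0, 0], [0, 0, 0], [0, 0, 0], [0, 0, 0], [0, 0, 0], [-3, -1, 2]]⟩,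
    ⟨[52, 36, 0], [1, 2, 3, 4, 5, 9, 10, 12, 19, 23, 27, 31, 37], (0, 0, 0), [], [((0, 1, 2), 10), ((0, 1, 8), 37), ((0, 2, 4), 23), ((0, 2, 8), 5), ((0, 2, 13), 2), ((0, 7, 8), 31), ((1, 2, 4), 19), ((1, 2, 8), 4), ((1, 2, 12), 3), ((1, 6, 8), 27), ((2, 4, 8), 1), ((2, 4, 9), 12), ((2, 5, 8), 9)], 1, [[-2, 1, -3], [-2, 1, -3], [-2, -1, -1], [0, 0, 0], [0, -1, -1], [0, 0, 0], [-1, 0, -1], [-1, 0, -1], [-1, -1, -2], [-1, 0, -1], [0, 0, 0], [0, 0, 0], [0, 0, 0], [0, 0, 0], [0, 0, 0], [-2, 1, -3]]⟩,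
    ⟨[67, 36, 0], [1, 3, 4, 5, 6, 7, 9, 21, 23, 25, 31, 35, 37], (0, 0, 0), [], [((0, 1, 2), 25), ((0, 2, 4), 23), ((0, 2, 8), 5), ((0, 2, 13), 21), ((1, 2, 4), 7), ((1, 2, 8), 4), ((1, 2, 12), 3), ((1, 4, 8), 37), ((1, 6, 8), 35), ((2, 4, 8), 1), ((2, 4, 9), 6), ((2, 5, 8), 9), ((3, 4, 8), 31)], 1, [[0, -1, -1], [-2, 1, -3], [-2, -1, -1], [-1, 0, -1], [-2, 1, -3], [0, 0, 0], [-1, 0, -1], [0, 0, 0], [-1, -1, -2], [0, 0, 0], [0, 0, 0], [0, 0, 0], [0, 0, 0], [-1, 0, -1], [0, 0, 0], [-2, 1, -3]]⟩]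

def tab4_4 : List Nd :=
  [⟨[36, 0], [1, 2, 3, 4, 5, 6, 7, 8, 9, 10, 12, 17, 19, 21, 23, 25, 27, 29, 31, 33, 35, 37, 38, 40, 50, 52, 55, 57, 62, 64, 67, 69], (0, 4, 8), [(3, 150), (23, 155), (31, 156), (37, 157), (52, 158), (67, 159)], [], 0, []⟩,
    ⟨[7, 1, 37, 0], [2, 3, 6, 9, 13, 19, 22, 25, 30, 35, 58, 67], (0, 0, 0), [], [((0, 1, 2), 25), ((0, 2, 4), 58), ((0, 2, 8), 22), ((0, 2, 13), 2), ((0, 4, 11), 67), ((1, 2, 8), 30), ((1, 2, 12), 3), ((1, 4, 10), 19), ((1, 6, 8), 35), ((2, 4, 9), 6), ((2, 5, 8), 9), ((3, 4, 8), 13)], 1, [[-1, -1, -2, 0], [-1, -1, -1, -2], [-1, -1, -3, 0], [0, -1, -1, 0], [-1, -1, -2, 0], [0, 0, 0, 0], [-1, -1, -1, 0], [1, 0, 0, 0], [-1, -1, -1, -2], [0, 0, 0, 0], [-1, 0, -1, 0], [-1, -1, -1, 0], [0, 0, 0, 0], [0,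 0, 0, 0], [0, 1, 0, 0], [-1, -1, -3, 0]]⟩,
    ⟨[22, 1, 37, 0], [2, 3, 5, 6, 7, 9, 13, 25, 34, 35, 56, 67], (0, 0, 0), [], [((0, 1, 2), 25), ((0, 2, 4), 34), ((0, 2, 13), 2), ((0, 4, 11), 67), ((1, 2, 4), 7), ((1, 2, 8), 56), ((1, 2, 12), 3), ((1, 4, 10), 5), ((1, 6, 8), 35), ((2, 4, 9), 6), ((2, 5, 8), 9), ((3, 4, 8), 13)], 1, [[0, -1, -1, -1], [-2, -1, 0, -1], [-1, -1, -2, 0], [0, -1, -1, 0], [-2, -1, 0, -1], [0, 0, 0, 0], [-1, -1, 0, -1], [0, 0, 0, 0], [0, -1, -1, -1], [0, 0, 0, 0], [0, 0, 0, 0], [-1, -1, -1, 1], [0, 0, 0, 0], [0, 0, 0, 0], [0, 1, 0, 0], [-1, -1, -2, 0]]⟩,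
    ⟨[35, 1, 37, 0], [2, 3, 6, 7, 8, 9, 13, 18, 22, 25, 62, 67], (0, 0, 0), [], [((0, 1, 2), 25), ((0, 2, 4), 8), ((0, 2, 8), 22), ((0, 2, 13), 2), ((0, 4, 11), 67), ((1, 2, 4), 7), ((1, 2, 8), 18), ((1, 2, 12), 3), ((1, 4, 10), 62), ((2, 4, 9), 6), ((2, 5, 8), 9), ((3, 4, 8), 13)], 1, [[-1, 0, -1, 0], [-1, 0, -1, 0], [-2, 1, -2, 1], [0, -1, -1, 0], [-2, 0, -1, 1], [0, 0, 0, 0], [0, 0, 0, 0], [0, 0, 0, 0], [0, 0, -1, -1], [0, 0, 0, 0], [-1, 0, -1, 1], [-1, 0, -1, 1], [0, 0, 0, 0], [0, 0, 0, 0], [0, 1, 0, 0], [0, -1, -3, 1]]⟩,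
    ⟨[67, 1, 37, 0], [2, 3, 4, 6, 7, 9, 13, 22, 23, 25, 35, 36], (0, 0, 0), [], [((0, 1, 2), 25), ((0, 2, 4), 23), ((0, 2, 8), 22), ((0, 2, 13), 2), ((1, 2, 4), 7), ((1, 2, 8), 4), ((1, 2, 12), 3), ((1, 4, 10), 36), ((1, 6, 8), 35), ((2, 4, 9), 6), ((2, 5, 8), 9), ((3, 4, 8), 13)], 1, [[0, 0, -1, -1], [-2, 0, 1, -3], [-2, 1, -1, -1], [0, -1, -1, 0], [-1, 0, 0, -2], [0, 0, 0, 0], [-1, 0, 0, -1], [0, 0, 0, 0], [-1, 0, 0, -2], [0, 0, 0, 0], [-1, 0, 0, -1], [0, 0, 0, 0], [0, 0, 0, 0], [0, 0, 0, 0], [0, 1, 0, 0], [0, -1, -2, -1]]⟩,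
    ⟨[1, 37, 0], [2, 3, 4, 5, 6, 7, 8, 9, 13, 18, 19, 22, 23, 25, 30, 34, 35, 36, 56, 58, 62, 67], (0, 7, 8), [(7, 161), (22, 162), (35, 163), (67, 164)], [], 0, []⟩,
    ⟨[7, 25, 37, 0], [1, 2, 3, 6, 9, 10, 19, 22, 35, 40, 65, 67], (0, 0, 0), [], [((0, 2, 4), 40), ((0, 2, 8), 22), ((0, 2, 13), 2), ((0, 4, 11), 67), ((1, 2, 8), 65), ((1, 2, 12), 3), ((1, 4, 10), 19), ((1, 6, 8), 35), ((2, 4, 8), 1), ((2, 4, 9), 6), ((2, 5, 8), 9), ((3, 4, 8), 10)], 1, [[-1, 0, -1, -1], [-1, 0, -1, -1], [-1, -1, -2, 0], [0, 0, 0, 0], [-1, -2, 0, -1], [0, 0, 0, 0], [-1, -1, 0, -1], [1, 0, 0, 0], [-1, -2, 0, -1], [0, 0, 0, 0], [-1, 0, -1, 0], [-1, -1, -1, 1], [0, 0, 0, 0], [0, 0, 0, 0], [0, 0, 0, 0], [-1, -1, -2, 0]]⟩,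
    ⟨[22, 25, 37, 0], [1, 2, 3, 5, 6, 7, 9, 10, 35, 39, 67, 70], (0, 0, 0), [], [((0, 2, 4), 70), ((0, 2, 13), 2), ((0, 4, 11), 67), ((1, 2, 4), 7), ((1, 2, 8), 39), ((1, 2, 12), 3), ((1, 4, 10), 5), ((1, 6, 8), 35), ((2, 4, 8), 1), ((2, 4, 9), 6), ((2, 5, 8), 9), ((3, 4, 8), 10)], 1, [[0, 0, -1, 0], [-2, 0, 1, -2], [-1, -1, -1, 0], [0, 0, 0, 0], [-2, -2, 1, 0], [0, 0, 0, 0], [-1, -1, 0, 0], [0, 0, 0, 0], [0, -2, 1, -2], [0, 0, 0, 0], [0, 0, 0, 0], [-1, -1, 0, 0], [0, 0, 0, 0], [0, 0, 0, 0], [0, 0, 0, 0], [-1, -1, -1, 0]]⟩,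
    ⟨[35, 25, 37, 0], [1, 2, 3, 6, 7, 8, 9, 10, 18, 22, 62, 67], (0, 0, 0), [], [((0, 2, 4), 8), ((0, 2, 8), 22), ((0, 2, 13), 2), ((0, 4, 11), 67), ((1, 2, 4), 7), ((1, 2, 8), 18), ((1, 2, 12), 3), ((1, 4, 10), 62), ((2, 4, 8), 1), ((2, 4, 9), 6), ((2, 5, 8), 9), ((3, 4, 8), 10)], 1, [[-1, 1, -1, 0], [-1, 1, -1, 0], [-2, 1, -2, 1], [0, 0, 0, 0], [-2, -1, 0, 1], [0, 0, 0, 0], [0, 0, 0, 0], [0, 0, 0, 0], [0, -1, 0, -1], [0, 0, 0, 0], [-1, 0, -1, 1], [-1, 0, -1, 1], [0, 0, 0, 0], [0, 0, 0, 0], [0, 0, 0, 0], [0, -1, -2, 1]]⟩,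
    ⟨[67, 25, 37, 0], [1, 2, 3, 4, 6, 7, 9, 10, 22, 23, 35, 36], (0, 0, 0), [], [((0, 2, 4), 23), ((0, 2, 8), 22), ((0, 2, 13), 2), ((1, 2, 4), 7), ((1, 2, 8), 4), ((1, 2, 12), 3), ((1, 4, 10), 36), ((1, 6, 8), 35), ((2, 4, 8), 1), ((2, 4, 9), 6), ((2, 5, 8), 9), ((3, 4, 8), 10)], 1, [[0, 1, -1, -1], [-2, 1, 1, -3], [-2, 1, -1, -1], [0, 0, 0, 0], [-1, -1, 1, -2], [0, 0, 0, 0], [-1, 0, 0, -1], [0, 0, 0, 0], [-1, -1, 1, -2], [0, 0, 0, 0], [-1, 0, 0, -1], [0, 0, 0, 0], [0, 0, 0, 0], [0, 0, 0, 0], [0, 0, 0, 0], [0, -1, -1, -1]]⟩,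
    ⟨[25, 37, 0], [1, 2, 3, 4, 5, 6, 7, 8, 9, 10, 18, 19, 22, 23, 35, 36, 39, 40, 62, 65, 67, 70], (0, 7, 8), [(7, 166), (22, 167), (35, 168), (67, 169)], [], 0, []⟩,
    ⟨[35, 37, 0], [1, 2, 3, 6, 7, 8, 9, 18, 22, 25, 51, 62, 67], (0, 0, 0), [], [((0, 1, 2), 25), ((0, 2, 4), 8), ((0, 2, 8), 22), ((0, 2, 13), 2), ((0, 4, 11), 67), ((1, 2, 4), 7), ((1, 2, 8), 18), ((1, 2, 12), 3), ((1, 4, 10), 62), ((2, 4, 8), 1), ((2, 4, 9), 6), ((2, 5, 8), 9), ((3, 4, 8), 51)], 1, [[-1, -1, 0], [-1, -1, 0], [-2, -2, 1], [-1, -1, 1], [-3, -1, 2], [0, 0, 0], [0, 0, 0], [0, 0, 0], [-1, -1, 0], [0, 0, 0], [-1, -1, 1], [-1, -1, 1], [0, 0, 0], [0, 0, 0], [0, 0, 0], [-1, -3, 2]]⟩,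
    ⟨[36, 37, 0], [1, 2, 3, 4, 5, 6, 9, 19, 23, 25, 52, 62, 67], (0, 0, 0), [], [((0, 1, 2), 25), ((0, 2, 4), 23), ((0, 2, 8), 5), ((0, 2, 13), 2), ((0, 7, 8), 67), ((1, 2, 4), 19), ((1, 2, 8), 4), ((1, 2, 12), 3), ((1, 6, 8), 62), ((2, 4, 8), 1), ((2, 4, 9), 6), ((2, 5, 8), 9), ((3, 4, 8), 52)], 1, [[-1, -1, 0], [-1, -1, 0], [-2, -2, 1], [-1, -1, 1], [-1, -1, 0], [0, 0, 0], [-1, -1, 1], [-1, -1, 1], [-3, -1, 2], [0, 0, 0], [0, 0, 0], [0, 0, 0], [0, 0, 0], [0, 0, 0], [0, 0, 0], [-1, -3, 2]]⟩,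
    ⟨[62, 37, 0], [1, 2, 3, 5, 6, 8, 9, 18, 19, 25, 27, 35, 36], (0, 0, 0), [], [((0, 1, 2), 25), ((0, 2, 4), 8), ((0, 2, 8), 5), ((0, 2, 13), 2), ((0, 4, 11), 36), ((0, 7, 8), 35), ((1, 2, 4), 19), ((1, 2, 8), 18), ((1, 2, 12), 3), ((2, 4, 8), 1), ((2, 4, 9), 6), ((2, 5, 8), 9), ((3, 4, 8), 27)], 1, [[-2, 1, -3], [0, -1, -1], [-2, -1, -1], [-1, 0, -1], [-2, 1, -3], [0, 0, 0], [0, 0, 0], [-1, 0, -1], [-2, 1, -3], [0, 0, 0], [0, 0, 0], [-1, 0, -1], [0, 0, 0], [0, 0, 0], [0, 0, 0], [-1, -1, -2]]⟩,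
    ⟨[67, 37, 0], [1, 2, 3, 4, 6, 7, 9, 22, 23, 25, 31, 35, 36], (0, 0, 0), [], [((0, 1, 2), 25), ((0, 2, 4), 23), ((0, 2, 8), 22), ((0, 2, 13), 2), ((1, 2, 4), 7), ((1, 2, 8), 4), ((1, 2, 12), 3), ((1, 4, 10), 36), ((1, 6, 8), 35), ((2, 4, 8), 1), ((2, 4, 9), 6), ((2, 5, 8), 9), ((3, 4, 8), 31)], 1, [[0, -1, -1], [-2, 1, -3], [-2, -1, -1], [-1, 0, -1], [-2, 1, -3], [0, 0, 0], [-1, 0, -1], [0, 0, 0], [-2, 1, -3], [0, 0, 0], [-1, 0, -1], [0, 0, 0], [0, 0, 0], [0, 0, 0], [0, 0, 0], [-1, -1, -2]]⟩,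
    ⟨[37, 0], [1, 2, 3, 4, 5, 6, 7, 8, 9, 10, 13, 18, 19, 22, 23, 25, 27, 30, 31, 34, 35, 36, 39, 40, 51, 52, 56, 58, 62, 65, 67, 70], (0, 1, 14), [(1, 165), (25, 170), (35, 171), (36, 172), (62, 173), (67, 174)], [], 0, []⟩,
    ⟨[1, 3, 40, 0], [7, 8, 9, 10, 16, 20, 23, 25, 34, 38, 58, 64], (0, 0, 0), [], [((0, 1, 8), 25), ((0, 2, 8), 34), ((0, 2, 13), 38), ((0, 4, 11), 23), ((0, 7, 8), 7), ((1, 2, 8), 20), ((1, 4, 8), 58), ((1, 4, 10), 64), ((1, 6, 8), 8), ((2, 4, 9), 16), ((2, 5, 8), 9), ((3, 4, 8), 10)], 1, [[-1, -1, -1, -2], [-1, -1, -2, 0], [-1, -1, -1, -2], [0, 0, 0, 0], [-1, -1, -2, 0], [0, 0, 0, 0], [0, 0, 0, 0], [0, 0, 0, 0], [-1, -1, -3, 0], [-1, 0, -1, 0], [-1, -1, -1, 0], [0, -1, -1, 0], [0, 1, 0, 0], [-1, -1, -1, 0], [1, 0, 0, 0],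 [-1, -1, -3, 0]]⟩,
    ⟨[25, 3, 40, 0], [1, 6, 7, 8, 9, 10, 20, 23, 37, 38, 64, 70], (0, 0, 0), [], [((0, 2, 8), 70), ((0, 2, 13), 38), ((0, 4, 11), 23), ((0, 7, 8), 7), ((1, 2, 8), 20), ((1, 4, 8), 37), ((1, 4, 10), 64), ((1, 6, 8), 8), ((2, 4, 8), 1), ((2, 4, 9), 6), ((2, 5, 8), 9), ((3, 4, 8), 10)], 1, [[0, -1, -1, -1], [0, -1, -1, -1], [-2, -1, 0, -1], [0, 0, 0, 0], [-2, -1, 0, -1], [0, 0, 0, 0], [0, 0, 0, 0], [0, 0, 0, 0], [-1, -1, -2, 0], [0, 0, 0, 0], [-1, -1, -1, 1], [0, -1, -1, 0], [0, 1, 0, 0], [-1, -1, 0, -1], [0, 0, 0, 0], [-1, -1, -2, 0]]⟩,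
    ⟨[38, 3, 40, 0], [1, 2, 7, 8, 9, 10, 20, 23, 24, 25, 60, 64], (0, 0, 0), [], [((0, 1, 8), 25), ((0, 2, 8), 24), ((0, 4, 11), 23), ((0, 7, 8), 7), ((1, 2, 8), 20), ((1, 4, 8), 2), ((1, 4, 10), 64), ((1, 6, 8), 8), ((2, 4, 8), 1), ((2, 4, 9), 60), ((2, 5, 8), 9), ((3, 4, 8), 10)], 1, [[0, 0, -1, -1], [-1, 0, -1, 0], [-1, 0, -1, 0], [0, 0, 0, 0], [-2, 0, -1, 1], [0, 0, 0, 0], [0, 0, 0, 0], [0, 0, 0, 0], [-2, 1, -2, 1], [-1, 0, -1, 1], [-1, 0, -1, 1], [0, -1, -1, 0], [0, 1, 0, 0], [0, 0, 0, 0], [0, 0, 0, 0], [0, -1, -3, 1]]⟩,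
    ⟨[64, 3, 40, 0], [1, 5, 7, 8, 9, 10, 19, 20, 23, 25, 29, 38], (0, 0, 0), [], [((0, 1, 8), 25), ((0, 2, 8), 5), ((0, 2, 13), 38), ((0, 4, 11), 23), ((0, 7, 8), 7), ((1, 2, 8), 20), ((1, 4, 8), 19), ((1, 6, 8), 8), ((2, 4, 8), 1), ((2, 4, 9), 29), ((2, 5, 8), 9), ((3, 4, 8), 10)], 1, [[-1, 0, 0, -2], [0, 0, -1, -1], [-2, 0, 1, -3], [0, 0, 0, 0], [-1, 0, 0, -2], [0, 0, 0, 0], [0, 0, 0, 0], [0, 0, 0, 0], [-2, 1, -1, -1], [-1, 0, 0, -1], [0, 0, 0, 0], [0, -1, -1, 0], [0, 1, 0, 0], [-1, 0, 0, -1], [0, 0, 0, 0], [0, -1, -2, -1]]⟩,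
    ⟨[3, 40, 0], [1, 2, 5, 6, 7, 8, 9, 10, 16, 19, 20, 23, 24, 25, 29, 34, 37, 38, 58, 60, 64, 70], (0, 1, 14), [(1, 176), (25, 177), (38, 178), (64, 179)], [], 0, []⟩,
    ⟨[1, 23, 40, 0], [3, 4, 7, 8, 9, 10, 16, 25, 34, 36, 58, 69], (0, 0, 0), [], [((0, 1, 8), 25), ((0, 2, 8), 34), ((0, 2, 13), 69), ((0, 7, 8), 7), ((1, 2, 8), 4), ((1, 2, 12), 3), ((1, 4, 8), 58), ((1, 4, 10), 36), ((1, 6, 8), 8), ((2, 4, 9), 16), ((2, 5, 8), 9), ((3, 4, 8), 10)], 1, [[-1, 0, -1, -1], [-1, -2, 0, -1], [-1, -2, 0, -1], [0, 0, 0, 0], [-1, 0, -1, -1], [0, 0, 0, 0], [0, 0, 0, 0], [0, 0, 0, 0], [-1, -1, -2, 0], [-1, 0, -1, 0], [-1, -1, 0, -1], [0, 0, 0, 0], [0, 0, 0, 0], [-1, -1, -1, 1], [1, 0, 0, 0], [-1, -1, -2, 0]]⟩,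
    ⟨[25, 23, 40, 0], [1, 3, 4, 6, 7, 8, 9, 10, 36, 37, 69, 70], (0, 0, 0), [], [((0, 2, 8), 70), ((0, 2, 13), 69), ((0, 7, 8), 7), ((1, 2, 8), 4), ((1, 2, 12), 3), ((1, 4, 8), 37), ((1, 4, 10), 36), ((1, 6, 8), 8), ((2, 4, 8), 1), ((2, 4, 9), 6), ((2, 5, 8), 9), ((3, 4, 8), 10)], 1, [[0, 0, -1, 0], [0, -2, 1, -2], [-2, -2, 1, 0], [0, 0, 0, 0], [-2, 0, 1, -2], [0, 0, 0, 0], [0, 0, 0, 0], [0, 0, 0, 0], [-1, -1, -1, 0], [0, 0, 0, 0], [-1, -1, 0, 0], [0, 0, 0, 0], [0, 0, 0, 0], [-1, -1, 0, 0], [0, 0, 0, 0], [-1, -1, -1, 0]]⟩,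
    ⟨[36, 23, 40, 0], [1, 3, 4, 5, 7, 8, 9, 10, 19, 25, 57, 69], (0, 0, 0), [], [((0, 1, 8), 25), ((0, 2, 8), 5), ((0, 2, 13), 69), ((0, 7, 8), 7), ((1, 2, 8), 4), ((1, 2, 12), 3), ((1, 4, 8), 19), ((1, 6, 8), 8), ((2, 4, 8), 1), ((2, 4, 9), 57), ((2, 5, 8), 9), ((3, 4, 8), 10)], 1, [[-1, 1, -1, 0], [0, -1, 0, -1], [-2, -1, 0, 1], [0, 0, 0, 0], [-1, 1, -1, 0], [0, 0, 0, 0], [0, 0, 0, 0], [0, 0, 0, 0], [-2, 1, -2, 1], [-1, 0, -1, 1], [0, 0, 0, 0], [0, 0, 0, 0], [0, 0, 0, 0], [-1, 0, -1, 1], [0, 0, 0, 0], [0, -1, -2, 1]]⟩,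
    ⟨[69, 23, 40, 0], [1, 2, 3, 4, 7, 8, 9, 10, 24, 25, 33, 36], (0, 0, 0), [], [((0, 1, 8), 25), ((0, 2, 8), 24), ((0, 7, 8), 7), ((1, 2, 8), 4), ((1, 2, 12), 3), ((1, 4, 8), 2), ((1, 4, 10), 36), ((1, 6, 8), 8), ((2, 4, 8), 1), ((2, 4, 9), 33), ((2, 5, 8), 9), ((3, 4, 8), 10)], 1, [[0, 1, -1, -1], [-1, -1, 1, -2], [-1, -1, 1, -2], [0, 0, 0, 0], [-2, 1, 1, -3], [0, 0, 0, 0], [0, 0, 0, 0], [0, 0, 0, 0], [-2, 1, -1, -1], [-1, 0, 0, -1], [-1, 0, 0, -1], [0, 0, 0, 0], [0, 0, 0, 0], [0, 0, 0, 0], [0, 0, 0, 0], [0, -1, -1, -1]]⟩,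
    ⟨[23, 40, 0], [1, 2, 3, 4, 5, 6, 7, 8, 9, 10, 16, 19, 24, 25, 33, 34, 36, 37, 57, 58, 69, 70], (0, 1, 14), [(1, 181), (25, 182), (36, 183), (69, 184)], [], 0, []⟩,
    ⟨[34, 40, 0], [1, 3, 5, 7, 8, 9, 10, 16, 23, 24, 58, 61, 70], (0, 0, 0), [], [((0, 1, 8), 70), ((0, 1, 14), 1), ((0, 2, 13), 24), ((0, 4, 11), 23), ((0, 7, 8), 7), ((1, 2, 8), 61), ((1, 2, 12), 3), ((1, 4, 8), 58), ((1, 4, 10), 5), ((1, 6, 8), 8), ((2, 4, 9), 16), ((2, 5, 8), 9), ((3, 4, 8), 10)], 1, [[-1, -1, 0], [-3, -1, 2], [-1, -1, 0], [0, 0, 0], [-1, -1, 0], [0, 0, 0], [0, 0, 0], [0, 0, 0], [-1, -3, 2], [-1, -1, 1], [0, 0, 0], [-1, -1, 1], [0, 0, 0], [-1, -1, 1], [0, 0, 0], [-2, -2, 1]]⟩,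
    ⟨[37, 40, 0], [2, 3, 6, 7, 8, 9, 10, 19, 23, 25, 58, 65, 70], (0, 0, 0), [], [((0, 1, 14), 25), ((0, 2, 8), 70), ((0, 2, 13), 2), ((0, 4, 11), 23), ((0, 7, 8), 7), ((1, 2, 8), 65), ((1, 2, 12), 3), ((1, 4, 10), 19), ((1, 6, 8), 8), ((2, 4, 8), 58), ((2, 4, 9), 6), ((2, 5, 8), 9), ((3, 4, 8), 10)], 1, [[-1, -1, 0], [-1, -1, 0], [-3, -1, 2], [0, 0, 0], [-1, -1, 0], [0, 0, 0], [0, 0, 0], [0, 0, 0], [-1, -3, 2], [0, 0, 0], [-1, -1, 1], [-1, -1, 1], [0, 0, 0], [0, 0, 0], [-1, -1, 1], [-2, -2, 1]]⟩,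
    ⟨[58, 40, 0], [1, 2, 3, 7, 8, 9, 10, 16, 19, 23, 30, 34, 37], (0, 0, 0), [], [((0, 1, 8), 37), ((0, 1, 14), 1), ((0, 2, 8), 34), ((0, 2, 13), 2), ((0, 4, 11), 23), ((0, 7, 8), 7), ((1, 2, 8), 30), ((1, 2, 12), 3), ((1, 4, 10), 19), ((1, 6, 8), 8), ((2, 4, 9), 16), ((2, 5, 8), 9), ((3, 4, 8), 10)], 1, [[-2, 1, -3], [-2, 1, -3], [-2, 1, -3], [0, 0, 0], [0, -1, -1], [0, 0, 0], [0, 0, 0], [0, 0, 0], [-1, -1, -2], [-1, 0, -1], [-1, 0, -1], [-1, 0, -1], [0, 0, 0], [0, 0, 0], [0, 0, 0], [-2, -1, -1]]⟩,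
    ⟨[70, 40, 0], [3, 5, 6, 7, 8, 9, 10, 23, 24, 25, 34, 37, 39], (0, 0, 0), [], [((0, 1, 14), 25), ((0, 2, 13), 24), ((0, 4, 11), 23), ((0, 7, 8), 7), ((1, 2, 8), 39), ((1, 2, 12), 3), ((1, 4, 8), 37), ((1, 4, 10), 5), ((1, 6, 8), 8), ((2, 4, 8), 34), ((2, 4, 9), 6), ((2, 5, 8), 9), ((3, 4, 8), 10)], 1, [[0, -1, -1], [-2, 1, -3], [-2, 1, -3], [0, 0, 0], [-2, 1, -3], [0, 0, 0], [0, 0, 0], [0, 0, 0], [-1, -1, -2], [0, 0, 0], [0, 0, 0], [-1, 0, -1], [0, 0, 0], [-1, 0, -1], [-1, 0, -1], [-2, -1, -1]]⟩,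
    ⟨[40, 0], [1, 2, 3, 4, 5, 6, 7, 8, 9, 10, 16, 19, 20, 23, 24, 25, 29, 30, 33, 34, 36, 37, 38, 39, 57, 58, 60, 61, 64, 65, 69, 70], (0, 4, 8), [(3, 180), (23, 185), (34, 186), (37, 187), (58, 188), (70, 189)], [], 0, []⟩,
    ⟨[52, 0], [2, 3, 4, 5, 9, 10, 12, 13, 19, 23, 27, 31, 36, 37], (0, 0, 0), [], [((0, 1, 2), 10), ((0, 1, 8), 37), ((0, 1, 14), 36), ((0, 2, 4), 23), ((0, 2, 8), 5), ((0, 2, 13), 2), ((0, 7, 8), 31), ((1, 2, 4), 19), ((1, 2, 8), 4), ((1, 2, 12), 3), ((1, 6, 8), 27), ((2, 4, 8), 13), ((2, 4, 9), 12), ((2, 5, 8), 9)], 1, [[-2, -3], [-2, -3], [-3, -2], [0, 0], [-1, -2], [0, 0], [-1, -1], [-1, -1], [-2, -3], [-1, -1], [0, 0], [0, 0], [0, 0], [0, 0], [-1, -1], [-2, -3]]⟩,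
    ⟨[57, 0], [4, 5, 6, 7, 8, 9, 12, 16, 19, 23, 29, 33, 36, 40], (0, 0, 0), [], [((0, 1, 2), 40), ((0, 1, 8), 6), ((0, 1, 14), 36), ((0, 2, 8), 5), ((0, 2, 13), 33), ((0, 4, 8), 23), ((0, 7, 8), 7), ((1, 2, 8), 4), ((1, 2, 12), 29), ((1, 4, 8), 19), ((1, 6, 8), 8), ((2, 4, 8), 16), ((2, 5, 8), 9), ((3, 4, 8), 12)], 1, [[-2, -3], [-2, -3], [-2, -3], [-1, -1], [-1, -2], [0, 0], [0, 0], [0, 0], [-3, -2], [0, 0], [0, 0], [0, 0], [-1, -1], [-1, -1], [-1, -1], [-2, -3]]⟩,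
    ⟨[58, 0], [1, 2, 3, 7, 8, 9, 13, 16, 19, 23, 30, 34, 37, 40], (0, 0, 0), [], [((0, 1, 2), 40), ((0, 1, 8), 37), ((0, 1, 14), 1), ((0, 2, 8), 34), ((0, 2, 13), 2), ((0, 4, 11), 23), ((0, 7, 8), 7), ((1, 2, 8), 30), ((1, 2, 12), 3), ((1, 4, 10), 19), ((1, 6, 8), 8), ((2, 4, 9), 16), ((2, 5, 8), 9), ((3, 4, 8), 13)], 1, [[-2, -3], [-2, -3], [-2, -3], [-1, -1], [-1, -2], [0, 0], [0, 0], [0, 0], [-2, -3], [-1, -1], [-1, -1], [-1, -1], [0, 0], [0, 0], [0, 0], [-3, -2]]⟩,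
    ⟨[62, 0], [1, 2, 5, 6, 8, 9, 17, 18, 19, 25, 27, 35, 36, 37], (0, 0, 0), [], [((0, 1, 2), 25), ((0, 2, 4), 8), ((0, 2, 8), 5), ((0, 2, 13), 2), ((0, 4, 8), 37), ((0, 4, 11), 36), ((0, 7, 8), 35), ((1, 2, 4), 19), ((1, 2, 8), 18), ((1, 2, 12), 17), ((2, 4, 8), 1), ((2, 4, 9), 6), ((2, 5, 8), 9), ((3, 4, 8), 27)], 1, [[-2, -3], [-1, -2], [-3, -2], [-1, -1], [-2, -3], [0, 0], [0, 0], [-1, -1], [-2, -3], [0, 0], [0, 0], [-1, -1], [-1, -1], [0, 0], [0, 0], [-2, -3]]⟩,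
    ⟨[64, 0], [1, 3, 5, 7, 9, 10, 17, 19, 20, 25, 29, 36, 38, 40], (0, 0, 0), [], [((0, 1, 8), 25), ((0, 2, 4), 40), ((0, 2, 8), 5), ((0, 2, 13), 38), ((0, 4, 8), 3), ((0, 4, 11), 36), ((0, 7, 8), 7), ((1, 2, 8), 20), ((1, 4, 8), 19), ((1, 6, 8), 17), ((2, 4, 8), 1), ((2, 4, 9), 29), ((2, 5, 8), 9), ((3, 4, 8), 10)], 1, [[-2, -3], [-1, -2], [-2, -3], [0, 0], [-2, -3], [0, 0], [-1, -1], [0, 0], [-3, -2], [-1, -1], [0, 0], [-1, -1], [0, 0], [-1, -1], [0, 0], [-2, -3]]⟩,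
    ⟨[65, 0], [2, 4, 6, 7, 9, 10, 18, 19, 20, 25, 30, 37, 39, 40], (0, 0, 0), [], [((0, 1, 14), 25), ((0, 2, 4), 40), ((0, 2, 8), 39), ((0, 2, 13), 2), ((0, 4, 8), 37), ((0, 4, 11), 4), ((0, 7, 8), 7), ((1, 2, 12), 20), ((1, 4, 10), 19), ((1, 6, 8), 18), ((2, 4, 8), 30), ((2, 4, 9), 6), ((2, 5, 8), 9), ((3, 4, 8), 10)], 1, [[-2, -3], [-1, -2], [-2, -3], [0, 0], [-2, -3], [0, 0], [-1, -1], [0, 0], [-2, -3], [0, 0], [-1, -1], [0, 0], [-1, -1], [0, 0], [-1, -1], [-3, -2]]⟩,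
    ⟨[67, 0], [1, 3, 4, 6, 7, 9, 21, 22, 23, 25, 31, 35, 36, 37], (0, 0, 0), [], [((0, 1, 2), 25), ((0, 2, 4), 23), ((0, 2, 8), 22), ((0, 2, 13), 21), ((1, 2, 4), 7), ((1, 2, 8), 4), ((1, 2, 12), 3), ((1, 4, 8), 37), ((1, 4, 10), 36), ((1, 6, 8), 35), ((2, 4, 8), 1), ((2, 4, 9), 6), ((2, 5, 8), 9), ((3, 4, 8), 31)], 1, [[-1, -2], [-2, -3], [-3, -2], [-1, -1], [-2, -3], [0, 0], [-1, -1], [0, 0], [-2, -3], [0, 0], [-1, -1], [0, 0], [0, 0], [-1, -1], [0, 0], [-2, -3]]⟩,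
    ⟨[69, 0], [1, 2, 4, 8, 9, 10, 21, 23, 24, 25, 33, 36, 38, 40], (0, 0, 0), [], [((0, 1, 8), 25), ((0, 2, 8), 24), ((0, 4, 8), 23), ((0, 7, 8), 21), ((1, 2, 4), 40), ((1, 2, 8), 4), ((1, 2, 12), 38), ((1, 4, 8), 2), ((1, 4, 10), 36), ((1, 6, 8), 8), ((2, 4, 8), 1), ((2, 4, 9), 33), ((2, 5, 8), 9), ((3, 4, 8), 10)], 1, [[-1, -2], [-2, -3], [-2, -3], [0, 0], [-2, -3], [0, 0], [0, 0], [-1, -1], [-3, -2], [-1, -1], [-1, -1], [0, 0], [-1, -1], [0, 0], [0, 0], [-2, -3]]⟩,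
    ⟨[70, 0], [3, 5, 6, 8, 9, 10, 22, 23, 24, 25, 34, 37, 39, 40], (0, 0, 0), [], [((0, 1, 14), 25), ((0, 2, 13), 24), ((0, 4, 11), 23), ((0, 7, 8), 22), ((1, 2, 4), 40), ((1, 2, 8), 39), ((1, 2, 12), 3), ((1, 4, 8), 37), ((1, 4, 10), 5), ((1, 6, 8), 8), ((2, 4, 8), 34), ((2, 4, 9), 6), ((2, 5, 8), 9), ((3, 4, 8), 10)], 1, [[-1, -2], [-2, -3], [-2, -3], [0, 0], [-2, -3], [0, 0], [0, 0], [-1, -1], [-2, -3], [0, 0], [0, 0], [-1, -1], [0, 0], [-1, -1], [-1, -1], [-3, -2]]⟩]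

def tab4_5 : List Nd :=
  [⟨[0], [1, 2, 3, 4, 5, 6, 7, 8, 9, 10, 11, 12, 13, 14, 15, 16, 17, 18, 19, 20, 21, 22, 23, 24, 25, 26, 27, 28, 29, 30, 31, 32, 33, 34, 35, 36, 37, 38, 39, 40, 41, 42, 43, 44, 45, 46, 47, 48, 49, 50, 51, 52, 53, 54, 55, 56, 57, 58, 59, 60, 61, 62, 63, 64, 65, 66, 67, 68, 69, 70], (0, 1, 4), [(9, 100), (19, 115), (23, 130), (25, 145), (36, 160), (37, 175), (40, 190), (52, 191), (57, 192), (58, 193), (62, 194), (64, 195), (65, 196), (67, 197), (69, 198), (70, 199)], [], 0, []⟩]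

def tab4 : List Nd := tab4_0 ++ (tab4_1 ++ (tab4_2 ++ (tab4_3 ++ (tab4_4 ++ (tab4_5)))))

theorem ok4_0 : okPart R4 tab4 0 25 = true := by decide +kernel

theorem ok4_1 : okPart R4 tab4 25 25 = true := by decide +kernel

theorem ok4_2 : okPart R4 tab4 50 25 = true := by decide +kernel

theorem ok4_3 : okPart R4 tab4 75 25 = true := by decide +kernel

theorem ok4_4 : okPart R4 tab4 100 25 = true := by decide +kernel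

theorem ok4_5 : okPart R4 tab4 125 25 = true := by decide +kernel

theorem ok4_6 : okPart R4 tab4 150 25 = true := by decide +kernel

theorem ok4_7 : okPart R4 tab4 175 25 = true := by decide +kernel

theorem ok4_8 : okPart R4 tab4 200 1 = true := by decide +kernel

theorem len4 : tab4.length = 201 := by decide +kernel

theorem okT4 : okTab R4 tab4 := by
  intro i hi
  rw [len4] at hi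
  by_cases h0 : i < 25
  · exact part_spec ok4_0 (by omega) (by omega)
  by_cases h1 : i < 50
  · exact part_spec ok4_1 (by omega) (by omega)
  by_cases h2 : i < 75
  · exact part_spec ok4_2 (by omega) (by omega)
  by_cases h3 : i < 100
  · exact part_spec ok4_3 (by omega) (by omega)
  by_cases h4 : i < 125
  · exact part_spec ok4_4 (by omega) (by omega)
  by_cases h5 : i < 150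
  · exact part_spec ok4_5 (by omega) (by omega)
  by_cases h6 : i < 175
  · exact part_spec ok4_6 (by omega) (by omega)
  by_cases h7 : i < 200
  · exact part_spec ok4_7 (by omega) (by omega)
  exact part_spec ok4_8 (by omega) (by omega)

theorem ok4 : okRoot R4 tab4 1 = true := by decide +kernel

theorem okR4 : chkR (R4.drop 1) I4 = true := by decide +kernel

end Pool.Agent.helper25.AG
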