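import Pool.Agent.helper25.AG.Tree

set_option autoImplicit false
set_option linter.unusedSectionVars false
set_option linter.unusedVariables false

/-!
# Project AG: pulling decomposition 5
-/

namespace Pool.Agent.helper25.AG

open Finset Pool.Agent.helper25.PV

def R5 : List (List ℤ) :=
  [[-1, -1, -1, 3, 1, 1, 1, 1, 1, 1, 1, 1, 1, 1, 1, 1],
    [0, 0, 0, 4, 0, 0, 0, 0, 0, 0, 0, 0, 0, 0, 0, 0],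
    [0, 0, 0, 0, 0, 0, 0, 0, 0, 0, 0, 0, 0, 0, 0, 4],
    [0, 0, 0, 0, 0, 0, 0, 0, 0, 0, 0, 0, 0, 0, 4, 0],
    [0, 0, 0, 0, 0, 0, 0, 0, 0, 0, 0, 0, 0, 4, 0, 0],
    [0, 0, 0, 0, 0, 0, 0, 0, 0, 0, 0, 0, 4, 0, 0, 0],
    [0, 0, 0, 0, 0, 0, 0, 0, 0, 0, 0, 4, 0, 0, 0, 0],
    [0, 0, 0, 0, 0, 0, 0, 0, 0, 0, 4, 0, 0, 0, 0, 0],
    [0, 0, 0, 0, 0, 0, 0, 0, 0, 4, 0, 0, 0, 0, 0, 0],
    [0, 0, 0, 0, 0, 0, 0, 0, 4, 0, 0, 0, 0, 0, 0, 0],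
    [0, 0, 0, 0, 0, 0, 0, 4, 0, 0, 0, 0, 0, 0, 0, 0],
    [0, 0, 0, 0, 0, 0, 4, 0, 0, 0, 0, 0, 0, 0, 0, 0],
    [0, 0, 0, 0, 0, 4, 0, 0, 0, 0, 0, 0, 0, 0, 0, 0],
    [0, 0, 0, 0, 4, 0, 0, 0, 0, 0, 0, 0, 0, 0, 0, 0],
    [-2, 0, 0, 2, 0, 2, 2, 0, 0, 2, 2, 0, 2, 0, 0, 2],
    [-2, 0, 0, 2, 0, 2, 2, 0, 2, 0, 0, 2, 0, 2, 2, 0],
    [-2, 0, 0, 2, 2, 0, 0, 2, 0, 2, 2, 0, 0, 2, 2, 0],
    [-2, 0, 0, 2, 2, 0, 0, 2, 2, 0, 0, 2, 2, 0, 0, 2],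
    [0, -2, 0, 2, 0, 2, 0, 2, 0, 2, 0, 2, 0, 2, 0, 2],
    [0, -2, 0, 2, 0, 2, 0, 2, 2, 0, 2, 0, 2, 0, 2, 0],
    [0, -2, 0, 2, 2, 0, 2, 0, 0, 2, 0, 2, 2, 0, 2, 0],
    [0, -2, 0, 2, 2, 0, 2, 0, 2, 0, 2, 0, 0, 2, 0, 2],
    [0, 0, -2, 2, 0, 0, 2, 2, 0, 0, 2, 2, 0, 0, 2, 2],
    [0, 0, -2, 2, 0, 0, 2, 2, 2, 2, 0, 0, 2, 2, 0, 0],
    [0, 0, -2, 2, 2, 2, 0, 0, 0, 0, 2, 2, 2, 2, 0, 0],
    [0, 0, -2, 2, 2, 2, 0, 0, 2, 2, 0, 0, 0, 0, 2, 2],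
    [-1, -1, -1, 3, -1, 3, 3, 3, 1, 1, 1, 1, 1, 1, 1, 1],
    [-1, -1, -1, 3, 1, 1, 1, 1, -1, 3, 3, 3, 1, 1, 1, 1],
    [-1, -1, -1, 3, 1, 1, 1, 1, 1, 1, 1, 1, -1, 3, 3, 3],
    [-1, -1, -1, 3, 1, 1, 1, 1, 1, 1, 1, 1, 3, -1, 3, 3],
    [-1, -1, -1, 3, 1, 1, 1, 1, 1, 1, 1, 1, 3, 3, -1, 3],
    [-1, -1, -1, 3, 1, 1, 1, 1, 1, 1, 1, 1, 3, 3, 3, -1],
    [-1, -1, -1, 3, 1, 1, 1, 1, 3, -1, 3, 3, 1, 1, 1, 1],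
    [-1, -1, -1, 3, 1, 1, 1, 1, 3, 3, -1, 3, 1, 1, 1, 1],
    [-1, -1, -1, 3, 1, 1, 1, 1, 3, 3, 3, -1, 1, 1, 1, 1],
    [-1, -1, -1, 3, 3, -1, 3, 3, 1, 1, 1, 1, 1, 1, 1, 1],
    [-1, -1, -1, 3, 3, 3, -1, 3, 1, 1, 1, 1, 1, 1, 1, 1],
    [-1, -1, -1, 3, 3, 3, 3, -1, 1, 1, 1, 1, 1, 1, 1, 1],
    [-3, -1, -1, 5, 1, 3, 3, 1, 1, 3, 3, 1, 1, 3, 3, 1],
    [-3, -1, -1, 5, 1, 3, 3, 1, 3, 1, 1, 3, 3, 1, 1, 3],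
    [-3, -1, -1, 5, 3, 1, 1, 3, 1, 3, 3, 1, 3, 1, 1, 3],
    [-3, -1, -1, 5, 3, 1, 1, 3, 3, 1, 1, 3, 1, 3, 3, 1],
    [-1, -3, -1, 5, 1, 3, 1, 3, 1, 3, 1, 3, 3, 1, 3, 1],
    [-1, -3, -1, 5, 1, 3, 1, 3, 3, 1, 3, 1, 1, 3, 1, 3],
    [-1, -3, -1, 5, 3, 1, 3, 1, 1, 3, 1, 3, 1, 3, 1, 3],
    [-1, -3, -1, 5, 3, 1, 3, 1, 3, 1, 3, 1, 3, 1, 3, 1],
    [-1, -1, -3, 5, 1, 1, 3, 3, 1, 1, 3, 3, 3, 3, 1, 1],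
    [-1, -1, -3, 5, 1, 1, 3, 3, 3, 3, 1, 1, 1, 1, 3, 3],
    [-1, -1, -3, 5, 3, 3, 1, 1, 1, 1, 3, 3, 1, 1, 3, 3],
    [-1, -1, -3, 5, 3, 3, 1, 1, 3, 3, 1, 1, 3, 3, 1, 1]]

def I5 : List (ℕ × Item) :=
  [(4, 0, 0, 1, 14, 2, 4),
    (4, 0, 0, 1, 2, 4, 8),
    (4, 0, 0, 1, 2, 4, 9),
    (4, 0, 0, 1, 2, 4, 10),
    (4, 0, 0, 1, 2, 4, 11),
    (4, 0, 0, 1, 2, 4, 12),
    (4, 0, 0, 1, 2, 4, 13),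
    (4, 0, 0, 1, 2, 4, 14),
    (4, 0, 0, 1, 2, 4, 15),
    (4, 0, 0, 1, 2, 12, 4),
    (4, 0, 0, 1, 2, 13, 4),
    (4, 0, 0, 1, 2, 14, 4),
    (4, 0, 0, 1, 2, 15, 4),
    (2, 2, 0, 1, 2, 4, 8),
    (2, 2, 0, 1, 2, 4, 9),
    (2, 2, 0, 1, 2, 5, 8),
    (2, 2, 0, 1, 2, 5, 9),
    (2, 2, 1, 1, 3, 5, 9),
    (2, 2, 1, 1, 3, 5, 8),
    (2, 2, 1, 1, 3, 4, 9),
    (2, 2, 1, 1, 3, 4, 8),
    (2, 2, 1, 3, 1, 5, 9),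
    (2, 2, 1, 3, 1, 5, 8),
    (2, 2, 1, 3, 1, 4, 9),
    (2, 2, 1, 3, 1, 4, 8),
    (1, 3, 0, 1, 2, 4, 8),
    (1, 3, 0, 1, 2, 8, 4),
    (1, 3, 0, 1, 2, 8, 12),
    (1, 3, 0, 1, 2, 8, 13),
    (1, 3, 0, 1, 2, 8, 14),
    (1, 3, 0, 1, 2, 8, 15),
    (1, 3, 0, 1, 2, 8, 5),
    (1, 3, 0, 1, 2, 8, 6),
    (1, 3, 0, 1, 2, 8, 7),
    (1, 3, 0, 1, 2, 5, 8),
    (1, 3, 0, 1, 2, 6, 8),
    (1, 3, 0, 1, 2, 7, 8),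
    (1, 6, 0, 1, 2, 4, 8),
    (1, 6, 0, 1, 2, 4, 9),
    (1, 6, 0, 1, 2, 5, 8),
    (1, 6, 0, 1, 2, 5, 9),
    (1, 6, 1, 1, 3, 5, 9),
    (1, 6, 1, 1, 3, 5, 8),
    (1, 6, 1, 1, 3, 4, 9),
    (1, 6, 1, 1, 3, 4, 8),
    (1, 6, 1, 3, 1, 5, 9),
    (1, 6, 1, 3, 1, 5, 8),
    (1, 6, 1, 3, 1, 4, 9),
    (1, 6, 1, 3, 1, 4, 8)]

def tab5_0 : List Nd :=
  [⟨[2, 22, 11, 0], [1, 14, 21, 26, 28, 29, 35, 37, 39, 44, 46, 47], (0, 0, 0), [], [((0, 1, 2), 1), ((0, 1, 4), 37), ((0, 1, 8), 47), ((0, 1, 12), 46), ((0, 2, 5), 26), ((0, 2, 8), 21), ((0, 2, 9), 44), ((0, 2, 12), 29), ((1, 2, 4), 35), ((1, 2, 8), 39), ((1, 2, 9), 14), ((1, 2, 13), 28)], 1, [[-1, 0, -2, -10], [-1, 0, -2, -10], [-2, 0, -2, -10], [0, 0, 0, 0], [0, 0, -1, -2], [0, 0, -1, -2], [0, 0, 1, 0], [0, 0, -1, -2],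 [-1, 0, -1, -4], [-1, 0, -1, -4], [-1, 1, -1, -2], [-1, 1, -1, -4], [0, -1, 0, -2], [0, -1, 0, -2], [-1, 0, 0, -2], [1, 0, 0, 0]]⟩,
    ⟨[14, 22, 11, 0], [1, 2, 7, 26, 27, 29, 35, 37, 38, 39, 46, 47], (0, 0, 0), [], [((0, 1, 2), 1), ((0, 1, 4), 37), ((0, 1, 8), 47), ((0, 1, 12), 46), ((0, 2, 5), 26), ((0, 2, 8), 7), ((0, 2, 9), 27), ((0, 2, 12), 29), ((0, 2, 13), 2), ((1, 2, 4), 35), ((1, 2, 8), 39), ((1, 2, 13), 38)], 1, [[-2, -2, 0, -6], [0, 0, -2, -10], [-2, -2, 0, -6], [0, 0, 0, 0], [0, 0, -1, -2], [0, 0, -1, -2], [0, 0, 1, 0], [0, 0, -1, -2], [-1, -1, 0, -2], [0, -1, 0, -2], [0, 0, 0, 0], [-1, 0, 0, -2], [0, -1, 0, -2], [-1, -1, 0, -2], [-1, 0, 0, -2], [0, 0, 0, 0]]⟩,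
    ⟨[29, 22, 11, 0], [1, 2, 3, 14, 20, 26, 35, 37, 39, 45, 46, 47], (0, 0, 0), [], [((0, 1, 2), 1), ((0, 1, 4), 37), ((0, 1, 8), 47), ((0, 1, 12), 46), ((0, 2, 5), 26), ((0, 2, 8), 45), ((0, 2, 9), 20), ((0, 2, 13), 2), ((1, 2, 4), 35), ((1, 2, 8), 39), ((1, 2, 9), 14), ((1, 2, 13), 3)], 1, [[-1, 0, -2, -8], [-1, 0, -2, -8], [-2, 0, -2, -6], [0, 0, 0, 0], [0, 0, -1, -2], [0, 0, -1, -2], [0, 0, 1, 0], [0, 0, -1, -2], [-1, 0, -1, -4], [-1, 0, -1, -2], [-1, 1, -1, -2], [-1, 1, -1, -2], [1, -1, 0, -2], [-1, -1, 0, 0], [0, 0, 0, 0], [0, 0, 0, 0]]⟩,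
    ⟨[39, 22, 11, 0], [1, 2, 6, 14, 15, 26, 29, 32, 35, 37, 46, 47], (0, 0, 0), [], [((0, 1, 2), 1), ((0, 1, 4), 37), ((0, 1, 8), 47), ((0, 1, 12), 46), ((0, 2, 5), 26), ((0, 2, 8), 32), ((0, 2, 9), 6), ((0, 2, 12), 29), ((0, 2, 13), 2), ((1, 2, 4), 35), ((1, 2, 9), 14), ((1, 2, 13), 15)], 1, [[-2, -2, 0, -4], [0, 0, -2, -8], [-2, -2, 0, -2], [0, 0, 0, 0], [0, 0, -1, -2], [0, 0, -1, -2], [0, 0, 1, 0], [0, 0, -1, -2], [0, -1, 0, -2], [-1, -1, 0, 0], [-1, 0, 0, 0], [0, 0, 0, 0], [0, -1, 0, -2], [-1, -1, 0, 0], [-1, 0, 0, 0], [0, 0, 0, 0]]⟩,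
    ⟨[22, 11, 0], [1, 2, 3, 6, 7, 14, 15, 20, 21, 26, 27, 28, 29, 32, 35, 37, 38, 39, 44, 45, 46, 47], (1, 2, 12), [(2, 0), (14, 1), (29, 2), (39, 3)], [], 0, []⟩,
    ⟨[5, 46, 11, 0], [1, 14, 20, 22, 23, 26, 30, 31, 35, 37, 39, 45], (0, 0, 0), [], [((0, 1, 2), 1), ((0, 1, 4), 37), ((0, 1, 8), 23), ((0, 1, 14), 22), ((0, 2, 5), 26), ((0, 2, 8), 45), ((0, 2, 9), 20), ((0, 2, 13), 30), ((1, 2, 4), 35), ((1, 2, 8), 39), ((1, 2, 9), 14), ((1, 2, 13), 31)], 1, [[-1, 0, -2, -8], [-1, 0, -2, -8], [-2, 0, -2, -10], [0, 0, 0, 0], [0, 0, -1, -2], [0, 0, -1, -2], [0, 0, 1, 0], [0, 0, -1, -2], [-1, 0, -1, -4], [-1, 0, -1, -2], [-1, 1, -1, -4], [-1, 1, -1, -4], [1, 0, 0, 0], [-1, 0, 0, -2], [0, -1, 0, 0], [0, -1, 0, 0]]⟩,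
    ⟨[14, 46, 11, 0], [1, 5, 7, 22, 23, 26, 27, 30, 35, 37, 38, 39], (0, 0, 0), [], [((0, 1, 2), 1), ((0, 1, 4), 37), ((0, 1, 8), 23), ((0, 1, 14), 22), ((0, 2, 5), 26), ((0, 2, 8), 7), ((0, 2, 9), 27), ((0, 2, 12), 5), ((0, 2, 13), 30), ((1, 2, 4), 35), ((1, 2, 8), 39), ((1, 2, 13), 38)], 1, [[-2, -2, 0, -2], [0, 0, -2, -8], [-2, -2, 0, -4], [0, 0, 0, 0], [0, 0, -1, -2], [0, 0, -1, -2], [0, 0, 1, 0], [0, 0, -1, -2], [-1, -1, 0, 0], [0, -1, 0, 0], [0, 0, 0, 0], [-1, 0, 0, -2], [0, 0, 0, 0], [-1, 0, 0, -2], [-1, -1, 0, 0], [0, -1, 0, 0]]⟩,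
    ⟨[30, 46, 11, 0], [1, 4, 5, 14, 21, 22, 23, 26, 35, 37, 39, 44], (0, 0, 0), [], [((0, 1, 2), 1), ((0, 1, 4), 37), ((0, 1, 8), 23), ((0, 1, 14), 22), ((0, 2, 5), 26), ((0, 2, 8), 21), ((0, 2, 9), 44), ((0, 2, 12), 5), ((1, 2, 4), 35), ((1, 2, 8), 39), ((1, 2, 9), 14), ((1, 2, 13), 4)], 1, [[-1, 0, -2, -6], [-1, 0, -2, -6], [-2, 0, -2, -6], [0, 0, 0, 0], [0, 0, -1, -2], [0, 0, -1, -2], [0, 0, 1, 0], [0, 0, -1, -2], [-1, 0, -1, -2], [-1, 0, -1, -2], [-1, 1, -1, -2], [-1, 1, -1, -4], [0, 0, 0, 0], [0, 0, 0, 0], [-1, -1, 0, 2], [1, -1, 0, 0]]⟩,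
    ⟨[39, 46, 11, 0], [1, 5, 6, 14, 15, 22, 23, 26, 30, 32, 35, 37], (0, 0, 0), [], [((0, 1, 2), 1), ((0, 1, 4), 37), ((0, 1, 8), 23), ((0, 1, 14), 22), ((0, 2, 5), 26), ((0, 2, 8), 32), ((0, 2, 9), 6), ((0, 2, 12), 5), ((0, 2, 13), 30), ((1, 2, 4), 35), ((1, 2, 9), 14), ((1, 2, 13), 15)], 1, [[-2, -2, 0, 0], [0, 0, -2, -6], [-2, -2, 0, 0], [0, 0, 0, 0], [0, 0, -1, -2], [0, 0, -1, -2], [0, 0, 1, 0], [0, 0, -1, -2], [0, -1, 0, 0], [-1, -1, 0, 2], [-1, 0, 0, 0], [0, 0, 0, 0], [0, 0, 0, 0], [-1, 0, 0, 0], [-1, -1, 0, 2], [0, -1, 0, 0]]⟩,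
    ⟨[46, 11, 0], [1, 4, 5, 6, 7, 14, 15, 20, 21, 22, 23, 26, 27, 30, 31, 32, 35, 37, 38, 39, 44, 45], (1, 2, 12), [(5, 5), (14, 6), (30, 7), (39, 8)], [], 0, []⟩,
    ⟨[6, 11, 0], [1, 15, 20, 22, 26, 27, 32, 33, 35, 37, 39, 44, 46], (0, 0, 0), [], [((0, 1, 2), 1), ((0, 1, 4), 37), ((0, 1, 8), 33), ((0, 1, 12), 46), ((0, 1, 14), 22), ((0, 2, 5), 26), ((0, 2, 8), 32), ((0, 2, 12), 20), ((0, 2, 13), 44), ((1, 2, 4), 35), ((1, 2, 9), 27), ((1, 2, 12), 39), ((1, 2, 13), 15)], 1, [[-2, -2, -10], [-2, -2, -10], [-2, -2, -10], [0, 0, 0], [0, -1, -2], [0, -1, -2], [0, 1, 0], [0, -1, -2], [-1, 0, -2], [-1, 0, -2], [-1, 0, -2], [1, 0, 0], [-1, -1, -4], [-1, -1, -4], [-1, -1, -2], [-1, -1, -4]]⟩,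
    ⟨[7, 11, 0], [1, 14, 21, 22, 26, 27, 32, 34, 35, 37, 38, 45, 46], (0, 0, 0), [], [((0, 1, 2), 1), ((0, 1, 4), 37), ((0, 1, 8), 34), ((0, 1, 12), 46), ((0, 1, 14), 22), ((0, 2, 5), 26), ((0, 2, 9), 27), ((0, 2, 12), 45), ((0, 2, 13), 21), ((1, 2, 4), 35), ((1, 2, 8), 32), ((1, 2, 12), 14), ((1, 2, 13), 38)], 1, [[-2, -2, -10], [-2, -2, -10], [-2, -2, -10], [0, 0, 0], [0, -1, -2], [0, -1, -2], [0, 1, 0], [0, -1, -2], [-1, 0, -2], [-1, 0, -2], [1, 0, 0], [-1, 0, -2], [-1, -1, -4], [-1, -1, -4], [-1, -1, -4], [-1, -1, -2]]⟩,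
    ⟨[27, 11, 0], [1, 6, 7, 8, 14, 20, 22, 26, 35, 37, 38, 44, 46], (0, 0, 0), [], [((0, 1, 2), 1), ((0, 1, 4), 37), ((0, 1, 8), 8), ((0, 1, 12), 46), ((0, 1, 14), 22), ((0, 2, 5), 26), ((0, 2, 8), 7), ((0, 2, 12), 20), ((0, 2, 13), 44), ((1, 2, 4), 35), ((1, 2, 8), 6), ((1, 2, 12), 14), ((1, 2, 13), 38)], 1, [[-2, -2, -6], [-2, -2, -6], [-2, -2, -6], [0, 0, 0], [0, -1, -2], [0, -1, -2], [0, 1, 0], [0, -1, -2], [-2, 0, 2], [0, 0, 0], [0, 0, 0], [0, 0, 0], [-1, -1, -2], [-1, -1, -4], [-1, -1, -2], [-1, -1, -2]]⟩,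
    ⟨[32, 11, 0], [1, 6, 7, 9, 15, 21, 22, 26, 35, 37, 39, 45, 46], (0, 0, 0), [], [((0, 1, 2), 1), ((0, 1, 4), 37), ((0, 1, 8), 9), ((0, 1, 12), 46), ((0, 1, 14), 22), ((0, 2, 5), 26), ((0, 2, 9), 6), ((0, 2, 12), 45), ((0, 2, 13), 21), ((1, 2, 4), 35), ((1, 2, 9), 7), ((1, 2, 12), 39), ((1, 2, 13), 15)], 1, [[-2, -2, -6], [-2, -2, -6], [-2, -2, -6], [0, 0, 0], [0, -1, -2], [0, -1, -2], [0, 1, 0], [0, -1, -2], [0, 0, 0], [-2, 0, 2], [0, 0, 0], [0, 0, 0], [-1, -1, -4], [-1, -1, -2], [-1, -1, -2], [-1, -1, -2]]⟩,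
    ⟨[11, 0], [1, 2, 3, 4, 5, 6, 7, 8, 9, 14, 15, 20, 21, 22, 23, 26, 27, 28, 29, 30, 31, 32, 33, 34, 35, 37, 38, 39, 44, 45, 46, 47], (0, 1, 10), [(22, 4), (46, 9), (6, 10), (7, 11), (27, 12), (32, 13)], [], 0, []⟩,
    ⟨[5, 24, 13, 0], [1, 17, 20, 30, 31, 35, 36, 37, 40, 45, 48, 49], (0, 0, 0), [], [((0, 1, 2), 1), ((0, 1, 6), 35), ((0, 1, 8), 49), ((0, 1, 14), 48), ((0, 2, 5), 36), ((0, 2, 8), 45), ((0, 2, 9), 20), ((0, 2, 13), 30), ((1, 2, 5), 37), ((1, 2, 8), 17), ((1, 2, 9), 40), ((1, 2, 13), 31)], 1, [[-1, 0, -2, -10], [-1, 0, -2, -10], [-2, 0, -2, -10], [0, 0, 0, 0], [0, 0, 1, 0], [0, 0, -1, -2], [0, 0, -1, -2], [0, 0, -1, -2], [-1, 0, -1, -4], [-1, 0, -1, -4], [-1, 1, -1, -4], [-1, 1, -1, -2], [1, 0, 0, 0], [-1, 0, 0, -2], [0, -1, 0, -2], [0, -1, 0, -2]]⟩,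
    ⟨[17, 24, 13, 0], [1, 5, 6, 30, 32, 35, 36, 37, 40, 41, 48, 49], (0, 0, 0), [], [((0, 1, 2), 1), ((0, 1, 6), 35), ((0, 1, 8), 49), ((0, 1, 14), 48), ((0, 2, 5), 36), ((0, 2, 8), 32), ((0, 2, 9), 6), ((0, 2, 12), 5), ((0, 2, 13), 30), ((1, 2, 5), 37), ((1, 2, 9), 40), ((1, 2, 13), 41)], 1, [[-2, -2, 0, -6], [0, 0, -2, -10], [-2, -2, 0, -6], [0, 0, 0, 0], [0, 0, 1, 0], [0, 0, -1, -2], [0, 0, -1, -2], [0, 0, -1, -2], [0, -1, 0, -2], [-1, -1, 0, -2], [-1, 0, 0, -2], [0, 0, 0, 0], [0, 0, 0, 0], [-1, 0, 0, -2], [-1, -1, 0, -2], [0, -1, 0, -2]]⟩,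
    ⟨[30, 24, 13, 0], [1, 4, 5, 17, 21, 35, 36, 37, 40, 44, 48, 49], (0, 0, 0), [], [((0, 1, 2), 1), ((0, 1, 6), 35), ((0, 1, 8), 49), ((0, 1, 14), 48), ((0, 2, 5), 36), ((0, 2, 8), 21), ((0, 2, 9), 44), ((0, 2, 12), 5), ((1, 2, 5), 37), ((1, 2, 8), 17), ((1, 2, 9), 40), ((1, 2, 13), 4)], 1, [[-1, 0, -2, -8], [-1, 0, -2, -8], [-2, 0, -2, -6], [0, 0, 0, 0], [0, 0, 1, 0], [0, 0, -1, -2], [0, 0, -1, -2], [0, 0, -1, -2], [-1, 0, -1, -2], [-1, 0, -1, -4], [-1, 1, -1, -2], [-1, 1, -1, -2], [0, 0, 0, 0], [0, 0, 0, 0], [-1, -1, 0, 0], [1, -1, 0, -2]]⟩,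
    ⟨[40, 24, 13, 0], [1, 5, 7, 16, 17, 27, 30, 35, 36, 37, 48, 49], (0, 0, 0), [], [((0, 1, 2), 1), ((0, 1, 6), 35), ((0, 1, 8), 49), ((0, 1, 14), 48), ((0, 2, 5), 36), ((0, 2, 8), 7), ((0, 2, 9), 27), ((0, 2, 12), 5), ((0, 2, 13), 30), ((1, 2, 5), 37), ((1, 2, 8), 17), ((1, 2, 13), 16)], 1, [[-2, -2, 0, -4], [0, 0, -2, -8], [-2, -2, 0, -2], [0, 0, 0, 0], [0, 0, 1, 0], [0, 0, -1, -2], [0, 0, -1, -2], [0, 0, -1, -2], [-1, -1, 0, 0], [0, -1, 0, -2], [0, 0, 0, 0], [-1, 0, 0, 0], [0, 0, 0, 0], [-1, 0, 0, 0], [-1, -1, 0, 0], [0, -1, 0, -2]]⟩,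
    ⟨[24, 13, 0], [1, 4, 5, 6, 7, 16, 17, 20, 21, 27, 30, 31, 32, 35, 36, 37, 40, 41, 44, 45, 48, 49], (1, 2, 12), [(5, 15), (17, 16), (30, 17), (40, 18)], [], 0, []⟩,
    ⟨[2, 48, 13, 0], [1, 17, 21, 24, 25, 28, 29, 35, 36, 37, 40, 44], (0, 0, 0), [], [((0, 1, 2), 1), ((0, 1, 6), 35), ((0, 1, 8), 25), ((0, 1, 12), 24), ((0, 2, 5), 36), ((0, 2, 8), 21), ((0, 2, 9), 44), ((0, 2, 12), 29), ((1, 2, 5), 37), ((1, 2, 8), 17), ((1, 2, 9), 40), ((1, 2, 13), 28)], 1, [[-1, 0, -2, -8], [-1, 0, -2, -8], [-2, 0, -2, -10], [0, 0, 0, 0], [0, 0, 1, 0], [0, 0, -1, -2], [0, 0, -1, -2], [0, 0, -1, -2], [-1, 0, -1, -2], [-1, 0, -1, -4], [-1, 1, -1, -4], [-1, 1, -1, -4], [0, -1, 0, 0], [0, -1, 0, 0], [-1, 0, 0, -2], [1, 0, 0, 0]]⟩,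
    ⟨[17, 48, 13, 0], [1, 2, 6, 24, 25, 29, 32, 35, 36, 37, 40, 41], (0, 0, 0), [], [((0, 1, 2), 1), ((0, 1, 6), 35), ((0, 1, 8), 25), ((0, 1, 12), 24), ((0, 2, 5), 36), ((0, 2, 8), 32), ((0, 2, 9), 6), ((0, 2, 12), 29), ((0, 2, 13), 2), ((1, 2, 5), 37), ((1, 2, 9), 40), ((1, 2, 13), 41)], 1, [[-2, -2, 0, -2], [0, 0, -2, -8], [-2, -2, 0, -4], [0, 0, 0, 0], [0, 0, 1, 0], [0, 0, -1, -2], [0, 0, -1, -2], [0, 0, -1, -2], [0, -1, 0, 0], [-1, -1, 0, 0], [-1, 0, 0, -2], [0, 0, 0, 0], [0, -1, 0, 0], [-1, -1, 0, 0], [-1, 0, 0, -2], [0, 0, 0, 0]]⟩,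
    ⟨[29, 48, 13, 0], [1, 2, 3, 17, 20, 24, 25, 35, 36, 37, 40, 45], (0, 0, 0), [], [((0, 1, 2), 1), ((0, 1, 6), 35), ((0, 1, 8), 25), ((0, 1, 12), 24), ((0, 2, 5), 36), ((0, 2, 8), 45), ((0, 2, 9), 20), ((0, 2, 13), 2), ((1, 2, 5), 37), ((1, 2, 8), 17), ((1, 2, 9), 40), ((1, 2, 13), 3)], 1, [[-1, 0, -2, -6], [-1, 0, -2, -6], [-2, 0, -2, -6], [0, 0, 0, 0], [0, 0, 1, 0], [0, 0, -1, -2], [0, 0, -1, -2], [0, 0, -1, -2], [-1, 0, -1, -2], [-1, 0, -1, -2], [-1, 1, -1, -4], [-1, 1, -1, -2], [1, -1, 0, 0], [-1, -1, 0, 2], [0, 0, 0, 0], [0, 0, 0, 0]]⟩,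
    ⟨[40, 48, 13, 0], [1, 2, 7, 16, 17, 24, 25, 27, 29, 35, 36, 37], (0, 0, 0), [], [((0, 1, 2), 1), ((0, 1, 6), 35), ((0, 1, 8), 25), ((0, 1, 12), 24), ((0, 2, 5), 36), ((0, 2, 8), 7), ((0, 2, 9), 27), ((0, 2, 12), 29), ((0, 2, 13), 2), ((1, 2, 5), 37), ((1, 2, 8), 17), ((1, 2, 13), 16)], 1, [[-2, -2, 0, 0], [0, 0, -2, -6], [-2, -2, 0, 0], [0, 0, 0, 0], [0, 0, 1, 0], [0, 0, -1, -2], [0, 0, -1, -2], [0, 0, -1, -2], [-1, -1, 0, 2], [0, -1, 0, 0], [0, 0, 0, 0], [-1, 0, 0, 0], [0, -1, 0, 0], [-1, -1, 0, 2], [-1, 0, 0, 0], [0, 0, 0, 0]]⟩,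
    ⟨[48, 13, 0], [1, 2, 3, 6, 7, 16, 17, 20, 21, 24, 25, 27, 28, 29, 32, 35, 36, 37, 40, 41, 44, 45], (1, 2, 12), [(2, 20), (17, 21), (29, 22), (40, 23)], [], 0, []⟩,
    ⟨[6, 13, 0], [1, 17, 20, 24, 27, 32, 33, 35, 36, 37, 41, 44, 48], (0, 0, 0), [], [((0, 1, 2), 1), ((0, 1, 6), 35), ((0, 1, 8), 33), ((0, 1, 12), 24), ((0, 1, 14), 48), ((0, 2, 5), 36), ((0, 2, 8), 32), ((0, 2, 12), 20), ((0, 2, 13), 44), ((1, 2, 5), 37), ((1, 2, 9), 27), ((1, 2, 12), 17), ((1, 2, 13), 41)], 1, [[-2, -2, -10], [-2, -2, -10], [-2, -2, -10], [0, 0, 0], [0, 1, 0], [0, -1, -2], [0, -1, -2], [0, -1, -2], [-1, 0, -2], [-1, 0, -2], [-1, 0, -2], [1, 0, 0], [-1, -1, -2], [-1, -1, -4], [-1, -1, -4], [-1, -1, -4]]⟩,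
    ⟨[7, 13, 0], [1, 16, 21, 24, 27, 32, 34, 35, 36, 37, 40, 45, 48], (0, 0, 0), [], [((0, 1, 2), 1), ((0, 1, 6), 35), ((0, 1, 8), 34), ((0, 1, 12), 24), ((0, 1, 14), 48), ((0, 2, 5), 36), ((0, 2, 9), 27), ((0, 2, 12), 45), ((0, 2, 13), 21), ((1, 2, 5), 37), ((1, 2, 8), 32), ((1, 2, 12), 40), ((1, 2, 13), 16)], 1, [[-2, -2, -10], [-2, -2, -10], [-2, -2, -10], [0, 0, 0], [0, 1, 0], [0, -1, -2], [0, -1, -2], [0, -1, -2], [-1, 0, -2], [-1, 0, -2], [1, 0, 0], [-1, 0, -2], [-1, -1, -4], [-1, -1, -2], [-1, -1, -4], [-1, -1, -4]]⟩,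
    ⟨[27, 13, 0], [1, 6, 7, 8, 16, 20, 24, 35, 36, 37, 40, 44, 48], (0, 0, 0), [], [((0, 1, 2), 1), ((0, 1, 6), 35), ((0, 1, 8), 8), ((0, 1, 12), 24), ((0, 1, 14), 48), ((0, 2, 5), 36), ((0, 2, 8), 7), ((0, 2, 12), 20), ((0, 2, 13), 44), ((1, 2, 5), 37), ((1, 2, 8), 6), ((1, 2, 12), 40), ((1, 2, 13), 16)], 1, [[-2, -2, -6], [-2, -2, -6], [-2, -2, -6], [0, 0, 0], [0, 1, 0], [0, -1, -2], [0, -1, -2], [0, -1, -2], [-2, 0, 2], [0, 0, 0], [0, 0, 0], [0, 0, 0], [-1, -1, -2], [-1, -1, -2], [-1, -1, -2], [-1, -1, -4]]⟩,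
    ⟨[32, 13, 0], [1, 6, 7, 9, 17, 21, 24, 35, 36, 37, 41, 45, 48], (0, 0, 0), [], [((0, 1, 2), 1), ((0, 1, 6), 35), ((0, 1, 8), 9), ((0, 1, 12), 24), ((0, 1, 14), 48), ((0, 2, 5), 36), ((0, 2, 9), 6), ((0, 2, 12), 45), ((0, 2, 13), 21), ((1, 2, 5), 37), ((1, 2, 9), 7), ((1, 2, 12), 17), ((1, 2, 13), 41)], 1, [[-2, -2, -6], [-2, -2, -6], [-2, -2, -6], [0, 0, 0], [0, 1, 0], [0, -1, -2], [0, -1, -2], [0, -1, -2], [0, 0, 0], [-2, 0, 2], [0, 0, 0], [0, 0, 0], [-1, -1, -2], [-1, -1, -2], [-1, -1, -4], [-1, -1, -2]]⟩,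
    ⟨[13, 0], [1, 2, 3, 4, 5, 6, 7, 8, 9, 16, 17, 20, 21, 24, 25, 27, 28, 29, 30, 31, 32, 33, 34, 35, 36, 37, 40, 41, 44, 45, 48, 49], (0, 1, 10), [(24, 19), (48, 24), (6, 25), (7, 26), (27, 27), (32, 28)], [], 0, []⟩,
    ⟨[5, 6, 20, 0], [1, 17, 24, 27, 29, 31, 33, 39, 42, 44, 45, 46], (0, 0, 0), [], [((0, 1, 2), 1), ((0, 1, 4), 24), ((0, 1, 6), 46), ((0, 1, 8), 33), ((0, 1, 14), 29), ((0, 2, 5), 42), ((0, 2, 8), 45), ((0, 2, 13), 44), ((1, 2, 4), 17), ((1, 2, 5), 39), ((1, 2, 9), 27), ((1, 2, 13), 31)], 1, [[-1, -1, -1, -10], [-2, -2, 0, -10], [-1, -1, -1, -10], [0, 0, 0, 0], [-1, -1, 1, -2], [-1, -1, 0, -4], [-1, -1, 1, -4], [-1, -1, 0, -4], [0, 0, -1, -2], [0, -1, 0, -2], [0, 0, -1, -2], [0, 1, 0, 0], [1, 0, 0, 0], [0, 0, -1, -2], [-1, 0, 0, -2], [0, 0, -1,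 -2]]⟩,
    ⟨[17, 6, 20, 0], [1, 5, 13, 27, 29, 33, 35, 39, 41, 42, 44, 45], (0, 0, 0), [], [((0, 1, 2), 1), ((0, 1, 4), 13), ((0, 1, 6), 35), ((0, 1, 8), 33), ((0, 1, 12), 5), ((0, 1, 14), 29), ((0, 2, 5), 42), ((0, 2, 8), 45), ((0, 2, 13), 44), ((1, 2, 5), 39), ((1, 2, 9), 27), ((1, 2, 13), 41)], 1, [[-2, 1, -3, -6], [-2, 0, -2, -6], [0, -1, -1, -10], [0, 0, 0, 0], [0, 0, 0, 0], [-1, 0, -1, -2], [-1, 0, 0, -2], [0, 0, -1, -2], [0, 0, -1, -2], [0, -1, 0, -2], [0, 0, -1, -2], [0, 1, 0, 0], [0, 0, 0, 0], [-1, 0, -1, -2], [-1, 0, 0, -2], [0, 0, -1, -2]]⟩,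
    ⟨[29, 6, 20, 0], [1, 3, 5, 17, 22, 27, 33, 39, 42, 44, 45, 48], (0, 0, 0), [], [((0, 1, 2), 1), ((0, 1, 4), 48), ((0, 1, 6), 22), ((0, 1, 8), 33), ((0, 1, 12), 5), ((0, 2, 5), 42), ((0, 2, 8), 45), ((0, 2, 13), 44), ((1, 2, 4), 17), ((1, 2, 5), 39), ((1, 2, 9), 27), ((1, 2, 13), 3)], 1, [[-1, -1, -1, -8], [-2, -2, 0, -6], [-1, -1, -1, -8], [0, 0, 0, 0], [-1, -1, 1, -2], [-1, -1, 0, -4], [-1, -1, 1, -2], [-1, -1, 0, -2], [0, 0, -1, -2], [0, -1, 0, -2], [0, 0, -1, -2], [0, 1, 0, 0], [0, 0, 0, 0], [-1, 0, -1, 0], [0, 0, 0, 0], [1, 0, -1, -2]]⟩,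
    ⟨[39, 6, 20, 0], [1, 5, 11, 15, 17, 27, 29, 33, 37, 42, 44, 45], (0, 0, 0), [], [((0, 1, 2), 1), ((0, 1, 4), 37), ((0, 1, 6), 11), ((0, 1, 8), 33), ((0, 1, 12), 5), ((0, 1, 14), 29), ((0, 2, 5), 42), ((0, 2, 8), 45), ((0, 2, 13), 44), ((1, 2, 4), 17), ((1, 2, 9), 27), ((1, 2, 13), 15)], 1, [[-2, 1, -3, -4], [-2, 0, -2, -2], [0, -1, -1, -8], [0, 0, 0, 0], [-1, 0, 0, 0], [0, 0, -1, -2], [0, 0, 0, 0], [-1, 0, -1, 0], [0, 0, -1, -2], [0, -1, 0, -2], [0, 0, -1, -2], [0, 1, 0, 0], [0, 0, 0, 0], [-1, 0, -1, 0], [-1, 0, 0, 0], [0, 0, -1, -2]]⟩,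
    ⟨[6, 20, 0], [1, 3, 5, 11, 13, 15, 17, 22, 24, 27, 29, 31, 33, 35, 37, 39, 41, 42, 44, 45, 46, 48], (1, 2, 12), [(5, 30), (17, 31), (29, 32), (39, 33)], [], 0, []⟩,
    ⟨[5, 27, 20, 0], [1, 6, 8, 14, 24, 29, 31, 40, 42, 44, 45, 46], (0, 0, 0), [], [((0, 1, 2), 1), ((0, 1, 4), 24), ((0, 1, 6), 46), ((0, 1, 8), 8), ((0, 1, 14), 29), ((0, 2, 5), 42), ((0, 2, 8), 45), ((0, 2, 13), 44), ((1, 2, 4), 40), ((1, 2, 5), 14), ((1, 2, 8), 6), ((1, 2, 13), 31)], 1, [[-1, -1, -1, -8], [-2, -2, 0, -6], [-1, -1, -1, -8], [0, 0, 0, 0], [-1, -1, 1, -2], [-1, -1, 0, -2], [-1, -1, 1, -2], [-1, -1, 0, -4], [0, -1, -1, 0], [0, 0, 0, 0], [0, 1, -1, -2], [0, 0, 0, 0], [1, 0, 0, 0], [0, 0, -1, -2], [-1, 0, 0, -2], [0, 0, -1, -2]]⟩,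
    ⟨[14, 27, 20, 0], [1, 5, 6, 8, 11, 29, 37, 38, 40, 42, 44, 45], (0, 0, 0), [], [((0, 1, 2), 1), ((0, 1, 4), 37), ((0, 1, 6), 11), ((0, 1, 8), 8), ((0, 1, 12), 5), ((0, 1, 14), 29), ((0, 2, 5), 42), ((0, 2, 8), 45), ((0, 2, 13), 44), ((1, 2, 4), 40), ((1, 2, 8), 6), ((1, 2, 13), 38)], 1, [[-2, 1, -3, -6], [-2, 0, -2, -4], [0, -1, -1, -8], [0, 0, 0, 0], [-1, 0, 0, -2], [0, 0, -1, -2], [0, 0, 0, 0], [-1, 0, -1, -2], [0, -1, -1, 0], [0, 0, 0, 0], [0, 1, -1, -2], [0, 0, 0, 0], [0, 0, 0, 0], [-1, 0, -1, -2], [-1, 0, 0, -2], [0, 0, -1, -2]]⟩,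
    ⟨[29, 27, 20, 0], [1, 3, 5, 6, 8, 14, 22, 40, 42, 44, 45, 48], (0, 0, 0), [], [((0, 1, 2), 1), ((0, 1, 4), 48), ((0, 1, 6), 22), ((0, 1, 8), 8), ((0, 1, 12), 5), ((0, 2, 5), 42), ((0, 2, 8), 45), ((0, 2, 13), 44), ((1, 2, 4), 40), ((1, 2, 5), 14), ((1, 2, 8), 6), ((1, 2, 13), 3)], 1, [[-1, -1, -1, -6], [-2, -2, 0, -2], [-1, -1, -1, -6], [0, 0, 0, 0], [-1, -1, 1, -2], [-1, -1, 0, -2], [-1, -1, 1, 0], [-1, -1, 0, -2], [0, -1, -1, 0], [0, 0, 0, 0], [0, 1, -1, -2], [0, 0, 0, 0], [0, 0, 0, 0], [-1, 0, -1, 0], [0, 0, 0, 0], [1, 0, -1, -2]]⟩,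
    ⟨[40, 27, 20, 0], [1, 5, 6, 8, 13, 14, 16, 29, 35, 42, 44, 45], (0, 0, 0), [], [((0, 1, 2), 1), ((0, 1, 4), 13), ((0, 1, 6), 35), ((0, 1, 8), 8), ((0, 1, 12), 5), ((0, 1, 14), 29), ((0, 2, 5), 42), ((0, 2, 8), 45), ((0, 2, 13), 44), ((1, 2, 5), 14), ((1, 2, 8), 6), ((1, 2, 13), 16)], 1, [[-2, 1, -3, -4], [-2, 0, -2, 0], [0, -1, -1, -6], [0, 0, 0, 0], [0, 0, 0, 0], [-1, 0, -1, 0], [-1, 0, 0, 0], [0, 0, -1, -2], [0, -1, -1, 0], [0, 0, 0, 0], [0, 1, -1, -2], [0, 0, 0, 0], [0, 0, 0, 0], [-1, 0, -1, 0], [-1, 0, 0, 0], [0, 0, -1, -2]]⟩,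
    ⟨[27, 20, 0], [1, 3, 5, 6, 8, 11, 13, 14, 16, 22, 24, 29, 31, 35, 37, 38, 40, 42, 44, 45, 46, 48], (1, 2, 12), [(5, 35), (14, 36), (29, 37), (40, 38)], [], 0, []⟩]

def tab5_1 : List Nd :=
  [⟨[22, 20, 0], [1, 3, 6, 11, 27, 29, 35, 42, 44, 45, 46, 47, 48], (0, 0, 0), [], [((0, 1, 2), 1), ((0, 1, 4), 48), ((0, 1, 8), 47), ((0, 1, 12), 46), ((0, 2, 5), 42), ((0, 2, 8), 45), ((0, 2, 13), 44), ((1, 2, 4), 35), ((1, 2, 5), 11), ((1, 2, 8), 6), ((1, 2, 9), 27), ((1, 2, 12), 29), ((1, 2, 13), 3)], 1, [[-1, -1, -10], [-3, -2, -6], [-2, -3, -6], [0, 0, 0], [-1, 0, -2], [-1, -1, -2], [0, 0, 0], [0, -1, -2], [-1, -1, -2], [-1, 0, -2], [0, -1, -2], [0, 0, 0], [-1, 0, -2], [-1, -1, -2], [0, 0, 0], [0, -1, -2]]⟩,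
    ⟨[24, 20, 0], [1, 5, 6, 13, 27, 31, 37, 42, 44, 45, 46, 48, 49], (0, 0, 0), [], [((0, 1, 2), 1), ((0, 1, 6), 46), ((0, 1, 8), 49), ((0, 1, 14), 48), ((0, 2, 5), 42), ((0, 2, 8), 45), ((0, 2, 13), 44), ((1, 2, 4), 13), ((1, 2, 5), 37), ((1, 2, 8), 6), ((1, 2, 9), 27), ((1, 2, 12), 5), ((1, 2, 13), 31)], 1, [[-1, -1, -10], [-3, -2, -6], [-2, -3, -6], [0, 0, 0], [0, 0, 0], [0, -1, -2], [-1, 0, -2], [-1, -1, -2], [-1, -1, -2], [-1, 0, -2], [0, -1, -2], [0, 0, 0], [0, 0, 0], [0, -1, -2], [-1, 0, -2], [-1, -1, -2]]⟩,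
    ⟨[46, 20, 0], [1, 5, 6, 11, 22, 23, 24, 27, 31, 35, 42, 44, 45], (0, 0, 0), [], [((0, 1, 2), 1), ((0, 1, 4), 24), ((0, 1, 8), 23), ((0, 1, 14), 22), ((0, 2, 5), 42), ((0, 2, 8), 45), ((0, 2, 13), 44), ((1, 2, 4), 35), ((1, 2, 5), 11), ((1, 2, 8), 6), ((1, 2, 9), 27), ((1, 2, 12), 5), ((1, 2, 13), 31)], 1, [[-1, -1, -6], [-3, -2, 0], [-2, -3, -4], [0, 0, 0], [-1, 0, 0], [-1, -1, 0], [0, 0, 0], [0, -1, -2], [-1, -1, 0], [-1, 0, 0], [0, -1, -2], [0, 0, 0], [0, 0, 0], [0, -1, -2], [-1, 0, 0], [-1, -1, 0]]⟩,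
    ⟨[48, 20, 0], [1, 3, 6, 13, 22, 24, 25, 27, 29, 37, 42, 44, 45], (0, 0, 0), [], [((0, 1, 2), 1), ((0, 1, 6), 22), ((0, 1, 8), 25), ((0, 1, 12), 24), ((0, 2, 5), 42), ((0, 2, 8), 45), ((0, 2, 13), 44), ((1, 2, 4), 13), ((1, 2, 5), 37), ((1, 2, 8), 6), ((1, 2, 9), 27), ((1, 2, 12), 29), ((1, 2, 13), 3)], 1, [[-1, -1, -6], [-3, -2, 0], [-2, -3, -4], [0, 0, 0], [0, 0, 0], [0, -1, -2], [-1, 0, 0], [-1, -1, 0], [-1, -1, 0], [-1, 0, 0], [0, -1, -2], [0, 0, 0], [-1, 0, 0], [-1, -1, 0], [0, 0, 0], [0, -1, -2]]⟩,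
    ⟨[20, 0], [1, 3, 5, 6, 8, 11, 13, 14, 15, 16, 17, 22, 23, 24, 25, 27, 29, 31, 33, 35, 37, 38, 39, 40, 41, 42, 44, 45, 46, 47, 48, 49], (0, 1, 10), [(6, 34), (27, 39), (22, 40), (24, 41), (46, 42), (48, 43)], [], 0, []⟩,
    ⟨[2, 7, 21, 0], [1, 14, 22, 28, 30, 32, 34, 40, 43, 44, 45, 48], (0, 0, 0), [], [((0, 1, 2), 1), ((0, 1, 4), 48), ((0, 1, 6), 22), ((0, 1, 8), 34), ((0, 1, 12), 30), ((0, 2, 5), 43), ((0, 2, 9), 44), ((0, 2, 12), 45), ((1, 2, 4), 40), ((1, 2, 5), 14), ((1, 2, 8), 32), ((1, 2, 13), 28)], 1, [[-1, -1, -1, -10], [-2, -2, 0, -10], [-1, -1, -1, -10], [0, 0, 0, 0], [-1, -1, 1, -4], [-1, -1, 0, -4], [-1, -1, 1, -2], [-1, -1, 0, -4], [0, -1, 0, -2], [0, 0, -1, -2], [0, 1, 0, 0], [0, 0, -1, -2], [0, 0, -1, -2], [-1, 0, 0, -2], [0, 0, -1, -2], [1,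 0, 0, 0]]⟩,
    ⟨[14, 7, 21, 0], [1, 2, 11, 30, 32, 34, 37, 38, 40, 43, 44, 45], (0, 0, 0), [], [((0, 1, 2), 1), ((0, 1, 4), 37), ((0, 1, 6), 11), ((0, 1, 8), 34), ((0, 1, 12), 30), ((0, 1, 14), 2), ((0, 2, 5), 43), ((0, 2, 9), 44), ((0, 2, 12), 45), ((1, 2, 4), 40), ((1, 2, 8), 32), ((1, 2, 13), 38)], 1, [[-2, 1, -3, -6], [-2, 0, -2, -6], [0, -1, -1, -10], [0, 0, 0, 0], [-1, 0, 0, -2], [0, 0, -1, -2], [0, 0, 0, 0], [-1, 0, -1, -2], [0, -1, 0, -2], [0, 0, -1, -2], [0, 1, 0, 0], [0, 0, -1, -2], [0, 0, -1, -2], [-1, 0, 0, -2], [-1, 0, -1, -2], [0, 0, 0, 0]]⟩,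
    ⟨[30, 7, 21, 0], [1, 2, 4, 14, 24, 32, 34, 40, 43, 44, 45, 46], (0, 0, 0), [], [((0, 1, 2), 1), ((0, 1, 4), 24), ((0, 1, 6), 46), ((0, 1, 8), 34), ((0, 1, 14), 2), ((0, 2, 5), 43), ((0, 2, 9), 44), ((0, 2, 12), 45), ((1, 2, 4), 40), ((1, 2, 5), 14), ((1, 2, 8), 32), ((1, 2, 13), 4)], 1, [[-1, -1, -1, -8], [-2, -2, 0, -6], [-1, -1, -1, -8], [0, 0, 0, 0], [-1, -1, 1, -2], [-1, -1, 0, -2], [-1, -1, 1, -2], [-1, -1, 0, -4], [0, -1, 0, -2], [0, 0, -1, -2], [0, 1, 0, 0], [0, 0, -1, -2], [1, 0, -1, -2], [0, 0, 0, 0], [-1, 0, -1, 0], [0, 0, 0, 0]]⟩,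
    ⟨[40, 7, 21, 0], [1, 2, 13, 14, 16, 30, 32, 34, 35, 43, 44, 45], (0, 0, 0), [], [((0, 1, 2), 1), ((0, 1, 4), 13), ((0, 1, 6), 35), ((0, 1, 8), 34), ((0, 1, 12), 30), ((0, 1, 14), 2), ((0, 2, 5), 43), ((0, 2, 9), 44), ((0, 2, 12), 45), ((1, 2, 5), 14), ((1, 2, 8), 32), ((1, 2, 13), 16)], 1, [[-2, 1, -3, -4], [-2, 0, -2, -2], [0, -1, -1, -8], [0, 0, 0, 0], [0, 0, 0, 0], [-1, 0, -1, 0], [-1, 0, 0, 0], [0, 0, -1, -2], [0, -1, 0, -2], [0, 0, -1, -2], [0, 1, 0, 0], [0, 0, -1, -2], [0, 0, -1, -2], [-1, 0, 0, 0], [-1, 0, -1, 0], [0, 0, 0, 0]]⟩,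
    ⟨[7, 21, 0], [1, 2, 4, 11, 13, 14, 16, 22, 24, 28, 30, 32, 34, 35, 37, 38, 40, 43, 44, 45, 46, 48], (1, 2, 12), [(2, 45), (14, 46), (30, 47), (40, 48)], [], 0, []⟩,
    ⟨[2, 32, 21, 0], [1, 7, 9, 17, 22, 28, 30, 39, 43, 44, 45, 48], (0, 0, 0), [], [((0, 1, 2), 1), ((0, 1, 4), 48), ((0, 1, 6), 22), ((0, 1, 8), 9), ((0, 1, 12), 30), ((0, 2, 5), 43), ((0, 2, 9), 44), ((0, 2, 12), 45), ((1, 2, 4), 17), ((1, 2, 5), 39), ((1, 2, 9), 7), ((1, 2, 13), 28)], 1, [[-1, -1, -1, -8], [-2, -2, 0, -6], [-1, -1, -1, -8], [0, 0, 0, 0], [-1, -1, 1, -2], [-1, -1, 0, -4], [-1, -1, 1, -2], [-1, -1, 0, -2], [0, 0, 0, 0], [0, -1, -1, 0], [0, 0, 0, 0], [0, 1, -1, -2], [0, 0, -1, -2], [-1, 0, 0, -2], [0, 0, -1, -2], [1, 0, 0, 0]]⟩,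
    ⟨[17, 32, 21, 0], [1, 2, 7, 9, 13, 30, 35, 39, 41, 43, 44, 45], (0, 0, 0), [], [((0, 1, 2), 1), ((0, 1, 4), 13), ((0, 1, 6), 35), ((0, 1, 8), 9), ((0, 1, 12), 30), ((0, 1, 14), 2), ((0, 2, 5), 43), ((0, 2, 9), 44), ((0, 2, 12), 45), ((1, 2, 5), 39), ((1, 2, 9), 7), ((1, 2, 13), 41)], 1, [[-2, 1, -3, -6], [-2, 0, -2, -4], [0, -1, -1, -8], [0, 0, 0, 0], [0, 0, 0, 0], [-1, 0, -1, -2], [-1, 0, 0, -2], [0, 0, -1, -2], [0, 0, 0, 0], [0, -1, -1, 0], [0, 0, 0, 0], [0, 1, -1, -2], [0, 0, -1, -2], [-1, 0, 0, -2], [-1, 0, -1, -2], [0, 0, 0, 0]]⟩,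
    ⟨[30, 32, 21, 0], [1, 2, 4, 7, 9, 17, 24, 39, 43, 44, 45, 46], (0, 0, 0), [], [((0, 1, 2), 1), ((0, 1, 4), 24), ((0, 1, 6), 46), ((0, 1, 8), 9), ((0, 1, 14), 2), ((0, 2, 5), 43), ((0, 2, 9), 44), ((0, 2, 12), 45), ((1, 2, 4), 17), ((1, 2, 5), 39), ((1, 2, 9), 7), ((1, 2, 13), 4)], 1, [[-1, -1, -1, -6], [-2, -2, 0, -2], [-1, -1, -1, -6], [0, 0, 0, 0], [-1, -1, 1, 0], [-1, -1, 0, -2], [-1, -1, 1, -2], [-1, -1, 0, -2], [0, 0, 0, 0], [0, -1, -1, 0], [0, 0, 0, 0], [0, 1, -1, -2], [1, 0, -1, -2], [0, 0, 0, 0], [-1, 0, -1, 0], [0, 0, 0, 0]]⟩,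
    ⟨[39, 32, 21, 0], [1, 2, 7, 9, 11, 15, 17, 30, 37, 43, 44, 45], (0, 0, 0), [], [((0, 1, 2), 1), ((0, 1, 4), 37), ((0, 1, 6), 11), ((0, 1, 8), 9), ((0, 1, 12), 30), ((0, 1, 14), 2), ((0, 2, 5), 43), ((0, 2, 9), 44), ((0, 2, 12), 45), ((1, 2, 4), 17), ((1, 2, 9), 7), ((1, 2, 13), 15)], 1, [[-2, 1, -3, -4], [-2, 0, -2, 0], [0, -1, -1, -6], [0, 0, 0, 0], [-1, 0, 0, 0], [0, 0, -1, -2], [0, 0, 0, 0], [-1, 0, -1, 0], [0, 0, 0, 0], [0, -1, -1, 0], [0, 0, 0, 0], [0, 1, -1, -2], [0, 0, -1, -2], [-1, 0, 0, 0], [-1, 0, -1, 0], [0, 0, 0, 0]]⟩,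
    ⟨[32, 21, 0], [1, 2, 4, 7, 9, 11, 13, 15, 17, 22, 24, 28, 30, 35, 37, 39, 41, 43, 44, 45, 46, 48], (1, 2, 12), [(2, 50), (17, 51), (30, 52), (39, 53)], [], 0, []⟩,
    ⟨[22, 21, 0], [1, 2, 7, 11, 28, 32, 35, 43, 44, 45, 46, 47, 48], (0, 0, 0), [], [((0, 1, 2), 1), ((0, 1, 4), 48), ((0, 1, 8), 47), ((0, 1, 12), 46), ((0, 2, 5), 43), ((0, 2, 9), 44), ((0, 2, 12), 45), ((1, 2, 4), 35), ((1, 2, 5), 11), ((1, 2, 8), 32), ((1, 2, 9), 7), ((1, 2, 12), 2), ((1, 2, 13), 28)], 1, [[-1, -1, -10], [-3, -2, -6], [-2, -3, -6], [0, 0, 0], [-1, 0, -2], [-1, -1, -2], [0, 0, 0], [0, -1, -2], [-1, 0, -2], [-1, -1, -2], [0, 0, 0], [0, -1, -2], [-1, -1, -2], [-1, 0, -2], [0, -1, -2], [0, 0, 0]]⟩,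
    ⟨[24, 21, 0], [1, 4, 7, 13, 30, 32, 37, 43, 44, 45, 46, 48, 49], (0, 0, 0), [], [((0, 1, 2), 1), ((0, 1, 6), 46), ((0, 1, 8), 49), ((0, 1, 14), 48), ((0, 2, 5), 43), ((0, 2, 9), 44), ((0, 2, 12), 45), ((1, 2, 4), 13), ((1, 2, 5), 37), ((1, 2, 8), 32), ((1, 2, 9), 7), ((1, 2, 12), 30), ((1, 2, 13), 4)], 1, [[-1, -1, -10], [-3, -2, -6], [-2, -3, -6], [0, 0, 0], [0, 0, 0], [0, -1, -2], [-1, 0, -2], [-1, -1, -2], [-1, 0, -2], [-1, -1, -2], [0, 0, 0], [0, -1, -2], [0, -1, -2], [0, 0, 0], [-1, -1, -2], [-1, 0, -2]]⟩,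
    ⟨[46, 21, 0], [1, 4, 7, 11, 22, 23, 24, 30, 32, 35, 43, 44, 45], (0, 0, 0), [], [((0, 1, 2), 1), ((0, 1, 4), 24), ((0, 1, 8), 23), ((0, 1, 14), 22), ((0, 2, 5), 43), ((0, 2, 9), 44), ((0, 2, 12), 45), ((1, 2, 4), 35), ((1, 2, 5), 11), ((1, 2, 8), 32), ((1, 2, 9), 7), ((1, 2, 12), 30), ((1, 2, 13), 4)], 1, [[-1, -1, -6], [-3, -2, 0], [-2, -3, -4], [0, 0, 0], [-1, 0, 0], [-1, -1, 0], [0, 0, 0], [0, -1, -2], [-1, 0, 0], [-1, -1, 0], [0, 0, 0], [0, -1, -2], [0, -1, -2], [0, 0, 0], [-1, -1, 0], [-1, 0, 0]]⟩,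
    ⟨[48, 21, 0], [1, 2, 7, 13, 22, 24, 25, 28, 32, 37, 43, 44, 45], (0, 0, 0), [], [((0, 1, 2), 1), ((0, 1, 6), 22), ((0, 1, 8), 25), ((0, 1, 12), 24), ((0, 2, 5), 43), ((0, 2, 9), 44), ((0, 2, 12), 45), ((1, 2, 4), 13), ((1, 2, 5), 37), ((1, 2, 8), 32), ((1, 2, 9), 7), ((1, 2, 12), 2), ((1, 2, 13), 28)], 1, [[-1, -1, -6], [-3, -2, 0], [-2, -3, -4], [0, 0, 0], [0, 0, 0], [0, -1, -2], [-1, 0, 0], [-1, -1, 0], [-1, 0, 0], [-1, -1, 0], [0, 0, 0], [0, -1, -2], [-1, -1, 0], [-1, 0, 0], [0, -1, -2], [0, 0, 0]]⟩,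
    ⟨[21, 0], [1, 2, 4, 7, 9, 11, 13, 14, 15, 16, 17, 22, 23, 24, 25, 28, 30, 32, 34, 35, 37, 38, 39, 40, 41, 43, 44, 45, 46, 47, 48, 49], (0, 1, 10), [(7, 49), (32, 54), (22, 55), (24, 56), (46, 57), (48, 58)], [], 0, []⟩,
    ⟨[2, 22, 35, 0], [1, 10, 11, 13, 17, 21, 28, 29, 40, 44, 46, 47], (0, 0, 0), [], [((0, 1, 2), 1), ((0, 1, 4), 13), ((0, 1, 8), 47), ((0, 1, 12), 46), ((0, 2, 5), 10), ((0, 2, 8), 21), ((0, 2, 9), 44), ((0, 2, 12), 29), ((1, 2, 5), 11), ((1, 2, 8), 17), ((1, 2, 9), 40), ((1, 2, 13), 28)], 1, [[-1, 0, -2, -6], [-1, 0, -2, -6], [-2, 0, -2, -6], [0, 0, 0, 0], [0, 0, 0, 0], [0, 0, -2, 2], [0, 0, 0, 0], [0, 0, 0, 0], [-1, 0, -1, -2], [-1, 0, -1, -4], [-1, 1, -1, -2], [-1, 1, -1, -2], [0, -1, 0, -2], [0, -1, 0, -2], [-1, 0, 0, -2], [1, 0, 0, 0]]⟩,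
    ⟨[17, 22, 35, 0], [1, 2, 6, 10, 11, 13, 29, 32, 40, 41, 46, 47], (0, 0, 0), [], [((0, 1, 2), 1), ((0, 1, 4), 13), ((0, 1, 8), 47), ((0, 1, 12), 46), ((0, 2, 5), 10), ((0, 2, 8), 32), ((0, 2, 9), 6), ((0, 2, 12), 29), ((0, 2, 13), 2), ((1, 2, 5), 11), ((1, 2, 9), 40), ((1, 2, 13), 41)], 1, [[-2, -2, 0, -4], [0, 0, -2, -6], [-2, -2, 0, -4], [0, 0, 0, 0], [0, 0, 0, 0], [0, 0, -2, 2], [0, 0, 0, 0], [0, 0, 0, 0], [0, -1, 0, -2], [-1, -1, 0, -2], [-1, 0, 0, -2], [0, 0, 0, 0], [0, -1, 0, -2], [-1, -1, 0, -2], [-1, 0, 0, -2], [0, 0, 0, 0]]⟩,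
    ⟨[29, 22, 35, 0], [1, 2, 3, 10, 11, 13, 17, 20, 40, 45, 46, 47], (0, 0, 0), [], [((0, 1, 2), 1), ((0, 1, 4), 13), ((0, 1, 8), 47), ((0, 1, 12), 46), ((0, 2, 5), 10), ((0, 2, 8), 45), ((0, 2, 9), 20), ((0, 2, 13), 2), ((1, 2, 5), 11), ((1, 2, 8), 17), ((1, 2, 9), 40), ((1, 2, 13), 3)], 1, [[-1, 0, -2, -4], [-1, 0, -2, -4], [-2, 0, -2, -2], [0, 0, 0, 0], [0, 0, 0, 0], [0, 0, -2, 2], [0, 0, 0, 0], [0, 0, 0, 0], [-1, 0, -1, -2], [-1, 0, -1, -2], [-1, 1, -1, -2], [-1, 1, -1, 0], [1, -1, 0, -2], [-1, -1, 0, 0], [0, 0, 0, 0], [0, 0, 0, 0]]⟩,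
    ⟨[40, 22, 35, 0], [1, 2, 7, 10, 11, 13, 16, 17, 27, 29, 46, 47], (0, 0, 0), [], [((0, 1, 2), 1), ((0, 1, 4), 13), ((0, 1, 8), 47), ((0, 1, 12), 46), ((0, 2, 5), 10), ((0, 2, 8), 7), ((0, 2, 9), 27), ((0, 2, 12), 29), ((0, 2, 13), 2), ((1, 2, 5), 11), ((1, 2, 8), 17), ((1, 2, 13), 16)], 1, [[-2, -2, 0, -2], [0, 0, -2, -4], [-2, -2, 0, 0], [0, 0, 0, 0], [0, 0, 0, 0], [0, 0, -2, 2], [0, 0, 0, 0], [0, 0, 0, 0], [-1, -1, 0, 0], [0, -1, 0, -2], [0, 0, 0, 0], [-1, 0, 0, 0], [0, -1, 0, -2], [-1, -1, 0, 0], [-1, 0, 0, 0], [0, 0, 0, 0]]⟩,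
    ⟨[22, 35, 0], [1, 2, 3, 6, 7, 10, 11, 13, 16, 17, 20, 21, 27, 28, 29, 32, 40, 41, 44, 45, 46, 47], (1, 2, 12), [(2, 60), (17, 61), (29, 62), (40, 63)], [], 0, []⟩,
    ⟨[5, 46, 35, 0], [1, 10, 11, 13, 17, 20, 22, 23, 30, 31, 40, 45], (0, 0, 0), [], [((0, 1, 2), 1), ((0, 1, 4), 13), ((0, 1, 8), 23), ((0, 1, 14), 22), ((0, 2, 5), 10), ((0, 2, 8), 45), ((0, 2, 9), 20), ((0, 2, 13), 30), ((1, 2, 5), 11), ((1, 2, 8), 17), ((1, 2, 9), 40), ((1, 2, 13), 31)], 1, [[-1, 0, -2, -4], [-1, 0, -2, -4], [-2, 0, -2, -6], [0, 0, 0, 0], [0, 0, 0, 0], [0, 0, -2, 2], [0, 0, 0, 0], [0, 0, 0, 0], [-1, 0, -1, -2], [-1, 0, -1, -2], [-1, 1, -1, -4], [-1, 1, -1, -2], [1, 0, 0, 0], [-1, 0, 0, -2], [0, -1, 0, 0], [0, -1, 0, 0]]⟩,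
    ⟨[17, 46, 35, 0], [1, 5, 6, 10, 11, 13, 22, 23, 30, 32, 40, 41], (0, 0, 0), [], [((0, 1, 2), 1), ((0, 1, 4), 13), ((0, 1, 8), 23), ((0, 1, 14), 22), ((0, 2, 5), 10), ((0, 2, 8), 32), ((0, 2, 9), 6), ((0, 2, 12), 5), ((0, 2, 13), 30), ((1, 2, 5), 11), ((1, 2, 9), 40), ((1, 2, 13), 41)], 1, [[-2, -2, 0, 0], [0, 0, -2, -4], [-2, -2, 0, -2], [0, 0, 0, 0], [0, 0, 0, 0], [0, 0, -2, 2], [0, 0, 0, 0], [0, 0, 0, 0], [0, -1, 0, 0], [-1, -1, 0, 0], [-1, 0, 0, -2], [0, 0, 0, 0], [0, 0, 0, 0], [-1, 0, 0, -2], [-1, -1, 0, 0], [0, -1, 0, 0]]⟩,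
    ⟨[30, 46, 35, 0], [1, 4, 5, 10, 11, 13, 17, 21, 22, 23, 40, 44], (0, 0, 0), [], [((0, 1, 2), 1), ((0, 1, 4), 13), ((0, 1, 8), 23), ((0, 1, 14), 22), ((0, 2, 5), 10), ((0, 2, 8), 21), ((0, 2, 9), 44), ((0, 2, 12), 5), ((1, 2, 5), 11), ((1, 2, 8), 17), ((1, 2, 9), 40), ((1, 2, 13), 4)], 1, [[-1, 0, -2, -2], [-1, 0, -2, -2], [-2, 0, -2, -2], [0, 0, 0, 0], [0, 0, 0, 0], [0, 0, -2, 2], [0, 0, 0, 0], [0, 0, 0, 0], [-1, 0, -1, 0], [-1, 0, -1, -2], [-1, 1, -1, -2], [-1, 1, -1, -2], [0, 0, 0, 0], [0, 0, 0, 0], [-1, -1, 0, 2], [1, -1, 0, 0]]⟩,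
    ⟨[40, 46, 35, 0], [1, 5, 7, 10, 11, 13, 16, 17, 22, 23, 27, 30], (0, 0, 0), [], [((0, 1, 2), 1), ((0, 1, 4), 13), ((0, 1, 8), 23), ((0, 1, 14), 22), ((0, 2, 5), 10), ((0, 2, 8), 7), ((0, 2, 9), 27), ((0, 2, 12), 5), ((0, 2, 13), 30), ((1, 2, 5), 11), ((1, 2, 8), 17), ((1, 2, 13), 16)], 1, [[-2, -2, 0, 2], [0, 0, -2, -2], [-2, -2, 0, 2], [0, 0, 0, 0], [0, 0, 0, 0], [0, 0, -2, 2], [0, 0, 0, 0], [0, 0, 0, 0], [-1, -1, 0, 2], [0, -1, 0, 0], [0, 0, 0, 0], [-1, 0, 0, 0], [0, 0, 0, 0], [-1, 0, 0, 0], [-1, -1, 0, 2], [0, -1, 0, 0]]⟩,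
    ⟨[46, 35, 0], [1, 4, 5, 6, 7, 10, 11, 13, 16, 17, 20, 21, 22, 23, 27, 30, 31, 32, 40, 41, 44, 45], (1, 2, 12), [(5, 65), (17, 66), (30, 67), (40, 68)], [], 0, []⟩,
    ⟨[6, 35, 0], [1, 10, 11, 13, 17, 20, 22, 27, 32, 33, 41, 44, 46], (0, 0, 0), [], [((0, 1, 2), 1), ((0, 1, 4), 13), ((0, 1, 8), 33), ((0, 1, 12), 46), ((0, 1, 14), 22), ((0, 2, 5), 10), ((0, 2, 8), 32), ((0, 2, 12), 20), ((0, 2, 13), 44), ((1, 2, 5), 11), ((1, 2, 9), 27), ((1, 2, 12), 17), ((1, 2, 13), 41)], 1, [[-2, -2, -6], [-2, -2, -6], [-2, -2, -6], [0, 0, 0], [0, 0, 0], [0, -2, 2], [0, 0, 0], [0, 0, 0], [-1, 0, -2], [-1, 0, -2], [-1, 0, -2], [1, 0, 0], [-1, -1, -2], [-1, -1, -4], [-1, -1, -2], [-1, -1, -2]]⟩,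
    ⟨[7, 35, 0], [1, 10, 11, 13, 16, 21, 22, 27, 32, 34, 40, 45, 46], (0, 0, 0), [], [((0, 1, 2), 1), ((0, 1, 4), 13), ((0, 1, 8), 34), ((0, 1, 12), 46), ((0, 1, 14), 22), ((0, 2, 5), 10), ((0, 2, 9), 27), ((0, 2, 12), 45), ((0, 2, 13), 21), ((1, 2, 5), 11), ((1, 2, 8), 32), ((1, 2, 12), 40), ((1, 2, 13), 16)], 1, [[-2, -2, -6], [-2, -2, -6], [-2, -2, -6], [0, 0, 0], [0, 0, 0], [0, -2, 2], [0, 0, 0], [0, 0, 0], [-1, 0, -2], [-1, 0, -2], [1, 0, 0], [-1, 0, -2], [-1, -1, -4], [-1, -1, -2], [-1, -1, -2], [-1, -1, -2]]⟩,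
    ⟨[27, 35, 0], [1, 6, 7, 8, 10, 11, 13, 16, 20, 22, 40, 44, 46], (0, 0, 0), [], [((0, 1, 2), 1), ((0, 1, 4), 13), ((0, 1, 8), 8), ((0, 1, 12), 46), ((0, 1, 14), 22), ((0, 2, 5), 10), ((0, 2, 8), 7), ((0, 2, 12), 20), ((0, 2, 13), 44), ((1, 2, 5), 11), ((1, 2, 8), 6), ((1, 2, 12), 40), ((1, 2, 13), 16)], 1, [[-2, -2, -2], [-2, -2, -2], [-2, -2, -2], [0, 0, 0], [0, 0, 0], [0, -2, 2], [0, 0, 0], [0, 0, 0], [-2, 0, 2], [0, 0, 0], [0, 0, 0], [0, 0, 0], [-1, -1, -2], [-1, -1, -2], [-1, -1, 0], [-1, -1, -2]]⟩,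
    ⟨[32, 35, 0], [1, 6, 7, 9, 10, 11, 13, 17, 21, 22, 41, 45, 46], (0, 0, 0), [], [((0, 1, 2), 1), ((0, 1, 4), 13), ((0, 1, 8), 9), ((0, 1, 12), 46), ((0, 1, 14), 22), ((0, 2, 5), 10), ((0, 2, 9), 6), ((0, 2, 12), 45), ((0, 2, 13), 21), ((1, 2, 5), 11), ((1, 2, 9), 7), ((1, 2, 12), 17), ((1, 2, 13), 41)], 1, [[-2, -2, -2], [-2, -2, -2], [-2, -2, -2], [0, 0, 0], [0, 0, 0], [0, -2, 2], [0, 0, 0], [0, 0, 0], [0, 0, 0], [-2, 0, 2], [0, 0, 0], [0, 0, 0], [-1, -1, -2], [-1, -1, -2], [-1, -1, -2], [-1, -1, 0]]⟩,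
    ⟨[35, 0], [1, 2, 3, 4, 5, 6, 7, 8, 9, 10, 11, 13, 16, 17, 20, 21, 22, 23, 27, 28, 29, 30, 31, 32, 33, 34, 40, 41, 44, 45, 46, 47], (0, 1, 10), [(22, 64), (46, 69), (6, 70), (7, 71), (27, 72), (32, 73)], [], 0, []⟩,
    ⟨[5, 24, 37, 0], [1, 11, 12, 13, 14, 20, 30, 31, 39, 45, 48, 49], (0, 0, 0), [], [((0, 1, 2), 1), ((0, 1, 6), 11), ((0, 1, 8), 49), ((0, 1, 14), 48), ((0, 2, 5), 12), ((0, 2, 8), 45), ((0, 2, 9), 20), ((0, 2, 13), 30), ((1, 2, 4), 13), ((1, 2, 8), 39), ((1, 2, 9), 14), ((1, 2, 13), 31)], 1, [[-1, 0, -2, -6], [-1, 0, -2, -6], [-2, 0, -2, -6], [0, 0, 0, 0], [0, 0, 0, 0], [0, 0, 0, 0], [0, 0, 0, 0], [0, 0, -2, 2], [-1, 0, -1, -4], [-1, 0, -1, -2], [-1, 1, -1, -2], [-1, 1, -1, -2], [1, 0, 0, 0], [-1, 0, 0, -2], [0, -1, 0, -2], [0, -1, 0, -2]]⟩,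
    ⟨[14, 24, 37, 0], [1, 5, 7, 11, 12, 13, 27, 30, 38, 39, 48, 49], (0, 0, 0), [], [((0, 1, 2), 1), ((0, 1, 6), 11), ((0, 1, 8), 49), ((0, 1, 14), 48), ((0, 2, 5), 12), ((0, 2, 8), 7), ((0, 2, 9), 27), ((0, 2, 12), 5), ((0, 2, 13), 30), ((1, 2, 4), 13), ((1, 2, 8), 39), ((1, 2, 13), 38)], 1, [[-2, -2, 0, -4], [0, 0, -2, -6], [-2, -2, 0, -4], [0, 0, 0, 0], [0, 0, 0, 0], [0, 0, 0, 0], [0, 0, 0, 0], [0, 0, -2, 2], [-1, -1, 0, -2], [0, -1, 0, -2], [0, 0, 0, 0], [-1, 0, 0, -2], [0, 0, 0, 0], [-1, 0, 0, -2], [-1, -1, 0, -2], [0, -1, 0, -2]]⟩,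
    ⟨[30, 24, 37, 0], [1, 4, 5, 11, 12, 13, 14, 21, 39, 44, 48, 49], (0, 0, 0), [], [((0, 1, 2), 1), ((0, 1, 6), 11), ((0, 1, 8), 49), ((0, 1, 14), 48), ((0, 2, 5), 12), ((0, 2, 8), 21), ((0, 2, 9), 44), ((0, 2, 12), 5), ((1, 2, 4), 13), ((1, 2, 8), 39), ((1, 2, 9), 14), ((1, 2, 13), 4)], 1, [[-1, 0, -2, -4], [-1, 0, -2, -4], [-2, 0, -2, -2], [0, 0, 0, 0], [0, 0, 0, 0], [0, 0, 0, 0], [0, 0, 0, 0], [0, 0, -2, 2], [-1, 0, -1, -2], [-1, 0, -1, -2], [-1, 1, -1, 0], [-1, 1, -1, -2], [0, 0, 0, 0], [0, 0, 0, 0], [-1, -1, 0, 0], [1, -1, 0, -2]]⟩,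
    ⟨[39, 24, 37, 0], [1, 5, 6, 11, 12, 13, 14, 15, 30, 32, 48, 49], (0, 0, 0), [], [((0, 1, 2), 1), ((0, 1, 6), 11), ((0, 1, 8), 49), ((0, 1, 14), 48), ((0, 2, 5), 12), ((0, 2, 8), 32), ((0, 2, 9), 6), ((0, 2, 12), 5), ((0, 2, 13), 30), ((1, 2, 4), 13), ((1, 2, 9), 14), ((1, 2, 13), 15)], 1, [[-2, -2, 0, -2], [0, 0, -2, -4], [-2, -2, 0, 0], [0, 0, 0, 0], [0, 0, 0, 0], [0, 0, 0, 0], [0, 0, 0, 0], [0, 0, -2, 2], [0, -1, 0, -2], [-1, -1, 0, 0], [-1, 0, 0, 0], [0, 0, 0, 0], [0, 0, 0, 0], [-1, 0, 0, 0], [-1, -1, 0, 0], [0, -1, 0, -2]]⟩,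
    ⟨[24, 37, 0], [1, 4, 5, 6, 7, 11, 12, 13, 14, 15, 20, 21, 27, 30, 31, 32, 38, 39, 44, 45, 48, 49], (1, 2, 12), [(5, 75), (14, 76), (30, 77), (39, 78)], [], 0, []⟩]

def tab5_2 : List Nd :=
  [⟨[2, 48, 37, 0], [1, 11, 12, 13, 14, 21, 24, 25, 28, 29, 39, 44], (0, 0, 0), [], [((0, 1, 2), 1), ((0, 1, 6), 11), ((0, 1, 8), 25), ((0, 1, 12), 24), ((0, 2, 5), 12), ((0, 2, 8), 21), ((0, 2, 9), 44), ((0, 2, 12), 29), ((1, 2, 4), 13), ((1, 2, 8), 39), ((1, 2, 9), 14), ((1, 2, 13), 28)], 1, [[-1, 0, -2, -4], [-1, 0, -2, -4], [-2, 0, -2, -6], [0, 0, 0, 0], [0, 0, 0, 0], [0, 0, 0, 0], [0, 0, 0, 0], [0, 0, -2, 2], [-1, 0, -1, -2], [-1, 0, -1, -2], [-1, 1, -1, -2], [-1, 1, -1, -4], [0, -1, 0, 0], [0, -1, 0, 0], [-1, 0, 0, -2], [1, 0, 0, 0]]⟩,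
    ⟨[14, 48, 37, 0], [1, 2, 7, 11, 12, 13, 24, 25, 27, 29, 38, 39], (0, 0, 0), [], [((0, 1, 2), 1), ((0, 1, 6), 11), ((0, 1, 8), 25), ((0, 1, 12), 24), ((0, 2, 5), 12), ((0, 2, 8), 7), ((0, 2, 9), 27), ((0, 2, 12), 29), ((0, 2, 13), 2), ((1, 2, 4), 13), ((1, 2, 8), 39), ((1, 2, 13), 38)], 1, [[-2, -2, 0, 0], [0, 0, -2, -4], [-2, -2, 0, -2], [0, 0, 0, 0], [0, 0, 0, 0], [0, 0, 0, 0], [0, 0, 0, 0], [0, 0, -2, 2], [-1, -1, 0, 0], [0, -1, 0, 0], [0, 0, 0, 0], [-1, 0, 0, -2], [0, -1, 0, 0], [-1, -1, 0, 0], [-1, 0, 0, -2], [0, 0, 0, 0]]⟩,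
    ⟨[29, 48, 37, 0], [1, 2, 3, 11, 12, 13, 14, 20, 24, 25, 39, 45], (0, 0, 0), [], [((0, 1, 2), 1), ((0, 1, 6), 11), ((0, 1, 8), 25), ((0, 1, 12), 24), ((0, 2, 5), 12), ((0, 2, 8), 45), ((0, 2, 9), 20), ((0, 2, 13), 2), ((1, 2, 4), 13), ((1, 2, 8), 39), ((1, 2, 9), 14), ((1, 2, 13), 3)], 1, [[-1, 0, -2, -2], [-1, 0, -2, -2], [-2, 0, -2, -2], [0, 0, 0, 0], [0, 0, 0, 0], [0, 0, 0, 0], [0, 0, 0, 0], [0, 0, -2, 2], [-1, 0, -1, -2], [-1, 0, -1, 0], [-1, 1, -1, -2], [-1, 1, -1, -2], [1, -1, 0, 0], [-1, -1, 0, 2], [0, 0, 0, 0], [0, 0, 0, 0]]⟩,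
    ⟨[39, 48, 37, 0], [1, 2, 6, 11, 12, 13, 14, 15, 24, 25, 29, 32], (0, 0, 0), [], [((0, 1, 2), 1), ((0, 1, 6), 11), ((0, 1, 8), 25), ((0, 1, 12), 24), ((0, 2, 5), 12), ((0, 2, 8), 32), ((0, 2, 9), 6), ((0, 2, 12), 29), ((0, 2, 13), 2), ((1, 2, 4), 13), ((1, 2, 9), 14), ((1, 2, 13), 15)], 1, [[-2, -2, 0, 2], [0, 0, -2, -2], [-2, -2, 0, 2], [0, 0, 0, 0], [0, 0, 0, 0], [0, 0, 0, 0], [0, 0, 0, 0], [0, 0, -2, 2], [0, -1, 0, 0], [-1, -1, 0, 2], [-1, 0, 0, 0], [0, 0, 0, 0], [0, -1, 0, 0], [-1, -1, 0, 2], [-1, 0, 0, 0], [0, 0, 0, 0]]⟩,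
    ⟨[48, 37, 0], [1, 2, 3, 6, 7, 11, 12, 13, 14, 15, 20, 21, 24, 25, 27, 28, 29, 32, 38, 39, 44, 45], (1, 2, 12), [(2, 80), (14, 81), (29, 82), (39, 83)], [], 0, []⟩,
    ⟨[6, 37, 0], [1, 11, 12, 13, 15, 20, 24, 27, 32, 33, 39, 44, 48], (0, 0, 0), [], [((0, 1, 2), 1), ((0, 1, 6), 11), ((0, 1, 8), 33), ((0, 1, 12), 24), ((0, 1, 14), 48), ((0, 2, 5), 12), ((0, 2, 8), 32), ((0, 2, 12), 20), ((0, 2, 13), 44), ((1, 2, 4), 13), ((1, 2, 9), 27), ((1, 2, 12), 39), ((1, 2, 13), 15)], 1, [[-2, -2, -6], [-2, -2, -6], [-2, -2, -6], [0, 0, 0], [0, 0, 0], [0, 0, 0], [0, 0, 0], [0, -2, 2], [-1, 0, -2], [-1, 0, -2], [-1, 0, -2], [1, 0, 0], [-1, -1, -2], [-1, -1, -2], [-1, -1, -2], [-1, -1, -4]]⟩,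
    ⟨[7, 37, 0], [1, 11, 12, 13, 14, 21, 24, 27, 32, 34, 38, 45, 48], (0, 0, 0), [], [((0, 1, 2), 1), ((0, 1, 6), 11), ((0, 1, 8), 34), ((0, 1, 12), 24), ((0, 1, 14), 48), ((0, 2, 5), 12), ((0, 2, 9), 27), ((0, 2, 12), 45), ((0, 2, 13), 21), ((1, 2, 4), 13), ((1, 2, 8), 32), ((1, 2, 12), 14), ((1, 2, 13), 38)], 1, [[-2, -2, -6], [-2, -2, -6], [-2, -2, -6], [0, 0, 0], [0, 0, 0], [0, 0, 0], [0, 0, 0], [0, -2, 2], [-1, 0, -2], [-1, 0, -2], [1, 0, 0], [-1, 0, -2], [-1, -1, -2], [-1, -1, -2], [-1, -1, -4], [-1, -1, -2]]⟩,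
    ⟨[27, 37, 0], [1, 6, 7, 8, 11, 12, 13, 14, 20, 24, 38, 44, 48], (0, 0, 0), [], [((0, 1, 2), 1), ((0, 1, 6), 11), ((0, 1, 8), 8), ((0, 1, 12), 24), ((0, 1, 14), 48), ((0, 2, 5), 12), ((0, 2, 8), 7), ((0, 2, 12), 20), ((0, 2, 13), 44), ((1, 2, 4), 13), ((1, 2, 8), 6), ((1, 2, 12), 14), ((1, 2, 13), 38)], 1, [[-2, -2, -2], [-2, -2, -2], [-2, -2, -2], [0, 0, 0], [0, 0, 0], [0, 0, 0], [0, 0, 0], [0, -2, 2], [-2, 0, 2], [0, 0, 0], [0, 0, 0], [0, 0, 0], [-1, -1, 0], [-1, -1, -2], [-1, -1, -2], [-1, -1, -2]]⟩,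
    ⟨[32, 37, 0], [1, 6, 7, 9, 11, 12, 13, 15, 21, 24, 39, 45, 48], (0, 0, 0), [], [((0, 1, 2), 1), ((0, 1, 6), 11), ((0, 1, 8), 9), ((0, 1, 12), 24), ((0, 1, 14), 48), ((0, 2, 5), 12), ((0, 2, 9), 6), ((0, 2, 12), 45), ((0, 2, 13), 21), ((1, 2, 4), 13), ((1, 2, 9), 7), ((1, 2, 12), 39), ((1, 2, 13), 15)], 1, [[-2, -2, -2], [-2, -2, -2], [-2, -2, -2], [0, 0, 0], [0, 0, 0], [0, 0, 0], [0, 0, 0], [0, -2, 2], [0, 0, 0], [-2, 0, 2], [0, 0, 0], [0, 0, 0], [-1, -1, -2], [-1, -1, 0], [-1, -1, -2], [-1, -1, -2]]⟩,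
    ⟨[37, 0], [1, 2, 3, 4, 5, 6, 7, 8, 9, 11, 12, 13, 14, 15, 20, 21, 24, 25, 27, 28, 29, 30, 31, 32, 33, 34, 38, 39, 44, 45, 48, 49], (0, 1, 10), [(24, 79), (48, 84), (6, 85), (7, 86), (27, 87), (32, 88)], [], 0, []⟩,
    ⟨[2, 6, 44, 0], [1, 17, 18, 20, 21, 22, 27, 28, 30, 33, 39, 48], (0, 0, 0), [], [((0, 1, 2), 1), ((0, 1, 4), 48), ((0, 1, 6), 22), ((0, 1, 8), 33), ((0, 1, 12), 30), ((0, 2, 5), 18), ((0, 2, 8), 21), ((0, 2, 12), 20), ((1, 2, 4), 17), ((1, 2, 5), 39), ((1, 2, 9), 27), ((1, 2, 13), 28)], 1, [[-1, -1, -1, -6], [-2, -2, 0, -10], [-1, -1, -1, -6], [0, 0, 0, 0], [-1, -1, 1, -4], [-1, -1, 0, -4], [-1, -1, 1, -4], [-1, -1, 0, -2], [0, 0, -1, 0], [0, -1, 0, -2], [0, 0, -1, 0], [0, 1, 0, 0], [0, 0, -1, 0], [-1, 0, 0, -2], [0, 0, -1, 0], [1, 0, 0, 0]]⟩,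
    ⟨[17, 6, 44, 0], [1, 2, 13, 18, 20, 21, 27, 30, 33, 35, 39, 41], (0, 0, 0), [], [((0, 1, 2), 1), ((0, 1, 4), 13), ((0, 1, 6), 35), ((0, 1, 8), 33), ((0, 1, 12), 30), ((0, 1, 14), 2), ((0, 2, 5), 18), ((0, 2, 8), 21), ((0, 2, 12), 20), ((1, 2, 5), 39), ((1, 2, 9), 27), ((1, 2, 13), 41)], 1, [[-2, 1, -3, 0], [-2, 0, -2, -4], [0, -1, -1, -6], [0, 0, 0, 0], [0, 0, 0, 0], [-1, 0, -1, 0], [-1, 0, 0, -2], [0, 0, -1, 0], [0, 0, -1, 0], [0, -1, 0, -2], [0, 0, -1, 0], [0, 1, 0, 0], [0, 0, -1, 0], [-1, 0, 0, -2], [-1, 0, -1, 0], [0, 0, 0, 0]]⟩,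
    ⟨[30, 6, 44, 0], [1, 2, 4, 17, 18, 20, 21, 24, 27, 33, 39, 46], (0, 0, 0), [], [((0, 1, 2), 1), ((0, 1, 4), 24), ((0, 1, 6), 46), ((0, 1, 8), 33), ((0, 1, 14), 2), ((0, 2, 5), 18), ((0, 2, 8), 21), ((0, 2, 12), 20), ((1, 2, 4), 17), ((1, 2, 5), 39), ((1, 2, 9), 27), ((1, 2, 13), 4)], 1, [[-1, -1, -1, -4], [-2, -2, 0, -6], [-1, -1, -1, -4], [0, 0, 0, 0], [-1, -1, 1, -2], [-1, -1, 0, -2], [-1, -1, 1, -4], [-1, -1, 0, -2], [0, 0, -1, 0], [0, -1, 0, -2], [0, 0, -1, 0], [0, 1, 0, 0], [1, 0, -1, 0], [0, 0, 0, 0], [-1, 0, -1, 2], [0, 0, 0, 0]]⟩,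
    ⟨[39, 6, 44, 0], [1, 2, 11, 15, 17, 18, 20, 21, 27, 30, 33, 37], (0, 0, 0), [], [((0, 1, 2), 1), ((0, 1, 4), 37), ((0, 1, 6), 11), ((0, 1, 8), 33), ((0, 1, 12), 30), ((0, 1, 14), 2), ((0, 2, 5), 18), ((0, 2, 8), 21), ((0, 2, 12), 20), ((1, 2, 4), 17), ((1, 2, 9), 27), ((1, 2, 13), 15)], 1, [[-2, 1, -3, 2], [-2, 0, -2, 0], [0, -1, -1, -4], [0, 0, 0, 0], [-1, 0, 0, 0], [0, 0, -1, 0], [0, 0, 0, 0], [-1, 0, -1, 2], [0, 0, -1, 0], [0, -1, 0, -2], [0, 0, -1, 0], [0, 1, 0, 0], [0, 0, -1, 0], [-1, 0, 0, 0], [-1, 0, -1, 2], [0, 0, 0, 0]]⟩,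
    ⟨[6, 44, 0], [1, 2, 4, 11, 13, 15, 17, 18, 20, 21, 22, 24, 27, 28, 30, 33, 35, 37, 39, 41, 46, 48], (1, 2, 12), [(2, 90), (17, 91), (30, 92), (39, 93)], [], 0, []⟩,
    ⟨[2, 27, 44, 0], [1, 6, 8, 14, 18, 20, 21, 22, 28, 30, 40, 48], (0, 0, 0), [], [((0, 1, 2), 1), ((0, 1, 4), 48), ((0, 1, 6), 22), ((0, 1, 8), 8), ((0, 1, 12), 30), ((0, 2, 5), 18), ((0, 2, 8), 21), ((0, 2, 12), 20), ((1, 2, 4), 40), ((1, 2, 5), 14), ((1, 2, 8), 6), ((1, 2, 13), 28)], 1, [[-1, -1, -1, -4], [-2, -2, 0, -6], [-1, -1, -1, -4], [0, 0, 0, 0], [-1, -1, 1, -4], [-1, -1, 0, -2], [-1, -1, 1, -2], [-1, -1, 0, -2], [0, -1, -1, 2], [0, 0, 0, 0], [0, 1, -1, 0], [0, 0, 0, 0], [0, 0, -1, 0], [-1, 0, 0, -2], [0, 0, -1, 0], [1, 0, 0, 0]]⟩,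
    ⟨[14, 27, 44, 0], [1, 2, 6, 8, 11, 18, 20, 21, 30, 37, 38, 40], (0, 0, 0), [], [((0, 1, 2), 1), ((0, 1, 4), 37), ((0, 1, 6), 11), ((0, 1, 8), 8), ((0, 1, 12), 30), ((0, 1, 14), 2), ((0, 2, 5), 18), ((0, 2, 8), 21), ((0, 2, 12), 20), ((1, 2, 4), 40), ((1, 2, 8), 6), ((1, 2, 13), 38)], 1, [[-2, 1, -3, 0], [-2, 0, -2, -2], [0, -1, -1, -4], [0, 0, 0, 0], [-1, 0, 0, -2], [0, 0, -1, 0], [0, 0, 0, 0], [-1, 0, -1, 0], [0, -1, -1, 2], [0, 0, 0, 0], [0, 1, -1, 0], [0, 0, 0, 0], [0, 0, -1, 0], [-1, 0, 0, -2], [-1, 0, -1, 0], [0, 0, 0, 0]]⟩,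
    ⟨[30, 27, 44, 0], [1, 2, 4, 6, 8, 14, 18, 20, 21, 24, 40, 46], (0, 0, 0), [], [((0, 1, 2), 1), ((0, 1, 4), 24), ((0, 1, 6), 46), ((0, 1, 8), 8), ((0, 1, 14), 2), ((0, 2, 5), 18), ((0, 2, 8), 21), ((0, 2, 12), 20), ((1, 2, 4), 40), ((1, 2, 5), 14), ((1, 2, 8), 6), ((1, 2, 13), 4)], 1, [[-1, -1, -1, -2], [-2, -2, 0, -2], [-1, -1, -1, -2], [0, 0, 0, 0], [-1, -1, 1, -2], [-1, -1, 0, 0], [-1, -1, 1, -2], [-1, -1, 0, -2], [0, -1, -1, 2], [0, 0, 0, 0], [0, 1, -1, 0], [0, 0, 0, 0], [1, 0, -1, 0], [0, 0, 0, 0], [-1, 0, -1, 2], [0, 0, 0, 0]]⟩,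
    ⟨[40, 27, 44, 0], [1, 2, 6, 8, 13, 14, 16, 18, 20, 21, 30, 35], (0, 0, 0), [], [((0, 1, 2), 1), ((0, 1, 4), 13), ((0, 1, 6), 35), ((0, 1, 8), 8), ((0, 1, 12), 30), ((0, 1, 14), 2), ((0, 2, 5), 18), ((0, 2, 8), 21), ((0, 2, 12), 20), ((1, 2, 5), 14), ((1, 2, 8), 6), ((1, 2, 13), 16)], 1, [[-2, 1, -3, 2], [-2, 0, -2, 2], [0, -1, -1, -2], [0, 0, 0, 0], [0, 0, 0, 0], [-1, 0, -1, 2], [-1, 0, 0, 0], [0, 0, -1, 0], [0, -1, -1, 2], [0, 0, 0, 0], [0, 1, -1, 0], [0, 0, 0, 0], [0, 0, -1, 0], [-1, 0, 0, 0], [-1, 0, -1, 2], [0, 0, 0, 0]]⟩,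
    ⟨[27, 44, 0], [1, 2, 4, 6, 8, 11, 13, 14, 16, 18, 20, 21, 22, 24, 28, 30, 35, 37, 38, 40, 46, 48], (1, 2, 12), [(2, 95), (14, 96), (30, 97), (40, 98)], [], 0, []⟩,
    ⟨[22, 44, 0], [1, 2, 6, 11, 18, 20, 21, 27, 28, 35, 46, 47, 48], (0, 0, 0), [], [((0, 1, 2), 1), ((0, 1, 4), 48), ((0, 1, 8), 47), ((0, 1, 12), 46), ((0, 2, 5), 18), ((0, 2, 8), 21), ((0, 2, 12), 20), ((1, 2, 4), 35), ((1, 2, 5), 11), ((1, 2, 8), 6), ((1, 2, 9), 27), ((1, 2, 12), 2), ((1, 2, 13), 28)], 1, [[-1, -1, -6], [-3, -2, -4], [-2, -3, 0], [0, 0, 0], [-1, 0, -2], [-1, -1, 0], [0, 0, 0], [0, -1, 0], [-1, -1, 0], [-1, 0, -2], [0, -1, 0], [0, 0, 0], [-1, -1, 0], [-1, 0, -2], [0, -1, 0], [0, 0, 0]]⟩,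
    ⟨[24, 44, 0], [1, 4, 6, 13, 18, 20, 21, 27, 30, 37, 46, 48, 49], (0, 0, 0), [], [((0, 1, 2), 1), ((0, 1, 6), 46), ((0, 1, 8), 49), ((0, 1, 14), 48), ((0, 2, 5), 18), ((0, 2, 8), 21), ((0, 2, 12), 20), ((1, 2, 4), 13), ((1, 2, 5), 37), ((1, 2, 8), 6), ((1, 2, 9), 27), ((1, 2, 12), 30), ((1, 2, 13), 4)], 1, [[-1, -1, -6], [-3, -2, -4], [-2, -3, 0], [0, 0, 0], [0, 0, 0], [0, -1, 0], [-1, 0, -2], [-1, -1, 0], [-1, -1, 0], [-1, 0, -2], [0, -1, 0], [0, 0, 0], [0, -1, 0], [0, 0, 0], [-1, -1, 0], [-1, 0, -2]]⟩,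
    ⟨[46, 44, 0], [1, 4, 6, 11, 18, 20, 21, 22, 23, 24, 27, 30, 35], (0, 0, 0), [], [((0, 1, 2), 1), ((0, 1, 4), 24), ((0, 1, 8), 23), ((0, 1, 14), 22), ((0, 2, 5), 18), ((0, 2, 8), 21), ((0, 2, 12), 20), ((1, 2, 4), 35), ((1, 2, 5), 11), ((1, 2, 8), 6), ((1, 2, 9), 27), ((1, 2, 12), 30), ((1, 2, 13), 4)], 1, [[-1, -1, -2], [-3, -2, 2], [-2, -3, 2], [0, 0, 0], [-1, 0, 0], [-1, -1, 2], [0, 0, 0], [0, -1, 0], [-1, -1, 2], [-1, 0, 0], [0, -1, 0], [0, 0, 0], [0, -1, 0], [0, 0, 0], [-1, -1, 2], [-1, 0, 0]]⟩,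
    ⟨[48, 44, 0], [1, 2, 6, 13, 18, 20, 21, 22, 24, 25, 27, 28, 37], (0, 0, 0), [], [((0, 1, 2), 1), ((0, 1, 6), 22), ((0, 1, 8), 25), ((0, 1, 12), 24), ((0, 2, 5), 18), ((0, 2, 8), 21), ((0, 2, 12), 20), ((1, 2, 4), 13), ((1, 2, 5), 37), ((1, 2, 8), 6), ((1, 2, 9), 27), ((1, 2, 12), 2), ((1, 2, 13), 28)], 1, [[-1, -1, -2], [-3, -2, 2], [-2, -3, 2], [0, 0, 0], [0, 0, 0], [0, -1, 0], [-1, 0, 0], [-1, -1, 2], [-1, -1, 2], [-1, 0, 0], [0, -1, 0], [0, 0, 0], [-1, -1, 2], [-1, 0, 0], [0, -1, 0], [0, 0, 0]]⟩,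
    ⟨[44, 0], [1, 2, 4, 6, 8, 11, 13, 14, 15, 16, 17, 18, 20, 21, 22, 23, 24, 25, 27, 28, 30, 33, 35, 37, 38, 39, 40, 41, 46, 47, 48, 49], (0, 1, 10), [(6, 94), (27, 99), (22, 100), (24, 101), (46, 102), (48, 103)], [], 0, []⟩,
    ⟨[5, 7, 45, 0], [1, 14, 19, 20, 21, 24, 29, 31, 32, 34, 40, 46], (0, 0, 0), [], [((0, 1, 2), 1), ((0, 1, 4), 24), ((0, 1, 6), 46), ((0, 1, 8), 34), ((0, 1, 14), 29), ((0, 2, 5), 19), ((0, 2, 9), 20), ((0, 2, 13), 21), ((1, 2, 4), 40), ((1, 2, 5), 14), ((1, 2, 8), 32), ((1, 2, 13), 31)], 1, [[-1, -1, -1, -6], [-2, -2, 0, -10], [-1, -1, -1, -6], [0, 0, 0, 0], [-1, -1, 1, -4], [-1, -1, 0, -2], [-1, -1, 1, -4], [-1, -1, 0, -4], [0, -1, 0, -2], [0, 0, -1, 0], [0, 1, 0, 0], [0, 0, -1, 0], [1, 0, 0, 0], [0, 0, -1, 0], [-1, 0, 0, -2], [0, 0,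 -1, 0]]⟩,
    ⟨[14, 7, 45, 0], [1, 5, 11, 19, 20, 21, 29, 32, 34, 37, 38, 40], (0, 0, 0), [], [((0, 1, 2), 1), ((0, 1, 4), 37), ((0, 1, 6), 11), ((0, 1, 8), 34), ((0, 1, 12), 5), ((0, 1, 14), 29), ((0, 2, 5), 19), ((0, 2, 9), 20), ((0, 2, 13), 21), ((1, 2, 4), 40), ((1, 2, 8), 32), ((1, 2, 13), 38)], 1, [[-2, 1, -3, 0], [-2, 0, -2, -4], [0, -1, -1, -6], [0, 0, 0, 0], [-1, 0, 0, -2], [0, 0, -1, 0], [0, 0, 0, 0], [-1, 0, -1, 0], [0, -1, 0, -2], [0, 0, -1, 0], [0, 1, 0, 0], [0, 0, -1, 0], [0, 0, 0, 0], [-1, 0, -1, 0], [-1, 0, 0, -2], [0, 0, -1, 0]]⟩,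
    ⟨[29, 7, 45, 0], [1, 3, 5, 14, 19, 20, 21, 22, 32, 34, 40, 48], (0, 0, 0), [], [((0, 1, 2), 1), ((0, 1, 4), 48), ((0, 1, 6), 22), ((0, 1, 8), 34), ((0, 1, 12), 5), ((0, 2, 5), 19), ((0, 2, 9), 20), ((0, 2, 13), 21), ((1, 2, 4), 40), ((1, 2, 5), 14), ((1, 2, 8), 32), ((1, 2, 13), 3)], 1, [[-1, -1, -1, -4], [-2, -2, 0, -6], [-1, -1, -1, -4], [0, 0, 0, 0], [-1, -1, 1, -4], [-1, -1, 0, -2], [-1, -1, 1, -2], [-1, -1, 0, -2], [0, -1, 0, -2], [0, 0, -1, 0], [0, 1, 0, 0], [0, 0, -1, 0], [0, 0, 0, 0], [-1, 0, -1, 2], [0, 0, 0, 0], [1, 0, -1, 0]]⟩,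
    ⟨[40, 7, 45, 0], [1, 5, 13, 14, 16, 19, 20, 21, 29, 32, 34, 35], (0, 0, 0), [], [((0, 1, 2), 1), ((0, 1, 4), 13), ((0, 1, 6), 35), ((0, 1, 8), 34), ((0, 1, 12), 5), ((0, 1, 14), 29), ((0, 2, 5), 19), ((0, 2, 9), 20), ((0, 2, 13), 21), ((1, 2, 5), 14), ((1, 2, 8), 32), ((1, 2, 13), 16)], 1, [[-2, 1, -3, 2], [-2, 0, -2, 0], [0, -1, -1, -4], [0, 0, 0, 0], [0, 0, 0, 0], [-1, 0, -1, 2], [-1, 0, 0, 0], [0, 0, -1, 0], [0, -1, 0, -2], [0, 0, -1, 0], [0, 1, 0, 0], [0, 0, -1, 0], [0, 0, 0, 0], [-1, 0, -1, 2], [-1, 0, 0, 0], [0, 0, -1, 0]]⟩,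
    ⟨[7, 45, 0], [1, 3, 5, 11, 13, 14, 16, 19, 20, 21, 22, 24, 29, 31, 32, 34, 35, 37, 38, 40, 46, 48], (1, 2, 12), [(5, 105), (14, 106), (29, 107), (40, 108)], [], 0, []⟩,
    ⟨[5, 32, 45, 0], [1, 7, 9, 17, 19, 20, 21, 24, 29, 31, 39, 46], (0, 0, 0), [], [((0, 1, 2), 1), ((0, 1, 4), 24), ((0, 1, 6), 46), ((0, 1, 8), 9), ((0, 1, 14), 29), ((0, 2, 5), 19), ((0, 2, 9), 20), ((0, 2, 13), 21), ((1, 2, 4), 17), ((1, 2, 5), 39), ((1, 2, 9), 7), ((1, 2, 13), 31)], 1, [[-1, -1, -1, -4], [-2, -2, 0, -6], [-1, -1, -1, -4], [0, 0, 0, 0], [-1, -1, 1, -2], [-1, -1, 0, -2], [-1, -1, 1, -4], [-1, -1, 0, -2], [0, 0, 0, 0], [0, -1, -1, 2], [0, 0, 0, 0], [0, 1, -1, 0], [1, 0, 0, 0], [0, 0, -1, 0], [-1, 0, 0, -2], [0, 0, -1, 0]]⟩,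
    ⟨[17, 32, 45, 0], [1, 5, 7, 9, 13, 19, 20, 21, 29, 35, 39, 41], (0, 0, 0), [], [((0, 1, 2), 1), ((0, 1, 4), 13), ((0, 1, 6), 35), ((0, 1, 8), 9), ((0, 1, 12), 5), ((0, 1, 14), 29), ((0, 2, 5), 19), ((0, 2, 9), 20), ((0, 2, 13), 21), ((1, 2, 5), 39), ((1, 2, 9), 7), ((1, 2, 13), 41)], 1, [[-2, 1, -3, 0], [-2, 0, -2, -2], [0, -1, -1, -4], [0, 0, 0, 0], [0, 0, 0, 0], [-1, 0, -1, 0], [-1, 0, 0, -2], [0, 0, -1, 0], [0, 0, 0, 0], [0, -1, -1, 2], [0, 0, 0, 0], [0, 1, -1, 0], [0, 0, 0, 0], [-1, 0, -1, 0], [-1, 0, 0, -2], [0, 0, -1, 0]]⟩,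
    ⟨[29, 32, 45, 0], [1, 3, 5, 7, 9, 17, 19, 20, 21, 22, 39, 48], (0, 0, 0), [], [((0, 1, 2), 1), ((0, 1, 4), 48), ((0, 1, 6), 22), ((0, 1, 8), 9), ((0, 1, 12), 5), ((0, 2, 5), 19), ((0, 2, 9), 20), ((0, 2, 13), 21), ((1, 2, 4), 17), ((1, 2, 5), 39), ((1, 2, 9), 7), ((1, 2, 13), 3)], 1, [[-1, -1, -1, -2], [-2, -2, 0, -2], [-1, -1, -1, -2], [0, 0, 0, 0], [-1, -1, 1, -2], [-1, -1, 0, -2], [-1, -1, 1, -2], [-1, -1, 0, 0], [0, 0, 0, 0], [0, -1, -1, 2], [0, 0, 0, 0], [0, 1, -1, 0], [0, 0, 0, 0], [-1, 0, -1, 2], [0, 0, 0, 0], [1, 0, -1, 0]]⟩,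
    ⟨[39, 32, 45, 0], [1, 5, 7, 9, 11, 15, 17, 19, 20, 21, 29, 37], (0, 0, 0), [], [((0, 1, 2), 1), ((0, 1, 4), 37), ((0, 1, 6), 11), ((0, 1, 8), 9), ((0, 1, 12), 5), ((0, 1, 14), 29), ((0, 2, 5), 19), ((0, 2, 9), 20), ((0, 2, 13), 21), ((1, 2, 4), 17), ((1, 2, 9), 7), ((1, 2, 13), 15)], 1, [[-2, 1, -3, 2], [-2, 0, -2, 2], [0, -1, -1, -2], [0, 0, 0, 0], [-1, 0, 0, 0], [0, 0, -1, 0], [0, 0, 0, 0], [-1, 0, -1, 2], [0, 0, 0, 0], [0, -1, -1, 2], [0, 0, 0, 0], [0, 1, -1, 0], [0, 0, 0, 0], [-1, 0, -1, 2], [-1, 0, 0, 0], [0, 0, -1, 0]]⟩,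
    ⟨[32, 45, 0], [1, 3, 5, 7, 9, 11, 13, 15, 17, 19, 20, 21, 22, 24, 29, 31, 35, 37, 39, 41, 46, 48], (1, 2, 12), [(5, 110), (17, 111), (29, 112), (39, 113)], [], 0, []⟩,
    ⟨[22, 45, 0], [1, 3, 7, 11, 19, 20, 21, 29, 32, 35, 46, 47, 48], (0, 0, 0), [], [((0, 1, 2), 1), ((0, 1, 4), 48), ((0, 1, 8), 47), ((0, 1, 12), 46), ((0, 2, 5), 19), ((0, 2, 9), 20), ((0, 2, 13), 21), ((1, 2, 4), 35), ((1, 2, 5), 11), ((1, 2, 8), 32), ((1, 2, 9), 7), ((1, 2, 12), 29), ((1, 2, 13), 3)], 1, [[-1, -1, -6], [-3, -2, -4], [-2, -3, 0], [0, 0, 0], [-1, 0, -2], [-1, -1, 0], [0, 0, 0], [0, -1, 0], [-1, 0, -2], [-1, -1, 0], [0, 0, 0], [0, -1, 0], [-1, 0, -2], [-1, -1, 0], [0, 0, 0], [0, -1, 0]]⟩,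
    ⟨[24, 45, 0], [1, 5, 7, 13, 19, 20, 21, 31, 32, 37, 46, 48, 49], (0, 0, 0), [], [((0, 1, 2), 1), ((0, 1, 6), 46), ((0, 1, 8), 49), ((0, 1, 14), 48), ((0, 2, 5), 19), ((0, 2, 9), 20), ((0, 2, 13), 21), ((1, 2, 4), 13), ((1, 2, 5), 37), ((1, 2, 8), 32), ((1, 2, 9), 7), ((1, 2, 12), 5), ((1, 2, 13), 31)], 1, [[-1, -1, -6], [-3, -2, -4], [-2, -3, 0], [0, 0, 0], [0, 0, 0], [0, -1, 0], [-1, 0, -2], [-1, -1, 0], [-1, 0, -2], [-1, -1, 0], [0, 0, 0], [0, -1, 0], [0, 0, 0], [0, -1, 0], [-1, 0, -2], [-1, -1, 0]]⟩,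
    ⟨[46, 45, 0], [1, 5, 7, 11, 19, 20, 21, 22, 23, 24, 31, 32, 35], (0, 0, 0), [], [((0, 1, 2), 1), ((0, 1, 4), 24), ((0, 1, 8), 23), ((0, 1, 14), 22), ((0, 2, 5), 19), ((0, 2, 9), 20), ((0, 2, 13), 21), ((1, 2, 4), 35), ((1, 2, 5), 11), ((1, 2, 8), 32), ((1, 2, 9), 7), ((1, 2, 12), 5), ((1, 2, 13), 31)], 1, [[-1, -1, -2], [-3, -2, 2], [-2, -3, 2], [0, 0, 0], [-1, 0, 0], [-1, -1, 2], [0, 0, 0], [0, -1, 0], [-1, 0, 0], [-1, -1, 2], [0, 0, 0], [0, -1, 0], [0, 0, 0], [0, -1, 0], [-1, 0, 0], [-1, -1, 2]]⟩,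
    ⟨[48, 45, 0], [1, 3, 7, 13, 19, 20, 21, 22, 24, 25, 29, 32, 37], (0, 0, 0), [], [((0, 1, 2), 1), ((0, 1, 6), 22), ((0, 1, 8), 25), ((0, 1, 12), 24), ((0, 2, 5), 19), ((0, 2, 9), 20), ((0, 2, 13), 21), ((1, 2, 4), 13), ((1, 2, 5), 37), ((1, 2, 8), 32), ((1, 2, 9), 7), ((1, 2, 12), 29), ((1, 2, 13), 3)], 1, [[-1, -1, -2], [-3, -2, 2], [-2, -3, 2], [0, 0, 0], [0, 0, 0], [0, -1, 0], [-1, 0, 0], [-1, -1, 2], [-1, 0, 0], [-1, -1, 2], [0, 0, 0], [0, -1, 0], [-1, 0, 0], [-1, -1, 2], [0, 0, 0], [0, -1, 0]]⟩,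
    ⟨[45, 0], [1, 3, 5, 7, 9, 11, 13, 14, 15, 16, 17, 19, 20, 21, 22, 23, 24, 25, 29, 31, 32, 34, 35, 37, 38, 39, 40, 41, 46, 47, 48, 49], (0, 1, 10), [(7, 109), (32, 114), (22, 115), (24, 116), (46, 117), (48, 118)], [], 0, []⟩]

def tab5_3 : List Nd :=
  [⟨[0], [1, 2, 3, 4, 5, 6, 7, 8, 9, 10, 11, 12, 13, 14, 15, 16, 17, 18, 19, 20, 21, 22, 23, 24, 25, 26, 27, 28, 29, 30, 31, 32, 33, 34, 35, 36, 37, 38, 39, 40, 41, 42, 43, 44, 45, 46, 47, 48, 49], (0, 2, 4), [(11, 14), (13, 29), (20, 44), (21, 59), (35, 74), (37, 89), (44, 104), (45, 119)], [], 0, []⟩]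

def tab5 : List Nd := tab5_0 ++ (tab5_1 ++ (tab5_2 ++ (tab5_3)))

theorem ok5_0 : okPart R5 tab5 0 25 = true := by decide +kernel

theorem ok5_1 : okPart R5 tab5 25 25 = true := by decide +kernel

theorem ok5_2 : okPart R5 tab5 50 25 = true := by decide +kernel

theorem ok5_3 : okPart R5 tab5 75 25 = true := by decide +kernel

theorem ok5_4 : okPart R5 tab5 100 21 = true := by decide +kernel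

theorem len5 : tab5.length = 121 := by decide +kernel

theorem okT5 : okTab R5 tab5 := by
  intro i hi
  rw [len5] at hi
  by_cases h0 : i < 25
  · exact part_spec ok5_0 (by omega) (by omega)
  by_cases h1 : i < 50
  · exact part_spec ok5_1 (by omega) (by omega)
  by_cases h2 : i < 75
  · exact part_spec ok5_2 (by omega) (by omega)
  by_cases h3 : i < 100
  · exact part_spec ok5_3 (by omega) (by omega)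
  exact part_spec ok5_4 (by omega) (by omega)

theorem ok5 : okRoot R5 tab5 1 = true := by decide +kernel

theorem okR5 : chkR (R5.drop 1) I5 = true := by decide +kernel

end Pool.Agent.helper25.AG
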