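import Pool.Agent.helper25.AG.Tree

set_option autoImplicit false
set_option linter.unusedSectionVars false
set_option linter.unusedVariables false

/-!
# Project AG: pulling decomposition 6
-/

namespace Pool.Agent.helper25.AG

open Finset Pool.Agent.helper25.PV

def R6 : List (List ℤ) :=
  [[-3, -1, -1, 5, 1, 3, 3, 1, 1, 3, 3, 1, 1, 3, 3, 1],
    [0, 0, 0, 4, 0, 0, 0, 0, 0, 0, 0, 0, 0, 0, 0, 0],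
    [-2, 0, 0, 2, 0, 2, 2, 0, 0, 2, 2, 0, 2, 0, 0, 2],
    [-2, 0, 0, 2, 0, 2, 2, 0, 2, 0, 0, 2, 0, 2, 2, 0],
    [-2, 0, 0, 2, 2, 0, 0, 2, 0, 2, 2, 0, 0, 2, 2, 0],
    [0, 0, 0, 0, 0, 0, 0, 0, 0, 0, 0, 0, 0, 0, 4, 0],
    [0, 0, 0, 0, 0, 0, 0, 0, 0, 0, 0, 0, 0, 4, 0, 0],
    [0, 0, 0, 0, 0, 0, 0, 0, 0, 0, 4, 0, 0, 0, 0, 0],
    [0, 0, 0, 0, 0, 0, 0, 0, 0, 4, 0, 0, 0, 0, 0, 0],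
    [0, 0, 0, 0, 0, 0, 4, 0, 0, 0, 0, 0, 0, 0, 0, 0],
    [0, 0, 0, 0, 0, 4, 0, 0, 0, 0, 0, 0, 0, 0, 0, 0],
    [-1, -1, -1, 3, -1, 3, 3, 3, 1, 1, 1, 1, 1, 1, 1, 1],
    [-1, -1, -1, 3, 1, 1, 1, 1, -1, 3, 3, 3, 1, 1, 1, 1],
    [-1, -1, -1, 3, 1, 1, 1, 1, 1, 1, 1, 1, -1, 3, 3, 3],
    [-1, -1, -1, 3, 1, 1, 1, 1, 1, 1, 1, 1, 3, 3, 3, -1],
    [-1, -1, -1, 3, 1, 1, 1, 1, 3, 3, 3, -1, 1, 1, 1, 1],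
    [-1, -1, -1, 3, 3, 3, 3, -1, 1, 1, 1, 1, 1, 1, 1, 1],
    [-2, -2, -2, 6, 2, 2, 2, 2, 2, 2, 2, 2, 2, 2, 2, 2],
    [-2, -2, 0, 4, 0, 4, 2, 2, 0, 4, 2, 2, 2, 2, 4, 0],
    [-2, -2, 0, 4, 0, 4, 2, 2, 2, 2, 4, 0, 0, 4, 2, 2],
    [-2, -2, 0, 4, 2, 2, 4, 0, 0, 4, 2, 2, 0, 4, 2, 2],
    [-2, -2, 0, 4, 2, 2, 4, 0, 2, 2, 4, 0, 2, 2, 4, 0],
    [-2, 0, -2, 4, 0, 2, 4, 2, 0, 2, 4, 2, 2, 4, 2, 0],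
    [-2, 0, -2, 4, 0, 2, 4, 2, 2, 4, 2, 0, 0, 2, 4, 2],
    [-2, 0, -2, 4, 2, 4, 2, 0, 0, 2, 4, 2, 0, 2, 4, 2],
    [-2, 0, -2, 4, 2, 4, 2, 0, 2, 4, 2, 0, 2, 4, 2, 0],
    [0, -2, 0, 2, 0, 2, 0, 2, 0, 2, 0, 2, 0, 2, 0, 2],
    [0, -2, 0, 2, 0, 2, 0, 2, 2, 0, 2, 0, 2, 0, 2, 0],
    [0, -2, 0, 2, 2, 0, 2, 0, 0, 2, 0, 2, 2, 0, 2, 0],
    [0, -2, 0, 2, 2, 0, 2, 0, 2, 0, 2, 0, 0, 2, 0, 2],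
    [0, -2, 2, 0, 0, 2, 2, 0, 0, 2, 2, 0, 0, 2, 2, 0],
    [0, 0, -2, 2, 0, 0, 2, 2, 0, 0, 2, 2, 0, 0, 2, 2],
    [0, 0, -2, 2, 0, 0, 2, 2, 2, 2, 0, 0, 2, 2, 0, 0],
    [0, 0, -2, 2, 2, 2, 0, 0, 0, 0, 2, 2, 2, 2, 0, 0],
    [0, 0, -2, 2, 2, 2, 0, 0, 2, 2, 0, 0, 0, 0, 2, 2],
    [0, 2, -2, 0, 0, 2, 2, 0, 0, 2, 2, 0, 0, 2, 2, 0]]

def I6 : List (ℕ × Item) :=
  [(4, 0, 0, 1, 14, 2, 4),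
    (2, 2, 0, 1, 2, 4, 8),
    (2, 2, 0, 1, 2, 4, 9),
    (2, 2, 0, 1, 2, 5, 8),
    (4, 0, 0, 1, 2, 4, 9),
    (4, 0, 0, 1, 2, 4, 10),
    (4, 0, 0, 1, 2, 4, 13),
    (4, 0, 0, 1, 2, 4, 14),
    (4, 0, 0, 1, 2, 13, 4),
    (4, 0, 0, 1, 2, 14, 4),
    (1, 3, 0, 1, 2, 4, 8),
    (1, 3, 0, 1, 2, 8, 4),
    (1, 3, 0, 1, 2, 8, 12),
    (1, 3, 0, 1, 2, 8, 15),
    (1, 3, 0, 1, 2, 8, 7),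
    (1, 3, 0, 1, 2, 7, 8),
    (2, 5, 0, 1, 2, 4, 8),
    (2, 7, 0, 1, 2, 4, 8),
    (2, 7, 0, 1, 2, 4, 11),
    (2, 7, 0, 1, 2, 7, 8),
    (2, 7, 0, 1, 2, 7, 11),
    (2, 7, 0, 2, 1, 4, 8),
    (2, 7, 0, 2, 1, 4, 11),
    (2, 7, 0, 2, 1, 7, 8),
    (2, 7, 0, 2, 1, 7, 11),
    (2, 2, 1, 1, 3, 5, 9),
    (2, 2, 1, 1, 3, 5, 8),
    (2, 2, 1, 1, 3, 4, 9),
    (2, 2, 1, 1, 3, 4, 8),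
    (2, 2, 1, 1, 2, 5, 9),
    (2, 2, 1, 3, 1, 5, 9),
    (2, 2, 1, 3, 1, 5, 8),
    (2, 2, 1, 3, 1, 4, 9),
    (2, 2, 1, 3, 1, 4, 8),
    (2, 2, 1, 2, 1, 5, 9)]

def tab6_0 : List Nd :=
  [⟨[5, 17, 11, 0], [1, 2, 3, 4, 9, 10, 13, 14, 18, 23, 27, 31], (0, 0, 0), [], [((0, 1, 2), 1), ((0, 1, 4), 10), ((0, 1, 8), 23), ((0, 1, 10), 31), ((0, 1, 12), 14), ((0, 2, 4), 9), ((0, 2, 8), 27), ((0, 2, 9), 18), ((0, 2, 13), 13), ((1, 2, 4), 4), ((1, 2, 8), 3), ((1, 2, 12), 2)], 1, [[-2, -1, -2, -2], [-1, -1, -1, -2], [-1, -1, -1, -2], [0, 0, 0, 0], [0, 1, -1, -1], [0, 0, 0, 0], [0, 0, 0, 0], [0, 0, 1, -1], [-1, 0, -1, -1], [-1, 0, -1, -1], [-1, -1, -1, 1], [-1, 0, -1, -1], [0, 0, 0, -1], [-1, -1, 0, 0], [1, 0, 0, 0], [0, 0, 0, -1]]⟩,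
    ⟨[13, 17, 11, 0], [1, 2, 3, 4, 5, 6, 9, 10, 19, 23, 26, 31], (0, 0, 0), [], [((0, 1, 2), 1), ((0, 1, 4), 10), ((0, 1, 8), 23), ((0, 1, 10), 31), ((0, 1, 12), 6), ((0, 2, 4), 9), ((0, 2, 8), 19), ((0, 2, 9), 26), ((0, 2, 12), 5), ((1, 2, 4), 4), ((1, 2, 8), 3), ((1, 2, 12), 2)], 1, [[-2, 1, -2, -2], [-1, 0, -1, -2], [-1, 0, -1, -2], [0, 0, 0, 0], [0, 1, -1, -1], [0, 0, 0, 0], [0, 0, 0, 0], [0, 0, 1, -1], [-1, 1, -1, -2], [-1, 0, -1, 0], [-1, 0, -1, 0], [-1, 0, -1, 0], [-1, 1, 0, -1], [0, 0, 0, 0], [0, 0, 0, 0], [1, 0, 0, -1]]⟩,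
    ⟨[23, 17, 11, 0], [1, 2, 3, 4, 5, 8, 9, 10, 13, 15, 31, 32], (0, 0, 0), [], [((0, 1, 2), 1), ((0, 1, 4), 10), ((0, 1, 10), 31), ((0, 1, 12), 32), ((0, 2, 4), 9), ((0, 2, 8), 15), ((0, 2, 9), 8), ((0, 2, 12), 5), ((0, 2, 13), 13), ((1, 2, 4), 4), ((1, 2, 8), 3), ((1, 2, 12), 2)], 1, [[-2, -1, 0, 0], [0, -1, -1, -1], [-2, -1, 1, -1], [0, 0, 0, 0], [0, 1, -1, -1], [0, 0, 0, 0], [0, 0, 0, 0], [0, 0, 1, -1], [0, 0, 0, -1], [0, 0, 0, 0], [-1, -1, 0, 1], [-1, 0, 0, 0], [-1, 0, 0, 0], [-1, -1, 0, 1], [0, 0, 0, 0], [0, 0, 0, -1]]⟩,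
    ⟨[31, 17, 11, 0], [1, 2, 3, 4, 5, 7, 9, 10, 12, 13, 22, 23], (0, 0, 0), [], [((0, 1, 2), 1), ((0, 1, 4), 10), ((0, 1, 8), 23), ((0, 1, 12), 22), ((0, 2, 4), 9), ((0, 2, 8), 7), ((0, 2, 9), 12), ((0, 2, 12), 5), ((0, 2, 13), 13), ((1, 2, 4), 4), ((1, 2, 8), 3), ((1, 2, 12), 2)], 1, [[-2, 1, 0, -4], [0, 0, -1, -3], [-2, 0, 1, -3], [0, 0, 0, 0], [0, 1, -1, -1], [0, 0, 0, 0], [0, 0, 0, 0], [0, 0, 1, -1], [-1, 1, 0, -2], [-1, 0, 0, -1], [0, 0, 0, 0], [0, 0, 0, -1], [-1, 1, 0, -2], [-1, 0, 0, -1], [0, 0, 0, 0], [0, 0, 0, -1]]⟩,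
    ⟨[17, 11, 0], [1, 2, 3, 4, 5, 6, 7, 8, 9, 10, 12, 13, 14, 15, 18, 19, 22, 23, 26, 27, 31, 32], (0, 1, 14), [(5, 0), (13, 1), (23, 2), (31, 3)], [], 0, []⟩,
    ⟨[14, 11, 0], [1, 2, 3, 4, 5, 6, 9, 10, 17, 18, 22, 27, 32], (0, 0, 0), [], [((0, 1, 2), 1), ((0, 1, 4), 10), ((0, 1, 8), 32), ((0, 1, 10), 22), ((0, 1, 14), 5), ((0, 2, 4), 9), ((0, 2, 8), 27), ((0, 2, 9), 18), ((0, 2, 13), 6), ((0, 4, 11), 17), ((1, 2, 4), 4), ((1, 2, 8), 3), ((1, 2, 12), 2)], 1, [[-2, -2, -2], [-1, -1, -2], [-1, -1, -2], [0, 0, 0], [0, -1, -1], [0, 0, 0], [0, 0, 0], [0, 1, -1], [-1, -1, 0], [-1, -1, 0], [-1, -1, 0], [-1, -1, -2], [1, 0, -1], [0, 0, 0], [0, 0, 0], [-1, 0, -1]]⟩,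
    ⟨[15, 11, 0], [1, 2, 3, 4, 7, 8, 9, 10, 17, 19, 23, 27, 32], (0, 0, 0), [], [((0, 1, 2), 1), ((0, 1, 4), 10), ((0, 1, 10), 7), ((0, 1, 12), 32), ((0, 1, 14), 23), ((0, 2, 4), 9), ((0, 2, 9), 8), ((0, 2, 12), 27), ((0, 2, 13), 19), ((0, 4, 11), 17), ((1, 2, 4), 4), ((1, 2, 8), 3), ((1, 2, 12), 2)], 1, [[-2, -2, -2], [-1, -1, -2], [-1, -1, -2], [0, 0, 0], [0, -1, -1], [0, 0, 0], [0, 0, 0], [0, 1, -1], [1, 0, -1], [0, 0, 0], [0, 0, 0], [-1, 0, -1], [-1, -1, 0], [-1, -1, 0], [-1, -1, 0], [-1, -1, -2]]⟩,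
    ⟨[27, 11, 0], [1, 2, 3, 4, 5, 7, 9, 10, 14, 15, 17, 18, 19], (0, 0, 0), [], [((0, 1, 2), 1), ((0, 1, 4), 10), ((0, 1, 8), 15), ((0, 1, 10), 7), ((0, 1, 12), 14), ((0, 1, 14), 5), ((0, 2, 4), 9), ((0, 2, 9), 18), ((0, 2, 13), 19), ((0, 4, 11), 17), ((1, 2, 4), 4), ((1, 2, 8), 3), ((1, 2, 12), 2)], 1, [[-2, 0, -4], [-2, 1, -3], [0, -1, -3], [0, 0, 0], [0, -1, -1], [0, 0, 0], [0, 0, 0], [0, 1, -1], [0, 0, -1], [-1, 0, -1], [0, 0, 0], [-1, 0, -2], [0, 0, -1], [-1, 0, -1], [0, 0, 0], [-1, 0, -2]]⟩,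
    ⟨[32, 11, 0], [1, 2, 3, 4, 6, 8, 9, 10, 14, 15, 17, 22, 23], (0, 0, 0), [], [((0, 1, 2), 1), ((0, 1, 4), 10), ((0, 1, 10), 22), ((0, 1, 14), 23), ((0, 2, 4), 9), ((0, 2, 8), 15), ((0, 2, 9), 8), ((0, 2, 12), 14), ((0, 2, 13), 6), ((0, 4, 11), 17), ((1, 2, 4), 4), ((1, 2, 8), 3), ((1, 2, 12), 2)], 1, [[-2, 0, -4], [0, -1, -3], [-2, 1, -3], [0, 0, 0], [0, -1, -1], [0, 0, 0], [0, 0, 0], [0, 1, -1], [0, 0, -1], [0, 0, 0], [-1, 0, -1], [-1, 0, -2], [0, 0, -1], [0, 0, 0], [-1, 0, -1], [-1, 0, -2]]⟩,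
    ⟨[11, 0], [1, 2, 3, 4, 5, 6, 7, 8, 9, 10, 12, 13, 14, 15, 17, 18, 19, 22, 23, 26, 27, 31, 32], (0, 4, 8), [(17, 4), (14, 5), (15, 6), (27, 7), (32, 8)], [], 0, []⟩,
    ⟨[8, 17, 13, 0], [1, 2, 3, 4, 5, 6, 12, 15, 20, 23, 26, 34], (0, 0, 0), [], [((0, 1, 2), 1), ((0, 1, 4), 34), ((0, 1, 6), 23), ((0, 1, 10), 12), ((0, 1, 12), 6), ((0, 2, 4), 20), ((0, 2, 5), 26), ((0, 2, 8), 15), ((0, 2, 12), 5), ((1, 2, 4), 4), ((1, 2, 8), 3), ((1, 2, 12), 2)], 1, [[-2, -1, -2, -2], [-1, -1, -1, -2], [-1, -1, -1, -2], [0, 0, 0, 0], [-1, 0, -1, -1], [-1, -1, -1, 1], [-1, 0, -1, -1], [-1, 0, -1, -1], [0, 0, 0, -1], [1, 0, 0, 0], [-1, -1, 0, 0], [0, 0, 0, -1], [0, 1, -1, -1], [0, 0, 0, 0], [0, 0, 0, 0], [0, 0, 1, -1]]⟩,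
    ⟨[12, 17, 13, 0], [1, 2, 3, 4, 5, 6, 7, 8, 20, 24, 26, 31], (0, 0, 0), [], [((0, 1, 2), 1), ((0, 1, 4), 24), ((0, 1, 6), 31), ((0, 1, 8), 8), ((0, 1, 12), 6), ((0, 2, 4), 20), ((0, 2, 5), 26), ((0, 2, 8), 7), ((0, 2, 12), 5), ((1, 2, 4), 4), ((1, 2, 8), 3), ((1, 2, 12), 2)], 1, [[-2, 1, -2, -2], [-1, 0, -1, -2], [-1, 0, -1, -2], [0, 0, 0, 0], [-1, 1, -1, -2], [-1, 0, -1, 0], [-1, 0, -1, 0], [-1, 0, -1, 0], [-1, 1, 0, -1], [0, 0, 0, 0], [0, 0, 0, 0], [1, 0, 0, -1], [0, 1, -1, -1], [0, 0, 0, 0], [0, 0, 0, 0], [0, 0, 1, -1]]⟩,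
    ⟨[20, 17, 13, 0], [1, 2, 3, 4, 5, 6, 8, 9, 12, 16, 26, 29], (0, 0, 0), [], [((0, 1, 2), 1), ((0, 1, 4), 16), ((0, 1, 6), 9), ((0, 1, 8), 8), ((0, 1, 10), 12), ((0, 1, 12), 6), ((0, 2, 5), 26), ((0, 2, 8), 29), ((0, 2, 12), 5), ((1, 2, 4), 4), ((1, 2, 8), 3), ((1, 2, 12), 2)], 1, [[-2, -1, 0, 0], [-2, -1, 1, -1], [0, -1, -1, -1], [0, 0, 0, 0], [0, 0, 0, -1], [-1, -1, 0, 1], [0, 0, 0, 0], [-1, 0, 0, 0], [-1, 0, 0, 0], [0, 0, 0, 0], [-1, -1, 0, 1], [0, 0, 0, -1], [0, 1, -1, -1], [0, 0, 0, 0], [0, 0, 0, 0], [0, 0, 1, -1]]⟩,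
    ⟨[26, 17, 13, 0], [1, 2, 3, 4, 5, 6, 8, 10, 11, 12, 19, 20], (0, 0, 0), [], [((0, 1, 2), 1), ((0, 1, 4), 10), ((0, 1, 6), 11), ((0, 1, 8), 8), ((0, 1, 10), 12), ((0, 1, 12), 6), ((0, 2, 4), 20), ((0, 2, 8), 19), ((0, 2, 12), 5), ((1, 2, 4), 4), ((1, 2, 8), 3), ((1, 2, 12), 2)], 1, [[-2, 1, 0, -4], [-2, 0, 1, -3], [0, 0, -1, -3], [0, 0, 0, 0], [-1, 1, 0, -2], [0, 0, 0, 0], [-1, 0, 0, -1], [0, 0, 0, -1], [-1, 1, 0, -2], [0, 0, 0, 0], [-1, 0, 0, -1], [0, 0, 0, -1], [0, 1, -1, -1], [0, 0, 0, 0], [0, 0, 0, 0], [0, 0, 1, -1]]⟩,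
    ⟨[17, 13, 0], [1, 2, 3, 4, 5, 6, 7, 8, 9, 10, 11, 12, 15, 16, 19, 20, 23, 24, 26, 29, 31, 34], (0, 2, 9), [(8, 10), (12, 11), (20, 12), (26, 13)], [], 0, []⟩,
    ⟨[15, 13, 0], [1, 2, 3, 4, 5, 6, 7, 8, 17, 19, 23, 29, 34], (0, 0, 0), [], [((0, 1, 2), 1), ((0, 1, 4), 34), ((0, 1, 6), 23), ((0, 1, 10), 7), ((0, 1, 12), 6), ((0, 2, 4), 29), ((0, 2, 5), 19), ((0, 2, 9), 8), ((0, 2, 12), 5), ((0, 7, 11), 17), ((1, 2, 4), 4), ((1, 2, 8), 3), ((1, 2, 12), 2)], 1, [[-2, -2, -2], [-1, -1, -2], [-1, -1, -2], [0, 0, 0], [-1, -1, 0], [-1, -1, 0], [-1, -1, 0], [-1, -1, -2], [1, 0, -1], [0, 0, 0], [0, 0, 0], [-1, 0, -1], [0, -1, -1], [0, 0, 0], [0, 0, 0], [0, 1, -1]]⟩,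
    ⟨[16, 13, 0], [1, 2, 3, 4, 5, 6, 9, 10, 17, 20, 24, 29, 34], (0, 0, 0), [], [((0, 1, 2), 1), ((0, 1, 6), 9), ((0, 1, 8), 34), ((0, 1, 10), 24), ((0, 1, 12), 6), ((0, 2, 5), 10), ((0, 2, 8), 29), ((0, 2, 9), 20), ((0, 2, 12), 5), ((0, 7, 11), 17), ((1, 2, 4), 4), ((1, 2, 8), 3), ((1, 2, 12), 2)], 1, [[-2, -2, -2], [-1, -1, -2], [-1, -1, -2], [0, 0, 0], [1, 0, -1], [0, 0, 0], [0, 0, 0], [-1, 0, -1], [-1, -1, 0], [-1, -1, 0], [-1, -1, 0], [-1, -1, -2], [0, -1, -1], [0, 0, 0], [0, 0, 0], [0, 1, -1]]⟩,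
    ⟨[29, 13, 0], [1, 2, 3, 4, 5, 6, 7, 9, 15, 16, 17, 19, 20], (0, 0, 0), [], [((0, 1, 2), 1), ((0, 1, 4), 16), ((0, 1, 6), 9), ((0, 1, 8), 15), ((0, 1, 10), 7), ((0, 1, 12), 6), ((0, 2, 5), 19), ((0, 2, 9), 20), ((0, 2, 12), 5), ((0, 7, 11), 17), ((1, 2, 4), 4), ((1, 2, 8), 3), ((1, 2, 12), 2)], 1, [[-2, 0, -4], [-2, 1, -3], [0, -1, -3], [0, 0, 0], [0, 0, -1], [-1, 0, -1], [0, 0, 0], [-1, 0, -2], [0, 0, -1], [-1, 0, -1], [0, 0, 0], [-1, 0, -2], [0, -1, -1], [0, 0, 0], [0, 0, 0], [0, 1, -1]]⟩,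
    ⟨[34, 13, 0], [1, 2, 3, 4, 5, 6, 8, 10, 15, 16, 17, 23, 24], (0, 0, 0), [], [((0, 1, 2), 1), ((0, 1, 6), 23), ((0, 1, 10), 24), ((0, 1, 12), 6), ((0, 2, 4), 16), ((0, 2, 5), 10), ((0, 2, 8), 15), ((0, 2, 9), 8), ((0, 2, 12), 5), ((0, 7, 11), 17), ((1, 2, 4), 4), ((1, 2, 8), 3), ((1, 2, 12), 2)], 1, [[-2, 0, -4], [0, -1, -3], [-2, 1, -3], [0, 0, 0], [0, 0, -1], [0, 0, 0], [-1, 0, -1], [-1, 0, -2], [0, 0, -1], [0, 0, 0], [-1, 0, -1], [-1, 0, -2], [0, -1, -1], [0, 0, 0], [0, 0, 0], [0, 1, -1]]⟩,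
    ⟨[13, 0], [1, 2, 3, 4, 5, 6, 7, 8, 9, 10, 11, 12, 15, 16, 17, 19, 20, 23, 24, 26, 29, 31, 34], (0, 4, 8), [(17, 14), (15, 15), (16, 16), (29, 17), (34, 18)], [], 0, []⟩,
    ⟨[5, 17, 15, 0], [1, 2, 3, 4, 7, 8, 13, 14, 21, 23, 27, 34], (0, 0, 0), [], [((0, 1, 2), 1), ((0, 1, 4), 34), ((0, 1, 6), 23), ((0, 1, 10), 7), ((0, 1, 12), 14), ((0, 2, 4), 21), ((0, 2, 5), 27), ((0, 2, 9), 8), ((0, 2, 13), 13), ((1, 2, 4), 4), ((1, 2, 8), 3), ((1, 2, 12), 2)], 1, [[-2, -1, -2, -2], [-1, -1, -1, -2], [-1, -1, -1, -2], [0, 0, 0, 0], [-1, 0, -1, -1], [-1, -1, -1, 1], [-1, 0, -1, -1], [-1, 0, -1, -1], [0, 0, 1, -1], [0, 0, 0, 0], [0, 0, 0, 0], [0, 1, -1, -1], [0, 0, 0, -1], [-1, -1, 0, 0], [1, 0, 0, 0], [0, 0, 0, -1]]⟩,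
    ⟨[13, 17, 15, 0], [1, 2, 3, 4, 5, 6, 7, 8, 19, 23, 29, 34], (0, 0, 0), [], [((0, 1, 2), 1), ((0, 1, 4), 34), ((0, 1, 6), 23), ((0, 1, 10), 7), ((0, 1, 12), 6), ((0, 2, 4), 29), ((0, 2, 5), 19), ((0, 2, 9), 8), ((0, 2, 12), 5), ((1, 2, 4), 4), ((1, 2, 8), 3), ((1, 2, 12), 2)], 1, [[-2, 1, -2, -2], [-1, 0, -1, -2], [-1, 0, -1, -2], [0, 0, 0, 0], [-1, 0, -1, 0], [-1, 0, -1, 0], [-1, 0, -1, 0], [-1, 1, -1, -2], [0, 0, 1, -1], [0, 0, 0, 0], [0, 0, 0, 0], [0, 1, -1, -1], [-1, 1, 0, -1], [0, 0, 0, 0], [0, 0, 0, 0], [1, 0, 0, -1]]⟩,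
    ⟨[23, 17, 15, 0], [1, 2, 3, 4, 5, 7, 8, 9, 11, 13, 32, 34], (0, 0, 0), [], [((0, 1, 2), 1), ((0, 1, 4), 34), ((0, 1, 10), 7), ((0, 1, 12), 32), ((0, 2, 4), 9), ((0, 2, 5), 11), ((0, 2, 9), 8), ((0, 2, 12), 5), ((0, 2, 13), 13), ((1, 2, 4), 4), ((1, 2, 8), 3), ((1, 2, 12), 2)], 1, [[-2, -1, 0, 0], [0, -1, -1, -1], [-2, -1, 1, -1], [0, 0, 0, 0], [-1, 0, 0, 0], [-1, -1, 0, 1], [0, 0, 0, 0], [0, 0, 0, -1], [0, 0, 1, -1], [0, 0, 0, 0], [0, 0, 0, 0], [0, 1, -1, -1], [-1, 0, 0, 0], [-1, -1, 0, 1], [0, 0, 0, 0], [0, 0, 0, -1]]⟩,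
    ⟨[34, 17, 15, 0], [1, 2, 3, 4, 5, 7, 8, 10, 13, 16, 23, 25], (0, 0, 0), [], [((0, 1, 2), 1), ((0, 1, 6), 23), ((0, 1, 10), 7), ((0, 1, 12), 25), ((0, 2, 4), 16), ((0, 2, 5), 10), ((0, 2, 9), 8), ((0, 2, 12), 5), ((0, 2, 13), 13), ((1, 2, 4), 4), ((1, 2, 8), 3), ((1, 2, 12), 2)], 1, [[-2, 1, 0, -4], [0, 0, -1, -3], [-2, 0, 1, -3], [0, 0, 0, 0], [0, 0, 0, -1], [0, 0, 0, 0], [-1, 0, 0, -1], [-1, 1, 0, -2], [0, 0, 1, -1], [0, 0, 0, 0], [0, 0, 0, 0], [0, 1, -1, -1], [-1, 1, 0, -2], [-1, 0, 0, -1], [0, 0, 0, 0], [0, 0, 0, -1]]⟩,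
    ⟨[17, 15, 0], [1, 2, 3, 4, 5, 6, 7, 8, 9, 10, 11, 13, 14, 16, 19, 21, 23, 25, 27, 29, 32, 34], (0, 1, 14), [(5, 20), (13, 21), (23, 22), (34, 23)], [], 0, []⟩,
    ⟨[13, 15, 0], [1, 2, 3, 4, 5, 6, 7, 8, 17, 19, 23, 29, 34], (0, 0, 0), [], [((0, 1, 2), 1), ((0, 1, 4), 34), ((0, 1, 6), 23), ((0, 1, 10), 7), ((0, 1, 12), 6), ((0, 2, 4), 29), ((0, 2, 5), 19), ((0, 2, 9), 8), ((0, 2, 12), 5), ((0, 7, 11), 17), ((1, 2, 4), 4), ((1, 2, 8), 3), ((1, 2, 12), 2)], 1, [[-2, -2, -2], [-1, -1, -2], [-1, -1, -2], [0, 0, 0], [-1, -1, 0], [-1, -1, 0], [-1, -1, 0], [-1, -1, -2], [0, 1, -1], [0, 0, 0], [0, 0, 0], [0, -1, -1], [-1, 0, -1], [0, 0, 0], [0, 0, 0], [1, 0, -1]]⟩,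
    ⟨[16, 15, 0], [1, 2, 3, 4, 7, 8, 9, 10, 17, 21, 25, 29, 34], (0, 0, 0), [], [((0, 1, 2), 1), ((0, 1, 6), 9), ((0, 1, 10), 7), ((0, 1, 12), 25), ((0, 1, 14), 34), ((0, 2, 5), 10), ((0, 2, 9), 8), ((0, 2, 12), 21), ((0, 2, 13), 29), ((0, 7, 11), 17), ((1, 2, 4), 4), ((1, 2, 8), 3), ((1, 2, 12), 2)], 1, [[-2, -2, -2], [-1, -1, -2], [-1, -1, -2], [0, 0, 0], [1, 0, -1], [0, 0, 0], [0, 0, 0], [-1, 0, -1], [0, 1, -1], [0, 0, 0], [0, 0, 0], [0, -1, -1], [-1, -1, -2], [-1, -1, 0], [-1, -1, 0], [-1, -1, 0]]⟩,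
    ⟨[29, 15, 0], [1, 2, 3, 4, 6, 7, 8, 9, 13, 16, 17, 19, 21], (0, 0, 0), [], [((0, 1, 2), 1), ((0, 1, 4), 16), ((0, 1, 6), 9), ((0, 1, 10), 7), ((0, 1, 12), 6), ((0, 1, 14), 13), ((0, 2, 5), 19), ((0, 2, 9), 8), ((0, 2, 12), 21), ((0, 7, 11), 17), ((1, 2, 4), 4), ((1, 2, 8), 3), ((1, 2, 12), 2)], 1, [[-2, 0, -4], [-2, 1, -3], [0, -1, -3], [0, 0, 0], [0, 0, -1], [-1, 0, -1], [0, 0, 0], [-1, 0, -2], [0, 1, -1], [0, 0, 0], [0, 0, 0], [0, -1, -1], [-1, 0, -2], [0, 0, 0], [-1, 0, -1], [0, 0, -1]]⟩,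
    ⟨[34, 15, 0], [1, 2, 3, 4, 5, 7, 8, 10, 13, 16, 17, 23, 25], (0, 0, 0), [], [((0, 1, 2), 1), ((0, 1, 6), 23), ((0, 1, 10), 7), ((0, 1, 12), 25), ((0, 2, 4), 16), ((0, 2, 5), 10), ((0, 2, 9), 8), ((0, 2, 12), 5), ((0, 2, 13), 13), ((0, 7, 11), 17), ((1, 2, 4), 4), ((1, 2, 8), 3), ((1, 2, 12), 2)], 1, [[-2, 0, -4], [0, -1, -3], [-2, 1, -3], [0, 0, 0], [0, 0, -1], [0, 0, 0], [-1, 0, -1], [-1, 0, -2], [0, 1, -1], [0, 0, 0], [0, 0, 0], [0, -1, -1], [-1, 0, -2], [-1, 0, -1], [0, 0, 0], [0, 0, -1]]⟩,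
    ⟨[15, 0], [1, 2, 3, 4, 5, 6, 7, 8, 9, 10, 11, 13, 14, 16, 17, 19, 21, 23, 25, 27, 29, 32, 34], (0, 4, 11), [(17, 24), (13, 25), (16, 26), (29, 27), (34, 28)], [], 0, []⟩,
    ⟨[8, 5, 17, 0], [1, 2, 3, 4, 12, 13, 14, 15, 18, 23, 28, 34], (0, 0, 0), [], [((0, 1, 2), 1), ((0, 1, 4), 34), ((0, 1, 6), 23), ((0, 1, 10), 12), ((0, 1, 12), 14), ((0, 2, 4), 28), ((0, 2, 5), 18), ((0, 2, 8), 15), ((0, 2, 13), 13), ((1, 2, 4), 4), ((1, 2, 8), 3), ((1, 2, 12), 2)], 1, [[-2, -2, -3, -2], [-1, -1, -2, -2], [-1, -1, -2, -2], [0, 0, 0, 0], [-1, -1, -1, 0], [-1, -1, -1, 0], [-1, -1, -1, 0], [-1, -1, 0, -2], [0, 0, 0, -1], [1, 0, 0, 0], [-1, 0, -1, 0], [0, 0, 0, -1], [0, 0, 0, -1], [0, -1, -1, 0], [0, 1, 0, 0], [0, 0, 0, -1]]⟩,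
    ⟨[12, 5, 17, 0], [1, 2, 3, 4, 7, 8, 13, 14, 18, 24, 28, 31], (0, 0, 0), [], [((0, 1, 2), 1), ((0, 1, 4), 24), ((0, 1, 6), 31), ((0, 1, 8), 8), ((0, 1, 12), 14), ((0, 2, 4), 28), ((0, 2, 5), 18), ((0, 2, 8), 7), ((0, 2, 13), 13), ((1, 2, 4), 4), ((1, 2, 8), 3), ((1, 2, 12), 2)], 1, [[-2, -2, -1, -2], [-1, -1, -1, -2], [-1, -1, -1, -2], [0, 0, 0, 0], [-1, -1, 0, -1], [-1, -1, 0, -1], [-1, -1, -1, 1], [-1, -1, 0, -1], [-1, 0, 1, -1], [0, 0, 0, 0], [0, 0, 0, 0], [1, 0, 0, -1], [0, 0, 0, -1], [0, -1, -1, 0], [0, 1, 0, 0], [0, 0, 0, -1]]⟩,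
    ⟨[18, 5, 17, 0], [1, 2, 3, 4, 8, 10, 11, 12, 13, 14, 27, 28], (0, 0, 0), [], [((0, 1, 2), 1), ((0, 1, 4), 10), ((0, 1, 6), 11), ((0, 1, 8), 8), ((0, 1, 10), 12), ((0, 1, 12), 14), ((0, 2, 4), 28), ((0, 2, 8), 27), ((0, 2, 13), 13), ((1, 2, 4), 4), ((1, 2, 8), 3), ((1, 2, 12), 2)], 1, [[-2, 0, -2, 0], [-2, 1, -1, -1], [0, -1, -2, -1], [0, 0, 0, 0], [-1, 0, 0, 0], [0, 0, 0, 0], [-1, 0, -1, 1], [0, 0, 0, -1], [-1, 0, 0, 0], [0, 0, 0, 0], [-1, 0, -1, 1], [0, 0, 0, -1], [0, 0, 0, -1], [0, -1, -1, 0], [0, 1, 0, 0], [0, 0, 0, -1]]⟩,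
    ⟨[28, 5, 17, 0], [1, 2, 3, 4, 8, 9, 12, 13, 14, 16, 18, 21], (0, 0, 0), [], [((0, 1, 2), 1), ((0, 1, 4), 16), ((0, 1, 6), 9), ((0, 1, 8), 8), ((0, 1, 10), 12), ((0, 1, 12), 14), ((0, 2, 5), 18), ((0, 2, 8), 21), ((0, 2, 13), 13), ((1, 2, 4), 4), ((1, 2, 8), 3), ((1, 2, 12), 2)], 1, [[-2, 0, 0, -4], [-2, 1, 0, -3], [0, -1, -1, -3], [0, 0, 0, 0], [0, 0, 0, -1], [-1, 0, 0, -1], [0, 0, 0, 0], [-1, 0, 1, -2], [-1, 0, 1, -2], [0, 0, 0, 0], [-1, 0, 0, -1], [0, 0, 0, -1], [0, 0, 0, -1], [0, -1, -1, 0], [0, 1, 0, 0], [0, 0, 0, -1]]⟩,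
    ⟨[5, 17, 0], [1, 2, 3, 4, 7, 8, 9, 10, 11, 12, 13, 14, 15, 16, 18, 21, 23, 24, 27, 28, 31, 34], (0, 2, 9), [(8, 30), (12, 31), (18, 32), (28, 33)], [], 0, []⟩,
    ⟨[8, 13, 17, 0], [1, 2, 3, 4, 5, 6, 12, 15, 20, 23, 26, 34], (0, 0, 0), [], [((0, 1, 2), 1), ((0, 1, 4), 34), ((0, 1, 6), 23), ((0, 1, 10), 12), ((0, 1, 12), 6), ((0, 2, 4), 20), ((0, 2, 5), 26), ((0, 2, 8), 15), ((0, 2, 12), 5), ((1, 2, 4), 4), ((1, 2, 8), 3), ((1, 2, 12), 2)], 1, [[-2, -2, -1, -2], [-1, -1, -1, -2], [-1, -1, -1, -2], [0, 0, 0, 0], [-1, -1, 0, -1], [-1, -1, -1, 1], [-1, -1, 0, -1], [-1, -1, 0, -1], [0, 0, 0, -1], [1, 0, 0, 0], [-1, 0, -1, 0], [0, 0, 0, -1], [0, -1, 1, -1], [0, 0, 0, 0], [0, 0, 0, 0], [0, 1, 0, -1]]⟩,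
    ⟨[12, 13, 17, 0], [1, 2, 3, 4, 5, 6, 7, 8, 20, 24, 26, 31], (0, 0, 0), [], [((0, 1, 2), 1), ((0, 1, 4), 24), ((0, 1, 6), 31), ((0, 1, 8), 8), ((0, 1, 12), 6), ((0, 2, 4), 20), ((0, 2, 5), 26), ((0, 2, 8), 7), ((0, 2, 12), 5), ((1, 2, 4), 4), ((1, 2, 8), 3), ((1, 2, 12), 2)], 1, [[-2, -2, 1, -2], [-1, -1, 0, -2], [-1, -1, 0, -2], [0, 0, 0, 0], [-1, -1, 1, -2], [-1, -1, 0, 0], [-1, -1, 0, 0], [-1, -1, 0, 0], [-1, 0, 1, -1], [0, 0, 0, 0], [0, 0, 0, 0], [1, 0, 0, -1], [0, -1, 1, -1], [0, 0, 0, 0], [0, 0, 0, 0], [0, 1, 0, -1]]⟩,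
    ⟨[20, 13, 17, 0], [1, 2, 3, 4, 5, 6, 8, 9, 12, 16, 26, 29], (0, 0, 0), [], [((0, 1, 2), 1), ((0, 1, 4), 16), ((0, 1, 6), 9), ((0, 1, 8), 8), ((0, 1, 10), 12), ((0, 1, 12), 6), ((0, 2, 5), 26), ((0, 2, 8), 29), ((0, 2, 12), 5), ((1, 2, 4), 4), ((1, 2, 8), 3), ((1, 2, 12), 2)], 1, [[-2, 0, -1, 0], [-2, 1, -1, -1], [0, -1, -1, -1], [0, 0, 0, 0], [0, 0, 0, -1], [-1, 0, -1, 1], [0, 0, 0, 0], [-1, 0, 0, 0], [-1, 0, 0, 0], [0, 0, 0, 0], [-1, 0, -1, 1], [0, 0, 0, -1], [0, -1, 1, -1], [0, 0, 0, 0], [0, 0, 0, 0], [0, 1, 0, -1]]⟩,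
    ⟨[26, 13, 17, 0], [1, 2, 3, 4, 5, 6, 8, 10, 11, 12, 19, 20], (0, 0, 0), [], [((0, 1, 2), 1), ((0, 1, 4), 10), ((0, 1, 6), 11), ((0, 1, 8), 8), ((0, 1, 10), 12), ((0, 1, 12), 6), ((0, 2, 4), 20), ((0, 2, 8), 19), ((0, 2, 12), 5), ((1, 2, 4), 4), ((1, 2, 8), 3), ((1, 2, 12), 2)], 1, [[-2, 0, 1, -4], [-2, 1, 0, -3], [0, -1, 0, -3], [0, 0, 0, 0], [-1, 0, 1, -2], [0, 0, 0, 0], [-1, 0, 0, -1], [0, 0, 0, -1], [-1, 0, 1, -2], [0, 0, 0, 0], [-1, 0, 0, -1], [0, 0, 0, -1], [0, -1, 1, -1], [0, 0, 0, 0], [0, 0, 0, 0], [0, 1, 0, -1]]⟩,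
    ⟨[13, 17, 0], [1, 2, 3, 4, 5, 6, 7, 8, 9, 10, 11, 12, 15, 16, 19, 20, 23, 24, 26, 29, 31, 34], (0, 2, 9), [(8, 35), (12, 36), (20, 37), (26, 38)], [], 0, []⟩]

def tab6_1 : List Nd :=
  [⟨[23, 17, 0], [1, 2, 3, 4, 5, 8, 9, 11, 13, 15, 31, 32, 34], (0, 0, 0), [], [((0, 1, 2), 1), ((0, 1, 4), 34), ((0, 1, 10), 31), ((0, 1, 12), 32), ((0, 2, 4), 9), ((0, 2, 5), 11), ((0, 2, 8), 15), ((0, 2, 9), 8), ((0, 2, 12), 5), ((0, 2, 13), 13), ((1, 2, 4), 4), ((1, 2, 8), 3), ((1, 2, 12), 2)], 1, [[-3, -2, 1], [-1, -2, 0], [-2, -1, -1], [0, 0, 0], [-1, 0, 0], [-1, -1, 1], [0, 0, 0], [0, 0, -1], [0, 0, -1], [0, 0, 0], [-1, -1, 1], [-1, 0, 0], [-1, 0, 0], [-1, -1, 1], [0, 0, 0], [0, 0, -1]]⟩,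
    ⟨[24, 17, 0], [1, 2, 3, 4, 5, 7, 10, 12, 13, 16, 31, 33, 34], (0, 0, 0), [], [((0, 1, 2), 1), ((0, 1, 6), 31), ((0, 1, 8), 34), ((0, 1, 12), 33), ((0, 2, 4), 16), ((0, 2, 5), 10), ((0, 2, 8), 7), ((0, 2, 9), 12), ((0, 2, 12), 5), ((0, 2, 13), 13), ((1, 2, 4), 4), ((1, 2, 8), 3), ((1, 2, 12), 2)], 1, [[-3, -2, 1], [-1, -2, 0], [-2, -1, -1], [0, 0, 0], [0, 0, -1], [0, 0, 0], [-1, -1, 1], [-1, 0, 0], [-1, 0, 0], [-1, -1, 1], [0, 0, 0], [0, 0, -1], [-1, 0, 0], [-1, -1, 1], [0, 0, 0], [0, 0, -1]]⟩,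
    ⟨[31, 17, 0], [1, 2, 3, 4, 5, 7, 9, 11, 12, 13, 22, 23, 24], (0, 0, 0), [], [((0, 1, 2), 1), ((0, 1, 4), 24), ((0, 1, 8), 23), ((0, 1, 12), 22), ((0, 2, 4), 9), ((0, 2, 5), 11), ((0, 2, 8), 7), ((0, 2, 9), 12), ((0, 2, 12), 5), ((0, 2, 13), 13), ((1, 2, 4), 4), ((1, 2, 8), 3), ((1, 2, 12), 2)], 1, [[-3, 1, -5], [-1, 0, -4], [-2, 0, -3], [0, 0, 0], [-1, 1, -2], [-1, 0, -1], [0, 0, 0], [0, 0, -1], [-1, 1, -2], [-1, 0, -1], [0, 0, 0], [0, 0, -1], [-1, 1, -2], [-1, 0, -1], [0, 0, 0], [0, 0, -1]]⟩,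
    ⟨[34, 17, 0], [1, 2, 3, 4, 5, 8, 10, 13, 15, 16, 23, 24, 25], (0, 0, 0), [], [((0, 1, 2), 1), ((0, 1, 6), 23), ((0, 1, 10), 24), ((0, 1, 12), 25), ((0, 2, 4), 16), ((0, 2, 5), 10), ((0, 2, 8), 15), ((0, 2, 9), 8), ((0, 2, 12), 5), ((0, 2, 13), 13), ((1, 2, 4), 4), ((1, 2, 8), 3), ((1, 2, 12), 2)], 1, [[-3, 1, -5], [-1, 0, -4], [-2, 0, -3], [0, 0, 0], [0, 0, -1], [0, 0, 0], [-1, 0, -1], [-1, 1, -2], [0, 0, -1], [0, 0, 0], [-1, 0, -1], [-1, 1, -2], [-1, 1, -2], [-1, 0, -1], [0, 0, 0], [0, 0, -1]]⟩,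
    ⟨[17, 0], [1, 2, 3, 4, 5, 6, 7, 8, 9, 10, 11, 12, 13, 14, 15, 16, 18, 19, 20, 21, 22, 23, 24, 25, 26, 27, 28, 29, 31, 32, 33, 34], (0, 1, 14), [(5, 34), (13, 39), (23, 40), (24, 41), (31, 42), (34, 43)], [], 0, []⟩,
    ⟨[13, 15, 19, 0], [1, 2, 3, 4, 5, 6, 7, 8, 10, 17, 23, 29], (0, 0, 0), [], [((0, 1, 2), 1), ((0, 1, 4), 10), ((0, 1, 6), 23), ((0, 1, 10), 7), ((0, 1, 12), 6), ((0, 2, 4), 29), ((0, 2, 9), 8), ((0, 2, 12), 5), ((0, 7, 11), 17), ((1, 2, 4), 4), ((1, 2, 8), 3), ((1, 2, 12), 2)], 1, [[-1, -1, 0, -2], [0, 0, -1, -2], [-1, -1, 1, -2], [0, 0, 0, 0], [0, 0, -1, 0], [0, 0, 0, 0], [-1, -1, 0, 0], [-1, -1, 1, -2], [0, 1, 0, -1], [0, 0, 0, 0], [0, 0, 0, 0], [0, -1, 0, -1], [-1, 0, 0, -1], [0, 0, 0, 0], [0, 0, 0, 0], [1, 0, 0, -1]]⟩,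
    ⟨[17, 15, 19, 0], [1, 2, 3, 4, 6, 7, 8, 10, 11, 13, 27, 29], (0, 0, 0), [], [((0, 1, 2), 1), ((0, 1, 4), 10), ((0, 1, 6), 11), ((0, 1, 10), 7), ((0, 1, 12), 6), ((0, 1, 14), 13), ((0, 2, 4), 29), ((0, 2, 9), 8), ((0, 2, 12), 27), ((1, 2, 4), 4), ((1, 2, 8), 3), ((1, 2, 12), 2)], 1, [[-1, 0, -2, 0], [-1, 1, -2, -1], [-1, -1, 0, -1], [0, 0, 0, 0], [0, 0, -1, 0], [0, 0, 0, 0], [-1, 0, -1, 1], [0, 0, 0, -1], [0, 1, 0, -1], [0, 0, 0, 0], [0, 0, 0, 0], [1, -1, 0, -1], [0, 0, -1, 0], [0, 0, 0, 0], [-1, 0, -1, 1], [0, 0, 0, -1]]⟩,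
    ⟨[29, 15, 19, 0], [1, 2, 3, 4, 6, 7, 8, 9, 10, 13, 17, 21], (0, 0, 0), [], [((0, 1, 2), 1), ((0, 1, 4), 10), ((0, 1, 6), 9), ((0, 1, 10), 7), ((0, 1, 12), 6), ((0, 1, 14), 13), ((0, 2, 9), 8), ((0, 2, 12), 21), ((0, 7, 11), 17), ((1, 2, 4), 4), ((1, 2, 8), 3), ((1, 2, 12), 2)], 1, [[-1, 0, 0, -3], [-1, 1, -1, -2], [0, -1, 1, -3], [0, 0, 0, 0], [1, 0, -1, 0], [0, 0, 0, 0], [0, 0, 0, 0], [-1, 0, 1, -2], [0, 1, 0, -1], [0, 0, 0, 0], [0, 0, 0, 0], [0, -1, 0, -1], [-1, 0, 0, -2], [0, 0, 0, 0], [-1, 0, 0, -1], [0, 0, 0, -1]]⟩,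
    ⟨[15, 19, 0], [1, 2, 3, 4, 5, 6, 7, 8, 9, 10, 11, 13, 17, 21, 23, 27, 29], (0, 4, 11), [(13, 45), (17, 46), (29, 47)], [], 0, []⟩,
    ⟨[17, 19, 0], [1, 2, 3, 4, 6, 7, 10, 11, 13, 15, 26, 27, 29], (0, 0, 0), [], [((0, 1, 2), 1), ((0, 1, 4), 10), ((0, 1, 6), 11), ((0, 1, 8), 15), ((0, 1, 10), 7), ((0, 1, 12), 6), ((0, 1, 14), 13), ((0, 2, 4), 29), ((0, 2, 9), 26), ((0, 2, 12), 27), ((1, 2, 4), 4), ((1, 2, 8), 3), ((1, 2, 12), 2)], 1, [[-2, -3, 1], [-1, -2, -1], [-2, -1, 0], [0, 0, 0], [0, -1, 0], [0, 0, 0], [-1, -1, 1], [0, 0, -1], [0, 0, -1], [-1, -1, 1], [0, 0, 0], [0, -1, 0], [0, -1, 0], [0, 0, 0], [-1, -1, 1], [0, 0, -1]]⟩,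
    ⟨[21, 19, 0], [1, 2, 3, 4, 5, 6, 7, 9, 10, 15, 27, 29, 30], (0, 0, 0), [], [((0, 1, 2), 1), ((0, 1, 4), 10), ((0, 1, 6), 9), ((0, 1, 8), 15), ((0, 1, 10), 7), ((0, 1, 12), 6), ((0, 1, 14), 5), ((0, 2, 9), 30), ((0, 4, 11), 29), ((0, 7, 11), 27), ((1, 2, 4), 4), ((1, 2, 8), 3), ((1, 2, 12), 2)], 1, [[-2, -2, 1], [-1, -1, -1], [0, 0, -2], [0, 0, 0], [0, -1, 0], [0, 0, 0], [0, 0, 0], [-1, 0, 0], [0, 0, -1], [-1, -1, 1], [0, 0, 0], [-2, -2, 2], [0, -1, 0], [0, 0, 0], [0, 0, 0], [-1, 0, 0]]⟩,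
    ⟨[27, 19, 0], [1, 2, 3, 4, 5, 6, 7, 10, 11, 15, 17, 18, 21], (0, 0, 0), [], [((0, 1, 2), 1), ((0, 1, 4), 10), ((0, 1, 6), 11), ((0, 1, 8), 15), ((0, 1, 10), 7), ((0, 1, 12), 6), ((0, 1, 14), 5), ((0, 2, 4), 21), ((0, 2, 9), 18), ((0, 4, 11), 17), ((1, 2, 4), 4), ((1, 2, 8), 3), ((1, 2, 12), 2)], 1, [[-2, 0, -4], [-1, -1, -2], [-1, 1, -4], [0, 0, 0], [-1, 0, -2], [0, 0, 0], [-1, 0, -1], [0, 0, -1], [0, 0, -1], [-1, 0, -1], [0, 0, 0], [-1, 0, -2], [1, -1, 0], [0, 0, 0], [0, 0, 0], [-1, 1, -2]]⟩,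
    ⟨[29, 19, 0], [1, 2, 3, 4, 6, 7, 9, 10, 13, 15, 17, 20, 21], (0, 0, 0), [], [((0, 1, 2), 1), ((0, 1, 4), 10), ((0, 1, 6), 9), ((0, 1, 8), 15), ((0, 1, 10), 7), ((0, 1, 12), 6), ((0, 1, 14), 13), ((0, 2, 9), 20), ((0, 2, 12), 21), ((0, 7, 11), 17), ((1, 2, 4), 4), ((1, 2, 8), 3), ((1, 2, 12), 2)], 1, [[-2, 0, -4], [-1, -1, -2], [-1, 1, -4], [0, 0, 0], [1, -1, 0], [0, 0, 0], [0, 0, 0], [-1, 1, -2], [0, 0, -1], [-1, 0, -1], [0, 0, 0], [-1, 0, -2], [-1, 0, -2], [0, 0, 0], [-1, 0, -1], [0, 0, -1]]⟩,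
    ⟨[19, 0], [1, 2, 3, 4, 5, 6, 7, 8, 9, 10, 11, 13, 15, 17, 18, 20, 21, 23, 26, 27, 29, 30], (0, 4, 8), [(15, 48), (17, 49), (21, 50), (27, 51), (29, 52)], [], 0, []⟩,
    ⟨[13, 15, 23, 0], [1, 2, 3, 4, 5, 6, 7, 8, 9, 17, 19, 34], (0, 0, 0), [], [((0, 1, 2), 1), ((0, 1, 4), 34), ((0, 1, 10), 7), ((0, 1, 12), 6), ((0, 2, 4), 9), ((0, 2, 5), 19), ((0, 2, 9), 8), ((0, 2, 12), 5), ((0, 7, 11), 17), ((1, 2, 4), 4), ((1, 2, 8), 3), ((1, 2, 12), 2)], 1, [[-1, -1, 0, -2], [-1, -1, 1, -2], [0, 0, -1, -2], [0, 0, 0, 0], [0, 0, -1, 0], [-1, -1, 0, 0], [0, 0, 0, 0], [-1, -1, 1, -2], [0, 1, 0, -1], [0, 0, 0, 0], [0, 0, 0, 0], [0, -1, 0, -1], [-1, 0, 0, -1], [0, 0, 0, 0], [0, 0, 0, 0], [1, 0, 0, -1]]⟩,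
    ⟨[17, 15, 23, 0], [1, 2, 3, 4, 5, 7, 8, 9, 11, 13, 32, 34], (0, 0, 0), [], [((0, 1, 2), 1), ((0, 1, 4), 34), ((0, 1, 10), 7), ((0, 1, 12), 32), ((0, 2, 4), 9), ((0, 2, 5), 11), ((0, 2, 9), 8), ((0, 2, 12), 5), ((0, 2, 13), 13), ((1, 2, 4), 4), ((1, 2, 8), 3), ((1, 2, 12), 2)], 1, [[-1, 0, -2, 0], [-1, -1, 0, -1], [-1, 1, -2, -1], [0, 0, 0, 0], [0, 0, -1, 0], [-1, 0, -1, 1], [0, 0, 0, 0], [0, 0, 0, -1], [0, 1, 0, -1], [0, 0, 0, 0], [0, 0, 0, 0], [1, -1, 0, -1], [0, 0, -1, 0], [-1, 0, -1, 1], [0, 0, 0, 0], [0, 0, 0, -1]]⟩,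
    ⟨[34, 15, 23, 0], [1, 2, 3, 4, 5, 7, 8, 9, 10, 13, 17, 25], (0, 0, 0), [], [((0, 1, 2), 1), ((0, 1, 10), 7), ((0, 1, 12), 25), ((0, 2, 4), 9), ((0, 2, 5), 10), ((0, 2, 9), 8), ((0, 2, 12), 5), ((0, 2, 13), 13), ((0, 7, 11), 17), ((1, 2, 4), 4), ((1, 2, 8), 3), ((1, 2, 12), 2)], 1, [[-1, 0, 0, -3], [0, -1, 1, -3], [-1, 1, -1, -2], [0, 0, 0, 0], [1, 0, -1, 0], [0, 0, 0, 0], [0, 0, 0, 0], [-1, 0, 1, -2], [0, 1, 0, -1], [0, 0, 0, 0], [0, 0, 0, 0], [0, -1, 0, -1], [-1, 0, 0, -2], [-1, 0, 0, -1], [0, 0, 0, 0], [0, 0, 0, -1]]⟩,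
    ⟨[15, 23, 0], [1, 2, 3, 4, 5, 6, 7, 8, 9, 10, 11, 13, 17, 19, 25, 32, 34], (0, 4, 11), [(13, 54), (17, 55), (34, 56)], [], 0, []⟩,
    ⟨[17, 23, 0], [1, 2, 3, 4, 5, 8, 9, 11, 13, 15, 31, 32, 34], (0, 0, 0), [], [((0, 1, 2), 1), ((0, 1, 4), 34), ((0, 1, 10), 31), ((0, 1, 12), 32), ((0, 2, 4), 9), ((0, 2, 5), 11), ((0, 2, 8), 15), ((0, 2, 9), 8), ((0, 2, 12), 5), ((0, 2, 13), 13), ((1, 2, 4), 4), ((1, 2, 8), 3), ((1, 2, 12), 2)], 1, [[-2, -3, 1], [-2, -1, 0], [-1, -2, -1], [0, 0, 0], [0, -1, 0], [-1, -1, 1], [0, 0, 0], [0, 0, -1], [0, 0, -1], [0, 0, 0], [-1, -1, 1], [0, -1, 0], [0, -1, 0], [-1, -1, 1], [0, 0, 0], [0, 0, -1]]⟩,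
    ⟨[25, 23, 0], [1, 2, 3, 4, 5, 6, 8, 9, 10, 15, 32, 34, 35], (0, 0, 0), [], [((0, 1, 2), 1), ((0, 1, 10), 35), ((0, 2, 4), 9), ((0, 2, 5), 10), ((0, 2, 8), 15), ((0, 2, 9), 8), ((0, 2, 12), 5), ((0, 2, 13), 6), ((0, 4, 11), 34), ((0, 7, 11), 32), ((1, 2, 4), 4), ((1, 2, 8), 3), ((1, 2, 12), 2)], 1, [[-2, -2, 1], [0, 0, -2], [-1, -1, -1], [0, 0, 0], [0, -1, 0], [0, 0, 0], [0, 0, 0], [-1, 0, 0], [0, 0, -1], [0, 0, 0], [-1, -1, 1], [-2, -2, 2], [0, -1, 0], [0, 0, 0], [0, 0, 0], [-1, 0, 0]]⟩,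
    ⟨[32, 23, 0], [1, 2, 3, 4, 5, 6, 8, 9, 11, 15, 17, 22, 25], (0, 0, 0), [], [((0, 1, 2), 1), ((0, 1, 4), 25), ((0, 1, 10), 22), ((0, 2, 4), 9), ((0, 2, 5), 11), ((0, 2, 8), 15), ((0, 2, 9), 8), ((0, 2, 12), 5), ((0, 2, 13), 6), ((0, 4, 11), 17), ((1, 2, 4), 4), ((1, 2, 8), 3), ((1, 2, 12), 2)], 1, [[-2, 0, -4], [-1, 1, -4], [-1, -1, -2], [0, 0, 0], [-1, 0, -2], [-1, 0, -1], [0, 0, 0], [0, 0, -1], [0, 0, -1], [0, 0, 0], [-1, 0, -1], [-1, 0, -2], [1, -1, 0], [0, 0, 0], [0, 0, 0], [-1, 1, -2]]⟩,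
    ⟨[34, 23, 0], [1, 2, 3, 4, 5, 8, 9, 10, 13, 15, 17, 24, 25], (0, 0, 0), [], [((0, 1, 2), 1), ((0, 1, 10), 24), ((0, 1, 12), 25), ((0, 2, 4), 9), ((0, 2, 5), 10), ((0, 2, 8), 15), ((0, 2, 9), 8), ((0, 2, 12), 5), ((0, 2, 13), 13), ((0, 7, 11), 17), ((1, 2, 4), 4), ((1, 2, 8), 3), ((1, 2, 12), 2)], 1, [[-2, 0, -4], [-1, 1, -4], [-1, -1, -2], [0, 0, 0], [1, -1, 0], [0, 0, 0], [0, 0, 0], [-1, 1, -2], [0, 0, -1], [0, 0, 0], [-1, 0, -1], [-1, 0, -2], [-1, 0, -2], [-1, 0, -1], [0, 0, 0], [0, 0, -1]]⟩,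
    ⟨[23, 0], [1, 2, 3, 4, 5, 6, 7, 8, 9, 10, 11, 13, 15, 17, 19, 22, 24, 25, 31, 32, 34, 35], (0, 4, 8), [(15, 57), (17, 58), (25, 59), (32, 60), (34, 61)], [], 0, []⟩,
    ⟨[26, 0], [1, 2, 3, 4, 6, 8, 10, 11, 12, 13, 17, 18, 19, 20], (0, 0, 0), [], [((0, 1, 2), 1), ((0, 1, 4), 10), ((0, 1, 6), 11), ((0, 1, 8), 8), ((0, 1, 10), 12), ((0, 1, 12), 6), ((0, 1, 14), 13), ((0, 2, 4), 20), ((0, 2, 8), 19), ((0, 2, 12), 18), ((0, 4, 8), 17), ((1, 2, 4), 4), ((1, 2, 8), 3), ((1, 2, 12), 2)], 1, [[-3, -5], [-2, -3], [-1, -4], [0, 0], [-1, -2], [0, 0], [-1, -1], [0, -1], [-1, -2], [0, 0], [-1, -1], [0, -1], [-1, -2], [0, 0], [-1, -1], [0, -1]]⟩,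
    ⟨[27, 0], [1, 2, 3, 4, 5, 7, 10, 11, 14, 15, 17, 18, 19, 21], (0, 0, 0), [], [((0, 1, 2), 1), ((0, 1, 4), 10), ((0, 1, 6), 11), ((0, 1, 8), 15), ((0, 1, 10), 7), ((0, 1, 12), 14), ((0, 1, 14), 5), ((0, 2, 4), 21), ((0, 2, 9), 18), ((0, 2, 13), 19), ((0, 4, 11), 17), ((1, 2, 4), 4), ((1, 2, 8), 3), ((1, 2, 12), 2)], 1, [[-3, -5], [-2, -3], [-1, -4], [0, 0], [-1, -2], [0, 0], [-1, -1], [0, -1], [0, -1], [-1, -1], [0, 0], [-1, -2], [0, -1], [-1, -1], [0, 0], [-1, -2]]⟩,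
    ⟨[29, 0], [1, 2, 3, 4, 6, 7, 9, 13, 15, 16, 17, 19, 20, 21], (0, 0, 0), [], [((0, 1, 2), 1), ((0, 1, 4), 16), ((0, 1, 6), 9), ((0, 1, 8), 15), ((0, 1, 10), 7), ((0, 1, 12), 6), ((0, 1, 14), 13), ((0, 2, 5), 19), ((0, 2, 9), 20), ((0, 2, 12), 21), ((0, 7, 11), 17), ((1, 2, 4), 4), ((1, 2, 8), 3), ((1, 2, 12), 2)], 1, [[-3, -5], [-2, -3], [-1, -4], [0, 0], [0, -1], [-1, -1], [0, 0], [-1, -2], [0, -1], [-1, -1], [0, 0], [-1, -2], [-1, -2], [0, 0], [-1, -1], [0, -1]]⟩,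
    ⟨[31, 0], [1, 2, 3, 4, 5, 7, 9, 11, 12, 13, 17, 22, 23, 24], (0, 0, 0), [], [((0, 1, 2), 1), ((0, 1, 4), 24), ((0, 1, 8), 23), ((0, 1, 12), 22), ((0, 2, 4), 9), ((0, 2, 5), 11), ((0, 2, 8), 7), ((0, 2, 9), 12), ((0, 2, 12), 5), ((0, 2, 13), 13), ((0, 4, 8), 17), ((1, 2, 4), 4), ((1, 2, 8), 3), ((1, 2, 12), 2)], 1, [[-3, -5], [-1, -4], [-2, -3], [0, 0], [-1, -2], [-1, -1], [0, 0], [0, -1], [-1, -2], [-1, -1], [0, 0], [0, -1], [-1, -2], [-1, -1], [0, 0], [0, -1]]⟩,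
    ⟨[32, 0], [1, 2, 3, 4, 6, 8, 9, 11, 14, 15, 17, 22, 23, 25], (0, 0, 0), [], [((0, 1, 2), 1), ((0, 1, 4), 25), ((0, 1, 10), 22), ((0, 1, 14), 23), ((0, 2, 4), 9), ((0, 2, 5), 11), ((0, 2, 8), 15), ((0, 2, 9), 8), ((0, 2, 12), 14), ((0, 2, 13), 6), ((0, 4, 11), 17), ((1, 2, 4), 4), ((1, 2, 8), 3), ((1, 2, 12), 2)], 1, [[-3, -5], [-1, -4], [-2, -3], [0, 0], [-1, -2], [-1, -1], [0, 0], [0, -1], [0, -1], [0, 0], [-1, -1], [-1, -2], [0, -1], [0, 0], [-1, -1], [-1, -2]]⟩,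
    ⟨[34, 0], [1, 2, 3, 4, 5, 8, 10, 13, 15, 16, 17, 23, 24, 25], (0, 0, 0), [], [((0, 1, 2), 1), ((0, 1, 6), 23), ((0, 1, 10), 24), ((0, 1, 12), 25), ((0, 2, 4), 16), ((0, 2, 5), 10), ((0, 2, 8), 15), ((0, 2, 9), 8), ((0, 2, 12), 5), ((0, 2, 13), 13), ((0, 7, 11), 17), ((1, 2, 4), 4), ((1, 2, 8), 3), ((1, 2, 12), 2)], 1, [[-3, -5], [-1, -4], [-2, -3], [0, 0], [0, -1], [0, 0], [-1, -1], [-1, -2], [0, -1], [0, 0], [-1, -1], [-1, -2], [-1, -2], [-1, -1], [0, 0], [0, -1]]⟩,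
    ⟨[0], [1, 2, 3, 4, 5, 6, 7, 8, 9, 10, 11, 12, 13, 14, 15, 16, 17, 18, 19, 20, 21, 22, 23, 24, 25, 26, 27, 28, 29, 30, 31, 32, 33, 34, 35], (0, 7, 8), [(11, 9), (13, 19), (15, 29), (17, 44), (19, 53), (23, 62), (26, 63), (27, 64), (29, 65), (31, 66), (32, 67), (34, 68)], [], 0, []⟩]

def tab6 : List Nd := tab6_0 ++ (tab6_1)

theorem ok6_0 : okPart R6 tab6 0 25 = true := by decide +kernel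

theorem ok6_1 : okPart R6 tab6 25 25 = true := by decide +kernel

theorem ok6_2 : okPart R6 tab6 50 20 = true := by decide +kernel

theorem len6 : tab6.length = 70 := by decide +kernel

theorem okT6 : okTab R6 tab6 := by
  intro i hi
  rw [len6] at hi
  by_cases h0 : i < 25
  · exact part_spec ok6_0 (by omega) (by omega)
  by_cases h1 : i < 50
  · exact part_spec ok6_1 (by omega) (by omega)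
  exact part_spec ok6_2 (by omega) (by omega)

theorem ok6 : okRoot R6 tab6 1 = true := by decide +kernel

theorem okR6 : chkR (R6.drop 1) I6 = true := by decide +kernel

end Pool.Agent.helper25.AG
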