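import Pool.Agent.helper25.AG.Tree

set_option autoImplicit false
set_option linter.unusedSectionVars false
set_option linter.unusedVariables false

/-!
# Project AG: pulling decomposition 7
-/

namespace Pool.Agent.helper25.AG

open Finset Pool.Agent.helper25.PV

def R7 : List (List ℤ) :=
  [[-1, -1, 0, 2, 0, 2, 1, 1, 0, 2, 1, 1, 1, 1, 2, 0],
    [0, 0, 0, 0, 0, 0, 0, 0, 0, 0, 0, 0, 0, 0, 4, 0],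
    [0, 0, 0, 0, 0, 0, 0, 0, 0, 4, 0, 0, 0, 0, 0, 0],
    [0, 0, 0, 0, 0, 4, 0, 0, 0, 0, 0, 0, 0, 0, 0, 0],
    [0, 0, 0, 4, 0, 0, 0, 0, 0, 0, 0, 0, 0, 0, 0, 0],
    [0, 0, 0, 0, 0, 0, 0, 0, 0, 0, 0, 0, 0, 4, 0, 0],
    [0, 0, 0, 0, 0, 0, 0, 0, 0, 0, 0, 0, 4, 0, 0, 0],
    [0, 0, 0, 0, 0, 0, 0, 0, 0, 0, 0, 4, 0, 0, 0, 0],
    [0, 0, 0, 0, 0, 0, 0, 0, 0, 0, 4, 0, 0, 0, 0, 0],
    [0, 0, 0, 0, 0, 0, 0, 4, 0, 0, 0, 0, 0, 0, 0, 0],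
    [0, 0, 0, 0, 0, 0, 4, 0, 0, 0, 0, 0, 0, 0, 0, 0],
    [-2, 0, 0, 2, 0, 2, 2, 0, 0, 2, 2, 0, 2, 0, 0, 2],
    [-2, 0, 0, 2, 0, 2, 2, 0, 2, 0, 0, 2, 0, 2, 2, 0],
    [-2, 0, 0, 2, 2, 0, 0, 2, 0, 2, 2, 0, 0, 2, 2, 0],
    [-2, 0, 2, 0, 0, 2, 0, 2, 0, 2, 0, 2, 2, 0, 2, 0],
    [0, -2, 0, 2, 0, 2, 0, 2, 0, 2, 0, 2, 0, 2, 0, 2],
    [0, -2, 0, 2, 0, 2, 0, 2, 2, 0, 2, 0, 2, 0, 2, 0],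
    [0, -2, 0, 2, 2, 0, 2, 0, 0, 2, 0, 2, 2, 0, 2, 0],
    [0, -2, 2, 0, 0, 2, 2, 0, 0, 2, 2, 0, 0, 2, 2, 0],
    [-1, -1, -1, 3, -1, 3, 3, 3, 1, 1, 1, 1, 1, 1, 1, 1],
    [-1, -1, -1, 3, 1, 1, 1, 1, -1, 3, 3, 3, 1, 1, 1, 1],
    [-1, -1, -1, 3, 1, 1, 1, 1, 1, 1, 1, 1, 3, 3, 3, -1],
    [-1, -1, 1, 1, -1, 3, 1, 1, -1, 3, 1, 1, 3, 3, 1, 1],
    [-1, -1, 1, 1, -1, 3, 1, 1, 1, 1, 3, 3, 1, 1, 3, -1],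
    [-1, -1, 1, 1, 1, 1, 3, 3, -1, 3, 1, 1, 1, 1, 3, -1],
    [-1, -1, -1, 3, -1, 3, 3, 3, -1, 3, 3, 3, 3, 3, 3, -1],
    [-3, -1, -1, 5, 1, 3, 3, 1, 1, 3, 3, 1, 1, 3, 3, 1],
    [-3, -1, 1, 3, -1, 5, 3, 1, 1, 3, 1, 3, 3, 1, 3, 1],
    [-3, -1, 1, 3, 1, 3, 1, 3, -1, 5, 3, 1, 3, 1, 3, 1],
    [-3, -1, 1, 3, 1, 3, 1, 3, 1, 3, 1, 3, 1, 3, 5, -1],
    [-1, -3, -1, 5, 1, 3, 1, 3, 1, 3, 1, 3, 3, 1, 3, 1],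
    [-1, -3, 1, 3, -1, 5, 1, 3, 1, 3, 3, 1, 1, 3, 3, 1],
    [-1, -3, 1, 3, 1, 3, 3, 1, -1, 5, 1, 3, 1, 3, 3, 1],
    [-1, -3, 1, 3, 1, 3, 3, 1, 1, 3, 3, 1, 3, 1, 5, -1]]

def I7 : List (ℕ × Item) :=
  [(4, 0, 0, 1, 2, 4, 9),
    (4, 0, 0, 1, 2, 4, 14),
    (4, 0, 0, 1, 2, 14, 4),
    (4, 0, 0, 1, 14, 2, 4),
    (4, 0, 0, 1, 2, 4, 10),
    (4, 0, 0, 1, 2, 4, 11),
    (4, 0, 0, 1, 2, 4, 12),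
    (4, 0, 0, 1, 2, 4, 13),
    (4, 0, 0, 1, 2, 12, 4),
    (4, 0, 0, 1, 2, 13, 4),
    (2, 2, 0, 1, 2, 4, 8),
    (2, 2, 0, 1, 2, 4, 9),
    (2, 2, 0, 1, 2, 5, 8),
    (2, 2, 0, 1, 3, 4, 8),
    (2, 2, 1, 1, 3, 5, 9),
    (2, 2, 1, 1, 3, 5, 8),
    (2, 2, 1, 1, 3, 4, 9),
    (2, 2, 1, 1, 2, 5, 9),
    (1, 3, 0, 1, 2, 4, 8),
    (1, 3, 0, 1, 2, 8, 4),
    (1, 3, 0, 1, 2, 8, 15),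
    (1, 3, 0, 1, 8, 2, 4),
    (1, 3, 0, 1, 8, 2, 15),
    (1, 3, 0, 1, 8, 15, 2),
    (1, 4, 0, 1, 2, 4, 8),
    (1, 6, 0, 1, 2, 4, 8),
    (1, 6, 0, 1, 4, 2, 8),
    (1, 6, 0, 1, 4, 8, 2),
    (1, 6, 0, 1, 4, 8, 15),
    (1, 6, 1, 1, 3, 5, 9),
    (1, 6, 1, 1, 5, 3, 9),
    (1, 6, 1, 1, 5, 9, 3),
    (1, 6, 1, 1, 5, 9, 14)]

def tab7_0 : List Nd :=
  [⟨[5, 25, 7, 0], [1, 2, 3, 4, 12, 15, 20, 21, 22, 23, 29, 32], (0, 0, 0), [], [((0, 1, 2), 4), ((0, 1, 4), 3), ((0, 1, 8), 2), ((0, 1, 14), 1), ((0, 2, 4), 32), ((0, 2, 8), 23), ((0, 4, 8), 21), ((0, 7, 8), 15), ((1, 2, 4), 29), ((1, 2, 12), 22), ((1, 4, 10), 20), ((1, 6, 8), 12)], 1, [[-1, 1, -1, -8], [-1, 1, -1, -8], [-1, 0, -1, -6], [0, 0, 0, 0], [-1, 0, -1, -6], [0, 0, 0, 0], [-1, 1, -1, -4], [-1,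 1, -1, -4], [-1, 0, -1, -4], [0, 0, 0, 0], [0, 0, -1, -2], [0, 0, 1, 0], [-1, 0, 0, -2], [1, 0, 0, 0], [0, 0, 0, 0], [-1, 0, -1, -4]]⟩,
    ⟨[15, 25, 7, 0], [1, 2, 3, 4, 5, 9, 19, 20, 22, 23, 30, 32], (0, 0, 0), [], [((0, 1, 2), 4), ((0, 1, 4), 3), ((0, 1, 8), 2), ((0, 1, 14), 1), ((0, 2, 4), 32), ((0, 2, 8), 23), ((0, 4, 8), 30), ((1, 2, 4), 9), ((1, 2, 12), 22), ((1, 4, 8), 5), ((1, 4, 10), 20), ((1, 6, 8), 19)], 1, [[0, 1, -1, -8], [-2, -1, 1, -2], [-1, -1, 0, -2], [0, 0, 0, 0], [-2, -1, 0, -2], [0, 0, 0, 0], [-1, 0, 0, -2], [0, 0, 0, 0], [-1, -1, 0, -2], [0, 0, 0, 0], [0, 0, -1, -2], [0, 0, 1, 0], [-1, 0, 0, -2], [0, 0, 0, 0], [0, 0, 0, 0], [0, -1, 0, -2]]⟩,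
    ⟨[22, 25, 7, 0], [1, 2, 3, 4, 5, 6, 14, 15, 20, 23, 27, 32], (0, 0, 0), [], [((0, 1, 2), 4), ((0, 1, 4), 3), ((0, 1, 8), 2), ((0, 1, 14), 1), ((0, 2, 4), 32), ((0, 2, 8), 23), ((0, 4, 8), 6), ((0, 7, 8), 15), ((1, 2, 4), 14), ((1, 4, 8), 5), ((1, 4, 10), 20), ((1, 6, 8), 27)], 1, [[-1, 1, -1, -6], [-1, 1, -1, -6], [0, 0, -1, -4], [0, 0, 0, 0], [-2, 0, -1, -2], [0, 0, 0, 0], [-1, 1, -1, -4], [-1, 1, -1, -2], [-2, 0, -1, -2], [0, 0, 0, 0], [0, 0, -1, -2], [0, 0, 1, 0], [0, 0, 0, 0], [0, 0, 0, 0], [0, 0, 0, 0], [0, 0, -1, -4]]⟩,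
    ⟨[32, 25, 7, 0], [1, 2, 3, 4, 5, 10, 15, 17, 20, 22, 23, 24], (0, 0, 0), [], [((0, 1, 2), 4), ((0, 1, 4), 3), ((0, 1, 8), 2), ((0, 1, 14), 1), ((0, 2, 8), 23), ((0, 4, 8), 17), ((0, 7, 8), 15), ((1, 2, 4), 24), ((1, 2, 12), 22), ((1, 4, 8), 5), ((1, 4, 10), 20), ((1, 6, 8), 10)], 1, [[0, 1, -1, -6], [-2, -1, 1, 0], [0, -1, 0, -2], [0, 0, 0, 0], [-1, -1, 0, 0], [0, 0, 0, 0], [0, 0, 0, 0], [-1, 0, 0, 0], [-2, -1, 0, 2], [0, 0, 0, 0], [0, 0, -1, -2], [0, 0, 1, 0], [-1, 0, 0, 0], [0, 0, 0, 0], [0, 0, 0, 0], [-1, -1, 0, 0]]⟩,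
    ⟨[25, 7, 0], [1, 2, 3, 4, 5, 6, 9, 10, 12, 14, 15, 17, 19, 20, 21, 22, 23, 24, 27, 29, 30, 32], (0, 2, 13), [(5, 0), (15, 1), (22, 2), (32, 3)], [], 0, []⟩,
    ⟨[5, 7, 0], [1, 2, 3, 4, 12, 15, 20, 21, 22, 23, 25, 29, 32], (0, 0, 0), [], [((0, 1, 2), 4), ((0, 1, 4), 3), ((0, 1, 6), 25), ((0, 1, 8), 2), ((0, 1, 14), 1), ((0, 2, 4), 32), ((0, 2, 8), 23), ((0, 4, 8), 21), ((0, 7, 8), 15), ((1, 2, 4), 29), ((1, 2, 12), 22), ((1, 4, 10), 20), ((1, 6, 8), 12)], 1, [[-1, -1, -8], [-1, -1, -8], [-1, -1, -6], [0, 0, 0], [-1, -1, -6], [0, 0, 0], [-1, -1, -4], [-1, -1, -4], [-1, -1, -4], [0, 0, 0], [0, -1, -2], [0, 1, 0], [-1, 0, -2], [1, 0, 0], [0, 0, 0], [-1, -1, -4]]⟩,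
    ⟨[6, 7, 0], [1, 2, 3, 4, 14, 17, 20, 21, 22, 23, 25, 27, 30], (0, 0, 0), [], [((0, 1, 2), 4), ((0, 1, 4), 3), ((0, 1, 6), 25), ((0, 1, 8), 2), ((0, 1, 14), 1), ((0, 2, 4), 17), ((0, 2, 8), 23), ((0, 2, 13), 22), ((0, 7, 8), 30), ((1, 2, 4), 14), ((1, 4, 8), 21), ((1, 4, 10), 20), ((1, 6, 8), 27)], 1, [[-1, -1, -8], [-1, -1, -8], [-1, -1, -4], [0, 0, 0], [-1, -1, -4], [0, 0, 0], [-1, -1, -4], [-1, -1, -4], [-1, -1, -6], [0, 0, 0], [0, -1, -2], [0, 1, 0], [1, 0, 0], [-1, 0, -2], [0, 0, 0], [-1, -1, -6]]⟩,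
    ⟨[21, 7, 0], [1, 2, 3, 4, 5, 6, 12, 17, 20, 23, 25, 29, 30], (0, 0, 0), [], [((0, 1, 2), 4), ((0, 1, 4), 3), ((0, 1, 6), 25), ((0, 1, 8), 2), ((0, 1, 14), 1), ((0, 2, 4), 17), ((0, 2, 8), 23), ((0, 2, 13), 5), ((0, 7, 8), 30), ((1, 2, 4), 29), ((1, 2, 12), 6), ((1, 4, 10), 20), ((1, 6, 8), 12)], 1, [[-1, -1, -6], [-1, -1, -6], [-2, -1, -2], [0, 0, 0], [0, -1, -4], [0, 0, 0], [-1, -1, -2], [-1, -1, -4], [0, -1, -4], [0, 0, 0], [0, -1, -2], [0, 1, 0], [0, 0, 0], [0, 0, 0], [0, 0, 0], [-2, -1, -2]]⟩,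
    ⟨[22, 7, 0], [1, 2, 3, 4, 5, 6, 14, 15, 20, 23, 25, 27, 32], (0, 0, 0), [], [((0, 1, 2), 4), ((0, 1, 4), 3), ((0, 1, 6), 25), ((0, 1, 8), 2), ((0, 1, 14), 1), ((0, 2, 4), 32), ((0, 2, 8), 23), ((0, 4, 8), 6), ((0, 7, 8), 15), ((1, 2, 4), 14), ((1, 4, 8), 5), ((1, 4, 10), 20), ((1, 6, 8), 27)], 1, [[-1, -1, -6], [-1, -1, -6], [0, -1, -4], [0, 0, 0], [-2, -1, -2], [0, 0, 0], [-1, -1, -4], [-1, -1, -2], [-2, -1, -2], [0, 0, 0], [0, -1, -2], [0, 1, 0], [0, 0, 0], [0, 0, 0], [0, 0, 0], [0, -1, -4]]⟩,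
    ⟨[7, 0], [1, 2, 3, 4, 5, 6, 9, 10, 12, 14, 15, 17, 19, 20, 21, 22, 23, 24, 25, 27, 29, 30, 32], (0, 1, 12), [(25, 4), (5, 5), (6, 6), (21, 7), (22, 8)], [], 0, []⟩,
    ⟨[5, 25, 8, 0], [1, 2, 3, 4, 13, 18, 20, 21, 22, 23, 26, 31], (0, 0, 0), [], [((0, 1, 2), 4), ((0, 1, 4), 3), ((0, 1, 8), 2), ((0, 1, 14), 1), ((0, 2, 4), 18), ((0, 4, 8), 21), ((0, 4, 11), 20), ((0, 7, 8), 31), ((1, 2, 4), 13), ((1, 2, 8), 23), ((1, 2, 12), 22), ((1, 6, 8), 26)], 1, [[-1, 1, -1, -8], [-1, 1, -1, -8], [-1, 0, -1, -4], [0, 0, 0, 0], [-1, 0, -1, -4], [0, 0, 0, 0], [-1, 1, -1, -4], [-1, 1, -1, -4], [-1, 0, -1, -6], [0, 0, 0, 0], [0, 0, 1, 0], [0, 0, -1, -2], [-1, 0, 0, -2], [1, 0, 0, 0], [0, 0, 0, 0], [-1, 0, -1, -6]]⟩,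
    ⟨[18, 25, 8, 0], [1, 2, 3, 4, 5, 10, 20, 22, 23, 24, 31, 33], (0, 0, 0), [], [((0, 1, 2), 4), ((0, 1, 4), 3), ((0, 1, 8), 2), ((0, 1, 14), 1), ((0, 4, 8), 33), ((0, 4, 11), 20), ((0, 7, 8), 31), ((1, 2, 4), 24), ((1, 2, 8), 23), ((1, 2, 12), 22), ((1, 4, 8), 5), ((1, 6, 8), 10)], 1, [[0, 1, -1, -8], [-2, -1, 1, -2], [0, -1, 0, -2], [0, 0, 0, 0], [-1, -1, 0, -2], [0, 0, 0, 0], [0, 0, 0, 0], [-1, 0, 0, -2], [-2, -1, 0, -2], [0, 0, 0, 0], [0, 0, 1, 0], [0, 0, -1, -2], [-1, 0, 0, -2], [0, 0, 0, 0], [0, 0, 0, 0], [-1, -1, 0, -2]]⟩,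
    ⟨[22, 25, 8, 0], [1, 2, 3, 4, 5, 6, 11, 18, 20, 23, 28, 31], (0, 0, 0), [], [((0, 1, 2), 4), ((0, 1, 4), 3), ((0, 1, 8), 2), ((0, 1, 14), 1), ((0, 2, 4), 18), ((0, 4, 8), 6), ((0, 4, 11), 20), ((0, 7, 8), 31), ((1, 2, 4), 28), ((1, 2, 8), 23), ((1, 4, 8), 5), ((1, 6, 8), 11)], 1, [[-1, 1, -1, -6], [-1, 1, -1, -6], [0, 0, -1, -4], [0, 0, 0, 0], [-2, 0, -1, -2], [0, 0, 0, 0], [-1, 1, -1, -2], [-1, 1, -1, -4], [-2, 0, -1, -2], [0, 0, 0, 0], [0, 0, 1, 0], [0, 0, -1, -2], [0, 0, 0, 0], [0, 0, 0, 0], [0, 0, 0, 0], [0, 0, -1, -4]]⟩,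
    ⟨[31, 25, 8, 0], [1, 2, 3, 4, 5, 9, 16, 18, 19, 20, 22, 23], (0, 0, 0), [], [((0, 1, 2), 4), ((0, 1, 4), 3), ((0, 1, 8), 2), ((0, 1, 14), 1), ((0, 2, 4), 18), ((0, 4, 8), 16), ((0, 4, 11), 20), ((1, 2, 4), 9), ((1, 2, 8), 23), ((1, 2, 12), 22), ((1, 4, 8), 5), ((1, 6, 8), 19)], 1, [[0, 1, -1, -6], [-2, -1, 1, 0], [-1, -1, 0, 0], [0, 0, 0, 0], [-2, -1, 0, 2], [0, 0, 0, 0], [-1, 0, 0, 0], [0, 0, 0, 0], [-1, -1, 0, 0], [0, 0, 0, 0], [0, 0, 1, 0], [0, 0, -1, -2], [-1, 0, 0, 0], [0, 0, 0, 0], [0, 0, 0, 0], [0, -1, 0, -2]]⟩,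
    ⟨[25, 8, 0], [1, 2, 3, 4, 5, 6, 9, 10, 11, 13, 16, 18, 19, 20, 21, 22, 23, 24, 26, 28, 31, 33], (0, 2, 13), [(5, 10), (18, 11), (22, 12), (31, 13)], [], 0, []⟩,
    ⟨[5, 8, 0], [1, 2, 3, 4, 13, 18, 20, 21, 22, 23, 25, 26, 31], (0, 0, 0), [], [((0, 1, 2), 4), ((0, 1, 4), 3), ((0, 1, 6), 25), ((0, 1, 8), 2), ((0, 1, 14), 1), ((0, 2, 4), 18), ((0, 4, 8), 21), ((0, 4, 11), 20), ((0, 7, 8), 31), ((1, 2, 4), 13), ((1, 2, 8), 23), ((1, 2, 12), 22), ((1, 6, 8), 26)], 1, [[-1, -1, -8], [-1, -1, -8], [-1, -1, -4], [0, 0, 0], [-1, -1, -4], [0, 0, 0], [-1, -1, -4], [-1, -1, -4], [-1, -1, -6], [0, 0, 0], [0, 1, 0], [0, -1, -2], [-1, 0, -2], [1, 0, 0], [0, 0, 0], [-1, -1, -6]]⟩,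
    ⟨[6, 8, 0], [1, 2, 3, 4, 11, 16, 20, 21, 22, 23, 25, 28, 33], (0, 0, 0), [], [((0, 1, 2), 4), ((0, 1, 4), 3), ((0, 1, 6), 25), ((0, 1, 8), 2), ((0, 1, 14), 1), ((0, 2, 4), 33), ((0, 2, 13), 22), ((0, 4, 11), 20), ((0, 7, 8), 16), ((1, 2, 4), 28), ((1, 2, 8), 23), ((1, 4, 8), 21), ((1, 6, 8), 11)], 1, [[-1, -1, -8], [-1, -1, -8], [-1, -1, -6], [0, 0, 0], [-1, -1, -6], [0, 0, 0], [-1, -1, -4], [-1, -1, -4], [-1, -1, -4], [0, 0, 0], [0, 1, 0], [0, -1, -2], [1, 0, 0], [-1, 0, -2], [0, 0, 0], [-1, -1, -4]]⟩,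
    ⟨[21, 8, 0], [1, 2, 3, 4, 5, 6, 13, 16, 20, 23, 25, 26, 33], (0, 0, 0), [], [((0, 1, 2), 4), ((0, 1, 4), 3), ((0, 1, 6), 25), ((0, 1, 8), 2), ((0, 1, 14), 1), ((0, 2, 4), 33), ((0, 2, 13), 5), ((0, 4, 11), 20), ((0, 7, 8), 16), ((1, 2, 4), 13), ((1, 2, 8), 23), ((1, 2, 12), 6), ((1, 6, 8), 26)], 1, [[-1, -1, -6], [-1, -1, -6], [-2, -1, -2], [0, 0, 0], [0, -1, -4], [0, 0, 0], [-1, -1, -4], [-1, -1, -2], [0, -1, -4], [0, 0, 0], [0, 1, 0], [0, -1, -2], [0, 0, 0], [0, 0, 0], [0, 0, 0], [-2, -1, -2]]⟩,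
    ⟨[22, 8, 0], [1, 2, 3, 4, 5, 6, 11, 18, 20, 23, 25, 28, 31], (0, 0, 0), [], [((0, 1, 2), 4), ((0, 1, 4), 3), ((0, 1, 6), 25), ((0, 1, 8), 2), ((0, 1, 14), 1), ((0, 2, 4), 18), ((0, 4, 8), 6), ((0, 4, 11), 20), ((0, 7, 8), 31), ((1, 2, 4), 28), ((1, 2, 8), 23), ((1, 4, 8), 5), ((1, 6, 8), 11)], 1, [[-1, -1, -6], [-1, -1, -6], [0, -1, -4], [0, 0, 0], [-2, -1, -2], [0, 0, 0], [-1, -1, -2], [-1, -1, -4], [-2, -1, -2], [0, 0, 0], [0, 1, 0], [0, -1, -2], [0, 0, 0], [0, 0, 0], [0, 0, 0], [0, -1, -4]]⟩,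
    ⟨[8, 0], [1, 2, 3, 4, 5, 6, 9, 10, 11, 13, 16, 18, 19, 20, 21, 22, 23, 24, 25, 26, 28, 31, 33], (0, 1, 12), [(25, 14), (5, 15), (6, 16), (21, 17), (22, 18)], [], 0, []⟩,
    ⟨[5, 25, 20, 0], [1, 2, 3, 4, 7, 8, 13, 15, 21, 22, 26, 32], (0, 0, 0), [], [((0, 1, 2), 4), ((0, 1, 4), 3), ((0, 1, 8), 2), ((0, 1, 14), 1), ((0, 2, 4), 32), ((0, 2, 8), 8), ((0, 4, 8), 21), ((0, 7, 8), 15), ((1, 2, 4), 13), ((1, 2, 8), 7), ((1, 2, 12), 22), ((1, 6, 8), 26)], 1, [[-1, 1, -1, -6], [-1, 1, -1, -6], [-1, 0, -2, -2], [0, 0, 0, 0], [-1, 0, 0, -4], [0, 0, 0, 0], [-1, 1, -1, -4], [-1, 1, -1, -2], [-1, 0, -2, -2], [0, 0, 0, 0], [0, 0, 0, 0], [0, 0, 0, 0], [-1, 0, 0, -2], [1, 0, 0, 0], [0, 0, 0, 0], [-1, 0, 0, -4]]⟩,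
    ⟨[15, 25, 20, 0], [1, 2, 3, 4, 5, 7, 8, 9, 19, 22, 30, 32], (0, 0, 0), [], [((0, 1, 2), 4), ((0, 1, 4), 3), ((0, 1, 8), 2), ((0, 1, 14), 1), ((0, 2, 4), 32), ((0, 2, 8), 8), ((0, 4, 8), 30), ((1, 2, 4), 9), ((1, 2, 8), 7), ((1, 2, 12), 22), ((1, 4, 8), 5), ((1, 6, 8), 19)], 1, [[0, 1, -1, -6], [-2, -1, 1, -2], [-1, -1, -1, 0], [0, 0, 0, 0], [-2, -1, 1, -2], [0, 0, 0, 0], [-1, 0, 0, -2], [0, 0, 0, 0], [-1, -1, -1, 0], [0, 0, 0, 0], [0, 0, 0, 0], [0, 0, 0, 0], [-1, 0, 0, -2], [0, 0, 0, 0], [0, 0, 0, 0], [0, -1, 1, -2]]⟩,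
    ⟨[22, 25, 20, 0], [1, 2, 3, 4, 5, 6, 7, 8, 11, 15, 28, 32], (0, 0, 0), [], [((0, 1, 2), 4), ((0, 1, 4), 3), ((0, 1, 8), 2), ((0, 1, 14), 1), ((0, 2, 4), 32), ((0, 2, 8), 8), ((0, 4, 8), 6), ((0, 7, 8), 15), ((1, 2, 4), 28), ((1, 2, 8), 7), ((1, 4, 8), 5), ((1, 6, 8), 11)], 1, [[-1, 1, -1, -4], [-1, 1, -1, -4], [0, 0, -2, -2], [0, 0, 0, 0], [-2, 0, 0, -2], [0, 0, 0, 0], [-1, 1, -1, -2], [-1, 1, -1, -2], [-2, 0, -2, 2], [0, 0, 0, 0], [0, 0, 0, 0], [0, 0, 0, 0], [0, 0, 0, 0], [0, 0, 0, 0], [0, 0, 0, 0], [0, 0, 0, -2]]⟩,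
    ⟨[32, 25, 20, 0], [1, 2, 3, 4, 5, 7, 8, 10, 15, 17, 22, 24], (0, 0, 0), [], [((0, 1, 2), 4), ((0, 1, 4), 3), ((0, 1, 8), 2), ((0, 1, 14), 1), ((0, 2, 8), 8), ((0, 4, 8), 17), ((0, 7, 8), 15), ((1, 2, 4), 24), ((1, 2, 8), 7), ((1, 2, 12), 22), ((1, 4, 8), 5), ((1, 6, 8), 10)], 1, [[0, 1, -1, -4], [-2, -1, 1, 0], [0, -1, -1, 0], [0, 0, 0, 0], [-1, -1, 1, 0], [0, 0, 0, 0], [0, 0, 0, 0], [-1, 0, 0, 0], [-2, -1, -1, 4], [0, 0, 0, 0], [0, 0, 0, 0], [0, 0, 0, 0], [-1, 0, 0, 0], [0, 0, 0, 0], [0, 0, 0, 0], [-1, -1, 1, 0]]⟩,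
    ⟨[25, 20, 0], [1, 2, 3, 4, 5, 6, 7, 8, 9, 10, 11, 13, 15, 17, 19, 21, 22, 24, 26, 28, 30, 32], (0, 2, 13), [(5, 20), (15, 21), (22, 22), (32, 23)], [], 0, []⟩,
    ⟨[5, 20, 0], [1, 2, 3, 4, 7, 8, 13, 15, 21, 22, 25, 26, 32], (0, 0, 0), [], [((0, 1, 2), 4), ((0, 1, 4), 3), ((0, 1, 6), 25), ((0, 1, 8), 2), ((0, 1, 14), 1), ((0, 2, 4), 32), ((0, 2, 8), 8), ((0, 4, 8), 21), ((0, 7, 8), 15), ((1, 2, 4), 13), ((1, 2, 8), 7), ((1, 2, 12), 22), ((1, 6, 8), 26)], 1, [[-1, -1, -6], [-1, -1, -6], [-1, -2, -2], [0, 0, 0], [-1, 0, -4], [0, 0, 0], [-1, -1, -4], [-1, -1, -2], [-1, -2, -2], [0, 0, 0], [0, 0, 0], [0, 0, 0], [-1, 0, -2], [1, 0, 0], [0, 0, 0], [-1, 0, -4]]⟩,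
    ⟨[6, 20, 0], [1, 2, 3, 4, 7, 8, 11, 17, 21, 22, 25, 28, 30], (0, 0, 0), [], [((0, 1, 2), 4), ((0, 1, 4), 3), ((0, 1, 6), 25), ((0, 1, 8), 2), ((0, 1, 14), 1), ((0, 2, 4), 17), ((0, 2, 8), 8), ((0, 2, 13), 22), ((0, 7, 8), 30), ((1, 2, 4), 28), ((1, 2, 8), 7), ((1, 4, 8), 21), ((1, 6, 8), 11)], 1, [[-1, -1, -6], [-1, -1, -6], [-1, -2, -2], [0, 0, 0], [-1, 0, -4], [0, 0, 0], [-1, -1, -2], [-1, -1, -4], [-1, -2, -2], [0, 0, 0], [0, 0, 0], [0, 0, 0], [1, 0, 0], [-1, 0, -2], [0, 0, 0], [-1, 0, -4]]⟩,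
    ⟨[21, 20, 0], [1, 2, 3, 4, 5, 6, 7, 8, 13, 17, 25, 26, 30], (0, 0, 0), [], [((0, 1, 2), 4), ((0, 1, 4), 3), ((0, 1, 6), 25), ((0, 1, 8), 2), ((0, 1, 14), 1), ((0, 2, 4), 17), ((0, 2, 8), 8), ((0, 2, 13), 5), ((0, 7, 8), 30), ((1, 2, 4), 13), ((1, 2, 8), 7), ((1, 2, 12), 6), ((1, 6, 8), 26)], 1, [[-1, -1, -4], [-1, -1, -4], [-2, -2, 2], [0, 0, 0], [0, 0, -2], [0, 0, 0], [-1, -1, -2], [-1, -1, -2], [0, -2, -2], [0, 0, 0], [0, 0, 0], [0, 0, 0], [0, 0, 0], [0, 0, 0], [0, 0, 0], [-2, 0, -2]]⟩,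
    ⟨[22, 20, 0], [1, 2, 3, 4, 5, 6, 7, 8, 11, 15, 25, 28, 32], (0, 0, 0), [], [((0, 1, 2), 4), ((0, 1, 4), 3), ((0, 1, 6), 25), ((0, 1, 8), 2), ((0, 1, 14), 1), ((0, 2, 4), 32), ((0, 2, 8), 8), ((0, 4, 8), 6), ((0, 7, 8), 15), ((1, 2, 4), 28), ((1, 2, 8), 7), ((1, 4, 8), 5), ((1, 6, 8), 11)], 1, [[-1, -1, -4], [-1, -1, -4], [0, -2, -2], [0, 0, 0], [-2, 0, -2], [0, 0, 0], [-1, -1, -2], [-1, -1, -2], [-2, -2, 2], [0, 0, 0], [0, 0, 0], [0, 0, 0], [0, 0, 0], [0, 0, 0], [0, 0, 0], [0, 0, -2]]⟩,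
    ⟨[20, 0], [1, 2, 3, 4, 5, 6, 7, 8, 9, 10, 11, 13, 15, 17, 19, 21, 22, 24, 25, 26, 28, 30, 32], (0, 1, 12), [(25, 24), (5, 25), (6, 26), (21, 27), (22, 28)], [], 0, []⟩,
    ⟨[5, 25, 23, 0], [1, 2, 3, 4, 7, 8, 12, 18, 21, 22, 29, 31], (0, 0, 0), [], [((0, 1, 2), 4), ((0, 1, 4), 3), ((0, 1, 8), 2), ((0, 1, 14), 1), ((0, 2, 4), 18), ((0, 4, 8), 21), ((0, 4, 11), 7), ((0, 7, 8), 31), ((1, 2, 4), 29), ((1, 2, 12), 22), ((1, 4, 10), 8), ((1, 6, 8), 12)], 1, [[-1, 1, -1, -6], [-1, 1, -1, -6], [-1, 0, 0, -4], [0, 0, 0, 0], [-1, 0, -2, -2], [0, 0, 0, 0], [-1, 1, -1, -2], [-1, 1, -1, -4], [-1, 0, 0, -4], [0, 0, 0, 0], [0, 0, 0, 0], [0, 0, 0, 0], [-1, 0, 0, -2], [1, 0, 0, 0], [0, 0, 0, 0], [-1, 0, -2, -2]]⟩,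
    ⟨[18, 25, 23, 0], [1, 2, 3, 4, 5, 7, 8, 10, 22, 24, 31, 33], (0, 0, 0), [], [((0, 1, 2), 4), ((0, 1, 4), 3), ((0, 1, 8), 2), ((0, 1, 14), 1), ((0, 4, 8), 33), ((0, 4, 11), 7), ((0, 7, 8), 31), ((1, 2, 4), 24), ((1, 2, 12), 22), ((1, 4, 8), 5), ((1, 4, 10), 8), ((1, 6, 8), 10)], 1, [[0, 1, -1, -6], [-2, -1, 1, -2], [0, -1, 1, -2], [0, 0, 0, 0], [-1, -1, -1, 0], [0, 0, 0, 0], [0, 0, 0, 0], [-1, 0, 0, -2], [-2, -1, 1, -2], [0, 0, 0, 0], [0, 0, 0, 0], [0, 0, 0, 0], [-1, 0, 0, -2], [0, 0, 0, 0], [0, 0, 0, 0], [-1, -1, -1, 0]]⟩,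
    ⟨[22, 25, 23, 0], [1, 2, 3, 4, 5, 6, 7, 8, 14, 18, 27, 31], (0, 0, 0), [], [((0, 1, 2), 4), ((0, 1, 4), 3), ((0, 1, 8), 2), ((0, 1, 14), 1), ((0, 2, 4), 18), ((0, 4, 8), 6), ((0, 4, 11), 7), ((0, 7, 8), 31), ((1, 2, 4), 14), ((1, 4, 8), 5), ((1, 4, 10), 8), ((1, 6, 8), 27)], 1, [[-1, 1, -1, -4], [-1, 1, -1, -4], [0, 0, 0, -2], [0, 0, 0, 0], [-2, 0, -2, 2], [0, 0, 0, 0], [-1, 1, -1, -2], [-1, 1, -1, -2], [-2, 0, 0, -2], [0, 0, 0, 0], [0, 0, 0, 0], [0, 0, 0, 0], [0, 0, 0, 0], [0, 0, 0, 0], [0, 0, 0, 0], [0, 0, -2, -2]]⟩,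
    ⟨[31, 25, 23, 0], [1, 2, 3, 4, 5, 7, 8, 9, 16, 18, 19, 22], (0, 0, 0), [], [((0, 1, 2), 4), ((0, 1, 4), 3), ((0, 1, 8), 2), ((0, 1, 14), 1), ((0, 2, 4), 18), ((0, 4, 8), 16), ((0, 4, 11), 7), ((1, 2, 4), 9), ((1, 2, 12), 22), ((1, 4, 8), 5), ((1, 4, 10), 8), ((1, 6, 8), 19)], 1, [[0, 1, -1, -4], [-2, -1, 1, 0], [-1, -1, 1, 0], [0, 0, 0, 0], [-2, -1, -1, 4], [0, 0, 0, 0], [-1, 0, 0, 0], [0, 0, 0, 0], [-1, -1, 1, 0], [0, 0, 0, 0], [0, 0, 0, 0], [0, 0, 0, 0], [-1, 0, 0, 0], [0, 0, 0, 0], [0, 0, 0, 0], [0, -1, -1, 0]]⟩,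
    ⟨[25, 23, 0], [1, 2, 3, 4, 5, 6, 7, 8, 9, 10, 12, 14, 16, 18, 19, 21, 22, 24, 27, 29, 31, 33], (0, 2, 13), [(5, 30), (18, 31), (22, 32), (31, 33)], [], 0, []⟩,
    ⟨[5, 23, 0], [1, 2, 3, 4, 7, 8, 12, 18, 21, 22, 25, 29, 31], (0, 0, 0), [], [((0, 1, 2), 4), ((0, 1, 4), 3), ((0, 1, 6), 25), ((0, 1, 8), 2), ((0, 1, 14), 1), ((0, 2, 4), 18), ((0, 4, 8), 21), ((0, 4, 11), 7), ((0, 7, 8), 31), ((1, 2, 4), 29), ((1, 2, 12), 22), ((1, 4, 10), 8), ((1, 6, 8), 12)], 1, [[-1, -1, -6], [-1, -1, -6], [-1, 0, -4], [0, 0, 0], [-1, -2, -2], [0, 0, 0], [-1, -1, -2], [-1, -1, -4], [-1, 0, -4], [0, 0, 0], [0, 0, 0], [0, 0, 0], [-1, 0, -2], [1, 0, 0], [0, 0, 0], [-1, -2, -2]]⟩,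
    ⟨[6, 23, 0], [1, 2, 3, 4, 7, 8, 14, 16, 21, 22, 25, 27, 33], (0, 0, 0), [], [((0, 1, 2), 4), ((0, 1, 4), 3), ((0, 1, 6), 25), ((0, 1, 8), 2), ((0, 1, 14), 1), ((0, 2, 4), 33), ((0, 2, 13), 22), ((0, 4, 11), 7), ((0, 7, 8), 16), ((1, 2, 4), 14), ((1, 4, 8), 21), ((1, 4, 10), 8), ((1, 6, 8), 27)], 1, [[-1, -1, -6], [-1, -1, -6], [-1, 0, -4], [0, 0, 0], [-1, -2, -2], [0, 0, 0], [-1, -1, -4], [-1, -1, -2], [-1, 0, -4], [0, 0, 0], [0, 0, 0], [0, 0, 0], [1, 0, 0], [-1, 0, -2], [0, 0, 0], [-1, -2, -2]]⟩,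
    ⟨[21, 23, 0], [1, 2, 3, 4, 5, 6, 7, 8, 12, 16, 25, 29, 33], (0, 0, 0), [], [((0, 1, 2), 4), ((0, 1, 4), 3), ((0, 1, 6), 25), ((0, 1, 8), 2), ((0, 1, 14), 1), ((0, 2, 4), 33), ((0, 2, 13), 5), ((0, 4, 11), 7), ((0, 7, 8), 16), ((1, 2, 4), 29), ((1, 2, 12), 6), ((1, 4, 10), 8), ((1, 6, 8), 12)], 1, [[-1, -1, -4], [-1, -1, -4], [-2, 0, -2], [0, 0, 0], [0, -2, -2], [0, 0, 0], [-1, -1, -2], [-1, -1, -2], [0, 0, -2], [0, 0, 0], [0, 0, 0], [0, 0, 0], [0, 0, 0], [0, 0, 0], [0, 0, 0], [-2, -2, 2]]⟩,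
    ⟨[22, 23, 0], [1, 2, 3, 4, 5, 6, 7, 8, 14, 18, 25, 27, 31], (0, 0, 0), [], [((0, 1, 2), 4), ((0, 1, 4), 3), ((0, 1, 6), 25), ((0, 1, 8), 2), ((0, 1, 14), 1), ((0, 2, 4), 18), ((0, 4, 8), 6), ((0, 4, 11), 7), ((0, 7, 8), 31), ((1, 2, 4), 14), ((1, 4, 8), 5), ((1, 4, 10), 8), ((1, 6, 8), 27)], 1, [[-1, -1, -4], [-1, -1, -4], [0, 0, -2], [0, 0, 0], [-2, -2, 2], [0, 0, 0], [-1, -1, -2], [-1, -1, -2], [-2, 0, -2], [0, 0, 0], [0, 0, 0], [0, 0, 0], [0, 0, 0], [0, 0, 0], [0, 0, 0], [0, -2, -2]]⟩,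
    ⟨[23, 0], [1, 2, 3, 4, 5, 6, 7, 8, 9, 10, 12, 14, 16, 18, 19, 21, 22, 24, 25, 27, 29, 31, 33], (0, 1, 12), [(25, 34), (5, 35), (6, 36), (21, 37), (22, 38)], [], 0, []⟩]

def tab7_1 : List Nd :=
  [⟨[9, 5, 25, 0], [1, 2, 3, 4, 13, 15, 19, 21, 22, 24, 29, 31], (0, 0, 0), [], [((0, 1, 2), 4), ((0, 1, 4), 3), ((0, 1, 8), 2), ((0, 1, 14), 1), ((0, 2, 4), 24), ((0, 2, 8), 31), ((0, 4, 8), 21), ((0, 4, 11), 15), ((1, 2, 8), 29), ((1, 2, 12), 22), ((1, 4, 10), 13), ((1, 6, 8), 19)], 1, [[-1, -1, 1, -8], [-1, -1, 1, -8], [-1, -1, 0, -6], [0, 0, 0, 0], [-1, -1, 0, -4], [0, 0, 0, 0], [-1, 0, 0, -2], [1, 0, 0, 0], [-1, -1, 0, -6], [0, 0, 0, 0], [-1, -1, 1, -4], [-1, -1, 1, -4], [0, -1, 0, -2], [0, 1, 0, 0], [0, 0, 0, 0], [-1, -1, 0, -4]]⟩,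
    ⟨[13, 5, 25, 0], [1, 2, 3, 4, 8, 9, 20, 21, 22, 24, 26, 29], (0, 0, 0), [], [((0, 1, 2), 4), ((0, 1, 4), 3), ((0, 1, 8), 2), ((0, 1, 14), 1), ((0, 2, 4), 24), ((0, 2, 8), 8), ((0, 4, 8), 21), ((0, 4, 11), 20), ((0, 7, 8), 9), ((1, 2, 8), 29), ((1, 2, 12), 22), ((1, 6, 8), 26)], 1, [[-2, 1, -1, -2], [0, -1, 1, -8], [-1, 0, -1, -2], [0, 0, 0, 0], [0, 0, -1, -2], [0, 0, 0, 0], [-1, 0, 0, -2], [0, 0, 0, 0], [-2, 0, -1, -2], [0, 0, 0, 0], [0, 0, 0, 0], [-1, 0, 0, -2], [0, -1, 0, -2], [0, 1, 0, 0], [0, 0, 0, 0], [-1, 0, -1, -2]]⟩,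
    ⟨[24, 5, 25, 0], [1, 2, 3, 4, 9, 10, 13, 18, 21, 22, 29, 32], (0, 0, 0), [], [((0, 1, 2), 4), ((0, 1, 4), 3), ((0, 1, 8), 2), ((0, 1, 14), 1), ((0, 2, 8), 18), ((0, 4, 8), 21), ((0, 4, 11), 32), ((0, 7, 8), 9), ((1, 2, 8), 29), ((1, 2, 12), 22), ((1, 4, 10), 13), ((1, 6, 8), 10)], 1, [[-1, -1, 1, -6], [-1, -1, 1, -6], [0, -1, 0, -4], [0, 0, 0, 0], [0, -1, 0, -4], [0, 0, 0, 0], [0, 0, 0, 0], [0, 0, 0, 0], [-2, -1, 0, -2], [0, 0, 0, 0], [-1, -1, 1, -2], [-1, -1, 1, -4], [0, -1, 0, -2], [0, 1, 0, 0], [0, 0, 0, 0], [-2, -1, 0, -2]]⟩,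
    ⟨[29, 5, 25, 0], [1, 2, 3, 4, 7, 9, 12, 13, 21, 22, 23, 24], (0, 0, 0), [], [((0, 1, 2), 4), ((0, 1, 4), 3), ((0, 1, 8), 2), ((0, 1, 14), 1), ((0, 2, 4), 24), ((0, 2, 8), 23), ((0, 4, 8), 21), ((0, 4, 11), 7), ((0, 7, 8), 9), ((1, 2, 12), 22), ((1, 4, 10), 13), ((1, 6, 8), 12)], 1, [[-2, 1, -1, 0], [0, -1, 1, -6], [0, 0, -1, -2], [0, 0, 0, 0], [-1, 0, -1, 0], [0, 0, 0, 0], [-1, 0, 0, 0], [0, 0, 0, 0], [-1, 0, -1, 0], [0, 0, 0, 0], [-1, 0, 0, 0], [0, 0, 0, 0], [0, -1, 0, -2], [0, 1, 0, 0], [0, 0, 0, 0], [-2, 0, -1, 2]]⟩,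
    ⟨[5, 25, 0], [1, 2, 3, 4, 7, 8, 9, 10, 12, 13, 15, 18, 19, 20, 21, 22, 23, 24, 26, 29, 31, 32], (1, 2, 4), [(9, 40), (13, 41), (24, 42), (29, 43)], [], 0, []⟩,
    ⟨[9, 22, 25, 0], [1, 2, 3, 4, 5, 6, 14, 15, 19, 24, 28, 31], (0, 0, 0), [], [((0, 1, 2), 4), ((0, 1, 4), 3), ((0, 1, 8), 2), ((0, 1, 14), 1), ((0, 2, 4), 24), ((0, 2, 8), 31), ((0, 4, 8), 6), ((0, 4, 11), 15), ((1, 2, 8), 14), ((1, 4, 8), 5), ((1, 4, 10), 28), ((1, 6, 8), 19)], 1, [[-1, -1, 1, -6], [-1, -1, 1, -6], [-1, 0, 0, -4], [0, 0, 0, 0], [-1, -2, 0, -2], [0, 0, 0, 0], [-1, 0, 0, -2], [1, 0, 0, 0], [-1, -2, 0, -2], [0, 0, 0, 0], [-1, -1, 1, -4], [-1, -1, 1, -2], [0, 0, 0, 0], [0, 0, 0, 0], [0, 0, 0, 0], [-1, 0, 0, -4]]⟩,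
    ⟨[14, 22, 25, 0], [1, 2, 3, 4, 5, 6, 7, 9, 23, 24, 27, 28], (0, 0, 0), [], [((0, 1, 2), 4), ((0, 1, 4), 3), ((0, 1, 8), 2), ((0, 1, 14), 1), ((0, 2, 4), 24), ((0, 2, 8), 23), ((0, 4, 8), 6), ((0, 4, 11), 7), ((0, 7, 8), 9), ((1, 4, 8), 5), ((1, 4, 10), 28), ((1, 6, 8), 27)], 1, [[-2, 1, -1, -2], [0, -1, 1, -6], [0, 1, -1, -2], [0, 0, 0, 0], [-1, -1, -1, 0], [0, 0, 0, 0], [-1, 0, 0, -2], [0, 0, 0, 0], [-1, -1, -1, 0], [0, 0, 0, 0], [-1, 0, 0, -2], [0, 0, 0, 0], [0, 0, 0, 0], [0, 0, 0, 0], [0, 0, 0, 0], [-2, 1, -1, -2]]⟩,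
    ⟨[24, 22, 25, 0], [1, 2, 3, 4, 5, 6, 9, 10, 14, 18, 28, 32], (0, 0, 0), [], [((0, 1, 2), 4), ((0, 1, 4), 3), ((0, 1, 8), 2), ((0, 1, 14), 1), ((0, 2, 8), 18), ((0, 4, 8), 6), ((0, 4, 11), 32), ((0, 7, 8), 9), ((1, 2, 8), 14), ((1, 4, 8), 5), ((1, 4, 10), 28), ((1, 6, 8), 10)], 1, [[-1, -1, 1, -4], [-1, -1, 1, -4], [0, 0, 0, -2], [0, 0, 0, 0], [0, -2, 0, -2], [0, 0, 0, 0], [0, 0, 0, 0], [0, 0, 0, 0], [-2, -2, 0, 2], [0, 0, 0, 0], [-1, -1, 1, -2], [-1, -1, 1, -2], [0, 0, 0, 0], [0, 0, 0, 0], [0, 0, 0, 0], [-2, 0, 0, -2]]⟩,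
    ⟨[28, 22, 25, 0], [1, 2, 3, 4, 5, 6, 8, 9, 11, 14, 20, 24], (0, 0, 0), [], [((0, 1, 2), 4), ((0, 1, 4), 3), ((0, 1, 8), 2), ((0, 1, 14), 1), ((0, 2, 4), 24), ((0, 2, 8), 8), ((0, 4, 8), 6), ((0, 4, 11), 20), ((0, 7, 8), 9), ((1, 2, 8), 14), ((1, 4, 8), 5), ((1, 6, 8), 11)], 1, [[-2, 1, -1, 0], [0, -1, 1, -4], [-1, 1, -1, 0], [0, 0, 0, 0], [0, -1, -1, 0], [0, 0, 0, 0], [-1, 0, 0, 0], [0, 0, 0, 0], [-2, -1, -1, 4], [0, 0, 0, 0], [0, 0, 0, 0], [-1, 0, 0, 0], [0, 0, 0, 0], [0, 0, 0, 0], [0, 0, 0, 0], [-1, 1, -1, 0]]⟩,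
    ⟨[22, 25, 0], [1, 2, 3, 4, 5, 6, 7, 8, 9, 10, 11, 14, 15, 18, 19, 20, 23, 24, 27, 28, 31, 32], (1, 2, 4), [(9, 45), (14, 46), (24, 47), (28, 48)], [], 0, []⟩,
    ⟨[15, 25, 0], [1, 2, 3, 4, 5, 7, 9, 19, 20, 22, 30, 31, 32], (0, 0, 0), [], [((0, 1, 2), 4), ((0, 1, 4), 3), ((0, 1, 8), 2), ((0, 1, 14), 1), ((0, 2, 4), 32), ((0, 2, 8), 31), ((0, 4, 8), 30), ((1, 2, 4), 9), ((1, 2, 8), 7), ((1, 2, 12), 22), ((1, 4, 8), 5), ((1, 4, 10), 20), ((1, 6, 8), 19)], 1, [[-1, 1, -8], [-2, -1, -2], [-2, -1, -2], [0, 0, 0], [-2, -1, -2], [0, 0, 0], [-1, 0, -2], [0, 0, 0], [-2, -1, -2], [0, 0, 0], [-1, 0, -2], [0, 0, 0], [-1, 0, -2], [0, 0, 0], [0, 0, 0], [0, -1, -2]]⟩,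
    ⟨[18, 25, 0], [1, 2, 3, 4, 5, 8, 10, 22, 23, 24, 31, 32, 33], (0, 0, 0), [], [((0, 1, 2), 4), ((0, 1, 4), 3), ((0, 1, 8), 2), ((0, 1, 14), 1), ((0, 4, 8), 33), ((0, 4, 11), 32), ((0, 7, 8), 31), ((1, 2, 4), 24), ((1, 2, 8), 23), ((1, 2, 12), 22), ((1, 4, 8), 5), ((1, 4, 10), 8), ((1, 6, 8), 10)], 1, [[-1, 1, -8], [-2, -1, -2], [0, -1, -2], [0, 0, 0], [-2, -1, -2], [0, 0, 0], [0, 0, 0], [-1, 0, -2], [-2, -1, -2], [0, 0, 0], [0, 0, 0], [-1, 0, -2], [-1, 0, -2], [0, 0, 0], [0, 0, 0], [-2, -1, -2]]⟩,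
    ⟨[31, 25, 0], [1, 2, 3, 4, 5, 8, 9, 15, 16, 18, 19, 22, 23], (0, 0, 0), [], [((0, 1, 2), 4), ((0, 1, 4), 3), ((0, 1, 8), 2), ((0, 1, 14), 1), ((0, 2, 4), 18), ((0, 4, 8), 16), ((0, 4, 11), 15), ((1, 2, 4), 9), ((1, 2, 8), 23), ((1, 2, 12), 22), ((1, 4, 8), 5), ((1, 4, 10), 8), ((1, 6, 8), 19)], 1, [[-1, 1, -4], [-2, -1, 0], [-1, -1, 0], [0, 0, 0], [-3, -1, 4], [0, 0, 0], [-1, 0, 0], [0, 0, 0], [-1, -1, 0], [0, 0, 0], [0, 0, 0], [-1, 0, 0], [-1, 0, 0], [0, 0, 0], [0, 0, 0], [-1, -1, 0]]⟩,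
    ⟨[32, 25, 0], [1, 2, 3, 4, 5, 7, 10, 15, 17, 18, 20, 22, 24], (0, 0, 0), [], [((0, 1, 2), 4), ((0, 1, 4), 3), ((0, 1, 8), 2), ((0, 1, 14), 1), ((0, 2, 8), 18), ((0, 4, 8), 17), ((0, 7, 8), 15), ((1, 2, 4), 24), ((1, 2, 8), 7), ((1, 2, 12), 22), ((1, 4, 8), 5), ((1, 4, 10), 20), ((1, 6, 8), 10)], 1, [[-1, 1, -4], [-2, -1, 0], [-1, -1, 0], [0, 0, 0], [-1, -1, 0], [0, 0, 0], [0, 0, 0], [-1, 0, 0], [-3, -1, 4], [0, 0, 0], [-1, 0, 0], [0, 0, 0], [-1, 0, 0], [0, 0, 0], [0, 0, 0], [-1, -1, 0]]⟩,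
    ⟨[25, 0], [1, 2, 3, 4, 5, 6, 7, 8, 9, 10, 11, 12, 13, 14, 15, 16, 17, 18, 19, 20, 21, 22, 23, 24, 26, 27, 28, 29, 30, 31, 32, 33], (0, 2, 13), [(5, 44), (22, 49), (15, 50), (18, 51), (31, 52), (32, 53)], [], 0, []⟩,
    ⟨[0], [1, 2, 3, 4, 5, 6, 7, 8, 9, 10, 11, 12, 13, 14, 15, 16, 17, 18, 19, 20, 21, 22, 23, 24, 25, 26, 27, 28, 29, 30, 31, 32, 33], (0, 1, 10), [(7, 9), (8, 19), (20, 29), (23, 39), (25, 54)], [], 0, []⟩]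

def tab7 : List Nd := tab7_0 ++ (tab7_1)

theorem ok7_0 : okPart R7 tab7 0 25 = true := by decide +kernel

theorem ok7_1 : okPart R7 tab7 25 25 = true := by decide +kernel

theorem ok7_2 : okPart R7 tab7 50 6 = true := by decide +kernel

theorem len7 : tab7.length = 56 := by decide +kernel

theorem okT7 : okTab R7 tab7 := by
  intro i hi
  rw [len7] at hi
  by_cases h0 : i < 25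
  · exact part_spec ok7_0 (by omega) (by omega)
  by_cases h1 : i < 50
  · exact part_spec ok7_1 (by omega) (by omega)
  exact part_spec ok7_2 (by omega) (by omega)

theorem ok7 : okRoot R7 tab7 1 = true := by decide +kernel

theorem okR7 : chkR (R7.drop 1) I7 = true := by decide +kernel

end Pool.Agent.helper25.AG
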