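import Pool.Agent.helper25.AG.Typ

set_option autoImplicit false
set_option linter.unusedSectionVars false
set_option linter.unusedVariables false

/-!
# Project AG: planes in the support
-/

namespace Pool.Agent.helper25.AG

open Finset Pool.Agent.helper25.PV

/-- the function is positive on the plane -/
def posP (D : W4 → ℚ) (P : Pl) : Prop := 0 < D (pt P.1) ∧ 0 < D (pt P.2.1) ∧ 0 < D (pt P.2.2) ∧
  0 < D (pt (P.1 ^^^ P.2.1 ^^^ P.2.2))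

/-! ### numbers from bits -/

def enc : List Bool → ℕ
  | [] => 0
  | b :: l => (bif b then 1 else 0) + 2 * enc l

theorem enc_lt : ∀ l : List Bool, enc l < 2 ^ l.length
  | [] => by simp [enc]
  | b :: l => by
    have := enc_lt l
    rw [List.length_cons, pow_succ]
    unfold enc
    cases b <;> simp <;> omega

theorem enc_testBit : ∀ (l : List Bool) (k : ℕ), (enc l).testBit k = l.getD k false
  | [], k => by simp [enc]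
  | b :: l, 0 => by
    unfold enc
    cases b
    · simp [Nat.testBit_zero]
    · simp [Nat.testBit_zero, Nat.add_mod]
  | b :: l, k + 1 => by
    have := enc_testBit l k
    unfold enc
    rw [Nat.testBit_succ]
    have h2 : ((bif b then 1 else 0) + 2 * enc l) / 2 = enc l := by
      cases b <;> simp <;> omega
    rw [h2, this]
    simp

/-! ### one tight inequality of type 2 -/

def Hp : List ℕ := [1, 2, 4, 7, 8, 11, 13, 14]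

/-- membership in the support outside the hyperplane -/
def inG (m x : ℕ) : Bool := (List.range 8).any fun k => m.testBit k && Nat.beq (Hp.getD k 0) x

/-- the known zeros -/
def inZ (m x : ℕ) : Bool := (pr (x &&& 15) && !(inG m x)) ||
  (List.range 16).any fun a => inG m a && (inG m (a ^^^ x) && !(Nat.beq x 0))

def sumIt : List (ℕ × Item) → ℕ → ℤ
  | [], _ => 0
  | a :: l, k => (a.1 : ℤ) * iv a.2 k + sumIt l k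

def tabA : List (Pl × List (ℕ × Item) × ℤ) :=
  [((0, 0, 0), [(1, 1, 0, 1, 2, 4, 8)], -2),
    ((0, 0, 0), [(2, 1, 0, 1, 2, 4, 8), (1, 1, 1, 1, 2, 4, 8)], -4),
    ((0, 0, 0), [(2, 1, 0, 1, 2, 4, 8), (1, 1, 1, 2, 1, 4, 8)], -4),
    ((0, 0, 0), [(1, 1, 1, 1, 2, 4, 8), (1, 1, 1, 2, 1, 4, 8), (4, 2, 0, 1, 2, 4, 9), (4, 2, 0, 1, 2, 5, 8), (4, 2, 0, 1, 2, 5, 9)], -8),
    ((0, 0, 0), [(2, 1, 0, 1, 2, 4, 8), (1, 1, 1, 2, 4, 1, 8)], -4),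
    ((0, 0, 0), [(1, 1, 1, 2, 4, 1, 8), (5, 2, 0, 1, 2, 4, 9), (5, 2, 0, 1, 3, 4, 8), (5, 2, 0, 1, 3, 4, 9), (1, 2, 1, 1, 3, 5, 9), (1, 2, 1, 1, 3, 5, 8), (1, 2, 1, 1, 2, 5, 9), (1, 2, 1, 1, 2, 5, 8)], -11),
    ((0, 0, 0), [(3, 2, 0, 1, 2, 4, 9), (3, 2, 0, 3, 1, 4, 8), (3, 2, 0, 3, 1, 4, 9), (1, 2, 1, 3, 1, 5, 9), (1, 2, 1, 3, 1, 5, 8), (1, 2, 1, 3, 5, 1, 9), (1, 2, 1, 3, 5, 1, 8)], -7),
    ((0, 0, 0), [(1, 1, 1, 2, 1, 4, 8), (1, 1, 1, 2, 4, 1, 8), (10, 2, 0, 1, 2, 4, 9), (2, 2, 1, 1, 3, 5, 9), (2, 2, 1, 1, 3, 5, 8)], -6),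
    ((0, 0, 0), [(2, 1, 0, 1, 2, 4, 8), (1, 1, 1, 2, 4, 7, 8)], -4),
    ((0, 0, 0), [(1, 1, 1, 2, 4, 7, 8), (5, 2, 0, 1, 2, 4, 9), (5, 2, 0, 1, 3, 5, 8), (5, 2, 0, 1, 3, 5, 9), (1, 2, 1, 1, 3, 4, 9), (1, 2, 1, 1, 3, 4, 8), (1, 2, 1, 1, 2, 5, 9), (1, 2, 1, 1, 2, 5, 8)], -11),
    ((0, 0, 0), [(3, 2, 0, 1, 2, 4, 9), (3, 2, 0, 3, 1, 5, 8), (3, 2, 0, 3, 1, 5, 9), (1, 2, 1, 3, 1, 4, 9), (1, 2, 1, 3, 1, 4, 8), (1, 2, 1, 3, 5, 7, 9), (1, 2, 1, 3, 5, 7, 8)], -7),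
    ((0, 0, 0), [(1, 1, 1, 2, 1, 4, 8), (1, 1, 1, 2, 4, 7, 8), (10, 2, 0, 1, 2, 4, 9), (2, 2, 1, 1, 3, 4, 9), (2, 2, 1, 1, 3, 4, 8)], -6),
    ((0, 0, 0), [(3, 2, 0, 1, 2, 4, 9), (3, 2, 0, 3, 5, 1, 8), (3, 2, 0, 3, 5, 1, 9), (1, 2, 1, 3, 4, 1, 9), (1, 2, 1, 3, 4, 1, 8), (1, 2, 1, 3, 4, 6, 9), (1, 2, 1, 3, 4, 6, 8)], -7),
    ((0, 0, 0), [(4, 2, 0, 1, 2, 4, 9), (1, 2, 1, 1, 2, 5, 9), (1, 2, 1, 3, 5, 9, 2), (1, 2, 1, 3, 4, 1, 8), (1, 2, 1, 3, 4, 6, 8)], -3),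
    ((0, 0, 0), [(4, 2, 0, 1, 2, 4, 9), (1, 2, 1, 3, 5, 9, 2), (1, 2, 1, 2, 1, 5, 9), (1, 2, 1, 2, 5, 1, 9), (1, 2, 1, 2, 5, 6, 9)], -3),
    ((1, 2, 4), [], 0),
    ((0, 0, 0), [(2, 1, 0, 1, 2, 4, 8), (1, 1, 1, 2, 4, 8, 1)], -4),
    ((0, 0, 0), [(1, 1, 1, 2, 4, 8, 1), (5, 2, 0, 1, 2, 5, 8), (5, 2, 0, 1, 3, 4, 8), (5, 2, 0, 1, 3, 5, 8), (1, 2, 1, 1, 3, 5, 9), (1, 2, 1, 1, 3, 4, 9), (1, 2, 1, 1, 2, 5, 9), (1, 2, 1, 1, 2, 4, 9)], -11),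
    ((0, 0, 0), [(3, 2, 0, 1, 2, 5, 8), (3, 2, 0, 3, 1, 4, 8), (3, 2, 0, 3, 1, 5, 8), (1, 2, 1, 3, 1, 5, 9), (1, 2, 1, 3, 1, 4, 9), (1, 2, 1, 3, 5, 9, 1), (1, 2, 1, 3, 5, 8, 1)], -7),
    ((0, 0, 0), [(1, 1, 1, 2, 1, 4, 8), (1, 1, 1, 2, 4, 8, 1), (10, 2, 0, 1, 2, 5, 8), (2, 2, 1, 1, 3, 5, 9), (2, 2, 1, 1, 3, 4, 9)], -6),
    ((0, 0, 0), [(3, 2, 0, 1, 3, 4, 8), (3, 2, 0, 3, 1, 4, 8), (3, 2, 0, 3, 5, 1, 8), (1, 2, 1, 3, 5, 1, 9), (1, 2, 1, 3, 5, 9, 1), (1, 2, 1, 3, 4, 1, 9), (1, 2, 1, 3, 4, 9, 1)], -7),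
    ((0, 0, 0), [(1, 1, 1, 2, 3, 4, 8), (6, 2, 0, 1, 3, 4, 8), (2, 2, 1, 1, 3, 5, 9), (2, 2, 1, 3, 4, 1, 9), (2, 2, 1, 3, 4, 9, 1)], -4),
    ((0, 0, 0), [(1, 1, 1, 2, 3, 4, 8), (6, 2, 0, 3, 1, 4, 8), (2, 2, 1, 3, 1, 5, 9), (2, 2, 1, 2, 5, 1, 9), (2, 2, 1, 2, 5, 9, 1)], -4),
    ((0, 0, 0), [(1, 4, 0, 1, 2, 4, 8)], 0),
    ((0, 0, 0), [(3, 2, 0, 1, 3, 5, 8), (3, 2, 0, 3, 1, 5, 8), (3, 2, 0, 3, 5, 1, 8), (1, 2, 1, 3, 5, 9, 1), (1, 2, 1, 3, 5, 7, 9), (1, 2, 1, 3, 4, 6, 9), (1, 2, 1, 3, 4, 8, 1)], -7),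
    ((0, 0, 0), [(1, 1, 1, 2, 3, 4, 8), (6, 2, 0, 1, 3, 5, 8), (2, 2, 1, 1, 3, 4, 9), (2, 2, 1, 3, 4, 6, 9), (2, 2, 1, 3, 4, 8, 1)], -4),
    ((0, 0, 0), [(1, 1, 1, 2, 3, 4, 8), (6, 2, 0, 3, 1, 5, 8), (2, 2, 1, 3, 1, 4, 9), (2, 2, 1, 2, 5, 6, 9), (2, 2, 1, 2, 5, 8, 1)], -4),
    ((0, 0, 0), [(1, 4, 0, 1, 2, 7, 8)], 0),
    ((0, 0, 0), [(1, 1, 1, 2, 4, 1, 8), (1, 1, 1, 2, 4, 7, 8), (10, 2, 0, 3, 5, 1, 8), (2, 2, 1, 3, 5, 9, 1), (2, 2, 1, 2, 4, 9, 1)], -6),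
    ((0, 0, 0), [(1, 4, 0, 1, 6, 8, 2)], 0),
    ((0, 0, 0), [(1, 4, 0, 3, 4, 8, 1)], 0),
    ((1, 2, 4), [], 0),
    ((0, 0, 0), [(2, 1, 0, 1, 2, 4, 8), (1, 1, 1, 2, 4, 8, 7)], -4),
    ((0, 0, 0), [(1, 1, 1, 2, 4, 8, 7), (5, 2, 0, 1, 2, 5, 8), (5, 2, 0, 1, 3, 4, 9), (5, 2, 0, 1, 3, 5, 9), (1, 2, 1, 1, 3, 5, 8), (1, 2, 1, 1, 3, 4, 8), (1, 2, 1, 1, 2, 5, 9), (1, 2, 1, 1, 2, 4, 9)], -11),
    ((0, 0, 0), [(3, 2, 0, 1, 2, 5, 8), (3, 2, 0, 3, 1, 4, 9), (3, 2, 0, 3, 1, 5, 9), (1, 2, 1, 3, 1, 5, 8), (1, 2, 1, 3, 1, 4, 8), (1, 2, 1, 3, 5, 9, 7), (1, 2, 1, 3, 5, 8, 7)], -7),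
    ((0, 0, 0), [(1, 1, 1, 2, 1, 4, 8), (1, 1, 1, 2, 4, 8, 7), (10, 2, 0, 1, 2, 5, 8), (2, 2, 1, 1, 3, 5, 8), (2, 2, 1, 1, 3, 4, 8)], -6),
    ((0, 0, 0), [(3, 2, 0, 1, 3, 4, 9), (3, 2, 0, 3, 1, 4, 9), (3, 2, 0, 3, 5, 1, 8), (1, 2, 1, 3, 5, 1, 9), (1, 2, 1, 3, 5, 9, 7), (1, 2, 1, 3, 4, 1, 8), (1, 2, 1, 3, 4, 9, 6)], -7),
    ((0, 0, 0), [(1, 1, 1, 2, 3, 4, 8), (6, 2, 0, 1, 3, 4, 9), (2, 2, 1, 1, 3, 5, 8), (2, 2, 1, 3, 4, 1, 8), (2, 2, 1, 3, 4, 9, 6)], -4),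
    ((0, 0, 0), [(1, 1, 1, 2, 3, 4, 8), (6, 2, 0, 3, 1, 4, 9), (2, 2, 1, 3, 1, 5, 8), (2, 2, 1, 2, 5, 1, 8), (2, 2, 1, 2, 5, 9, 6)], -4),
    ((0, 0, 0), [(1, 4, 0, 1, 2, 4, 11)], 0),
    ((0, 0, 0), [(3, 2, 0, 1, 3, 5, 9), (3, 2, 0, 3, 1, 5, 9), (3, 2, 0, 3, 5, 1, 8), (1, 2, 1, 3, 5, 9, 7), (1, 2, 1, 3, 5, 7, 9), (1, 2, 1, 3, 4, 6, 8), (1, 2, 1, 3, 4, 8, 6)], -7),
    ((0, 0, 0), [(1, 1, 1, 2, 3, 4, 8), (6, 2, 0, 1, 3, 5, 9), (2, 2, 1, 1, 3, 4, 8), (2, 2, 1, 3, 4, 6, 8), (2, 2, 1, 3, 4, 8, 6)], -4),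
    ((0, 0, 0), [(1, 1, 1, 2, 3, 4, 8), (6, 2, 0, 3, 1, 5, 9), (2, 2, 1, 3, 1, 4, 8), (2, 2, 1, 2, 5, 6, 8), (2, 2, 1, 2, 5, 8, 6)], -4),
    ((0, 0, 0), [(1, 4, 0, 1, 2, 7, 11)], 0),
    ((0, 0, 0), [(1, 1, 1, 2, 4, 1, 8), (1, 1, 1, 2, 4, 7, 8), (10, 2, 0, 3, 5, 1, 8), (2, 2, 1, 3, 5, 9, 7), (2, 2, 1, 2, 4, 9, 7)], -6),
    ((0, 0, 0), [(1, 4, 0, 1, 6, 8, 3)], 0),
    ((0, 0, 0), [(1, 4, 0, 3, 4, 8, 5)], 0),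
    ((1, 2, 4), [], 0),
    ((0, 0, 0), [(3, 2, 0, 1, 2, 5, 8), (3, 2, 0, 3, 5, 1, 8), (3, 2, 0, 3, 5, 9, 1), (1, 2, 1, 3, 4, 9, 1), (1, 2, 1, 3, 4, 9, 6), (1, 2, 1, 3, 4, 8, 1), (1, 2, 1, 3, 4, 8, 6)], -7),
    ((0, 0, 0), [(4, 2, 0, 1, 2, 5, 8), (1, 2, 1, 1, 2, 5, 9), (1, 2, 1, 3, 5, 2, 9), (1, 2, 1, 3, 4, 8, 1), (1, 2, 1, 3, 4, 8, 6)], -3),
    ((0, 0, 0), [(4, 2, 0, 1, 2, 5, 8), (1, 2, 1, 3, 5, 2, 9), (1, 2, 1, 2, 1, 5, 9), (1, 2, 1, 2, 5, 9, 1), (1, 2, 1, 2, 5, 9, 6)], -3),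
    ((1, 2, 8), [], 0),
    ((0, 0, 0), [(1, 1, 1, 2, 4, 1, 8), (1, 1, 1, 2, 4, 8, 1), (10, 2, 0, 3, 5, 1, 8), (2, 2, 1, 3, 4, 9, 6), (2, 2, 1, 2, 5, 9, 6)], -6),
    ((0, 0, 0), [(1, 4, 0, 1, 6, 2, 8)], 0),
    ((0, 0, 0), [(1, 4, 0, 3, 4, 1, 8)], 0),
    ((1, 2, 8), [], 0),
    ((0, 0, 0), [(1, 1, 1, 2, 4, 3, 8), (6, 2, 0, 3, 5, 1, 8), (2, 2, 1, 3, 5, 7, 9), (2, 2, 1, 3, 4, 8, 1), (2, 2, 1, 3, 4, 8, 6)], -4),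
    ((0, 0, 0), [(1, 4, 0, 1, 6, 3, 8)], 0),
    ((0, 0, 0), [(1, 4, 0, 3, 4, 5, 8)], 0),
    ((1, 2, 8), [], 0),
    ((4, 7, 8), [], 0),
    ((4, 7, 8), [], 0),
    ((4, 7, 8), [], 0),
    ((1, 2, 4), [], 0),
    ((0, 0, 0), [(2, 1, 0, 1, 2, 4, 8), (1, 1, 1, 2, 4, 8, 11)], -4),
    ((0, 0, 0), [(1, 1, 1, 2, 4, 8, 11), (5, 2, 0, 1, 2, 5, 9), (5, 2, 0, 1, 3, 4, 8), (5, 2, 0, 1, 3, 5, 9), (1, 2, 1, 1, 3, 5, 8), (1, 2, 1, 1, 3, 4, 9), (1, 2, 1, 1, 2, 5, 8), (1, 2, 1, 1, 2, 4, 9)], -11),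
    ((0, 0, 0), [(3, 2, 0, 1, 2, 5, 9), (3, 2, 0, 3, 1, 4, 9), (3, 2, 0, 3, 1, 5, 8), (1, 2, 1, 3, 1, 5, 9), (1, 2, 1, 3, 1, 4, 8), (1, 2, 1, 3, 5, 9, 11), (1, 2, 1, 3, 5, 8, 10)], -7),
    ((0, 0, 0), [(1, 1, 1, 2, 1, 4, 8), (1, 1, 1, 2, 4, 8, 11), (10, 2, 0, 1, 2, 5, 9), (2, 2, 1, 1, 3, 5, 8), (2, 2, 1, 1, 3, 4, 9)], -6),
    ((0, 0, 0), [(3, 2, 0, 1, 3, 4, 8), (3, 2, 0, 3, 1, 4, 9), (3, 2, 0, 3, 5, 1, 9), (1, 2, 1, 3, 5, 1, 8), (1, 2, 1, 3, 5, 9, 11), (1, 2, 1, 3, 4, 1, 8), (1, 2, 1, 3, 4, 9, 11)], -7),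
    ((0, 0, 0), [(1, 1, 1, 2, 4, 1, 8), (1, 1, 1, 2, 4, 8, 11), (10, 2, 0, 1, 3, 4, 8), (2, 2, 1, 1, 3, 5, 8), (2, 2, 1, 1, 2, 5, 8)], -6),
    ((0, 0, 0), [(1, 1, 1, 2, 1, 4, 8), (1, 1, 1, 2, 4, 1, 8), (10, 2, 0, 3, 1, 4, 9), (2, 2, 1, 3, 5, 9, 11), (2, 2, 1, 2, 5, 9, 10)], -6),
    ((0, 0, 0), [(1, 4, 0, 1, 2, 4, 10)], 0),
    ((0, 0, 0), [(3, 2, 0, 1, 3, 5, 9), (3, 2, 0, 3, 1, 5, 8), (3, 2, 0, 3, 5, 1, 9), (1, 2, 1, 3, 5, 9, 11), (1, 2, 1, 3, 5, 7, 8), (1, 2, 1, 3, 4, 6, 9), (1, 2, 1, 3, 4, 8, 10)], -7),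
    ((0, 0, 0), [(1, 1, 1, 2, 4, 3, 8), (6, 2, 0, 1, 3, 5, 9), (2, 2, 1, 1, 2, 5, 8), (2, 2, 1, 3, 5, 7, 8), (2, 2, 1, 3, 4, 8, 10)], -4),
    ((0, 0, 0), [(1, 1, 1, 2, 1, 4, 8), (1, 1, 1, 2, 4, 7, 8), (10, 2, 0, 3, 1, 5, 8), (2, 2, 1, 3, 5, 9, 11), (2, 2, 1, 2, 5, 8, 11)], -6),
    ((0, 0, 0), [(1, 4, 0, 1, 2, 7, 9)], 0),
    ((0, 0, 0), [(1, 1, 1, 2, 4, 1, 8), (1, 1, 1, 2, 4, 7, 8), (10, 2, 0, 3, 5, 1, 9), (2, 2, 1, 3, 5, 9, 11), (2, 2, 1, 2, 4, 9, 10)], -6),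
    ((0, 0, 0), [(1, 4, 0, 1, 6, 8, 11)], 0),
    ((0, 0, 0), [(1, 4, 0, 3, 4, 8, 9)], 0),
    ((1, 2, 4), [], 0),
    ((0, 0, 0), [(3, 2, 0, 1, 3, 4, 8), (3, 2, 0, 3, 1, 5, 8), (3, 2, 0, 3, 5, 9, 1), (1, 2, 1, 3, 5, 8, 1), (1, 2, 1, 3, 5, 8, 10), (1, 2, 1, 3, 4, 8, 1), (1, 2, 1, 3, 4, 8, 10)], -7),
    ((0, 0, 0), [(1, 1, 1, 2, 4, 8, 1), (1, 1, 1, 2, 4, 8, 11), (10, 2, 0, 1, 3, 4, 8), (2, 2, 1, 1, 3, 4, 9), (2, 2, 1, 1, 2, 4, 9)], -6),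
    ((0, 0, 0), [(1, 1, 1, 2, 1, 4, 8), (1, 1, 1, 2, 4, 8, 1), (10, 2, 0, 3, 1, 5, 8), (2, 2, 1, 3, 5, 8, 10), (2, 2, 1, 2, 5, 9, 10)], -6),
    ((0, 0, 0), [(1, 4, 0, 1, 2, 6, 8)], 0),
    ((0, 0, 0), [(4, 2, 0, 1, 3, 4, 8), (1, 2, 1, 3, 2, 5, 9), (1, 2, 1, 2, 5, 1, 9), (1, 2, 1, 2, 5, 9, 1), (1, 2, 1, 2, 5, 9, 10)], -3),
    ((1, 4, 8), [], 0),
    ((0, 0, 0), [(1, 4, 0, 3, 1, 4, 8)], 0),
    ((1, 4, 8), [], 0),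
    ((0, 0, 0), [(4, 2, 0, 3, 1, 5, 8), (1, 2, 1, 3, 4, 6, 9), (1, 2, 1, 3, 4, 8, 1), (1, 2, 1, 3, 4, 8, 10), (1, 2, 1, 2, 3, 4, 9)], -3),
    ((0, 0, 0), [(1, 4, 0, 1, 3, 6, 8)], 0),
    ((2, 7, 8), [], 0),
    ((2, 7, 8), [], 0),
    ((0, 0, 0), [(1, 4, 0, 3, 5, 4, 8)], 0),
    ((1, 4, 8), [], 0),
    ((2, 7, 8), [], 0),
    ((1, 2, 4), [], 0),
    ((0, 0, 0), [(3, 2, 0, 1, 3, 5, 9), (3, 2, 0, 3, 1, 4, 9), (3, 2, 0, 3, 5, 9, 1), (1, 2, 1, 3, 5, 8, 10), (1, 2, 1, 3, 5, 8, 7), (1, 2, 1, 3, 4, 9, 6), (1, 2, 1, 3, 4, 9, 11)], -7),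
    ((0, 0, 0), [(1, 1, 1, 2, 4, 8, 3), (6, 2, 0, 1, 3, 5, 9), (2, 2, 1, 1, 2, 4, 9), (2, 2, 1, 3, 5, 8, 7), (2, 2, 1, 3, 4, 9, 11)], -4),
    ((0, 0, 0), [(1, 1, 1, 2, 1, 4, 8), (1, 1, 1, 2, 4, 8, 7), (10, 2, 0, 3, 1, 4, 9), (2, 2, 1, 3, 5, 8, 10), (2, 2, 1, 2, 5, 8, 11)], -6),
    ((0, 0, 0), [(1, 4, 0, 1, 2, 5, 11)], 0),
    ((0, 0, 0), [(4, 2, 0, 3, 1, 4, 9), (1, 2, 1, 3, 4, 1, 8), (1, 2, 1, 3, 4, 9, 6), (1, 2, 1, 3, 4, 9, 11), (1, 2, 1, 2, 3, 5, 8)], -3),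
    ((0, 0, 0), [(1, 4, 0, 1, 3, 4, 10)], 0),
    ((2, 4, 11), [], 0),
    ((2, 4, 11), [], 0),
    ((0, 0, 0), [(4, 2, 0, 1, 3, 5, 9), (1, 2, 1, 3, 2, 4, 8), (1, 2, 1, 2, 5, 6, 8), (1, 2, 1, 2, 5, 8, 6), (1, 2, 1, 2, 5, 8, 11)], -3),
    ((1, 7, 11), [], 0),
    ((0, 0, 0), [(1, 4, 0, 3, 1, 6, 10)], 0),
    ((1, 7, 11), [], 0),
    ((0, 0, 0), [(1, 4, 0, 3, 5, 2, 9)], 0),
    ((1, 7, 11), [], 0),
    ((2, 4, 11), [], 0),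
    ((1, 2, 4), [], 0),
    ((0, 0, 0), [(1, 1, 1, 2, 4, 8, 1), (1, 1, 1, 2, 4, 8, 7), (10, 2, 0, 3, 5, 9, 1), (2, 2, 1, 3, 5, 8, 10), (2, 2, 1, 2, 4, 9, 10)], -6),
    ((0, 0, 0), [(1, 4, 0, 1, 6, 10, 15)], 0),
    ((0, 0, 0), [(1, 4, 0, 3, 4, 9, 8)], 0),
    ((1, 2, 8), [], 0),
    ((0, 0, 0), [(1, 4, 0, 3, 5, 8, 4)], 0),
    ((1, 4, 8), [], 0),
    ((2, 4, 11), [], 0),
    ((1, 2, 8), [], 0),
    ((0, 0, 0), [(1, 4, 0, 3, 5, 9, 2)], 0),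
    ((1, 7, 11), [], 0),
    ((2, 7, 8), [], 0),
    ((1, 2, 8), [], 0),
    ((4, 7, 8), [], 0),
    ((1, 4, 8), [], 0),
    ((2, 4, 11), [], 0),
    ((1, 2, 4), [], 0),
    ((0, 0, 0), [(2, 1, 0, 1, 2, 4, 8), (1, 1, 1, 2, 4, 8, 13)], -4),
    ((0, 0, 0), [(1, 1, 1, 2, 4, 8, 13), (5, 2, 0, 1, 2, 5, 9), (5, 2, 0, 1, 3, 4, 9), (5, 2, 0, 1, 3, 5, 8), (1, 2, 1, 1, 3, 5, 9), (1, 2, 1, 1, 3, 4, 8), (1, 2, 1, 1, 2, 5, 8), (1, 2, 1, 1, 2, 4, 9)], -11),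
    ((0, 0, 0), [(3, 2, 0, 1, 2, 5, 9), (3, 2, 0, 3, 1, 4, 8), (3, 2, 0, 3, 1, 5, 9), (1, 2, 1, 3, 1, 5, 8), (1, 2, 1, 3, 1, 4, 9), (1, 2, 1, 3, 5, 9, 13), (1, 2, 1, 3, 5, 8, 12)], -7),
    ((0, 0, 0), [(1, 1, 1, 2, 1, 4, 8), (1, 1, 1, 2, 4, 8, 13), (10, 2, 0, 1, 2, 5, 9), (2, 2, 1, 1, 3, 5, 9), (2, 2, 1, 1, 3, 4, 8)], -6),
    ((0, 0, 0), [(3, 2, 0, 1, 3, 4, 9), (3, 2, 0, 3, 1, 4, 8), (3, 2, 0, 3, 5, 1, 9), (1, 2, 1, 3, 5, 1, 8), (1, 2, 1, 3, 5, 9, 13), (1, 2, 1, 3, 4, 1, 9), (1, 2, 1, 3, 4, 9, 12)], -7),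
    ((0, 0, 0), [(1, 1, 1, 2, 4, 1, 8), (1, 1, 1, 2, 4, 8, 13), (10, 2, 0, 1, 3, 4, 9), (2, 2, 1, 1, 3, 5, 9), (2, 2, 1, 1, 2, 5, 8)], -6),
    ((0, 0, 0), [(1, 1, 1, 2, 1, 4, 8), (1, 1, 1, 2, 4, 1, 8), (10, 2, 0, 3, 1, 4, 8), (2, 2, 1, 3, 5, 9, 13), (2, 2, 1, 2, 5, 9, 13)], -6),
    ((0, 0, 0), [(1, 4, 0, 1, 2, 4, 9)], 0),
    ((0, 0, 0), [(3, 2, 0, 1, 3, 5, 8), (3, 2, 0, 3, 1, 5, 9), (3, 2, 0, 3, 5, 1, 9), (1, 2, 1, 3, 5, 9, 13), (1, 2, 1, 3, 5, 7, 8), (1, 2, 1, 3, 4, 6, 8), (1, 2, 1, 3, 4, 8, 13)], -7),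
    ((0, 0, 0), [(1, 1, 1, 2, 4, 3, 8), (6, 2, 0, 1, 3, 5, 8), (2, 2, 1, 1, 2, 5, 8), (2, 2, 1, 3, 5, 7, 8), (2, 2, 1, 3, 4, 8, 13)], -4),
    ((0, 0, 0), [(1, 1, 1, 2, 1, 4, 8), (1, 1, 1, 2, 4, 7, 8), (10, 2, 0, 3, 1, 5, 9), (2, 2, 1, 3, 5, 9, 13), (2, 2, 1, 2, 5, 8, 12)], -6),
    ((0, 0, 0), [(1, 4, 0, 1, 2, 7, 10)], 0),
    ((0, 0, 0), [(1, 1, 1, 2, 4, 1, 8), (1, 1, 1, 2, 4, 7, 8), (10, 2, 0, 3, 5, 1, 9), (2, 2, 1, 3, 5, 9, 13), (2, 2, 1, 2, 4, 9, 12)], -6),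
    ((0, 0, 0), [(1, 4, 0, 1, 6, 8, 10)], 0),
    ((0, 0, 0), [(1, 4, 0, 3, 4, 8, 13)], 0),
    ((1, 2, 4), [], 0),
    ((0, 0, 0), [(3, 2, 0, 1, 3, 5, 8), (3, 2, 0, 3, 1, 4, 8), (3, 2, 0, 3, 5, 9, 1), (1, 2, 1, 3, 5, 8, 1), (1, 2, 1, 3, 5, 8, 12), (1, 2, 1, 3, 4, 9, 1), (1, 2, 1, 3, 4, 9, 12)], -7),
    ((0, 0, 0), [(1, 1, 1, 2, 4, 8, 1), (1, 1, 1, 2, 4, 8, 13), (10, 2, 0, 1, 3, 5, 8), (2, 2, 1, 1, 3, 5, 9), (2, 2, 1, 1, 2, 4, 9)], -6),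
    ((0, 0, 0), [(1, 1, 1, 2, 1, 4, 8), (1, 1, 1, 2, 4, 8, 1), (10, 2, 0, 3, 1, 4, 8), (2, 2, 1, 3, 5, 8, 12), (2, 2, 1, 2, 5, 8, 12)], -6),
    ((0, 0, 0), [(1, 4, 0, 1, 2, 5, 8)], 0),
    ((0, 0, 0), [(4, 2, 0, 3, 1, 4, 8), (1, 2, 1, 3, 4, 1, 9), (1, 2, 1, 3, 4, 9, 1), (1, 2, 1, 3, 4, 9, 12), (1, 2, 1, 2, 3, 5, 9)], -3),
    ((0, 0, 0), [(1, 4, 0, 1, 3, 4, 8)], 0),
    ((2, 4, 8), [], 0),
    ((2, 4, 8), [], 0),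
    ((0, 0, 0), [(4, 2, 0, 1, 3, 5, 8), (1, 2, 1, 3, 2, 4, 9), (1, 2, 1, 2, 5, 6, 9), (1, 2, 1, 2, 5, 8, 1), (1, 2, 1, 2, 5, 8, 12)], -3),
    ((1, 7, 8), [], 0),
    ((0, 0, 0), [(1, 4, 0, 3, 1, 6, 8)], 0),
    ((1, 7, 8), [], 0),
    ((0, 0, 0), [(1, 4, 0, 3, 5, 2, 8)], 0),
    ((1, 7, 8), [], 0),
    ((2, 4, 8), [], 0),
    ((1, 2, 4), [], 0),
    ((0, 0, 0), [(3, 2, 0, 1, 3, 4, 9), (3, 2, 0, 3, 1, 5, 9), (3, 2, 0, 3, 5, 9, 1), (1, 2, 1, 3, 5, 8, 12), (1, 2, 1, 3, 5, 8, 7), (1, 2, 1, 3, 4, 8, 6), (1, 2, 1, 3, 4, 8, 13)], -7),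
    ((0, 0, 0), [(1, 1, 1, 2, 4, 8, 3), (6, 2, 0, 1, 3, 4, 9), (2, 2, 1, 1, 2, 4, 9), (2, 2, 1, 3, 5, 8, 7), (2, 2, 1, 3, 4, 8, 13)], -4),
    ((0, 0, 0), [(1, 1, 1, 2, 1, 4, 8), (1, 1, 1, 2, 4, 8, 7), (10, 2, 0, 3, 1, 5, 9), (2, 2, 1, 3, 5, 8, 12), (2, 2, 1, 2, 5, 9, 13)], -6),
    ((0, 0, 0), [(1, 4, 0, 1, 2, 6, 11)], 0),
    ((0, 0, 0), [(4, 2, 0, 1, 3, 4, 9), (1, 2, 1, 3, 2, 5, 8), (1, 2, 1, 2, 5, 1, 8), (1, 2, 1, 2, 5, 9, 6), (1, 2, 1, 2, 5, 9, 13)], -3),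
    ((1, 4, 11), [], 0),
    ((0, 0, 0), [(1, 4, 0, 3, 1, 4, 10)], 0),
    ((1, 4, 11), [], 0),
    ((0, 0, 0), [(4, 2, 0, 3, 1, 5, 9), (1, 2, 1, 3, 4, 6, 8), (1, 2, 1, 3, 4, 8, 6), (1, 2, 1, 3, 4, 8, 13), (1, 2, 1, 2, 3, 4, 8)], -3),
    ((0, 0, 0), [(1, 4, 0, 1, 3, 6, 10)], 0),
    ((2, 7, 11), [], 0),
    ((2, 7, 11), [], 0),
    ((0, 0, 0), [(1, 4, 0, 3, 5, 4, 9)], 0),
    ((1, 4, 11), [], 0),
    ((2, 7, 11), [], 0),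
    ((1, 2, 4), [], 0),
    ((0, 0, 0), [(1, 1, 1, 2, 4, 8, 1), (1, 1, 1, 2, 4, 8, 7), (10, 2, 0, 3, 5, 9, 1), (2, 2, 1, 3, 5, 8, 12), (2, 2, 1, 2, 4, 9, 12)], -6),
    ((0, 0, 0), [(1, 4, 0, 1, 6, 10, 8)], 0),
    ((0, 0, 0), [(1, 4, 0, 3, 4, 9, 15)], 0),
    ((1, 2, 8), [], 0),
    ((0, 0, 0), [(1, 4, 0, 3, 5, 8, 2)], 0),
    ((1, 4, 11), [], 0),
    ((2, 4, 8), [], 0),
    ((1, 2, 8), [], 0),
    ((0, 0, 0), [(1, 4, 0, 3, 5, 9, 4)], 0),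
    ((1, 7, 8), [], 0),
    ((2, 7, 11), [], 0),
    ((1, 2, 8), [], 0),
    ((4, 7, 8), [], 0),
    ((1, 4, 11), [], 0),
    ((2, 4, 8), [], 0),
    ((1, 2, 4), [], 0),
    ((0, 0, 0), [(1, 1, 1, 2, 4, 8, 11), (1, 1, 1, 2, 4, 8, 13), (4, 2, 0, 1, 2, 5, 9), (4, 2, 0, 3, 5, 1, 9), (4, 2, 0, 3, 5, 9, 1)], -8),
    ((0, 0, 0), [(4, 2, 0, 1, 2, 5, 9), (1, 2, 1, 1, 2, 5, 8), (1, 2, 1, 3, 5, 2, 8), (1, 2, 1, 3, 4, 8, 10), (1, 2, 1, 3, 4, 8, 13)], -3),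
    ((0, 0, 0), [(4, 2, 0, 1, 2, 5, 9), (1, 2, 1, 3, 5, 2, 8), (1, 2, 1, 2, 1, 5, 8), (1, 2, 1, 2, 5, 9, 10), (1, 2, 1, 2, 5, 9, 13)], -3),
    ((1, 2, 13), [], 0),
    ((0, 0, 0), [(1, 1, 1, 2, 4, 1, 8), (1, 1, 1, 2, 4, 8, 11), (10, 2, 0, 3, 5, 1, 9), (2, 2, 1, 3, 4, 9, 12), (2, 2, 1, 2, 5, 9, 13)], -6),
    ((0, 0, 0), [(1, 4, 0, 1, 6, 2, 11)], 0),
    ((0, 0, 0), [(1, 4, 0, 3, 4, 1, 10)], 0),
    ((1, 2, 13), [], 0),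
    ((0, 0, 0), [(1, 1, 1, 2, 4, 3, 8), (6, 2, 0, 3, 5, 1, 9), (2, 2, 1, 3, 5, 7, 8), (2, 2, 1, 3, 4, 8, 10), (2, 2, 1, 3, 4, 8, 13)], -4),
    ((0, 0, 0), [(1, 4, 0, 1, 6, 3, 10)], 0),
    ((0, 0, 0), [(1, 4, 0, 3, 4, 5, 9)], 0),
    ((1, 2, 13), [], 0),
    ((4, 7, 13), [], 0),
    ((4, 7, 13), [], 0),
    ((4, 7, 13), [], 0),
    ((1, 2, 4), [], 0),
    ((0, 0, 0), [(1, 1, 1, 2, 4, 8, 1), (1, 1, 1, 2, 4, 8, 11), (10, 2, 0, 3, 5, 9, 1), (2, 2, 1, 3, 4, 9, 12), (2, 2, 1, 2, 5, 8, 12)], -6),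
    ((0, 0, 0), [(1, 4, 0, 1, 6, 10, 4)], 0),
    ((0, 0, 0), [(1, 4, 0, 3, 4, 9, 2)], 0),
    ((1, 2, 13), [], 0),
    ((0, 0, 0), [(1, 4, 0, 3, 5, 8, 15)], 0),
    ((1, 4, 8), [], 0),
    ((2, 4, 8), [], 0),
    ((1, 2, 13), [], 0),
    ((0, 0, 0), [(1, 4, 0, 3, 5, 9, 8)], 0),
    ((1, 7, 8), [], 0),
    ((2, 7, 8), [], 0),
    ((1, 2, 13), [], 0),
    ((4, 7, 13), [], 0),
    ((1, 4, 8), [], 0),
    ((2, 4, 8), [], 0),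
    ((1, 2, 4), [], 0),
    ((0, 0, 0), [(1, 1, 1, 2, 4, 8, 3), (6, 2, 0, 3, 5, 9, 1), (2, 2, 1, 3, 5, 8, 7), (2, 2, 1, 3, 4, 9, 11), (2, 2, 1, 3, 4, 8, 13)], -4),
    ((0, 0, 0), [(1, 4, 0, 1, 6, 10, 3)], 0),
    ((0, 0, 0), [(1, 4, 0, 3, 4, 9, 5)], 0),
    ((1, 2, 13), [], 0),
    ((0, 0, 0), [(1, 4, 0, 3, 5, 8, 9)], 0),
    ((1, 4, 11), [], 0),
    ((2, 4, 11), [], 0),
    ((1, 2, 13), [], 0),
    ((0, 0, 0), [(1, 4, 0, 3, 5, 9, 14)], 0),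
    ((1, 7, 11), [], 0),
    ((2, 7, 11), [], 0),
    ((1, 2, 13), [], 0),
    ((4, 7, 13), [], 0),
    ((1, 4, 11), [], 0),
    ((2, 4, 11), [], 0),
    ((1, 2, 4), [], 0),
    ((8, 11, 13), [], 0),
    ((8, 11, 13), [], 0),
    ((8, 11, 13), [], 0),
    ((1, 2, 8), [], 0),
    ((8, 11, 13), [], 0),
    ((1, 4, 8), [], 0),
    ((2, 4, 8), [], 0),
    ((1, 2, 8), [], 0),
    ((8, 11, 13), [], 0),
    ((1, 7, 8), [], 0),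
    ((2, 7, 8), [], 0),
    ((1, 2, 8), [], 0),
    ((4, 7, 8), [], 0),
    ((1, 4, 8), [], 0),
    ((2, 4, 8), [], 0),
    ((1, 2, 4), [], 0)]

def okA (m : ℕ) (e : Pl × List (ℕ × Item) × ℤ) : Bool :=
  (okp e.1 && (inG m e.1.1 && (inG m e.1.2.1 && (inG m e.1.2.2 &&
    (inG m (e.1.1 ^^^ e.1.2.1 ^^^ e.1.2.2) && decide (fv (t2 0 15) e.1 = 0)))))) ||
  (e.2.1.all (fun a => oki a.2) && (List.range 16).all fun x => inZ m x ||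
    decide (sumIt e.2.1 x + e.2.2 * (t2 0 15).getD x 0 ≤ -1))

theorem tabA_ok : ((List.range 256).all fun m => okA m (tabA.getD m ((0, 0, 0), [], 0))) = true := by
  decide +kernel

theorem pairs_ok : ((List.range 16).all fun a => (List.range 16).all fun b =>
    !(pr (a &&& 15)) || (!(pr (b &&& 15)) || (Nat.beq a b || (okp (0, a, b) &&
      (decide (fv (t2 0 15) (0, a, b) = 0) && (List.range 16).all fun x =>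
        decide ((un (a ^^^ b)).getD x 0 ≤ (va (t2 0 15) (un 0)).getD x 0)))))) = true := by
  decide +kernel

theorem Hp_pr : ((List.range 16).all fun x => !(pr (x &&& 15)) ||
    (List.range 8).any fun k => Nat.beq (Hp.getD k 0) x) = true := by decide +kernel

theorem Hp_pr2 : ((List.range 8).all fun k => pr (Hp.getD k 0 &&& 15) &&
    Nat.blt (Hp.getD k 0) 16) = true := by decide +kernel

theorem sumIt_nonneg {D : W4 → ℚ} (hD : Cq D) : ∀ l : List (ℕ × Item),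
    (∀ a ∈ l, oki a.2 = true) → 0 ≤ dotn 16 (sumIt l) (fun k => D (pt k)) := by
  intro l
  induction l with
  | nil =>
    intro _
    rw [show sumIt [] = fun _ => (0 : ℤ) from rfl, dotn_zero]
  | cons a l ih =>
    intro h
    have h1 : sumIt (a :: l) = fun k => (a.1 : ℤ) * iv a.2 k + sumIt l k := rfl
    rw [h1, dotn_add, dotn_mul]
    have h2 := ih fun b hb => h b (List.mem_cons_of_mem _ hb)
    obtain ⟨g, t, h3, h4⟩ := oki_val (h a List.mem_cons_self)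
    have h5 : dotn 16 (fun k => iv a.2 k) (fun k => D (pt k)) = fval a.2.1 g t D := h4 D
    rw [h5]
    have h6 := hD _ g t h3
    have h7 : (0 : ℚ) ≤ (((a.1 : ℕ) : ℤ) : ℚ) := by positivity
    positivity

theorem dl_le' {D : W4 → ℚ} (hD : ∀ v, 0 ≤ D v) {a b : List ℤ}
    (h : ∀ x < 16, a.getD x 0 ≤ b.getD x 0) : dl D a ≤ dl D b := by
  unfold dl dotn
  refine sum_le_sum fun k hk => mul_le_mul_of_nonneg_right ?_ (hD _)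
  exact_mod_cast h k (mem_range.1 hk)

/-- a plane of the face in the support -/
theorem lemA {D : W4 → ℚ} (hD : Cq D) (h2 : dl D (t2 0 15) = 0) : D = 0 ∨
    ∃ P, okp P = true ∧ fv (t2 0 15) P = 0 ∧ posP D P := by
  classical
  let l : List Bool := Hp.map fun x => decide (0 < D (pt x))
  have hlen : l.length = 8 := by simp [l, Hp]
  have hm : enc l < 256 := by
    have := enc_lt l
    rw [hlen] at this
    exact this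
  have hbit : ∀ k < 8, (enc l).testBit k = decide (0 < D (pt (Hp.getD k 0))) := by
    intro k hk
    rw [enc_testBit]
    show (Hp.map fun x => decide (0 < D (pt x))).getD k false = _
    rw [List.getD_eq_getElem?_getD, List.getElem?_map]
    have h3 : k < Hp.length := by simpa [Hp] using hk
    rw [List.getD_eq_getElem?_getD, List.getElem?_eq_getElem h3]
    simp
  have hG : ∀ x, inG (enc l) x = true → x < 16 ∧ pr (x &&& 15) = true ∧ 0 < D (pt x) := by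
    intro x hx
    unfold inG at hx
    simp only [List.any_eq_true, List.mem_range, Bool.and_eq_true, Nat.beq_eq] at hx
    obtain ⟨k, hk, h3, rfl⟩ := hx
    have h4 := Hp_pr2
    simp only [List.all_eq_true, List.mem_range, Bool.and_eq_true, Nat.blt_eq] at h4
    rw [hbit k hk] at h3
    exact ⟨(h4 k hk).2, (h4 k hk).1, of_decide_eq_true h3⟩
  have hG2 : ∀ x < 16, pr (x &&& 15) = true → inG (enc l) x = false → D (pt x) = 0 := by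
    intro x hx h3 h4
    have h5 := Hp_pr
    simp only [List.all_eq_true, List.mem_range] at h5
    have h6 := h5 x hx
    rw [h3] at h6
    have h7 : ((List.range 8).any fun k => Nat.beq (Hp.getD k 0) x) = true := h6
    simp only [List.any_eq_true, List.mem_range, Nat.beq_eq] at h7
    obtain ⟨k, hk, rfl⟩ := h7
    by_contra hne
    have h8 : 0 < D (pt (Hp.getD k 0)) := lt_of_le_of_ne (hD.nn _) (Ne.symm hne)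
    have h9 : inG (enc l) (Hp.getD k 0) = true := by
      unfold inG
      simp only [List.any_eq_true, List.mem_range, Bool.and_eq_true, Nat.beq_eq]
      exact ⟨k, hk, by rw [hbit k hk]; exact decide_eq_true h8, rfl⟩
    rw [h4] at h9
    exact absurd h9 (by decide)
  by_cases hex : ∃ P, okp P = true ∧ fv (t2 0 15) P = 0 ∧ posP D P
  · exact Or.inr hex
  · left
    have hk := tabA_ok
    simp only [List.all_eq_true, List.mem_range] at hk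
    have h3 := hk _ hm
    generalize tabA.getD (enc l) ((0, 0, 0), [], 0) = e at h3
    unfold okA at h3
    simp only [Bool.or_eq_true, Bool.and_eq_true, List.all_eq_true, List.mem_range,
      decide_eq_true_eq] at h3
    rcases h3 with ⟨a1, a2, a3, a4, a5, a6⟩ | ⟨a1, a2⟩
    · exact absurd ⟨e.1, a1, a6, (hG _ a2).2.2, (hG _ a3).2.2, (hG _ a4).2.2, (hG _ a5).2.2⟩ hex
    · have hz : ∀ x < 16, inZ (enc l) x = true → D (pt x) = 0 := by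
        intro x hx h4
        unfold inZ at h4
        simp only [Bool.or_eq_true, Bool.and_eq_true, Bool.not_eq_true', List.any_eq_true,
          List.mem_range] at h4
        rcases h4 with ⟨h5, h6⟩ | ⟨a, ha, h5, h6, h7⟩
        · exact hG2 x hx h5 h6
        · obtain ⟨b1, b2, b3⟩ := hG _ h5
          obtain ⟨c1, c2, c3⟩ := hG _ h6
          have hne : a ≠ a ^^^ x := by
            intro h8
            have h9 : x = 0 := by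
              have := congrArg (a ^^^ ·) h8
              simpa using this.symm
            rw [h9] at h7
            exact absurd h7 (by decide)
          have hx2 : a ^^^ (a ^^^ x) = x := by simp
          have h8 := pairs_ok
          simp only [List.all_eq_true, List.mem_range] at h8
          have h9 := h8 a b1 (a ^^^ x) c1
          rw [b2, c2] at h9
          have hb : Nat.beq a (a ^^^ x) = false := by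
            rw [← Bool.not_eq_true, Nat.beq_eq]; exact hne
          rw [hb, hx2] at h9
          simp only [Bool.not_true, Bool.false_or, Bool.and_eq_true, List.all_eq_true,
            List.mem_range, decide_eq_true_eq] at h9
          obtain ⟨d1, d2, d3⟩ := h9
          have h10 := dl_le' hD.nn d3
          rw [dl_va, h2, dl_un D hx, dl_un D (by norm_num : 0 < 16)] at h10
          by_contra hne2
          have h11 : 0 < D (pt x) := lt_of_le_of_ne (hD.nn _) (Ne.symm hne2)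
          apply hex
          refine ⟨(0, a, a ^^^ x), d1, d2, ?_, b3, c3, ?_⟩
          · show 0 < D (pt 0)
            linarith only [h10, h11]
          · show 0 < D (pt (0 ^^^ a ^^^ (a ^^^ x)))
            rw [Nat.zero_xor, hx2]
            exact h11
      have h4 := sumIt_nonneg hD e.2.1 a1
      have h5 : dotn 16 (fun k => sumIt e.2.1 k + e.2.2 * (t2 0 15).getD k 0) (fun k => D (pt k)) ≤
          - ∑ x ∈ range 16, D (pt x) := by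
        unfold dotn
        rw [← sum_neg_distrib]
        refine sum_le_sum fun x hx => ?_
        have hx := mem_range.1 hx
        rcases a2 x hx with h6 | h6
        · dsimp only
          rw [hz x hx h6]
          simp
        · have h7 : ((sumIt e.2.1 x + e.2.2 * (t2 0 15).getD x 0 : ℤ) : ℚ) ≤ ((-1 : ℤ) : ℚ) := by
            exact_mod_cast h6
          have h8 := mul_le_mul_of_nonneg_right h7 (hD.nn (pt x))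
          push_cast at h8 ⊢
          linarith only [h8]
      have h6 : dotn 16 (fun k => sumIt e.2.1 k + e.2.2 * (t2 0 15).getD k 0)
          (fun k => D (pt k)) = dotn 16 (sumIt e.2.1) (fun k => D (pt k)) + e.2.2 * 0 := by
        have h7 := dotn_add 16 (sumIt e.2.1) (fun k => e.2.2 * (t2 0 15).getD k 0)
          (fun k => D (pt k))
        rw [h7, dotn_mul]
        have h8 : dotn 16 (fun k => (t2 0 15).getD k 0) (fun k => D (pt k)) = 0 := h2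
        rw [h8]
      rw [h6] at h5
      have h7 : ∑ x ∈ range 16, D (pt x) ≤ 0 := by linarith only [h4, h5]
      have h8 : ∑ x ∈ range 16, D (pt x) = 0 :=
        le_antisymm h7 (sum_nonneg fun x _ => hD.nn _)
      rw [sum_eq_zero_iff_of_nonneg fun x _ => hD.nn _] at h8
      funext v
      rw [← pt_ix v]
      exact h8 _ (mem_range.2 (ix_lt v))

/-! ### no tight inequality -/

def srch (B : List ℕ) : ℕ → ℕ → List ℕ → ℕ → Bool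
  | 0, _, _, m => B.any fun b => Nat.beq (m &&& b) m
  | n + 1, k, S, m => srch B n (k + 1) S m &&
    ((S.any fun a => S.any fun b => m.testBit (a ^^^ b ^^^ k)) ||
      srch B n (k + 1) (k :: S) (m ||| 2 ^ k))

theorem srch_sound {B : List ℕ} {D : W4 → ℚ} (hD : ∀ v, 0 ≤ D v) : ∀ (n k : ℕ) (S : List ℕ) (m : ℕ),
    srch B n k S m = true → k + n = 16 → (∀ a ∈ S, a < k ∧ 0 < D (pt a)) →
    (∀ j, m.testBit j = true → j < k ∧ 0 < D (pt j)) →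
    (∀ j < k, 0 < D (pt j) → m.testBit j = true) →
    (∃ P, okp P = true ∧ posP D P) ∨ ∃ b ∈ B, ∀ j < 16, 0 < D (pt j) → b.testBit j = true := by
  intro n
  induction n with
  | zero =>
    intro k S m h hk _ _ h5
    right
    unfold srch at h
    simp only [List.any_eq_true, Nat.beq_eq] at h
    obtain ⟨b, hb, h6⟩ := h
    refine ⟨b, hb, fun j hj hj2 => ?_⟩
    have h7 := h5 j (by omega) hj2
    rw [← h6, Nat.testBit_and, Bool.and_eq_true] at h7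
    exact h7.2
  | succ n ih =>
    intro k S m h hk h3 h4 h5
    unfold srch at h
    rw [Bool.and_eq_true, Bool.or_eq_true] at h
    obtain ⟨h6, h7⟩ := h
    by_cases hpos : 0 < D (pt k)
    · rcases h7 with h7 | h7
      · left
        simp only [List.any_eq_true] at h7
        obtain ⟨a, ha, b, hb, h8⟩ := h7
        obtain ⟨a1, a2⟩ := h3 a ha
        obtain ⟨b1, b2⟩ := h3 b hb
        obtain ⟨c1, c2⟩ := h4 _ h8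
        have hab : a ≠ b := by
          rintro rfl
          rw [Nat.xor_self, Nat.zero_xor] at c1
          omega
        have hx : a ^^^ b ^^^ (a ^^^ b ^^^ k) = k := by
          rw [← Nat.xor_assoc, Nat.xor_self, Nat.zero_xor]
        have hac : a ≠ a ^^^ b ^^^ k := by
          intro h9
          rw [← h9, Nat.xor_comm a b, Nat.xor_assoc, Nat.xor_self, Nat.xor_zero] at hx
          omega
        have hbc : b ≠ a ^^^ b ^^^ k := by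
          intro h9
          rw [← h9, Nat.xor_assoc, Nat.xor_self, Nat.xor_zero] at hx
          omega
        refine ⟨(a, b, a ^^^ b ^^^ k), ?_, a2, b2, c2, ?_⟩
        · unfold okp
          simp only [Bool.and_eq_true, Nat.ble_eq, Bool.not_eq_true']
          have nb : ∀ a b : ℕ, a ≠ b → Nat.beq a b = false := fun a b h => by
            rw [← Bool.not_eq_true, Nat.beq_eq]; exact h
          exact ⟨by omega, by omega, by omega, nb _ _ hab, nb _ _ hac, nb _ _ hbc⟩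
        · show 0 < D (pt (a ^^^ b ^^^ (a ^^^ b ^^^ k)))
          rw [hx]
          exact hpos
      · refine ih (k + 1) (k :: S) (m ||| 2 ^ k) h7 (by omega) ?_ ?_ ?_
        · intro a ha
          rcases List.mem_cons.1 ha with rfl | ha
          · exact ⟨by omega, hpos⟩
          · exact ⟨by have := (h3 a ha).1; omega, (h3 a ha).2⟩
        · intro j hj
          rw [Nat.testBit_or, Nat.testBit_two_pow, Bool.or_eq_true, decide_eq_true_eq] at hj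
          rcases hj with hj | rfl
          · exact ⟨by have := (h4 j hj).1; omega, (h4 j hj).2⟩
          · exact ⟨by omega, hpos⟩
        · intro j hj hj2
          rw [Nat.testBit_or, Nat.testBit_two_pow, Bool.or_eq_true, decide_eq_true_eq]
          by_cases h8 : k = j
          · exact Or.inr h8
          · exact Or.inl (h5 j (by omega) hj2)
    · refine ih (k + 1) S m h6 (by omega) (fun a ha => ⟨by have := (h3 a ha).1; omega,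
        (h3 a ha).2⟩) (fun j hj => ⟨by have := (h4 j hj).1; omega, (h4 j hj).2⟩) ?_
      intro j hj hj2
      by_cases h8 : j = k
      · rw [h8] at hj2
        exact absurd hj2 hpos
      · exact h5 j (by omega) hj2

def bents : List (ℕ × ℕ × (ℕ × ℕ × ℕ × ℕ)) :=
  [(33047, 0, 1, 2, 4, 8),
    (16919, 0, 1, 2, 4, 9),
    (9239, 0, 1, 2, 4, 10),
    (6167, 0, 1, 2, 4, 11),
    (16679, 0, 1, 2, 5, 8),
    (33319, 0, 1, 2, 5, 9),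
    (5159, 0, 1, 2, 5, 10),
    (10279, 0, 1, 2, 5, 11),
    (8519, 0, 1, 2, 6, 8),
    (4679, 0, 1, 2, 6, 9),
    (33863, 0, 1, 2, 6, 10),
    (18503, 0, 1, 2, 6, 11),
    (4487, 0, 1, 2, 7, 8),
    (8839, 0, 1, 2, 7, 9),
    (17543, 0, 1, 2, 7, 10),
    (34951, 0, 1, 2, 7, 11),
    (16667, 0, 1, 3, 4, 8),
    (33307, 0, 1, 3, 4, 9),
    (5147, 0, 1, 3, 4, 11),
    (10267, 0, 1, 3, 4, 10),
    (33067, 0, 1, 3, 5, 8),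
    (16939, 0, 1, 3, 5, 9),
    (9259, 0, 1, 3, 5, 11),
    (6187, 0, 1, 3, 5, 10),
    (4427, 0, 1, 3, 7, 8),
    (8779, 0, 1, 3, 7, 9),
    (17483, 0, 1, 3, 7, 11),
    (34891, 0, 1, 3, 7, 10),
    (8587, 0, 1, 3, 6, 8),
    (4747, 0, 1, 3, 6, 9),
    (33931, 0, 1, 3, 6, 11),
    (18571, 0, 1, 3, 6, 10),
    (2387, 0, 1, 6, 2, 8),
    (1619, 0, 1, 6, 2, 9),
    (36947, 0, 1, 6, 2, 10),
    (24659, 0, 1, 6, 2, 11),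
    (1427, 0, 1, 6, 8, 2),
    (2707, 0, 1, 6, 8, 3),
    (20627, 0, 1, 6, 8, 10),
    (41107, 0, 1, 6, 8, 11),
    (1379, 0, 1, 6, 9, 2),
    (2659, 0, 1, 6, 9, 3),
    (20579, 0, 1, 6, 9, 11),
    (41059, 0, 1, 6, 9, 10),
    (2467, 0, 1, 6, 3, 8),
    (1699, 0, 1, 6, 3, 9),
    (37027, 0, 1, 6, 3, 11),
    (24739, 0, 1, 6, 3, 10),
    (38147, 0, 1, 6, 10, 2),
    (25859, 0, 1, 6, 10, 4),
    (22787, 0, 1, 6, 10, 8),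
    (43267, 0, 1, 6, 10, 15),
    (22019, 0, 1, 6, 10, 14),
    (42499, 0, 1, 6, 10, 9),
    (39427, 0, 1, 6, 10, 5),
    (27139, 0, 1, 6, 10, 3),
    (8477, 0, 3, 1, 4, 8),
    (4637, 0, 3, 1, 4, 11),
    (33821, 0, 3, 1, 4, 9),
    (18461, 0, 3, 1, 4, 10),
    (4397, 0, 3, 1, 7, 8),
    (8749, 0, 3, 1, 7, 11),
    (17453, 0, 3, 1, 7, 9),
    (34861, 0, 3, 1, 7, 10),
    (33101, 0, 3, 1, 5, 8),
    (16973, 0, 3, 1, 5, 11),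
    (9293, 0, 3, 1, 5, 9),
    (6221, 0, 3, 1, 5, 10),
    (16781, 0, 3, 1, 6, 8),
    (33421, 0, 3, 1, 6, 11),
    (5261, 0, 3, 1, 6, 9),
    (10381, 0, 3, 1, 6, 10),
    (2357, 0, 3, 4, 1, 8),
    (1589, 0, 3, 4, 1, 11),
    (36917, 0, 3, 4, 1, 9),
    (24629, 0, 3, 4, 1, 10),
    (917, 0, 3, 4, 8, 1),
    (3221, 0, 3, 4, 8, 5),
    (12437, 0, 3, 4, 8, 9),
    (49301, 0, 3, 4, 8, 13),
    (869, 0, 3, 4, 11, 1),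
    (3173, 0, 3, 4, 11, 5),
    (12389, 0, 3, 4, 11, 9),
    (49253, 0, 3, 4, 11, 13),
    (2501, 0, 3, 4, 5, 8),
    (1733, 0, 3, 4, 5, 11),
    (37061, 0, 3, 4, 5, 10),
    (24773, 0, 3, 4, 5, 9),
    (37637, 0, 3, 4, 9, 1),
    (25349, 0, 3, 4, 9, 2),
    (14597, 0, 3, 4, 9, 8),
    (51461, 0, 3, 4, 9, 15),
    (13829, 0, 3, 4, 9, 11),
    (50693, 0, 3, 4, 9, 12),
    (39941, 0, 3, 4, 9, 6),
    (27653, 0, 3, 4, 9, 5),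
    (1337, 0, 3, 7, 1, 8),
    (2617, 0, 3, 7, 1, 11),
    (20537, 0, 3, 7, 1, 9),
    (41017, 0, 3, 7, 1, 10),
    (857, 0, 3, 7, 8, 1),
    (3161, 0, 3, 7, 8, 5),
    (12377, 0, 3, 7, 8, 9),
    (49241, 0, 3, 7, 8, 13),
    (937, 0, 3, 7, 11, 1),
    (3241, 0, 3, 7, 11, 5),
    (12457, 0, 3, 7, 11, 9),
    (49321, 0, 3, 7, 11, 13),
    (1481, 0, 3, 7, 5, 8),
    (2761, 0, 3, 7, 5, 11),
    (20681, 0, 3, 7, 5, 10),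
    (41161, 0, 3, 7, 5, 9),
    (21257, 0, 3, 7, 9, 1),
    (41737, 0, 3, 7, 9, 2),
    (13577, 0, 3, 7, 9, 8),
    (50441, 0, 3, 7, 9, 15),
    (14857, 0, 3, 7, 9, 11),
    (51721, 0, 3, 7, 9, 12),
    (23561, 0, 3, 7, 9, 6),
    (44041, 0, 3, 7, 9, 5),
    (33137, 0, 3, 5, 1, 8),
    (17009, 0, 3, 5, 1, 11),
    (9329, 0, 3, 5, 1, 10),
    (6257, 0, 3, 5, 1, 9),
    (16817, 0, 3, 5, 2, 8),
    (33457, 0, 3, 5, 2, 11),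
    (5297, 0, 3, 5, 2, 10),
    (10417, 0, 3, 5, 2, 9),
    (8657, 0, 3, 5, 4, 8),
    (4817, 0, 3, 5, 4, 11),
    (34001, 0, 3, 5, 4, 10),
    (18641, 0, 3, 5, 4, 9),
    (34577, 0, 3, 5, 8, 1),
    (19217, 0, 3, 5, 8, 2),
    (11537, 0, 3, 5, 8, 4),
    (57617, 0, 3, 5, 8, 15),
    (7697, 0, 3, 5, 8, 7),
    (53777, 0, 3, 5, 8, 12),
    (46097, 0, 3, 5, 8, 10),
    (30737, 0, 3, 5, 8, 9),
    (4577, 0, 3, 5, 7, 8),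
    (8929, 0, 3, 5, 7, 11),
    (17633, 0, 3, 5, 7, 10),
    (35041, 0, 3, 5, 7, 9),
    (18209, 0, 3, 5, 11, 1),
    (35617, 0, 3, 5, 11, 2),
    (7457, 0, 3, 5, 11, 4),
    (53537, 0, 3, 5, 11, 15),
    (11809, 0, 3, 5, 11, 7),
    (57889, 0, 3, 5, 11, 12),
    (29729, 0, 3, 5, 11, 10),
    (47137, 0, 3, 5, 11, 9),
    (10049, 0, 3, 5, 10, 1),
    (6977, 0, 3, 5, 10, 2),
    (36161, 0, 3, 5, 10, 4),
    (45377, 0, 3, 5, 10, 8),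
    (20033, 0, 3, 5, 10, 7),
    (29249, 0, 3, 5, 10, 11),
    (58433, 0, 3, 5, 10, 13),
    (55361, 0, 3, 5, 10, 14),
    (6017, 0, 3, 5, 9, 1),
    (11137, 0, 3, 5, 9, 2),
    (19841, 0, 3, 5, 9, 4),
    (29057, 0, 3, 5, 9, 8),
    (36481, 0, 3, 5, 9, 7),
    (45697, 0, 3, 5, 9, 11),
    (54401, 0, 3, 5, 9, 13),
    (59521, 0, 3, 5, 9, 14)]

theorem bents_ok : (bents.all fun e => oki (4, e.2) && (List.range 16).all fun x =>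
    !(e.1.testBit x) || decide (iv (4, e.2) x ≤ -1)) = true := by decide +kernel

theorem srch_ok : srch (bents.map Prod.fst) 15 1 [0] 1 = true := by decide +kernel

/-- a plane in the support -/
theorem lemB {D : W4 → ℚ} (hD : Cq D) (h0 : 0 < D (pt 0)) : ∃ P, okp P = true ∧ posP D P := by
  rcases srch_sound hD.nn 15 1 [0] 1 srch_ok (by norm_num) (fun a ha => by
      rw [List.mem_singleton.1 ha]; exact ⟨by norm_num, h0⟩)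
    (fun j hj => by
      have h1 : j = 0 := by
        rw [show (1 : ℕ) = 2 ^ 0 by norm_num, Nat.testBit_two_pow, decide_eq_true_eq] at hj
        exact hj.symm
      rw [h1]; exact ⟨by norm_num, h0⟩)
    (fun j hj _ => by
      have h1 : j = 0 := by omega
      rw [h1]; decide) with h | ⟨b, hb, h⟩
  · exact h
  · exfalso
    obtain ⟨e, he, rfl⟩ := List.mem_map.1 hb
    have h1 := bents_ok
    simp only [List.all_eq_true, Bool.and_eq_true, List.mem_range] at h1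
    obtain ⟨h2, h3⟩ := h1 e he
    obtain ⟨g, t, h4, h5⟩ := oki_val h2
    have h6 := hD _ g t h4
    rw [← h5] at h6
    have h7 : ∑ n ∈ range 16, (iv (4, e.2) n : ℚ) * D (pt n) ≤ - ∑ n ∈ range 16, D (pt n) := by
      rw [← sum_neg_distrib]
      refine sum_le_sum fun x hx => ?_
      have hx := mem_range.1 hx
      by_cases hp : 0 < D (pt x)
      · have h8 := h3 x hx
        rw [h x hx hp] at h8
        simp only [Bool.not_true, Bool.false_or, decide_eq_true_eq] at h8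
        have h9 : ((iv (4, e.2) x : ℤ) : ℚ) ≤ ((-1 : ℤ) : ℚ) := by exact_mod_cast h8
        have h10 := mul_le_mul_of_nonneg_right h9 (hD.nn (pt x))
        push_cast at h10
        linarith only [h10]
      · have h8 : D (pt x) = 0 := le_antisymm (not_lt.1 hp) (hD.nn _)
        rw [h8]; simp
    have h8 : D (pt 0) ≤ ∑ n ∈ range 16, D (pt n) :=
      single_le_sum (f := fun n => D (pt n)) (fun n _ => hD.nn _) (mem_range.2 (by norm_num))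
    linarith only [h6, h7, h8, h0]

end Pool.Agent.helper25.AG
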