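import Pool.Agent.helper25.AG.Face

set_option autoImplicit false
set_option linter.unusedSectionVars false
set_option linter.unusedVariables false

/-!
# Project AG: type 3
-/

namespace Pool.Agent.helper25.AG

open Finset Pool.Agent.helper25.PV

def lx3 : List (List ℤ) :=
  [[2, 2, -2, -2, -2, -2, 2, 2, 0, 0, 0, 0, 0, 0, 0, 0],
    [-2, -2, 2, 2, 2, 2, -2, -2, 0, 0, 0, 0, 0, 0, 0, 0],
    [-1, -1, -1, 3, -1, 3, 3, 3, 3, 3, -1, -1, -1, -1, 3, 3],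
    [1, 1, 1, -3, 1, -3, -3, -3, -3, -3, 1, 1, 1, 1, -3, -3]]

def ly3 : List (List ℤ) :=
  [[2, -2, 2, -2, -2, 2, -2, 2, 0, 0, 0, 0, 0, 0, 0, 0],
    [-2, 2, -2, 2, 2, -2, 2, -2, 0, 0, 0, 0, 0, 0, 0, 0],
    [-1, -1, -1, 3, -1, 3, 3, 3, 3, -1, 3, -1, -1, 3, -1, 3],
    [1, 1, 1, -3, 1, -3, -3, -3, -3, 1, -3, 1, 1, -3, 1, -3]]

def lz3 : List (List ℤ) :=
  [[2, -2, -2, 2, 2, -2, -2, 2, 0, 0, 0, 0, 0, 0, 0, 0],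
    [-2, 2, 2, -2, -2, 2, 2, -2, 0, 0, 0, 0, 0, 0, 0, 0],
    [-1, -1, -1, 3, -1, 3, 3, 3, 3, -1, -1, 3, 3, -1, -1, 3],
    [1, 1, 1, -3, 1, -3, -3, -3, -3, 1, 1, -3, -3, 1, 1, -3]]

def n3 : List ℤ := [1, 1, 1, -3, 1, -3, -3, -3, 1, 1, 1, 1, 1, 1, 1, 1]

def w3 : List ℤ := [-1, -1, -1, 3, -1, 3, 3, 3, 1, 1, 1, 1, 1, 1, 1, 1]

def R3 : List (List ℤ) :=
  [[0, 0, 0, 0, 0, 0, 0, 4, 0, 0, 0, 0, 0, 0, 0, 0],
    [0, 0, 0, 0, 0, 0, 4, 0, 0, 0, 0, 0, 0, 0, 0, 0],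
    [0, 0, 0, 0, 0, 4, 0, 0, 0, 0, 0, 0, 0, 0, 0, 0],
    [0, 0, 0, 4, 0, 0, 0, 0, 0, 0, 0, 0, 0, 0, 0, 0],
    [0, 0, 0, 0, 0, 0, 0, 0, 0, 0, 0, 0, 0, 0, 0, 4],
    [0, 0, 0, 0, 0, 0, 0, 0, 0, 0, 0, 0, 0, 0, 4, 0],
    [0, 0, 0, 0, 0, 0, 0, 0, 0, 0, 0, 0, 0, 4, 0, 0],
    [0, 0, 0, 0, 0, 0, 0, 0, 0, 0, 0, 0, 4, 0, 0, 0],
    [0, 0, 0, 0, 0, 0, 0, 0, 0, 0, 0, 4, 0, 0, 0, 0],
    [0, 0, 0, 0, 0, 0, 0, 0, 0, 0, 4, 0, 0, 0, 0, 0],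
    [0, 0, 0, 0, 0, 0, 0, 0, 0, 4, 0, 0, 0, 0, 0, 0],
    [0, 0, 0, 0, 0, 0, 0, 0, 4, 0, 0, 0, 0, 0, 0, 0],
    [-2, 0, 0, 2, 0, 2, 2, 0, 0, 2, 2, 0, 2, 0, 0, 2],
    [-2, 0, 0, 2, 0, 2, 2, 0, 2, 0, 0, 2, 0, 2, 2, 0],
    [0, -2, 0, 2, 0, 2, 0, 2, 0, 2, 0, 2, 0, 2, 0, 2],
    [0, -2, 0, 2, 0, 2, 0, 2, 2, 0, 2, 0, 2, 0, 2, 0],
    [0, 0, -2, 2, 0, 0, 2, 2, 0, 0, 2, 2, 0, 0, 2, 2],
    [0, 0, -2, 2, 0, 0, 2, 2, 2, 2, 0, 0, 2, 2, 0, 0],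
    [0, 0, 0, 0, -2, 2, 2, 2, 0, 0, 0, 0, 2, 2, 2, 2],
    [0, 0, 0, 0, -2, 2, 2, 2, 2, 2, 2, 2, 0, 0, 0, 0],
    [-1, -1, -1, 3, 1, 1, 1, 1, -1, 3, 3, 3, 1, 1, 1, 1],
    [-1, -1, -1, 3, 1, 1, 1, 1, 1, 1, 1, 1, -1, 3, 3, 3],
    [-1, -1, -1, 3, 1, 1, 1, 1, 1, 1, 1, 1, 3, -1, 3, 3],
    [-1, -1, -1, 3, 1, 1, 1, 1, 1, 1, 1, 1, 3, 3, -1, 3],
    [-1, -1, -1, 3, 1, 1, 1, 1, 1, 1, 1, 1, 3, 3, 3, -1],
    [-1, -1, -1, 3, 1, 1, 1, 1, 3, -1, 3, 3, 1, 1, 1, 1],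
    [-1, -1, -1, 3, 1, 1, 1, 1, 3, 3, -1, 3, 1, 1, 1, 1],
    [-1, -1, -1, 3, 1, 1, 1, 1, 3, 3, 3, -1, 1, 1, 1, 1],
    [-1, -1, 1, 1, -1, 3, 1, 1, -1, 3, 1, 1, 3, 3, 1, 1],
    [-1, -1, 1, 1, -1, 3, 1, 1, 1, 1, -1, 3, 1, 1, 3, 3],
    [-1, -1, 1, 1, -1, 3, 1, 1, 1, 1, 3, -1, 1, 1, 3, 3],
    [-1, -1, 1, 1, -1, 3, 1, 1, 1, 1, 3, 3, 1, 1, -1, 3],
    [-1, -1, 1, 1, -1, 3, 1, 1, 1, 1, 3, 3, 1, 1, 3, -1],
    [-1, -1, 1, 1, -1, 3, 1, 1, 3, -1, 1, 1, 3, 3, 1, 1],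
    [-1, -1, 1, 1, -1, 3, 1, 1, 3, 3, 1, 1, -1, 3, 1, 1],
    [-1, -1, 1, 1, -1, 3, 1, 1, 3, 3, 1, 1, 3, -1, 1, 1],
    [-1, 1, -1, 1, -1, 1, 3, 1, -1, 1, 3, 1, 3, 1, 3, 1],
    [-1, 1, -1, 1, -1, 1, 3, 1, 1, -1, 1, 3, 1, 3, 1, 3],
    [-1, 1, -1, 1, -1, 1, 3, 1, 1, 3, 1, -1, 1, 3, 1, 3],
    [-1, 1, -1, 1, -1, 1, 3, 1, 1, 3, 1, 3, 1, -1, 1, 3],
    [-1, 1, -1, 1, -1, 1, 3, 1, 1, 3, 1, 3, 1, 3, 1, -1],
    [-1, 1, -1, 1, -1, 1, 3, 1, 3, 1, -1, 1, 3, 1, 3, 1],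
    [-1, 1, -1, 1, -1, 1, 3, 1, 3, 1, 3, 1, -1, 1, 3, 1],
    [-1, 1, -1, 1, -1, 1, 3, 1, 3, 1, 3, 1, 3, 1, -1, 1],
    [1, -1, -1, 1, -1, 1, 1, 3, -1, 1, 1, 3, 1, 3, 3, 1],
    [1, -1, -1, 1, -1, 1, 1, 3, 1, -1, 3, 1, 3, 1, 1, 3],
    [1, -1, -1, 1, -1, 1, 1, 3, 1, 3, -1, 1, 3, 1, 1, 3],
    [1, -1, -1, 1, -1, 1, 1, 3, 1, 3, 3, 1, -1, 1, 1, 3],
    [1, -1, -1, 1, -1, 1, 1, 3, 1, 3, 3, 1, 3, 1, 1, -1],
    [1, -1, -1, 1, -1, 1, 1, 3, 3, 1, 1, -1, 1, 3, 3, 1],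
    [1, -1, -1, 1, -1, 1, 1, 3, 3, 1, 1, 3, 1, -1, 3, 1],
    [1, -1, -1, 1, -1, 1, 1, 3, 3, 1, 1, 3, 1, 3, -1, 1],
    [-1, -1, -1, 3, -1, 3, 3, 3, -1, 3, 3, 3, 3, 3, 3, -1],
    [-1, -1, -1, 3, -1, 3, 3, 3, 3, -1, 3, 3, 3, 3, -1, 3],
    [-1, -1, -1, 3, -1, 3, 3, 3, 3, 3, -1, 3, 3, -1, 3, 3],
    [-1, -1, -1, 3, -1, 3, 3, 3, 3, 3, 3, -1, -1, 3, 3, 3],
    [-2, -2, -2, 6, 2, 2, 2, 2, 2, 2, 2, 2, 2, 2, 2, 2],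
    [-2, -2, 2, 2, -2, 6, 2, 2, 2, 2, 2, 2, 2, 2, 2, 2],
    [-2, 2, -2, 2, -2, 2, 6, 2, 2, 2, 2, 2, 2, 2, 2, 2],
    [2, -2, -2, 2, -2, 2, 2, 6, 2, 2, 2, 2, 2, 2, 2, 2],
    [-3, -1, -1, 5, 1, 3, 3, 1, 1, 3, 3, 1, 1, 3, 3, 1],
    [-3, -1, -1, 5, 1, 3, 3, 1, 3, 1, 1, 3, 3, 1, 1, 3],
    [-3, -1, 1, 3, -1, 5, 3, 1, 1, 3, 1, 3, 3, 1, 3, 1],
    [-3, -1, 1, 3, -1, 5, 3, 1, 3, 1, 3, 1, 1, 3, 1, 3],
    [-3, 1, -1, 3, -1, 3, 5, 1, 1, 1, 3, 3, 3, 3, 1, 1],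
    [-3, 1, -1, 3, -1, 3, 5, 1, 3, 3, 1, 1, 1, 1, 3, 3],
    [-1, -3, -1, 5, 1, 3, 1, 3, 1, 3, 1, 3, 3, 1, 3, 1],
    [-1, -3, -1, 5, 1, 3, 1, 3, 3, 1, 3, 1, 1, 3, 1, 3],
    [-1, -3, 1, 3, -1, 5, 1, 3, 1, 3, 3, 1, 1, 3, 3, 1],
    [-1, -3, 1, 3, -1, 5, 1, 3, 3, 1, 1, 3, 3, 1, 1, 3],
    [-1, -1, -3, 5, 1, 1, 3, 3, 1, 1, 3, 3, 3, 3, 1, 1],
    [-1, -1, -3, 5, 1, 1, 3, 3, 3, 3, 1, 1, 1, 1, 3, 3],
    [-1, -1, 1, 1, -3, 5, 3, 3, 1, 1, 3, 3, 3, 3, 1, 1],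
    [-1, -1, 1, 1, -3, 5, 3, 3, 3, 3, 1, 1, 1, 1, 3, 3],
    [-1, 1, -3, 3, -1, 1, 5, 3, 1, 3, 3, 1, 1, 3, 3, 1],
    [-1, 1, -3, 3, -1, 1, 5, 3, 3, 1, 1, 3, 3, 1, 1, 3],
    [-1, 1, -1, 1, -3, 3, 5, 3, 1, 3, 1, 3, 3, 1, 3, 1],
    [-1, 1, -1, 1, -3, 3, 5, 3, 3, 1, 3, 1, 1, 3, 1, 3],
    [1, -3, -1, 3, -1, 3, 1, 5, 1, 1, 3, 3, 3, 3, 1, 1],
    [1, -3, -1, 3, -1, 3, 1, 5, 3, 3, 1, 1, 1, 1, 3, 3],
    [1, -1, -3, 3, -1, 1, 3, 5, 1, 3, 1, 3, 3, 1, 3, 1],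
    [1, -1, -3, 3, -1, 1, 3, 5, 3, 1, 3, 1, 1, 3, 1, 3],
    [1, -1, -1, 1, -3, 3, 3, 5, 1, 3, 3, 1, 1, 3, 3, 1],
    [1, -1, -1, 1, -3, 3, 3, 5, 3, 1, 1, 3, 3, 1, 1, 3],
    [-2, -2, 0, 4, 0, 4, 2, 2, 0, 4, 2, 2, 2, 2, 4, 0],
    [-2, -2, 0, 4, 0, 4, 2, 2, 2, 2, 0, 4, 4, 0, 2, 2],
    [-2, -2, 0, 4, 0, 4, 2, 2, 2, 2, 4, 0, 0, 4, 2, 2],
    [-2, -2, 0, 4, 0, 4, 2, 2, 4, 0, 2, 2, 2, 2, 0, 4],
    [-2, 0, -2, 4, 0, 2, 4, 2, 0, 2, 4, 2, 2, 4, 2, 0],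
    [-2, 0, -2, 4, 0, 2, 4, 2, 2, 0, 2, 4, 4, 2, 0, 2],
    [-2, 0, -2, 4, 0, 2, 4, 2, 2, 4, 2, 0, 0, 2, 4, 2],
    [-2, 0, -2, 4, 0, 2, 4, 2, 4, 2, 0, 2, 2, 0, 2, 4],
    [-2, 0, 0, 2, -2, 4, 4, 2, 0, 2, 2, 4, 4, 2, 2, 0],
    [-2, 0, 0, 2, -2, 4, 4, 2, 2, 0, 4, 2, 2, 4, 0, 2],
    [-2, 0, 0, 2, -2, 4, 4, 2, 2, 4, 0, 2, 2, 0, 4, 2],
    [-2, 0, 0, 2, -2, 4, 4, 2, 4, 2, 2, 0, 0, 2, 2, 4],
    [0, -2, -2, 4, 0, 2, 2, 4, 0, 2, 2, 4, 4, 2, 2, 0],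
    [0, -2, -2, 4, 0, 2, 2, 4, 2, 0, 4, 2, 2, 4, 0, 2],
    [0, -2, -2, 4, 0, 2, 2, 4, 2, 4, 0, 2, 2, 0, 4, 2],
    [0, -2, -2, 4, 0, 2, 2, 4, 4, 2, 2, 0, 0, 2, 2, 4],
    [0, -2, 0, 2, -2, 4, 2, 4, 0, 2, 4, 2, 2, 4, 2, 0],
    [0, -2, 0, 2, -2, 4, 2, 4, 2, 0, 2, 4, 4, 2, 0, 2],
    [0, -2, 0, 2, -2, 4, 2, 4, 2, 4, 2, 0, 0, 2, 4, 2],
    [0, -2, 0, 2, -2, 4, 2, 4, 4, 2, 0, 2, 2, 0, 2, 4],
    [0, 0, -2, 2, -2, 2, 4, 4, 0, 4, 2, 2, 2, 2, 4, 0],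
    [0, 0, -2, 2, -2, 2, 4, 4, 2, 2, 0, 4, 4, 0, 2, 2],
    [0, 0, -2, 2, -2, 2, 4, 4, 2, 2, 4, 0, 0, 4, 2, 2],
    [0, 0, -2, 2, -2, 2, 4, 4, 4, 0, 2, 2, 2, 2, 0, 4]]

def I3 : List (ℕ × Item) :=
  [(4, 0, 0, 1, 2, 12, 4),
    (4, 0, 0, 1, 2, 13, 4),
    (4, 0, 0, 1, 2, 14, 4),
    (4, 0, 0, 1, 14, 2, 4),
    (4, 0, 0, 1, 2, 4, 8),
    (4, 0, 0, 1, 2, 4, 9),
    (4, 0, 0, 1, 2, 4, 10),
    (4, 0, 0, 1, 2, 4, 11),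
    (4, 0, 0, 1, 2, 4, 12),
    (4, 0, 0, 1, 2, 4, 13),
    (4, 0, 0, 1, 2, 4, 14),
    (4, 0, 0, 1, 2, 4, 15),
    (2, 2, 0, 1, 2, 4, 8),
    (2, 2, 0, 1, 2, 4, 9),
    (2, 2, 1, 1, 3, 5, 9),
    (2, 2, 1, 1, 3, 5, 8),
    (2, 2, 1, 3, 1, 5, 9),
    (2, 2, 1, 3, 1, 5, 8),
    (2, 2, 1, 3, 5, 1, 9),
    (2, 2, 1, 3, 5, 1, 8),
    (1, 3, 0, 1, 2, 8, 4),
    (1, 3, 0, 1, 2, 8, 12),
    (1, 3, 0, 1, 2, 8, 13),
    (1, 3, 0, 1, 2, 8, 14),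
    (1, 3, 0, 1, 2, 8, 15),
    (1, 3, 0, 1, 2, 8, 5),
    (1, 3, 0, 1, 2, 8, 6),
    (1, 3, 0, 1, 2, 8, 7),
    (1, 3, 0, 1, 8, 2, 4),
    (1, 3, 0, 1, 8, 2, 12),
    (1, 3, 0, 1, 8, 2, 13),
    (1, 3, 0, 1, 8, 2, 14),
    (1, 3, 0, 1, 8, 2, 15),
    (1, 3, 0, 1, 8, 2, 5),
    (1, 3, 0, 1, 8, 2, 6),
    (1, 3, 0, 1, 8, 2, 7),
    (1, 3, 0, 8, 1, 2, 4),
    (1, 3, 0, 8, 1, 2, 12),
    (1, 3, 0, 8, 1, 2, 13),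
    (1, 3, 0, 8, 1, 2, 14),
    (1, 3, 0, 8, 1, 2, 15),
    (1, 3, 0, 8, 1, 2, 5),
    (1, 3, 0, 8, 1, 2, 6),
    (1, 3, 0, 8, 1, 2, 7),
    (1, 3, 8, 8, 9, 10, 12),
    (1, 3, 8, 8, 9, 10, 4),
    (1, 3, 8, 8, 9, 10, 5),
    (1, 3, 8, 8, 9, 10, 6),
    (1, 3, 8, 8, 9, 10, 7),
    (1, 3, 8, 8, 9, 10, 13),
    (1, 3, 8, 8, 9, 10, 14),
    (1, 3, 8, 8, 9, 10, 15),
    (1, 4, 0, 1, 2, 4, 8),
    (1, 4, 0, 1, 2, 4, 9),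
    (1, 4, 0, 1, 2, 4, 10),
    (1, 4, 0, 1, 2, 4, 11),
    (2, 5, 0, 1, 2, 4, 8),
    (2, 5, 0, 1, 4, 2, 8),
    (2, 5, 0, 4, 1, 2, 8),
    (2, 5, 4, 4, 5, 6, 8),
    (1, 6, 0, 1, 2, 4, 8),
    (1, 6, 0, 1, 2, 4, 9),
    (1, 6, 0, 1, 4, 2, 8),
    (1, 6, 0, 1, 4, 2, 9),
    (1, 6, 0, 4, 1, 2, 8),
    (1, 6, 0, 4, 1, 2, 9),
    (1, 6, 1, 1, 3, 5, 9),
    (1, 6, 1, 1, 3, 5, 8),
    (1, 6, 1, 1, 5, 3, 9),
    (1, 6, 1, 1, 5, 3, 8),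
    (1, 6, 1, 3, 1, 5, 9),
    (1, 6, 1, 3, 1, 5, 8),
    (1, 6, 1, 3, 5, 1, 9),
    (1, 6, 1, 3, 5, 1, 8),
    (1, 6, 1, 5, 1, 3, 9),
    (1, 6, 1, 5, 1, 3, 8),
    (1, 6, 1, 5, 3, 1, 9),
    (1, 6, 1, 5, 3, 1, 8),
    (1, 6, 4, 4, 5, 6, 8),
    (1, 6, 4, 4, 5, 6, 9),
    (1, 6, 4, 5, 4, 6, 8),
    (1, 6, 4, 5, 4, 6, 9),
    (1, 6, 4, 5, 6, 4, 8),
    (1, 6, 4, 5, 6, 4, 9),
    (2, 7, 0, 1, 2, 4, 8),
    (2, 7, 0, 1, 2, 4, 10),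
    (2, 7, 0, 1, 2, 4, 11),
    (2, 7, 0, 1, 2, 4, 9),
    (2, 7, 0, 2, 1, 4, 8),
    (2, 7, 0, 2, 1, 4, 10),
    (2, 7, 0, 2, 1, 4, 11),
    (2, 7, 0, 2, 1, 4, 9),
    (2, 7, 0, 2, 4, 1, 8),
    (2, 7, 0, 2, 4, 1, 10),
    (2, 7, 0, 2, 4, 1, 11),
    (2, 7, 0, 2, 4, 1, 9),
    (2, 7, 2, 2, 3, 6, 10),
    (2, 7, 2, 2, 3, 6, 8),
    (2, 7, 2, 2, 3, 6, 9),
    (2, 7, 2, 2, 3, 6, 11),
    (2, 7, 2, 2, 6, 3, 10),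
    (2, 7, 2, 2, 6, 3, 8),
    (2, 7, 2, 2, 6, 3, 9),
    (2, 7, 2, 2, 6, 3, 11),
    (2, 7, 2, 6, 2, 3, 10),
    (2, 7, 2, 6, 2, 3, 8),
    (2, 7, 2, 6, 2, 3, 9),
    (2, 7, 2, 6, 2, 3, 11)]

def f3 : List (List ℤ) := R3 ++ [w3, [1, 1, 1, -3, 1, -3, -3, -3, -1, -1, -1, -1, -1, -1, -1, -1]]

def f19 : List (List ℤ) :=
  R3 ++ [[-2, -2, 2, 2, 2, 2, -2, -2, 0, 0, 0, 0, 0, 0, 0, 0, 4, 0, 0],
    [2, 2, -2, -2, -2, -2, 2, 2, 0, 0, 0, 0, 0, 0, 0, 0, 4, 0, 0],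
    [1, 1, 1, -3, 1, -3, -3, -3, -3, -3, 1, 1, 1, 1, -3, -3, 4, 0, 0],
    [-1, -1, -1, 3, -1, 3, 3, 3, 3, 3, -1, -1, -1, -1, 3, 3, 4, 0, 0],
    [-2, 2, -2, 2, 2, -2, 2, -2, 0, 0, 0, 0, 0, 0, 0, 0, 0, 4, 0],
    [2, -2, 2, -2, -2, 2, -2, 2, 0, 0, 0, 0, 0, 0, 0, 0, 0, 4, 0],
    [1, 1, 1, -3, 1, -3, -3, -3, -3, 1, -3, 1, 1, -3, 1, -3, 0, 4, 0],
    [-1, -1, -1, 3, -1, 3, 3, 3, 3, -1, 3, -1, -1, 3, -1, 3, 0, 4, 0],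
    [-2, 2, 2, -2, -2, 2, 2, -2, 0, 0, 0, 0, 0, 0, 0, 0, 0, 0, 4],
    [2, -2, -2, 2, 2, -2, -2, 2, 0, 0, 0, 0, 0, 0, 0, 0, 0, 0, 4],
    [1, 1, 1, -3, 1, -3, -3, -3, -3, 1, 1, -3, -3, 1, 1, -3, 0, 0, 4],
    [-1, -1, -1, 3, -1, 3, 3, 3, 3, -1, -1, 3, 3, -1, -1, 3, 0, 0, 4],
    [-1, -1, -1, 3, -1, 3, 3, 3, -1, -1, -1, -1, -1, -1, -1, -1, 4, 4, 4],
    [1, 1, 1, -3, 1, -3, -3, -3, 1, 1, 1, 1, 1, 1, 1, 1, -4, -4, -4],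
    [-1, -1, -1, 3, -1, 3, 3, 3, 1, 1, 1, 1, 1, 1, 1, 1, 0, 0, 0],
    [1, 1, 1, -3, 1, -3, -3, -3, -1, -1, -1, -1, -1, -1, -1, -1, 0, 0, 0]]

def cc3 : List Cert :=
  [(1, [(2, 12), (2, 13), (3, 109)]),
    (1, [(2, 56), (3, 109)]),
    (1, [(2, 60), (4, 109)]),
    (1, [(2, 61), (2, 109)]),
    (1, [(2, 57), (3, 109)]),
    (1, [(2, 14), (2, 15), (3, 109)]),
    (1, [(2, 68), (4, 109)]),
    (1, [(2, 69), (2, 109)]),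
    (1, [(2, 62), (4, 109)]),
    (1, [(2, 66), (4, 109)]),
    (1, [(2, 84), (5, 109)]),
    (1, [(2, 85), (3, 109)]),
    (1, [(2, 63), (2, 109)]),
    (1, [(2, 67), (2, 109)]),
    (1, [(2, 86), (3, 109)]),
    (1, [(2, 87), (1, 109)]),
    (1, [(2, 58), (3, 109)]),
    (1, [(2, 16), (2, 17), (3, 109)]),
    (1, [(2, 74), (4, 109)]),
    (1, [(2, 75), (2, 109)]),
    (1, [(2, 18), (2, 19), (3, 109)]),
    (1, [(2, 59), (3, 109)]),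
    (1, [(2, 82), (4, 109)]),
    (1, [(2, 83), (2, 109)]),
    (1, [(2, 76), (4, 109)]),
    (1, [(2, 80), (4, 109)]),
    (1, [(2, 104), (5, 109)]),
    (1, [(2, 105), (3, 109)]),
    (1, [(2, 77), (2, 109)]),
    (1, [(2, 81), (2, 109)]),
    (1, [(2, 106), (3, 109)]),
    (1, [(2, 107), (1, 109)]),
    (1, [(2, 64), (4, 109)]),
    (1, [(2, 70), (4, 109)]),
    (1, [(2, 88), (5, 109)]),
    (1, [(2, 89), (3, 109)]),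
    (1, [(2, 72), (4, 109)]),
    (1, [(2, 78), (4, 109)]),
    (1, [(2, 100), (5, 109)]),
    (1, [(2, 101), (3, 109)]),
    (1, [(2, 92), (5, 109)]),
    (1, [(2, 96), (5, 109)]),
    (1, [(2, 52), (6, 109)]),
    (1, [(2, 7), (2, 8), (2, 109)]),
    (1, [(2, 93), (3, 109)]),
    (1, [(2, 97), (3, 109)]),
    (1, [(2, 6), (2, 9), (2, 109)]),
    (1, [(2, 53), (2, 109)]),
    (1, [(2, 65), (2, 109)]),
    (1, [(2, 71), (2, 109)]),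
    (1, [(2, 90), (3, 109)]),
    (1, [(2, 91), (1, 109)]),
    (1, [(2, 73), (2, 109)]),
    (1, [(2, 79), (2, 109)]),
    (1, [(2, 102), (3, 109)]),
    (1, [(2, 103), (1, 109)]),
    (1, [(2, 94), (3, 109)]),
    (1, [(2, 98), (3, 109)]),
    (1, [(2, 5), (2, 10), (2, 109)]),
    (1, [(2, 54), (2, 109)]),
    (1, [(2, 95), (1, 109)]),
    (1, [(2, 99), (1, 109)]),
    (1, [(2, 55), (2, 109)]),
    (1, [(2, 4), (2, 11), (2, 108)])]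

def tab3 : List (List ℤ) :=
  [[1, 1, 1, -3, 1, -3, -3, -3, 1, 1, 1, 1, 1, 1, 1, 1, 0, 0, 0],
    [1, 1, -1, -1, -1, -1, 1, 1, 0, 0, 0, 0, 0, 0, 0, 0, 2, 0, 0],
    [1, -1, 1, -1, -1, 1, -1, 1, 0, 0, 0, 0, 0, 0, 0, 0, 0, 2, 0],
    [-1, 1, 1, -1, -1, 1, 1, -1, 0, 0, 0, 0, 0, 0, 0, 0, 0, 0, 2],
    [1, -1, -1, 1, 1, -1, -1, 1, 0, 0, 0, 0, 0, 0, 0, 0, 0, 0, 2],
    [-1, 1, -1, 1, 1, -1, 1, -1, 0, 0, 0, 0, 0, 0, 0, 0, 0, 2, 0],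
    [-1, -1, 1, 1, 1, 1, -1, -1, 0, 0, 0, 0, 0, 0, 0, 0, 2, 0, 0],
    [0, 0, 0, 0, 0, 0, 0, 0, 0, 0, 0, 0, 0, 0, 0, 0, 0, 0, 0],
    [0, 0, 0, 0, 0, 0, 0, 0, 4, 0, 0, 0, 0, 0, 0, 0, 0, 0, 0],
    [0, 0, 0, 0, 0, 0, 0, 0, 0, 4, 0, 0, 0, 0, 0, 0, 0, 0, 0],
    [0, 0, 0, 0, 0, 0, 0, 0, 0, 0, 4, 0, 0, 0, 0, 0, 0, 0, 0],
    [0, 0, 0, 0, 0, 0, 0, 0, 0, 0, 0, 4, 0, 0, 0, 0, 0, 0, 0],
    [0, 0, 0, 0, 0, 0, 0, 0, 0, 0, 0, 0, 4, 0, 0, 0, 0, 0, 0],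
    [0, 0, 0, 0, 0, 0, 0, 0, 0, 0, 0, 0, 0, 4, 0, 0, 0, 0, 0],
    [0, 0, 0, 0, 0, 0, 0, 0, 0, 0, 0, 0, 0, 0, 4, 0, 0, 0, 0],
    [0, 0, 0, 0, 0, 0, 0, 0, 0, 0, 0, 0, 0, 0, 0, 4, 0, 0, 0]]

def tab3b : List (List ℤ) :=
  [[3, -1, -1, -1, -1, -1, -1, 3, 0, 0, 0, 0, 0, 0, 0, 0, 2, 2, 2],
    [-1, 3, -1, -1, -1, -1, 3, -1, 0, 0, 0, 0, 0, 0, 0, 0, 2, 2, 2],
    [-1, -1, 3, -1, -1, 3, -1, -1, 0, 0, 0, 0, 0, 0, 0, 0, 2, 2, 2],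
    [0, 0, 0, 0, 0, 0, 0, 0, 0, 0, 0, 0, 0, 0, 0, 0, 0, 0, 0],
    [-1, -1, -1, 3, 3, -1, -1, -1, 0, 0, 0, 0, 0, 0, 0, 0, 2, 2, 2],
    [0, 0, 0, 0, 0, 0, 0, 0, 0, 0, 0, 0, 0, 0, 0, 0, 0, 0, 0],
    [0, 0, 0, 0, 0, 0, 0, 0, 0, 0, 0, 0, 0, 0, 0, 0, 0, 0, 0],
    [0, 0, 0, 0, 0, 0, 0, 0, 0, 0, 0, 0, 0, 0, 0, 0, 0, 0, 0],
    [0, 0, 0, 0, 0, 0, 0, 0, 4, 0, 0, 0, 0, 0, 0, 0, 0, 0, 0],
    [0, 0, 0, 0, 0, 0, 0, 0, 0, 4, 0, 0, 0, 0, 0, 0, 0, 0, 0],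
    [0, 0, 0, 0, 0, 0, 0, 0, 0, 0, 4, 0, 0, 0, 0, 0, 0, 0, 0],
    [0, 0, 0, 0, 0, 0, 0, 0, 0, 0, 0, 4, 0, 0, 0, 0, 0, 0, 0],
    [0, 0, 0, 0, 0, 0, 0, 0, 0, 0, 0, 0, 4, 0, 0, 0, 0, 0, 0],
    [0, 0, 0, 0, 0, 0, 0, 0, 0, 0, 0, 0, 0, 4, 0, 0, 0, 0, 0],
    [0, 0, 0, 0, 0, 0, 0, 0, 0, 0, 0, 0, 0, 0, 4, 0, 0, 0, 0],
    [0, 0, 0, 0, 0, 0, 0, 0, 0, 0, 0, 0, 0, 0, 0, 4, 0, 0, 0]]

def L3 : Comb :=
  [([0, 0, 0, 4, 0, 0, 0, 0, 0, 0, 0, 0, 0, 0, 0, 0, 0, 0, 0], 0, 1, 2),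
    ([0, 0, 0, 0, 0, 4, 0, 0, 0, 0, 0, 0, 0, 0, 0, 0, 0, 0, 0], 0, 1, 4),
    ([0, 0, 0, 0, 0, 0, 4, 0, 0, 0, 0, 0, 0, 0, 0, 0, 0, 0, 0], 0, 2, 4),
    ([0, 0, 0, 0, 0, 0, 0, 4, 0, 0, 0, 0, 0, 0, 0, 0, 0, 0, 0], 1, 2, 4)]

def c3 : C1 :=
  { e1 := (1, [(1, 120), (2, 122)])
    e2 := (1, [(1, 121), (2, 123)])
    nn := [(2, [(1, 108), (1, 109), (1, 112), (1, 113), (1, 116), (1, 117), (2, 121)]),
    (2, [(1, 109)]),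
    (2, [(1, 113)]),
    (2, [(1, 116)]),
    (2, [(1, 117)]),
    (2, [(1, 112)]),
    (2, [(1, 108)]),
    (1, []),
    (1, [(1, 11)]),
    (1, [(1, 10)]),
    (1, [(1, 9)]),
    (1, [(1, 8)]),
    (1, [(1, 7)]),
    (1, [(1, 6)]),
    (1, [(1, 5)]),
    (1, [(1, 4)])]
    h0 := [(2, [(4, 15), (1, 120), (1, 123)]),
    (2, [(4, 17), (1, 120), (1, 123)]),
    (1, [(1, 119)]),
    (2, [(4, 19), (1, 120), (1, 123)]),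
    (1, [(1, 115)]),
    (1, [(1, 111)]),
    (2, [(4, 13), (1, 120), (1, 123)]),
    (1, [(1, 120)]),
    (2, [(4, 14), (1, 120), (1, 123)]),
    (2, [(4, 16), (1, 120), (1, 123)]),
    (1, [(1, 118), (2, 122)]),
    (2, [(4, 18), (1, 120), (1, 123)]),
    (1, [(1, 114), (2, 122)]),
    (1, [(1, 110), (2, 122)]),
    (2, [(4, 12), (1, 120), (1, 123)])]
    hp := [(0, []),
    (0, []),
    (0, []),
    (0, []),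
    (0, []),
    (0, []),
    (0, []),
    (0, []),
    (0, []),
    (0, []),
    (0, []),
    (0, []),
    (0, []),
    (0, []),
    (0, []),
    (0, []),
    (0, []),
    (2, [(4, 14), (2, 112), (2, 116), (1, 121), (1, 123)]),
    (0, []),
    (2, [(4, 14), (2, 109), (2, 112), (1, 121), (1, 123)]),
    (0, []),
    (2, [(4, 14), (2, 109), (2, 116), (1, 121), (1, 123)]),
    (0, []),
    (2, [(4, 14), (2, 109), (2, 112), (2, 116), (1, 121), (1, 123)]),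
    (0, []),
    (2, [(4, 37), (1, 120), (3, 123)]),
    (0, []),
    (2, [(4, 38), (1, 120), (3, 123)]),
    (0, []),
    (2, [(4, 39), (1, 120), (3, 123)]),
    (0, []),
    (2, [(4, 40), (1, 120), (3, 123)]),
    (0, []),
    (0, []),
    (2, [(4, 16), (2, 108), (2, 116), (1, 121), (1, 123)]),
    (2, [(4, 16), (2, 108), (2, 113), (1, 121), (1, 123)]),
    (0, []),
    (0, []),
    (2, [(4, 16), (2, 113), (2, 116), (1, 121), (1, 123)]),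
    (2, [(4, 16), (2, 108), (2, 113), (2, 116), (1, 121), (1, 123)]),
    (0, []),
    (0, []),
    (2, [(4, 29), (1, 120), (3, 123)]),
    (2, [(4, 30), (1, 120), (3, 123)]),
    (0, []),
    (0, []),
    (2, [(4, 31), (1, 120), (3, 123)]),
    (2, [(4, 32), (1, 120), (3, 123)]),
    (0, []),
    (2, [(2, 68), (1, 108), (2, 112), (1, 113), (1, 118), (1, 121)]),
    (2, [(2, 60), (1, 108), (2, 109), (1, 112), (1, 118), (1, 121)]),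
    (0, []),
    (0, []),
    (2, [(2, 68), (1, 108), (2, 109), (1, 113), (1, 118), (1, 121)]),
    (2, [(2, 74), (1, 109), (1, 112), (2, 113), (1, 118), (1, 121)]),
    (0, []),
    (0, []),
    (1, [(2, 5), (1, 110), (1, 115)]),
    (1, [(2, 6), (1, 111), (1, 114)]),
    (0, []),
    (0, []),
    (1, [(2, 9), (1, 111), (1, 114)]),
    (1, [(2, 10), (1, 110), (1, 115)]),
    (0, []),
    (0, []),
    (0, []),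
    (0, []),
    (0, []),
    (2, [(4, 18), (2, 108), (2, 112), (1, 121), (1, 123)]),
    (2, [(4, 18), (2, 108), (2, 117), (1, 121), (1, 123)]),
    (2, [(4, 18), (2, 112), (2, 117), (1, 121), (1, 123)]),
    (2, [(4, 18), (2, 108), (2, 112), (2, 117), (1, 121), (1, 123)]),
    (0, []),
    (0, []),
    (0, []),
    (0, []),
    (2, [(4, 21), (1, 120), (3, 123)]),
    (2, [(4, 22), (1, 120), (3, 123)]),
    (2, [(4, 23), (1, 120), (3, 123)]),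
    (2, [(4, 24), (1, 120), (3, 123)]),
    (0, []),
    (2, [(2, 66), (1, 108), (1, 114), (2, 116), (1, 117), (1, 121)]),
    (0, []),
    (2, [(2, 66), (1, 108), (2, 109), (1, 114), (1, 117), (1, 121)]),
    (2, [(2, 62), (1, 108), (2, 109), (1, 114), (1, 116), (1, 121)]),
    (0, []),
    (2, [(2, 76), (1, 109), (1, 114), (1, 116), (2, 117), (1, 121)]),
    (0, []),
    (0, []),
    (1, [(2, 5), (1, 110), (1, 119)]),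
    (0, []),
    (1, [(2, 7), (1, 111), (1, 118)]),
    (1, [(2, 8), (1, 111), (1, 118)]),
    (0, []),
    (1, [(2, 10), (1, 110), (1, 119)]),
    (0, []),
    (0, []),
    (0, []),
    (2, [(2, 70), (1, 110), (1, 112), (2, 116), (1, 117), (1, 121)]),
    (2, [(2, 78), (1, 110), (2, 112), (1, 113), (1, 117), (1, 121)]),
    (2, [(2, 64), (1, 110), (1, 112), (2, 113), (1, 116), (1, 121)]),
    (2, [(2, 72), (1, 110), (1, 113), (1, 116), (2, 117), (1, 121)]),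
    (0, []),
    (0, []),
    (0, []),
    (0, []),
    (1, [(2, 6), (1, 114), (1, 119)]),
    (1, [(2, 7), (1, 115), (1, 118)]),
    (1, [(2, 8), (1, 115), (1, 118)]),
    (1, [(2, 9), (1, 114), (1, 119)]),
    (0, []),
    (0, []),
    (0, []),
    (2, [(4, 12), (2, 113), (2, 117), (1, 121), (1, 123)]),
    (2, [(4, 12), (2, 109), (2, 117), (1, 121), (1, 123)]),
    (0, []),
    (2, [(4, 12), (2, 109), (2, 113), (1, 121), (1, 123)]),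
    (0, []),
    (0, []),
    (2, [(4, 12), (2, 109), (2, 113), (2, 117), (1, 121), (1, 123)]),
    (0, []),
    (2, [(4, 45), (1, 120), (3, 123)]),
    (2, [(4, 46), (1, 120), (3, 123)]),
    (0, []),
    (2, [(4, 47), (1, 120), (3, 123)]),
    (0, []),
    (0, []),
    (2, [(4, 48), (1, 120), (3, 123)]),
    (0, []),
    (0, []),
    (0, []),
    (0, []),
    (0, []),
    (0, []),
    (0, []),
    (0, []),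
    (3, [(6, 4), (4, 52), (1, 110), (1, 114), (1, 118), (1, 121)]),
    (1, [(2, 5), (1, 110), (1, 115), (1, 119), (1, 121)]),
    (1, [(2, 6), (1, 111), (1, 114), (1, 119), (1, 121)]),
    (1, [(2, 7), (1, 111), (1, 115), (1, 118), (1, 121)]),
    (1, [(2, 8), (1, 111), (1, 115), (1, 118), (1, 121)]),
    (1, [(2, 9), (1, 111), (1, 114), (1, 119), (1, 121)]),
    (1, [(2, 10), (1, 110), (1, 115), (1, 119), (1, 121)]),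
    (3, [(2, 11), (4, 19), (4, 24), (1, 110), (1, 114), (1, 118), (1, 121)]),
    (0, []),
    (2, [(4, 15), (2, 112), (2, 116), (1, 121), (1, 123)]),
    (0, []),
    (2, [(4, 15), (2, 109), (2, 112), (1, 121), (1, 123)]),
    (0, []),
    (2, [(4, 15), (2, 109), (2, 116), (1, 121), (1, 123)]),
    (0, []),
    (2, [(4, 15), (2, 109), (2, 112), (2, 116), (1, 121), (1, 123)]),
    (2, [(4, 36), (1, 120), (3, 123)]),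
    (0, []),
    (2, [(4, 41), (1, 120), (3, 123)]),
    (0, []),
    (2, [(4, 42), (1, 120), (3, 123)]),
    (0, []),
    (2, [(4, 43), (1, 120), (3, 123)]),
    (0, []),
    (0, []),
    (0, []),
    (2, [(4, 17), (2, 108), (2, 116), (1, 121), (1, 123)]),
    (2, [(4, 17), (2, 108), (2, 113), (1, 121), (1, 123)]),
    (0, []),
    (0, []),
    (2, [(4, 17), (2, 113), (2, 116), (1, 121), (1, 123)]),
    (2, [(4, 17), (2, 108), (2, 113), (2, 116), (1, 121), (1, 123)]),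
    (2, [(4, 28), (1, 120), (3, 123)]),
    (2, [(4, 33), (1, 120), (3, 123)]),
    (0, []),
    (0, []),
    (2, [(4, 34), (1, 120), (3, 123)]),
    (2, [(4, 35), (1, 120), (3, 123)]),
    (0, []),
    (0, []),
    (0, []),
    (1, [(1, 108), (1, 112), (1, 113), (1, 119), (1, 121)]),
    (1, [(1, 108), (1, 109), (1, 112), (1, 119), (1, 121)]),
    (0, []),
    (0, []),
    (1, [(1, 108), (1, 109), (1, 113), (1, 119), (1, 121)]),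
    (1, [(1, 109), (1, 112), (1, 113), (1, 119), (1, 121)]),
    (0, []),
    (1, [(2, 4), (1, 110), (1, 114), (2, 122)]),
    (0, []),
    (0, []),
    (1, [(2, 7), (1, 111), (1, 115), (2, 123)]),
    (1, [(2, 8), (1, 111), (1, 115), (2, 123)]),
    (0, []),
    (0, []),
    (1, [(2, 11), (1, 110), (1, 114), (2, 122)]),
    (0, []),
    (0, []),
    (0, []),
    (0, []),
    (2, [(4, 19), (2, 108), (2, 112), (1, 121), (1, 123)]),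
    (2, [(4, 19), (2, 108), (2, 117), (1, 121), (1, 123)]),
    (2, [(4, 19), (2, 112), (2, 117), (1, 121), (1, 123)]),
    (2, [(4, 19), (2, 108), (2, 112), (2, 117), (1, 121), (1, 123)]),
    (2, [(4, 20), (1, 120), (3, 123)]),
    (2, [(4, 25), (1, 120), (3, 123)]),
    (2, [(4, 26), (1, 120), (3, 123)]),
    (2, [(4, 27), (1, 120), (3, 123)]),
    (0, []),
    (0, []),
    (0, []),
    (0, []),
    (0, []),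
    (1, [(1, 108), (1, 115), (1, 116), (1, 117), (1, 121)]),
    (0, []),
    (1, [(1, 110), (1, 111), (1, 115), (1, 117), (1, 121)]),
    (1, [(1, 110), (1, 111), (1, 115), (1, 116), (1, 121)]),
    (0, []),
    (1, [(1, 109), (1, 115), (1, 118), (1, 119), (1, 121)]),
    (0, []),
    (1, [(2, 4), (1, 110), (1, 118), (2, 122)]),
    (0, []),
    (1, [(2, 6), (1, 111), (1, 119), (2, 123)]),
    (0, []),
    (0, []),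
    (1, [(2, 9), (1, 111), (1, 119), (2, 123)]),
    (0, []),
    (1, [(2, 11), (1, 110), (1, 118), (2, 122)]),
    (0, []),
    (0, []),
    (1, [(1, 111), (1, 112), (1, 116), (1, 117), (1, 121)]),
    (1, [(1, 111), (1, 114), (1, 115), (1, 117), (1, 121)]),
    (1, [(1, 111), (1, 112), (1, 113), (1, 116), (1, 121)]),
    (1, [(1, 111), (1, 113), (1, 118), (1, 119), (1, 121)]),
    (0, []),
    (0, []),
    (1, [(2, 4), (1, 114), (1, 118), (2, 122)]),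
    (1, [(2, 5), (1, 115), (1, 119), (2, 123)]),
    (0, []),
    (0, []),
    (0, []),
    (0, []),
    (1, [(2, 10), (1, 115), (1, 119), (2, 123)]),
    (1, [(2, 11), (1, 114), (1, 118), (2, 122)]),
    (0, []),
    (2, [(4, 13), (2, 113), (2, 117), (1, 121), (1, 123)]),
    (2, [(4, 13), (2, 109), (2, 117), (1, 121), (1, 123)]),
    (0, []),
    (2, [(4, 13), (2, 109), (2, 113), (1, 121), (1, 123)]),
    (0, []),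
    (0, []),
    (2, [(4, 13), (2, 109), (2, 113), (2, 117), (1, 121), (1, 123)]),
    (2, [(4, 44), (1, 120), (3, 123)]),
    (0, []),
    (0, []),
    (2, [(4, 49), (1, 120), (3, 123)]),
    (0, []),
    (2, [(4, 50), (1, 120), (3, 123)]),
    (2, [(4, 51), (1, 120), (3, 123)]),
    (0, [])] }

def cn3 : List Cert :=
  [(1, [(1, 3)]),
    (1, [(1, 2)]),
    (1, [(1, 1)]),
    (1, [(1, 0)])]

def ce3 : List (Cert × Cert) :=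
  [((2, [(1, 121), (1, 123)]), (2, [(1, 120), (1, 122)])),
    ((2, [(1, 121), (1, 123)]), (2, [(1, 120), (1, 122)])),
    ((2, [(1, 121), (1, 123)]), (2, [(1, 120), (1, 122)])),
    ((1, []), (1, [])),
    ((2, [(1, 121), (1, 123)]), (2, [(1, 120), (1, 122)])),
    ((1, []), (1, [])),
    ((1, []), (1, [])),
    ((1, []), (1, [])),
    ((1, []), (1, [])),
    ((1, []), (1, [])),
    ((1, []), (1, [])),
    ((1, []), (1, [])),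
    ((1, []), (1, [])),
    ((1, []), (1, [])),
    ((1, []), (1, [])),
    ((1, []), (1, []))]

def th3 : List (List ℕ) := [[1, 2, 4], [1, 3, 5], [2, 3, 6], [], [4, 5, 6], [], [], [], [8], [9], [10], [11], [12], [13], [14], [15]]

def fw3 : List ℤ := [2, 0, 0, 0, 0, 0, 0, 1, -1, -1, -1, -1, -1, -1, -1, -1]

/-- the edges of the tetrahedron -/
def ed3 : ℕ → ℕ × ℕ
  | 1 => (0, 1)
  | 2 => (0, 2)
  | 3 => (1, 2)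
  | 4 => (0, 4)
  | 5 => (1, 4)
  | 6 => (2, 4)
  | _ => (0, 0)

def pl3 (a b : ℕ) : Pl :=
  bif Nat.blt a 8 then ((ed3 a).1, (ed3 a).2, b) else
    bif Nat.blt b 8 then ((ed3 b).1, (ed3 b).2, a) else ((ed3 (a ^^^ b)).1, (ed3 (a ^^^ b)).2, a)

theorem chk3a : chk1 19 f19 tab3 c3 = true := by decide +kernel

theorem chk3b : chkN 19 f19 L3 cn3 = true := by decide +kernel

theorem chk3c : chkE 19 f19 4 tab3b L3 ce3 = true := by decide +kernel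

theorem chk3d : ((List.range 64).all fun i => chk 16 f3 (fun k => n3.getD k 0 -
    ((lx3.getD (i / 16) []).getD k 0 + ((ly3.getD (i / 4 % 4) []).getD k 0 +
      (lz3.getD (i % 4) []).getD k 0))) (cc3.getD i (0, []))) = true := by decide +kernel

theorem chk3e : chkT th3 fw3 pl3 = true := by decide +kernel

theorem chk3f : ((List.range 16).all fun x => (th3.getD x []).all (fun y => Nat.blt y 16) &&
      (List.range 19).all fun k => decide (tabv tab3b x k = lsum (th3.getD x []) fun y =>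
        tabv tab3 y k)) = true := by decide +kernel

theorem chk3g : chk 19 f19 (fun k => lsum (List.range 16) fun x => fw3.getD x 0 * tabv tab3 x k)
    (1, [(2, 123)]) = true := by decide +kernel

theorem chk3h : chk 19 f19 (fun k => - (lsum (List.range 16) fun x =>
    fw3.getD x 0 * tabv tab3 x k)) (1, [(2, 122)]) = true := by decide +kernel

theorem f19_eq : f19 = R3 ++ (lx3.map (fun l => mk (-1) l [4, 0, 0]) ++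
    (ly3.map (fun l => mk (-1) l [0, 4, 0]) ++ (lz3.map (fun l => mk (-1) l [0, 0, 4]) ++
    [mk (-1) n3 [4, 4, 4], mk 1 n3 [-4, -4, -4], mk 1 w3 [0, 0, 0], mk (-1) w3 [0, 0, 0]]))) := by
  decide +kernel

theorem len3 : ∀ l ∈ R3, l.length = 16 := by
  have : (R3.all fun l => Nat.beq l.length 16) = true := by decide +kernel
  simp only [List.all_eq_true, Nat.beq_eq] at this
  exact this

theorem okR3 : chkR R3 I3 = true := by decide +kernel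

/-- type 3 -/
theorem S3 {D : W4 → ℚ} (hR : ∀ l ∈ R3, 0 ≤ dl D l) (h0 : dl D w3 = 0) : D ∈ Pc := by
  have hc : Ctx 16 (fun k => D (pt k)) D f3 := by
    refine ⟨le_rfl, fun k _ => rfl, ?_⟩
    intro l hl
    simp only [f3, List.mem_append, List.mem_cons, List.not_mem_nil, or_false] at hl
    rcases hl with hl | rfl | rfl
    · exact hR l hl
    · exact h0.ge
    · have h1 : dotn 16 (fun k => [1, 1, 1, -3, 1, -3, -3, -3, -1, -1, -1, -1, -1, -1, -1, -1].getD k 0)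
          (fun k => D (pt k)) = dotn 16 (fun k => (-1) * w3.getD k 0) (fun k => D (pt k)) :=
        dotn_congr (by decide +kernel) _
      have h2 : dotn 16 (fun k => w3.getD k 0) (fun k => D (pt k)) = 0 := h0
      rw [h1, dotn_mul, h2, mul_zero]
  obtain ⟨mx, hx1, hx2⟩ := exists_max (lx3.map (dl D)) (by simp [lx3])
  obtain ⟨my, hy1, hy2⟩ := exists_max (ly3.map (dl D)) (by simp [ly3])
  obtain ⟨mz, hz1, hz2⟩ := exists_max (lz3.map (dl D)) (by simp [lz3])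
  have hsum : mx + my + mz ≤ dl D n3 := by
    obtain ⟨l1, hl1, rfl⟩ := List.mem_map.1 hx1
    obtain ⟨l2, hl2, rfl⟩ := List.mem_map.1 hy1
    obtain ⟨l3, hl3, rfl⟩ := List.mem_map.1 hz1
    obtain ⟨i1, hi1, he1⟩ := List.mem_iff_getElem.1 hl1
    obtain ⟨i2, hi2, he2⟩ := List.mem_iff_getElem.1 hl2
    obtain ⟨i3, hi3, he3⟩ := List.mem_iff_getElem.1 hl3
    have j1 : i1 < 4 := hi1
    have j2 : i2 < 4 := hi2
    have j3 : i3 < 4 := hi3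
    have hk := chk3d
    simp only [List.all_eq_true, List.mem_range] at hk
    have hk1 := hc.pos (hk (16 * i1 + 4 * i2 + i3) (by omega))
    rw [show (16 * i1 + 4 * i2 + i3) / 16 = i1 by omega,
      show (16 * i1 + 4 * i2 + i3) / 4 % 4 = i2 by omega,
      show (16 * i1 + 4 * i2 + i3) % 4 = i3 by omega] at hk1
    have e1 : lx3.getD i1 [] = l1 := by
      rw [List.getD_eq_getElem?_getD, List.getElem?_eq_getElem hi1, he1]; rfl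
    have e2 : ly3.getD i2 [] = l2 := by
      rw [List.getD_eq_getElem?_getD, List.getElem?_eq_getElem hi2, he2]; rfl
    have e3 : lz3.getD i3 [] = l3 := by
      rw [List.getD_eq_getElem?_getD, List.getElem?_eq_getElem hi3, he3]; rfl
    rw [e1, e2, e3] at hk1
    have e4 : (fun k => n3.getD k 0 - (l1.getD k 0 + (l2.getD k 0 + l3.getD k 0))) =
        fun k => n3.getD k 0 + (-1) * (l1.getD k 0 + (l2.getD k 0 + l3.getD k 0)) := by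
      funext k; ring
    rw [e4, dotn_add, dotn_mul, dotn_add, dotn_add] at hk1
    push_cast at hk1
    change 0 ≤ dl D n3 + (-1) * (dl D l1 + (dl D l2 + dl D l3)) at hk1
    linarith only [hk1]
  let xs : List ℚ := [mx / 4, my / 4, (dl D n3 - mx - my) / 4]
  have hc19 : Ctx 19 (ext D xs) D f19 := by
    refine ⟨by norm_num, fun k hk => ext_lt _ _ hk, ?_⟩
    intro l hl
    have hd : ∀ (c : ℤ) (l : List ℤ) (x y z : ℤ),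
        dotn 19 (fun k => (mk c l [x, y, z]).getD k 0) (ext D xs) =
          c * dl D l + (x * (mx / 4) + y * (my / 4) + z * ((dl D n3 - mx - my) / 4)) := by
      intro c l x y z
      have := mk_dot 3 c l [x, y, z] D xs
      rw [sum_range_succ, sum_range_succ, sum_range_one] at this
      exact this
    rw [f19_eq] at hl
    simp only [List.mem_append, List.mem_map, List.mem_cons, List.not_mem_nil, or_false] at hl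
    rcases hl with hl | ⟨l, hl, rfl⟩ | ⟨l, hl, rfl⟩ | ⟨l, hl, rfl⟩ | rfl | rfl | rfl | rfl
    · have h5 := hR l hl
      have h6 := len3 l hl
      rw [dotn_ext 3]
      have h7 : ∑ k ∈ range 3, (l.getD (16 + k) 0 : ℚ) * xs.getD k 0 = 0 := by
        refine sum_eq_zero fun k _ => ?_
        rw [List.getD_eq_getElem?_getD, List.getElem?_eq_none (by omega)]
        simp
      rw [h7, add_zero]
      exact h5
    · rw [hd]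
      have := hx2 _ (List.mem_map_of_mem hl)
      push_cast
      linarith only [this]
    · rw [hd]
      have := hy2 _ (List.mem_map_of_mem hl)
      push_cast
      linarith only [this]
    · rw [hd]
      have := hz2 _ (List.mem_map_of_mem hl)
      push_cast
      linarith only [this, hsum]
    · rw [hd]; push_cast; linarith only
    · rw [hd]; push_cast; linarith only
    · rw [hd, h0]; simp
    · rw [hd, h0]; simp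
  have hF := hc19.s1 chk3a
  have hw : wF fw3 (tabF 19 tab3 (ext D xs)) = 0 := by
    rw [wF_tab]
    exact hc19.eqz chk3g chk3h
  exact hc19.mem (by norm_num) ((image_mem chk3e hF).2 hw) (thF_tab chk3f) chk3b chk3c

end Pool.Agent.helper25.AG
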