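import Pool.Agent.helper25.AG.Pair
import Pool.Agent.helper25.AG.Supp
import Pool.Agent.helper25.AG.T3
import Pool.Agent.helper25.AG.D4
import Pool.Agent.helper25.AG.D5
import Pool.Agent.helper25.AG.D6
import Pool.Agent.helper25.AG.D7

set_option autoImplicit false
set_option linter.unusedSectionVars false
set_option linter.unusedVariables false

/-!
# Project AG: the inequalities describe the cone of the planes
-/

namespace Pool.Agent.helper25.AG

open Finset Pool.Agent.helper25.PV

theorem planes_ok : ((List.range 4096).all fun j => !(okp (j / 256, j / 16 % 16, j % 16)) ||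
    (List.range 8).all fun i => decide (0 ≤ fv (facT i) (j / 256, j / 16 % 16, j % 16))) = true := by
  decide +kernel

theorem okp_of {p q s : W4} (h1 : p ≠ q) (h2 : p ≠ s) (h3 : q ≠ s) :
    okp (ix p, ix q, ix s) = true := by
  have e : ∀ a b : W4, a ≠ b → ix a ≠ ix b := fun a b h h' => h (by rw [← pt_ix a, h', pt_ix])
  have l1 := ix_lt p
  have l2 := ix_lt q
  have l3 := ix_lt s
  unfold okp
  simp only [Bool.and_eq_true, Nat.ble_eq, Bool.not_eq_true']
  have nb : ∀ a b : ℕ, a ≠ b → Nat.beq a b = false := fun a b h => by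
    rw [← Bool.not_eq_true, Nat.beq_eq]; exact h
  exact ⟨by omega, by omega, by omega, nb _ _ (e _ _ h1), nb _ _ (e _ _ h2), nb _ _ (e _ _ h3)⟩

theorem ch_ix (p q s : W4) : ch (ix p, ix q, ix s) = chp p q s := by
  unfold ch
  dsimp only
  rw [pt_ix, pt_ix, pt_ix]

theorem chp_std (p q s : W4) (g : W4 ≃+ W4) (t : W4) :
    (fun v => chp p q s (g.symm (v + t))) = ch (ix (g p + t), ix (g q + t), ix (g s + t)) := by
  rw [ch_ix]
  have h := chp_comp p q s g.symm (g.symm t)
  simp only [AddEquiv.symm_symm, map_add, AddEquiv.apply_symm_apply] at h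
  have h2 : (fun v => chp p q s (g.symm (v + t))) =
      fun v => chp p q s (g.symm v + g.symm t) := by
    funext v; rw [map_add]
  rw [h2]
  exact h

theorem chp_cq {p q s : W4} (h1 : p ≠ q) (h2 : p ≠ s) (h3 : q ≠ s) : Cq (chp p q s) := by
  intro i g t hi
  rw [fval_std, chp_std]
  have e : ∀ a b : W4, a ≠ b → g a + t ≠ g b + t := fun a b h h' =>
    h (g.injective (add_right_cancel h'))
  have hok := okp_of (e _ _ h1) (e _ _ h2) (e _ _ h3)
  rw [dl_ch hok]
  have h4 := planes_ok
  simp only [List.all_eq_true, List.mem_range] at h4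
  have l1 := ix_lt (g p + t)
  have l2 := ix_lt (g q + t)
  have l3 := ix_lt (g s + t)
  have h5 := h4 (256 * ix (g p + t) + 16 * ix (g q + t) + ix (g s + t)) (by omega)
  rw [show (256 * ix (g p + t) + 16 * ix (g q + t) + ix (g s + t)) / 256 = ix (g p + t) by omega,
    show (256 * ix (g p + t) + 16 * ix (g q + t) + ix (g s + t)) / 16 % 16 = ix (g q + t) by omega,
    show (256 * ix (g p + t) + 16 * ix (g q + t) + ix (g s + t)) % 16 = ix (g s + t) by omega,
    hok] at h5
  simp only [Bool.not_true, Bool.false_or, List.all_eq_true, List.mem_range,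
    decide_eq_true_eq] at h5
  exact_mod_cast h5 i hi

theorem ch_cq {P : Pl} (h : okp P = true) : Cq (ch P) := by
  obtain ⟨h4, h5, h6⟩ := okp_ne h
  exact chp_cq h4 h5 h6

theorem fval_sub (i : ℕ) (g : W4 ≃+ W4) (s : W4) (D F : W4 → ℚ) (t : ℚ) :
    fval i g s (fun v => D v - t * F v) = fval i g s D - t * fval i g s F := by
  unfold fval
  rw [mul_sum, ← sum_sub_distrib]
  exact sum_congr rfl fun v _ => by ring

theorem fval_zero_eq (g : W4 ≃+ W4) (s : W4) (F : W4 → ℚ) :
    fval 0 g s F = F (g.symm (pt 15 + s)) := by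
  rw [fval_std]
  have h : facT 0 = un 15 := by decide +kernel
  rw [h, dl_un _ (by norm_num)]

theorem ch_self {P : Pl} : ch P (pt P.1) = 1 := by
  unfold ch chp
  rw [if_pos (Or.inl rfl)]

/-- pulling a plane -/
theorem pull {D : W4 → ℚ} (hD : Cq D) {P : Pl} (hP : okp P = true) :
    ∃ (t : ℚ) (i : ℕ) (g : W4 ≃+ W4) (s : W4), 0 ≤ t ∧ i < 8 ∧ 0 < fval i g s (ch P) ∧
      Cq (fun v => D v - t * ch P v) ∧ fval i g s (fun v => D v - t * ch P v) = 0 := by
  classical
  have : Finite (W4 ≃+ W4) := DFunLike.finite _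
  let ι := {x : Fin 8 × (W4 ≃+ W4) × W4 // 0 < fval x.1 x.2.1 x.2.2 (ch P)}
  have : Finite ι := Subtype.finite
  have : Nonempty ι := ⟨⟨(0, AddEquiv.refl W4, pt P.1 + pt 15), by
    show 0 < fval 0 _ _ _
    rw [fval_zero_eq]
    have : (AddEquiv.refl W4).symm (pt 15 + (pt P.1 + pt 15)) = pt P.1 := by
      show pt 15 + (pt P.1 + pt 15) = pt P.1
      rw [add_comm (pt P.1), ← add_assoc, W_add_self, zero_add]
    rw [this, ch_self]
    norm_num⟩⟩
  obtain ⟨x0, hx0⟩ := Finite.exists_min
    (fun x : ι => fval x.1.1 x.1.2.1 x.1.2.2 D / fval x.1.1 x.1.2.1 x.1.2.2 (ch P))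
  obtain ⟨⟨i, g, s⟩, hpos⟩ := x0
  dsimp only at hx0 hpos
  refine ⟨fval i g s D / fval i g s (ch P), i, g, s, div_nonneg (hD _ _ _ i.2) hpos.le, i.2, hpos,
    ?_, ?_⟩
  · intro j g' s' hj
    rw [fval_sub]
    by_cases h1 : 0 < fval j g' s' (ch P)
    · have h2 := hx0 ⟨(⟨j, hj⟩, g', s'), h1⟩
      dsimp only at h2
      rw [le_div_iff₀ h1] at h2
      linarith only [h2]
    · have h2 : fval j g' s' (ch P) = 0 := le_antisymm (not_lt.1 h1) (ch_cq hP _ _ _ hj)
      rw [h2, mul_zero, sub_zero]
      exact hD _ _ _ hj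
  · rw [fval_sub, div_mul_cancel₀ _ hpos.ne', sub_self]

/-- tight inequalities of the types 1 and 3 to 7 -/
theorem tight_mem {D : W4 → ℚ} (hD : Cq D) {i : ℕ} (hi : i < 8) (h0 : i ≠ 0) (h2 : i ≠ 2)
    (g : W4 ≃+ W4) (s : W4) (h : fval i g s D = 0) : D ∈ Pc := by
  apply Pc_of_std g s
  have hD' := hD.std g s
  rw [fval_std] at h
  interval_cases i
  · exact absurd rfl h0
  · exact S1' hD' (by rw [show t1 0 = facT 1 by decide +kernel]; exact h)
  · exact absurd rfl h2
  · exact S3 (chkR_sound okR3 hD') (by rw [show w3 = facT 3 by decide +kernel]; exact h)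
  · refine root_sound okT4 ok4 (fun j hj => ?_) (chkR_sound okR4 hD')
    interval_cases j
    rw [show R4.getD 0 [] = facT 4 by decide +kernel]; exact h
  · refine root_sound okT5 ok5 (fun j hj => ?_) (chkR_sound okR5 hD')
    interval_cases j
    rw [show R5.getD 0 [] = facT 5 by decide +kernel]; exact h
  · refine root_sound okT6 ok6 (fun j hj => ?_) (chkR_sound okR6 hD')
    interval_cases j
    rw [show R6.getD 0 [] = facT 6 by decide +kernel]; exact h
  · refine root_sound okT7 ok7 (fun j hj => ?_) (chkR_sound okR7 hD')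
    interval_cases j
    rw [show R7.getD 0 [] = facT 7 by decide +kernel]; exact h

theorem facT2_eq : facT 2 = t2 0 15 := by decide +kernel

/-- the inequalities of type 2 in coordinates -/
theorem f2_t2 (g : W4 ≃+ W4) (s : W4) : ∃ v h, v < 16 ∧ h < 16 ∧ h ≠ 0 ∧
    ∀ F : W4 → ℚ, fval 2 g s F = dl F (t2 v h) := by
  obtain ⟨h, hh, hφ⟩ := phi_eq ((phi (pt 15)).comp g.toAddMonoidHom)
  have hφ2 : ∀ u, phi (pt 15) (g u) = phi (pt h) u := fun u => by
    rw [← hφ]; rfl
  refine ⟨ix (g.symm s), h, ix_lt _, hh, ?_, fun F => ?_⟩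
  · rintro rfl
    have h1 := hφ2 (g.symm (pt 1))
    rw [AddEquiv.apply_symm_apply, pr_phi 15 (by norm_num) 1 (by norm_num)] at h1
    have h2 := pr_phi 0 (by norm_num) (ix (g.symm (pt 1))) (ix_lt _)
    rw [pt_ix, Nat.and_zero] at h2
    rw [h2] at h1
    exact absurd h1 (by decide)
  · rw [dl_eq]
    unfold fval
    refine sum_congr rfl fun u _ => ?_
    congr 2
    unfold fcv
    rw [facT2_eq]
    unfold t2
    rw [getD_map_range _ (ix_lt _), getD_map_range _ (ix_lt _)]
    have key : ∀ k < 16, ∀ x < 16, (bif pr (x &&& k) then (0 : ℤ) else 1) =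
        if phi (pt k) (pt x) = 0 then 1 else 0 := by
      intro k hk x hx
      rw [pr_phi k hk x hx]
      cases pr (x &&& k)
      · rfl
      · rfl
    have hx : ix u ^^^ ix (g.symm s) < 16 :=
      Nat.xor_lt_two_pow (n := 4) (ix_lt _) (ix_lt _)
    rw [Nat.xor_zero, key 15 (by norm_num) _ (ix_lt _), key h hh _ hx, pt_ix, pt_xor, pt_ix, pt_ix,
      map_add (phi (pt 15)), map_add (phi (pt h)), hφ2 u]
    have h3 : phi (pt 15) s = phi (pt h) (g.symm s) := by
      rw [← hφ2, AddEquiv.apply_symm_apply]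
    rw [h3]
    congr 1
    have h4 : (Nat.beq (ix (g u + s)) 0 = true) ↔ (Nat.beq (ix u) (ix (g.symm s)) = true) := by
      rw [Nat.beq_eq, Nat.beq_eq]
      constructor
      · intro h5
        have h6 : g u + s = 0 := by rw [← pt_ix (g u + s), h5, pt_zero]
        have h7 : g u = s := by
          have := congrArg (· + s) h6
          rw [add_assoc, W_add_self, add_zero, zero_add] at this
          exact this
        rw [← h7, AddEquiv.symm_apply_apply]
      · intro h5
        have h6 : u = g.symm s := by rw [← pt_ix u, h5, pt_ix]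
        rw [h6, AddEquiv.apply_symm_apply, W_add_self]
        decide +kernel
    cases h5 : Nat.beq (ix (g u + s)) 0 <;> cases h6 : Nat.beq (ix u) (ix (g.symm s))
    · rfl
    · rw [h5, h6] at h4; exact absurd (h4.2 rfl) (by decide)
    · rw [h5, h6] at h4; exact absurd (h4.1 rfl) (by decide)
    · rfl

/-- the size of the support -/
def sc (D : W4 → ℚ) : ℕ := (univ.filter fun v => D v ≠ 0).card

theorem sc_comp (D : W4 → ℚ) (e : W4 ≃ W4) : sc (fun v => D (e v)) = sc D := by
  unfold sc
  refine card_bij (fun v _ => e v) (fun v hv => ?_) (fun a _ b _ h => e.injective h)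
    (fun b hb => ⟨e.symm b, ?_, ?_⟩)
  · rw [mem_filter] at hv ⊢
    exact ⟨mem_univ _, hv.2⟩
  · rw [mem_filter] at hb ⊢
    refine ⟨mem_univ _, ?_⟩
    show D (e (e.symm b)) ≠ 0
    rw [Equiv.apply_symm_apply]; exact hb.2
  · exact Equiv.apply_symm_apply _ _

theorem sc_lt {D D' : W4 → ℚ} (h : ∀ v, D v = 0 → D' v = 0) {u : W4} (h1 : D u ≠ 0)
    (h2 : D' u = 0) : sc D' < sc D := by
  unfold sc
  apply card_lt_card
  refine ⟨fun v hv => ?_, fun h3 => ?_⟩
  · rw [mem_filter] at hv ⊢
    exact ⟨mem_univ _, fun h4 => hv.2 (h v h4)⟩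
  · have := h3 (mem_filter.2 ⟨mem_univ u, h1⟩)
    rw [mem_filter] at this
    exact this.2 h2

theorem sc_le {D D' : W4 → ℚ} (h : ∀ v, D v = 0 → D' v = 0) : sc D' ≤ sc D := by
  unfold sc
  apply card_le_card
  intro v hv
  rw [mem_filter] at hv ⊢
  exact ⟨mem_univ _, fun h4 => hv.2 (h v h4)⟩

theorem ch_nn (P : Pl) (v : W4) : 0 ≤ ch P v := by
  unfold ch chp
  split_ifs <;> norm_num

theorem posP_of {D : W4 → ℚ} {P : Pl} (h : posP D P) {u : W4} (hu : 0 < ch P u) : 0 < D u := by
  unfold ch chp at hu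
  by_cases h1 : u = pt P.1 ∨ u = pt P.2.1 ∨ u = pt P.2.2 ∨ u = pt P.1 + pt P.2.1 + pt P.2.2
  · rcases h1 with rfl | rfl | rfl | rfl
    · exact h.1
    · exact h.2.1
    · exact h.2.2.1
    · rw [← pt_xor, ← pt_xor]; exact h.2.2.2
  · rw [if_neg h1] at hu
    exact absurd hu (lt_irrefl _)

theorem pulled_zero {D : W4 → ℚ} (hD : Cq D) {P : Pl} {t : ℚ} (ht : 0 ≤ t)
    (hD' : Cq fun v => D v - t * ch P v) {v : W4} (h : D v = 0) : D v - t * ch P v = 0 := by
  have h1 : 0 ≤ D v - t * ch P v := hD'.nn v
  have h2 := mul_nonneg ht (ch_nn P v)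
  rw [h] at h1 ⊢
  linarith only [h1, h2]

theorem sameH_ok : ((List.range 16).all fun v => pr (v &&& 15) || (Nat.beq v 0 ||
    (List.range 4096).all fun j => !(okp (j / 256, j / 16 % 16, j % 16)) ||
      (!(decide (fv (t2 0 15) (j / 256, j / 16 % 16, j % 16) = 0)) ||
      (!(decide (0 < fv (t2 v 15) (j / 256, j / 16 % 16, j % 16))) ||
      (List.range 16).any fun u => inP (j / 256, j / 16 % 16, j % 16) u &&
        (List.range 16).all fun x => decide ((vs 2 (un u)).getD x 0 ≤
          (va (t2 0 15) (t2 v 15)).getD x 0))))) = true := by decide +kernel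

theorem inP_pos {D : W4 → ℚ} {P : Pl} (h : posP D P) {u : ℕ} (hu : inP P u = true) :
    0 < D (pt u) := by
  unfold inP at hu
  simp only [Bool.or_eq_true, Nat.beq_eq] at hu
  rcases hu with rfl | rfl | rfl | rfl
  · exact h.1
  · exact h.2.1
  · exact h.2.2.1
  · exact h.2.2.2

/-- one tight inequality of type 2 -/
theorem compC1 {n : ℕ} (IH : ∀ D' : W4 → ℚ, Cq D' → sc D' < n → D' ∈ Pc) {D : W4 → ℚ}
    (hD : Cq D) (hn : sc D ≤ n) (h2 : dl D (t2 0 15) = 0) : D ∈ Pc := by
  rcases lemA hD h2 with rfl | ⟨P, hP, hf, hpos⟩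
  · exact zero_mem _
  · obtain ⟨t, i, g, s, ht, hi, h3, hD', h4⟩ := pull hD hP
    have hsplit : D = (fun v => D v - t * ch P v) + fun v => t * ch P v := by
      funext v; rw [Pi.add_apply]; ring
    suffices h : (fun v => D v - t * ch P v) ∈ Pc by
      rw [hsplit]; exact add_mem h (ch_mem hP ht)
    have hz : ∀ v, D v = 0 → D v - t * ch P v = 0 := fun v hv => pulled_zero hD ht hD' hv
    have hsmall : ∀ u, 0 < D u → D u - t * ch P u = 0 → (fun v => D v - t * ch P v) ∈ Pc :=
      fun u hu hu2 => IH _ hD' (lt_of_lt_of_le (sc_lt (D := D) hz hu.ne' hu2) hn)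
    by_cases i0 : i = 0
    · subst i0
      rw [fval_zero_eq] at h3 h4
      exact hsmall _ (posP_of hpos h3) h4
    · by_cases i2 : i = 2
      · subst i2
        obtain ⟨v, h, hv, hh, h0, hF⟩ := f2_t2 g s
        rw [hF] at h3 h4
        have h5 : dl (fun v => D v - t * ch P v) (t2 0 15) = 0 := by
          rw [dl_sub, dl_mul, dl_ch hP, hf, h2]; push_cast; ring
        by_cases h15 : h = 15
        · subst h15
          cases hpr : pr (v &&& 15) with
          | true => exact pair15 hD' h5 hv hpr h4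
          | false =>
            rw [dl_ch hP] at h3
            have h6 : v ≠ 0 := by
              rintro rfl
              rw [hf] at h3
              exact absurd h3 (by norm_num)
            have h7 := sameH_ok
            simp only [List.all_eq_true, List.mem_range] at h7
            have h8 := h7 v hv
            have hb : Nat.beq v 0 = false := by rw [← Bool.not_eq_true, Nat.beq_eq]; exact h6
            rw [hpr, hb] at h8
            simp only [Bool.false_or, List.all_eq_true, List.mem_range] at h8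
            obtain ⟨l1, l2, l3, -⟩ := okp_spec hP
            obtain ⟨a, b, c⟩ := P
            dsimp only at l1 l2 l3
            have h9 := h8 (256 * a + 16 * b + c) (by omega)
            rw [show (256 * a + 16 * b + c) / 256 = a by omega,
              show (256 * a + 16 * b + c) / 16 % 16 = b by omega,
              show (256 * a + 16 * b + c) % 16 = c by omega, hP, hf] at h9
            have h10 : 0 < fv (t2 v 15) (a, b, c) := by exact_mod_cast h3
            rw [decide_eq_true h10] at h9
            simp only [Bool.not_true, Bool.false_or, decide_true, List.any_eq_true,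
              List.mem_range, Bool.and_eq_true, List.all_eq_true, decide_eq_true_eq] at h9
            obtain ⟨u, hu, h11, h12⟩ := h9
            have h13 := dl_le' hD'.nn h12
            rw [dl_vs, dl_va, h5, h4, dl_un _ hu] at h13
            have h14 : 0 ≤ D (pt u) - t * ch (a, b, c) (pt u) := hD'.nn (pt u)
            refine hsmall (pt u) (inP_pos hpos h11) ?_
            push_cast at h13
            linarith only [h13, h14]
        · exact pairs hD' h5 hv (by omega) h0 h4
      · exact tight_mem hD' hi i0 i2 g s h4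

/-- the inequalities describe the cone of the planes -/
theorem comp_aux : ∀ n : ℕ, ∀ D : W4 → ℚ, Cq D → sc D < n → D ∈ Pc := by
  intro n
  induction n with
  | zero => intro D _ h; exact absurd h (Nat.not_lt_zero _)
  | succ n IH =>
    intro D hD hn
    have hn : sc D ≤ n := by omega
    by_cases hD0 : D = 0
    · rw [hD0]; exact zero_mem _
    · obtain ⟨x0, hx0⟩ : ∃ x, D x ≠ 0 := by
        by_contra hcon
        push Not at hcon
        exact hD0 (funext hcon)
      have hx1 : 0 < D x0 := lt_of_le_of_ne (hD.nn _) (Ne.symm hx0)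
      apply Pc_of_comp (AddEquiv.refl W4) x0
      have hD1 : Cq fun v => D ((AddEquiv.refl W4) v + x0) := hD.comp _ _
      have hn1 : sc (fun v => D ((AddEquiv.refl W4) v + x0)) ≤ n := by
        have := sc_comp D (Equiv.addRight x0)
        exact le_of_eq_of_le this hn
      have h0 : 0 < (fun v => D ((AddEquiv.refl W4) v + x0)) (pt 0) := by
        show 0 < D (pt 0 + x0)
        rw [pt_zero, zero_add]; exact hx1
      generalize (fun v => D ((AddEquiv.refl W4) v + x0)) = D1 at hD1 hn1 h0
      obtain ⟨P, hP, hpos⟩ := lemB hD1 h0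
      obtain ⟨t, i, g, s, ht, hi, h3, hD', h4⟩ := pull hD1 hP
      have hsplit : D1 = (fun v => D1 v - t * ch P v) + fun v => t * ch P v := by
        funext v; rw [Pi.add_apply]; ring
      suffices h : (fun v => D1 v - t * ch P v) ∈ Pc by
        rw [hsplit]; exact add_mem h (ch_mem hP ht)
      have hz : ∀ v, D1 v = 0 → D1 v - t * ch P v = 0 := fun v hv => pulled_zero hD1 ht hD' hv
      by_cases i0 : i = 0
      · subst i0
        rw [fval_zero_eq] at h3 h4
        exact IH _ hD' (lt_of_lt_of_le (sc_lt (D := D1) hz (posP_of hpos h3).ne' h4) hn1)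
      · by_cases i2 : i = 2
        · subst i2
          apply Pc_of_std g s
          rw [fval_std, facT2_eq] at h4
          refine compC1 IH (hD'.std g s) ?_ h4
          have e1 := sc_comp (fun v => D1 v - t * ch P v) ((Equiv.addRight s).trans g.symm.toEquiv)
          have e2 := sc_le (D := D1) hz
          exact le_of_eq_of_le e1 (e2.trans hn1)
        · exact tight_mem hD' hi i0 i2 g s h4

/-- the inequalities describe the cone of the planes -/
theorem comp {D : W4 → ℚ} (hD : Cq D) : D ∈ Pc := comp_aux (sc D + 1) D hD (Nat.lt_succ_self _)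

end Pool.Agent.helper25.AG
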