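import Pool.Agent.helper25.AG.Tree

set_option autoImplicit false
set_option linter.unusedSectionVars false
set_option linter.unusedVariables false

/-!
# Project AG: pulling decomposition 8
-/

namespace Pool.Agent.helper25.AG

open Finset Pool.Agent.helper25.PV

def R8 : List (List ℤ) :=
  [[-1, 0, 0, 1, 0, 1, 1, 0, 0, 1, 1, 0, 1, 0, 0, 1],
    [0, -1, 0, 1, 0, 1, 0, 1, 0, 1, 0, 1, 0, 1, 0, 1],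
    [0, 0, 0, 0, 0, 0, 0, 0, 0, 0, 0, 0, 0, 0, 0, 4],
    [0, 0, 0, 0, 0, 0, 0, 0, 0, 4, 0, 0, 0, 0, 0, 0],
    [0, 0, 0, 0, 0, 4, 0, 0, 0, 0, 0, 0, 0, 0, 0, 0],
    [0, 0, 0, 4, 0, 0, 0, 0, 0, 0, 0, 0, 0, 0, 0, 0],
    [0, 0, 0, 0, 0, 0, 0, 0, 0, 0, 0, 0, 0, 4, 0, 0],
    [0, 0, 0, 0, 0, 0, 0, 0, 0, 0, 0, 0, 4, 0, 0, 0],
    [0, 0, 0, 0, 0, 0, 0, 0, 0, 0, 0, 4, 0, 0, 0, 0],
    [0, 0, 0, 0, 0, 0, 0, 0, 0, 0, 4, 0, 0, 0, 0, 0],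
    [0, 0, 0, 0, 0, 0, 0, 4, 0, 0, 0, 0, 0, 0, 0, 0],
    [0, 0, 0, 0, 0, 0, 4, 0, 0, 0, 0, 0, 0, 0, 0, 0],
    [-1, -1, -1, 3, -1, 3, 3, 3, 1, 1, 1, 1, 1, 1, 1, 1],
    [-1, -1, -1, 3, 1, 1, 1, 1, -1, 3, 3, 3, 1, 1, 1, 1],
    [-1, -1, -1, 3, 1, 1, 1, 1, 1, 1, 1, 1, 3, 3, -1, 3],
    [-1, -1, 1, 1, -1, 3, 1, 1, -1, 3, 1, 1, 3, 3, 1, 1],
    [-1, -1, 1, 1, -1, 3, 1, 1, 1, 1, 3, 3, 1, 1, -1, 3],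
    [-1, -1, 1, 1, 1, 1, 3, 3, -1, 3, 1, 1, 1, 1, -1, 3],
    [-3, 1, 1, 1, 1, 1, 1, 1, 1, 1, 1, 1, 1, 1, 1, 1],
    [1, -3, 1, 1, 1, 1, 1, 1, 1, 1, 1, 1, 1, 1, 1, 1],
    [-2, 0, 0, 2, 0, 2, 2, 0, 2, 0, 0, 2, 0, 2, 2, 0],
    [-2, 0, 0, 2, 2, 0, 0, 2, 0, 2, 2, 0, 0, 2, 2, 0],
    [-2, 0, 0, 2, 2, 0, 0, 2, 2, 0, 0, 2, 2, 0, 0, 2],
    [-2, 0, 2, 0, 0, 2, 0, 2, 0, 2, 0, 2, 2, 0, 2, 0],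
    [-2, 0, 2, 0, 0, 2, 0, 2, 2, 0, 2, 0, 0, 2, 0, 2],
    [-2, 0, 2, 0, 2, 0, 2, 0, 0, 2, 0, 2, 0, 2, 0, 2],
    [0, -2, 0, 2, 0, 2, 0, 2, 2, 0, 2, 0, 2, 0, 2, 0],
    [0, -2, 0, 2, 2, 0, 2, 0, 0, 2, 0, 2, 2, 0, 2, 0],
    [0, -2, 0, 2, 2, 0, 2, 0, 2, 0, 2, 0, 0, 2, 0, 2],
    [0, -2, 2, 0, 0, 2, 2, 0, 0, 2, 2, 0, 0, 2, 2, 0],
    [0, -2, 2, 0, 0, 2, 2, 0, 2, 0, 0, 2, 2, 0, 0, 2],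
    [0, -2, 2, 0, 2, 0, 0, 2, 0, 2, 2, 0, 2, 0, 0, 2],
    [-2, -2, -2, 6, 2, 2, 2, 2, 2, 2, 2, 2, 2, 2, 2, 2],
    [-2, -2, 2, 2, -2, 6, 2, 2, 2, 2, 2, 2, 2, 2, 2, 2],
    [-2, -2, 2, 2, 2, 2, 2, 2, -2, 6, 2, 2, 2, 2, 2, 2],
    [-2, -2, 2, 2, 2, 2, 2, 2, 2, 2, 2, 2, 2, 2, -2, 6],
    [-3, -1, -1, 5, 1, 3, 3, 1, 1, 3, 3, 1, 1, 3, 3, 1],
    [-3, -1, -1, 5, 1, 3, 3, 1, 3, 1, 1, 3, 3, 1, 1, 3],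
    [-3, -1, -1, 5, 3, 1, 1, 3, 1, 3, 3, 1, 3, 1, 1, 3],
    [-3, -1, 1, 3, -1, 5, 3, 1, 1, 3, 1, 3, 3, 1, 3, 1],
    [-3, -1, 1, 3, -1, 5, 3, 1, 3, 1, 3, 1, 1, 3, 1, 3],
    [-3, -1, 1, 3, 1, 3, 1, 3, -1, 5, 3, 1, 3, 1, 3, 1],
    [-3, -1, 1, 3, 1, 3, 1, 3, 1, 3, 1, 3, 5, -1, 1, 3],
    [-3, -1, 1, 3, 1, 3, 1, 3, 1, 3, 5, -1, 1, 3, 1, 3],
    [-3, -1, 1, 3, 1, 3, 1, 3, 3, 1, 3, 1, 3, 1, -1, 5],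
    [-3, -1, 1, 3, 1, 3, 5, -1, 1, 3, 1, 3, 1, 3, 1, 3],
    [-3, -1, 1, 3, 3, 1, 3, 1, -1, 5, 3, 1, 1, 3, 1, 3],
    [-3, -1, 1, 3, 3, 1, 3, 1, 1, 3, 1, 3, 3, 1, -1, 5],
    [-3, -1, 3, 1, -1, 5, 1, 3, 1, 3, 3, 1, 3, 1, 1, 3],
    [-3, -1, 3, 1, 1, 3, 3, 1, -1, 5, 1, 3, 3, 1, 1, 3],
    [-3, -1, 3, 1, 1, 3, 3, 1, 1, 3, 3, 1, 1, 3, -1, 5],
    [-1, -3, -1, 5, 1, 3, 1, 3, 1, 3, 1, 3, 3, 1, 3, 1],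
    [-1, -3, -1, 5, 1, 3, 1, 3, 3, 1, 3, 1, 1, 3, 1, 3],
    [-1, -3, -1, 5, 3, 1, 3, 1, 1, 3, 1, 3, 1, 3, 1, 3],
    [-1, -3, 1, 3, -1, 5, 1, 3, 1, 3, 3, 1, 1, 3, 3, 1],
    [-1, -3, 1, 3, -1, 5, 1, 3, 3, 1, 1, 3, 3, 1, 1, 3],
    [-1, -3, 1, 3, 1, 3, -1, 5, 1, 3, 3, 1, 3, 1, 1, 3],
    [-1, -3, 1, 3, 1, 3, 3, 1, -1, 5, 1, 3, 1, 3, 3, 1],
    [-1, -3, 1, 3, 1, 3, 3, 1, 1, 3, -1, 5, 3, 1, 1, 3],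
    [-1, -3, 1, 3, 1, 3, 3, 1, 1, 3, 3, 1, -1, 5, 1, 3],
    [-1, -3, 1, 3, 1, 3, 3, 1, 3, 1, 1, 3, 1, 3, -1, 5],
    [-1, -3, 1, 3, 3, 1, 1, 3, -1, 5, 1, 3, 3, 1, 1, 3],
    [-1, -3, 1, 3, 3, 1, 1, 3, 1, 3, 3, 1, 1, 3, -1, 5],
    [-1, -3, 3, 1, -1, 5, 3, 1, 1, 3, 1, 3, 1, 3, 1, 3],
    [-1, -3, 3, 1, 1, 3, 1, 3, -1, 5, 3, 1, 1, 3, 1, 3],
    [-1, -3, 3, 1, 1, 3, 1, 3, 1, 3, 1, 3, 3, 1, -1, 5],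
    [-2, -2, 0, 4, 0, 4, 2, 2, 0, 4, 2, 2, 2, 2, 4, 0],
    [-2, -2, 0, 4, 0, 4, 2, 2, 2, 2, 0, 4, 4, 0, 2, 2],
    [-2, -2, 0, 4, 0, 4, 2, 2, 2, 2, 4, 0, 0, 4, 2, 2],
    [-2, -2, 0, 4, 0, 4, 2, 2, 4, 0, 2, 2, 2, 2, 0, 4],
    [-2, -2, 0, 4, 2, 2, 0, 4, 0, 4, 2, 2, 4, 0, 2, 2],
    [-2, -2, 0, 4, 2, 2, 0, 4, 2, 2, 4, 0, 2, 2, 0, 4],
    [-2, -2, 0, 4, 2, 2, 4, 0, 0, 4, 2, 2, 0, 4, 2, 2],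
    [-2, -2, 0, 4, 2, 2, 4, 0, 2, 2, 0, 4, 2, 2, 0, 4],
    [-2, -2, 0, 4, 4, 0, 2, 2, 0, 4, 2, 2, 2, 2, 0, 4],
    [-2, -2, 2, 2, 0, 4, 0, 4, 0, 4, 4, 0, 2, 2, 2, 2],
    [-2, -2, 2, 2, 0, 4, 0, 4, 2, 2, 2, 2, 4, 0, 0, 4],
    [-2, -2, 2, 2, 0, 4, 4, 0, 0, 4, 0, 4, 2, 2, 2, 2],
    [-2, -2, 2, 2, 0, 4, 4, 0, 2, 2, 2, 2, 0, 4, 0, 4],
    [-2, -2, 2, 2, 2, 2, 2, 2, 0, 4, 0, 4, 4, 0, 0, 4],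
    [-2, -2, 2, 2, 2, 2, 2, 2, 0, 4, 4, 0, 0, 4, 0, 4],
    [-2, -2, 4, 0, 0, 4, 2, 2, 0, 4, 2, 2, 2, 2, 0, 4]]

def I8 : List (ℕ × Item) :=
  [(4, 0, 0, 1, 2, 4, 8),
    (4, 0, 0, 1, 2, 4, 14),
    (4, 0, 0, 1, 2, 14, 4),
    (4, 0, 0, 1, 14, 2, 4),
    (4, 0, 0, 1, 2, 4, 10),
    (4, 0, 0, 1, 2, 4, 11),
    (4, 0, 0, 1, 2, 4, 12),
    (4, 0, 0, 1, 2, 4, 13),
    (4, 0, 0, 1, 2, 12, 4),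
    (4, 0, 0, 1, 2, 13, 4),
    (1, 3, 0, 1, 2, 4, 8),
    (1, 3, 0, 1, 2, 8, 4),
    (1, 3, 0, 1, 2, 8, 14),
    (1, 3, 0, 1, 8, 2, 4),
    (1, 3, 0, 1, 8, 2, 14),
    (1, 3, 0, 1, 8, 14, 2),
    (1, 1, 0, 1, 2, 4, 8),
    (1, 1, 1, 1, 2, 4, 8),
    (2, 2, 0, 1, 2, 4, 9),
    (2, 2, 0, 1, 2, 5, 8),
    (2, 2, 0, 1, 2, 5, 9),
    (2, 2, 0, 1, 3, 4, 8),
    (2, 2, 0, 1, 3, 4, 9),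
    (2, 2, 0, 1, 3, 5, 8),
    (2, 2, 1, 1, 3, 5, 8),
    (2, 2, 1, 1, 3, 4, 9),
    (2, 2, 1, 1, 3, 4, 8),
    (2, 2, 1, 1, 2, 5, 9),
    (2, 2, 1, 1, 2, 5, 8),
    (2, 2, 1, 1, 2, 4, 9),
    (2, 5, 0, 1, 2, 4, 8),
    (2, 5, 0, 1, 4, 2, 8),
    (2, 5, 0, 1, 4, 8, 2),
    (2, 5, 0, 1, 4, 8, 14),
    (1, 6, 0, 1, 2, 4, 8),
    (1, 6, 0, 1, 2, 4, 9),
    (1, 6, 0, 1, 2, 5, 8),
    (1, 6, 0, 1, 4, 2, 8),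
    (1, 6, 0, 1, 4, 2, 9),
    (1, 6, 0, 1, 4, 8, 2),
    (1, 6, 0, 1, 4, 8, 11),
    (1, 6, 0, 1, 4, 8, 7),
    (1, 6, 0, 1, 4, 8, 14),
    (1, 6, 0, 1, 4, 7, 8),
    (1, 6, 0, 1, 4, 9, 2),
    (1, 6, 0, 1, 4, 9, 15),
    (1, 6, 0, 1, 5, 2, 8),
    (1, 6, 0, 1, 5, 8, 2),
    (1, 6, 0, 1, 5, 8, 15),
    (1, 6, 1, 1, 3, 5, 9),
    (1, 6, 1, 1, 3, 5, 8),
    (1, 6, 1, 1, 3, 4, 9),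
    (1, 6, 1, 1, 5, 3, 9),
    (1, 6, 1, 1, 5, 3, 8),
    (1, 6, 1, 1, 5, 6, 9),
    (1, 6, 1, 1, 5, 9, 3),
    (1, 6, 1, 1, 5, 9, 6),
    (1, 6, 1, 1, 5, 9, 10),
    (1, 6, 1, 1, 5, 9, 15),
    (1, 6, 1, 1, 5, 8, 3),
    (1, 6, 1, 1, 5, 8, 14),
    (1, 6, 1, 1, 4, 3, 9),
    (1, 6, 1, 1, 4, 9, 3),
    (1, 6, 1, 1, 4, 9, 14),
    (2, 7, 0, 1, 2, 4, 8),
    (2, 7, 0, 1, 2, 4, 10),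
    (2, 7, 0, 1, 2, 4, 11),
    (2, 7, 0, 1, 2, 4, 9),
    (2, 7, 0, 1, 2, 6, 8),
    (2, 7, 0, 1, 2, 6, 11),
    (2, 7, 0, 1, 2, 7, 8),
    (2, 7, 0, 1, 2, 7, 10),
    (2, 7, 0, 1, 2, 5, 8),
    (2, 7, 0, 1, 6, 2, 8),
    (2, 7, 0, 1, 6, 2, 11),
    (2, 7, 0, 1, 6, 8, 2),
    (2, 7, 0, 1, 6, 8, 10),
    (2, 7, 0, 1, 6, 10, 4),
    (2, 7, 0, 1, 6, 10, 8),
    (2, 7, 0, 1, 3, 4, 8)]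

def tab8_0 : List Nd :=
  [⟨[18, 0, 1], [2, 3, 4, 5, 6, 8, 10, 20, 21, 22, 23, 24, 25], (0, 0, 0), [], [((0, 1, 2), 5), ((0, 1, 4), 4), ((0, 1, 6), 10), ((0, 1, 8), 3), ((0, 1, 10), 8), ((0, 1, 12), 6), ((0, 1, 14), 2), ((0, 2, 4), 25), ((0, 2, 8), 24), ((0, 2, 12), 23), ((0, 4, 8), 22), ((0, 4, 10), 21), ((0, 6, 8), 20)], 1, [[-6, 2, -6], [0, 0, -4], [-2, 0, -2], [0, 0, 0], [-2, 0, -2], [0, 0, 0], [-2, 2, -2], [0, 0, 0], [-2, 0, -2], [0, 0, 0], [-2, 2, -2], [0, 0, 0], [-2, 2, -2], [0, 0, 0], [-2, 0, -2], [0, 0, 0]]⟩,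
    ⟨[19, 0, 1], [2, 3, 4, 5, 7, 9, 11, 26, 27, 28, 29, 30, 31], (0, 0, 0), [], [((0, 1, 2), 5), ((0, 1, 4), 4), ((0, 1, 6), 11), ((0, 1, 8), 3), ((0, 1, 10), 9), ((0, 1, 12), 7), ((0, 1, 14), 2), ((1, 2, 4), 31), ((1, 2, 8), 30), ((1, 2, 13), 29), ((1, 4, 8), 28), ((1, 4, 11), 27), ((1, 7, 8), 26)], 1, [[0, -4, 0], [-6, -6, 2], [-2, -2, 0], [0, 0, 0], [-2, -2, 0], [0, 0, 0], [0, 0, 0], [-2, -2, 2], [-2, -2, 0], [0, 0, 0], [0, 0, 0], [-2, -2, 2], [0, 0, 0], [-2, -2, 2], [-2, -2, 0], [0, 0, 0]]⟩,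
    ⟨[20, 0, 1], [2, 3, 4, 5, 6, 8, 12, 18, 36, 37, 39, 40, 45], (0, 0, 0), [], [((0, 1, 2), 5), ((0, 1, 4), 4), ((0, 1, 6), 12), ((0, 1, 8), 3), ((0, 1, 10), 8), ((0, 1, 12), 6), ((0, 1, 14), 2), ((0, 2, 4), 45), ((0, 2, 8), 40), ((0, 2, 12), 39), ((0, 4, 8), 37), ((0, 4, 10), 36), ((1, 2, 4), 18)], 1, [[-5, -10, -6], [-1, -2, -4], [-3, -6, -2], [0, 0, 0], [-3, -6, -2], [0, 0, 0], [-1, -2, -2], [-1, -2, 0], [-1, -4, -2], [0, 0, 0], [-2, -2, -2], [0, 0, 0], [-2, -2, -2], [0, 0, 0], [-1, -4, -2], [0, 0, 0]]⟩,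
    ⟨[21, 0, 1], [2, 3, 4, 5, 6, 10, 13, 18, 36, 38, 41, 43, 46], (0, 0, 0), [], [((0, 1, 2), 5), ((0, 1, 4), 4), ((0, 1, 6), 10), ((0, 1, 8), 3), ((0, 1, 10), 13), ((0, 1, 12), 6), ((0, 1, 14), 2), ((0, 2, 4), 46), ((0, 2, 8), 43), ((0, 2, 12), 41), ((0, 4, 8), 38), ((0, 6, 8), 36), ((1, 2, 8), 18)], 1, [[-5, -10, -6], [-1, -2, -4], [-3, -6, -2], [0, 0, 0], [-1, -4, -2], [0, 0, 0], [-2, -2, -2], [0, 0, 0], [-3, -6, -2], [0, 0, 0], [-1, -2, -2], [-1, -2, 0], [-2, -2, -2], [0, 0, 0], [-1, -4, -2], [0, 0, 0]]⟩,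
    ⟨[22, 0, 1], [2, 3, 4, 5, 8, 10, 14, 18, 37, 38, 42, 44, 47], (0, 0, 0), [], [((0, 1, 2), 5), ((0, 1, 4), 4), ((0, 1, 6), 10), ((0, 1, 8), 3), ((0, 1, 10), 8), ((0, 1, 12), 14), ((0, 1, 14), 2), ((0, 2, 4), 47), ((0, 2, 8), 44), ((0, 2, 12), 42), ((0, 4, 10), 38), ((0, 6, 8), 37), ((1, 2, 13), 18)], 1, [[-5, -10, -6], [-1, -2, -4], [-3, -6, -2], [0, 0, 0], [-1, -4, -2], [0, 0, 0], [-2, -2, -2], [0, 0, 0], [-1, -4, -2], [0, 0, 0], [-2, -2, -2], [0, 0, 0], [-1, -2, -2], [-1, -2, 0], [-3, -6, -2], [0, 0, 0]]⟩,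
    ⟨[23, 0, 1], [2, 3, 4, 5, 8, 10, 15, 18, 39, 41, 42, 48, 49], (0, 0, 0), [], [((0, 1, 2), 5), ((0, 1, 4), 4), ((0, 1, 6), 10), ((0, 1, 8), 3), ((0, 1, 10), 8), ((0, 1, 12), 15), ((0, 1, 14), 2), ((0, 2, 4), 49), ((0, 2, 8), 48), ((0, 4, 8), 42), ((0, 4, 10), 41), ((0, 6, 8), 39), ((1, 4, 8), 18)], 1, [[-5, -10, -6], [-1, -2, -4], [-1, -4, -2], [0, 0, 0], [-3, -6, -2], [0, 0, 0], [-2, -2, -2], [0, 0, 0], [-3, -6, -2], [0, 0, 0], [-2, -2, -2], [0, 0, 0], [-1, -2, -2], [-1, -2, 0], [-1, -4, -2], [0, 0, 0]]⟩,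
    ⟨[24, 0, 1], [2, 3, 4, 5, 6, 10, 16, 18, 40, 43, 44, 48, 50], (0, 0, 0), [], [((0, 1, 2), 5), ((0, 1, 4), 4), ((0, 1, 6), 10), ((0, 1, 8), 3), ((0, 1, 10), 16), ((0, 1, 12), 6), ((0, 1, 14), 2), ((0, 2, 4), 50), ((0, 2, 12), 48), ((0, 4, 8), 44), ((0, 4, 10), 43), ((0, 6, 8), 40), ((1, 4, 11), 18)], 1, [[-5, -10, -6], [-1, -2, -4], [-1, -4, -2], [0, 0, 0], [-3, -6, -2], [0, 0, 0], [-2, -2, -2], [0, 0, 0], [-1, -4, -2], [0, 0, 0], [-1, -2, -2], [-1, -2, 0], [-2, -2, -2], [0, 0, 0], [-3, -6, -2], [0, 0, 0]]⟩,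
    ⟨[25, 0, 1], [2, 3, 4, 5, 6, 8, 17, 18, 45, 46, 47, 49, 50], (0, 0, 0), [], [((0, 1, 2), 5), ((0, 1, 4), 4), ((0, 1, 6), 17), ((0, 1, 8), 3), ((0, 1, 10), 8), ((0, 1, 12), 6), ((0, 1, 14), 2), ((0, 2, 8), 50), ((0, 2, 12), 49), ((0, 4, 8), 47), ((0, 4, 10), 46), ((0, 6, 8), 45), ((1, 7, 8), 18)], 1, [[-5, -10, -6], [-1, -2, -4], [-1, -4, -2], [0, 0, 0], [-1, -4, -2], [0, 0, 0], [-1, -2, -2], [-1, -2, 0], [-3, -6, -2], [0, 0, 0], [-2, -2, -2], [0, 0, 0], [-2, -2, -2], [0, 0, 0], [-3, -6, -2], [0, 0, 0]]⟩,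
    ⟨[26, 0, 1], [2, 3, 4, 5, 7, 9, 12, 19, 51, 52, 54, 55, 56], (0, 0, 0), [], [((0, 1, 2), 5), ((0, 1, 4), 4), ((0, 1, 6), 12), ((0, 1, 8), 3), ((0, 1, 10), 9), ((0, 1, 12), 7), ((0, 1, 14), 2), ((0, 2, 4), 19), ((1, 2, 4), 56), ((1, 2, 8), 55), ((1, 2, 13), 54), ((1, 4, 8), 52), ((1, 4, 11), 51)], 1, [[-1, -4, -2], [-5, -6, -10], [-3, -2, -6], [0, 0, 0], [-3, -2, -6], [0, 0, 0], [-1, 0, -2], [-1, -2, -2], [-1, -2, -4], [0, 0, 0], [0, 0, 0], [-2, -2, -2], [0, 0, 0], [-2, -2, -2], [-1, -2, -4], [0, 0, 0]]⟩,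
    ⟨[27, 0, 1], [2, 3, 4, 5, 7, 11, 13, 19, 51, 53, 57, 58, 61], (0, 0, 0), [], [((0, 1, 2), 5), ((0, 1, 4), 4), ((0, 1, 6), 11), ((0, 1, 8), 3), ((0, 1, 10), 13), ((0, 1, 12), 7), ((0, 1, 14), 2), ((0, 2, 8), 19), ((1, 2, 4), 61), ((1, 2, 8), 58), ((1, 2, 13), 57), ((1, 4, 8), 53), ((1, 7, 8), 51)], 1, [[-1, -4, -2], [-5, -6, -10], [-3, -2, -6], [0, 0, 0], [-1, -2, -4], [0, 0, 0], [0, 0, 0], [-2, -2, -2], [-3, -2, -6], [0, 0, 0], [-1, 0, -2], [-1, -2, -2], [0, 0, 0], [-2, -2, -2], [-1, -2, -4], [0, 0, 0]]⟩,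
    ⟨[28, 0, 1], [2, 3, 4, 5, 9, 11, 14, 19, 52, 53, 59, 60, 62], (0, 0, 0), [], [((0, 1, 2), 5), ((0, 1, 4), 4), ((0, 1, 6), 11), ((0, 1, 8), 3), ((0, 1, 10), 9), ((0, 1, 12), 14), ((0, 1, 14), 2), ((0, 2, 12), 19), ((1, 2, 4), 62), ((1, 2, 8), 60), ((1, 2, 13), 59), ((1, 4, 11), 53), ((1, 7, 8), 52)], 1, [[-1, -4, -2], [-5, -6, -10], [-3, -2, -6], [0, 0, 0], [-1, -2, -4], [0, 0, 0], [0, 0, 0], [-2, -2, -2], [-1, -2, -4], [0, 0, 0], [0, 0, 0], [-2, -2, -2], [-1, 0, -2], [-1, -2, -2], [-3, -2, -6], [0, 0, 0]]⟩,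
    ⟨[29, 0, 1], [2, 3, 4, 5, 9, 11, 15, 19, 54, 57, 59, 63, 64], (0, 0, 0), [], [((0, 1, 2), 5), ((0, 1, 4), 4), ((0, 1, 6), 11), ((0, 1, 8), 3), ((0, 1, 10), 9), ((0, 1, 12), 15), ((0, 1, 14), 2), ((0, 4, 8), 19), ((1, 2, 4), 64), ((1, 2, 8), 63), ((1, 4, 8), 59), ((1, 4, 11), 57), ((1, 7, 8), 54)], 1, [[-1, -4, -2], [-5, -6, -10], [-1, -2, -4], [0, 0, 0], [-3, -2, -6], [0, 0, 0], [0, 0, 0], [-2, -2, -2], [-3, -2, -6], [0, 0, 0], [0, 0, 0], [-2, -2, -2], [-1, 0, -2], [-1, -2, -2], [-1, -2, -4], [0, 0, 0]]⟩,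
    ⟨[30, 0, 1], [2, 3, 4, 5, 7, 11, 16, 19, 55, 58, 60, 63, 65], (0, 0, 0), [], [((0, 1, 2), 5), ((0, 1, 4), 4), ((0, 1, 6), 11), ((0, 1, 8), 3), ((0, 1, 10), 16), ((0, 1, 12), 7), ((0, 1, 14), 2), ((0, 4, 10), 19), ((1, 2, 4), 65), ((1, 2, 13), 63), ((1, 4, 8), 60), ((1, 4, 11), 58), ((1, 7, 8), 55)], 1, [[-1, -4, -2], [-5, -6, -10], [-1, -2, -4], [0, 0, 0], [-3, -2, -6], [0, 0, 0], [0, 0, 0], [-2, -2, -2], [-1, -2, -4], [0, 0, 0], [-1, 0, -2], [-1, -2, -2], [0, 0, 0], [-2, -2, -2], [-3, -2, -6], [0, 0, 0]]⟩,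
    ⟨[31, 0, 1], [2, 3, 4, 5, 7, 9, 17, 19, 56, 61, 62, 64, 65], (0, 0, 0), [], [((0, 1, 2), 5), ((0, 1, 4), 4), ((0, 1, 6), 17), ((0, 1, 8), 3), ((0, 1, 10), 9), ((0, 1, 12), 7), ((0, 1, 14), 2), ((0, 6, 8), 19), ((1, 2, 8), 65), ((1, 2, 13), 64), ((1, 4, 8), 62), ((1, 4, 11), 61), ((1, 7, 8), 56)], 1, [[-1, -4, -2], [-5, -6, -10], [-1, -2, -4], [0, 0, 0], [-1, -2, -4], [0, 0, 0], [-1, 0, -2], [-1, -2, -2], [-3, -2, -6], [0, 0, 0], [0, 0, 0], [-2, -2, -2], [0, 0, 0], [-2, -2, -2], [-3, -2, -6], [0, 0, 0]]⟩,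
    ⟨[32, 0, 1], [2, 3, 4, 5, 12, 13, 14, 36, 37, 38, 51, 52, 53], (0, 0, 0), [], [((0, 1, 2), 5), ((0, 1, 4), 4), ((0, 1, 6), 12), ((0, 1, 8), 3), ((0, 1, 10), 13), ((0, 1, 12), 14), ((0, 1, 14), 2), ((0, 2, 4), 53), ((0, 2, 8), 52), ((0, 2, 12), 51), ((1, 2, 4), 38), ((1, 2, 8), 37), ((1, 2, 13), 36)], 1, [[-3, -4, -6], [-3, -6, -4], [-5, -2, -2], [0, 0, 0], [-1, -2, -2], [0, 0, 0], [-1, 0, -2], [-1, -2, 0], [-1, -2, -2], [0, 0, 0], [-1, 0, -2], [-1, -2, 0], [-1, 0, -2], [-1, -2, 0], [-1, -2, -2], [0, 0, 0]]⟩,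
    ⟨[33, 0, 1], [2, 3, 4, 5, 12, 15, 16, 39, 40, 48, 54, 55, 63], (0, 0, 0), [], [((0, 1, 2), 5), ((0, 1, 4), 4), ((0, 1, 6), 12), ((0, 1, 8), 3), ((0, 1, 10), 16), ((0, 1, 12), 15), ((0, 1, 14), 2), ((0, 2, 4), 63), ((0, 4, 8), 55), ((0, 4, 10), 54), ((1, 2, 4), 48), ((1, 4, 8), 40), ((1, 4, 11), 39)], 1, [[-3, -4, -6], [-3, -6, -4], [-1, -2, -2], [0, 0, 0], [-5, -2, -2], [0, 0, 0], [-1, 0, -2], [-1, -2, 0], [-1, -2, -2], [0, 0, 0], [-1, 0, -2], [-1, -2, 0], [-1, 0, -2], [-1, -2, 0], [-1, -2, -2], [0, 0, 0]]⟩,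
    ⟨[34, 0, 1], [2, 3, 4, 5, 13, 15, 17, 41, 46, 49, 57, 61, 64], (0, 0, 0), [], [((0, 1, 2), 5), ((0, 1, 4), 4), ((0, 1, 6), 17), ((0, 1, 8), 3), ((0, 1, 10), 13), ((0, 1, 12), 15), ((0, 1, 14), 2), ((0, 2, 8), 64), ((0, 4, 8), 61), ((0, 6, 8), 57), ((1, 2, 8), 49), ((1, 4, 8), 46), ((1, 7, 8), 41)], 1, [[-3, -4, -6], [-3, -6, -4], [-1, -2, -2], [0, 0, 0], [-1, -2, -2], [0, 0, 0], [-1, 0, -2], [-1, -2, 0], [-5, -2, -2], [0, 0, 0], [-1, 0, -2], [-1, -2, 0], [-1, 0, -2], [-1, -2, 0], [-1, -2, -2], [0, 0, 0]]⟩,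
    ⟨[35, 0, 1], [2, 3, 4, 5, 14, 16, 17, 44, 47, 50, 60, 62, 65], (0, 0, 0), [], [((0, 1, 2), 5), ((0, 1, 4), 4), ((0, 1, 6), 17), ((0, 1, 8), 3), ((0, 1, 10), 16), ((0, 1, 12), 14), ((0, 1, 14), 2), ((0, 2, 12), 65), ((0, 4, 10), 62), ((0, 6, 8), 60), ((1, 2, 13), 50), ((1, 4, 11), 47), ((1, 7, 8), 44)], 1, [[-3, -4, -6], [-3, -6, -4], [-1, -2, -2], [0, 0, 0], [-1, -2, -2], [0, 0, 0], [-1, 0, -2], [-1, -2, 0], [-1, -2, -2], [0, 0, 0], [-1, 0, -2], [-1, -2, 0], [-1, 0, -2], [-1, -2, 0], [-5, -2, -2], [0, 0, 0]]⟩,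
    ⟨[36, 0, 1], [2, 3, 4, 5, 6, 12, 13, 20, 21, 32, 66, 68, 72], (0, 0, 0), [], [((0, 1, 2), 5), ((0, 1, 4), 4), ((0, 1, 6), 12), ((0, 1, 8), 3), ((0, 1, 10), 13), ((0, 1, 12), 6), ((0, 1, 14), 2), ((0, 2, 4), 72), ((0, 2, 8), 68), ((0, 2, 12), 66), ((0, 4, 8), 32), ((1, 2, 4), 21), ((1, 2, 8), 20)], 1, [[-4, -2, -6], [-2, 0, -4], [-4, 2, -2], [0, 0, 0], [-2, 0, -2], [0, 0, 0], [-1, 0, -2], [-1, 0, 0], [-2, 0, -2], [0, 0, 0], [-1, 0, -2], [-1, 0, 0], [-2, 2, -2], [0, 0, 0], [0, -2, -2], [0, 0, 0]]⟩,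
    ⟨[37, 0, 1], [2, 3, 4, 5, 8, 12, 14, 20, 22, 32, 67, 69, 73], (0, 0, 0), [], [((0, 1, 2), 5), ((0, 1, 4), 4), ((0, 1, 6), 12), ((0, 1, 8), 3), ((0, 1, 10), 8), ((0, 1, 12), 14), ((0, 1, 14), 2), ((0, 2, 4), 73), ((0, 2, 8), 69), ((0, 2, 12), 67), ((0, 4, 10), 32), ((1, 2, 4), 22), ((1, 2, 13), 20)], 1, [[-4, -2, -6], [-2, 0, -4], [-4, 2, -2], [0, 0, 0], [-2, 0, -2], [0, 0, 0], [-1, 0, -2], [-1, 0, 0], [0, -2, -2], [0, 0, 0], [-2, 2, -2], [0, 0, 0], [-1, 0, -2], [-1, 0, 0], [-2, 0, -2], [0, 0, 0]]⟩,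
    ⟨[38, 0, 1], [2, 3, 4, 5, 10, 13, 14, 21, 22, 32, 70, 71, 74], (0, 0, 0), [], [((0, 1, 2), 5), ((0, 1, 4), 4), ((0, 1, 6), 10), ((0, 1, 8), 3), ((0, 1, 10), 13), ((0, 1, 12), 14), ((0, 1, 14), 2), ((0, 2, 4), 74), ((0, 2, 8), 71), ((0, 2, 12), 70), ((0, 6, 8), 32), ((1, 2, 8), 22), ((1, 2, 13), 21)], 1, [[-4, -2, -6], [-2, 0, -4], [-4, 2, -2], [0, 0, 0], [0, -2, -2], [0, 0, 0], [-2, 2, -2], [0, 0, 0], [-2, 0, -2], [0, 0, 0], [-1, 0, -2], [-1, 0, 0], [-1, 0, -2], [-1, 0, 0], [-2, 0, -2], [0, 0, 0]]⟩,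
    ⟨[39, 0, 1], [2, 3, 4, 5, 8, 12, 15, 20, 23, 33, 66, 67, 77], (0, 0, 0), [], [((0, 1, 2), 5), ((0, 1, 4), 4), ((0, 1, 6), 12), ((0, 1, 8), 3), ((0, 1, 10), 8), ((0, 1, 12), 15), ((0, 1, 14), 2), ((0, 2, 4), 77), ((0, 2, 8), 33), ((0, 4, 8), 67), ((0, 4, 10), 66), ((1, 2, 4), 23), ((1, 4, 8), 20)], 1, [[-4, -2, -6], [-2, 0, -4], [-2, 0, -2], [0, 0, 0], [-4, 2, -2], [0, 0, 0], [-1, 0, -2], [-1, 0, 0], [-2, 0, -2], [0, 0, 0], [-2, 2, -2], [0, 0, 0], [-1, 0, -2], [-1, 0, 0], [0, -2, -2], [0, 0, 0]]⟩,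
    ⟨[40, 0, 1], [2, 3, 4, 5, 6, 12, 16, 20, 24, 33, 68, 69, 78], (0, 0, 0), [], [((0, 1, 2), 5), ((0, 1, 4), 4), ((0, 1, 6), 12), ((0, 1, 8), 3), ((0, 1, 10), 16), ((0, 1, 12), 6), ((0, 1, 14), 2), ((0, 2, 4), 78), ((0, 2, 12), 33), ((0, 4, 8), 69), ((0, 4, 10), 68), ((1, 2, 4), 24), ((1, 4, 11), 20)], 1, [[-4, -2, -6], [-2, 0, -4], [-2, 0, -2], [0, 0, 0], [-4, 2, -2], [0, 0, 0], [-1, 0, -2], [-1, 0, 0], [0, -2, -2], [0, 0, 0], [-1, 0, -2], [-1, 0, 0], [-2, 2, -2], [0, 0, 0], [-2, 0, -2], [0, 0, 0]]⟩,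
    ⟨[41, 0, 1], [2, 3, 4, 5, 10, 13, 15, 21, 23, 34, 66, 70, 75], (0, 0, 0), [], [((0, 1, 2), 5), ((0, 1, 4), 4), ((0, 1, 6), 10), ((0, 1, 8), 3), ((0, 1, 10), 13), ((0, 1, 12), 15), ((0, 1, 14), 2), ((0, 2, 4), 34), ((0, 2, 8), 75), ((0, 4, 8), 70), ((0, 6, 8), 66), ((1, 2, 8), 23), ((1, 4, 8), 21)], 1, [[-4, -2, -6], [-2, 0, -4], [-2, 0, -2], [0, 0, 0], [-2, 0, -2], [0, 0, 0], [-2, 2, -2], [0, 0, 0], [-4, 2, -2], [0, 0, 0], [-1, 0, -2], [-1, 0, 0], [-1, 0, -2], [-1, 0, 0], [0, -2, -2], [0, 0, 0]]⟩,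
    ⟨[42, 0, 1], [2, 3, 4, 5, 7, 8, 10, 22, 23, 67, 70, 76, 79], (0, 0, 0), [], [((0, 1, 2), 5), ((0, 1, 4), 4), ((0, 1, 6), 10), ((0, 1, 8), 3), ((0, 1, 10), 8), ((0, 1, 12), 7), ((0, 1, 14), 2), ((0, 2, 4), 79), ((0, 2, 8), 76), ((0, 4, 10), 70), ((0, 6, 8), 67), ((1, 2, 13), 23), ((1, 4, 8), 22)], 1, [[-4, 0, -4], [-2, 2, -2], [-2, 0, -2], [0, 0, 0], [-2, 0, -2], [0, 0, 0], [-2, 2, -2], [0, 0, 0], [-2, 0, -2], [0, 0, 0], [-2, 2, -2], [0, 0, 0], [0, 0, 0], [-2, 2, 2], [-2, 0, -2], [0, 0, 0]]⟩,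
    ⟨[43, 0, 1], [2, 3, 4, 5, 6, 9, 10, 21, 24, 68, 71, 75, 80], (0, 0, 0), [], [((0, 1, 2), 5), ((0, 1, 4), 4), ((0, 1, 6), 10), ((0, 1, 8), 3), ((0, 1, 10), 9), ((0, 1, 12), 6), ((0, 1, 14), 2), ((0, 2, 4), 80), ((0, 2, 12), 75), ((0, 4, 8), 71), ((0, 6, 8), 68), ((1, 2, 8), 24), ((1, 4, 11), 21)], 1, [[-4, 0, -4], [-2, 2, -2], [-2, 0, -2], [0, 0, 0], [-2, 0, -2], [0, 0, 0], [-2, 2, -2], [0, 0, 0], [-2, 0, -2], [0, 0, 0], [0, 0, 0], [-2, 2, 2], [-2, 2, -2], [0, 0, 0], [-2, 0, -2], [0, 0, 0]]⟩,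
    ⟨[44, 0, 1], [2, 3, 4, 5, 10, 14, 16, 22, 24, 35, 69, 71, 76], (0, 0, 0), [], [((0, 1, 2), 5), ((0, 1, 4), 4), ((0, 1, 6), 10), ((0, 1, 8), 3), ((0, 1, 10), 16), ((0, 1, 12), 14), ((0, 1, 14), 2), ((0, 2, 4), 35), ((0, 2, 12), 76), ((0, 4, 10), 71), ((0, 6, 8), 69), ((1, 2, 13), 24), ((1, 4, 11), 22)], 1, [[-4, -2, -6], [-2, 0, -4], [-2, 0, -2], [0, 0, 0], [-2, 0, -2], [0, 0, 0], [-2, 2, -2], [0, 0, 0], [0, -2, -2], [0, 0, 0], [-1, 0, -2], [-1, 0, 0], [-1, 0, -2], [-1, 0, 0], [-4, 2, -2], [0, 0, 0]]⟩,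
    ⟨[45, 0, 1], [2, 3, 4, 5, 6, 8, 11, 20, 25, 72, 73, 77, 78], (0, 0, 0), [], [((0, 1, 2), 5), ((0, 1, 4), 4), ((0, 1, 6), 11), ((0, 1, 8), 3), ((0, 1, 10), 8), ((0, 1, 12), 6), ((0, 1, 14), 2), ((0, 2, 8), 78), ((0, 2, 12), 77), ((0, 4, 8), 73), ((0, 4, 10), 72), ((1, 2, 4), 25), ((1, 7, 8), 20)], 1, [[-4, 0, -4], [-2, 2, -2], [-2, 0, -2], [0, 0, 0], [-2, 0, -2], [0, 0, 0], [0, 0, 0], [-2, 2, 2], [-2, 0, -2], [0, 0, 0], [-2, 2, -2], [0, 0, 0], [-2, 2, -2], [0, 0, 0], [-2, 0, -2], [0, 0, 0]]⟩,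
    ⟨[46, 0, 1], [2, 3, 4, 5, 6, 13, 17, 21, 25, 34, 72, 74, 80], (0, 0, 0), [], [((0, 1, 2), 5), ((0, 1, 4), 4), ((0, 1, 6), 17), ((0, 1, 8), 3), ((0, 1, 10), 13), ((0, 1, 12), 6), ((0, 1, 14), 2), ((0, 2, 8), 80), ((0, 2, 12), 34), ((0, 4, 8), 74), ((0, 6, 8), 72), ((1, 2, 8), 25), ((1, 7, 8), 21)], 1, [[-4, -2, -6], [-2, 0, -4], [-2, 0, -2], [0, 0, 0], [0, -2, -2], [0, 0, 0], [-1, 0, -2], [-1, 0, 0], [-4, 2, -2], [0, 0, 0], [-1, 0, -2], [-1, 0, 0], [-2, 2, -2], [0, 0, 0], [-2, 0, -2], [0, 0, 0]]⟩,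
    ⟨[47, 0, 1], [2, 3, 4, 5, 8, 14, 17, 22, 25, 35, 73, 74, 79], (0, 0, 0), [], [((0, 1, 2), 5), ((0, 1, 4), 4), ((0, 1, 6), 17), ((0, 1, 8), 3), ((0, 1, 10), 8), ((0, 1, 12), 14), ((0, 1, 14), 2), ((0, 2, 8), 35), ((0, 2, 12), 79), ((0, 4, 10), 74), ((0, 6, 8), 73), ((1, 2, 13), 25), ((1, 7, 8), 22)], 1, [[-4, -2, -6], [-2, 0, -4], [-2, 0, -2], [0, 0, 0], [0, -2, -2], [0, 0, 0], [-1, 0, -2], [-1, 0, 0], [-2, 0, -2], [0, 0, 0], [-2, 2, -2], [0, 0, 0], [-1, 0, -2], [-1, 0, 0], [-4, 2, -2], [0, 0, 0]]⟩,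
    ⟨[48, 0, 1], [2, 3, 4, 5, 10, 15, 16, 23, 24, 33, 75, 76, 81], (0, 0, 0), [], [((0, 1, 2), 5), ((0, 1, 4), 4), ((0, 1, 6), 10), ((0, 1, 8), 3), ((0, 1, 10), 16), ((0, 1, 12), 15), ((0, 1, 14), 2), ((0, 2, 4), 81), ((0, 4, 8), 76), ((0, 4, 10), 75), ((0, 6, 8), 33), ((1, 4, 8), 24), ((1, 4, 11), 23)], 1, [[-4, -2, -6], [-2, 0, -4], [0, -2, -2], [0, 0, 0], [-4, 2, -2], [0, 0, 0], [-2, 2, -2], [0, 0, 0], [-2, 0, -2], [0, 0, 0], [-1, 0, -2], [-1, 0, 0], [-1, 0, -2], [-1, 0, 0], [-2, 0, -2], [0, 0, 0]]⟩,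
    ⟨[49, 0, 1], [2, 3, 4, 5, 8, 15, 17, 23, 25, 34, 77, 79, 81], (0, 0, 0), [], [((0, 1, 2), 5), ((0, 1, 4), 4), ((0, 1, 6), 17), ((0, 1, 8), 3), ((0, 1, 10), 8), ((0, 1, 12), 15), ((0, 1, 14), 2), ((0, 2, 8), 81), ((0, 4, 8), 79), ((0, 4, 10), 34), ((0, 6, 8), 77), ((1, 4, 8), 25), ((1, 7, 8), 23)], 1, [[-4, -2, -6], [-2, 0, -4], [0, -2, -2], [0, 0, 0], [-2, 0, -2], [0, 0, 0], [-1, 0, -2], [-1, 0, 0], [-4, 2, -2], [0, 0, 0], [-2, 2, -2], [0, 0, 0], [-1, 0, -2], [-1, 0, 0], [-2, 0, -2], [0, 0, 0]]⟩,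
    ⟨[50, 0, 1], [2, 3, 4, 5, 6, 16, 17, 24, 25, 35, 78, 80, 81], (0, 0, 0), [], [((0, 1, 2), 5), ((0, 1, 4), 4), ((0, 1, 6), 17), ((0, 1, 8), 3), ((0, 1, 10), 16), ((0, 1, 12), 6), ((0, 1, 14), 2), ((0, 2, 12), 81), ((0, 4, 8), 35), ((0, 4, 10), 80), ((0, 6, 8), 78), ((1, 4, 11), 25), ((1, 7, 8), 24)], 1, [[-4, -2, -6], [-2, 0, -4], [0, -2, -2], [0, 0, 0], [-2, 0, -2], [0, 0, 0], [-1, 0, -2], [-1, 0, 0], [-2, 0, -2], [0, 0, 0], [-1, 0, -2], [-1, 0, 0], [-2, 2, -2], [0, 0, 0], [-4, 2, -2], [0, 0, 0]]⟩,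
    ⟨[51, 0, 1], [2, 3, 4, 5, 7, 12, 13, 26, 27, 32, 66, 67, 70], (0, 0, 0), [], [((0, 1, 2), 5), ((0, 1, 4), 4), ((0, 1, 6), 12), ((0, 1, 8), 3), ((0, 1, 10), 13), ((0, 1, 12), 7), ((0, 1, 14), 2), ((0, 2, 4), 27), ((0, 2, 8), 26), ((1, 2, 4), 70), ((1, 2, 8), 67), ((1, 2, 13), 66), ((1, 4, 8), 32)], 1, [[-2, -4, 0], [-4, -6, -2], [-4, -2, 2], [0, 0, 0], [-2, -2, 0], [0, 0, 0], [-1, 0, 0], [-1, -2, 0], [-2, -2, 0], [0, 0, 0], [-1, 0, 0], [-1, -2, 0], [0, 0, 0], [-2, -2, 2], [0, -2, -2], [0, 0, 0]]⟩,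
    ⟨[52, 0, 1], [2, 3, 4, 5, 9, 12, 14, 26, 28, 32, 68, 69, 71], (0, 0, 0), [], [((0, 1, 2), 5), ((0, 1, 4), 4), ((0, 1, 6), 12), ((0, 1, 8), 3), ((0, 1, 10), 9), ((0, 1, 12), 14), ((0, 1, 14), 2), ((0, 2, 4), 28), ((0, 2, 12), 26), ((1, 2, 4), 71), ((1, 2, 8), 69), ((1, 2, 13), 68), ((1, 4, 11), 32)], 1, [[-2, -4, 0], [-4, -6, -2], [-4, -2, 2], [0, 0, 0], [-2, -2, 0], [0, 0, 0], [-1, 0, 0], [-1, -2, 0], [0, -2, -2], [0, 0, 0], [0, 0, 0], [-2, -2, 2], [-1, 0, 0], [-1, -2, 0], [-2, -2, 0], [0, 0, 0]]⟩,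
    ⟨[53, 0, 1], [2, 3, 4, 5, 11, 13, 14, 27, 28, 32, 72, 73, 74], (0, 0, 0), [], [((0, 1, 2), 5), ((0, 1, 4), 4), ((0, 1, 6), 11), ((0, 1, 8), 3), ((0, 1, 10), 13), ((0, 1, 12), 14), ((0, 1, 14), 2), ((0, 2, 8), 28), ((0, 2, 12), 27), ((1, 2, 4), 74), ((1, 2, 8), 73), ((1, 2, 13), 72), ((1, 7, 8), 32)], 1, [[-2, -4, 0], [-4, -6, -2], [-4, -2, 2], [0, 0, 0], [0, -2, -2], [0, 0, 0], [0, 0, 0], [-2, -2, 2], [-2, -2, 0], [0, 0, 0], [-1, 0, 0], [-1, -2, 0], [-1, 0, 0], [-1, -2, 0], [-2, -2, 0], [0, 0, 0]]⟩,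
    ⟨[54, 0, 1], [2, 3, 4, 5, 9, 12, 15, 26, 29, 33, 66, 68, 75], (0, 0, 0), [], [((0, 1, 2), 5), ((0, 1, 4), 4), ((0, 1, 6), 12), ((0, 1, 8), 3), ((0, 1, 10), 9), ((0, 1, 12), 15), ((0, 1, 14), 2), ((0, 2, 4), 29), ((0, 4, 8), 26), ((1, 2, 4), 75), ((1, 2, 8), 33), ((1, 4, 8), 68), ((1, 4, 11), 66)], 1, [[-2, -4, 0], [-4, -6, -2], [-2, -2, 0], [0, 0, 0], [-4, -2, 2], [0, 0, 0], [-1, 0, 0], [-1, -2, 0], [-2, -2, 0], [0, 0, 0], [0, 0, 0], [-2, -2, 2], [-1, 0, 0], [-1, -2, 0], [0, -2, -2], [0, 0, 0]]⟩,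
    ⟨[55, 0, 1], [2, 3, 4, 5, 7, 12, 16, 26, 30, 33, 67, 69, 76], (0, 0, 0), [], [((0, 1, 2), 5), ((0, 1, 4), 4), ((0, 1, 6), 12), ((0, 1, 8), 3), ((0, 1, 10), 16), ((0, 1, 12), 7), ((0, 1, 14), 2), ((0, 2, 4), 30), ((0, 4, 10), 26), ((1, 2, 4), 76), ((1, 2, 13), 33), ((1, 4, 8), 69), ((1, 4, 11), 67)], 1, [[-2, -4, 0], [-4, -6, -2], [-2, -2, 0], [0, 0, 0], [-4, -2, 2], [0, 0, 0], [-1, 0, 0], [-1, -2, 0], [0, -2, -2], [0, 0, 0], [-1, 0, 0], [-1, -2, 0], [0, 0, 0], [-2, -2, 2], [-2, -2, 0], [0, 0, 0]]⟩,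
    ⟨[56, 0, 1], [2, 3, 4, 5, 7, 9, 10, 26, 31, 70, 71, 75, 76], (0, 0, 0), [], [((0, 1, 2), 5), ((0, 1, 4), 4), ((0, 1, 6), 10), ((0, 1, 8), 3), ((0, 1, 10), 9), ((0, 1, 12), 7), ((0, 1, 14), 2), ((0, 2, 4), 31), ((0, 6, 8), 26), ((1, 2, 8), 76), ((1, 2, 13), 75), ((1, 4, 8), 71), ((1, 4, 11), 70)], 1, [[-2, -2, 2], [-4, -4, 0], [-2, -2, 0], [0, 0, 0], [-2, -2, 0], [0, 0, 0], [-2, 2, 2], [0, 0, 0], [-2, -2, 0], [0, 0, 0], [0, 0, 0], [-2, -2, 2], [0, 0, 0], [-2, -2, 2], [-2, -2, 0], [0, 0, 0]]⟩,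
    ⟨[57, 0, 1], [2, 3, 4, 5, 11, 13, 15, 27, 29, 34, 66, 72, 77], (0, 0, 0), [], [((0, 1, 2), 5), ((0, 1, 4), 4), ((0, 1, 6), 11), ((0, 1, 8), 3), ((0, 1, 10), 13), ((0, 1, 12), 15), ((0, 1, 14), 2), ((0, 2, 8), 29), ((0, 4, 8), 27), ((1, 2, 4), 34), ((1, 2, 8), 77), ((1, 4, 8), 72), ((1, 7, 8), 66)], 1, [[-2, -4, 0], [-4, -6, -2], [-2, -2, 0], [0, 0, 0], [-2, -2, 0], [0, 0, 0], [0, 0, 0], [-2, -2, 2], [-4, -2, 2], [0, 0, 0], [-1, 0, 0], [-1, -2, 0], [-1, 0, 0], [-1, -2, 0], [0, -2, -2], [0, 0, 0]]⟩]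

def tab8_1 : List Nd :=
  [⟨[58, 0, 1], [2, 3, 4, 5, 7, 8, 11, 27, 30, 67, 73, 77, 79], (0, 0, 0), [], [((0, 1, 2), 5), ((0, 1, 4), 4), ((0, 1, 6), 11), ((0, 1, 8), 3), ((0, 1, 10), 8), ((0, 1, 12), 7), ((0, 1, 14), 2), ((0, 2, 8), 30), ((0, 4, 10), 27), ((1, 2, 4), 79), ((1, 2, 13), 77), ((1, 4, 8), 73), ((1, 7, 8), 67)], 1, [[-2, -2, 2], [-4, -4, 0], [-2, -2, 0], [0, 0, 0], [-2, -2, 0], [0, 0, 0], [0, 0, 0], [-2, -2, 2], [-2, -2, 0], [0, 0, 0], [-2, 2, 2], [0, 0, 0], [0, 0, 0], [-2, -2, 2], [-2, -2, 0], [0, 0, 0]]⟩,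
    ⟨[59, 0, 1], [2, 3, 4, 5, 6, 9, 11, 28, 29, 68, 72, 78, 80], (0, 0, 0), [], [((0, 1, 2), 5), ((0, 1, 4), 4), ((0, 1, 6), 11), ((0, 1, 8), 3), ((0, 1, 10), 9), ((0, 1, 12), 6), ((0, 1, 14), 2), ((0, 2, 12), 29), ((0, 4, 8), 28), ((1, 2, 4), 80), ((1, 2, 8), 78), ((1, 4, 11), 72), ((1, 7, 8), 68)], 1, [[-2, -2, 2], [-4, -4, 0], [-2, -2, 0], [0, 0, 0], [-2, -2, 0], [0, 0, 0], [0, 0, 0], [-2, -2, 2], [-2, -2, 0], [0, 0, 0], [0, 0, 0], [-2, -2, 2], [-2, 2, 2], [0, 0, 0], [-2, -2, 0], [0, 0, 0]]⟩,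
    ⟨[60, 0, 1], [2, 3, 4, 5, 11, 14, 16, 28, 30, 35, 69, 73, 78], (0, 0, 0), [], [((0, 1, 2), 5), ((0, 1, 4), 4), ((0, 1, 6), 11), ((0, 1, 8), 3), ((0, 1, 10), 16), ((0, 1, 12), 14), ((0, 1, 14), 2), ((0, 2, 12), 30), ((0, 4, 10), 28), ((1, 2, 4), 35), ((1, 2, 13), 78), ((1, 4, 11), 73), ((1, 7, 8), 69)], 1, [[-2, -4, 0], [-4, -6, -2], [-2, -2, 0], [0, 0, 0], [-2, -2, 0], [0, 0, 0], [0, 0, 0], [-2, -2, 2], [0, -2, -2], [0, 0, 0], [-1, 0, 0], [-1, -2, 0], [-1, 0, 0], [-1, -2, 0], [-4, -2, 2], [0, 0, 0]]⟩,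
    ⟨[61, 0, 1], [2, 3, 4, 5, 7, 13, 17, 27, 31, 34, 70, 74, 79], (0, 0, 0), [], [((0, 1, 2), 5), ((0, 1, 4), 4), ((0, 1, 6), 17), ((0, 1, 8), 3), ((0, 1, 10), 13), ((0, 1, 12), 7), ((0, 1, 14), 2), ((0, 2, 8), 31), ((0, 6, 8), 27), ((1, 2, 8), 79), ((1, 2, 13), 34), ((1, 4, 8), 74), ((1, 7, 8), 70)], 1, [[-2, -4, 0], [-4, -6, -2], [-2, -2, 0], [0, 0, 0], [0, -2, -2], [0, 0, 0], [-1, 0, 0], [-1, -2, 0], [-4, -2, 2], [0, 0, 0], [-1, 0, 0], [-1, -2, 0], [0, 0, 0], [-2, -2, 2], [-2, -2, 0], [0, 0, 0]]⟩,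
    ⟨[62, 0, 1], [2, 3, 4, 5, 9, 14, 17, 28, 31, 35, 71, 74, 80], (0, 0, 0), [], [((0, 1, 2), 5), ((0, 1, 4), 4), ((0, 1, 6), 17), ((0, 1, 8), 3), ((0, 1, 10), 9), ((0, 1, 12), 14), ((0, 1, 14), 2), ((0, 2, 12), 31), ((0, 6, 8), 28), ((1, 2, 8), 35), ((1, 2, 13), 80), ((1, 4, 11), 74), ((1, 7, 8), 71)], 1, [[-2, -4, 0], [-4, -6, -2], [-2, -2, 0], [0, 0, 0], [0, -2, -2], [0, 0, 0], [-1, 0, 0], [-1, -2, 0], [-2, -2, 0], [0, 0, 0], [0, 0, 0], [-2, -2, 2], [-1, 0, 0], [-1, -2, 0], [-4, -2, 2], [0, 0, 0]]⟩,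
    ⟨[63, 0, 1], [2, 3, 4, 5, 11, 15, 16, 29, 30, 33, 77, 78, 81], (0, 0, 0), [], [((0, 1, 2), 5), ((0, 1, 4), 4), ((0, 1, 6), 11), ((0, 1, 8), 3), ((0, 1, 10), 16), ((0, 1, 12), 15), ((0, 1, 14), 2), ((0, 4, 8), 30), ((0, 4, 10), 29), ((1, 2, 4), 81), ((1, 4, 8), 78), ((1, 4, 11), 77), ((1, 7, 8), 33)], 1, [[-2, -4, 0], [-4, -6, -2], [0, -2, -2], [0, 0, 0], [-4, -2, 2], [0, 0, 0], [0, 0, 0], [-2, -2, 2], [-2, -2, 0], [0, 0, 0], [-1, 0, 0], [-1, -2, 0], [-1, 0, 0], [-1, -2, 0], [-2, -2, 0], [0, 0, 0]]⟩,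
    ⟨[64, 0, 1], [2, 3, 4, 5, 9, 15, 17, 29, 31, 34, 75, 80, 81], (0, 0, 0), [], [((0, 1, 2), 5), ((0, 1, 4), 4), ((0, 1, 6), 17), ((0, 1, 8), 3), ((0, 1, 10), 9), ((0, 1, 12), 15), ((0, 1, 14), 2), ((0, 4, 8), 31), ((0, 6, 8), 29), ((1, 2, 8), 81), ((1, 4, 8), 80), ((1, 4, 11), 34), ((1, 7, 8), 75)], 1, [[-2, -4, 0], [-4, -6, -2], [0, -2, -2], [0, 0, 0], [-2, -2, 0], [0, 0, 0], [-1, 0, 0], [-1, -2, 0], [-4, -2, 2], [0, 0, 0], [0, 0, 0], [-2, -2, 2], [-1, 0, 0], [-1, -2, 0], [-2, -2, 0], [0, 0, 0]]⟩,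
    ⟨[65, 0, 1], [2, 3, 4, 5, 7, 16, 17, 30, 31, 35, 76, 79, 81], (0, 0, 0), [], [((0, 1, 2), 5), ((0, 1, 4), 4), ((0, 1, 6), 17), ((0, 1, 8), 3), ((0, 1, 10), 16), ((0, 1, 12), 7), ((0, 1, 14), 2), ((0, 4, 10), 31), ((0, 6, 8), 30), ((1, 2, 13), 81), ((1, 4, 8), 35), ((1, 4, 11), 79), ((1, 7, 8), 76)], 1, [[-2, -4, 0], [-4, -6, -2], [0, -2, -2], [0, 0, 0], [-2, -2, 0], [0, 0, 0], [-1, 0, 0], [-1, -2, 0], [-2, -2, 0], [0, 0, 0], [-1, 0, 0], [-1, -2, 0], [0, 0, 0], [-2, -2, 2], [-4, -2, 2], [0, 0, 0]]⟩,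
    ⟨[66, 0, 1], [2, 3, 4, 5, 12, 13, 15, 36, 39, 41, 51, 54, 57], (0, 0, 0), [], [((0, 1, 2), 5), ((0, 1, 4), 4), ((0, 1, 6), 12), ((0, 1, 8), 3), ((0, 1, 10), 13), ((0, 1, 12), 15), ((0, 1, 14), 2), ((0, 2, 4), 57), ((0, 2, 8), 54), ((0, 4, 8), 51), ((1, 2, 4), 41), ((1, 2, 8), 39), ((1, 4, 8), 36)], 1, [[-3, -4, -6], [-3, -6, -4], [-3, -2, -2], [0, 0, 0], [-3, -2, -2], [0, 0, 0], [-1, 0, -2], [-1, -2, 0], [-3, -2, -2], [0, 0, 0], [-1, 0, -2], [-1, -2, 0], [-1, 0, -2], [-1, -2, 0], [1, -2, -2], [0, 0, 0]]⟩,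
    ⟨[67, 0, 1], [2, 3, 4, 5, 7, 8, 12, 37, 39, 42, 51, 55, 58], (0, 0, 0), [], [((0, 1, 2), 5), ((0, 1, 4), 4), ((0, 1, 6), 12), ((0, 1, 8), 3), ((0, 1, 10), 8), ((0, 1, 12), 7), ((0, 1, 14), 2), ((0, 2, 4), 58), ((0, 2, 8), 55), ((0, 4, 10), 51), ((1, 2, 4), 42), ((1, 2, 13), 39), ((1, 4, 8), 37)], 1, [[-3, -2, -4], [-3, -4, -2], [-3, -2, -2], [0, 0, 0], [-3, -2, -2], [0, 0, 0], [-1, 0, -2], [-1, -2, 0], [-1, -2, -2], [0, 0, 0], [-2, 2, -2], [0, 0, 0], [0, 0, 0], [-2, -2, 2], [-1, -2, -2], [0, 0, 0]]⟩,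
    ⟨[68, 0, 1], [2, 3, 4, 5, 6, 9, 12, 36, 40, 43, 52, 54, 59], (0, 0, 0), [], [((0, 1, 2), 5), ((0, 1, 4), 4), ((0, 1, 6), 12), ((0, 1, 8), 3), ((0, 1, 10), 9), ((0, 1, 12), 6), ((0, 1, 14), 2), ((0, 2, 4), 59), ((0, 2, 12), 54), ((0, 4, 8), 52), ((1, 2, 4), 43), ((1, 2, 8), 40), ((1, 4, 11), 36)], 1, [[-3, -2, -4], [-3, -4, -2], [-3, -2, -2], [0, 0, 0], [-3, -2, -2], [0, 0, 0], [-1, 0, -2], [-1, -2, 0], [-1, -2, -2], [0, 0, 0], [0, 0, 0], [-2, -2, 2], [-2, 2, -2], [0, 0, 0], [-1, -2, -2], [0, 0, 0]]⟩,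
    ⟨[69, 0, 1], [2, 3, 4, 5, 12, 14, 16, 37, 40, 44, 52, 55, 60], (0, 0, 0), [], [((0, 1, 2), 5), ((0, 1, 4), 4), ((0, 1, 6), 12), ((0, 1, 8), 3), ((0, 1, 10), 16), ((0, 1, 12), 14), ((0, 1, 14), 2), ((0, 2, 4), 60), ((0, 2, 12), 55), ((0, 4, 10), 52), ((1, 2, 4), 44), ((1, 2, 13), 40), ((1, 4, 11), 37)], 1, [[-3, -4, -6], [-3, -6, -4], [-3, -2, -2], [0, 0, 0], [-3, -2, -2], [0, 0, 0], [-1, 0, -2], [-1, -2, 0], [1, -2, -2], [0, 0, 0], [-1, 0, -2], [-1, -2, 0], [-1, 0, -2], [-1, -2, 0], [-3, -2, -2], [0, 0, 0]]⟩,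
    ⟨[70, 0, 1], [2, 3, 4, 5, 7, 10, 13, 38, 41, 42, 51, 56, 61], (0, 0, 0), [], [((0, 1, 2), 5), ((0, 1, 4), 4), ((0, 1, 6), 10), ((0, 1, 8), 3), ((0, 1, 10), 13), ((0, 1, 12), 7), ((0, 1, 14), 2), ((0, 2, 4), 61), ((0, 2, 8), 56), ((0, 6, 8), 51), ((1, 2, 8), 42), ((1, 2, 13), 41), ((1, 4, 8), 38)], 1, [[-3, -2, -4], [-3, -4, -2], [-3, -2, -2], [0, 0, 0], [-1, -2, -2], [0, 0, 0], [-2, 2, -2], [0, 0, 0], [-3, -2, -2], [0, 0, 0], [-1, 0, -2], [-1, -2, 0], [0, 0, 0], [-2, -2, 2], [-1, -2, -2], [0, 0, 0]]⟩,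
    ⟨[71, 0, 1], [2, 3, 4, 5, 9, 10, 14, 38, 43, 44, 52, 56, 62], (0, 0, 0), [], [((0, 1, 2), 5), ((0, 1, 4), 4), ((0, 1, 6), 10), ((0, 1, 8), 3), ((0, 1, 10), 9), ((0, 1, 12), 14), ((0, 1, 14), 2), ((0, 2, 4), 62), ((0, 2, 12), 56), ((0, 6, 8), 52), ((1, 2, 8), 44), ((1, 2, 13), 43), ((1, 4, 11), 38)], 1, [[-3, -2, -4], [-3, -4, -2], [-3, -2, -2], [0, 0, 0], [-1, -2, -2], [0, 0, 0], [-2, 2, -2], [0, 0, 0], [-1, -2, -2], [0, 0, 0], [0, 0, 0], [-2, -2, 2], [-1, 0, -2], [-1, -2, 0], [-3, -2, -2], [0, 0, 0]]⟩,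
    ⟨[72, 0, 1], [2, 3, 4, 5, 6, 11, 13, 36, 45, 46, 53, 57, 59], (0, 0, 0), [], [((0, 1, 2), 5), ((0, 1, 4), 4), ((0, 1, 6), 11), ((0, 1, 8), 3), ((0, 1, 10), 13), ((0, 1, 12), 6), ((0, 1, 14), 2), ((0, 2, 8), 59), ((0, 2, 12), 57), ((0, 4, 8), 53), ((1, 2, 4), 46), ((1, 2, 8), 45), ((1, 7, 8), 36)], 1, [[-3, -2, -4], [-3, -4, -2], [-3, -2, -2], [0, 0, 0], [-1, -2, -2], [0, 0, 0], [0, 0, 0], [-2, -2, 2], [-3, -2, -2], [0, 0, 0], [-1, 0, -2], [-1, -2, 0], [-2, 2, -2], [0, 0, 0], [-1, -2, -2], [0, 0, 0]]⟩,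
    ⟨[73, 0, 1], [2, 3, 4, 5, 8, 11, 14, 37, 45, 47, 53, 58, 60], (0, 0, 0), [], [((0, 1, 2), 5), ((0, 1, 4), 4), ((0, 1, 6), 11), ((0, 1, 8), 3), ((0, 1, 10), 8), ((0, 1, 12), 14), ((0, 1, 14), 2), ((0, 2, 8), 60), ((0, 2, 12), 58), ((0, 4, 10), 53), ((1, 2, 4), 47), ((1, 2, 13), 45), ((1, 7, 8), 37)], 1, [[-3, -2, -4], [-3, -4, -2], [-3, -2, -2], [0, 0, 0], [-1, -2, -2], [0, 0, 0], [0, 0, 0], [-2, -2, 2], [-1, -2, -2], [0, 0, 0], [-2, 2, -2], [0, 0, 0], [-1, 0, -2], [-1, -2, 0], [-3, -2, -2], [0, 0, 0]]⟩,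
    ⟨[74, 0, 1], [2, 3, 4, 5, 13, 14, 17, 38, 46, 47, 53, 61, 62], (0, 0, 0), [], [((0, 1, 2), 5), ((0, 1, 4), 4), ((0, 1, 6), 17), ((0, 1, 8), 3), ((0, 1, 10), 13), ((0, 1, 12), 14), ((0, 1, 14), 2), ((0, 2, 8), 62), ((0, 2, 12), 61), ((0, 6, 8), 53), ((1, 2, 8), 47), ((1, 2, 13), 46), ((1, 7, 8), 38)], 1, [[-3, -4, -6], [-3, -6, -4], [-3, -2, -2], [0, 0, 0], [1, -2, -2], [0, 0, 0], [-1, 0, -2], [-1, -2, 0], [-3, -2, -2], [0, 0, 0], [-1, 0, -2], [-1, -2, 0], [-1, 0, -2], [-1, -2, 0], [-3, -2, -2], [0, 0, 0]]⟩,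
    ⟨[75, 0, 1], [2, 3, 4, 5, 9, 10, 15, 41, 43, 48, 54, 56, 64], (0, 0, 0), [], [((0, 1, 2), 5), ((0, 1, 4), 4), ((0, 1, 6), 10), ((0, 1, 8), 3), ((0, 1, 10), 9), ((0, 1, 12), 15), ((0, 1, 14), 2), ((0, 2, 4), 64), ((0, 4, 8), 56), ((0, 6, 8), 54), ((1, 2, 8), 48), ((1, 4, 8), 43), ((1, 4, 11), 41)], 1, [[-3, -2, -4], [-3, -4, -2], [-1, -2, -2], [0, 0, 0], [-3, -2, -2], [0, 0, 0], [-2, 2, -2], [0, 0, 0], [-3, -2, -2], [0, 0, 0], [0, 0, 0], [-2, -2, 2], [-1, 0, -2], [-1, -2, 0], [-1, -2, -2], [0, 0, 0]]⟩,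
    ⟨[76, 0, 1], [2, 3, 4, 5, 7, 10, 16, 42, 44, 48, 55, 56, 65], (0, 0, 0), [], [((0, 1, 2), 5), ((0, 1, 4), 4), ((0, 1, 6), 10), ((0, 1, 8), 3), ((0, 1, 10), 16), ((0, 1, 12), 7), ((0, 1, 14), 2), ((0, 2, 4), 65), ((0, 4, 10), 56), ((0, 6, 8), 55), ((1, 2, 13), 48), ((1, 4, 8), 44), ((1, 4, 11), 42)], 1, [[-3, -2, -4], [-3, -4, -2], [-1, -2, -2], [0, 0, 0], [-3, -2, -2], [0, 0, 0], [-2, 2, -2], [0, 0, 0], [-1, -2, -2], [0, 0, 0], [-1, 0, -2], [-1, -2, 0], [0, 0, 0], [-2, -2, 2], [-3, -2, -2], [0, 0, 0]]⟩,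
    ⟨[77, 0, 1], [2, 3, 4, 5, 8, 11, 15, 39, 45, 49, 57, 58, 63], (0, 0, 0), [], [((0, 1, 2), 5), ((0, 1, 4), 4), ((0, 1, 6), 11), ((0, 1, 8), 3), ((0, 1, 10), 8), ((0, 1, 12), 15), ((0, 1, 14), 2), ((0, 2, 8), 63), ((0, 4, 8), 58), ((0, 4, 10), 57), ((1, 2, 4), 49), ((1, 4, 8), 45), ((1, 7, 8), 39)], 1, [[-3, -2, -4], [-3, -4, -2], [-1, -2, -2], [0, 0, 0], [-3, -2, -2], [0, 0, 0], [0, 0, 0], [-2, -2, 2], [-3, -2, -2], [0, 0, 0], [-2, 2, -2], [0, 0, 0], [-1, 0, -2], [-1, -2, 0], [-1, -2, -2], [0, 0, 0]]⟩,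
    ⟨[78, 0, 1], [2, 3, 4, 5, 6, 11, 16, 40, 45, 50, 59, 60, 63], (0, 0, 0), [], [((0, 1, 2), 5), ((0, 1, 4), 4), ((0, 1, 6), 11), ((0, 1, 8), 3), ((0, 1, 10), 16), ((0, 1, 12), 6), ((0, 1, 14), 2), ((0, 2, 12), 63), ((0, 4, 8), 60), ((0, 4, 10), 59), ((1, 2, 4), 50), ((1, 4, 11), 45), ((1, 7, 8), 40)], 1, [[-3, -2, -4], [-3, -4, -2], [-1, -2, -2], [0, 0, 0], [-3, -2, -2], [0, 0, 0], [0, 0, 0], [-2, -2, 2], [-1, -2, -2], [0, 0, 0], [-1, 0, -2], [-1, -2, 0], [-2, 2, -2], [0, 0, 0], [-3, -2, -2], [0, 0, 0]]⟩,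
    ⟨[79, 0, 1], [2, 3, 4, 5, 7, 8, 17, 42, 47, 49, 58, 61, 65], (0, 0, 0), [], [((0, 1, 2), 5), ((0, 1, 4), 4), ((0, 1, 6), 17), ((0, 1, 8), 3), ((0, 1, 10), 8), ((0, 1, 12), 7), ((0, 1, 14), 2), ((0, 2, 8), 65), ((0, 4, 10), 61), ((0, 6, 8), 58), ((1, 2, 13), 49), ((1, 4, 8), 47), ((1, 7, 8), 42)], 1, [[-3, -2, -4], [-3, -4, -2], [-1, -2, -2], [0, 0, 0], [-1, -2, -2], [0, 0, 0], [-1, 0, -2], [-1, -2, 0], [-3, -2, -2], [0, 0, 0], [-2, 2, -2], [0, 0, 0], [0, 0, 0], [-2, -2, 2], [-3, -2, -2], [0, 0, 0]]⟩,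
    ⟨[80, 0, 1], [2, 3, 4, 5, 6, 9, 17, 43, 46, 50, 59, 62, 64], (0, 0, 0), [], [((0, 1, 2), 5), ((0, 1, 4), 4), ((0, 1, 6), 17), ((0, 1, 8), 3), ((0, 1, 10), 9), ((0, 1, 12), 6), ((0, 1, 14), 2), ((0, 2, 12), 64), ((0, 4, 8), 62), ((0, 6, 8), 59), ((1, 2, 8), 50), ((1, 4, 11), 46), ((1, 7, 8), 43)], 1, [[-3, -2, -4], [-3, -4, -2], [-1, -2, -2], [0, 0, 0], [-1, -2, -2], [0, 0, 0], [-1, 0, -2], [-1, -2, 0], [-3, -2, -2], [0, 0, 0], [0, 0, 0], [-2, -2, 2], [-2, 2, -2], [0, 0, 0], [-3, -2, -2], [0, 0, 0]]⟩,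
    ⟨[81, 0, 1], [2, 3, 4, 5, 15, 16, 17, 48, 49, 50, 63, 64, 65], (0, 0, 0), [], [((0, 1, 2), 5), ((0, 1, 4), 4), ((0, 1, 6), 17), ((0, 1, 8), 3), ((0, 1, 10), 16), ((0, 1, 12), 15), ((0, 1, 14), 2), ((0, 4, 8), 65), ((0, 4, 10), 64), ((0, 6, 8), 63), ((1, 4, 8), 50), ((1, 4, 11), 49), ((1, 7, 8), 48)], 1, [[-3, -4, -6], [-3, -6, -4], [1, -2, -2], [0, 0, 0], [-3, -2, -2], [0, 0, 0], [-1, 0, -2], [-1, -2, 0], [-3, -2, -2], [0, 0, 0], [-1, 0, -2], [-1, -2, 0], [-1, 0, -2], [-1, -2, 0], [-3, -2, -2], [0, 0, 0]]⟩,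
    ⟨[0, 1], [2, 3, 4, 5, 6, 7, 8, 9, 10, 11, 12, 13, 14, 15, 16, 17, 18, 19, 20, 21, 22, 23, 24, 25, 26, 27, 28, 29, 30, 31, 32, 33, 34, 35, 36, 37, 38, 39, 40, 41, 42, 43, 44, 45, 46, 47, 48, 49, 50, 51, 52, 53, 54, 55, 56, 57, 58, 59, 60, 61, 62, 63, 64, 65, 66, 67, 68, 69, 70, 71, 72, 73, 74, 75, 76, 77, 78, 79, 80, 81], (2, 4, 8), [(18, 0), (19, 1), (20, 2), (21, 3), (22, 4), (23, 5), (24, 6), (25, 7), (26, 8), (27, 9), (28, 10), (29, 11), (30, 12), (31, 13), (32, 14), (33, 15), (34, 16), (35, 17), (36, 18), (37, 19), (38, 20), (39, 21), (40, 22), (41, 23), (42, 24), (43, 25), (44, 26), (45, 27), (46, 28), (47, 29), (48, 30), (49, 31), (50, 32), (51, 33), (52, 34), (53, 35), (54, 36), (55, 37), (56, 38), (57, 39), (58, 40), (59, 41), (60, 42), (61,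 43), (62, 44), (63, 45), (64, 46), (65, 47), (66, 48), (67, 49), (68, 50), (69, 51), (70, 52), (71, 53), (72, 54), (73, 55), (74, 56), (75, 57), (76, 58), (77, 59), (78, 60), (79, 61), (80, 62), (81, 63)], [], 0, []⟩]

def tab8 : List Nd := tab8_0 ++ (tab8_1)

theorem ok8_0 : okPart R8 tab8 0 25 = true := by decide +kernel

theorem ok8_1 : okPart R8 tab8 25 25 = true := by decide +kernel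

theorem ok8_2 : okPart R8 tab8 50 15 = true := by decide +kernel

theorem len8 : tab8.length = 65 := by decide +kernel

theorem okT8 : okTab R8 tab8 := by
  intro i hi
  rw [len8] at hi
  by_cases h0 : i < 25
  · exact part_spec ok8_0 (by omega) (by omega)
  by_cases h1 : i < 50
  · exact part_spec ok8_1 (by omega) (by omega)
  exact part_spec ok8_2 (by omega) (by omega)

theorem ok8 : okRoot R8 tab8 2 = true := by decide +kernel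

theorem okR8 : chkR (R8.drop 2) I8 = true := by decide +kernel

end Pool.Agent.helper25.AG
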