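import Pool.Agent.helper25.AG.Comp

set_option autoImplicit false
set_option linter.unusedSectionVars false
set_option linter.unusedVariables false

/-!
# Project AG: the energy inequality
-/

namespace Pool.Agent.helper25.AG

open Finset Pool.Agent.helper25.PV

/-- the bounds for the values of the inequalities -/
def bt : ℕ → ℤ
  | 1 => 4
  | 3 => 4
  | 4 => 4
  | 5 => 2
  | 6 => 4
  | 7 => 2
  | _ => 0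

/-- the strict inequalities -/
def Ii (D : W4 → ℚ) : Prop := ∀ i (g : W4 ≃+ W4) (t : W4), i < 8 → (bt i : ℚ) ≤ fval i g t D

theorem bt_nonneg (i : ℕ) : 0 ≤ bt i := by
  unfold bt
  split <;> norm_num

theorem Ii.cq {D : W4 → ℚ} (h : Ii D) : Cq D := fun i g t hi =>
  le_trans (by exact_mod_cast bt_nonneg i) (h i g t hi)

theorem Ii.comp {D : W4 → ℚ} (h : Ii D) (g : W4 ≃+ W4) (s : W4) : Ii fun v => D (g v + s) := by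
  intro i g' t hi
  rw [fval_comp]
  exact h _ _ _ hi

def bsum : List (ℕ × Item) → ℤ
  | [] => 0
  | a :: l => (a.1 : ℤ) * bt a.2.1 + bsum l

theorem sumIt_ge {D : W4 → ℚ} (hD : Ii D) : ∀ l : List (ℕ × Item),
    (∀ a ∈ l, oki a.2 = true) → (bsum l : ℚ) ≤ dotn 16 (sumIt l) (fun k => D (pt k)) := by
  intro l
  induction l with
  | nil =>
    intro _
    rw [show sumIt [] = fun _ => (0 : ℤ) from rfl, dotn_zero]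
    exact le_of_eq (by simp [bsum])
  | cons a l ih =>
    intro h
    have h1 : sumIt (a :: l) = fun k => (a.1 : ℤ) * iv a.2 k + sumIt l k := rfl
    rw [h1, dotn_add, dotn_mul]
    have h2 := ih fun b hb => h b (List.mem_cons_of_mem _ hb)
    obtain ⟨g, t, h3, h4⟩ := oki_val (h a List.mem_cons_self)
    have h5 : dotn 16 (fun k => iv a.2 k) (fun k => D (pt k)) = fval a.2.1 g t D := h4 D
    rw [h5]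
    have h6 := hD _ g t h3
    have h7 : (0 : ℚ) ≤ (((a.1 : ℕ) : ℤ) : ℚ) := by positivity
    have h8 := mul_le_mul_of_nonneg_left h6 h7
    have h9 : bsum (a :: l) = (a.1 : ℤ) * bt a.2.1 + bsum l := rfl
    rw [h9]
    push_cast at h8 ⊢
    linarith only [h2, h8]

/-- an energy certificate -/
structure EC where
  i : ℕ
  P : Pl
  s : ℤ
  d : ℤ
  r : List ℤ
  a : List ℤ
  m0 : List (ℕ × Item)
  m1 : List (ℕ × Item)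
  v0 : ℤ
  k0 : ℤ
  v1 : ℤ
  k1 : ℤ

def ec0 : EC := ⟨0, (0, 0, 0), 0, 0, [], [], [], [], 0, 0, 0, 0⟩

def ipl (a b : List ℤ) : ℤ := lsum (List.range 16) fun x => a.getD x 0 * b.getD x 0

def cc0 (e : EC) : ℤ := e.d * (bsum e.m0 + e.v0 * e.s + 12 * e.k0) - ipl e.r e.r

def cc1 (e : EC) : ℤ := e.d * (4 * e.k0 + bsum e.m1 + e.v1 * e.s + 12 * e.k1) - 2 * ipl e.r e.a

def cc2 (e : EC) : ℤ := e.d * (4 * e.k1) - ipl e.a e.a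

def okEC (e : EC) : Bool := okp e.P && (decide (0 < e.d) && (e.m0.all (fun a => oki a.2) &&
  (e.m1.all (fun a => oki a.2) && ((List.range 16).all (fun x =>
    decide (2 * e.r.getD x 0 - 3 * e.d * pv e.P x = sumIt e.m0 x + (e.v0 * (facT e.i).getD x 0 + e.k0)) &&
    decide (2 * e.a.getD x 0 - e.d * pv e.P x = sumIt e.m1 x + (e.v1 * (facT e.i).getD x 0 + e.k1))) &&
  (decide (0 < cc0 e) && (decide (0 ≤ cc2 e) &&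
    (decide (0 ≤ cc1 e) || decide (cc1 e * cc1 e < 4 * cc0 e * cc2 e))))))))

/-- the inner product -/
def ip (D F : W4 → ℚ) : ℚ := ∑ v, D v * F v

theorem ip_ch {P : Pl} (h : okp P = true) (D : W4 → ℚ) : ip D (ch P) =
    dotn 16 (pv P) (fun k => D (pt k)) := by
  unfold ip dotn
  rw [sum_ix]
  refine sum_congr rfl fun k hk => ?_
  have := pv_spec h (mem_range.1 hk)
  unfold ch
  rw [this, mul_comm]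

theorem ipl_cast (a b : List ℤ) : ((ipl a b : ℤ) : ℚ) =
    ∑ x ∈ range 16, (a.getD x 0 : ℚ) * (b.getD x 0 : ℚ) := by
  unfold ipl
  rw [lsum_cast, ← sum_range_list]
  refine sum_congr rfl fun x _ => ?_
  push_cast; ring

theorem quad_pos {c0 c1 c2 n : ℚ} (h0 : 0 < c0) (h2 : 0 ≤ c2) (hn : 0 ≤ n)
    (h1 : 0 ≤ c1 ∨ c1 * c1 < 4 * c0 * c2) : 0 < c0 + c1 * n + c2 * (n * n) := by
  rcases h1 with h1 | h1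
  · have e1 := mul_nonneg h1 hn
    have e2 := mul_nonneg h2 (mul_nonneg hn hn)
    linarith only [h0, e1, e2]
  · have hc2 : 0 < c2 := by
      rcases h2.lt_or_eq with h | h
      · exact h
      · rw [← h, mul_zero] at h1
        exact absurd h1 (not_lt.2 (mul_self_nonneg c1))
    have e1 : 4 * c2 * (c0 + c1 * n + c2 * (n * n)) =
        (2 * c2 * n + c1) * (2 * c2 * n + c1) + (4 * c0 * c2 - c1 * c1) := by ring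
    have e2 := mul_self_nonneg (2 * c2 * n + c1)
    by_contra hcon
    push Not at hcon
    have e3 := mul_nonpos_of_nonneg_of_nonpos (by linarith only [hc2] : 0 ≤ 4 * c2) hcon
    linarith only [e1, e2, e3, h1]

/-- the energy inequality -/
theorem energy {D : W4 → ℚ} (hI : Ii D) (h3 : 12 ≤ ∑ v, D v) {e : EC} (he : okEC e = true)
    (hs : dl D (facT e.i) = e.s) : (∑ v, D v) / 4 * ip D (ch e.P) < ip D D := by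
  unfold okEC at he
  simp only [Bool.and_eq_true, List.all_eq_true, List.mem_range, decide_eq_true_eq,
    Bool.or_eq_true] at he
  obtain ⟨hP, hd, ho0, ho1, hx, hc0, hc2, hc1⟩ := he
  obtain ⟨n, hn⟩ : ∃ n, n = (∑ v, D v) / 4 - 3 := ⟨_, rfl⟩
  have hn0 : 0 ≤ n := by linarith only [h3, hn]
  have hS : ∑ v, D v = 12 + 4 * n := by linarith only [hn]
  have hS2 : ∑ x ∈ range 16, D (pt x) = 12 + 4 * n := by rw [← sum_ix]; exact hS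
  have hdq : (0 : ℚ) < (e.d : ℚ) := by exact_mod_cast hd
  have b0 := sumIt_ge hI e.m0 ho0
  have b1 := sumIt_ge hI e.m1 ho1
  have hone : dotn 16 (fun _ => 1) (fun k => D (pt k)) = 12 + 4 * n := by
    unfold dotn
    rw [← hS2]
    exact sum_congr rfl fun k _ => by simp
  have hl : dotn 16 (fun k => (facT e.i).getD k 0) (fun k => D (pt k)) = e.s := hs
  have hpq := ip_ch hP D
  -- the two identities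
  have i0 : 2 * dotn 16 (fun k => e.r.getD k 0) (fun k => D (pt k)) -
      3 * e.d * ip D (ch e.P) = dotn 16 (sumIt e.m0) (fun k => D (pt k)) +
        (e.v0 * e.s + e.k0 * (12 + 4 * n)) := by
    have h4 : dotn 16 (fun k => 2 * e.r.getD k 0 + (-(3 * e.d)) * pv e.P k) (fun k => D (pt k)) =
        dotn 16 (fun k => sumIt e.m0 k + (e.v0 * (facT e.i).getD k 0 + e.k0 * 1))
          (fun k => D (pt k)) := by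
      refine dotn_congr (fun k hk => ?_) _
      have := (hx k hk).1
      linear_combination this
    rw [dotn_add, dotn_mul, dotn_mul, ← hpq, dotn_add, dotn_add, dotn_mul, dotn_mul, hl, hone] at h4
    push_cast at h4
    linear_combination h4
  have i1 : 2 * dotn 16 (fun k => e.a.getD k 0) (fun k => D (pt k)) -
      e.d * ip D (ch e.P) = dotn 16 (sumIt e.m1) (fun k => D (pt k)) +
        (e.v1 * e.s + e.k1 * (12 + 4 * n)) := by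
    have h4 : dotn 16 (fun k => 2 * e.a.getD k 0 + (-(e.d)) * pv e.P k) (fun k => D (pt k)) =
        dotn 16 (fun k => sumIt e.m1 k + (e.v1 * (facT e.i).getD k 0 + e.k1 * 1))
          (fun k => D (pt k)) := by
      refine dotn_congr (fun k hk => ?_) _
      have := (hx k hk).2
      linear_combination this
    rw [dotn_add, dotn_mul, dotn_mul, ← hpq, dotn_add, dotn_add, dotn_mul, dotn_mul, hl, hone] at h4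
    push_cast at h4
    linear_combination h4
  -- the square
  have sq : 2 * e.d * (dotn 16 (fun k => e.r.getD k 0) (fun k => D (pt k)) +
      n * dotn 16 (fun k => e.a.getD k 0) (fun k => D (pt k))) -
      (ipl e.r e.r + 2 * n * ipl e.r e.a + n * n * ipl e.a e.a) ≤ e.d * e.d * ip D D := by
    rw [ipl_cast, ipl_cast, ipl_cast]
    unfold ip dotn
    rw [sum_ix fun v => D v * D v]
    rw [mul_sum, mul_sum, mul_sum, mul_sum, ← sum_add_distrib, mul_sum, ← sum_add_distrib,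
      ← sum_add_distrib, ← sum_sub_distrib]
    refine sum_le_sum fun k _ => ?_
    have := mul_self_nonneg ((e.d : ℚ) * D (pt k) - ((e.r.getD k 0 : ℚ) + n * (e.a.getD k 0 : ℚ)))
    linarith only [this]
  have q0 : (0 : ℚ) < ((cc0 e : ℤ) : ℚ) := by exact_mod_cast hc0
  have q2 : (0 : ℚ) ≤ ((cc2 e : ℤ) : ℚ) := by exact_mod_cast hc2
  have q1 : (0 : ℚ) ≤ ((cc1 e : ℤ) : ℚ) ∨ ((cc1 e : ℤ) : ℚ) * ((cc1 e : ℤ) : ℚ) <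
      4 * ((cc0 e : ℤ) : ℚ) * ((cc2 e : ℤ) : ℚ) := by
    rcases hc1 with h | h
    · left; exact_mod_cast h
    · right; exact_mod_cast h
  have hq := quad_pos q0 q2 hn0 q1
  unfold cc0 cc1 cc2 at hq
  push_cast at hq
  have m0 := mul_le_mul_of_nonneg_left b0 hdq.le
  have m1 := mul_le_mul_of_nonneg_left (mul_le_mul_of_nonneg_left b1 hn0) hdq.le
  have fin : 0 < (e.d : ℚ) * e.d * (ip D D - (3 + n) * ip D (ch e.P)) := by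
    have e0 := congrArg ((e.d : ℚ) * ·) i0
    have e1 := congrArg ((e.d : ℚ) * n * ·) i1
    linarith only [hq, m0, m1, sq, e0, e1]
  have hdd : (0 : ℚ) < (e.d : ℚ) * e.d := mul_pos hdq hdq
  have h4 : 0 < ip D D - (3 + n) * ip D (ch e.P) := by
    by_contra hcon
    push Not at hcon
    have := mul_nonpos_of_nonneg_of_nonpos hdd.le hcon
    linarith only [this, fin]
  have h5 : (∑ v, D v) / 4 = 3 + n := by linarith only [hS]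
  rw [h5]
  linarith only [h4]

def ecs : List EC :=
  [⟨2, (3, 5, 9), 2, 28, [56, 21, 21, 28, 21, 28, 0, 21, 21, 28, 0, 21, 0, 21, 21, 28], [24, 8, 8, 6, 8, 6, 0, 8, 8, 6, 0, 8, 0, 8, 8, 6],
      [(28, 0, 0, 1, 2, 4, 11), (28, 0, 0, 1, 2, 4, 13), (28, 0, 0, 1, 2, 13, 4)],
      [(16, 0, 0, 1, 2, 4, 11), (16, 0, 0, 1, 2, 4, 13), (16, 0, 0, 1, 2, 13, 4)], -70, 42, -32, 16⟩,
    ⟨3, (0, 3, 5), 4, 84, [168, 124, 124, 68, 124, 68, 68, 0, 33, 33, 33, 33, 33, 33, 33, 33], [84, 44, 44, 16, 44, 16, 16, 0, 9, 9, 9, 9, 9, 9, 9, 9],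
      [(116, 0, 0, 1, 2, 12, 4), (41, 1, 0, 1, 2, 4, 8)],
      [(52, 0, 0, 1, 2, 12, 4), (1, 1, 0, 1, 2, 4, 8)], -91, 116, -35, 52⟩,
    ⟨3, (3, 5, 8), 4, 52, [60, 60, 77, 33, 77, 33, 0, 0, 77, 33, 16, 16, 16, 16, 77, 33], [28, 28, 29, 5, 29, 5, 0, 0, 29, 5, 4, 4, 4, 4, 29, 5],
      [(56, 0, 0, 1, 2, 12, 4), (56, 0, 0, 1, 2, 13, 4), (17, 3, 0, 1, 8, 14, 2)],
      [(40, 0, 0, 1, 2, 12, 4), (40, 0, 0, 1, 2, 13, 4), (1, 3, 0, 1, 8, 14, 2)], -61, 76, -25, 32⟩,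
    ⟨4, (0, 3, 5), 4, 76, [133, 95, 95, 57, 95, 57, 57, 19, 95, 19, 19, 19, 19, 19, 19, 95], [55, 39, 39, 23, 39, 23, 23, 7, 28, 0, 0, 0, 0, 0, 0, 28],
      [(19, 3, 0, 1, 2, 8, 4), (19, 3, 0, 1, 2, 8, 15), (19, 3, 0, 1, 8, 2, 4), (19, 3, 0, 1, 8, 2, 15), (19, 3, 0, 8, 1, 2, 4), (19, 3, 0, 8, 1, 2, 15), (19, 3, 8, 8, 9, 10, 12), (19, 3, 8, 8, 9, 10, 7), (38, 6, 0, 4, 8, 15, 1)],
      [(4, 2, 1, 3, 5, 9, 1), (4, 2, 1, 3, 5, 9, 14), (11, 6, 0, 4, 8, 15, 1)], -152, 76, -27, 40⟩,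
    ⟨4, (3, 5, 10), 4, 24, [32, 32, 32, 12, 32, 12, 8, 8, 32, 8, 12, 8, 12, 8, 8, 32], [12, 12, 12, 6, 12, 6, 0, 0, 12, 0, 6, 0, 6, 0, 0, 12],
      [(16, 3, 0, 1, 8, 15, 2), (16, 3, 0, 8, 1, 2, 15), (16, 3, 8, 8, 9, 10, 12)],
      [(3, 3, 0, 1, 8, 15, 2), (3, 3, 0, 8, 1, 2, 15), (3, 3, 8, 8, 9, 10, 12)], -44, 36, -12, 15⟩,
    ⟨4, (3, 5, 10), 8, 24, [28, 28, 28, 24, 28, 24, 4, 4, 28, 4, 24, 4, 24, 4, 4, 28], [12, 12, 12, 6, 12, 6, 0, 0, 12, 0, 6, 0, 6, 0, 0, 12],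
      [(8, 3, 0, 1, 8, 15, 2), (8, 3, 0, 8, 1, 2, 15), (8, 3, 8, 8, 9, 10, 12)],
      [(3, 3, 0, 1, 8, 15, 2), (3, 3, 0, 8, 1, 2, 15), (3, 3, 8, 8, 9, 10, 12)], -28, 36, -12, 15⟩,
    ⟨5, (0, 3, 4), 2, 26, [52, 39, 39, 0, 26, 13, 13, 26, 13, 13, 13, 13, 13, 13, 13, 13], [21, 16, 16, 1, 11, 6, 6, 11, 2, 2, 2, 2, 2, 2, 2, 2],
      [(13, 3, 0, 1, 2, 8, 4), (13, 3, 0, 1, 2, 8, 12), (13, 3, 0, 1, 2, 8, 15), (13, 3, 0, 1, 2, 8, 7), (26, 6, 0, 1, 2, 4, 9)],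
      [(4, 6, 0, 1, 2, 4, 8), (4, 6, 0, 1, 2, 4, 9)], -130, 26, -26, 14⟩,
    ⟨5, (3, 4, 8), 2, 36, [60, 60, 60, 0, 24, 20, 20, 20, 24, 20, 20, 20, 20, 20, 20, 24], [24, 24, 24, 0, 12, 4, 4, 4, 12, 4, 4, 4, 4, 4, 4, 12],
      [(32, 0, 0, 1, 14, 2, 4), (25, 3, 0, 1, 2, 4, 8), (25, 3, 0, 1, 2, 8, 4), (25, 3, 0, 1, 2, 8, 15)],
      [(16, 0, 0, 1, 14, 2, 4), (5, 4, 0, 1, 2, 4, 8)], -140, 55, -30, 23⟩,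
    ⟨5, (3, 4, 8), 4, 36, [51, 51, 51, 9, 45, 15, 15, 15, 45, 15, 15, 15, 15, 15, 15, 45], [24, 24, 24, 0, 12, 4, 4, 4, 12, 4, 4, 4, 4, 4, 4, 12],
      [(12, 4, 0, 1, 2, 4, 8)],
      [(16, 0, 0, 1, 14, 2, 4), (5, 4, 0, 1, 2, 4, 8)], -60, 54, -30, 23⟩,
    ⟨5, (4, 5, 6), 2, 24, [40, 40, 40, 0, 18, 18, 18, 18, 12, 12, 12, 12, 12, 12, 12, 12], [16, 16, 16, 0, 12, 12, 12, 12, 0, 0, 0, 0, 0, 0, 0, 0],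
      [(152, 0, 0, 1, 14, 2, 4), (15, 3, 0, 1, 2, 8, 4), (15, 3, 0, 1, 2, 8, 12), (15, 3, 0, 1, 2, 8, 13), (15, 3, 0, 1, 2, 8, 14), (15, 3, 0, 1, 2, 8, 15), (15, 3, 0, 1, 2, 8, 5), (15, 3, 0, 1, 2, 8, 6), (15, 3, 0, 1, 2, 8, 7)],
      [(32, 0, 0, 1, 14, 2, 4)], -178, 22, -16, 16⟩,
    ⟨5, (4, 5, 8), 2, 24, [40, 40, 40, 0, 18, 18, 12, 12, 18, 18, 12, 12, 12, 12, 12, 12], [18, 18, 12, 0, 9, 9, 3, 3, 9, 9, 3, 3, 0, 0, 0, 0],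
      [(152, 0, 0, 1, 14, 2, 4), (15, 3, 0, 1, 2, 4, 8), (15, 3, 0, 1, 2, 8, 4), (15, 3, 0, 1, 2, 8, 12), (15, 3, 0, 1, 2, 8, 13), (15, 3, 0, 1, 2, 8, 14), (15, 3, 0, 1, 2, 8, 15), (15, 3, 0, 1, 2, 8, 5), (15, 3, 0, 1, 2, 5, 8)],
      [(36, 0, 0, 1, 14, 2, 4), (6, 2, 1, 3, 1, 5, 9), (3, 6, 1, 3, 1, 5, 9)], -178, 22, -24, 15⟩,
    ⟨6, (0, 3, 5), 4, 624, [1248, 768, 768, 288, 576, 480, 480, 576, 576, 0, 0, 576, 576, 0, 0, 576], [624, 299, 299, 104, 234, 169, 169, 234, 78, 13, 13, 78, 78, 13, 13, 78],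
      [(144, 0, 0, 1, 2, 4, 9), (144, 0, 0, 1, 2, 4, 10), (744, 1, 0, 1, 2, 4, 8), (228, 3, 0, 1, 2, 8, 4), (192, 3, 0, 1, 2, 8, 12), (192, 3, 0, 1, 2, 8, 15), (228, 3, 0, 1, 2, 8, 7)],
      [(26, 1, 0, 1, 2, 4, 8), (312, 2, 0, 1, 2, 5, 8)], -1032, 600, -221, 351⟩,
    ⟨6, (1, 3, 4), 4, 60, [105, 105, 75, 15, 75, 15, 45, 45, 45, 15, 15, 45, 45, 15, 15, 45], [43, 43, 31, 7, 31, 7, 19, 19, 10, 0, 0, 10, 10, 0, 0, 10],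
      [(30, 3, 0, 1, 2, 8, 12), (30, 3, 0, 1, 2, 8, 7), (30, 3, 0, 1, 8, 2, 4), (30, 3, 0, 1, 8, 2, 15)],
      [(4, 0, 0, 1, 2, 4, 9), (4, 0, 0, 1, 2, 4, 10), (4, 0, 0, 1, 2, 4, 13), (4, 0, 0, 1, 2, 4, 14), (9, 6, 1, 1, 5, 3, 9)], -90, 60, -21, 32⟩,
    ⟨6, (1, 5, 9), 4, 144, [288, 252, 162, 0, 108, 108, 30, 96, 108, 108, 30, 96, 108, 108, 30, 96], [114, 114, 60, 0, 38, 38, 0, 20, 38, 38, 0, 20, 38, 38, 0, 20],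
      [(324, 0, 0, 1, 14, 2, 4), (33, 1, 0, 1, 2, 4, 8), (57, 3, 0, 1, 2, 4, 8), (57, 3, 0, 1, 2, 8, 4), (57, 3, 0, 1, 2, 8, 12), (6, 3, 0, 1, 2, 8, 13), (6, 3, 0, 1, 2, 8, 5), (6, 3, 0, 1, 2, 5, 8), (252, 7, 0, 1, 2, 7, 11)],
      [(112, 0, 0, 1, 14, 2, 4), (16, 2, 1, 3, 1, 5, 9), (8, 6, 1, 1, 3, 4, 8), (36, 7, 0, 1, 2, 7, 11)], -318, 162, -64, 80⟩,
    ⟨6, (3, 4, 8), 4, 1596, [2907, 1729, 1729, 589, 2033, 285, 285, 1463, 2033, 285, 285, 1463, 1463, 285, 285, 2033], [1155, 588, 588, 147, 819, 0, 0, 483, 819, 0, 0, 483, 483, 0, 0, 819],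
      [(228, 3, 0, 1, 8, 2, 4), (228, 3, 0, 1, 8, 2, 15), (228, 3, 0, 1, 8, 15, 2), (228, 3, 0, 8, 1, 2, 4), (228, 3, 0, 8, 1, 2, 15), (228, 3, 0, 8, 1, 15, 2), (228, 3, 8, 8, 7, 9, 10), (228, 3, 8, 7, 8, 9, 10)],
      [(84, 2, 1, 1, 2, 5, 9), (84, 2, 1, 2, 1, 5, 9), (231, 4, 0, 1, 2, 4, 8)], -1634, 1824, -567, 840⟩,
    ⟨6, (3, 4, 9), 4, 32, [64, 40, 40, 8, 40, 8, 8, 32, 24, 24, 0, 24, 24, 0, 24, 24], [24, 16, 16, 0, 16, 0, 0, 8, 8, 8, 0, 8, 8, 0, 8, 8],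
      [(6, 1, 0, 1, 2, 4, 8), (23, 3, 0, 1, 2, 4, 8), (3, 3, 0, 1, 8, 11, 13), (3, 3, 0, 1, 8, 11, 15), (3, 3, 0, 8, 1, 11, 4), (3, 3, 0, 8, 1, 11, 6), (3, 3, 0, 8, 11, 1, 12), (3, 3, 0, 8, 11, 1, 14), (6, 7, 0, 1, 2, 4, 11), (6, 7, 0, 2, 1, 4, 8)],
      [(4, 6, 0, 4, 1, 2, 8), (8, 7, 0, 1, 2, 4, 11)], -51, 46, -16, 20⟩,
    ⟨6, (3, 4, 9), 8, 24, [40, 28, 28, 12, 36, 4, 4, 16, 16, 24, 4, 16, 16, 4, 24, 16], [18, 12, 12, 0, 12, 0, 0, 6, 6, 6, 0, 6, 6, 0, 6, 6],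
      [(16, 7, 0, 2, 4, 1, 10)],
      [(3, 6, 0, 4, 1, 2, 8), (6, 7, 0, 1, 2, 4, 11)], -20, 36, -12, 15⟩,
    ⟨6, (4, 5, 6), 4, 440, [800, 560, 560, 0, 560, 320, 320, 560, 320, 80, 80, 320, 320, 80, 80, 320], [352, 209, 209, 0, 264, 121, 121, 264, 55, 0, 0, 55, 55, 0, 0, 55],
      [(320, 0, 0, 1, 14, 2, 4), (210, 3, 0, 1, 2, 8, 4), (210, 3, 0, 1, 2, 8, 7), (210, 3, 0, 8, 11, 1, 12), (210, 3, 0, 8, 11, 1, 15)],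
      [(220, 0, 0, 1, 2, 4, 9), (176, 0, 0, 1, 2, 4, 10), (176, 0, 0, 1, 2, 4, 13), (176, 0, 0, 1, 2, 4, 14), (484, 0, 0, 1, 14, 2, 4), (11, 3, 0, 8, 11, 1, 14)], -660, 460, -154, 253⟩,
    ⟨6, (4, 5, 8), 4, 1596, [3192, 2128, 1596, 0, 2014, 1178, 342, 1026, 2014, 1178, 342, 1026, 1292, 228, 456, 1140], [1296, 840, 564, 0, 858, 402, 0, 336, 858, 402, 0, 336, 384, 0, 0, 108],
      [(3040, 0, 0, 1, 14, 2, 4), (247, 3, 0, 1, 2, 4, 8), (247, 3, 0, 1, 2, 8, 4), (380, 3, 0, 1, 2, 8, 12), (570, 3, 0, 8, 1, 2, 4), (323, 3, 0, 8, 11, 1, 12), (323, 3, 0, 8, 11, 12, 1), (190, 3, 8, 8, 7, 9, 10), (304, 7, 0, 2, 1, 4, 8)],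
      [(696, 0, 0, 1, 2, 4, 9), (336, 0, 0, 1, 2, 4, 10), (240, 0, 0, 1, 2, 4, 13), (240, 0, 0, 1, 2, 13, 4), (1800, 0, 0, 1, 14, 2, 4), (48, 3, 0, 8, 1, 2, 4), (456, 7, 0, 2, 1, 4, 8)], -2242, 1862, -732, 900⟩,
    ⟨6, (4, 7, 9), 4, 352, [640, 448, 448, 0, 448, 64, 64, 448, 256, 256, 256, 256, 256, 64, 64, 256], [220, 187, 187, 0, 187, 0, 0, 187, 110, 55, 55, 110, 55, 0, 0, 55],
      [(256, 0, 0, 1, 14, 2, 4), (168, 3, 0, 1, 2, 4, 8), (168, 3, 0, 1, 2, 7, 8), (168, 3, 0, 8, 11, 1, 12), (168, 3, 0, 8, 11, 1, 15)],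
      [(44, 0, 0, 1, 2, 4, 9), (44, 0, 0, 1, 2, 4, 10), (44, 0, 0, 1, 2, 13, 4), (44, 0, 0, 1, 2, 14, 4), (308, 0, 0, 1, 14, 2, 4), (154, 2, 0, 1, 2, 4, 9), (22, 6, 0, 4, 7, 1, 8)], -528, 368, -154, 198⟩,
    ⟨6, (5, 6, 9), 4, 160, [320, 208, 208, 0, 128, 80, 80, 128, 128, 80, 80, 128, 128, 48, 48, 128], [140, 90, 90, 0, 35, 35, 35, 35, 35, 35, 35, 35, 20, 0, 0, 20],
      [(480, 0, 0, 1, 14, 2, 4), (88, 1, 0, 1, 2, 4, 8), (104, 3, 0, 1, 2, 8, 12), (104, 3, 0, 1, 2, 8, 15)],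
      [(40, 0, 0, 1, 2, 4, 9), (40, 0, 0, 1, 2, 4, 10), (200, 0, 0, 1, 14, 2, 4), (30, 2, 0, 1, 2, 4, 9), (30, 2, 0, 1, 2, 5, 8), (5, 3, 0, 1, 2, 8, 12), (5, 3, 0, 1, 2, 8, 15)], -288, 248, -80, 110⟩,
    ⟨6, (5, 6, 9), 8, 160, [320, 176, 176, 0, 96, 160, 160, 96, 96, 160, 160, 96, 96, 16, 16, 96], [140, 90, 90, 0, 35, 35, 35, 35, 35, 35, 35, 35, 20, 0, 0, 20],
      [(320, 0, 0, 1, 14, 2, 4), (16, 1, 0, 1, 2, 4, 8), (48, 3, 0, 1, 2, 8, 12), (48, 3, 0, 1, 2, 8, 15)],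
      [(40, 0, 0, 1, 2, 4, 9), (40, 0, 0, 1, 2, 4, 10), (200, 0, 0, 1, 14, 2, 4), (30, 2, 0, 1, 2, 4, 9), (30, 2, 0, 1, 2, 5, 8), (5, 3, 0, 1, 2, 8, 12), (5, 3, 0, 1, 2, 8, 15)], -176, 256, -80, 110⟩,
    ⟨7, (0, 3, 5), 2, 22, [44, 33, 22, 11, 22, 11, 22, 11, 22, 0, 11, 11, 11, 11, 0, 22], [19, 14, 9, 4, 9, 4, 9, 4, 6, 0, 1, 1, 1, 1, 0, 6],
      [(44, 0, 0, 1, 2, 4, 14), (11, 1, 0, 1, 2, 4, 8), (11, 3, 0, 1, 2, 8, 15), (11, 3, 0, 1, 8, 2, 15), (11, 3, 0, 1, 8, 10, 4)],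
      [(8, 0, 0, 1, 2, 4, 9), (8, 0, 0, 1, 2, 4, 14), (3, 6, 0, 1, 4, 8, 2), (3, 6, 0, 1, 4, 8, 15)], -66, 22, -22, 12⟩,
    ⟨7, (2, 3, 4), 2, 20, [30, 30, 30, 10, 30, 10, 10, 10, 20, 0, 10, 10, 10, 10, 0, 20], [13, 13, 13, 3, 13, 3, 3, 3, 4, 0, 2, 2, 2, 2, 0, 4],
      [(80, 0, 0, 1, 2, 4, 9), (80, 0, 0, 1, 2, 4, 14), (20, 3, 0, 1, 2, 4, 8), (10, 3, 0, 1, 2, 8, 4), (10, 3, 0, 1, 2, 8, 15), (10, 3, 0, 1, 8, 2, 4), (10, 3, 0, 1, 8, 2, 15)],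
      [(12, 0, 0, 1, 2, 4, 9), (12, 0, 0, 1, 2, 4, 14), (3, 4, 0, 1, 2, 4, 8), (2, 7, 2, 6, 2, 3, 10)], -100, 20, -18, 11⟩,
    ⟨7, (2, 3, 6), 2, 36, [54, 54, 54, 18, 36, 0, 36, 36, 36, 0, 18, 18, 18, 18, 0, 36], [23, 23, 24, 6, 14, 0, 15, 15, 10, 0, 1, 1, 1, 1, 0, 10],
      [(18, 3, 0, 1, 2, 8, 4), (18, 3, 0, 1, 8, 2, 15), (18, 3, 0, 8, 1, 11, 13), (18, 3, 8, 8, 9, 3, 5)],
      [(32, 0, 0, 1, 2, 4, 9), (32, 0, 0, 1, 2, 4, 14), (40, 0, 0, 1, 2, 14, 4), (4, 3, 0, 1, 2, 8, 4), (4, 3, 0, 1, 2, 8, 15)], -108, 36, -34, 20⟩,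
    ⟨7, (2, 5, 9), 2, 36, [57, 57, 45, 3, 39, 9, 21, 21, 39, 9, 21, 21, 21, 21, 9, 39], [24, 24, 24, 0, 12, 4, 4, 4, 12, 4, 4, 4, 4, 4, 4, 12],
      [(24, 3, 0, 1, 2, 4, 8), (24, 3, 0, 1, 2, 8, 4), (24, 3, 0, 1, 2, 8, 15)],
      [(16, 0, 0, 1, 14, 2, 4), (2, 4, 0, 1, 2, 4, 8), (3, 6, 1, 3, 1, 5, 9)], -132, 54, -30, 23⟩,
    ⟨7, (2, 5, 9), 4, 1260, [1800, 1800, 2232, 0, 1152, 936, 504, 504, 1152, 936, 504, 504, 504, 504, 936, 1152], [840, 840, 840, 0, 420, 140, 140, 140, 420, 140, 140, 140, 140, 140, 140, 420],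
      [(288, 0, 0, 1, 14, 2, 4), (405, 6, 1, 3, 1, 5, 9)],
      [(560, 0, 0, 1, 14, 2, 4), (70, 4, 0, 1, 2, 4, 8), (105, 6, 1, 3, 1, 5, 9)], -2106, 1899, -1050, 805⟩,
    ⟨7, (2, 5, 10), 2, 124, [186, 186, 186, 0, 124, 62, 62, 62, 124, 0, 124, 62, 62, 124, 0, 124], [83, 60, 83, 0, 44, 11, 0, 11, 47, 0, 47, 8, 8, 47, 0, 47],
      [(62, 3, 0, 1, 2, 8, 4), (62, 3, 0, 1, 2, 8, 15), (62, 3, 0, 8, 15, 1, 11), (62, 3, 8, 8, 9, 7, 3)],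
      [(72, 0, 0, 1, 2, 4, 9), (72, 0, 0, 1, 2, 4, 14), (56, 0, 0, 1, 14, 2, 4), (12, 2, 1, 1, 3, 4, 9), (8, 6, 1, 1, 3, 5, 9), (18, 7, 2, 2, 3, 6, 9)], -372, 124, -106, 68⟩,
    ⟨7, (3, 5, 10), 2, 372, [594, 594, 435, 111, 435, 111, 198, 198, 348, 0, 435, 111, 435, 111, 0, 348], [248, 248, 155, 31, 155, 31, 0, 0, 124, 0, 155, 31, 155, 31, 0, 124],
      [(408, 0, 0, 1, 2, 4, 9), (408, 0, 0, 1, 2, 4, 14), (39, 3, 0, 1, 2, 8, 12), (39, 3, 0, 1, 2, 8, 6), (39, 3, 0, 1, 8, 2, 12), (39, 3, 0, 1, 8, 2, 6), (204, 3, 0, 1, 8, 15, 2), (39, 6, 0, 1, 4, 8, 15), (39, 6, 1, 1, 5, 9, 3)],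
      [(248, 0, 0, 1, 2, 4, 9), (248, 0, 0, 1, 2, 4, 14), (31, 6, 0, 1, 4, 8, 15), (31, 6, 1, 1, 5, 9, 3)], -1116, 588, -372, 248⟩,
    ⟨7, (3, 5, 10), 4, 132, [192, 192, 120, 96, 120, 96, 48, 48, 120, 0, 168, 48, 168, 48, 0, 120], [88, 88, 55, 11, 55, 11, 0, 0, 44, 0, 55, 11, 55, 11, 0, 44],
      [(204, 0, 0, 1, 2, 4, 9), (204, 0, 0, 1, 2, 4, 14), (39, 3, 0, 1, 8, 14, 10)],
      [(88, 0, 0, 1, 2, 4, 9), (88, 0, 0, 1, 2, 4, 14), (11, 6, 0, 1, 4, 8, 15), (11, 6, 1, 1, 5, 9, 3)], -222, 201, -132, 88⟩,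
    ⟨7, (6, 7, 10), 2, 378, [623, 623, 322, 0, 322, 0, 392, 392, 322, 0, 392, 392, 217, 217, 0, 322], [270, 270, 108, 0, 108, 0, 135, 135, 108, 0, 135, 135, 0, 0, 0, 108],
      [(168, 0, 0, 1, 2, 4, 9), (168, 0, 0, 1, 2, 4, 14), (168, 0, 0, 1, 2, 14, 4), (168, 0, 0, 1, 14, 2, 4), (49, 3, 0, 8, 1, 11, 13), (49, 3, 0, 8, 11, 1, 15), (49, 3, 0, 8, 11, 15, 1), (49, 3, 0, 8, 15, 11, 13), (49, 3, 8, 8, 9, 3, 5), (49, 3, 8, 8, 3, 9, 7), (49, 3, 8, 8, 3, 7, 9), (49, 3, 8, 8, 7, 3, 5)],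
      [(432, 0, 0, 1, 2, 4, 9), (432, 0, 0, 1, 2, 4, 14), (432, 0, 0, 1, 2, 14, 4), (432, 0, 0, 1, 14, 2, 4), (27, 3, 0, 1, 2, 8, 15), (27, 3, 0, 1, 8, 2, 4)], -798, 448, -378, 216⟩]

theorem ecs_ok : (ecs.all fun e => okEC e) = true := by decide +kernel

/-- the planes -/
def PL : List Pl :=
  [(0, 1, 2), (0, 1, 4), (0, 1, 6), (0, 1, 8), (0, 1, 10), (0, 1, 12), (0, 1, 14), (0, 2, 4),
    (0, 2, 5), (0, 2, 8), (0, 2, 9), (0, 2, 12), (0, 2, 13), (0, 3, 4), (0, 3, 5), (0, 3, 8),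
    (0, 3, 9), (0, 3, 12), (0, 3, 13), (0, 4, 8), (0, 4, 9), (0, 4, 10), (0, 4, 11), (0, 5, 8),
    (0, 5, 9), (0, 5, 10), (0, 5, 11), (0, 6, 8), (0, 6, 9), (0, 6, 10), (0, 6, 11), (0, 7, 8),
    (0, 7, 9), (0, 7, 10), (0, 7, 11), (1, 2, 4), (1, 2, 5), (1, 2, 8), (1, 2, 9), (1, 2, 12),
    (1, 2, 13), (1, 3, 4), (1, 3, 5), (1, 3, 8), (1, 3, 9), (1, 3, 12), (1, 3, 13), (1, 4, 8),
    (1, 4, 9), (1, 4, 10), (1, 4, 11), (1, 5, 8), (1, 5, 9), (1, 5, 10), (1, 5, 11), (1, 6, 8),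
    (1, 6, 9), (1, 6, 10), (1, 6, 11), (1, 7, 8), (1, 7, 9), (1, 7, 10), (1, 7, 11), (2, 3, 4),
    (2, 3, 6), (2, 3, 8), (2, 3, 10), (2, 3, 12), (2, 3, 14), (2, 4, 8), (2, 4, 9), (2, 4, 10),
    (2, 4, 11), (2, 5, 8), (2, 5, 9), (2, 5, 10), (2, 5, 11), (2, 6, 8), (2, 6, 9), (2, 6, 10),
    (2, 6, 11), (2, 7, 8), (2, 7, 9), (2, 7, 10), (2, 7, 11), (3, 4, 8), (3, 4, 9), (3, 4, 10),
    (3, 4, 11), (3, 5, 8), (3, 5, 9), (3, 5, 10), (3, 5, 11), (3, 6, 8), (3, 6, 9), (3, 6, 10),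
    (3, 6, 11), (3, 7, 8), (3, 7, 9), (3, 7, 10), (3, 7, 11), (4, 5, 6), (4, 5, 8), (4, 5, 10),
    (4, 5, 12), (4, 5, 14), (4, 6, 8), (4, 6, 9), (4, 6, 12), (4, 6, 13), (4, 7, 8), (4, 7, 9),
    (4, 7, 12), (4, 7, 13), (5, 6, 8), (5, 6, 9), (5, 6, 12), (5, 6, 13), (5, 7, 8), (5, 7, 9),
    (5, 7, 12), (5, 7, 13), (6, 7, 8), (6, 7, 10), (6, 7, 12), (6, 7, 14), (8, 9, 10), (8, 9, 12),
    (8, 9, 14), (8, 10, 12), (8, 10, 13), (8, 11, 12), (8, 11, 13), (9, 10, 12), (9, 10, 13), (9, 11, 12),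
    (9, 11, 13), (10, 11, 12), (10, 11, 14), (12, 13, 14)]

theorem PL_ok : (PL.all fun P => okp P) = true := by decide +kernel

/-- the number of the set of the points of a plane -/
def msk (P : Pl) : ℕ := 2 ^ P.1 ||| (2 ^ P.2.1 ||| (2 ^ P.2.2 ||| 2 ^ (P.1 ^^^ P.2.1 ^^^ P.2.2)))

theorem msk_inP (P : Pl) (k : ℕ) : (msk P).testBit k = inP P k := by
  unfold msk inP
  rw [Nat.testBit_or, Nat.testBit_or, Nat.testBit_or, Nat.testBit_two_pow, Nat.testBit_two_pow,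
    Nat.testBit_two_pow, Nat.testBit_two_pow]
  have e : ∀ a b : ℕ, decide (a = b) = Nat.beq b a := by
    intro a b
    by_cases h : a = b
    · rw [decide_eq_true h, (Nat.beq_eq ▸ h.symm : Nat.beq b a = true)]
    · rw [decide_eq_false h]
      symm
      rw [← Bool.not_eq_true, Nat.beq_eq]
      exact fun h2 => h h2.symm
  rw [e, e, e, e]

def MK : List ℕ := PL.map msk

theorem can_ok : ((List.range 4096).all fun j => !(okp (j / 256, j / 16 % 16, j % 16)) ||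
    MK.any fun m => Nat.beq m (msk (j / 256, j / 16 % 16, j % 16))) = true := by
  decide +kernel

theorem can {P : Pl} (h : okp P = true) : ∃ Q ∈ PL, ch P = ch Q := by
  obtain ⟨l1, l2, l3, -⟩ := okp_spec h
  obtain ⟨a, b, c⟩ := P
  dsimp only at l1 l2 l3
  have h1 := can_ok
  simp only [List.all_eq_true, List.mem_range] at h1
  have h2 := h1 (256 * a + 16 * b + c) (by omega)
  rw [show (256 * a + 16 * b + c) / 256 = a by omega,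
    show (256 * a + 16 * b + c) / 16 % 16 = b by omega,
    show (256 * a + 16 * b + c) % 16 = c by omega, h] at h2
  simp only [Bool.not_true, Bool.false_or, List.any_eq_true, Nat.beq_eq] at h2
  obtain ⟨m, hm, h3⟩ := h2
  obtain ⟨Q, hQ, rfl⟩ := List.mem_map.1 hm
  refine ⟨Q, hQ, ?_⟩
  have hQ2 : okp Q = true := by
    have := PL_ok
    rw [List.all_eq_true] at this
    exact this Q hQ
  funext v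
  rw [← pt_ix v, ch_pt h (ix_lt v), ch_pt hQ2 (ix_lt v), ← msk_inP, ← msk_inP, h3]

/-- the units -/
def ut : ℕ → ℤ
  | 0 => 1
  | 1 => 4
  | 2 => 2
  | 3 => 4
  | 4 => 4
  | 5 => 2
  | 6 => 4
  | _ => 2

def tabT : List (ℕ × Pl × ℕ × ℕ × (ℕ × ℕ × ℕ × ℕ)) :=
  [(2, (3, 5, 9), 0, 0, 1, 2, 4, 8), (2, (3, 5, 10), 0, 0, 1, 2, 4, 11), (2, (3, 6, 9), 0, 0, 1, 2, 7, 8), (2, (3, 6, 10), 0, 0, 1, 2, 7, 11),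
    (2, (5, 6, 9), 0, 0, 1, 4, 7, 8), (2, (5, 6, 12), 0, 0, 1, 4, 7, 13), (2, (9, 10, 12), 0, 0, 1, 8, 11, 13), (3, (0, 3, 5), 1, 0, 1, 2, 4, 8),
    (3, (1, 3, 5), 1, 1, 1, 3, 5, 8), (3, (2, 3, 6), 1, 2, 2, 3, 6, 8), (3, (3, 5, 8), 2, 0, 1, 2, 4, 8), (3, (3, 5, 9), 2, 0, 1, 2, 4, 9),
    (3, (3, 5, 10), 2, 0, 1, 2, 4, 10), (3, (3, 5, 11), 2, 0, 1, 2, 4, 11), (3, (3, 6, 8), 2, 0, 2, 1, 4, 8), (3, (3, 6, 9), 2, 0, 2, 1, 4, 9),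
    (3, (3, 6, 10), 2, 0, 2, 1, 4, 10), (3, (3, 6, 11), 2, 0, 2, 1, 4, 11), (3, (3, 7, 8), 2, 1, 3, 1, 5, 9), (3, (3, 7, 9), 2, 1, 3, 1, 5, 8),
    (3, (3, 7, 10), 2, 1, 3, 1, 5, 11), (3, (3, 7, 11), 2, 1, 3, 1, 5, 10), (3, (4, 5, 6), 1, 4, 4, 5, 6, 8), (3, (5, 6, 8), 2, 0, 4, 1, 2, 8),
    (3, (5, 6, 9), 2, 0, 4, 1, 2, 9), (3, (5, 6, 12), 2, 0, 4, 1, 2, 12), (3, (5, 6, 13), 2, 0, 4, 1, 2, 13), (3, (5, 7, 8), 2, 1, 5, 1, 3, 9),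
    (3, (5, 7, 9), 2, 1, 5, 1, 3, 8), (3, (5, 7, 12), 2, 1, 5, 1, 3, 13), (3, (5, 7, 13), 2, 1, 5, 1, 3, 12), (3, (6, 7, 8), 2, 2, 6, 2, 3, 10),
    (3, (6, 7, 10), 2, 2, 6, 2, 3, 8), (3, (6, 7, 12), 2, 2, 6, 2, 3, 14), (3, (6, 7, 14), 2, 2, 6, 2, 3, 12), (4, (0, 3, 5), 3, 0, 1, 2, 4, 8),
    (4, (0, 3, 9), 3, 0, 1, 2, 8, 4), (4, (0, 3, 13), 3, 0, 1, 2, 15, 4), (4, (0, 5, 9), 3, 0, 1, 4, 8, 2), (4, (0, 5, 11), 3, 0, 1, 4, 15, 2),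
    (4, (0, 6, 10), 3, 0, 2, 4, 8, 1), (4, (0, 6, 11), 3, 0, 2, 4, 15, 1), (4, (0, 7, 9), 3, 0, 1, 8, 15, 2), (4, (0, 7, 10), 3, 0, 2, 8, 15, 1),
    (4, (0, 7, 11), 3, 0, 4, 8, 15, 1), (4, (1, 3, 5), 3, 1, 1, 3, 5, 9), (4, (1, 3, 9), 3, 1, 1, 3, 9, 5), (4, (1, 3, 12), 3, 1, 1, 3, 14, 5),
    (4, (1, 5, 9), 3, 1, 1, 5, 9, 3), (4, (1, 5, 10), 3, 1, 1, 5, 14, 3), (4, (1, 6, 9), 3, 1, 1, 9, 14, 3), (4, (1, 6, 10), 3, 1, 5, 9, 14, 1),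
    (4, (1, 6, 11), 3, 1, 3, 9, 14, 1), (4, (1, 7, 10), 3, 1, 3, 5, 14, 1), (4, (1, 7, 11), 3, 1, 3, 5, 9, 1), (4, (2, 3, 6), 3, 2, 2, 3, 6, 10),
    (4, (2, 3, 10), 3, 2, 2, 3, 10, 6), (4, (2, 3, 12), 3, 2, 2, 3, 13, 6), (4, (2, 5, 9), 3, 2, 6, 10, 13, 2), (4, (2, 5, 10), 3, 2, 2, 10, 13, 3),
    (4, (2, 5, 11), 3, 2, 3, 10, 13, 2), (4, (2, 6, 9), 3, 2, 2, 6, 13, 3), (4, (2, 6, 10), 3, 2, 2, 6, 10, 3), (4, (2, 7, 9), 3, 2, 3, 6, 13, 2),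
    (4, (2, 7, 11), 3, 2, 3, 6, 10, 2), (4, (3, 4, 9), 3, 4, 6, 11, 12, 4), (4, (3, 4, 10), 3, 4, 5, 11, 12, 4), (4, (3, 4, 11), 3, 4, 4, 11, 12, 5),
    (4, (3, 5, 8), 3, 8, 7, 10, 12, 8), (4, (3, 5, 9), 3, 15, 7, 11, 13, 14), (4, (3, 5, 10), 4, 0, 1, 2, 4, 8), (4, (3, 5, 11), 4, 0, 1, 2, 4, 15),
    (4, (3, 6, 8), 3, 8, 7, 9, 12, 8), (4, (3, 6, 9), 4, 0, 1, 2, 8, 4), (4, (3, 6, 10), 3, 15, 7, 11, 14, 13), (4, (3, 6, 11), 4, 0, 1, 2, 15, 4),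
    (4, (3, 7, 8), 3, 8, 7, 8, 12, 9), (4, (3, 7, 9), 4, 0, 1, 2, 8, 15), (4, (3, 7, 10), 4, 0, 1, 2, 15, 8), (4, (3, 7, 11), 3, 15, 7, 11, 15, 13),
    (4, (4, 5, 6), 3, 4, 4, 5, 6, 11), (4, (4, 5, 10), 3, 4, 4, 5, 11, 6), (4, (4, 5, 12), 3, 4, 4, 5, 12, 6), (4, (4, 6, 9), 3, 4, 4, 6, 11, 5),
    (4, (4, 6, 12), 3, 4, 4, 6, 12, 5), (4, (4, 7, 9), 3, 4, 5, 6, 11, 4), (4, (4, 7, 13), 3, 4, 5, 6, 12, 4), (4, (5, 6, 8), 3, 8, 7, 9, 10, 8),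
    (4, (5, 6, 9), 4, 0, 1, 4, 8, 2), (4, (5, 6, 12), 3, 15, 7, 13, 14, 11), (4, (5, 6, 13), 4, 0, 1, 4, 15, 2), (4, (5, 7, 8), 3, 8, 7, 8, 10, 9),
    (4, (5, 7, 9), 4, 0, 1, 4, 8, 15), (4, (5, 7, 12), 4, 0, 1, 4, 15, 8), (4, (5, 7, 13), 3, 15, 7, 13, 15, 11), (4, (6, 7, 8), 3, 8, 7, 8, 9, 10),
    (4, (6, 7, 10), 4, 0, 2, 4, 8, 15), (4, (6, 7, 12), 4, 0, 2, 4, 15, 8), (4, (6, 7, 14), 3, 15, 7, 14, 15, 11), (4, (8, 9, 10), 3, 8, 8, 9, 10, 7),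
    (4, (8, 9, 12), 3, 8, 8, 9, 12, 7), (4, (8, 10, 12), 3, 8, 8, 10, 12, 7), (4, (8, 11, 13), 3, 8, 9, 10, 12, 7), (4, (9, 10, 12), 3, 15, 11, 13, 14, 7),
    (4, (9, 10, 13), 4, 0, 1, 8, 15, 2), (4, (9, 11, 12), 4, 0, 1, 8, 15, 4), (4, (9, 11, 13), 3, 15, 11, 13, 15, 7), (4, (10, 11, 12), 4, 0, 2, 8, 15, 4),
    (4, (10, 11, 14), 3, 15, 11, 14, 15, 7), (4, (12, 13, 14), 3, 15, 13, 14, 15, 7), (5, (0, 3, 4), 6, 0, 1, 2, 4, 8), (5, (0, 3, 5), 6, 0, 1, 2, 5, 8),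
    (5, (0, 3, 8), 6, 0, 1, 2, 8, 4), (5, (0, 3, 9), 6, 0, 1, 2, 9, 4), (5, (0, 3, 12), 6, 0, 1, 2, 12, 4), (5, (0, 3, 13), 6, 0, 1, 2, 13, 4),
    (5, (1, 3, 4), 6, 1, 1, 3, 5, 8), (5, (1, 3, 5), 6, 1, 1, 3, 4, 8), (5, (1, 3, 8), 6, 1, 1, 3, 9, 4), (5, (1, 3, 9), 6, 1, 1, 3, 8, 4),
    (5, (1, 3, 12), 6, 1, 1, 3, 13, 4), (5, (1, 3, 13), 6, 1, 1, 3, 12, 4), (5, (2, 3, 4), 6, 2, 2, 3, 6, 8), (5, (2, 3, 6), 6, 2, 2, 3, 4, 8),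
    (5, (2, 3, 8), 6, 2, 2, 3, 10, 4), (5, (2, 3, 10), 6, 2, 2, 3, 8, 4), (5, (2, 3, 12), 6, 2, 2, 3, 14, 4), (5, (2, 3, 14), 6, 2, 2, 3, 12, 4),
    (5, (3, 4, 8), 7, 0, 1, 2, 4, 8), (5, (3, 4, 9), 7, 0, 1, 2, 4, 9), (5, (3, 4, 10), 7, 0, 1, 2, 4, 10), (5, (3, 4, 11), 7, 0, 1, 2, 4, 11),
    (5, (3, 5, 8), 7, 0, 1, 2, 5, 8), (5, (3, 5, 9), 7, 0, 1, 2, 5, 9), (5, (3, 5, 10), 7, 0, 1, 2, 5, 10), (5, (3, 5, 11), 7, 0, 1, 2, 5, 11),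
    (5, (3, 6, 8), 7, 0, 1, 2, 6, 8), (5, (3, 6, 9), 7, 0, 1, 2, 6, 9), (5, (3, 6, 10), 7, 0, 1, 2, 6, 10), (5, (3, 6, 11), 7, 0, 1, 2, 6, 11),
    (5, (3, 7, 8), 7, 0, 1, 2, 7, 8), (5, (3, 7, 9), 7, 0, 1, 2, 7, 9), (5, (3, 7, 10), 7, 0, 1, 2, 7, 10), (5, (3, 7, 11), 7, 0, 1, 2, 7, 11),
    (5, (4, 5, 6), 9, 0, 1, 2, 4, 8), (5, (4, 5, 8), 10, 0, 1, 2, 4, 8), (5, (4, 5, 10), 10, 0, 1, 2, 4, 10), (5, (4, 5, 12), 10, 0, 1, 2, 4, 12),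
    (5, (4, 5, 14), 10, 0, 1, 2, 4, 14), (5, (4, 6, 8), 10, 0, 2, 1, 4, 8), (5, (4, 6, 9), 10, 0, 2, 1, 4, 9), (5, (4, 6, 12), 10, 0, 2, 1, 4, 12),
    (5, (4, 6, 13), 10, 0, 2, 1, 4, 13), (5, (4, 7, 8), 10, 1, 3, 1, 5, 9), (5, (4, 7, 9), 10, 1, 3, 1, 5, 8), (5, (4, 7, 12), 10, 1, 3, 1, 5, 13),
    (5, (4, 7, 13), 10, 1, 3, 1, 5, 12), (5, (5, 6, 8), 10, 1, 3, 1, 4, 9), (5, (5, 6, 9), 10, 1, 3, 1, 4, 8), (5, (5, 6, 12), 10, 1, 3, 1, 4, 13),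
    (5, (5, 6, 13), 10, 1, 3, 1, 4, 12), (5, (5, 7, 8), 10, 0, 2, 1, 5, 8), (5, (5, 7, 9), 10, 0, 2, 1, 5, 9), (5, (5, 7, 12), 10, 0, 2, 1, 5, 12),
    (5, (5, 7, 13), 10, 0, 2, 1, 5, 13), (5, (6, 7, 8), 10, 0, 1, 2, 6, 8), (5, (6, 7, 10), 10, 0, 1, 2, 6, 10), (5, (6, 7, 12), 10, 0, 1, 2, 6, 12),
    (5, (6, 7, 14), 10, 0, 1, 2, 6, 14), (5, (8, 9, 10), 9, 0, 1, 2, 8, 4), (5, (8, 9, 12), 10, 0, 1, 2, 8, 12), (5, (8, 9, 14), 10, 0, 1, 2, 8, 14),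
    (5, (8, 10, 12), 10, 0, 2, 1, 8, 12), (5, (8, 10, 13), 10, 0, 2, 1, 8, 13), (5, (8, 11, 12), 10, 1, 3, 1, 9, 13), (5, (8, 11, 13), 10, 1, 3, 1, 9, 12),
    (5, (9, 10, 12), 10, 1, 3, 1, 8, 13), (5, (9, 10, 13), 10, 1, 3, 1, 8, 12), (5, (9, 11, 12), 10, 0, 2, 1, 9, 12), (5, (9, 11, 13), 10, 0, 2, 1, 9, 13),
    (5, (10, 11, 12), 10, 0, 1, 2, 10, 12), (5, (10, 11, 14), 10, 0, 1, 2, 10, 14), (5, (12, 13, 14), 9, 0, 1, 2, 12, 4), (6, (0, 3, 5), 11, 0, 1, 2, 4, 8),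
    (6, (0, 3, 9), 11, 0, 1, 2, 8, 4), (6, (0, 3, 13), 11, 0, 1, 2, 12, 4), (6, (1, 3, 4), 12, 0, 1, 2, 4, 8), (6, (1, 3, 5), 12, 0, 1, 2, 7, 8),
    (6, (1, 3, 8), 12, 0, 1, 2, 8, 4), (6, (1, 3, 9), 12, 0, 1, 2, 11, 4), (6, (1, 3, 12), 12, 0, 1, 2, 12, 4), (6, (1, 3, 13), 12, 0, 1, 2, 15, 4),
    (6, (1, 5, 9), 13, 0, 1, 2, 4, 8), (6, (1, 5, 10), 13, 0, 1, 2, 4, 11), (6, (1, 6, 9), 13, 0, 1, 2, 7, 8), (6, (1, 6, 10), 13, 0, 1, 2, 7, 11),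
    (6, (2, 3, 4), 12, 0, 2, 1, 4, 8), (6, (2, 3, 6), 12, 0, 2, 1, 7, 8), (6, (2, 3, 8), 12, 0, 2, 1, 8, 4), (6, (2, 3, 10), 12, 0, 2, 1, 11, 4),
    (6, (2, 3, 12), 12, 0, 2, 1, 12, 4), (6, (2, 3, 14), 12, 0, 2, 1, 15, 4), (6, (2, 5, 9), 13, 0, 2, 1, 7, 11), (6, (2, 5, 10), 13, 0, 2, 1, 7, 8),
    (6, (2, 6, 9), 13, 0, 2, 1, 4, 11), (6, (2, 6, 10), 13, 0, 2, 1, 4, 8), (6, (3, 4, 8), 14, 0, 1, 2, 4, 8), (6, (3, 4, 9), 15, 0, 1, 2, 4, 8),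
    (6, (3, 4, 10), 15, 0, 1, 2, 4, 11), (6, (3, 4, 11), 14, 0, 1, 2, 4, 11), (6, (3, 5, 8), 15, 0, 1, 2, 8, 4), (6, (3, 5, 9), 15, 0, 1, 2, 15, 4),
    (6, (3, 5, 10), 15, 0, 1, 2, 12, 4), (6, (3, 5, 11), 15, 0, 1, 2, 11, 4), (6, (3, 6, 8), 15, 0, 1, 2, 8, 7), (6, (3, 6, 9), 15, 0, 1, 2, 12, 7),
    (6, (3, 6, 10), 15, 0, 1, 2, 15, 7), (6, (3, 6, 11), 15, 0, 1, 2, 11, 7), (6, (3, 7, 8), 14, 0, 1, 2, 7, 8), (6, (3, 7, 9), 15, 0, 1, 2, 7, 8),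
    (6, (3, 7, 10), 15, 0, 1, 2, 7, 11), (6, (3, 7, 11), 14, 0, 1, 2, 7, 11), (6, (4, 5, 6), 17, 0, 1, 2, 4, 8), (6, (4, 5, 8), 18, 0, 1, 2, 4, 8),
    (6, (4, 5, 10), 18, 0, 1, 2, 4, 11), (6, (4, 5, 12), 18, 0, 1, 2, 4, 12), (6, (4, 5, 14), 18, 0, 1, 2, 4, 15), (6, (4, 6, 8), 18, 0, 2, 1, 4, 8),
    (6, (4, 6, 9), 18, 0, 2, 1, 4, 11), (6, (4, 6, 12), 18, 0, 2, 1, 4, 12), (6, (4, 6, 13), 18, 0, 2, 1, 4, 15), (6, (4, 7, 9), 19, 0, 1, 2, 4, 8),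
    (6, (4, 7, 13), 19, 0, 1, 2, 4, 12), (6, (5, 6, 8), 19, 0, 1, 2, 8, 4), (6, (5, 6, 9), 20, 0, 1, 2, 4, 8), (6, (5, 6, 12), 19, 0, 1, 2, 12, 4),
    (6, (5, 6, 13), 20, 0, 1, 2, 4, 12), (6, (5, 7, 8), 18, 0, 2, 1, 7, 8), (6, (5, 7, 9), 18, 0, 2, 1, 7, 11), (6, (5, 7, 12), 18, 0, 2, 1, 7, 12),
    (6, (5, 7, 13), 18, 0, 2, 1, 7, 15), (6, (6, 7, 8), 18, 0, 1, 2, 7, 8), (6, (6, 7, 10), 18, 0, 1, 2, 7, 11), (6, (6, 7, 12), 18, 0, 1, 2, 7, 12),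
    (6, (6, 7, 14), 18, 0, 1, 2, 7, 15), (6, (8, 9, 10), 17, 0, 1, 2, 8, 4), (6, (8, 9, 12), 18, 0, 1, 2, 8, 12), (6, (8, 9, 14), 18, 0, 1, 2, 8, 15),
    (6, (8, 10, 12), 18, 0, 2, 1, 8, 12), (6, (8, 10, 13), 18, 0, 2, 1, 8, 15), (6, (8, 11, 13), 19, 0, 1, 2, 8, 12), (6, (9, 10, 12), 19, 0, 1, 2, 12, 8),
    (6, (9, 10, 13), 20, 0, 1, 2, 8, 12), (6, (9, 11, 12), 18, 0, 2, 1, 11, 12), (6, (9, 11, 13), 18, 0, 2, 1, 11, 15), (6, (10, 11, 12), 18, 0, 1, 2, 11, 12),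
    (6, (10, 11, 14), 18, 0, 1, 2, 11, 15), (6, (12, 13, 14), 17, 0, 1, 2, 12, 4), (7, (0, 3, 5), 22, 0, 1, 2, 4, 8), (7, (0, 3, 9), 22, 0, 1, 2, 8, 4),
    (7, (0, 3, 13), 22, 0, 1, 2, 15, 4), (7, (0, 5, 9), 22, 0, 1, 4, 8, 2), (7, (0, 5, 11), 22, 0, 1, 4, 15, 2), (7, (0, 7, 9), 22, 0, 1, 8, 15, 2),
    (7, (1, 3, 5), 22, 1, 1, 3, 5, 9), (7, (1, 3, 9), 22, 1, 1, 3, 9, 5), (7, (1, 3, 12), 22, 1, 1, 3, 14, 5), (7, (1, 5, 9), 22, 1, 1, 5, 9, 3),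
    (7, (1, 5, 10), 22, 1, 1, 5, 14, 3), (7, (1, 6, 9), 22, 1, 1, 9, 14, 3), (7, (2, 3, 4), 23, 0, 1, 2, 4, 8), (7, (2, 3, 6), 24, 0, 1, 2, 4, 8),
    (7, (2, 3, 8), 23, 0, 1, 2, 8, 4), (7, (2, 3, 10), 24, 0, 1, 2, 8, 4), (7, (2, 3, 12), 24, 0, 1, 2, 15, 4), (7, (2, 3, 14), 23, 0, 1, 2, 15, 4),
    (7, (2, 5, 9), 25, 0, 1, 2, 4, 8), (7, (2, 5, 10), 27, 0, 1, 2, 4, 8), (7, (2, 5, 11), 27, 1, 1, 3, 5, 9), (7, (2, 6, 9), 27, 0, 1, 2, 8, 4),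
    (7, (2, 6, 10), 27, 0, 1, 2, 15, 4), (7, (2, 7, 9), 27, 1, 1, 3, 9, 5), (7, (2, 7, 11), 27, 1, 1, 3, 14, 5), (7, (3, 4, 9), 25, 0, 1, 4, 2, 8),
    (7, (3, 4, 10), 27, 1, 1, 5, 3, 9), (7, (3, 4, 11), 27, 0, 1, 4, 2, 8), (7, (3, 5, 8), 25, 0, 1, 8, 2, 4), (7, (3, 5, 9), 25, 1, 1, 14, 3, 5),
    (7, (3, 5, 10), 28, 0, 1, 2, 4, 8), (7, (3, 5, 11), 28, 0, 1, 2, 4, 15), (7, (3, 6, 8), 27, 1, 1, 9, 3, 5), (7, (3, 6, 9), 28, 0, 1, 2, 8, 4),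
    (7, (3, 6, 10), 27, 1, 1, 14, 3, 5), (7, (3, 6, 11), 28, 0, 1, 2, 15, 4), (7, (3, 7, 8), 27, 0, 1, 8, 2, 4), (7, (3, 7, 9), 28, 0, 1, 2, 8, 15),
    (7, (3, 7, 10), 28, 0, 1, 2, 15, 8), (7, (3, 7, 11), 27, 0, 1, 15, 2, 4), (7, (4, 5, 6), 24, 0, 1, 4, 2, 8), (7, (4, 5, 8), 23, 0, 1, 4, 8, 2),
    (7, (4, 5, 10), 24, 0, 1, 4, 15, 2), (7, (4, 5, 12), 24, 0, 1, 4, 8, 2), (7, (4, 5, 14), 23, 0, 1, 4, 15, 2), (7, (4, 6, 9), 27, 0, 1, 4, 8, 2),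
    (7, (4, 6, 12), 27, 0, 1, 4, 15, 2), (7, (4, 7, 9), 27, 1, 1, 5, 9, 3), (7, (4, 7, 13), 27, 1, 1, 5, 14, 3), (7, (5, 6, 8), 27, 1, 1, 9, 5, 3),
    (7, (5, 6, 9), 28, 0, 1, 4, 8, 2), (7, (5, 6, 12), 27, 1, 1, 14, 5, 3), (7, (5, 6, 13), 28, 0, 1, 4, 15, 2), (7, (5, 7, 8), 27, 0, 1, 8, 4, 2),
    (7, (5, 7, 9), 28, 0, 1, 4, 8, 15), (7, (5, 7, 12), 28, 0, 1, 4, 15, 8), (7, (5, 7, 13), 27, 0, 1, 15, 4, 2), (7, (6, 7, 8), 24, 0, 1, 8, 15, 2),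
    (7, (6, 7, 10), 30, 0, 1, 2, 4, 8), (7, (6, 7, 12), 30, 0, 1, 2, 4, 15), (7, (6, 7, 14), 24, 1, 1, 14, 9, 3), (7, (8, 9, 10), 24, 0, 1, 8, 2, 4),
    (7, (8, 9, 12), 24, 0, 1, 8, 4, 2), (7, (8, 9, 14), 23, 0, 1, 8, 15, 2), (7, (8, 10, 12), 27, 0, 1, 8, 15, 2), (7, (8, 11, 13), 27, 1, 1, 9, 14, 3),
    (7, (9, 10, 12), 27, 1, 1, 14, 9, 3), (7, (9, 10, 13), 28, 0, 1, 8, 15, 2), (7, (9, 11, 12), 28, 0, 1, 8, 15, 4), (7, (9, 11, 13), 27, 0, 1, 15, 8, 2),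
    (7, (10, 11, 12), 30, 0, 1, 2, 8, 15), (7, (10, 11, 14), 24, 1, 1, 14, 5, 3), (7, (12, 13, 14), 24, 1, 1, 14, 3, 5)]

/-- the check of an entry -/
def okT (e : ℕ × Pl × ℕ × ℕ × (ℕ × ℕ × ℕ × ℕ)) : Bool :=
  okc e.2.2.2.2 && (Nat.blt e.2.2.2.1 16 && (decide (mv (facT e.1) e.2.2.2.1 e.2.2.2.2 = facT e.1) &&
  ((List.range 2).all fun b => decide (fv (facT e.1) e.2.1 ≤ (b + 1 : ℤ) * ut e.1) ||
    (Nat.blt (e.2.2.1 + b) ecs.length && (decide ((ecs.getD (e.2.2.1 + b) ec0).i = e.1) &&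
    (decide ((ecs.getD (e.2.2.1 + b) ec0).s = (b + 1 : ℤ) * ut e.1) &&
    (List.range 16).all fun k => inP e.2.1 (lin e.2.2.2.2 k ^^^ e.2.2.2.1) ==
      inP (ecs.getD (e.2.2.1 + b) ec0).P k))))))

theorem tabT_ok : (tabT.all fun e => okT e) = true := by decide +kernel

theorem vals_ok : (PL.all fun P => (List.range 8).all fun i =>
    ((List.range 4).any fun m => decide (fv (facT i) P = (m : ℤ) * ut i)) &&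
    (decide (fv (facT i) P ≤ ut i) || (Nat.ble 2 i &&
      (tabT.any fun e => Nat.beq e.1 i && decide (e.2.1 = P))))) = true := by decide +kernel

end Pool.Agent.helper25.AG
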