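import Pool.Agent.helper25.AG.Refl

set_option autoImplicit false
set_option linter.unusedSectionVars false
set_option linter.unusedVariables false

/-!
# Project AG: faces of the cone of the planes through the origin, and their images
-/

namespace Pool.Agent.helper25.AG

open Finset Pool.Agent.helper25.PV

variable {n : ℕ} {E : ℕ → ℚ} {D : W4 → ℚ} {facts : List (List ℤ)}

/-- the value of a form on a plane -/
def wv (w : List ℤ) (P : Pl) : ℤ := lsum (List.range 16) fun x => w.getD x 0 * pv P x

/-- the value of a form on a function -/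
def wF (w : List ℤ) (F : W4 → ℚ) : ℚ := ∑ x ∈ range 16, (w.getD x 0 : ℚ) * F (pt x)

/-- the image of a function -/
def thF (θ : List (List ℕ)) (F : W4 → ℚ) : W4 → ℚ := fun v =>
  ((θ.getD (ix v) []).map fun y => F (pt y)).sum

theorem thF_add (θ : List (List ℕ)) (F G : W4 → ℚ) : thF θ (F + G) = thF θ F + thF θ G := by
  funext v
  show ((θ.getD (ix v) []).map fun y => (F + G) (pt y)).sum =
    ((θ.getD (ix v) []).map fun y => F (pt y)).sum + ((θ.getD (ix v) []).map fun y => G (pt y)).sum
  induction θ.getD (ix v) [] with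
  | nil => simp
  | cons a l ih =>
    rw [List.map_cons, List.sum_cons, ih, List.map_cons, List.sum_cons, List.map_cons,
      List.sum_cons, Pi.add_apply]
    ring

theorem wF_add (w : List ℤ) (F G : W4 → ℚ) : wF w (F + G) = wF w F + wF w G := by
  unfold wF
  rw [← sum_add_distrib]
  refine sum_congr rfl fun x _ => ?_
  rw [Pi.add_apply]; ring

theorem lsum_cast (l : List ℕ) (f : ℕ → ℤ) : ((lsum l f : ℤ) : ℚ) = (l.map fun x => (f x : ℚ)).sum := by
  induction l with
  | nil => simp [lsum]
  | cons a l ih =>
    have : lsum (a :: l) f = f a + lsum l f := rfl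
    rw [this, List.map_cons, List.sum_cons, ← ih]; push_cast; ring

theorem wF_chp (w : List ℤ) {P : Pl} (hP : okp P = true) (c : ℚ) :
    wF w (fun v => c * chp (pt P.1) (pt P.2.1) (pt P.2.2) v) = c * wv w P := by
  unfold wF wv
  rw [lsum_cast, ← sum_range_list, mul_sum]
  refine sum_congr rfl fun x hx => ?_
  show (w.getD x 0 : ℚ) * (c * chp (pt P.1) (pt P.2.1) (pt P.2.2) (pt x)) = _
  rw [pv_spec hP (mem_range.1 hx)]
  push_cast; ring

/-- the check of an image of a face -/
def chkT (θ : List (List ℕ)) (w : List ℤ) (th : ℕ → ℕ → Pl) : Bool :=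
  (List.range 256).all fun i => !(okp (0, i / 16, i % 16)) ||
    (decide (0 < wv w (0, i / 16, i % 16)) || (decide (wv w (0, i / 16, i % 16) = 0) &&
      (okp (th (i / 16) (i % 16)) && (List.range 16).all fun x =>
        decide (lsum (θ.getD x []) (fun y => bif Nat.blt y 16 then pv (0, i / 16, i % 16) y else 0) =
          pv (th (i / 16) (i % 16)) x) && (θ.getD x []).all fun y => Nat.blt y 16)))

theorem image_mem {θ : List (List ℕ)} {w : List ℤ} {th : ℕ → ℕ → Pl} (hc : chkT θ w th = true)
    {F : W4 → ℚ} (hF : F ∈ Pc0) : 0 ≤ wF w F ∧ (wF w F = 0 → thF θ F ∈ Pc) := by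
  unfold chkT at hc
  simp only [List.all_eq_true, List.mem_range] at hc
  induction hF using AddSubmonoid.closure_induction with
  | mem F hF =>
    obtain ⟨c, p, q, hc0, h1, h2, h3, rfl⟩ := hF
    have e1 := hc (16 * ix p + ix q) (by have := ix_lt p; have := ix_lt q; omega)
    rw [show (16 * ix p + ix q) / 16 = ix p by have := ix_lt q; omega,
      show (16 * ix p + ix q) % 16 = ix q by have := ix_lt q; omega] at e1
    have hok : okp (0, ix p, ix q) = true := by
      have hp0 : ix p ≠ 0 := fun h => h1 (by rw [← pt_ix p, h, pt_zero])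
      have hq0 : ix q ≠ 0 := fun h => h2 (by rw [← pt_ix q, h, pt_zero])
      have hpq : ix p ≠ ix q := fun h => h3 (by rw [← pt_ix p, h, pt_ix])
      have l1 := ix_lt p
      have l2 := ix_lt q
      unfold okp
      simp only [Bool.and_eq_true, Nat.ble_eq, Bool.not_eq_true']
      have nb : ∀ a b : ℕ, a ≠ b → Nat.beq a b = false := fun a b h => by
        rw [← Bool.not_eq_true, Nat.beq_eq]; exact h
      exact ⟨by omega, by omega, by omega, nb _ _ hp0.symm, nb _ _ hq0.symm, nb _ _ hpq⟩
    rw [hok] at e1
    have e2 := wF_chp w hok c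
    have e3 : (fun v => c * chp (pt (0, ix p, ix q).1) (pt (0, ix p, ix q).2.1)
        (pt (0, ix p, ix q).2.2) v) = fun v => c * chp 0 p q v := by
      funext v
      show c * chp (pt 0) (pt (ix p)) (pt (ix q)) v = _
      rw [pt_zero, pt_ix, pt_ix]
    rw [e3] at e2
    rw [e2]
    simp only [Bool.not_true, Bool.false_or, Bool.or_eq_true, decide_eq_true_eq,
      Bool.and_eq_true, List.all_eq_true, List.mem_range] at e1
    rcases e1 with e1 | ⟨e1, e4, e5⟩
    · have e6 : (0 : ℚ) < wv w (0, ix p, ix q) := by exact_mod_cast e1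
      refine ⟨by positivity, fun h => ?_⟩
      have hc1 : c = 0 := by
        rcases mul_eq_zero.1 h with h | h
        · exact h
        · exact absurd h e6.ne'
      have : thF θ (fun v => c * chp 0 p q v) = 0 := by
        funext v
        unfold thF
        rw [hc1]
        simp
      rw [this]; exact zero_mem _
    · rw [e1]
      refine ⟨by simp, fun _ => ?_⟩
      have e6 : thF θ (fun v => c * chp 0 p q v) = fun v => c * chp (pt (th (ix p) (ix q)).1)
          (pt (th (ix p) (ix q)).2.1) (pt (th (ix p) (ix q)).2.2) v := by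
        funext v
        rw [← pt_ix v, pv_spec e4 (ix_lt v)]
        obtain ⟨e7, e8⟩ := e5 _ (ix_lt v)
        unfold thF
        rw [ix_pt _ (ix_lt v), ← e7, lsum_cast]
        have key : ∀ l : List ℕ, (∀ y ∈ l, Nat.blt y 16 = true) →
            (l.map fun y => (fun v => c * chp 0 p q v) (pt y)).sum =
            c * (l.map fun y => (((bif Nat.blt y 16 then pv (0, ix p, ix q) y else 0) : ℤ) : ℚ)).sum := by
          intro l
          induction l with
          | nil => intro _; simp
          | cons a l ih =>
            intro e8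
            rw [List.map_cons, List.sum_cons, List.map_cons, List.sum_cons,
              ih (fun y hy => e8 y (List.mem_cons_of_mem _ hy)), mul_add]
            congr 1
            have e9 := e8 a List.mem_cons_self
            rw [e9]
            have e11 : a < 16 := by rwa [Nat.blt_eq] at e9
            have e10 := pv_spec hok e11
            have e12 : chp 0 p q (pt a) = chp (pt (0, ix p, ix q).1) (pt (0, ix p, ix q).2.1)
              (pt (0, ix p, ix q).2.2) (pt a) := by
              show _ = chp (pt 0) (pt (ix p)) (pt (ix q)) (pt a)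
              rw [pt_zero, pt_ix, pt_ix]
            show c * chp 0 p q (pt a) = c * _
            rw [e12, e10]
            rfl
        exact key _ e8
      rw [e6]
      obtain ⟨h2, h3, h4, h5, h6, h7⟩ := okp_spec e4
      exact Pc_gen hc0 (fun h => h5 (pt_inj h2 h3 h))
        (fun h => h6 (pt_inj h2 h4 h)) (fun h => h7 (pt_inj h3 h4 h))
  | zero =>
    refine ⟨by simp [wF], fun _ => ?_⟩
    have : thF θ (0 : W4 → ℚ) = 0 := by
      funext v; simp [thF]
    rw [this]; exact zero_mem _
  | add x y _ _ h1 h2 =>
    rw [wF_add, thF_add]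
    refine ⟨add_nonneg h1.1 h2.1, fun h => ?_⟩
    have h3 : wF w x = 0 := by linarith only [h1.1, h2.1, h]
    have h4 : wF w y = 0 := by linarith only [h1.1, h2.1, h]
    exact add_mem (h1.2 h3) (h2.2 h4)

theorem thF_tab {θ : List (List ℕ)} {tab tab' : List (List ℤ)}
    (h : ((List.range 16).all fun x => (θ.getD x []).all (fun y => Nat.blt y 16) &&
      (List.range n).all fun k => decide (tabv tab' x k = lsum (θ.getD x []) fun y => tabv tab y k))
      = true) : ∀ x < 16, thF θ (tabF n tab E) (pt x) = dotn n (tabv tab' x) E := by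
  intro x hx
  simp only [List.all_eq_true, List.mem_range, Bool.and_eq_true, decide_eq_true_eq] at h
  obtain ⟨h1, h2⟩ := h x hx
  rw [dotn_congr h2, dotn_lsum]
  unfold thF
  rw [ix_pt x hx]
  congr 1
  refine List.map_congr_left fun y hy => ?_
  exact tabF_pt (by have := h1 y hy; rwa [Nat.blt_eq] at this) tab

theorem wF_tab {w : List ℤ} {tab : List (List ℤ)} : wF w (tabF n tab E) =
    dotn n (fun k => lsum (List.range 16) fun x => w.getD x 0 * tabv tab x k) E := by
  have h1 : (fun k => lsum (List.range 16) fun x => w.getD x 0 * tabv tab x k) =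
      fun k => lsum (List.range 16) fun x => (fun x k => w.getD x 0 * tabv tab x k) x k := rfl
  rw [h1, dotn_lsum]
  unfold wF
  rw [sum_range_list]
  congr 1
  refine List.map_congr_left fun x hx => ?_
  rw [tabF_pt (List.mem_range.1 hx)]
  show _ = dotn n (fun k => w.getD x 0 * tabv tab x k) E
  rw [dotn_mul]

/-- the maximum of a list -/
theorem exists_max : ∀ (l : List ℚ), l ≠ [] → ∃ m ∈ l, ∀ x ∈ l, x ≤ m := by
  intro l
  induction l with
  | nil => intro h; exact absurd rfl h
  | cons a l ih =>
    intro _
    by_cases hl : l = []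
    · subst hl
      exact ⟨a, by simp, fun x hx => by simp at hx; rw [hx]⟩
    · obtain ⟨m, hm, h⟩ := ih hl
      rcases le_total a m with h1 | h1
      · refine ⟨m, List.mem_cons_of_mem _ hm, fun x hx => ?_⟩
        rcases List.mem_cons.1 hx with rfl | hx
        · exact h1
        · exact h x hx
      · refine ⟨a, List.mem_cons_self, fun x hx => ?_⟩
        rcases List.mem_cons.1 hx with rfl | hx
        · exact le_rfl
        · exact (h x hx).trans h1

/-- an extension of the coordinates -/
def ext (D : W4 → ℚ) (l : List ℚ) (k : ℕ) : ℚ := bif Nat.blt k 16 then D (pt k) else l.getD (k - 16) 0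

theorem ext_lt (D : W4 → ℚ) (l : List ℚ) {k : ℕ} (hk : k < 16) : ext D l k = D (pt k) := by
  unfold ext
  have : Nat.blt k 16 = true := by rw [Nat.blt_eq]; exact hk
  rw [this]; rfl

theorem ext_ge (D : W4 → ℚ) (l : List ℚ) (k : ℕ) : ext D l (16 + k) = l.getD k 0 := by
  unfold ext
  have : Nat.blt (16 + k) 16 = false := by rw [← Bool.not_eq_true, Nat.blt_eq]; omega
  rw [this]
  show l.getD (16 + k - 16) 0 = _
  rw [show 16 + k - 16 = k by omega]

/-- a form on the extension -/
theorem dotn_ext (m : ℕ) (f : ℕ → ℤ) (D : W4 → ℚ) (l : List ℚ) :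
    dotn (16 + m) f (ext D l) = dotn 16 f (fun k => D (pt k)) +
      ∑ k ∈ range m, (f (16 + k) : ℚ) * l.getD k 0 := by
  unfold dotn
  rw [sum_range_add]
  refine congrArg₂ (· + ·) (sum_congr rfl fun k hk => ?_) (sum_congr rfl fun k _ => ?_)
  · rw [ext_lt _ _ (mem_range.1 hk)]
  · rw [ext_ge]

/-- a multiple of a form on the first coordinates, together with further coefficients -/
def mk (c : ℤ) (l : List ℤ) (m : List ℤ) : List ℤ := (List.range 16).map (fun k => c * l.getD k 0) ++ m

theorem mk_lt (c : ℤ) (l m : List ℤ) {k : ℕ} (hk : k < 16) : (mk c l m).getD k 0 = c * l.getD k 0 := by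
  unfold mk
  rw [List.getD_eq_getElem?_getD, List.getElem?_append_left (by simpa using hk)]
  simp [hk]

theorem mk_ge (c : ℤ) (l m : List ℤ) (k : ℕ) : (mk c l m).getD (16 + k) 0 = m.getD k 0 := by
  unfold mk
  rw [List.getD_eq_getElem?_getD, List.getElem?_append_right (by simp)]
  simp

theorem mk_dot (r : ℕ) (c : ℤ) (l m : List ℤ) (D : W4 → ℚ) (xs : List ℚ) :
    dotn (16 + r) (fun k => (mk c l m).getD k 0) (ext D xs) =
      c * dl D l + ∑ k ∈ range r, (m.getD k 0 : ℚ) * xs.getD k 0 := by
  rw [dotn_ext]
  refine congrArg₂ (· + ·) ?_ (sum_congr rfl fun k _ => by rw [mk_ge])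
  unfold dl
  rw [← dotn_mul]
  exact dotn_congr (fun k hk => mk_lt c l m hk) _

end Pool.Agent.helper25.AG
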