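import Pool.Agent.helper25.AG.Int

set_option autoImplicit false
set_option linter.unusedSectionVars false
set_option linter.unusedVariables false

/-!
# Project AG: the planes form a Hilbert basis
-/

namespace Pool.Agent.helper25.AG

open Finset Pool.Agent.helper25.PV

/-- the parity of a coordinate -/
theorem Lt_coord {D : W4 → ℚ} (hL : D ∈ Lt) (i : Fin 4) :
    ∃ z : ℤ, ∑ v : W4, (if v i = 1 then (1 : ℚ) else 0) * D v = 2 * z := by
  induction hL using AddSubgroup.closure_induction with
  | mem x hx =>
    obtain ⟨p, q, s, h1, h2, h3, rfl⟩ := hx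
    rw [sum_chp h1 h2 h3 fun v => if v i = 1 then (1 : ℚ) else 0]
    have h4 : (p + q + s) i = p i + q i + s i := rfl
    rw [h4]
    rcases z2 (p i) with hp | hp <;> rcases z2 (q i) with hq | hq <;> rcases z2 (s i) with hs | hs <;>
      rw [hp, hq, hs]
    · exact ⟨0, by decide +kernel⟩
    · exact ⟨1, by decide +kernel⟩
    · exact ⟨1, by decide +kernel⟩
    · exact ⟨1, by decide +kernel⟩
    · exact ⟨1, by decide +kernel⟩
    · exact ⟨1, by decide +kernel⟩
    · exact ⟨1, by decide +kernel⟩
    · exact ⟨2, by decide +kernel⟩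
  | zero => exact ⟨0, by simp⟩
  | add x y _ _ h1 h2 =>
    obtain ⟨a, ha⟩ := h1
    obtain ⟨b, hb⟩ := h2
    refine ⟨a + b, ?_⟩
    have : ∀ v ∈ (univ : Finset W4), (if v i = 1 then (1 : ℚ) else 0) * (x + y) v =
        (if v i = 1 then (1 : ℚ) else 0) * x v + (if v i = 1 then (1 : ℚ) else 0) * y v := by
      intro v _
      rw [Pi.add_apply]; ring
    rw [sum_congr rfl this, sum_add_distrib, ha, hb]
    push_cast; ring
  | neg x _ h1 =>
    obtain ⟨a, ha⟩ := h1
    refine ⟨-a, ?_⟩
    have : ∀ v ∈ (univ : Finset W4), (if v i = 1 then (1 : ℚ) else 0) * (-x) v =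
        - ((if v i = 1 then (1 : ℚ) else 0) * x v) := by
      intro v _
      rw [Pi.neg_apply]; ring
    rw [sum_congr rfl this, sum_neg_distrib, ha]
    push_cast; ring

/-- four points -/
theorem four {D : W4 → ℚ} (hL : D ∈ Lt) (h01 : ∀ v, D v = 0 ∨ D v = 1) (hs : ∑ v, D v = 4) :
    D ∈ Ps := by
  classical
  let S : Finset W4 := univ.filter fun v => D v = 1
  have hD : ∀ v, D v = if v ∈ S then 1 else 0 := by
    intro v
    have hmem : v ∈ S ↔ D v = 1 := by simp [S]
    by_cases h : D v = 1
    · rw [if_pos (hmem.2 h), h]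
    · rw [if_neg (fun h2 => h (hmem.1 h2))]
      exact (h01 v).resolve_right h
  have hcard : S.card = 4 := by
    rw [sum_congr rfl fun v _ => hD v, sum_ite_mem, univ_inter, sum_const, nsmul_eq_mul,
      mul_one] at hs
    exact_mod_cast hs
  obtain ⟨d, T, hd, hT, hT3⟩ := card_eq_succ.1 hcard
  obtain ⟨a, b, c, hab, hac, hbc, hTe⟩ := card_eq_three.1 hT3
  rw [hTe] at hd hT
  simp only [mem_insert, mem_singleton, not_or] at hd
  obtain ⟨hda, hdb, hdc⟩ := hd
  have hsum : ∀ F : W4 → ℚ, ∑ v, F v * D v = F d + (F a + (F b + F c)) := by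
    intro F
    have h1 : ∀ v ∈ (univ : Finset W4), F v * D v = if v ∈ S then F v else 0 := by
      intro v _
      rw [hD v]
      split_ifs <;> simp
    rw [sum_congr rfl h1, sum_ite_mem, univ_inter, ← hT, sum_insert (by
        simp only [mem_insert, mem_singleton, not_or]; exact ⟨hda, hdb, hdc⟩),
      sum_insert (by simp only [mem_insert, mem_singleton, not_or]; exact ⟨hab, hac⟩),
      sum_insert (by simp only [mem_singleton]; exact hbc), sum_singleton]
  have hd2 : d = a + b + c := by
    funext i
    obtain ⟨z, hz⟩ := Lt_coord hL i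
    rw [hsum] at hz
    have h4 : (a + b + c) i = a i + b i + c i := rfl
    rw [h4]
    rcases z2 (a i) with ha | ha <;> rcases z2 (b i) with hb | hb <;>
      rcases z2 (c i) with hc | hc <;> rcases z2 (d i) with hd | hd <;>
      rw [ha, hb, hc, hd] at hz <;> rw [ha, hb, hc, hd]
    all_goals first
      | decide
      | (exfalso
         norm_num at hz
         have hz2 : ((1 : ℤ) : ℚ) = ((2 * z : ℤ) : ℚ) := by push_cast; linarith only [hz]
         have hz3 : (1 : ℤ) = 2 * z := by exact_mod_cast hz2
         omega)
      | (exfalso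
         norm_num at hz
         have hz2 : ((3 : ℤ) : ℚ) = ((2 * z : ℤ) : ℚ) := by push_cast; linarith only [hz]
         have hz3 : (3 : ℤ) = 2 * z := by exact_mod_cast hz2
         omega)
  have hfin : D = chp a b c := by
    funext v
    rw [hD v]
    unfold chp
    have : v ∈ S ↔ (v = a ∨ v = b ∨ v = c ∨ v = a + b + c) := by
      rw [← hT, ← hd2]
      simp only [mem_insert, mem_singleton]
      tauto
    by_cases h : v ∈ S
    · rw [if_pos h, if_pos (this.1 h)]
    · rw [if_neg h, if_neg (fun h2 => h (this.2 h2))]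
  rw [hfin]
  exact AddSubmonoid.subset_closure ⟨a, b, c, hab, hac, hbc, rfl⟩

theorem ut_pos (i : ℕ) : 0 < ut i := by
  unfold ut
  split <;> norm_num

theorem bt_ut {i : ℕ} (hi : i < 8) (h0 : i ≠ 0) (h2 : i ≠ 2) : bt i = ut i := by
  interval_cases i <;> first | rfl | exact absurd rfl h0 | exact absurd rfl h2

theorem fval_Lt {D : W4 → ℚ} (hL : D ∈ Lt) {i : ℕ} (hi : i < 8) (g : W4 ≃+ W4) (s : W4) :
    ∃ z : ℤ, fval i g s D = ut i * z := by
  rw [fval_std]
  refine dl_Lt (fun Q hQ => ?_) (Lt_std hL g s)
  have h1 := vals_ok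
  simp only [List.all_eq_true, List.mem_range, Bool.and_eq_true, List.any_eq_true,
    decide_eq_true_eq] at h1
  obtain ⟨⟨m, -, hm⟩, -⟩ := h1 Q hQ i hi
  exact ⟨m, by rw [hm]; ring⟩

theorem mv_dl2 {t : ℕ} {c : ℕ × ℕ × ℕ × ℕ} (hc : okc c = true) (ht : t < 16) :
    ∃ (g : W4 ≃+ W4) (s : W4), (∀ (D : W4 → ℚ) (l : List ℤ),
      dl (fun v => D (g v + s)) (mv l t c) = dl D l) ∧
      ∀ k < 16, g (pt k) + s = pt (lin c k ^^^ t) ∧ lin c k ^^^ t < 16 := by
  obtain ⟨hl, g, hg⟩ := okc_equiv hc
  refine ⟨g, pt t, fun D l => ?_, fun k hk => ⟨?_, Nat.xor_lt_two_pow (n := 4) (hl _) ht⟩⟩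
  · rw [dl_eq, dl_eq]
    let e : W4 ≃ W4 := g.toEquiv.trans (Equiv.addRight (pt t))
    rw [← Equiv.sum_comp e fun v => ((l.getD (ix v) 0 : ℤ) : ℚ) * D v]
    refine sum_congr rfl fun v _ => ?_
    have h1 : e v = g v + pt t := rfl
    rw [h1]
    unfold mv
    rw [getD_map_range _ (ix_lt v), hg, ← pt_xor, ix_pt]
    exact Nat.xor_lt_two_pow (n := 4) (hl _) ht
  · rw [hg, ix_pt k hk, ← pt_xor]

theorem ip_equiv (D F : W4 → ℚ) (e : W4 ≃ W4) : ip (fun v => D (e v)) (fun v => F (e v)) = ip D F := by
  unfold ip
  exact Equiv.sum_comp e fun v => D v * F v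

/-- removing a heavy plane -/
theorem heavy {D : W4 → ℚ} (hL : D ∈ Lt) (hD : Cq D) (hI : Ii D) (h12 : 12 ≤ ∑ v, D v)
    {P : Pl} {c : ℚ} {F : W4 → ℚ} (hP : okp P = true) (hc : 0 < c) (hF : F ∈ Pc)
    (hDe : D = fun v => c * ch P v + F v)
    (hip : ip D D ≤ (∑ v, D v) / 4 * ip D (ch P)) : Cq fun v => D v - ch P v := by
  intro i g s hi
  have e1 : fval i g s (fun v => D v - ch P v) = fval i g s D - fval i g s (ch P) := by
    have := fval_sub i g s D (ch P) 1
    simp only [one_mul] at this
    exact this
  rw [e1]
  by_contra hcon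
  push Not at hcon
  -- the moved plane
  obtain ⟨n1, n2, n3⟩ := okp_ne hP
  have einj : ∀ a b : W4, a ≠ b → g a + s ≠ g b + s := fun a b h h' =>
    h (g.injective (add_right_cancel h'))
  have hP1 := okp_of (einj _ _ n1) (einj _ _ n2) (einj _ _ n3)
  have hchP : (fun v => ch P (g.symm (v + s))) =
      ch (ix (g (pt P.1) + s), ix (g (pt P.2.1) + s), ix (g (pt P.2.2) + s)) :=
    chp_std _ _ _ g s
  obtain ⟨Q, hQ, hPQ⟩ := can hP1
  have hQ2 := PL_okp hQ
  have hfP : fval i g s (ch P) = fv (facT i) Q := by
    rw [fval_std, hchP, hPQ, dl_ch hQ2]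
  have hFnn : 0 ≤ fval i g s F := by
    rw [fval_std]
    refine dl_Pc_nonneg (fun Q hQ => ?_) ?_
    · have h1 := vals_ok
      simp only [List.all_eq_true, List.mem_range, Bool.and_eq_true, List.any_eq_true,
        decide_eq_true_eq] at h1
      obtain ⟨⟨m, -, hm⟩, -⟩ := h1 Q hQ i hi
      rw [hm]
      exact mul_nonneg (by positivity) (ut_pos i).le
    · have := Pc_comp g.symm (g.symm s) hF
      simpa only [map_add] using this
  have hsplit : fval i g s D = c * fval i g s (ch P) + fval i g s F := by
    rw [hDe]
    unfold fval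
    rw [mul_sum, ← sum_add_distrib]
    exact sum_congr rfl fun v _ => by ring
  obtain ⟨z, hz⟩ := fval_Lt hL hi g s
  have h1 := vals_ok
  simp only [List.all_eq_true, List.mem_range, Bool.and_eq_true, List.any_eq_true,
    decide_eq_true_eq, Bool.or_eq_true, Nat.ble_eq, Nat.beq_eq] at h1
  obtain ⟨⟨m, hm4, hm⟩, h2⟩ := h1 Q hQ i hi
  have hu := ut_pos i
  have huq : (0 : ℚ) < (ut i : ℚ) := by exact_mod_cast hu
  have hzm : z < m := by
    rw [hz, hfP, hm] at hcon
    push_cast at hcon
    have h3 : (ut i : ℚ) * ((z : ℚ) - m) < 0 := by linarith only [hcon]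
    by_contra h4
    push Not at h4
    have h5 : (0 : ℚ) ≤ (z : ℚ) - m := by
      have : (m : ℚ) ≤ (z : ℚ) := by exact_mod_cast h4
      linarith only [this]
    have h6 := mul_nonneg huq.le h5
    linarith only [h3, h6]
  have hz1 : 1 ≤ z := by
    by_contra h3
    push Not at h3
    have hz0 : z ≤ 0 := by omega
    have h4 : fval i g s D ≤ 0 := by
      rw [hz]
      exact mul_nonpos_of_nonneg_of_nonpos huq.le (by exact_mod_cast hz0)
    have h5 := hD i g s hi
    have h6 : fval i g s (ch P) ≤ 0 := by
      by_contra h7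
      push Not at h7
      have := mul_pos hc h7
      linarith only [this, hsplit, hFnn, h4]
    linarith only [hcon, h5, h6]
  have hgt : ¬ fv (facT i) Q ≤ ut i := by
    rw [hm]
    have : (2 : ℤ) ≤ (m : ℤ) := by omega
    nlinarith only [this, hu]
  rcases h2 with h2 | ⟨-, e, he, he1, he2⟩
  · exact hgt h2
  · subst he1
    have h3 := tabT_ok
    rw [List.all_eq_true] at h3
    have h4 := h3 e he
    unfold okT at h4
    simp only [List.all_eq_true, List.mem_range, Bool.and_eq_true, Bool.or_eq_true,
      decide_eq_true_eq, Nat.blt_eq, beq_iff_eq] at h4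
    obtain ⟨k1, k2, k3, k4⟩ := h4
    have h5 := k4 (z - 1).toNat (by omega)
    have hzz : (((z - 1).toNat : ℕ) : ℤ) = z - 1 := Int.toNat_of_nonneg (by omega)
    rw [hzz, he2] at h5
    rw [show z - 1 + 1 = z by ring] at h5
    rcases h5 with h5 | ⟨l1, l2, l3, l4⟩
    · rw [hm] at h5
      nlinarith only [h5, hzm, hu]
    · generalize hec : ecs.getD (e.2.2.1 + (z - 1).toNat) ec0 = ee at l2 l3 l4
      have hee : ee ∈ ecs := by
        rw [← hec, List.getD_eq_getElem?_getD, List.getElem?_eq_getElem l1]
        exact List.getElem_mem l1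
      have hok : okEC ee = true := by
        have := ecs_ok
        rw [List.all_eq_true] at this
        exact this ee hee
      obtain ⟨g', s', hg1, hg2⟩ := mv_dl2 k1 k2
      -- the moved functions
      have hI1 : Ii fun v => D (g.symm (v + s)) := by
        have := hI.comp g.symm (g.symm s)
        simpa only [map_add] using this
      have hI2 := hI1.comp g' s'
      have hs1 : ∑ v, D (g.symm (v + s)) = ∑ v, D v :=
        Equiv.sum_comp ((Equiv.addRight s).trans g.symm.toEquiv) D
      have hs2 : ∑ v, D (g.symm (g' v + s' + s)) = ∑ v, D v := by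
        rw [← hs1]
        exact Equiv.sum_comp (g'.toEquiv.trans (Equiv.addRight s')) fun v => D (g.symm (v + s))
      have hdl2 : dl (fun v => D (g.symm (g' v + s' + s))) (facT ee.i) = ee.s := by
        have h6 := hg1 (fun v => D (g.symm (v + s))) (facT e.1)
        rw [k3] at h6
        rw [l2, h6, ← fval_std, hz, l3]
        push_cast; ring
      have hen := energy hI2 (by
        show 12 ≤ ∑ v, D (g.symm (g' v + s' + s))
        rw [hs2]; exact h12) hok hdl2
      have hokee : okp ee.P = true := by
        unfold okEC at hok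
        simp only [Bool.and_eq_true] at hok
        exact hok.1
      have hchee : ch ee.P = fun v => ch Q (g' v + s') := by
        funext v
        rw [← pt_ix v, (hg2 _ (ix_lt v)).1, ch_pt hokee (ix_lt v),
          ch_pt hQ2 (hg2 _ (ix_lt v)).2, l4 _ (ix_lt v)]
      have hip1 : ip (fun v => D (g.symm (g' v + s' + s))) (ch ee.P) = ip D (ch P) := by
        rw [hchee]
        have h6 := ip_equiv (fun v => D (g.symm (v + s))) (ch Q)
          (g'.toEquiv.trans (Equiv.addRight s'))
        have h7 : ip (fun v => D (g.symm (g' v + s' + s))) (fun v => ch Q (g' v + s')) =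
            ip (fun v => D (g.symm (v + s))) (ch Q) := h6
        rw [h7, ← hPQ, ← hchP]
        exact ip_equiv D (ch P) ((Equiv.addRight s).trans g.symm.toEquiv)
      have hip2 : ip (fun v => D (g.symm (g' v + s' + s))) (fun v => D (g.symm (g' v + s' + s))) =
          ip D D := by
        have h6 := ip_equiv D D ((g'.toEquiv.trans (Equiv.addRight s')).trans
          ((Equiv.addRight s).trans g.symm.toEquiv))
        exact h6
      have hen2 : (∑ v, D (g.symm (g' v + s' + s))) / 4 *
          ip (fun v => D (g.symm (g' v + s' + s))) (ch ee.P) <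
          ip (fun v => D (g.symm (g' v + s' + s))) (fun v => D (g.symm (g' v + s' + s))) := hen
      rw [hs2, hip1, hip2] at hen2
      exact absurd hip (not_le.2 hen2)

theorem Lt_int {D : W4 → ℚ} (hL : D ∈ Lt) (v : W4) : ∃ z : ℤ, D v = z := by
  obtain ⟨z, hz⟩ := dl_Lt (l := un (ix v)) (m := 1) (fun Q _ => ⟨fv (un (ix v)) Q, by ring⟩) hL
  refine ⟨z, ?_⟩
  rw [dl_un D (ix_lt v), pt_ix] at hz
  rw [hz]; push_cast; ring

/-- the planes form a Hilbert basis -/
theorem main_int : ∀ N : ℕ, ∀ D ∈ Lt, Cq D → ∑ v, D v = 4 * N → D ∈ Ps := by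
  intro N
  induction N with
  | zero =>
    intro D _ hD hs
    rw [eq_zero_of_sum hD.nn (by rw [hs]; simp)]
    exact zero_mem _
  | succ N ih =>
    intro D hL hD hs
    by_cases hex : ∃ (i : ℕ) (g : W4 ≃+ W4) (s : W4), i < 8 ∧ i ≠ 0 ∧ i ≠ 2 ∧ fval i g s D = 0
    · obtain ⟨i, g, s, hi, h0, h2, h⟩ := hex
      exact tight_int hL hD hs hi h0 h2 g s h
    · push Not at hex
      have hI : Ii D := by
        intro i g s hi
        by_cases h0 : i = 0
        · rw [h0]; exact_mod_cast hD 0 g s (by norm_num)
        · by_cases h2 : i = 2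
          · rw [h2]; exact_mod_cast hD 2 g s (by norm_num)
          · have h3 := hex i g s hi h0 h2
            have h4 := hD i g s hi
            obtain ⟨z, hz⟩ := fval_Lt hL hi g s
            have huq : (0 : ℚ) < (ut i : ℚ) := by exact_mod_cast ut_pos i
            rw [bt_ut hi h0 h2]
            have h5 : 0 < fval i g s D := lt_of_le_of_ne h4 (Ne.symm h3)
            rw [hz] at h5 ⊢
            have h6 : (0 : ℚ) < (z : ℚ) := by
              by_contra h7
              push Not at h7
              have := mul_nonpos_of_nonneg_of_nonpos huq.le h7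
              linarith only [this, h5]
            have h7 : (1 : ℚ) ≤ (z : ℚ) := by
              have : 0 < z := by exact_mod_cast h6
              exact_mod_cast this
            have := mul_le_mul_of_nonneg_left h7 huq.le
            linarith only [this]
      rcases avg D (comp hD) with h0 | ⟨P, c, F, hP, hc, hF, hDe, hip⟩
      · rw [h0]; exact zero_mem _
      · have hL' : (fun v => D v - ch P v) ∈ Lt :=
          sub_mem hL (AddSubgroup.subset_closure (ch_PS hP))
        have hsum : ∑ v, (D v - ch P v) = 4 * (N : ℚ) := by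
          rw [sum_sub_distrib, hs, sum_ch hP]; push_cast; ring
        have h4 : D = (fun v => D v - ch P v) + ch P := by
          funext v; rw [Pi.add_apply]; ring
        suffices h : (fun v => D v - ch P v) ∈ Ps by
          rw [h4]
          exact add_mem h (AddSubmonoid.subset_closure (ch_PS hP))
        have hone : ∀ v, D v ≤ N := by
          intro v
          have h5 := hI 1 (AddEquiv.refl W4) v (by norm_num)
          rw [fval_std] at h5
          have h6 : facT 1 = t1 0 := by decide +kernel
          rw [h6, dl_t1 _ (by norm_num)] at h5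
          have h7 : ∑ w, D ((AddEquiv.refl W4).symm (w + v)) = ∑ w, D w :=
            Equiv.sum_comp (Equiv.addRight v) D
          rw [h7, hs] at h5
          have h8 : (AddEquiv.refl W4).symm (pt 0 + v) = v := by
            rw [pt_zero, zero_add]; rfl
          rw [h8] at h5
          have h9 : ((bt 1 : ℤ) : ℚ) = 4 := by norm_num [bt]
          rw [h9] at h5
          push_cast at h5
          linarith only [h5]
        by_cases hN : 2 ≤ N
        · refine ih _ hL' (heavy hL hD hI ?_ hP hc hF hDe hip) hsum
          rw [hs]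
          have : (2 : ℚ) ≤ (N : ℚ) := by exact_mod_cast hN
          push_cast
          linarith only [this]
        · interval_cases N
          · -- no such function
            exfalso
            have h5 : ∀ v, D v = 0 := fun v => by
              have := hone v
              have h6 := hD.nn v
              push_cast at this
              linarith only [this, h6]
            rw [sum_congr rfl fun v _ => h5 v] at hs
            simp at hs
          · refine four hL' (fun v => ?_) (by rw [hsum]; norm_num)
            obtain ⟨z, hz⟩ := Lt_int hL v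
            have h5 := hone v
            have h6 := hD.nn v
            rw [hz] at h5 h6
            have h7 : z ≤ 1 := by exact_mod_cast h5
            have h8 : 0 ≤ z := by exact_mod_cast h6
            have h9 : ch P v = 0 ∨ ch P v = 1 := by
              unfold ch chp
              split_ifs
              · right; rfl
              · left; rfl
            rcases h9 with h9 | h9
            · rw [h9, hz]
              rcases (by omega : z = 0 ∨ z = 1) with rfl | rfl
              · left; norm_num
              · right; norm_num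
            · rw [h9, hz]
              have h10 : 0 < z := by
                have h11 := congrFun hDe v
                rw [h9, hz] at h11
                have h12 := Pc_nonneg hF v
                have h13 : (0 : ℚ) < (z : ℚ) := by linarith only [h11, h12, hc]
                exact_mod_cast h13
              left
              have : z = 1 := by omega
              rw [this]; norm_num

end Pool.Agent.helper25.AG
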