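import Pool.Agent.helper25.AG.Energy

set_option autoImplicit false
set_option linter.unusedSectionVars false
set_option linter.unusedVariables false

/-!
# Project AG: the lattice points of the cone of the planes
-/

namespace Pool.Agent.helper25.AG

open Finset Pool.Agent.helper25.PV

/-- the indicator functions of the planes -/
def PS : Set (W4 → ℚ) := {x | ∃ p q s : W4, p ≠ q ∧ p ≠ s ∧ q ≠ s ∧ x = chp p q s}

/-- the lattice of the planes -/
def Lt : AddSubgroup (W4 → ℚ) := AddSubgroup.closure PS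

/-- the semigroup of the planes -/
def Ps : AddSubmonoid (W4 → ℚ) := AddSubmonoid.closure PS

theorem PS_comp {x : W4 → ℚ} (hx : x ∈ PS) (g : W4 ≃+ W4) (t : W4) :
    (fun v => x (g v + t)) ∈ PS := by
  obtain ⟨p, q, s, h1, h2, h3, rfl⟩ := hx
  exact ⟨_, _, _, fun h => h1 (add_right_cancel (g.symm.injective h)),
    fun h => h2 (add_right_cancel (g.symm.injective h)),
    fun h => h3 (add_right_cancel (g.symm.injective h)), chp_comp p q s g t⟩

theorem Lt_comp {D : W4 → ℚ} (h : D ∈ Lt) (g : W4 ≃+ W4) (t : W4) :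
    (fun v => D (g v + t)) ∈ Lt := by
  induction h using AddSubgroup.closure_induction with
  | mem x h => exact AddSubgroup.subset_closure (PS_comp h g t)
  | zero => exact zero_mem _
  | add x y _ _ h1 h2 => exact add_mem h1 h2
  | neg x _ h1 => exact neg_mem h1

theorem Ps_comp {D : W4 → ℚ} (h : D ∈ Ps) (g : W4 ≃+ W4) (t : W4) :
    (fun v => D (g v + t)) ∈ Ps := by
  induction h using AddSubmonoid.closure_induction with
  | mem x h => exact AddSubmonoid.subset_closure (PS_comp h g t)
  | zero => exact zero_mem _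
  | add x y _ _ h1 h2 => exact add_mem h1 h2

theorem Lt_std {D : W4 → ℚ} (h : D ∈ Lt) (g : W4 ≃+ W4) (t : W4) :
    (fun v => D (g.symm (v + t))) ∈ Lt := by
  have := Lt_comp h g.symm (g.symm t)
  simpa only [map_add] using this

theorem Ps_of_std {D : W4 → ℚ} (g : W4 ≃+ W4) (t : W4)
    (h : (fun v => D (g.symm (v + t))) ∈ Ps) : D ∈ Ps := by
  have h1 := Ps_comp h g t
  have h2 : (fun v => D (g.symm (g v + t + t))) = D := by
    funext v
    rw [add_assoc, W_add_self, add_zero, AddEquiv.symm_apply_apply]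
  rw [h2] at h1
  exact h1

theorem PS_ch {x : W4 → ℚ} (hx : x ∈ PS) : ∃ P, okp P = true ∧ x = ch P := by
  obtain ⟨p, q, s, h1, h2, h3, rfl⟩ := hx
  exact ⟨_, okp_of h1 h2 h3, (ch_ix p q s).symm⟩

theorem ch_PS {P : Pl} (h : okp P = true) : ch P ∈ PS := by
  obtain ⟨h4, h5, h6⟩ := okp_ne h
  exact ⟨_, _, _, h4, h5, h6, rfl⟩

theorem fv_eq {P Q : Pl} (hP : okp P = true) (hQ : okp Q = true) (h : ch P = ch Q)
    (l : List ℤ) : fv l P = fv l Q := by
  have h1 := dl_ch hP l
  have h2 := dl_ch hQ l
  rw [h, h2] at h1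
  exact_mod_cast h1.symm

theorem PL_okp {Q : Pl} (h : Q ∈ PL) : okp Q = true := by
  have := PL_ok
  rw [List.all_eq_true] at this
  exact this Q h

theorem dl_Lt {l : List ℤ} {m : ℤ} (h : ∀ Q ∈ PL, ∃ z : ℤ, fv l Q = m * z) {D : W4 → ℚ}
    (hD : D ∈ Lt) : ∃ z : ℤ, dl D l = m * z := by
  induction hD using AddSubgroup.closure_induction with
  | mem x hx =>
    obtain ⟨P, hP, rfl⟩ := PS_ch hx
    obtain ⟨Q, hQ, hPQ⟩ := can hP
    obtain ⟨z, hz⟩ := h Q hQ
    refine ⟨z, ?_⟩
    rw [hPQ, dl_ch (PL_okp hQ), hz]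
    push_cast; ring
  | zero => exact ⟨0, by rw [dl_eq]; simp⟩
  | add x y _ _ h1 h2 =>
    obtain ⟨a, ha⟩ := h1
    obtain ⟨b, hb⟩ := h2
    refine ⟨a + b, ?_⟩
    have := dl_add x y l
    have h3 : dl (x + y) l = dl x l + dl y l := this
    rw [h3, ha, hb]; push_cast; ring
  | neg x _ h1 =>
    obtain ⟨a, ha⟩ := h1
    refine ⟨-a, ?_⟩
    have h2 := dl_mul (-1) x l
    have h3 : (fun v => -1 * x v) = -x := by funext v; simp
    rw [h3, ha] at h2
    rw [h2]; push_cast; ring

theorem Pc_nonneg {D : W4 → ℚ} (h : D ∈ Pc) : ∀ v, 0 ≤ D v := by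
  induction h using AddSubmonoid.closure_induction with
  | mem x hx =>
    obtain ⟨c, p, q, s, hc, -, -, -, rfl⟩ := hx
    intro v
    dsimp only
    unfold chp
    split_ifs <;> simp [hc]
  | zero => intro v; exact le_rfl
  | add x y _ _ h1 h2 => intro v; exact add_nonneg (h1 v) (h2 v)

theorem sum_ch {P : Pl} (h : okp P = true) : ∑ v, ch P v = 4 := by
  obtain ⟨h4, h5, h6⟩ := okp_ne h
  have := sum_chp h4 h5 h6 (fun _ => 1)
  simp only [one_mul] at this
  unfold ch
  rw [this]; norm_num

theorem dl_Pc_nonneg {l : List ℤ} (h : ∀ Q ∈ PL, 0 ≤ fv l Q) {F : W4 → ℚ} (hF : F ∈ Pc) :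
    0 ≤ dl F l := by
  induction hF using AddSubmonoid.closure_induction with
  | mem x hx =>
    obtain ⟨c, p, q, s, hc, h1, h2, h3, rfl⟩ := hx
    have hP := okp_of h1 h2 h3
    obtain ⟨Q, hQ, hPQ⟩ := can hP
    rw [dl_mul, ← ch_ix, hPQ, dl_ch (PL_okp hQ)]
    exact mul_nonneg hc (by exact_mod_cast h Q hQ)
  | zero => rw [dl_eq]; simp
  | add x y _ _ h1 h2 =>
    have h3 : dl (x + y) l = dl x l + dl y l := dl_add x y l
    rw [h3]; exact add_nonneg h1 h2

/-- a heavy plane of a decomposition -/
theorem avg (G : W4 → ℚ) {D : W4 → ℚ} (hD : D ∈ Pc) : D = 0 ∨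
    ∃ (P : Pl) (c : ℚ) (F : W4 → ℚ), okp P = true ∧ 0 < c ∧ F ∈ Pc ∧
      (D = fun v => c * ch P v + F v) ∧ ip G D ≤ (∑ v, D v) / 4 * ip G (ch P) := by
  induction hD using AddSubmonoid.closure_induction with
  | mem x hx =>
    obtain ⟨c, p, q, s, hc, h1, h2, h3, rfl⟩ := hx
    rcases hc.lt_or_eq with h | h
    · right
      have hP := okp_of h1 h2 h3
      refine ⟨_, c, 0, hP, h, zero_mem _, ?_, ?_⟩
      · rw [ch_ix]; funext v; simp
      · rw [← mul_sum, ← ch_ix, sum_ch hP]
        have : ip G (fun v => c * ch (ix p, ix q, ix s) v) = c * ip G (ch (ix p, ix q, ix s)) := by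
          unfold ip
          rw [mul_sum]
          exact sum_congr rfl fun v _ => by ring
        rw [this]
        exact le_of_eq (by ring)
    · left
      funext v
      rw [← h]; simp
  | zero => exact Or.inl rfl
  | add x y hx hy h1 h2 =>
    have ipa : ip G (x + y) = ip G x + ip G y := by
      unfold ip
      rw [← sum_add_distrib]
      exact sum_congr rfl fun v _ => by rw [Pi.add_apply]; ring
    have sa : ∑ v, (x + y) v = ∑ v, x v + ∑ v, y v := by
      rw [← sum_add_distrib]; rfl
    rcases h1 with rfl | ⟨P, c, F, k1, k2, k3, k4, k5⟩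
    · rw [zero_add]; exact h2
    · rcases h2 with rfl | ⟨P', c', F', l1, l2, l3, l4, l5⟩
      · right
        rw [add_zero]
        exact ⟨P, c, F, k1, k2, k3, k4, k5⟩
      · right
        have sx : 0 ≤ ∑ v, x v := sum_nonneg fun v _ => Pc_nonneg hx v
        have sy : 0 ≤ ∑ v, y v := sum_nonneg fun v _ => Pc_nonneg hy v
        rcases le_total (ip G (ch P')) (ip G (ch P)) with h | h
        · refine ⟨P, c, F + y, k1, k2, add_mem k3 hy, ?_, ?_⟩
          · funext v
            have := congrFun k4 v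
            rw [Pi.add_apply, Pi.add_apply, this]; ring
          · rw [ipa, sa]
            have := mul_le_mul_of_nonneg_left h sy
            linarith only [k5, l5, this]
        · refine ⟨P', c', F' + x, l1, l2, add_mem l3 hx, ?_, ?_⟩
          · funext v
            have := congrFun l4 v
            rw [Pi.add_apply, Pi.add_apply, this]; ring
          · rw [ipa, sa]
            have := mul_le_mul_of_nonneg_left h sx
            linarith only [k5, l5, this]

/-! ### faces with values zero and one -/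

def okZP (w : List ℤ) (R : List (List ℤ)) (P : Pl) : Bool := decide (0 ≤ fv w P) &&
  R.all fun l => decide (0 ≤ fv l P) && (decide (fv l P % 4 = 0) &&
    (decide (fv w P ≠ 0) || decide (fv l P ≤ 4)))

/-- the planes with the numbers from `a` to `a + b` -/
def PLp (a b : ℕ) : List Pl := (PL.drop a).take b

theorem PL_parts : PL = PLp 0 28 ++ (PLp 28 28 ++ (PLp 56 28 ++ (PLp 84 28 ++ PLp 112 28))) := by
  decide +kernel

theorem all_PL {f : Pl → Bool} (h0 : (PLp 0 28).all f = true) (h1 : (PLp 28 28).all f = true)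
    (h2 : (PLp 56 28).all f = true) (h3 : (PLp 84 28).all f = true)
    (h4 : (PLp 112 28).all f = true) : ∀ P ∈ PL, f P = true := by
  rw [List.all_eq_true] at h0 h1 h2 h3 h4
  intro P hP
  rw [PL_parts, List.mem_append, List.mem_append, List.mem_append, List.mem_append] at hP
  rcases hP with h | h | h | h | h
  · exact h0 P h
  · exact h1 P h
  · exact h2 P h
  · exact h3 P h
  · exact h4 P h

def okZ (w : List ℤ) (R : List (List ℤ)) : Prop := ∀ P ∈ PL, okZP w R P = true

theorem eq_zero_of_sum {D : W4 → ℚ} (h : ∀ v, 0 ≤ D v) (h2 : ∑ v, D v = 0) : D = 0 := by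
  rw [sum_eq_zero_iff_of_nonneg fun v _ => h v] at h2
  funext v
  exact h2 v (mem_univ v)

theorem face_int {w : List ℤ} {R : List (List ℤ)} (hok : okZ w R)
    (hcone : ∀ F : W4 → ℚ, (∀ l ∈ R, 0 ≤ dl F l) → dl F w = 0 → F ∈ Pc) :
    ∀ N : ℕ, ∀ D ∈ Lt, ∑ v, D v = 4 * N → (∀ l ∈ R, 0 ≤ dl D l) → dl D w = 0 → D ∈ Ps := by
  unfold okZ okZP at hok
  simp only [List.all_eq_true, Bool.and_eq_true, decide_eq_true_eq, Bool.or_eq_true] at hok
  intro N
  induction N with
  | zero =>
    intro D _ hs hR hw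
    have h1 := hcone D hR hw
    rw [eq_zero_of_sum (Pc_nonneg h1) (by rw [hs]; simp)]
    exact zero_mem _
  | succ N ih =>
    intro D hL hs hR hw
    have h1 := hcone D hR hw
    rcases avg 0 h1 with h2 | ⟨P, c, F, hP, hc, hF, hDe, -⟩
    · rw [h2]; exact zero_mem _
    · obtain ⟨Q, hQ, hPQ⟩ := can hP
      have hQ2 := PL_okp hQ
      obtain ⟨hw0, hR0⟩ := hok Q hQ
      have hval : ∀ l : List ℤ, dl D l = c * fv l Q + dl F l := by
        intro l
        rw [hDe, dl_add (fun v => c * ch P v) F, dl_mul, hPQ, dl_ch hQ2]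
      have hFw : 0 ≤ dl F w := dl_Pc_nonneg (fun Q hQ => (hok Q hQ).1) hF
      have hw0q : (0 : ℚ) ≤ (fv w Q : ℚ) := by exact_mod_cast hw0
      have hwQ : fv w Q = 0 := by
        have h3 := hval w
        rw [hw] at h3
        have h4 := mul_nonneg hc.le hw0q
        have h5 : c * (fv w Q : ℚ) = 0 := by linarith only [h3, h4, hFw]
        rcases mul_eq_zero.1 h5 with h6 | h6
        · exact absurd h6 hc.ne'
        · exact_mod_cast h6
      have hmem : (fun v => D v - ch P v) ∈ Lt := sub_mem hL (AddSubgroup.subset_closure (ch_PS hP))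
      have hsum : ∑ v, (D v - ch P v) = 4 * (N : ℚ) := by
        rw [sum_sub_distrib, hs, sum_ch hP]; push_cast; ring
      have hdl : ∀ l : List ℤ, dl (fun v => D v - ch P v) l = dl D l - fv l Q := by
        intro l
        rw [dl_sub, hPQ, dl_ch hQ2]
      have h3 := ih _ hmem hsum (fun l hl => ?_) (by rw [hdl, hw, hwQ]; norm_num)
      · have h4 : D = (fun v => D v - ch P v) + ch P := by
          funext v; rw [Pi.add_apply]; ring
        rw [h4]
        exact add_mem h3 (AddSubmonoid.subset_closure (ch_PS hP))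
      · rw [hdl]
        obtain ⟨a1, a2, a3⟩ := hR0 l hl
        have a4 : fv l Q ≤ 4 := by
          rcases a3 with a3 | a3
          · exact absurd hwQ a3
          · exact a3
        obtain ⟨z, hz⟩ := dl_Lt (l := l) (m := 4) (fun Q hQ => by
          obtain ⟨b1, b2, b3⟩ := (hok Q hQ).2 l hl
          exact ⟨fv l Q / 4, by omega⟩) hL
        rcases (by omega : fv l Q = 0 ∨ fv l Q = 4) with h5 | h5
        · rw [h5]; have := hR l hl; push_cast; linarith only [this]
        · have h6 : 0 ≤ dl F l := dl_Pc_nonneg (fun Q hQ => ((hok Q hQ).2 l hl).1) hF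
          have h7 := hval l
          rw [h5, hz] at h7
          have h8 : (0 : ℚ) < (z : ℚ) := by
            push_cast at h7
            linarith only [h7, h6, hc]
          have h9 : (1 : ℚ) ≤ (z : ℚ) := by
            have : 0 < z := by exact_mod_cast h8
            exact_mod_cast this
          rw [hz, h5]
          push_cast
          linarith only [h9]

/-- the face of type 1 -/
def R1 : List (List ℤ) := ((List.range 15).map fun x => vs 4 (un (x + 1))) ++
  (((List.range 15).map fun h => vs 2 (t2 0 (h + 1))) ++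
    (List.range 256).map fun i => bif pr ((i % 16) &&& (i / 16)) then vs 2 (t2 (i % 16) (i / 16))
      else [])

theorem cone1 (F : W4 → ℚ) (hR : ∀ l ∈ R1, 0 ≤ dl F l) (hw : dl F (t1 0) = 0) : F ∈ Pc := by
  rw [dl_t1 F (by norm_num), pt_zero] at hw
  have hnn : ∀ x < 16, x ≠ 0 → 0 ≤ F (pt x) := by
    intro x hx hx0
    have h1 := hR (vs 4 (un x)) (by
      unfold R1
      rw [List.mem_append, List.mem_map]
      exact Or.inl ⟨x - 1, List.mem_range.2 (by omega), by rw [show x - 1 + 1 = x by omega]⟩)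
    rw [dl_vs, dl_un F hx] at h1
    push_cast at h1
    linarith only [h1]
  have h0 : 0 ≤ F 0 := by
    have h1 : ∑ w, F w = F 0 + ∑ w ∈ univ.erase 0, F w := (add_sum_erase _ _ (mem_univ _)).symm
    have h2 : 0 ≤ ∑ w ∈ univ.erase (0 : W4), F w := by
      refine sum_nonneg fun w hw => ?_
      have hw := (mem_erase.1 hw).1
      rw [← pt_ix w]
      exact hnn _ (ix_lt w) (fun h => hw (by rw [← pt_ix w, h, pt_zero]))
    linarith only [h1, h2, hw]
  have hall : ∀ v, 0 ≤ F v := by
    apply forall_pt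
    intro x hx
    by_cases hx0 : x = 0
    · rw [hx0, pt_zero]; exact h0
    · exact hnn x hx hx0
  refine Pc0_le (S1 F hall (by linarith only [hw]) (fun h hh h0 => ?_)
    (fun h hh p hp hpr => ?_))
  · have h1 := hR (vs 2 (t2 0 h)) (by
      unfold R1
      rw [List.mem_append, List.mem_append, List.mem_map, List.mem_map]
      exact Or.inr (Or.inl ⟨h - 1, List.mem_range.2 (by omega), by
        rw [show h - 1 + 1 = h by omega]⟩))
    rw [dl_vs, dl_t2 F (by norm_num) hh, pt_zero, Nat.zero_and] at h1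
    have : pr 0 = false := by decide
    rw [this] at h1
    push_cast at h1
    linarith only [h1]
  · have h1 := hR (vs 2 (t2 p h)) (by
      unfold R1
      rw [List.mem_append, List.mem_append, List.mem_map, List.mem_map, List.mem_map]
      refine Or.inr (Or.inr ⟨16 * h + p, List.mem_range.2 (by omega), ?_⟩)
      rw [show (16 * h + p) % 16 = p by omega, show (16 * h + p) / 16 = h by omega, hpr]
      rfl)
    rw [dl_vs, dl_t2 F hp hh, hpr] at h1
    push_cast at h1
    linarith only [h1]

theorem okZ1_0 : (PLp 0 28).all (okZP (t1 0) R1) = true := by decide +kernel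

theorem okZ1_1 : (PLp 28 28).all (okZP (t1 0) R1) = true := by decide +kernel

theorem okZ1_2 : (PLp 56 28).all (okZP (t1 0) R1) = true := by decide +kernel

theorem okZ1_3 : (PLp 84 28).all (okZP (t1 0) R1) = true := by decide +kernel

theorem okZ1_4 : (PLp 112 28).all (okZP (t1 0) R1) = true := by decide +kernel

theorem okZ1 : okZ (t1 0) R1 := all_PL okZ1_0 okZ1_1 okZ1_2 okZ1_3 okZ1_4

theorem okZ3_0 : (PLp 0 28).all (okZP (facT 3) R3) = true := by decide +kernel

theorem okZ3_1 : (PLp 28 28).all (okZP (facT 3) R3) = true := by decide +kernel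

theorem okZ3_2 : (PLp 56 28).all (okZP (facT 3) R3) = true := by decide +kernel

theorem okZ3_3 : (PLp 84 28).all (okZP (facT 3) R3) = true := by decide +kernel

theorem okZ3_4 : (PLp 112 28).all (okZP (facT 3) R3) = true := by decide +kernel

theorem okZ3 : okZ (facT 3) R3 := all_PL okZ3_0 okZ3_1 okZ3_2 okZ3_3 okZ3_4

theorem okZ4_0 : (PLp 0 28).all (okZP (facT 4) (R4.drop 1)) = true := by decide +kernel

theorem okZ4_1 : (PLp 28 28).all (okZP (facT 4) (R4.drop 1)) = true := by decide +kernel

theorem okZ4_2 : (PLp 56 28).all (okZP (facT 4) (R4.drop 1)) = true := by decide +kernel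

theorem okZ4_3 : (PLp 84 28).all (okZP (facT 4) (R4.drop 1)) = true := by decide +kernel

theorem okZ4_4 : (PLp 112 28).all (okZP (facT 4) (R4.drop 1)) = true := by decide +kernel

theorem okZ4 : okZ (facT 4) (R4.drop 1) := all_PL okZ4_0 okZ4_1 okZ4_2 okZ4_3 okZ4_4

theorem okZ5_0 : (PLp 0 28).all (okZP (facT 5) (R5.drop 1)) = true := by decide +kernel

theorem okZ5_1 : (PLp 28 28).all (okZP (facT 5) (R5.drop 1)) = true := by decide +kernel

theorem okZ5_2 : (PLp 56 28).all (okZP (facT 5) (R5.drop 1)) = true := by decide +kernel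

theorem okZ5_3 : (PLp 84 28).all (okZP (facT 5) (R5.drop 1)) = true := by decide +kernel

theorem okZ5_4 : (PLp 112 28).all (okZP (facT 5) (R5.drop 1)) = true := by decide +kernel

theorem okZ5 : okZ (facT 5) (R5.drop 1) := all_PL okZ5_0 okZ5_1 okZ5_2 okZ5_3 okZ5_4

theorem okZ6_0 : (PLp 0 28).all (okZP (facT 6) (R6.drop 1)) = true := by decide +kernel

theorem okZ6_1 : (PLp 28 28).all (okZP (facT 6) (R6.drop 1)) = true := by decide +kernel

theorem okZ6_2 : (PLp 56 28).all (okZP (facT 6) (R6.drop 1)) = true := by decide +kernel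

theorem okZ6_3 : (PLp 84 28).all (okZP (facT 6) (R6.drop 1)) = true := by decide +kernel

theorem okZ6_4 : (PLp 112 28).all (okZP (facT 6) (R6.drop 1)) = true := by decide +kernel

theorem okZ6 : okZ (facT 6) (R6.drop 1) := all_PL okZ6_0 okZ6_1 okZ6_2 okZ6_3 okZ6_4

theorem okZ7_0 : (PLp 0 28).all (okZP (facT 7) (R7.drop 1)) = true := by decide +kernel

theorem okZ7_1 : (PLp 28 28).all (okZP (facT 7) (R7.drop 1)) = true := by decide +kernel

theorem okZ7_2 : (PLp 56 28).all (okZP (facT 7) (R7.drop 1)) = true := by decide +kernel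

theorem okZ7_3 : (PLp 84 28).all (okZP (facT 7) (R7.drop 1)) = true := by decide +kernel

theorem okZ7_4 : (PLp 112 28).all (okZP (facT 7) (R7.drop 1)) = true := by decide +kernel

theorem okZ7 : okZ (facT 7) (R7.drop 1) := all_PL okZ7_0 okZ7_1 okZ7_2 okZ7_3 okZ7_4

theorem R1_nonneg {D : W4 → ℚ} (hD : Cq D) : ∀ l ∈ R1, 0 ≤ dl D l := by
  intro l hl
  unfold R1 at hl
  rw [List.mem_append, List.mem_append, List.mem_map, List.mem_map, List.mem_map] at hl
  rcases hl with ⟨x, hx, rfl⟩ | ⟨h, hh, rfl⟩ | ⟨i, hi, rfl⟩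
  · have hx := List.mem_range.1 hx
    rw [dl_vs, dl_un D (by omega)]
    have := hD.nn (pt (x + 1))
    push_cast; linarith only [this]
  · have hh := List.mem_range.1 hh
    rw [dl_vs]
    have := t2_nonneg hD (v := 0) (by norm_num) (h := h + 1) (by omega) (by omega)
    push_cast; linarith only [this]
  · have hi := List.mem_range.1 hi
    cases hp : pr ((i % 16) &&& (i / 16)) with
    | false => simp only [cond_false]; rw [dl_nil]
    | true =>
      simp only [cond_true]
      have h0 : i / 16 ≠ 0 := by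
        intro h0
        rw [h0, Nat.and_zero] at hp
        exact absurd hp (by decide)
      rw [dl_vs]
      have := t2_nonneg hD (v := i % 16) (by omega) (h := i / 16) (by omega) h0
      push_cast; linarith only [this]

/-- the lattice points of the faces of the types 1 and 3 to 7 -/
theorem tight_int {D : W4 → ℚ} (hL : D ∈ Lt) (hD : Cq D) {N : ℕ} (hs : ∑ v, D v = 4 * N)
    {i : ℕ} (hi : i < 8) (h0 : i ≠ 0) (h2 : i ≠ 2) (g : W4 ≃+ W4) (s : W4)
    (h : fval i g s D = 0) : D ∈ Ps := by
  apply Ps_of_std g s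
  have hD' := hD.std g s
  have hL' := Lt_std hL g s
  have hs' : ∑ v, D (g.symm (v + s)) = 4 * N := by
    rw [← hs]
    exact Equiv.sum_comp ((Equiv.addRight s).trans g.symm.toEquiv) D
  rw [fval_std] at h
  interval_cases i
  · exact absurd rfl h0
  · exact face_int okZ1 cone1 N _ hL' hs' (R1_nonneg hD') (by
      rw [show t1 0 = facT 1 by decide +kernel]; exact h)
  · exact absurd rfl h2
  · refine face_int okZ3 (fun F hR hw => S3 hR ?_) N _ hL' hs' (chkR_sound okR3 hD') h
    rw [show w3 = facT 3 by decide +kernel]; exact hw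
  · refine face_int okZ4 (fun F hR hw => root_sound okT4 ok4 (fun j hj => ?_) hR) N _ hL' hs'
      (chkR_sound okR4 hD') h
    interval_cases j
    rw [show R4.getD 0 [] = facT 4 by decide +kernel]; exact hw
  · refine face_int okZ5 (fun F hR hw => root_sound okT5 ok5 (fun j hj => ?_) hR) N _ hL' hs'
      (chkR_sound okR5 hD') h
    interval_cases j
    rw [show R5.getD 0 [] = facT 5 by decide +kernel]; exact hw
  · refine face_int okZ6 (fun F hR hw => root_sound okT6 ok6 (fun j hj => ?_) hR) N _ hL' hs'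
      (chkR_sound okR6 hD') h
    interval_cases j
    rw [show R6.getD 0 [] = facT 6 by decide +kernel]; exact hw
  · refine face_int okZ7 (fun F hR hw => root_sound okT7 ok7 (fun j hj => ?_) hR) N _ hL' hs'
      (chkR_sound okR7 hD') h
    interval_cases j
    rw [show R7.getD 0 [] = facT 7 by decide +kernel]; exact hw

end Pool.Agent.helper25.AG
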