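import Pool.Agent.helper25.AG.Mat

set_option autoImplicit false
set_option linter.unusedSectionVars false
set_option linter.unusedVariables false

/-!
# Project AG: the classification of the paving matroids of rank at least four
-/

namespace Pool.Agent.helper25.PV

open Finset Pool.Agent.helper9.HB49

variable {α : Type*} {M : Matroid α} [M.Finite] {r : ℕ}

theorem Pv.main6 (h : Pv M r) (h4 : 4 ≤ r) :
    CircuitsHilbert M ↔ M.E.ncard ≤ r + 2 ∨ TU M r ∨ TC M r ∨ TS M r ∨ AG23 M ∨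
      PGT M 3 ∨ AGT M 3 ∨ PGT M 4 ∨ AGT M 4 := by
  classical
  constructor
  · exact h.necess4 h4
  · by_cases hA : AGT M 4
    · exact fun _ => AG.hilbert4 hA
    · rintro (h1 | h1 | h1 | h1 | h1 | h1 | h1 | h1 | h1)
      · exact (h.main5 h4 hA).2 (Or.inl h1)
      · exact (h.main5 h4 hA).2 (Or.inr (Or.inl h1))
      · exact (h.main5 h4 hA).2 (Or.inr (Or.inr (Or.inl h1)))
      · exact (h.main5 h4 hA).2 (Or.inr (Or.inr (Or.inr (Or.inl h1))))
      · exact (h.main5 h4 hA).2 (Or.inr (Or.inr (Or.inr (Or.inr (Or.inl h1)))))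
      · exact (h.main5 h4 hA).2 (Or.inr (Or.inr (Or.inr (Or.inr (Or.inr (Or.inl h1))))))
      · exact (h.main5 h4 hA).2 (Or.inr (Or.inr (Or.inr (Or.inr (Or.inr (Or.inr (Or.inl h1)))))))
      · exact (h.main5 h4 hA).2 (Or.inr (Or.inr (Or.inr (Or.inr (Or.inr (Or.inr (Or.inr h1)))))))
      · exact absurd h1 hA

end Pool.Agent.helper25.PV
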