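import Pool.Agent.helper25.AG.Fin

set_option autoImplicit false
set_option linter.unusedSectionVars false
set_option linter.unusedVariables false

/-!
# Project AG: the matroid of the planes of the affine space of dimension four
-/

namespace Pool.Agent.helper25.AG

open Set Pool.Agent.helper25.PV Pool.Agent.helper9.HB49

theorem Pc_cq {D : W4 → ℚ} (h : D ∈ Pc) : Cq D := by
  induction h using AddSubmonoid.closure_induction with
  | mem x hx =>
    obtain ⟨c, p, q, s, hc, h1, h2, h3, rfl⟩ := hx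
    intro i g t hi
    have h4 : fval i g t (fun v => c * chp p q s v) = c * fval i g t (chp p q s) := by
      unfold fval
      rw [Finset.mul_sum]
      exact Finset.sum_congr rfl fun v _ => by ring
    rw [h4]
    exact mul_nonneg hc (chp_cq h1 h2 h3 i g t hi)
  | zero =>
    intro i g t _
    unfold fval
    simp
  | add x y _ _ h1 h2 =>
    intro i g t hi
    have h4 : fval i g t (x + y) = fval i g t x + fval i g t y := by
      unfold fval
      rw [← Finset.sum_add_distrib]
      exact Finset.sum_congr rfl fun v _ => by rw [Pi.add_apply]; ring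
    rw [h4]
    exact add_nonneg (h1 i g t hi) (h2 i g t hi)

theorem chp_sub (p q s v : W4) : (1 : ℚ) - chp p q s v =
    if v ≠ p ∧ v ≠ q ∧ v ≠ s ∧ v ≠ p + q + s then 1 else 0 := by
  unfold chp
  by_cases h : v = p ∨ v = q ∨ v = s ∨ v = p + q + s
  · rw [if_pos h, if_neg (by
      rintro ⟨h1, h2, h3, h4⟩
      rcases h with h | h | h | h
      · exact h1 h
      · exact h2 h
      · exact h3 h
      · exact h4 h), sub_self]
  · push Not at h
    rw [if_neg (by push Not; exact h), if_pos h, sub_zero]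

theorem sum_chp4 {p q s : W4} (h1 : p ≠ q) (h2 : p ≠ s) (h3 : q ≠ s) :
    ∑ v, chp p q s v = 4 := by
  have := sum_chp h1 h2 h3 (fun _ => 1)
  simp only [one_mul] at this
  rw [this]; norm_num

variable {α : Type*}

theorem hilbert4 {M : Matroid α} (hM : AGT M 4) : CircuitsHilbert M := by
  classical
  obtain ⟨f, hf, hC⟩ := hM
  have hchi : ∀ p q s : W4, ∀ x ∈ M.E,
      ((chi ℤ {x ∈ M.E | f x ≠ p ∧ f x ≠ q ∧ f x ≠ s ∧ f x ≠ p + q + s} x : ℤ) : ℚ) =
      1 - chp p q s (f x) := by
    intro p q s x hx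
    rw [chp_sub, chi_apply]
    simp only [mem_sep_iff, hx, true_and]
    split_ifs <;> simp
  rw [hilbert_iff]
  intro p hp hc
  have hlat : ∀ z ∈ Lat M, ∃ (N : ℤ) (D : W4 → ℚ), D ∈ Lt ∧ ∑ v, D v = 4 * N ∧
      ∀ x ∈ M.E, (z x : ℚ) = N - D (f x) := by
    intro z hz
    induction hz using AddSubgroup.closure_induction with
    | mem v hv =>
      obtain ⟨C, h, rfl⟩ := hv
      obtain ⟨a, b, c, hab, hac, hbc, rfl⟩ := (hC C).1 h
      refine ⟨1, chp a b c, AddSubgroup.subset_closure ⟨a, b, c, hab, hac, hbc, rfl⟩, ?_, ?_⟩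
      · rw [sum_chp4 hab hac hbc]; norm_num
      · intro x hx
        rw [hchi a b c x hx]; norm_num
    | zero => exact ⟨0, 0, zero_mem _, by simp, fun x _ => by simp⟩
    | add v w _ _ h1 h2 =>
      obtain ⟨N1, D1, a1, b1, d1⟩ := h1
      obtain ⟨N2, D2, a2, b2, d2⟩ := h2
      refine ⟨N1 + N2, D1 + D2, add_mem a1 a2, ?_, ?_⟩
      · simp only [Pi.add_apply, Finset.sum_add_distrib, b1, b2]; push_cast; ring
      · intro x hx
        rw [Pi.add_apply, Pi.add_apply]
        push_cast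
        rw [d1 x hx, d2 x hx]; ring
    | neg v _ h1 =>
      obtain ⟨N1, D1, a1, b1, d1⟩ := h1
      refine ⟨- N1, - D1, neg_mem a1, ?_, ?_⟩
      · simp only [Pi.neg_apply, Finset.sum_neg_distrib, b1]; push_cast; ring
      · intro x hx
        rw [Pi.neg_apply, Pi.neg_apply]
        push_cast
        rw [d1 x hx]; ring
  have hcone : ∀ z ∈ Cone M, ∃ (N : ℚ) (D : W4 → ℚ), D ∈ Pc ∧ ∑ v, D v = 4 * N ∧
      ∀ x ∈ M.E, z x = N - D (f x) := by
    intro z hz
    induction hz using Submodule.span_induction with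
    | mem v hv =>
      obtain ⟨C, h, rfl⟩ := hv
      obtain ⟨a, b, c, hab, hac, hbc, rfl⟩ := (hC C).1 h
      refine ⟨1, chp a b c, ?_, ?_, ?_⟩
      · have := Pc_gen (c := 1) zero_le_one hab hac hbc
        simpa using this
      · rw [sum_chp4 hab hac hbc]; norm_num
      · intro x hx
        have h1 := hchi a b c x hx
        rw [← cast_chi, h1]
    | zero => exact ⟨0, 0, zero_mem _, by simp, fun x _ => by simp⟩
    | add v w _ _ h1 h2 =>
      obtain ⟨N1, D1, a1, b1, d1⟩ := h1
      obtain ⟨N2, D2, a2, b2, d2⟩ := h2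
      refine ⟨N1 + N2, D1 + D2, add_mem a1 a2, ?_, ?_⟩
      · simp only [Pi.add_apply, Finset.sum_add_distrib, b1, b2]; ring
      · intro x hx
        rw [Pi.add_apply, Pi.add_apply, d1 x hx, d2 x hx]; ring
    | smul q v _ h1 =>
      obtain ⟨N1, D1, a1, b1, d1⟩ := h1
      refine ⟨q * N1, fun v => (q : ℚ) * D1 v, Pc_smul q.2 a1, ?_, ?_⟩
      · rw [← Finset.mul_sum, b1]; ring
      · intro x hx
        rw [Pi.smul_apply, NNRat.smul_def, d1 x hx]; ring
  obtain ⟨N, D, a1, b1, d1⟩ := hlat p hp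
  obtain ⟨N', D', a2, b2, d2⟩ := hcone _ hc
  have hdiff : ∀ v : W4, D v - D' v = (N : ℚ) - N' := by
    intro v
    obtain ⟨x, hx, rfl⟩ := hf.2.2 (mem_univ v)
    have h1 := d1 x hx
    have h2 := d2 x hx
    rw [h1] at h2
    linarith
  have hNN : (N : ℚ) = N' := by
    have h1 : ∑ v : W4, (D v - D' v) = 4 * N - 4 * N' := by
      rw [Finset.sum_sub_distrib, b2, b1]
    rw [Finset.sum_congr rfl fun v _ => hdiff v, Finset.sum_const, Finset.card_univ] at h1
    have h4 : Fintype.card W4 = 16 := by simp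
    rw [h4, nsmul_eq_mul] at h1
    push_cast at h1
    linarith
  have hDD : D = D' := by
    funext v
    have h1 := hdiff v
    rw [hNN, sub_self] at h1
    linarith
  have hcq : Cq D := by rw [hDD]; exact Pc_cq a2
  have hN0 : 0 ≤ N := by
    have h1 : 0 ≤ ∑ v, D v := Finset.sum_nonneg fun v _ => hcq.nn v
    rw [b1] at h1
    have h2 : (0 : ℚ) ≤ (N : ℚ) := by linarith
    exact_mod_cast h2
  have hNt : ((N.toNat : ℕ) : ℚ) = (N : ℚ) := by
    have : ((N.toNat : ℕ) : ℤ) = N := Int.toNat_of_nonneg hN0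
    exact_mod_cast this
  have hmem := main_int N.toNat D a1 hcq (by rw [b1, hNt])
  have hback : ∀ F ∈ Ps, ∃ (K : ℤ) (G : α → ℤ), ∑ v, F v = 4 * K ∧ G ∈ IntCone M ∧
      ∀ x ∈ M.E, (G x : ℚ) = K - F (f x) := by
    intro F hF
    induction hF using AddSubmonoid.closure_induction with
    | mem v hv =>
      obtain ⟨a, b, c, hab, hac, hbc, rfl⟩ := hv
      refine ⟨1, chi ℤ {x ∈ M.E | f x ≠ a ∧ f x ≠ b ∧ f x ≠ c ∧ f x ≠ a + b + c}, ?_, ?_, ?_⟩
      · rw [sum_chp4 hab hac hbc]; norm_num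
      · exact chi_mem_intCone ((hC _).2 ⟨a, b, c, hab, hac, hbc, rfl⟩)
      · intro x hx
        rw [hchi a b c x hx]; norm_num
    | zero => exact ⟨0, 0, by simp, zero_mem _, fun x _ => by simp⟩
    | add v w _ _ h1 h2 =>
      obtain ⟨K1, G1, k1, l1, m1⟩ := h1
      obtain ⟨K2, G2, k2, l2, m2⟩ := h2
      refine ⟨K1 + K2, G1 + G2, ?_, add_mem l1 l2, ?_⟩
      · simp only [Pi.add_apply, Finset.sum_add_distrib, k1, k2]; push_cast; ring
      · intro x hx
        rw [Pi.add_apply, Pi.add_apply]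
        push_cast
        rw [m1 x hx, m2 x hx]; ring
  obtain ⟨K, G, k1, k2, k3⟩ := hback D hmem
  have hKN : (K : ℚ) = (N : ℚ) := by
    rw [b1] at k1
    linarith
  have hGL : G ∈ Lat M := (intCone_sub k2).1
  have hpe : p = G := by
    funext x
    by_cases hx : x ∈ M.E
    · have h1 := d1 x hx
      have h2 := k3 x hx
      rw [hKN] at h2
      have h3 : (p x : ℚ) = (G x : ℚ) := by rw [h1, h2]
      exact_mod_cast h3
    · rw [lat_support hp hx, lat_support hGL hx]
  rw [hpe]
  exact k2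

end Pool.Agent.helper25.AG
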