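import Pool.Agent.helper25.AG.Refl

set_option autoImplicit false
set_option linter.unusedSectionVars false
set_option linter.unusedVariables false

/-!
# Project AG: two hyperplanes with the same point
-/

namespace Pool.Agent.helper25.AG

open Finset Pool.Agent.helper25.PV

def wa9 : List ℤ := [-1, 1, 1, 1, 0, 0, 0, 0, 1, 1, 1, 1, 0, 0, 0, 0]

def wb9 : List ℤ := [-1, 1, 1, 1, 1, 1, 1, 1, 0, 0, 0, 0, 0, 0, 0, 0]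

def R9 : List (List ℤ) :=
  [[-3, 1, 1, 1, 1, 1, 1, 1, 1, 1, 1, 1, 1, 1, 1, 1],
    [0, 0, 0, 4, 0, 0, 0, 0, 0, 0, 0, 0, 0, 0, 0, 0],
    [0, 0, 4, 0, 0, 0, 0, 0, 0, 0, 0, 0, 0, 0, 0, 0],
    [0, 4, 0, 0, 0, 0, 0, 0, 0, 0, 0, 0, 0, 0, 0, 0],
    [0, 0, 0, 0, 0, 0, 0, 0, 0, 0, 0, 4, 0, 0, 0, 0],
    [0, 0, 0, 0, 0, 0, 0, 0, 0, 0, 4, 0, 0, 0, 0, 0],
    [0, 0, 0, 0, 0, 0, 0, 0, 0, 4, 0, 0, 0, 0, 0, 0],
    [0, 0, 0, 0, 0, 0, 0, 0, 4, 0, 0, 0, 0, 0, 0, 0],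
    [0, 0, 0, 0, 0, 0, 0, 4, 0, 0, 0, 0, 0, 0, 0, 0],
    [0, 0, 0, 0, 0, 0, 4, 0, 0, 0, 0, 0, 0, 0, 0, 0],
    [0, 0, 0, 0, 0, 4, 0, 0, 0, 0, 0, 0, 0, 0, 0, 0],
    [0, 0, 0, 0, 4, 0, 0, 0, 0, 0, 0, 0, 0, 0, 0, 0],
    [-3, 3, 3, 5, 1, 3, 3, 1, 1, 3, 3, 1, 1, -1, -1, 1],
    [-3, 3, 3, 5, 1, 3, 3, 1, 3, 1, 1, 3, -1, 1, 1, -1],
    [-3, 3, 3, 5, 3, 1, 1, 3, 1, 3, 3, 1, -1, 1, 1, -1],
    [-3, 3, 3, 5, 3, 1, 1, 3, 3, 1, 1, 3, 1, -1, -1, 1],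
    [-3, 3, 5, 3, 1, 3, 1, 3, 1, 3, 1, 3, 1, -1, 1, -1],
    [-3, 3, 5, 3, 1, 3, 1, 3, 3, 1, 3, 1, -1, 1, -1, 1],
    [-3, 3, 5, 3, 3, 1, 3, 1, 1, 3, 1, 3, -1, 1, -1, 1],
    [-3, 3, 5, 3, 3, 1, 3, 1, 3, 1, 3, 1, 1, -1, 1, -1],
    [-3, 5, 3, 3, 1, 1, 3, 3, 1, 1, 3, 3, 1, 1, -1, -1],
    [-3, 5, 3, 3, 1, 1, 3, 3, 3, 3, 1, 1, -1, -1, 1, 1],
    [-3, 5, 3, 3, 3, 3, 1, 1, 1, 1, 3, 3, -1, -1, 1, 1],
    [-3, 5, 3, 3, 3, 3, 1, 1, 3, 3, 1, 1, 1, 1, -1, -1],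
    [-1, 3, 3, 3, 1, 1, 1, 1, 1, 1, 1, 1, -1, -1, -1, 3],
    [-1, 3, 3, 3, 1, 1, 1, 1, 1, 1, 1, 1, -1, -1, 3, -1],
    [-1, 3, 3, 3, 1, 1, 1, 1, 1, 1, 1, 1, -1, 3, -1, -1],
    [-1, 3, 3, 3, 1, 1, 1, 1, 1, 1, 1, 1, 3, -1, -1, -1],
    [0, 0, 2, 2, 0, 0, 2, 2, 0, 0, 2, 2, 0, 0, -2, 2],
    [0, 0, 2, 2, 0, 0, 2, 2, 0, 0, 2, 2, 0, 0, 2, -2],
    [0, 0, 2, 2, 0, 0, 2, 2, 2, 2, 0, 0, -2, 2, 0, 0],
    [0, 0, 2, 2, 0, 0, 2, 2, 2, 2, 0, 0, 2, -2, 0, 0],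
    [0, 0, 2, 2, 2, 2, 0, 0, 0, 0, 2, 2, -2, 2, 0, 0],
    [0, 0, 2, 2, 2, 2, 0, 0, 0, 0, 2, 2, 2, -2, 0, 0],
    [0, 0, 2, 2, 2, 2, 0, 0, 2, 2, 0, 0, 0, 0, -2, 2],
    [0, 0, 2, 2, 2, 2, 0, 0, 2, 2, 0, 0, 0, 0, 2, -2],
    [0, 2, 0, 2, 0, 2, 0, 2, 0, 2, 0, 2, 0, -2, 0, 2],
    [0, 2, 0, 2, 0, 2, 0, 2, 0, 2, 0, 2, 0, 2, 0, -2],
    [0, 2, 0, 2, 0, 2, 0, 2, 2, 0, 2, 0, -2, 0, 2, 0],
    [0, 2, 0, 2, 0, 2, 0, 2, 2, 0, 2, 0, 2, 0, -2, 0],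
    [0, 2, 0, 2, 2, 0, 2, 0, 0, 2, 0, 2, -2, 0, 2, 0],
    [0, 2, 0, 2, 2, 0, 2, 0, 0, 2, 0, 2, 2, 0, -2, 0],
    [0, 2, 0, 2, 2, 0, 2, 0, 2, 0, 2, 0, 0, -2, 0, 2],
    [0, 2, 0, 2, 2, 0, 2, 0, 2, 0, 2, 0, 0, 2, 0, -2],
    [0, 2, 2, 0, 0, 2, 2, 0, 0, 2, 2, 0, 0, -2, 2, 0],
    [0, 2, 2, 0, 0, 2, 2, 0, 0, 2, 2, 0, 0, 2, -2, 0],
    [0, 2, 2, 0, 0, 2, 2, 0, 2, 0, 0, 2, -2, 0, 0, 2],
    [0, 2, 2, 0, 0, 2, 2, 0, 2, 0, 0, 2, 2, 0, 0, -2],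
    [0, 2, 2, 0, 2, 0, 0, 2, 0, 2, 2, 0, -2, 0, 0, 2],
    [0, 2, 2, 0, 2, 0, 0, 2, 0, 2, 2, 0, 2, 0, 0, -2],
    [0, 2, 2, 0, 2, 0, 0, 2, 2, 0, 0, 2, 0, -2, 2, 0],
    [0, 2, 2, 0, 2, 0, 0, 2, 2, 0, 0, 2, 0, 2, -2, 0]]

def I9 : List (ℕ × Item) :=
  [(1, 1, 0, 1, 2, 4, 8),
    (4, 0, 0, 1, 14, 2, 4),
    (4, 0, 0, 1, 15, 2, 4),
    (4, 0, 0, 15, 1, 2, 4),
    (4, 0, 0, 1, 2, 4, 12),
    (4, 0, 0, 1, 2, 4, 13),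
    (4, 0, 0, 1, 2, 4, 14),
    (4, 0, 0, 1, 2, 4, 15),
    (4, 0, 0, 1, 2, 12, 4),
    (4, 0, 0, 1, 2, 13, 4),
    (4, 0, 0, 1, 2, 14, 4),
    (4, 0, 0, 1, 2, 15, 4),
    (1, 6, 0, 5, 6, 8, 12),
    (1, 6, 0, 5, 6, 8, 9),
    (1, 6, 0, 5, 6, 9, 8),
    (1, 6, 0, 5, 6, 9, 13),
    (1, 6, 0, 5, 3, 8, 12),
    (1, 6, 0, 5, 3, 8, 9),
    (1, 6, 0, 5, 3, 9, 8),
    (1, 6, 0, 5, 3, 9, 13),
    (1, 6, 0, 3, 5, 8, 12),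
    (1, 6, 0, 3, 5, 8, 9),
    (1, 6, 0, 3, 5, 9, 8),
    (1, 6, 0, 3, 5, 9, 13),
    (1, 3, 0, 3, 5, 8, 9),
    (1, 3, 0, 3, 5, 8, 10),
    (1, 3, 0, 3, 5, 8, 12),
    (1, 3, 0, 3, 5, 8, 15),
    (2, 2, 1, 3, 4, 9, 12),
    (2, 2, 1, 3, 4, 9, 15),
    (2, 2, 1, 3, 4, 9, 8),
    (2, 2, 1, 3, 4, 9, 11),
    (2, 2, 1, 3, 4, 8, 9),
    (2, 2, 1, 3, 4, 8, 10),
    (2, 2, 1, 3, 4, 8, 13),
    (2, 2, 1, 3, 4, 8, 14),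
    (2, 2, 1, 2, 5, 9, 10),
    (2, 2, 1, 2, 5, 9, 15),
    (2, 2, 1, 2, 5, 9, 8),
    (2, 2, 1, 2, 5, 9, 13),
    (2, 2, 1, 2, 5, 8, 9),
    (2, 2, 1, 2, 5, 8, 12),
    (2, 2, 1, 2, 5, 8, 11),
    (2, 2, 1, 2, 5, 8, 14),
    (2, 2, 1, 2, 4, 9, 10),
    (2, 2, 1, 2, 4, 9, 12),
    (2, 2, 1, 2, 4, 9, 8),
    (2, 2, 1, 2, 4, 9, 14),
    (2, 2, 1, 2, 4, 8, 9),
    (2, 2, 1, 2, 4, 8, 15),
    (2, 2, 1, 2, 4, 8, 11),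
    (2, 2, 1, 2, 4, 8, 13)]

def f9 : List (List ℤ) := R9 ++ [wa9, [1, -1, -1, -1, 0, 0, 0, 0, -1, -1, -1, -1, 0, 0, 0, 0],
    wb9, [1, -1, -1, -1, -1, -1, -1, -1, 0, 0, 0, 0, 0, 0, 0, 0]]

def tab9 : List (List ℤ) :=
  [[4, 0, 0, 0, 0, 0, 0, 0, 0, 0, 0, 0, 0, 0, 0, 0],
    [0, 4, 0, 0, 0, 0, 0, 0, 0, 0, 0, 0, 0, 0, 0, 0],
    [0, 0, 4, 0, 0, 0, 0, 0, 0, 0, 0, 0, 0, 0, 0, 0],
    [0, 0, 0, 4, 0, 0, 0, 0, 0, 0, 0, 0, 0, 0, 0, 0],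
    [0, 0, 0, 0, 4, 0, 0, 0, 0, 0, 0, 0, 0, 0, 0, 0],
    [0, 0, 0, 0, 0, 4, 0, 0, 0, 0, 0, 0, 0, 0, 0, 0],
    [0, 0, 0, 0, 0, 0, 4, 0, 0, 0, 0, 0, 0, 0, 0, 0],
    [0, 0, 0, 0, 0, 0, 0, 4, 0, 0, 0, 0, 0, 0, 0, 0],
    [0, 0, 0, 0, 0, 0, 0, 0, 4, 0, 0, 0, 0, 0, 0, 0],
    [0, 0, 0, 0, 0, 0, 0, 0, 0, 4, 0, 0, 0, 0, 0, 0],
    [0, 0, 0, 0, 0, 0, 0, 0, 0, 0, 4, 0, 0, 0, 0, 0],
    [0, 0, 0, 0, 0, 0, 0, 0, 0, 0, 0, 4, 0, 0, 0, 0],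
    [3, -1, -1, -1, -1, -1, -1, -1, -1, -1, -1, -1, 3, -1, -1, -1],
    [3, -1, -1, -1, -1, -1, -1, -1, -1, -1, -1, -1, -1, 3, -1, -1],
    [3, -1, -1, -1, -1, -1, -1, -1, -1, -1, -1, -1, -1, -1, 3, -1],
    [3, -1, -1, -1, -1, -1, -1, -1, -1, -1, -1, -1, -1, -1, -1, 3]]

def L9 : Comb :=
  [([-3, 1, 1, 1, 1, 1, 1, 1, 1, 1, 1, 1, 1, 1, 1, 1], 12, 13, 14)]

def c9 : C1 :=
  { e1 := (1, [])
    e2 := (1, [])
    nn := [(6, [(2, 1), (2, 2), (3, 3), (2, 10), (1, 15), (4, 19), (1, 21), (2, 28), (1, 34), (3, 37), (1, 40), (1, 48), (20, 53), (22, 55)]),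
    (1, [(1, 3)]),
    (1, [(1, 2)]),
    (1, [(1, 1)]),
    (1, [(1, 11)]),
    (1, [(1, 10)]),
    (1, [(1, 9)]),
    (1, [(1, 8)]),
    (1, [(1, 7)]),
    (1, [(1, 6)]),
    (1, [(1, 5)]),
    (1, [(1, 4)]),
    (1, [(1, 27), (2, 53), (2, 55)]),
    (1, [(1, 26), (2, 53), (2, 55)]),
    (1, [(1, 25), (2, 53), (2, 55)]),
    (1, [(1, 24), (2, 53), (2, 55)])]
    h0 := [(1, [(2, 19), (4, 53), (4, 55)]),
    (1, [(2, 23), (4, 53), (4, 55)]),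
    (1, [(2, 15), (4, 53), (4, 55)]),
    (1, [(4, 52)]),
    (1, [(2, 17), (4, 53), (4, 55)]),
    (1, [(2, 21), (4, 53), (4, 55)]),
    (1, [(2, 13), (4, 53), (4, 55)]),
    (1, [(4, 54)]),
    (1, [(2, 18), (4, 53), (4, 55)]),
    (1, [(2, 22), (4, 53), (4, 55)]),
    (1, [(2, 14), (4, 53), (4, 55)]),
    (1, [(2, 1), (2, 2), (2, 3), (4, 53), (4, 55)]),
    (1, [(2, 16), (4, 53), (4, 55)]),
    (1, [(2, 20), (4, 53), (4, 55)]),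
    (1, [(2, 12), (4, 53), (4, 55)])]
    hp := [(0, []),
    (0, []),
    (0, []),
    (0, []),
    (0, []),
    (0, []),
    (0, []),
    (0, []),
    (0, []),
    (0, []),
    (0, []),
    (0, []),
    (0, []),
    (0, []),
    (0, []),
    (0, []),
    (0, []),
    (1, [(2, 1), (2, 8), (2, 10), (2, 18), (4, 53), (8, 55)]),
    (0, []),
    (1, [(2, 3), (2, 8), (2, 10), (2, 18), (4, 53), (8, 55)]),
    (0, []),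
    (1, [(2, 1), (2, 3), (2, 8), (2, 18), (4, 53), (8, 55)]),
    (0, []),
    (1, [(2, 1), (2, 3), (2, 10), (2, 18), (4, 53), (8, 55)]),
    (0, []),
    (1, [(2, 1), (2, 3), (2, 4), (2, 17), (8, 53), (4, 55)]),
    (0, []),
    (1, [(2, 1), (2, 3), (2, 6), (2, 17), (8, 53), (4, 55)]),
    (0, []),
    (1, [(2, 36)]),
    (0, []),
    (1, [(2, 37)]),
    (0, []),
    (0, []),
    (1, [(2, 1), (2, 8), (2, 9), (2, 22), (4, 53), (8, 55)]),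
    (1, [(2, 2), (2, 8), (2, 9), (2, 22), (4, 53), (8, 55)]),
    (0, []),
    (0, []),
    (1, [(2, 1), (2, 2), (2, 8), (2, 22), (4, 53), (8, 55)]),
    (1, [(2, 1), (2, 2), (2, 9), (2, 22), (4, 53), (8, 55)]),
    (0, []),
    (0, []),
    (1, [(2, 1), (2, 2), (2, 4), (2, 21), (8, 53), (4, 55)]),
    (1, [(2, 1), (2, 2), (2, 5), (2, 21), (8, 53), (4, 55)]),
    (0, []),
    (0, []),
    (1, [(2, 28)]),
    (1, [(2, 29)]),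
    (0, []),
    (1, [(2, 2), (2, 5), (2, 6), (2, 13), (8, 53), (4, 55)]),
    (1, [(2, 3), (2, 9), (2, 10), (2, 14), (4, 53), (8, 55)]),
    (0, []),
    (0, []),
    (1, [(2, 2), (2, 3), (2, 9), (2, 14), (4, 53), (8, 55)]),
    (1, [(2, 2), (2, 3), (2, 10), (2, 14), (4, 53), (8, 55)]),
    (0, []),
    (0, []),
    (1, [(2, 2), (2, 3), (2, 5), (2, 13), (8, 53), (4, 55)]),
    (1, [(2, 2), (2, 3), (2, 6), (2, 13), (8, 53), (4, 55)]),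
    (0, []),
    (0, []),
    (1, [(2, 44)]),
    (1, [(2, 45)]),
    (0, []),
    (0, []),
    (0, []),
    (0, []),
    (0, []),
    (1, [(2, 1), (2, 2), (2, 3), (2, 8), (2, 9), (2, 10), (4, 53), (8, 55)]),
    (1, [(2, 1), (2, 2), (2, 3), (2, 8), (2, 9), (2, 11), (4, 53), (8, 55)]),
    (1, [(2, 1), (2, 2), (2, 3), (2, 8), (2, 10), (2, 11), (4, 53), (8, 55)]),
    (1, [(2, 1), (2, 2), (2, 3), (2, 9), (2, 10), (2, 11), (4, 53), (8, 55)]),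
    (0, []),
    (0, []),
    (0, []),
    (0, []),
    (2, [(1, 30), (1, 32), (1, 38), (1, 40), (1, 46), (1, 48), (10, 53), (2, 55)]),
    (2, [(1, 31), (1, 33), (1, 36), (1, 42), (1, 44), (1, 50), (10, 53), (2, 55)]),
    (2, [(1, 28), (1, 34), (1, 39), (1, 41), (1, 45), (1, 51), (10, 53), (2, 55)]),
    (2, [(1, 29), (1, 35), (1, 37), (1, 43), (1, 47), (1, 49), (10, 53), (2, 55)]),
    (0, []),
    (1, [(2, 1), (2, 4), (2, 6), (2, 19), (8, 53), (4, 55)]),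
    (0, []),
    (1, [(2, 3), (2, 9), (2, 11), (2, 16), (4, 53), (8, 55)]),
    (1, [(2, 1), (2, 3), (2, 9), (2, 16), (4, 53), (8, 55)]),
    (0, []),
    (1, [(2, 1), (2, 3), (2, 11), (2, 16), (4, 53), (8, 55)]),
    (0, []),
    (0, []),
    (1, [(2, 1), (2, 3), (2, 4), (2, 19), (8, 53), (4, 55)]),
    (0, []),
    (1, [(2, 1), (2, 3), (2, 6), (2, 19), (8, 53), (4, 55)]),
    (1, [(2, 40)]),
    (0, []),
    (1, [(2, 41)]),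
    (0, []),
    (0, []),
    (0, []),
    (1, [(2, 1), (2, 10), (2, 11), (2, 20), (4, 53), (8, 55)]),
    (1, [(2, 2), (2, 10), (2, 11), (2, 20), (4, 53), (8, 55)]),
    (1, [(2, 1), (2, 2), (2, 10), (2, 20), (4, 53), (8, 55)]),
    (1, [(2, 1), (2, 2), (2, 11), (2, 20), (4, 53), (8, 55)]),
    (0, []),
    (0, []),
    (0, []),
    (0, []),
    (1, [(2, 1), (2, 2), (2, 4), (2, 23), (8, 53), (4, 55)]),
    (1, [(2, 1), (2, 2), (2, 5), (2, 23), (8, 53), (4, 55)]),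
    (1, [(2, 32)]),
    (1, [(2, 33)]),
    (0, []),
    (0, []),
    (0, []),
    (1, [(2, 2), (2, 8), (2, 11), (2, 12), (4, 53), (8, 55)]),
    (1, [(2, 3), (2, 8), (2, 11), (2, 12), (4, 53), (8, 55)]),
    (0, []),
    (1, [(2, 2), (2, 3), (2, 8), (2, 12), (4, 53), (8, 55)]),
    (0, []),
    (0, []),
    (1, [(2, 2), (2, 3), (2, 11), (2, 12), (4, 53), (8, 55)]),
    (0, []),
    (1, [(2, 2), (2, 3), (2, 5), (2, 15), (8, 53), (4, 55)]),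
    (1, [(2, 2), (2, 3), (2, 6), (2, 15), (8, 53), (4, 55)]),
    (0, []),
    (1, [(2, 48)]),
    (0, []),
    (0, []),
    (1, [(2, 49)]),
    (0, []),
    (0, []),
    (0, []),
    (0, []),
    (0, []),
    (0, []),
    (0, []),
    (0, []),
    (1, [(2, 1), (2, 2), (2, 3), (2, 4), (2, 5), (2, 6), (8, 53), (4, 55)]),
    (1, [(2, 1), (2, 2), (2, 3), (2, 4), (2, 5), (2, 7), (8, 53), (4, 55)]),
    (1, [(2, 1), (2, 2), (2, 3), (2, 4), (2, 6), (2, 7), (8, 53), (4, 55)]),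
    (1, [(2, 1), (2, 2), (2, 3), (2, 5), (2, 6), (2, 7), (8, 53), (4, 55)]),
    (2, [(1, 30), (1, 32), (1, 38), (1, 40), (1, 46), (1, 48), (2, 53), (10, 55)]),
    (2, [(1, 31), (1, 33), (1, 36), (1, 42), (1, 44), (1, 50), (2, 53), (10, 55)]),
    (2, [(1, 28), (1, 34), (1, 39), (1, 41), (1, 45), (1, 51), (2, 53), (10, 55)]),
    (2, [(1, 29), (1, 35), (1, 37), (1, 43), (1, 47), (1, 49), (2, 53), (10, 55)]),
    (0, []),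
    (1, [(2, 1), (2, 5), (2, 7), (2, 16), (8, 53), (4, 55)]),
    (0, []),
    (1, [(2, 3), (2, 8), (2, 10), (2, 19), (4, 53), (8, 55)]),
    (0, []),
    (1, [(2, 1), (2, 3), (2, 8), (2, 19), (4, 53), (8, 55)]),
    (0, []),
    (1, [(2, 1), (2, 3), (2, 10), (2, 19), (4, 53), (8, 55)]),
    (1, [(2, 1), (2, 3), (2, 5), (2, 16), (8, 53), (4, 55)]),
    (0, []),
    (1, [(2, 1), (2, 3), (2, 7), (2, 16), (8, 53), (4, 55)]),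
    (0, []),
    (1, [(2, 38)]),
    (0, []),
    (1, [(2, 39)]),
    (0, []),
    (0, []),
    (0, []),
    (1, [(2, 1), (2, 8), (2, 9), (2, 23), (4, 53), (8, 55)]),
    (1, [(2, 2), (2, 8), (2, 9), (2, 23), (4, 53), (8, 55)]),
    (0, []),
    (0, []),
    (1, [(2, 1), (2, 2), (2, 8), (2, 23), (4, 53), (8, 55)]),
    (1, [(2, 1), (2, 2), (2, 9), (2, 23), (4, 53), (8, 55)]),
    (1, [(2, 1), (2, 2), (2, 6), (2, 20), (8, 53), (4, 55)]),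
    (1, [(2, 1), (2, 2), (2, 7), (2, 20), (8, 53), (4, 55)]),
    (0, []),
    (0, []),
    (1, [(2, 30)]),
    (1, [(2, 31)]),
    (0, []),
    (0, []),
    (0, []),
    (1, [(2, 2), (2, 9), (2, 10), (2, 15), (4, 53), (8, 55)]),
    (1, [(2, 3), (2, 9), (2, 10), (2, 15), (4, 53), (8, 55)]),
    (0, []),
    (0, []),
    (1, [(2, 2), (2, 3), (2, 9), (2, 15), (4, 53), (8, 55)]),
    (1, [(2, 2), (2, 3), (2, 10), (2, 15), (4, 53), (8, 55)]),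
    (0, []),
    (1, [(2, 2), (2, 3), (2, 4), (2, 12), (8, 53), (4, 55)]),
    (0, []),
    (0, []),
    (1, [(2, 2), (2, 3), (2, 7), (2, 12), (8, 53), (4, 55)]),
    (1, [(2, 46)]),
    (0, []),
    (0, []),
    (1, [(2, 47)]),
    (0, []),
    (0, []),
    (0, []),
    (0, []),
    (1, [(2, 8), (2, 9), (2, 10), (4, 52), (4, 55)]),
    (1, [(2, 8), (2, 9), (2, 11), (4, 52), (4, 55)]),
    (1, [(2, 8), (2, 10), (2, 11), (4, 52), (4, 55)]),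
    (1, [(2, 9), (2, 10), (2, 11), (4, 52), (4, 55)]),
    (1, [(2, 4), (2, 5), (2, 6), (4, 53), (4, 54)]),
    (1, [(2, 4), (2, 5), (2, 7), (4, 53), (4, 54)]),
    (1, [(2, 4), (2, 6), (2, 7), (4, 53), (4, 54)]),
    (1, [(2, 5), (2, 6), (2, 7), (4, 53), (4, 54)]),
    (0, []),
    (0, []),
    (0, []),
    (0, []),
    (0, []),
    (1, [(2, 1), (2, 9), (2, 11), (2, 17), (4, 53), (8, 55)]),
    (0, []),
    (1, [(2, 3), (2, 9), (2, 11), (2, 17), (4, 53), (8, 55)]),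
    (1, [(2, 1), (2, 3), (2, 9), (2, 17), (4, 53), (8, 55)]),
    (0, []),
    (1, [(2, 1), (2, 3), (2, 11), (2, 17), (4, 53), (8, 55)]),
    (0, []),
    (1, [(2, 1), (2, 3), (2, 5), (2, 18), (8, 53), (4, 55)]),
    (0, []),
    (1, [(2, 1), (2, 3), (2, 7), (2, 18), (8, 53), (4, 55)]),
    (0, []),
    (0, []),
    (1, [(2, 42)]),
    (0, []),
    (1, [(2, 43)]),
    (0, []),
    (0, []),
    (1, [(2, 1), (2, 10), (2, 11), (2, 21), (4, 53), (8, 55)]),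
    (1, [(2, 2), (2, 10), (2, 11), (2, 21), (4, 53), (8, 55)]),
    (1, [(2, 1), (2, 2), (2, 10), (2, 21), (4, 53), (8, 55)]),
    (1, [(2, 1), (2, 2), (2, 11), (2, 21), (4, 53), (8, 55)]),
    (0, []),
    (0, []),
    (1, [(2, 1), (2, 2), (2, 6), (2, 22), (8, 53), (4, 55)]),
    (1, [(2, 1), (2, 2), (2, 7), (2, 22), (8, 53), (4, 55)]),
    (0, []),
    (0, []),
    (0, []),
    (0, []),
    (1, [(2, 34)]),
    (1, [(2, 35)]),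
    (0, []),
    (1, [(2, 2), (2, 4), (2, 7), (2, 14), (8, 53), (4, 55)]),
    (1, [(2, 3), (2, 8), (2, 11), (2, 13), (4, 53), (8, 55)]),
    (0, []),
    (1, [(2, 2), (2, 3), (2, 8), (2, 13), (4, 53), (8, 55)]),
    (0, []),
    (0, []),
    (1, [(2, 2), (2, 3), (2, 11), (2, 13), (4, 53), (8, 55)]),
    (1, [(2, 2), (2, 3), (2, 4), (2, 14), (8, 53), (4, 55)]),
    (0, []),
    (0, []),
    (1, [(2, 2), (2, 3), (2, 7), (2, 14), (8, 53), (4, 55)]),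
    (0, []),
    (1, [(2, 50)]),
    (1, [(2, 51)]),
    (0, [])] }

def cn9 : List Cert :=
  [(1, [(1, 0)])]

def ce9 : List (Cert × Cert) :=
  [((1, []), (1, [])),
    ((1, []), (1, [])),
    ((1, []), (1, [])),
    ((1, []), (1, [])),
    ((1, []), (1, [])),
    ((1, []), (1, [])),
    ((1, []), (1, [])),
    ((1, []), (1, [])),
    ((1, []), (1, [])),
    ((1, []), (1, [])),
    ((1, []), (1, [])),
    ((1, []), (1, [])),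
    ((1, []), (1, [])),
    ((1, []), (1, [])),
    ((1, []), (1, [])),
    ((1, []), (1, []))]

theorem chk9a : chk1 16 f9 tab9 c9 = true := by decide +kernel

theorem chk9b : chkN 16 f9 L9 cn9 = true := by decide +kernel

theorem chk9c : chkE 16 f9 4 tab9 L9 ce9 = true := by decide +kernel

theorem okR9 : chkR R9 I9 = true := by decide +kernel

/-- two hyperplanes with the same point -/
theorem S9 {D : W4 → ℚ} (hR : ∀ l ∈ R9, 0 ≤ dl D l) (ha : dl D wa9 = 0) (hb : dl D wb9 = 0) :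
    D ∈ Pc := by
  have hc : Ctx 16 (fun k => D (pt k)) D f9 := by
    refine ⟨le_rfl, fun k _ => rfl, ?_⟩
    intro l hl
    simp only [f9, List.mem_append, List.mem_cons, List.not_mem_nil, or_false] at hl
    rcases hl with hl | rfl | rfl | rfl | rfl
    · exact hR l hl
    · exact ha.ge
    · have h1 : dotn 16 (fun k => [1, -1, -1, -1, 0, 0, 0, 0, -1, -1, -1, -1, 0, 0, 0, 0].getD k 0)
          (fun k => D (pt k)) = dotn 16 (fun k => (-1) * wa9.getD k 0) (fun k => D (pt k)) :=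
        dotn_congr (by decide +kernel) _
      have h2 : dotn 16 (fun k => wa9.getD k 0) (fun k => D (pt k)) = 0 := ha
      rw [h1, dotn_mul, h2, mul_zero]
    · exact hb.ge
    · have h1 : dotn 16 (fun k => [1, -1, -1, -1, -1, -1, -1, -1, 0, 0, 0, 0, 0, 0, 0, 0].getD k 0)
          (fun k => D (pt k)) = dotn 16 (fun k => (-1) * wb9.getD k 0) (fun k => D (pt k)) :=
        dotn_congr (by decide +kernel) _
      have h2 : dotn 16 (fun k => wb9.getD k 0) (fun k => D (pt k)) = 0 := hb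
      rw [h1, dotn_mul, h2, mul_zero]
  exact hc.mem (by norm_num) (Pc0_le (hc.s1 chk9a)) (fun x hx => tabF_pt hx _) chk9b chk9c

end Pool.Agent.helper25.AG
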