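import Pool.Agent.helper25.AG.Typ
import Pool.Agent.helper25.AG.D8
import Pool.Agent.helper25.AG.T9

set_option autoImplicit false
set_option linter.unusedSectionVars false
set_option linter.unusedVariables false

/-!
# Project AG: two tight inequalities of type 2
-/

namespace Pool.Agent.helper25.AG

open Finset Pool.Agent.helper25.PV

/-- the moved form -/
def mv (l : List ℤ) (t : ℕ) (c : ℕ × ℕ × ℕ × ℕ) : List ℤ :=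
  (List.range 16).map fun x => l.getD (lin c x ^^^ t) 0

theorem mv_dl {t : ℕ} {c : ℕ × ℕ × ℕ × ℕ} (hc : okc c = true) (ht : t < 16) :
    ∃ (g : W4 ≃+ W4) (s : W4), ∀ (D : W4 → ℚ) (l : List ℤ),
      dl (fun v => D (g v + s)) (mv l t c) = dl D l := by
  obtain ⟨hl, g, hg⟩ := okc_equiv hc
  refine ⟨g, pt t, fun D l => ?_⟩
  rw [dl_eq, dl_eq]
  let e : W4 ≃ W4 := g.toEquiv.trans (Equiv.addRight (pt t))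
  rw [← Equiv.sum_comp e fun v => ((l.getD (ix v) 0 : ℤ) : ℚ) * D v]
  refine sum_congr rfl fun v _ => ?_
  have h1 : e v = g v + pt t := rfl
  rw [h1]
  unfold mv
  rw [getD_map_range _ (ix_lt v), hg, ← pt_xor, ix_pt]
  exact Nat.xor_lt_two_pow (n := 4) (hl _) ht

theorem dl_le {D : W4 → ℚ} (hD : ∀ v, 0 ≤ D v) {a b : List ℤ}
    (h : ((List.range 16).all fun x => decide (a.getD x 0 ≤ b.getD x 0)) = true) :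
    dl D a ≤ dl D b := by
  simp only [List.all_eq_true, List.mem_range, decide_eq_true_eq] at h
  unfold dl dotn
  refine sum_le_sum fun k hk => mul_le_mul_of_nonneg_right ?_ (hD _)
  exact_mod_cast h k (mem_range.1 hk)

def tabP : List (ℕ × ℕ × ℕ × ℕ × (ℕ × ℕ × ℕ × ℕ)) :=
  [(1, 1, 1, 0, 6, 10, 2, 3), (1, 1, 2, 0, 5, 9, 1, 3), (1, 1, 3, 0, 3, 12, 4, 5), (1, 1, 4, 0, 3, 9, 1, 5),
    (1, 1, 5, 0, 5, 10, 2, 3), (1, 1, 6, 0, 6, 9, 1, 3), (1, 1, 7, 0, 3, 5, 8, 9), (1, 1, 8, 0, 3, 5, 1, 9),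
    (1, 1, 9, 0, 6, 9, 2, 3), (1, 1, 10, 0, 5, 10, 1, 3), (1, 1, 11, 0, 3, 9, 4, 5), (1, 1, 12, 0, 3, 12, 1, 5),
    (1, 1, 13, 0, 5, 9, 2, 3), (1, 1, 14, 0, 6, 10, 1, 3), (0, 0, 0, 0, 1, 2, 4, 8), (2, 0, 13, 1, 5, 9, 2, 1),
    (0, 0, 0, 0, 1, 4, 7, 8), (2, 0, 11, 1, 3, 9, 4, 1), (0, 0, 0, 0, 1, 2, 7, 8), (2, 0, 9, 1, 6, 9, 2, 1),
    (0, 0, 0, 0, 1, 8, 11, 13), (2, 0, 7, 1, 3, 5, 8, 1), (0, 0, 0, 0, 1, 2, 4, 11), (2, 0, 5, 1, 5, 10, 2, 1),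
    (0, 0, 0, 0, 1, 4, 7, 13), (2, 0, 3, 1, 3, 12, 4, 1), (0, 0, 0, 0, 1, 2, 7, 11), (2, 0, 1, 1, 6, 10, 2, 1),
    (2, 0, 14, 2, 6, 10, 1, 2), (0, 0, 0, 0, 2, 1, 4, 8), (0, 0, 0, 0, 2, 4, 7, 8), (2, 0, 11, 2, 3, 9, 4, 1),
    (2, 0, 10, 2, 5, 10, 1, 2), (0, 0, 0, 0, 2, 1, 7, 8), (0, 0, 0, 0, 2, 8, 11, 13), (2, 0, 7, 2, 3, 5, 8, 1),
    (2, 0, 6, 2, 6, 9, 1, 2), (0, 0, 0, 0, 2, 1, 4, 11), (0, 0, 0, 0, 2, 4, 7, 13), (2, 0, 3, 2, 3, 12, 4, 1),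
    (2, 0, 2, 2, 5, 9, 1, 2), (0, 0, 0, 0, 2, 1, 7, 11), (1, 0, 14, 0, 6, 10, 1, 3), (1, 0, 13, 0, 5, 9, 2, 3),
    (1, 1, 3, 0, 3, 12, 4, 5), (1, 1, 4, 0, 3, 9, 1, 5), (1, 0, 10, 0, 5, 10, 1, 3), (1, 0, 9, 0, 6, 9, 2, 3),
    (1, 1, 7, 0, 3, 5, 8, 9), (1, 1, 8, 0, 3, 5, 1, 9), (1, 0, 6, 0, 6, 9, 1, 3), (1, 0, 5, 0, 5, 10, 2, 3),
    (1, 1, 11, 0, 3, 9, 4, 5), (1, 1, 12, 0, 3, 12, 1, 5), (1, 0, 2, 0, 5, 9, 1, 3), (1, 0, 1, 0, 6, 10, 2, 3),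
    (2, 0, 14, 4, 6, 10, 1, 2), (2, 0, 13, 4, 5, 9, 2, 1), (2, 0, 12, 4, 3, 12, 1, 4), (0, 0, 0, 0, 4, 1, 2, 8),
    (0, 0, 0, 0, 4, 2, 7, 8), (0, 0, 0, 0, 4, 1, 7, 8), (0, 0, 0, 0, 4, 8, 11, 13), (2, 0, 7, 4, 3, 5, 8, 1),
    (2, 0, 6, 4, 6, 9, 1, 2), (2, 0, 5, 4, 5, 10, 2, 1), (2, 0, 4, 4, 3, 9, 1, 4), (0, 0, 0, 0, 4, 1, 2, 13),
    (0, 0, 0, 0, 4, 2, 7, 11), (0, 0, 0, 0, 4, 1, 7, 11), (1, 0, 14, 0, 6, 10, 1, 3), (1, 1, 2, 0, 5, 9, 1, 3),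
    (1, 0, 12, 0, 3, 12, 1, 5), (1, 0, 11, 0, 3, 9, 4, 5), (1, 1, 5, 0, 5, 10, 2, 3), (1, 0, 9, 0, 6, 9, 2, 3),
    (1, 1, 7, 0, 3, 5, 8, 9), (1, 1, 8, 0, 3, 5, 1, 9), (1, 0, 6, 0, 6, 9, 1, 3), (1, 1, 10, 0, 5, 10, 1, 3),
    (1, 0, 4, 0, 3, 9, 1, 5), (1, 0, 3, 0, 3, 12, 4, 5), (1, 1, 13, 0, 5, 9, 2, 3), (1, 0, 1, 0, 6, 10, 2, 3),
    (1, 1, 1, 0, 6, 10, 2, 3), (1, 0, 13, 0, 5, 9, 2, 3), (1, 0, 12, 0, 3, 12, 1, 5), (1, 0, 11, 0, 3, 9, 4, 5),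
    (1, 0, 10, 0, 5, 10, 1, 3), (1, 1, 6, 0, 6, 9, 1, 3), (1, 1, 7, 0, 3, 5, 8, 9), (1, 1, 8, 0, 3, 5, 1, 9),
    (1, 1, 9, 0, 6, 9, 2, 3), (1, 0, 5, 0, 5, 10, 2, 3), (1, 0, 4, 0, 3, 9, 1, 5), (1, 0, 3, 0, 3, 12, 4, 5),
    (1, 0, 2, 0, 5, 9, 1, 3), (1, 1, 14, 0, 6, 10, 1, 3), (0, 0, 0, 0, 7, 2, 4, 8), (0, 0, 0, 0, 7, 1, 4, 8),
    (2, 0, 12, 7, 3, 12, 1, 4), (0, 0, 0, 0, 7, 1, 2, 8), (2, 0, 10, 7, 5, 10, 1, 2), (2, 0, 9, 7, 6, 9, 2, 1),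
    (0, 0, 0, 0, 7, 8, 11, 13), (2, 0, 7, 7, 3, 5, 8, 1), (0, 0, 0, 0, 7, 2, 4, 11), (0, 0, 0, 0, 7, 1, 4, 11),
    (2, 0, 4, 7, 3, 9, 1, 4), (0, 0, 0, 0, 7, 1, 2, 13), (2, 0, 2, 7, 5, 9, 1, 2), (2, 0, 1, 7, 6, 10, 2, 1),
    (2, 0, 14, 8, 6, 10, 1, 2), (2, 0, 13, 8, 5, 9, 2, 1), (2, 0, 12, 8, 3, 12, 1, 4), (2, 0, 11, 8, 3, 9, 4, 1),
    (2, 0, 10, 8, 5, 10, 1, 2), (2, 0, 9, 8, 6, 9, 2, 1), (2, 0, 8, 8, 3, 5, 1, 8), (0, 0, 0, 0, 8, 1, 2, 4),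
    (0, 0, 0, 0, 8, 2, 4, 11), (0, 0, 0, 0, 8, 1, 4, 11), (0, 0, 0, 0, 8, 4, 7, 13), (0, 0, 0, 0, 8, 1, 2, 13),
    (0, 0, 0, 0, 8, 2, 7, 11), (0, 0, 0, 0, 8, 1, 7, 11), (1, 0, 14, 0, 6, 10, 1, 3), (1, 1, 2, 0, 5, 9, 1, 3),
    (1, 0, 12, 0, 3, 12, 1, 5), (1, 1, 4, 0, 3, 9, 1, 5), (1, 0, 10, 0, 5, 10, 1, 3), (1, 1, 6, 0, 6, 9, 1, 3),
    (1, 0, 8, 0, 3, 5, 1, 9), (1, 0, 7, 0, 3, 5, 8, 9), (1, 1, 9, 0, 6, 9, 2, 3), (1, 0, 5, 0, 5, 10, 2, 3),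
    (1, 1, 11, 0, 3, 9, 4, 5), (1, 0, 3, 0, 3, 12, 4, 5), (1, 1, 13, 0, 5, 9, 2, 3), (1, 0, 1, 0, 6, 10, 2, 3),
    (1, 1, 1, 0, 6, 10, 2, 3), (1, 0, 13, 0, 5, 9, 2, 3), (1, 0, 12, 0, 3, 12, 1, 5), (1, 1, 4, 0, 3, 9, 1, 5),
    (1, 1, 5, 0, 5, 10, 2, 3), (1, 0, 9, 0, 6, 9, 2, 3), (1, 0, 8, 0, 3, 5, 1, 9), (1, 0, 7, 0, 3, 5, 8, 9),
    (1, 0, 6, 0, 6, 9, 1, 3), (1, 1, 10, 0, 5, 10, 1, 3), (1, 1, 11, 0, 3, 9, 4, 5), (1, 0, 3, 0, 3, 12, 4, 5),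
    (1, 0, 2, 0, 5, 9, 1, 3), (1, 1, 14, 0, 6, 10, 1, 3), (0, 0, 0, 0, 11, 2, 4, 8), (0, 0, 0, 0, 11, 1, 4, 8),
    (2, 0, 12, 11, 3, 12, 1, 4), (2, 0, 11, 11, 3, 9, 4, 1), (0, 0, 0, 0, 11, 2, 7, 8), (0, 0, 0, 0, 11, 1, 7, 8),
    (2, 0, 8, 11, 3, 5, 1, 8), (0, 0, 0, 0, 11, 1, 2, 4), (2, 0, 6, 11, 6, 9, 1, 2), (2, 0, 5, 11, 5, 10, 2, 1),
    (0, 0, 0, 0, 11, 4, 7, 13), (0, 0, 0, 0, 11, 1, 2, 13), (2, 0, 2, 11, 5, 9, 1, 2), (2, 0, 1, 11, 6, 10, 2, 1),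
    (1, 1, 1, 0, 6, 10, 2, 3), (1, 1, 2, 0, 5, 9, 1, 3), (1, 1, 3, 0, 3, 12, 4, 5), (1, 0, 11, 0, 3, 9, 4, 5),
    (1, 0, 10, 0, 5, 10, 1, 3), (1, 0, 9, 0, 6, 9, 2, 3), (1, 0, 8, 0, 3, 5, 1, 9), (1, 0, 7, 0, 3, 5, 8, 9),
    (1, 0, 6, 0, 6, 9, 1, 3), (1, 0, 5, 0, 5, 10, 2, 3), (1, 0, 4, 0, 3, 9, 1, 5), (1, 1, 12, 0, 3, 12, 1, 5),
    (1, 1, 13, 0, 5, 9, 2, 3), (1, 1, 14, 0, 6, 10, 1, 3), (0, 0, 0, 0, 13, 2, 4, 8), (2, 0, 13, 13, 5, 9, 2, 1),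
    (0, 0, 0, 0, 13, 4, 7, 8), (0, 0, 0, 0, 13, 1, 2, 8), (2, 0, 10, 13, 5, 10, 1, 2), (0, 0, 0, 0, 13, 1, 7, 8),
    (2, 0, 8, 13, 3, 5, 1, 8), (0, 0, 0, 0, 13, 1, 2, 4), (2, 0, 6, 13, 6, 9, 1, 2), (0, 0, 0, 0, 13, 1, 4, 11),
    (2, 0, 4, 13, 3, 9, 1, 4), (2, 0, 3, 13, 3, 12, 4, 1), (0, 0, 0, 0, 13, 2, 7, 11), (2, 0, 1, 13, 6, 10, 2, 1),
    (2, 0, 14, 14, 6, 10, 1, 2), (0, 0, 0, 0, 14, 1, 4, 8), (0, 0, 0, 0, 14, 4, 7, 8), (0, 0, 0, 0, 14, 1, 2, 8),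
    (0, 0, 0, 0, 14, 2, 7, 8), (2, 0, 9, 14, 6, 9, 2, 1), (2, 0, 8, 14, 3, 5, 1, 8), (0, 0, 0, 0, 14, 1, 2, 4),
    (0, 0, 0, 0, 14, 2, 4, 11), (2, 0, 5, 14, 5, 10, 2, 1), (2, 0, 4, 14, 3, 9, 1, 4), (2, 0, 3, 14, 3, 12, 4, 1),
    (2, 0, 2, 14, 5, 9, 1, 2), (0, 0, 0, 0, 14, 1, 7, 11), (1, 0, 14, 0, 6, 10, 1, 3), (1, 0, 13, 0, 5, 9, 2, 3),
    (1, 1, 3, 0, 3, 12, 4, 5), (1, 0, 11, 0, 3, 9, 4, 5), (1, 1, 5, 0, 5, 10, 2, 3), (1, 1, 6, 0, 6, 9, 1, 3),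
    (1, 0, 8, 0, 3, 5, 1, 9), (1, 0, 7, 0, 3, 5, 8, 9), (1, 1, 9, 0, 6, 9, 2, 3), (1, 1, 10, 0, 5, 10, 1, 3),
    (1, 0, 4, 0, 3, 9, 1, 5), (1, 1, 12, 0, 3, 12, 1, 5), (1, 0, 2, 0, 5, 9, 1, 3), (1, 0, 1, 0, 6, 10, 2, 3)]

abbrev PE := ℕ × ℕ × ℕ × ℕ × (ℕ × ℕ × ℕ × ℕ)

/-- the check of one case -/
def okE (v h : ℕ) (e : PE) : Bool := okc e.2.2.2.2 && (Nat.blt e.2.2.2.1 16 &&
  (bif Nat.beq e.1 0 then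
    decide (mv (t2 0 15) e.2.2.2.1 e.2.2.2.2 = t2 0 15) &&
      decide (mv (t2 v h) e.2.2.2.1 e.2.2.2.2 = t2 1 1)
  else bif Nat.beq e.1 1 then
    decide (mv (t2 0 15) e.2.2.2.1 e.2.2.2.2 = t2 0 4) &&
      (decide (mv (t2 0 e.2.2.1) e.2.2.2.1 e.2.2.2.2 = t2 0 8) &&
      (Nat.blt 0 e.2.2.1 && (Nat.blt e.2.2.1 16 && ((List.range 16).all fun x =>
        decide ((t2 0 e.2.2.1).getD x 0 ≤ (va (va (t2 0 15) (t2 v h))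
          (vs (-(e.2.1 : ℤ)) (t2 v 15))).getD x 0)))))
  else
    decide (mv (t2 v h) e.2.2.2.1 e.2.2.2.2 = t2 0 4) &&
      (decide (mv (t2 v e.2.2.1) e.2.2.2.1 e.2.2.2.2 = t2 0 8) &&
      (Nat.blt 0 e.2.2.1 && (Nat.blt e.2.2.1 16 && ((List.range 16).all fun x =>
        decide ((t2 v e.2.2.1).getD x 0 ≤ (va (t2 0 15) (t2 v h)).getD x 0)))))))

theorem tabP_ok : ((List.range 16).all fun v => (List.range 14).all fun h =>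
    okE v (h + 1) (tabP.getD (14 * v + h) (0, 0, 0, 0, 0, 0, 0, 0))) = true := by decide +kernel

theorem S8' {D : W4 → ℚ} (hD : Cq D) (h1 : dl D (t2 0 15) = 0) (h2 : dl D (t2 1 1) = 0) :
    D ∈ Pc := by
  refine root_sound okT8 ok8 (fun j hj => ?_) (chkR_sound okR8 hD)
  have e0 : R8.getD 0 [] = t2 0 15 := by decide +kernel
  have e1 : R8.getD 1 [] = t2 1 1 := by decide +kernel
  interval_cases j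
  · rw [e0]; exact h1
  · rw [e1]; exact h2

theorem S9' {D : W4 → ℚ} (hD : Cq D) (h1 : dl D (t2 0 4) = 0) (h2 : dl D (t2 0 8) = 0) :
    D ∈ Pc := by
  have e0 : wa9 = t2 0 4 := by decide +kernel
  have e1 : wb9 = t2 0 8 := by decide +kernel
  exact S9 (chkR_sound okR9 hD) (by rw [e0]; exact h1) (by rw [e1]; exact h2)

/-- two tight inequalities of type 2 with different directions -/
theorem pairs {D : W4 → ℚ} (hD : Cq D) (h2 : dl D (t2 0 15) = 0) {v h : ℕ} (hv : v < 16)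
    (hh : h < 15) (h0 : h ≠ 0) (ht : dl D (t2 v h) = 0) : D ∈ Pc := by
  have hk := tabP_ok
  simp only [List.all_eq_true, List.mem_range] at hk
  have h3 := hk v hv (h - 1) (by omega)
  rw [show h - 1 + 1 = h by omega] at h3
  generalize tabP.getD (14 * v + (h - 1)) (0, 0, 0, 0, 0, 0, 0, 0) = e at h3
  obtain ⟨k, s, h1, t, c⟩ := e
  unfold okE at h3
  simp only [Bool.and_eq_true] at h3
  obtain ⟨hc, ht16, h4⟩ := h3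
  rw [Nat.blt_eq] at ht16
  obtain ⟨g, s', hg⟩ := mv_dl hc ht16
  have hD' : Cq fun v => D (g v + s') := hD.comp g s'
  apply Pc_of_comp g s'
  by_cases k0 : k = 0
  · rw [k0] at h4
    have h5 : (decide (mv (t2 0 15) t c = t2 0 15) && decide (mv (t2 v h) t c = t2 1 1)) = true := h4
    simp only [Bool.and_eq_true, decide_eq_true_eq] at h5
    refine S8' hD' ?_ ?_
    · rw [← h5.1, hg]; exact h2
    · rw [← h5.2, hg]; exact ht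
  · have b0 : Nat.beq k 0 = false := by rw [← Bool.not_eq_true, Nat.beq_eq]; exact k0
    rw [b0] at h4
    by_cases k1 : k = 1
    · rw [k1] at h4
      simp only [cond_false] at h4
      have b1 : Nat.beq 1 1 = true := rfl
      rw [b1] at h4
      simp only [cond_true, Bool.and_eq_true, decide_eq_true_eq, Nat.blt_eq] at h4
      obtain ⟨h5, h6, h7, h8, h9⟩ := h4
      refine S9' hD' ?_ ?_
      · rw [← h5, hg]; exact h2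
      · rw [← h6, hg]
        have h10 := dl_le hD.nn h9
        rw [dl_va, dl_va, dl_vs, h2, ht] at h10
        have h11 := t2_nonneg hD hv (h := 15) (by norm_num) (by norm_num)
        have h12 := t2_nonneg hD (v := 0) (by norm_num) h8 (by omega)
        have h13 : (0 : ℚ) ≤ (s : ℚ) * dl D (t2 v 15) := mul_nonneg (by positivity) h11
        push_cast at h10
        linarith only [h10, h12, h13]
    · have b1 : Nat.beq k 1 = false := by rw [← Bool.not_eq_true, Nat.beq_eq]; exact k1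
      rw [b1] at h4
      simp only [cond_false, Bool.and_eq_true, decide_eq_true_eq, Nat.blt_eq] at h4
      obtain ⟨h5, h6, h7, h8, h9⟩ := h4
      refine S9' hD' ?_ ?_
      · rw [← h5, hg]; exact ht
      · rw [← h6, hg]
        have h10 := dl_le hD.nn h9
        rw [dl_va, h2, ht] at h10
        have h12 := t2_nonneg hD hv h8 (by omega)
        linarith only [h10, h12]

theorem p15_ok : ((List.range 16).all fun v => !(pr (v &&& 15)) || (List.range 16).all fun x =>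
    decide ((va (t1 0) (t1 v)).getD x 0 ≤ (va (vs 2 (t2 0 15)) (vs 2 (t2 v 15))).getD x 0)) = true := by
  decide +kernel

/-- two tight inequalities of type 2 with complementary hyperplanes -/
theorem pair15 {D : W4 → ℚ} (hD : Cq D) (h2 : dl D (t2 0 15) = 0) {v : ℕ} (hv : v < 16)
    (hp : pr (v &&& 15) = true) (ht : dl D (t2 v 15) = 0) : D ∈ Pc := by
  have hk := p15_ok
  simp only [List.all_eq_true, List.mem_range] at hk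
  have h3 := hk v hv
  rw [hp] at h3
  have h4 : ((List.range 16).all fun x => decide ((va (t1 0) (t1 v)).getD x 0 ≤
      (va (vs 2 (t2 0 15)) (vs 2 (t2 v 15))).getD x 0)) = true := h3
  have h5 := dl_le hD.nn h4
  rw [dl_va, dl_va, dl_vs, dl_vs, h2, ht] at h5
  have h6 := t1_nonneg hD hv
  have h7 := t1_nonneg hD (v := 0) (by norm_num)
  exact S1' hD (by linarith only [h5, h6, h7])

end Pool.Agent.helper25.AG
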