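import Pool.Agent.helper25.AG.S1

set_option autoImplicit false
set_option linter.unusedSectionVars false
set_option linter.unusedVariables false

/-!
# Project AG: checks by computation
-/

namespace Pool.Agent.helper25.AG

open Finset Pool.Agent.helper25.PV

variable {n : ℕ} {E : ℕ → ℚ} {D : W4 → ℚ} {facts : List (List ℤ)}

/-- the setting: `E` extends `D`, and the facts hold -/
structure Ctx (n : ℕ) (E : ℕ → ℚ) (D : W4 → ℚ) (facts : List (List ℤ)) : Prop where
  hn : 16 ≤ n
  hE : ∀ k < 16, E k = D (pt k)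
  hf : ∀ l ∈ facts, 0 ≤ dotn n (fun k => l.getD k 0) E

theorem Ctx.pos (h : Ctx n E D facts) {f : ℕ → ℤ} {c : Cert} (hc : chk n facts f c = true) :
    0 ≤ dotn n f E := chk_sound h.hf hc

theorem Ctx.eqz (h : Ctx n E D facts) {f : ℕ → ℤ} {c c' : Cert} (hc : chk n facts f c = true)
    (hc' : chk n facts (fun k => - f k) c' = true) : dotn n f E = 0 := by
  have h1 := h.pos hc
  have h2 := h.pos hc'
  have h3 : dotn n (fun k => - f k) E = - dotn n f E := by
    have := dotn_mul n (-1) f E
    simp only [neg_mul, one_mul] at this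
    rw [this]; push_cast; ring
  rw [h3] at h2
  linarith only [h1, h2]

/-- sums over lists of numbers -/
def lsum (l : List ℕ) (f : ℕ → ℤ) : ℤ := l.foldr (fun x a => f x + a) 0

theorem dotn_lsum (l : List ℕ) (f : ℕ → ℕ → ℤ) :
    dotn n (fun k => lsum l fun x => f x k) E = (l.map fun x => dotn n (f x) E).sum := by
  induction l with
  | nil => exact dotn_zero n E
  | cons a l ih =>
    have : (fun k => lsum (a :: l) fun x => f x k) = fun k => f a k + lsum l fun x => f x k := rfl
    rw [this, dotn_add, ih]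
    simp

/-- a table of forms -/
def tabv (tab : List (List ℤ)) (x k : ℕ) : ℤ := (tab.getD x []).getD k 0

/-- the function of a table -/
def tabF (n : ℕ) (tab : List (List ℤ)) (E : ℕ → ℚ) : W4 → ℚ := fun v => dotn n (tabv tab (ix v)) E

theorem tabF_pt {x : ℕ} (hx : x < 16) (tab : List (List ℤ)) :
    tabF n tab E (pt x) = dotn n (tabv tab x) E := by
  unfold tabF
  rw [ix_pt x hx]

/-- the numbers with given parity -/
def pls (b : Bool) (h : ℕ) : List ℕ := (List.range 16).filter fun x => (pr (x &&& h)) == b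

theorem sum_range_list (m : ℕ) (f : ℕ → ℚ) : ∑ x ∈ range m, f x = ((List.range m).map f).sum := by
  induction m with
  | zero => simp
  | succ m ih => rw [sum_range_succ, ih, List.range_succ, List.map_append, List.sum_append]; simp

theorem filter_sum (l : List ℕ) (p : ℕ → Bool) (f : ℕ → ℚ) :
    (l.map fun x => if p x = true then f x else 0).sum = ((l.filter p).map f).sum := by
  induction l with
  | nil => rfl
  | cons a l ih =>
    rw [List.map_cons, List.sum_cons, ih, List.filter_cons]
    by_cases h : p a = true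
    · rw [if_pos h, if_pos h, List.map_cons, List.sum_cons]
    · rw [if_neg h, if_neg h, zero_add]

theorem psum_tab (b : Bool) (h : ℕ) (tab : List (List ℤ)) :
    psum b h (tabF n tab E) = dotn n (fun k => lsum (pls b h) fun x => tabv tab x k) E := by
  rw [dotn_lsum]
  unfold psum pls
  rw [← filter_sum, sum_range_list]
  congr 1
  refine List.map_congr_left fun x hx => ?_
  rw [tabF_pt (List.mem_range.1 hx)]
  by_cases hb : pr (x &&& h) = b
  · rw [if_pos hb, if_pos (by rw [hb]; cases b <;> rfl)]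
  · rw [if_neg hb, if_neg (by
      intro h1
      apply hb
      exact beq_iff_eq.1 h1)]

/-- the certificates for `S1` -/
structure C1 where
  e1 : Cert
  e2 : Cert
  nn : List Cert
  h0 : List Cert
  hp : List Cert

/-- the check for `S1` -/
def chk1 (n : ℕ) (facts tab : List (List ℤ)) (c : C1) : Bool :=
  chk n facts (fun k => lsum (List.range 16) (fun x => tabv tab x k) - 4 * tabv tab 0 k) c.e1 &&
  (chk n facts (fun k => - (lsum (List.range 16) (fun x => tabv tab x k) - 4 * tabv tab 0 k)) c.e2 &&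
  ((List.range 16).all (fun x => chk n facts (tabv tab x) (c.nn.getD x (0, []))) &&
  ((List.range 15).all (fun h => chk n facts
    (fun k => lsum (pls false (h + 1)) (fun x => tabv tab x k) - 2 * tabv tab 0 k)
    (c.h0.getD h (0, []))) &&
  (List.range 256).all (fun i => !pr ((i % 16) &&& (i / 16)) || chk n facts
    (fun k => lsum (pls true (i / 16)) (fun x => tabv tab x k) - 2 * tabv tab (i % 16) k)
    (c.hp.getD i (0, []))))))

theorem dotn_sub2 (f g : ℕ → ℤ) (c : ℤ) :
    dotn n (fun k => f k - c * g k) E = dotn n f E - c * dotn n g E := by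
  have h1 : (fun k => f k - c * g k) = fun k => f k + (-c) * g k := by funext k; ring
  rw [h1, dotn_add, dotn_mul]; push_cast; ring

theorem Ctx.s1 (h : Ctx n E D facts) {tab : List (List ℤ)} {c : C1} (hc : chk1 n facts tab c = true) :
    tabF n tab E ∈ Pc0 := by
  unfold chk1 at hc
  simp only [Bool.and_eq_true, List.all_eq_true, List.mem_range] at hc
  obtain ⟨k1, k2, k3, k4, k5⟩ := hc
  apply S1
  · apply forall_pt
    intro x hx
    rw [tabF_pt hx]
    exact h.pos (k3 x hx)
  · have h1 := h.eqz k1 k2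
    rw [dotn_sub2, dotn_lsum] at h1
    rw [sum_ix, sum_range_list, ← pt_zero, tabF_pt (by norm_num)]
    rw [List.map_congr_left fun x hx => tabF_pt (List.mem_range.1 hx) tab]
    push_cast at h1
    linarith only [h1]
  · intro x hx hx0
    have h1 := h.pos (k4 (x - 1) (by omega))
    rw [show x - 1 + 1 = x by omega, dotn_sub2] at h1
    rw [psum_tab, ← pt_zero, tabF_pt (by norm_num)]
    push_cast at h1
    linarith only [h1]
  · intro x hx p hp hpr
    have h1 := k5 (16 * x + p) (by omega)
    rw [show (16 * x + p) % 16 = p by omega, show (16 * x + p) / 16 = x by omega, hpr] at h1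
    have h2 := h.pos h1
    rw [dotn_sub2] at h2
    rw [psum_tab, tabF_pt hp]
    push_cast at h2
    linarith only [h2]

/-! ### combinations of planes -/

/-- planes by numbers -/
abbrev Pl := ℕ × ℕ × ℕ

/-- the indicator function -/
def pv (P : Pl) (k : ℕ) : ℤ :=
  bif Nat.beq k P.1 || (Nat.beq k P.2.1 || (Nat.beq k P.2.2 ||
    Nat.beq k (P.1 ^^^ P.2.1 ^^^ P.2.2))) then 1 else 0

/-- an admissible plane -/
def okp (P : Pl) : Bool := Nat.ble P.1 15 && (Nat.ble P.2.1 15 && (Nat.ble P.2.2 15 &&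
  (!(Nat.beq P.1 P.2.1) && (!(Nat.beq P.1 P.2.2) && !(Nat.beq P.2.1 P.2.2)))))

theorem pt_inj {a b : ℕ} (ha : a < 16) (hb : b < 16) (h : pt a = pt b) : a = b := by
  rw [← ix_pt a ha, ← ix_pt b hb, h]

theorem okp_spec {P : Pl} (h : okp P = true) : P.1 < 16 ∧ P.2.1 < 16 ∧ P.2.2 < 16 ∧
    P.1 ≠ P.2.1 ∧ P.1 ≠ P.2.2 ∧ P.2.1 ≠ P.2.2 := by
  unfold okp at h
  simp only [Bool.and_eq_true, Nat.ble_eq, Bool.not_eq_true'] at h
  obtain ⟨h1, h2, h3, h4, h5, h6⟩ := h
  refine ⟨by omega, by omega, by omega, ?_, ?_, ?_⟩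
  · intro h; rw [h] at h4; simp at h4
  · intro h; rw [h] at h5; simp at h5
  · intro h; rw [h] at h6; simp at h6

theorem pv_spec {P : Pl} (h : okp P = true) {k : ℕ} (hk : k < 16) :
    chp (pt P.1) (pt P.2.1) (pt P.2.2) (pt k) = pv P k := by
  obtain ⟨h1, h2, h3, -⟩ := okp_spec h
  unfold chp pv
  rw [← pt_xor, ← pt_xor]
  have e : ∀ a < 16, (pt k = pt a ↔ Nat.beq k a = true) := by
    intro a ha
    rw [Nat.beq_eq]
    exact ⟨fun h => pt_inj hk ha h, fun h => by rw [h]⟩
  have e2 : (pt k = pt P.1 ∨ pt k = pt P.2.1 ∨ pt k = pt P.2.2 ∨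
      pt k = pt (P.1 ^^^ P.2.1 ^^^ P.2.2)) ↔ (Nat.beq k P.1 = true ∨ Nat.beq k P.2.1 = true ∨
      Nat.beq k P.2.2 = true ∨ Nat.beq k (P.1 ^^^ P.2.1 ^^^ P.2.2) = true) := by
    rw [e _ h1, e _ h2, e _ h3, e _ (Nat.xor_lt_two_pow (n := 4)
      (Nat.xor_lt_two_pow (n := 4) h1 h2) h3)]
  by_cases h4 : Nat.beq k P.1 = true ∨ Nat.beq k P.2.1 = true ∨ Nat.beq k P.2.2 = true ∨
    Nat.beq k (P.1 ^^^ P.2.1 ^^^ P.2.2) = true
  · rw [if_pos (e2.2 h4)]
    have : (Nat.beq k P.1 || (Nat.beq k P.2.1 || (Nat.beq k P.2.2 ||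
      Nat.beq k (P.1 ^^^ P.2.1 ^^^ P.2.2)))) = true := by
      simp only [Bool.or_eq_true]; exact h4
    rw [this]; norm_num
  · rw [if_neg (fun h => h4 (e2.1 h))]
    have : (Nat.beq k P.1 || (Nat.beq k P.2.1 || (Nat.beq k P.2.2 ||
      Nat.beq k (P.1 ^^^ P.2.1 ^^^ P.2.2)))) = false := by
      rw [← Bool.not_eq_true]; simp only [Bool.or_eq_true]; exact h4
    rw [this]; norm_num

/-- a combination of planes with linear forms as coefficients -/
abbrev Comb := List (List ℤ × Pl)

/-- its function -/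
def combF (n : ℕ) (L : Comb) (E : ℕ → ℚ) : W4 → ℚ := fun v =>
  (L.map fun a => dotn n (fun k => a.1.getD k 0) E *
    chp (pt a.2.1) (pt a.2.2.1) (pt a.2.2.2) v).sum

/-- its forms -/
def combv (L : Comb) (x k : ℕ) : ℤ := L.foldr (fun a s => pv a.2 x * a.1.getD k 0 + s) 0

theorem combF_pt (L : Comb) (hL : ∀ a ∈ L, okp a.2 = true) {x : ℕ} (hx : x < 16) :
    combF n L E (pt x) = dotn n (combv L x) E := by
  induction L with
  | nil => exact (dotn_zero n E).symm
  | cons a L ih =>
    have h1 : combF n (a :: L) E (pt x) = dotn n (fun k => a.1.getD k 0) E *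
      chp (pt a.2.1) (pt a.2.2.1) (pt a.2.2.2) (pt x) + combF n L E (pt x) := by
      simp [combF]
    have h2 : combv (a :: L) x = fun k => pv a.2 x * a.1.getD k 0 + combv L x k := rfl
    rw [h1, h2, dotn_add, dotn_mul, ih fun b hb => hL b (List.mem_cons_of_mem _ hb),
      pv_spec (hL a List.mem_cons_self) hx]
    ring

theorem combF_mem (L : Comb) (hL : ∀ a ∈ L, okp a.2 = true)
    (h : ∀ a ∈ L, 0 ≤ dotn n (fun k => a.1.getD k 0) E) : combF n L E ∈ Pc := by
  induction L with
  | nil =>
    have : combF n [] E = 0 := by funext v; simp [combF]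
    rw [this]; exact zero_mem _
  | cons a L ih =>
    have h1 : combF n (a :: L) E = (fun v => dotn n (fun k => a.1.getD k 0) E *
      chp (pt a.2.1) (pt a.2.2.1) (pt a.2.2.2) v) + combF n L E := by
      funext v; simp [combF]
    rw [h1]
    obtain ⟨h2, h3, h4, h5, h6, h7⟩ := okp_spec (hL a List.mem_cons_self)
    exact add_mem (Pc_gen (h a List.mem_cons_self) (fun h => h5 (pt_inj h2 h3 h))
      (fun h => h6 (pt_inj h2 h4 h)) (fun h => h7 (pt_inj h3 h4 h)))
      (ih (fun b hb => hL b (List.mem_cons_of_mem _ hb))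
        (fun b hb => h b (List.mem_cons_of_mem _ hb)))

/-- the check that the coefficients of a combination are nonnegative -/
def chkN (n : ℕ) (facts : List (List ℤ)) (L : Comb) (cl : List Cert) : Bool :=
  L.all (fun a => okp a.2) && (List.range L.length).all fun j =>
    chk n facts (fun k => (L.getD j ([], 0, 0, 0)).1.getD k 0) (cl.getD j (0, []))

/-- the check of a decomposition -/
def chkE (n : ℕ) (facts : List (List ℤ)) (m : ℕ) (tab : List (List ℤ)) (L : Comb)
    (ce : List (Cert × Cert)) : Bool :=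
  (List.range 16).all fun x =>
    chk n facts (fun k => (m : ℤ) * (bif Nat.beq k x then 1 else 0) - (tabv tab x k + combv L x k))
      (ce.getD x ((0, []), (0, []))).1 &&
    chk n facts (fun k => - ((m : ℤ) * (bif Nat.beq k x then 1 else 0) -
      (tabv tab x k + combv L x k))) (ce.getD x ((0, []), (0, []))).2

theorem Ctx.comb (h : Ctx n E D facts) {L : Comb} {cl : List Cert} (hc : chkN n facts L cl = true) :
    combF n L E ∈ Pc ∧ ∀ x < 16, combF n L E (pt x) = dotn n (combv L x) E := by
  unfold chkN at hc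
  simp only [Bool.and_eq_true, List.all_eq_true, List.mem_range] at hc
  obtain ⟨h1, h2⟩ := hc
  refine ⟨combF_mem L h1 fun a ha => ?_, fun x hx => combF_pt L h1 hx⟩
  obtain ⟨j, hj, rfl⟩ := List.mem_iff_getElem.1 ha
  have h3 := h.pos (h2 j hj)
  have h4 : L.getD j ([], 0, 0, 0) = L[j] := by
    rw [List.getD_eq_getElem?_getD, List.getElem?_eq_getElem hj]; rfl
  rw [h4] at h3
  exact h3

theorem dotn_single (hn : 16 ≤ n) {x : ℕ} (hx : x < 16) :
    dotn n (fun k => bif Nat.beq k x then 1 else 0) E = E x := by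
  unfold dotn
  rw [sum_eq_single_of_mem x (mem_range.2 (by omega))]
  · have : Nat.beq x x = true := Nat.beq_eq ▸ rfl
    show (((bif Nat.beq x x then 1 else 0) : ℤ) : ℚ) * E x = _
    rw [this]; simp
  · intro k _ hk
    have : Nat.beq k x = false := by
      rw [← Bool.not_eq_true, Nat.beq_eq]; exact hk
    show (((bif Nat.beq k x then 1 else 0) : ℤ) : ℚ) * E k = _
    rw [this]; simp

theorem Ctx.mem (h : Ctx n E D facts) {m : ℕ} (hm : 0 < m) {tab : List (List ℤ)} {L : Comb}
    {cl : List Cert} {ce : List (Cert × Cert)} {base : W4 → ℚ} (hb : base ∈ Pc)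
    (hbt : ∀ x < 16, base (pt x) = dotn n (tabv tab x) E) (hc : chkN n facts L cl = true)
    (he : chkE n facts m tab L ce = true) : D ∈ Pc := by
  obtain ⟨h1, h2⟩ := h.comb hc
  unfold chkE at he
  simp only [Bool.and_eq_true, List.all_eq_true, List.mem_range] at he
  have hmq : (0 : ℚ) < m := by exact_mod_cast hm
  have h3 : D = fun v => (m : ℚ)⁻¹ * (base + combF n L E) v := by
    funext v
    rw [← pt_ix v]
    have hx := ix_lt v
    obtain ⟨e1, e2⟩ := he _ hx
    have e3 := h.eqz e1 e2
    have e4 : (fun k => (m : ℤ) * (bif Nat.beq k (ix v) then 1 else 0) -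
        (tabv tab (ix v) k + combv L (ix v) k)) =
        fun k => (m : ℤ) * (bif Nat.beq k (ix v) then 1 else 0) +
          (-1) * (tabv tab (ix v) k + combv L (ix v) k) := by funext k; ring
    rw [e4, dotn_add, dotn_mul, dotn_mul, dotn_add, dotn_single h.hn hx, ← hbt _ hx, ← h2 _ hx,
      h.hE _ hx] at e3
    rw [Pi.add_apply]
    push_cast at e3
    field_simp
    linarith only [e3]
  rw [h3]
  exact Pc_smul (by positivity) (add_mem hb h1)

end Pool.Agent.helper25.AG
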