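import Pool.Agent.helper25.AG.Base

set_option autoImplicit false
set_option linter.unusedSectionVars false
set_option linter.unusedVariables false

/-!
# Project AG: the cone of the planes, and the planes through one point
-/

namespace Pool.Agent.helper25.AG

open Finset Pool.Agent.helper25.PV

/-- the indicator function of a plane -/
def chp (p q s : W4) : W4 → ℚ := fun v => if v = p ∨ v = q ∨ v = s ∨ v = p + q + s then 1 else 0

/-- the cone of the planes -/
def Pc : AddSubmonoid (W4 → ℚ) :=
  AddSubmonoid.closure {x | ∃ (c : ℚ) (p q s : W4), 0 ≤ c ∧ p ≠ q ∧ p ≠ s ∧ q ≠ s ∧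
    x = fun v => c * chp p q s v}

/-- the cone of the planes through the origin -/
def Pc0 : AddSubmonoid (W4 → ℚ) :=
  AddSubmonoid.closure {x | ∃ (c : ℚ) (p q : W4), 0 ≤ c ∧ p ≠ 0 ∧ q ≠ 0 ∧ p ≠ q ∧
    x = fun v => c * chp 0 p q v}

theorem Pc_gen {c : ℚ} {p q s : W4} (hc : 0 ≤ c) (h1 : p ≠ q) (h2 : p ≠ s) (h3 : q ≠ s) :
    (fun v => c * chp p q s v) ∈ Pc := AddSubmonoid.subset_closure ⟨c, p, q, s, hc, h1, h2, h3, rfl⟩

theorem Pc0_gen {c : ℚ} {p q : W4} (hc : 0 ≤ c) (h1 : p ≠ 0) (h2 : q ≠ 0) (h3 : p ≠ q) :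
    (fun v => c * chp 0 p q v) ∈ Pc0 := AddSubmonoid.subset_closure ⟨c, p, q, hc, h1, h2, h3, rfl⟩

theorem Pc0_le : Pc0 ≤ Pc := by
  unfold Pc0
  rw [AddSubmonoid.closure_le]
  rintro x ⟨c, p, q, hc, h1, h2, h3, rfl⟩
  exact Pc_gen hc h1.symm h2.symm h3

theorem Pc_smul {c : ℚ} (hc : 0 ≤ c) {x : W4 → ℚ} (hx : x ∈ Pc) : (fun v => c * x v) ∈ Pc := by
  induction hx using AddSubmonoid.closure_induction with
  | mem x h =>
    obtain ⟨d, p, q, s, hd, h1, h2, h3, rfl⟩ := h
    have : (fun v => c * (d * chp p q s v)) = fun v => (c * d) * chp p q s v := by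
      funext v; ring
    rw [this]
    exact Pc_gen (mul_nonneg hc hd) h1 h2 h3
  | zero =>
    have : (fun v => c * (0 : W4 → ℚ) v) = 0 := by funext v; simp
    rw [this]; exact zero_mem _
  | add x y _ _ h1 h2 =>
    have : (fun v => c * (x + y) v) = (fun v => c * x v) + fun v => c * y v := by
      funext v; simp only [Pi.add_apply]; ring
    rw [this]; exact add_mem h1 h2

theorem Pc0_smul {c : ℚ} (hc : 0 ≤ c) {x : W4 → ℚ} (hx : x ∈ Pc0) : (fun v => c * x v) ∈ Pc0 := by
  induction hx using AddSubmonoid.closure_induction with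
  | mem x h =>
    obtain ⟨d, p, q, hd, h1, h2, h3, rfl⟩ := h
    have : (fun v => c * (d * chp 0 p q v)) = fun v => (c * d) * chp 0 p q v := by
      funext v; ring
    rw [this]
    exact Pc0_gen (mul_nonneg hc hd) h1 h2 h3
  | zero =>
    have : (fun v => c * (0 : W4 → ℚ) v) = 0 := by funext v; simp
    rw [this]; exact zero_mem _
  | add x y _ _ h1 h2 =>
    have : (fun v => c * (x + y) v) = (fun v => c * x v) + fun v => c * y v := by
      funext v; simp only [Pi.add_apply]; ring
    rw [this]; exact add_mem h1 h2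

theorem chp_comp (p q s : W4) (g : W4 ≃+ W4) (t : W4) :
    (fun v => chp p q s (g v + t)) = chp (g.symm (p + t)) (g.symm (q + t)) (g.symm (s + t)) := by
  funext v
  unfold chp
  have h : ∀ w, g v + t = w ↔ v = g.symm (w + t) := fun w => by
    rw [AddEquiv.eq_symm_apply]
    constructor
    · rintro rfl; rw [add_assoc, W_add_self, add_zero]
    · intro h; rw [h, add_assoc, W_add_self, add_zero]
  have h2 : g.symm (p + q + s + t) = g.symm (p + t) + g.symm (q + t) + g.symm (s + t) := by
    rw [← map_add, ← map_add]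
    congr 1
    have : p + t + (q + t) + (s + t) = p + q + s + t + (t + t) := by abel
    rw [this, W_add_self, add_zero]
  rw [← h2]
  simp only [h]

theorem Pc_comp {D : W4 → ℚ} (g : W4 ≃+ W4) (t : W4) (h : D ∈ Pc) :
    (fun v => D (g v + t)) ∈ Pc := by
  induction h using AddSubmonoid.closure_induction with
  | mem x h =>
    obtain ⟨c, p, q, s, hc, h1, h2, h3, rfl⟩ := h
    have := chp_comp p q s g t
    have h4 : (fun v => c * chp p q s (g v + t)) = fun v => c * chp (g.symm (p + t))
        (g.symm (q + t)) (g.symm (s + t)) v := by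
      funext v; rw [← this]
    rw [h4]
    exact Pc_gen hc (fun h => h1 (add_right_cancel (g.symm.injective h)))
      (fun h => h2 (add_right_cancel (g.symm.injective h)))
      (fun h => h3 (add_right_cancel (g.symm.injective h)))
  | zero => exact zero_mem _
  | add x y _ _ h1 h2 => exact add_mem h1 h2

theorem Pc_of_comp {D : W4 → ℚ} (g : W4 ≃+ W4) (t : W4) (h : (fun v => D (g v + t)) ∈ Pc) :
    D ∈ Pc := by
  have h1 := Pc_comp g.symm (g.symm t) h
  have h2 : (fun v => D (g (g.symm v + g.symm t) + t)) = D := by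
    funext v
    rw [map_add, AddEquiv.apply_symm_apply, AddEquiv.apply_symm_apply, add_assoc, W_add_self,
      add_zero]
  rw [h2] at h1
  exact h1

/-! ### planes through the origin -/

/-- the parity of a number below `16` -/
def pr (n : ℕ) : Bool := (n.testBit 0).xor ((n.testBit 1).xor ((n.testBit 2).xor (n.testBit 3)))

theorem pr_phi : ∀ h < 16, ∀ x < 16, phi (pt h) (pt x) = if pr (x &&& h) then 1 else 0 := by
  decide +kernel

theorem phi_eq (φ : W4 →+ ZMod 2) : ∃ h < 16, φ = phi (pt h) := by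
  refine ⟨ix ![φ ![1, 0, 0, 0], φ ![0, 1, 0, 0], φ ![0, 0, 1, 0], φ ![0, 0, 0, 1]], ix_lt _, ?_⟩
  rw [pt_ix]
  exact phi_of φ

/-- sums over the points with given parity -/
def psum (b : Bool) (h : ℕ) (F : W4 → ℚ) : ℚ :=
  ∑ x ∈ range 16, if pr (x &&& h) = b then F (pt x) else 0

theorem out_phi {h : ℕ} (hh : h < 16) (F : W4 → ℚ) : out F (phi (pt h)) = psum true h F := by
  unfold out psum
  rw [sum_ix]
  refine sum_congr rfl fun x hx => ?_
  rw [pr_phi h hh x (mem_range.1 hx)]
  cases pr (x &&& h) <;> simp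

theorem psum_add (h : ℕ) (F : W4 → ℚ) : psum false h F + psum true h F = ∑ v, F v := by
  unfold psum
  rw [← sum_add_distrib, sum_ix]
  refine sum_congr rfl fun x _ => ?_
  cases pr (x &&& h) <;> simp

theorem Lsm_Pc0 {D : W4 → ℤ} (h : D ∈ Lsm) :
    (fun v => if v = 0 then (((∑ w, D w : ℤ) : ℚ)) / 3 else (D v : ℚ)) ∈ Pc0 := by
  induction h using AddSubmonoid.closure_induction with
  | mem x h =>
    obtain ⟨p, q, hp, hq, hpq, rfl⟩ := h
    have h1 : (fun v => if v = 0 then (((∑ w, lnv p q w : ℤ) : ℚ)) / 3 else (lnv p q v : ℚ)) =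
        fun v => 1 * chp 0 p q v := by
      have h2 : ∑ w, lnv p q w = 3 := by
        have := sum_lnv hp hq hpq fun _ => (1 : ℤ)
        rw [show (1 : ℤ) + 1 + 1 = 3 by norm_num] at this
        exact this
      funext v
      rw [h2, one_mul]
      unfold chp lnv
      by_cases hv : v = 0
      · rw [if_pos hv, if_pos (Or.inl hv)]; norm_num
      · rw [if_neg hv, zero_add]
        by_cases h3 : v = p ∨ v = q ∨ v = p + q
        · rw [if_pos h3, if_pos (Or.inr h3)]; norm_num
        · rw [if_neg h3, if_neg (fun h => h.elim hv h3)]; norm_num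
    rw [h1]
    exact Pc0_gen zero_le_one hp hq hpq
  | zero =>
    have : (fun v : W4 => if v = 0 then (((∑ w, (0 : W4 → ℤ) w : ℤ) : ℚ)) / 3
        else (((0 : W4 → ℤ) v : ℤ) : ℚ)) = 0 := by
      funext v; simp
    rw [this]; exact zero_mem _
  | add x y _ _ h1 h2 =>
    have : (fun v : W4 => if v = 0 then (((∑ w, (x + y) w : ℤ) : ℚ)) / 3
        else (((x + y) v : ℤ) : ℚ)) =
        (fun v => if v = 0 then (((∑ w, x w : ℤ) : ℚ)) / 3 else (x v : ℚ)) +
        fun v => if v = 0 then (((∑ w, y w : ℤ) : ℚ)) / 3 else (y v : ℚ) := by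
      funext v
      simp only [Pi.add_apply, sum_add_distrib]
      split_ifs
      · push_cast; ring
      · push_cast; ring
    rw [this]; exact add_mem h1 h2

theorem exists_den (F : W4 → ℚ) : ∃ K : ℕ, 0 < K ∧ ∃ z : W4 → ℤ, ∀ v, (K : ℚ) * F v = 2 * z v := by
  refine ⟨2 * ∏ v, (F v).den, ?_, ?_⟩
  · have := prod_pos (s := (univ : Finset W4)) fun v _ => (F v).den_pos
    omega
  · refine ⟨fun v => (F v).num * ∏ w ∈ univ.erase v, ((F w).den : ℤ), fun v => ?_⟩
    have h1 : (∏ w, (F w).den : ℕ) = (F v).den * ∏ w ∈ univ.erase v, (F w).den :=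
      (mul_prod_erase _ _ (mem_univ v)).symm
    rw [h1]
    push_cast
    have h2 : (F v) * (F v).den = (F v).num := Rat.mul_den_eq_num _
    linear_combination 2 * (∏ w ∈ univ.erase v, ((F w).den : ℚ)) * h2

/-- the cone of the planes through the origin -/
theorem S1 (F : W4 → ℚ) (h0 : ∀ v, 0 ≤ F v) (hs : ∑ v, F v = 4 * F 0)
    (h1 : ∀ h < 16, h ≠ 0 → 2 * F 0 ≤ psum false h F)
    (h2 : ∀ h < 16, ∀ p < 16, pr (p &&& h) = true → 2 * F (pt p) ≤ psum true h F) :
    F ∈ Pc0 := by
  obtain ⟨K, hK, z, hz⟩ := exists_den F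
  have hKq : (0 : ℚ) < K := by exact_mod_cast hK
  let D : W4 → ℤ := fun v => if v = 0 then 0 else 2 * z v
  have hD0 : D 0 = 0 := if_pos rfl
  have hDv : ∀ v, v ≠ 0 → (D v : ℚ) = K * F v := by
    intro v hv
    show (((if v = 0 then 0 else 2 * z v : ℤ)) : ℚ) = _
    rw [if_neg hv, hz]; push_cast; ring
  have hsum : ((∑ v, D v : ℤ) : ℚ) = 3 * (K * F 0) := by
    push_cast
    rw [← add_sum_erase _ _ (mem_univ (0 : W4)), hD0, Int.cast_zero, zero_add,
      sum_congr rfl fun v hv => hDv v (mem_erase.1 hv).1, ← mul_sum]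
    have := add_sum_erase univ F (mem_univ (0 : W4))
    rw [hs] at this
    rw [show ∑ v ∈ univ.erase (0 : W4), F v = 3 * F 0 by linarith only [this]]
    ring
  have hout : ∀ φ : W4 →+ ZMod 2, ((out D φ : ℤ) : ℚ) = K * out F φ := by
    intro φ
    rw [← out_cast]
    unfold out
    rw [mul_sum]
    refine sum_congr rfl fun v _ => ?_
    by_cases hv : v = 0
    · rw [hv, map_zero, if_neg (by decide), if_neg (by decide), mul_zero]
    · show (if φ v = 1 then (D v : ℚ) else 0) = _
      rw [hDv v hv]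
      split_ifs <;> simp
  have hcn : Cn D (2 * z 0) := by
    refine ⟨hD0, fun v => ?_, ?_, ?_⟩
    · by_cases hv : v = 0
      · rw [hv, hD0]
      · have h3 : (0 : ℚ) ≤ (D v : ℚ) := by rw [hDv v hv]; exact mul_nonneg hKq.le (h0 v)
        exact_mod_cast h3
    · have h3 : ((∑ v, D v : ℤ) : ℚ) = ((3 * (2 * z 0) : ℤ) : ℚ) := by
        rw [hsum, hz]; push_cast; ring
      exact_mod_cast h3
    · intro φ hφ
      obtain ⟨h, hh, rfl⟩ := phi_eq φ
      have hne : h ≠ 0 := by
        rintro rfl
        apply hφ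
        rw [pt_zero]
        refine DFunLike.ext _ _ fun v => ?_
        show (0 : ZMod 2) * _ + 0 * _ + 0 * _ + 0 * _ = 0
        ring
      refine ⟨∑ v, if phi (pt h) v = 1 then (if v = 0 then 0 else z v) else 0, ?_, ?_, ?_⟩
      · unfold out
        rw [mul_sum]
        refine sum_congr rfl fun v _ => ?_
        show (if phi (pt h) v = 1 then (if v = 0 then 0 else 2 * z v) else 0) = _
        split_ifs <;> simp
      · have e1 : (2 : ℤ) * (∑ v, if phi (pt h) v = 1 then (if v = 0 then 0 else z v) else 0) =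
            out D (phi (pt h)) := by
          unfold out
          rw [mul_sum]
          refine sum_congr rfl fun v _ => ?_
          show _ = (if phi (pt h) v = 1 then (if v = 0 then 0 else 2 * z v) else 0)
          split_ifs <;> simp
        have e2 : ((out D (phi (pt h)) : ℤ) : ℚ) ≤ ((2 * (2 * z 0) : ℤ) : ℚ) := by
          rw [hout, out_phi hh]
          have e3 := psum_add h F
          have e4 := h1 h hh hne
          have e5 : psum true h F ≤ 2 * F 0 := by linarith only [e3, e4, hs]
          have e6 := mul_le_mul_of_nonneg_left e5 hKq.le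
          have e7 := hz 0
          push_cast
          linarith only [e6, e7]
        have e3 : out D (phi (pt h)) ≤ 2 * (2 * z 0) := by exact_mod_cast e2
        omega
      · intro p hp
        have e1 : (2 : ℤ) * (∑ v, if phi (pt h) v = 1 then (if v = 0 then 0 else z v) else 0) =
            out D (phi (pt h)) := by
          unfold out
          rw [mul_sum]
          refine sum_congr rfl fun v _ => ?_
          show _ = (if phi (pt h) v = 1 then (if v = 0 then 0 else 2 * z v) else 0)
          split_ifs <;> simp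
        have hp0 : p ≠ 0 := by
          rintro rfl
          rw [map_zero] at hp
          exact zero_ne_one hp
        have e2 : ((2 * D p : ℤ) : ℚ) ≤ ((out D (phi (pt h)) : ℤ) : ℚ) := by
          rw [hout, out_phi hh]
          have e4 := h2 h hh (ix p) (ix_lt p) (by
            have := pr_phi h hh (ix p) (ix_lt p)
            rw [pt_ix, hp] at this
            cases hb : pr (ix p &&& h)
            · rw [hb] at this; exact absurd this (by decide)
            · rfl)
          rw [pt_ix] at e4
          have e6 := mul_le_mul_of_nonneg_left e4 hKq.le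
          push_cast
          rw [hDv p hp0]
          linarith only [e6]
        have e3 : 2 * D p ≤ out D (phi (pt h)) := by exact_mod_cast e2
        omega
  have hz0 : 0 ≤ 2 * z 0 := by
    have h3 : (0 : ℚ) ≤ ((2 * z 0 : ℤ) : ℚ) := by
      push_cast
      rw [← hz]; exact mul_nonneg hKq.le (h0 0)
    exact_mod_cast h3
  have hmem := Lsm_Pc0 (Cn.mem (2 * z 0).toNat hcn (Int.toNat_of_nonneg hz0).symm)
  have h3 := Pc0_smul (c := (K : ℚ)⁻¹) (by positivity) hmem
  have h4 : (fun v => (K : ℚ)⁻¹ * (if v = 0 then (((∑ w, D w : ℤ) : ℚ)) / 3 else (D v : ℚ))) = F := by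
    funext v
    by_cases hv : v = 0
    · rw [if_pos hv, hsum, hv]
      field_simp
    · rw [if_neg hv, hDv v hv]
      field_simp
  rw [h4] at h3
  exact h3

end Pool.Agent.helper25.AG
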