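import Pool.Agent.helper25.AG.Refl

set_option autoImplicit false
set_option linter.unusedSectionVars false
set_option linter.unusedVariables false

/-!
# Project AG: pulling decompositions of faces
-/

namespace Pool.Agent.helper25.AG

open Finset Pool.Agent.helper25.PV

/-! ### forms as lists -/

/-- sums of forms -/
def va : List ℤ → List ℤ → List ℤ
  | [], b => b
  | a :: l, [] => a :: l
  | a :: l, b :: m => (a + b) :: va l m

/-- multiples of forms -/
def vs (c : ℤ) (a : List ℤ) : List ℤ := a.map fun x => c * x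

theorem va_getD : ∀ (a b : List ℤ) (k : ℕ), (va a b).getD k 0 = a.getD k 0 + b.getD k 0
  | [], b, k => by simp [va]
  | a :: l, [], k => by simp [va]
  | a :: l, b :: m, 0 => by simp [va]
  | a :: l, b :: m, k + 1 => by
    have := va_getD l m k
    simpa [va] using this

theorem vs_getD (c : ℤ) (a : List ℤ) (k : ℕ) : (vs c a).getD k 0 = c * a.getD k 0 := by
  unfold vs
  rw [List.getD_eq_getElem?_getD, List.getD_eq_getElem?_getD, List.getElem?_map]
  cases a[k]? <;> simp

theorem dl_va (D : W4 → ℚ) (a b : List ℤ) : dl D (va a b) = dl D a + dl D b := by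
  unfold dl
  rw [← dotn_add]
  exact dotn_congr (fun k _ => va_getD a b k) _

theorem dl_vs (D : W4 → ℚ) (c : ℤ) (a : List ℤ) : dl D (vs c a) = c * dl D a := by
  unfold dl
  rw [← dotn_mul]
  exact dotn_congr (fun k _ => vs_getD c a k) _

theorem dl_zero (D : W4 → ℚ) {a : List ℤ} (h : (a.all fun z => decide (z = 0)) = true) :
    dl D a = 0 := by
  unfold dl
  rw [← dotn_zero 16 (fun k => D (pt k))]
  refine dotn_congr (fun k _ => ?_) _
  simp only [List.all_eq_true, decide_eq_true_eq] at h
  rw [List.getD_eq_getElem?_getD]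
  cases hk : a[k]? with
  | none => rfl
  | some x =>
    have := h x (List.mem_of_getElem? hk)
    rw [this]; rfl

theorem dl_nil (D : W4 → ℚ) : dl D [] = 0 := dl_zero D rfl

theorem dl_eq (D : W4 → ℚ) (l : List ℤ) : dl D l = ∑ v, (l.getD (ix v) 0 : ℚ) * D v := by
  unfold dl dotn
  rw [sum_ix]
  refine sum_congr rfl fun n hn => ?_
  rw [ix_pt n (mem_range.1 hn)]

theorem dl_sub (D F : W4 → ℚ) (l : List ℤ) : dl (fun v => D v - F v) l = dl D l - dl F l := by
  rw [dl_eq, dl_eq, dl_eq, ← sum_sub_distrib]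
  exact sum_congr rfl fun v _ => by ring

theorem dl_add (D F : W4 → ℚ) (l : List ℤ) : dl (fun v => D v + F v) l = dl D l + dl F l := by
  rw [dl_eq, dl_eq, dl_eq, ← sum_add_distrib]
  exact sum_congr rfl fun v _ => by ring

theorem dl_mul (c : ℚ) (F : W4 → ℚ) (l : List ℤ) : dl (fun v => c * F v) l = c * dl F l := by
  rw [dl_eq, dl_eq, mul_sum]
  exact sum_congr rfl fun v _ => by ring

theorem pqs_ne {p q s : W4} (h1 : p ≠ q) (h2 : p ≠ s) (h3 : q ≠ s) :
    p + q + s ≠ p ∧ p + q + s ≠ q ∧ p + q + s ≠ s := by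
  refine ⟨fun h => h3 ?_, fun h => h2 ?_, fun h => h1 ?_⟩
  · have h4 : q + s = 0 := by
      have := congrArg (p + ·) h
      rw [← add_assoc, ← add_assoc, W_add_self, zero_add] at this
      exact this
    have := congrArg (· + s) h4
    rw [add_assoc, W_add_self, add_zero, zero_add] at this
    exact this
  · have h4 : p + s = 0 := by
      have := congrArg (q + ·) h
      rw [W_add_self, show q + (p + q + s) = p + s + (q + q) by abel, W_add_self, add_zero] at this
      exact this
    have := congrArg (· + s) h4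
    rw [add_assoc, W_add_self, add_zero, zero_add] at this
    exact this
  · have h4 : p + q = 0 := by
      have := congrArg (· + s) h
      rw [add_assoc, W_add_self, add_zero] at this
      exact this
    have := congrArg (· + q) h4
    rw [add_assoc, W_add_self, add_zero, zero_add] at this
    exact this

theorem sum_chp {p q s : W4} (h1 : p ≠ q) (h2 : p ≠ s) (h3 : q ≠ s) (F : W4 → ℚ) :
    ∑ v, F v * chp p q s v = F p + (F q + (F s + F (p + q + s))) := by
  obtain ⟨h4, h5, h6⟩ := pqs_ne h1 h2 h3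
  have key : ∀ v, F v * chp p q s v = (if v = p then F v else 0) + ((if v = q then F v else 0) +
      ((if v = s then F v else 0) + (if v = p + q + s then F v else 0))) := by
    intro v
    unfold chp
    by_cases a1 : v = p
    · subst a1
      rw [if_pos (Or.inl rfl), if_pos rfl, if_neg h1, if_neg h2, if_neg (Ne.symm h4)]
      ring
    · by_cases a2 : v = q
      · subst a2
        rw [if_pos (Or.inr (Or.inl rfl)), if_neg a1, if_pos rfl, if_neg h3, if_neg (Ne.symm h5)]
        ring
      · by_cases a3 : v = s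
        · subst a3
          rw [if_pos (Or.inr (Or.inr (Or.inl rfl))), if_neg a1, if_neg a2, if_pos rfl,
            if_neg (Ne.symm h6)]
          ring
        · by_cases a4 : v = p + q + s
          · rw [if_pos (Or.inr (Or.inr (Or.inr a4))), if_neg a1, if_neg a2, if_neg a3, if_pos a4]
            ring
          · rw [if_neg (by push Not; exact ⟨a1, a2, a3, a4⟩), if_neg a1, if_neg a2, if_neg a3,
              if_neg a4]
            ring
  rw [sum_congr rfl fun v _ => key v, sum_add_distrib, sum_add_distrib, sum_add_distrib,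
    sum_ite_eq', sum_ite_eq', sum_ite_eq', sum_ite_eq', if_pos (mem_univ _), if_pos (mem_univ _),
    if_pos (mem_univ _), if_pos (mem_univ _)]

/-- the value of a form on a plane -/
def fv (w : List ℤ) (P : Pl) : ℤ := w.getD P.1 0 + (w.getD P.2.1 0 + (w.getD P.2.2 0 +
  w.getD (P.1 ^^^ P.2.1 ^^^ P.2.2) 0))

/-- the indicator function of a plane given by numbers -/
def ch (P : Pl) : W4 → ℚ := chp (pt P.1) (pt P.2.1) (pt P.2.2)

theorem okp_ne {P : Pl} (h : okp P = true) : pt P.1 ≠ pt P.2.1 ∧ pt P.1 ≠ pt P.2.2 ∧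
    pt P.2.1 ≠ pt P.2.2 := by
  obtain ⟨h1, h2, h3, h4, h5, h6⟩ := okp_spec h
  exact ⟨fun h => h4 (pt_inj h1 h2 h), fun h => h5 (pt_inj h1 h3 h), fun h => h6 (pt_inj h2 h3 h)⟩

theorem dl_ch {P : Pl} (h : okp P = true) (w : List ℤ) : dl (ch P) w = fv w P := by
  obtain ⟨h1, h2, h3, -⟩ := okp_spec h
  obtain ⟨h4, h5, h6⟩ := okp_ne h
  rw [dl_eq]
  unfold ch fv
  rw [sum_chp h4 h5 h6, ix_pt _ h1, ix_pt _ h2, ix_pt _ h3, ← pt_xor, ← pt_xor, ix_pt]
  · push_cast; ring
  · exact Nat.xor_lt_two_pow (n := 4) (Nat.xor_lt_two_pow (n := 4) h1 h2) h3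

theorem ch_mem {P : Pl} (h : okp P = true) {c : ℚ} (hc : 0 ≤ c) : (fun v => c * ch P v) ∈ Pc := by
  obtain ⟨h4, h5, h6⟩ := okp_ne h
  exact Pc_gen hc h4 h5 h6

/-! ### the decomposition -/

/-- a face -/
structure Nd where
  T : List ℕ
  S : List ℕ
  P : Pl
  ch : List (ℕ × ℕ)
  L : List (Pl × ℕ)
  m : ℕ
  M : List (List ℤ)

def nd0 : Nd := ⟨[], [], (0, 0, 0), [], [], 0, []⟩

def sub (a b : List ℕ) : Bool := a.all fun x => b.any fun y => Nat.beq x y

theorem sub_spec {a b : List ℕ} (h : sub a b = true) {x : ℕ} (hx : x ∈ a) : x ∈ b := by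
  unfold sub at h
  simp only [List.all_eq_true, List.any_eq_true, Nat.beq_eq] at h
  obtain ⟨y, hy, rfl⟩ := h x hx
  exact hy

/-- the check of a face which is decomposed -/
def okInner (R : List (List ℤ)) (tab : List Nd) (i : ℕ) (nd : Nd) : Bool :=
  okp nd.P && (!(nd.ch.isEmpty) &&
  (nd.T.all (fun j => decide (fv (R.getD j []) nd.P = 0)) &&
  (nd.S.all (fun j => decide (fv (R.getD j []) nd.P = 0) ||
    (decide (fv (R.getD j []) nd.P = 4) && nd.ch.any fun c => Nat.beq j c.1)) &&
  nd.ch.all (fun c => nd.S.any (fun j => Nat.beq c.1 j) &&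
    (decide (fv (R.getD c.1 []) nd.P = 4) && (Nat.blt c.2 i &&
     (sub (tab.getD c.2 nd0).T (c.1 :: nd.T) && sub (tab.getD c.2 nd0).S nd.S)))))))

/-- membership in a plane -/
def inP (P : Pl) (k : ℕ) : Bool := Nat.beq k P.1 || (Nat.beq k P.2.1 || (Nat.beq k P.2.2 ||
    Nat.beq k (P.1 ^^^ P.2.1 ^^^ P.2.2)))

/-- unit forms -/
def un (x : ℕ) : List ℤ := (List.range 16).map fun k => bif Nat.beq k x then 1 else 0

/-- the forms of the planes through a point -/
def sL (R : List (List ℤ)) (x : ℕ) : List (Pl × ℕ) → List ℤ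
  | [] => []
  | a :: l => bif inP a.1 x then va (R.getD a.2 []) (sL R x l) else sL R x l

/-- combinations -/
def sT (R : List (List ℤ)) : List ℕ → List ℤ → List ℤ
  | j :: T, c :: M => va (vs c (R.getD j [])) (sT R T M)
  | _, _ => []

/-- the check of a simplicial face -/
def okLeaf (R : List (List ℤ)) (nd : Nd) : Bool :=
  Nat.blt 0 nd.m && (nd.L.all (fun a => okp a.1 && nd.S.any fun j => Nat.beq a.2 j) &&
   (List.range 16).all fun x => (va (vs (-(4 * (nd.m : ℤ))) (un x))
    (va (vs (nd.m : ℤ) (sL R x nd.L)) (sT R nd.T (nd.M.getD x [])))).all fun z => decide (z = 0))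

/-- the check of one face -/
def okN (R : List (List ℤ)) (tab : List Nd) (i : ℕ) : Bool :=
  bif Nat.beq (tab.getD i nd0).m 0 then okInner R tab i (tab.getD i nd0)
    else okLeaf R (tab.getD i nd0)

/-- the check of a table -/
def okTab (R : List (List ℤ)) (tab : List Nd) : Prop := ∀ i < tab.length, okN R tab i = true

/-- the check of a part of a table -/
def okPart (R : List (List ℤ)) (tab : List Nd) (a b : ℕ) : Bool :=
  (List.range b).all fun i => okN R tab (a + i)

theorem exists_min : ∀ (l : List ℚ), l ≠ [] → ∃ m ∈ l, ∀ x ∈ l, m ≤ x := by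
  intro l
  induction l with
  | nil => intro h; exact absurd rfl h
  | cons a l ih =>
    intro _
    by_cases hl : l = []
    · subst hl
      exact ⟨a, by simp, fun x hx => by simp at hx; rw [hx]⟩
    · obtain ⟨m, hm, h⟩ := ih hl
      rcases le_total m a with h1 | h1
      · refine ⟨m, List.mem_cons_of_mem _ hm, fun x hx => ?_⟩
        rcases List.mem_cons.1 hx with rfl | hx
        · exact h1
        · exact h x hx
      · refine ⟨a, List.mem_cons_self, fun x hx => ?_⟩
        rcases List.mem_cons.1 hx with rfl | hx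
        · exact le_rfl
        · exact h1.trans (h x hx)

theorem dl_un (D : W4 → ℚ) {x : ℕ} (hx : x < 16) : dl D (un x) = D (pt x) := by
  unfold dl
  rw [← dotn_single (E := fun k => D (pt k)) le_rfl hx]
  refine dotn_congr (fun k hk => ?_) _
  unfold un
  rw [List.getD_eq_getElem?_getD, List.getElem?_map, List.getElem?_range hk]
  rfl

theorem sT_zero (R : List (List ℤ)) (D : W4 → ℚ) : ∀ (T : List ℕ) (M : List ℤ),
    (∀ j ∈ T, dl D (R.getD j []) = 0) → dl D (sT R T M) = 0
  | [], M, _ => by simp only [sT]; exact dl_nil D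
  | j :: T, [], _ => by simp only [sT]; exact dl_nil D
  | j :: T, c :: M, h => by
    simp only [sT]
    rw [dl_va, dl_vs, h j List.mem_cons_self, mul_zero, zero_add]
    exact sT_zero R D T M fun i hi => h i (List.mem_cons_of_mem _ hi)

theorem ch_pt {P : Pl} (h : okp P = true) {k : ℕ} (hk : k < 16) :
    ch P (pt k) = if inP P k = true then 1 else 0 := by
  have := pv_spec h hk
  unfold ch
  rw [this]
  have h2 : pv P k = bif inP P k then 1 else 0 := rfl
  rw [h2]
  cases inP P k <;> simp

theorem sL_eq (R : List (List ℤ)) (D : W4 → ℚ) {x : ℕ} (hx : x < 16) : ∀ (L : List (Pl × ℕ)),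
    (∀ a ∈ L, okp a.1 = true) →
    dl D (sL R x L) = (L.map fun a => dl D (R.getD a.2 []) * ch a.1 (pt x)).sum
  | [], _ => by simp only [sL, List.map_nil, List.sum_nil]; exact dl_nil D
  | a :: L, h => by
    have ih := sL_eq R D hx L fun b hb => h b (List.mem_cons_of_mem _ hb)
    rw [List.map_cons, List.sum_cons, ch_pt (h a List.mem_cons_self) hx, ← ih]
    simp only [sL]
    cases inP a.1 x
    · simp
    · simp [dl_va]

theorem Lsum_mem (R : List (List ℤ)) (D : W4 → ℚ) : ∀ (L : List (Pl × ℕ)),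
    (∀ a ∈ L, okp a.1 = true) → (∀ a ∈ L, 0 ≤ dl D (R.getD a.2 [])) →
    (fun v => (L.map fun a => dl D (R.getD a.2 []) * ch a.1 v).sum) ∈ Pc
  | [], _, _ => by
    have : (fun v : W4 => (([] : List (Pl × ℕ)).map fun a => dl D (R.getD a.2 []) *
      ch a.1 v).sum) = 0 := by funext v; simp
    rw [this]; exact zero_mem _
  | a :: L, h1, h2 => by
    have ih := Lsum_mem R D L (fun b hb => h1 b (List.mem_cons_of_mem _ hb))
      (fun b hb => h2 b (List.mem_cons_of_mem _ hb))
    have : (fun v : W4 => ((a :: L).map fun a => dl D (R.getD a.2 []) * ch a.1 v).sum) =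
      (fun v => dl D (R.getD a.2 []) * ch a.1 v) +
        fun v => (L.map fun a => dl D (R.getD a.2 []) * ch a.1 v).sum := by
      funext v; simp
    rw [this]
    exact add_mem (ch_mem (h1 a List.mem_cons_self) (h2 a List.mem_cons_self)) ih

theorem leaf_sound {R : List (List ℤ)} {nd : Nd} (h : okLeaf R nd = true) {D : W4 → ℚ}
    (hT : ∀ j ∈ nd.T, dl D (R.getD j []) = 0) (hS : ∀ j ∈ nd.S, 0 ≤ dl D (R.getD j [])) :
    D ∈ Pc := by
  unfold okLeaf at h
  simp only [Bool.and_eq_true, List.all_eq_true, List.any_eq_true, List.mem_range, Nat.blt_eq,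
    Nat.beq_eq] at h
  obtain ⟨h1, h2, h3⟩ := h
  have hm : (0 : ℚ) < nd.m := by exact_mod_cast h1
  have h4 : ∀ a ∈ nd.L, okp a.1 = true := fun a ha => (h2 a ha).1
  have h5 : ∀ a ∈ nd.L, 0 ≤ dl D (R.getD a.2 []) := fun a ha => by
    obtain ⟨j, hj, he⟩ := (h2 a ha).2
    rw [he]; exact hS j hj
  have h6 : D = fun v => (1 / 4 : ℚ) * (nd.L.map fun a => dl D (R.getD a.2 []) * ch a.1 v).sum := by
    funext v
    rw [← pt_ix v]
    have hx := ix_lt v
    have h7 : dl D (va (vs (-(4 * (nd.m : ℤ))) (un (ix v)))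
        (va (vs (nd.m : ℤ) (sL R (ix v) nd.L)) (sT R nd.T (nd.M.getD (ix v) [])))) = 0 := by
      apply dl_zero
      simp only [List.all_eq_true]
      exact h3 _ hx
    rw [dl_va, dl_va, dl_vs, dl_vs, sT_zero R D _ _ hT, dl_un D hx, sL_eq R D hx _ h4] at h7
    push_cast at h7
    have h8 : (nd.m : ℚ) * (4 * D (pt (ix v)) -
        (nd.L.map fun a => dl D (R.getD a.2 []) * ch a.1 (pt (ix v))).sum) = 0 := by
      linear_combination - h7
    rcases mul_eq_zero.1 h8 with h9 | h9
    · exact absurd h9 hm.ne'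
    · linear_combination (1 / 4 : ℚ) * h9
  rw [h6]
  exact Pc_smul (by norm_num) (Lsum_mem R D _ h4 h5)

theorem part_spec {R : List (List ℤ)} {tab : List Nd} {a b : ℕ} (h : okPart R tab a b = true)
    {i : ℕ} (h1 : a ≤ i) (h2 : i < a + b) : okN R tab i = true := by
  unfold okPart at h
  simp only [List.all_eq_true, List.mem_range] at h
  have := h (i - a) (by omega)
  rwa [show a + (i - a) = i by omega] at this

theorem tree_sound {R : List (List ℤ)} {tab : List Nd} (h : okTab R tab) :
    ∀ i < tab.length, ∀ D : W4 → ℚ, (∀ j ∈ (tab.getD i nd0).T, dl D (R.getD j []) = 0) →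
      (∀ j ∈ (tab.getD i nd0).S, 0 ≤ dl D (R.getD j [])) → D ∈ Pc := by
  intro i
  induction i using Nat.strong_induction_on with
  | _ i ih =>
    intro hi D hT hS
    have h1 := h i hi
    unfold okN at h1
    cases hm : Nat.beq (tab.getD i nd0).m 0 with
    | false =>
      rw [hm] at h1
      exact leaf_sound h1 hT hS
    | true =>
      rw [hm] at h1
      have h2 : okInner R tab i (tab.getD i nd0) = true := h1
      generalize hnd : tab.getD i nd0 = nd at h2 hT hS
      unfold okInner at h2
      simp only [Bool.and_eq_true, List.all_eq_true, List.any_eq_true, Nat.blt_eq,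
        Nat.beq_eq, decide_eq_true_eq, Bool.or_eq_true, Bool.not_eq_true',
        List.isEmpty_eq_false_iff] at h2
      obtain ⟨k1, k2, k3, k4, k5⟩ := h2
      obtain ⟨t, ht, hmin⟩ := exists_min (nd.ch.map fun c => dl D (R.getD c.1 []) / 4)
        (by simpa using k2)
      obtain ⟨c0, hc0, rfl⟩ := List.mem_map.1 ht
      obtain ⟨⟨j0, hj0, he0⟩, k6, k7, k8, k9⟩ := k5 c0 hc0
      have ht0 : 0 ≤ dl D (R.getD c0.1 []) / 4 := by
        have := hS j0 hj0
        rw [← he0] at this
        linarith only [this]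
      have hval : ∀ l : List ℤ, dl (fun v => D v - dl D (R.getD c0.1 []) / 4 * ch nd.P v) l =
          dl D l - dl D (R.getD c0.1 []) / 4 * fv l nd.P := by
        intro l
        rw [dl_sub, dl_mul, dl_ch k1]
      have hD' : (fun v => D v - dl D (R.getD c0.1 []) / 4 * ch nd.P v) ∈ Pc := by
        refine ih c0.2 k7 (by omega) _ ?_ ?_
        · intro j hj
          rw [hval]
          rcases List.mem_cons.1 (sub_spec k8 hj) with rfl | hj2
          · rw [k6]; push_cast; ring
          · rw [hT j hj2, k3 j hj2]; push_cast; ring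
        · intro j hj
          have hj2 := sub_spec k9 hj
          rw [hval]
          have h3 := hS j hj2
          rcases k4 j hj2 with h4 | ⟨h4, c, hc, h5⟩
          · rw [h4]; push_cast; linarith only [h3]
          · have h6 := hmin _ (List.mem_map.2 ⟨c, hc, rfl⟩)
            rw [← h5] at h6
            rw [h4]; push_cast; linarith only [h6]
      have h3 : D = (fun v => D v - dl D (R.getD c0.1 []) / 4 * ch nd.P v) +
          fun v => dl D (R.getD c0.1 []) / 4 * ch nd.P v := by
        funext v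
        rw [Pi.add_apply]; ring
      rw [h3]
      exact add_mem hD' (ch_mem k1 ht0)

/-- the check of a table with its root -/
def okRoot (R : List (List ℤ)) (tab : List Nd) (nw : ℕ) : Bool := (Nat.blt 0 tab.length && ((tab.getD (tab.length - 1) nd0).T.all (fun j => Nat.blt j nw) &&
    (tab.getD (tab.length - 1) nd0).S.all (fun j => Nat.ble nw j && Nat.blt j R.length)))

theorem root_sound {R : List (List ℤ)} {tab : List Nd} {nw : ℕ} (h1 : okTab R tab)
    (h : okRoot R tab nw = true)
    {D : W4 → ℚ} (hT : ∀ j < nw, dl D (R.getD j []) = 0) (hS : ∀ l ∈ R.drop nw, 0 ≤ dl D l) :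
    D ∈ Pc := by
  unfold okRoot at h
  simp only [Bool.and_eq_true, List.all_eq_true, Nat.blt_eq, Nat.ble_eq] at h
  obtain ⟨h2, h3, h4⟩ := h
  refine tree_sound h1 (tab.length - 1) (by omega) D (fun j hj => hT j (h3 j hj)) fun j hj => ?_
  obtain ⟨h5, h6⟩ := h4 j hj
  apply hS
  have h7 : R.getD j [] = R[j] := by
    rw [List.getD_eq_getElem?_getD, List.getElem?_eq_getElem h6]; rfl
  rw [h7, List.mem_iff_getElem]
  exact ⟨j - nw, by rw [List.length_drop]; omega, by
    rw [List.getElem_drop]; congr 1; omega⟩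

end Pool.Agent.helper25.AG
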