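import Pool.Agent.helper25.AG.Tree

set_option autoImplicit false
set_option linter.unusedSectionVars false
set_option linter.unusedVariables false

/-!
# Project AG: the inequalities of types 0, 1 and 2
-/

namespace Pool.Agent.helper25.AG

open Finset Pool.Agent.helper25.PV

theorem fval_std (i : ℕ) (g : W4 ≃+ W4) (t : W4) (D : W4 → ℚ) :
    fval i g t D = dl (fun v => D (g.symm (v + t))) (facT i) := by
  rw [dl_eq]
  unfold fval fcv
  let e : W4 ≃ W4 := (Equiv.addRight t).trans g.symm.toEquiv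
  rw [← Equiv.sum_comp e fun v => (((facT i).getD (ix (g v + t)) 0 : ℤ) : ℚ) * D v]
  refine sum_congr rfl fun v _ => ?_
  have h1 : e v = g.symm (v + t) := rfl
  rw [h1, AddEquiv.apply_symm_apply, add_assoc, W_add_self, add_zero]

theorem Cq.std {D : W4 → ℚ} (h : Cq D) (g : W4 ≃+ W4) (t : W4) :
    Cq fun v => D (g.symm (v + t)) := by
  have := h.comp g.symm (g.symm t)
  simpa only [map_add] using this

theorem Pc_of_std {D : W4 → ℚ} (g : W4 ≃+ W4) (t : W4)
    (h : (fun v => D (g.symm (v + t))) ∈ Pc) : D ∈ Pc := by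
  apply Pc_of_comp g.symm (g.symm t)
  simpa only [map_add] using h

theorem Cq.fac {D : W4 → ℚ} (h : Cq D) {i : ℕ} (hi : i < 8) : 0 ≤ dl D (facT i) := by
  have := h i (AddEquiv.refl W4) 0 hi
  rw [fval_std] at this
  simpa using this

/-- the forms of type 2 -/
def t2 (v h : ℕ) : List ℤ := (List.range 16).map fun x =>
  (bif pr ((x ^^^ v) &&& h) then 0 else 1) - (bif Nat.beq x v then 2 else 0)

/-- frames of hyperplanes -/
def frh : ℕ → ℕ × ℕ × ℕ × ℕ
  | 1 => (1, 3, 5, 9)
  | 2 => (3, 1, 5, 9)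
  | 3 => (1, 2, 5, 9)
  | 4 => (3, 5, 1, 9)
  | 5 => (1, 3, 4, 9)
  | 6 => (3, 1, 4, 9)
  | 7 => (1, 2, 4, 9)
  | 8 => (3, 5, 9, 1)
  | 9 => (1, 3, 5, 8)
  | 10 => (3, 1, 5, 8)
  | 11 => (1, 2, 5, 8)
  | 12 => (3, 5, 1, 8)
  | 13 => (1, 3, 4, 8)
  | 14 => (3, 1, 4, 8)
  | _ => (1, 2, 4, 8)

theorem t2_items : ((List.range 16).all fun v => (List.range 15).all fun h =>
    oki (2, lin (frh (h + 1)) v, frh (h + 1)) && (List.range 16).all fun k =>
      decide (iv (2, lin (frh (h + 1)) v, frh (h + 1)) k = (t2 v (h + 1)).getD k 0)) = true := by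
  decide +kernel

theorem t2_nonneg {D : W4 → ℚ} (hD : Cq D) {v h : ℕ} (hv : v < 16) (hh : h < 16) (h0 : h ≠ 0) :
    0 ≤ dl D (t2 v h) := by
  have h1 := t2_items
  simp only [List.all_eq_true, List.mem_range, Bool.and_eq_true, decide_eq_true_eq] at h1
  obtain ⟨h2, h3⟩ := h1 v hv (h - 1) (by omega)
  rw [show h - 1 + 1 = h by omega] at h2 h3
  obtain ⟨g, t, h4, h5⟩ := oki_val h2
  have h6 : dl D (t2 v h) = fval 2 g t D := by
    rw [← h5]
    unfold dl dotn
    refine sum_congr rfl fun k hk => ?_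
    rw [h3 k (mem_range.1 hk)]
  rw [h6]
  exact hD _ g t (by norm_num)

theorem t0_items : ((List.range 16).all fun v => oki (0, 15 ^^^ v, 1, 2, 4, 8) &&
    (List.range 16).all fun k => decide (iv (0, 15 ^^^ v, 1, 2, 4, 8) k = (un v).getD k 0)) = true := by
  decide +kernel

theorem Cq.nn {D : W4 → ℚ} (hD : Cq D) : ∀ v, 0 ≤ D v := by
  apply forall_pt
  intro v hv
  have h1 := t0_items
  simp only [List.all_eq_true, List.mem_range, Bool.and_eq_true, decide_eq_true_eq] at h1
  obtain ⟨h2, h3⟩ := h1 v hv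
  obtain ⟨g, t, h4, h5⟩ := oki_val h2
  have h6 : dl D (un v) = fval 0 g t D := by
    rw [← h5]
    unfold dl dotn
    refine sum_congr rfl fun k hk => ?_
    rw [h3 k (mem_range.1 hk)]
  rw [← dl_un D hv, h6]
  exact hD _ g t (by norm_num)

/-- the forms of type 1 -/
def t1 (v : ℕ) : List ℤ := (List.range 16).map fun x => 1 - (bif Nat.beq x v then 4 else 0)

theorem t1_items : ((List.range 16).all fun v => oki (1, v, 1, 2, 4, 8) &&
    (List.range 16).all fun k => decide (iv (1, v, 1, 2, 4, 8) k = (t1 v).getD k 0)) = true := by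
  decide +kernel

theorem t1_nonneg {D : W4 → ℚ} (hD : Cq D) {v : ℕ} (hv : v < 16) : 0 ≤ dl D (t1 v) := by
  have h1 := t1_items
  simp only [List.all_eq_true, List.mem_range, Bool.and_eq_true, decide_eq_true_eq] at h1
  obtain ⟨h2, h3⟩ := h1 v hv
  obtain ⟨g, t, h4, h5⟩ := oki_val h2
  have h6 : dl D (t1 v) = fval 1 g t D := by
    rw [← h5]
    unfold dl dotn
    refine sum_congr rfl fun k hk => ?_
    rw [h3 k (mem_range.1 hk)]
  rw [h6]
  exact hD _ g t (by norm_num)

theorem getD_map_range (f : ℕ → ℤ) {k : ℕ} (hk : k < 16) :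
    ((List.range 16).map f).getD k 0 = f k := by
  rw [List.getD_eq_getElem?_getD, List.getElem?_map, List.getElem?_range hk]
  rfl

theorem pr_xor_and : ((List.range 16).all fun x => (List.range 16).all fun v =>
    (List.range 16).all fun h => pr ((x ^^^ v) &&& h) == (pr (x &&& h)).xor (pr (v &&& h))) = true := by
  decide +kernel

theorem pr_xor {x v h : ℕ} (hx : x < 16) (hv : v < 16) (hh : h < 16) :
    pr ((x ^^^ v) &&& h) = (pr (x &&& h)).xor (pr (v &&& h)) := by
  have h1 := pr_xor_and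
  simp only [List.all_eq_true, List.mem_range, beq_iff_eq] at h1
  exact h1 x hx v hv h hh

theorem dl_t2 (D : W4 → ℚ) {v h : ℕ} (hv : v < 16) (hh : h < 16) :
    dl D (t2 v h) = psum (pr (v &&& h)) h D - 2 * D (pt v) := by
  unfold dl dotn psum t2
  have h1 : ∀ x ∈ range 16, ((((List.range 16).map fun x => ((bif pr ((x ^^^ v) &&& h) then
      (0 : ℤ) else 1) - (bif Nat.beq x v then 2 else 0))).getD x 0 : ℤ) : ℚ) * D (pt x) =
      (if pr (x &&& h) = pr (v &&& h) then D (pt x) else 0) -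
        (if x = v then 2 * D (pt x) else 0) := by
    intro x hx
    have hx := mem_range.1 hx
    rw [getD_map_range _ hx, pr_xor hx hv hh]
    have h2 : (bif Nat.beq x v then (2 : ℤ) else 0) = if x = v then 2 else 0 := by
      by_cases h3 : x = v
      · rw [if_pos h3, (Nat.beq_eq ▸ h3 : Nat.beq x v = true)]; rfl
      · rw [if_neg h3]
        have : Nat.beq x v = false := by rw [← Bool.not_eq_true, Nat.beq_eq]; exact h3
        rw [this]; rfl
    rw [h2]
    cases pr (x &&& h) <;> cases pr (v &&& h) <;> split_ifs <;> simp_all <;> ring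
  rw [sum_congr rfl h1, sum_sub_distrib, sum_ite_eq', if_pos (mem_range.2 hv)]

theorem dl_t1 (D : W4 → ℚ) {v : ℕ} (hv : v < 16) : dl D (t1 v) = ∑ w, D w - 4 * D (pt v) := by
  rw [sum_ix]
  unfold dl dotn t1
  have h1 : ∀ x ∈ range 16, ((((List.range 16).map fun x => (1 : ℤ) -
      (bif Nat.beq x v then 4 else 0)).getD x 0 : ℤ) : ℚ) * D (pt x) =
      D (pt x) - (if x = v then 4 * D (pt x) else 0) := by
    intro x hx
    have hx := mem_range.1 hx
    rw [getD_map_range _ hx]
    by_cases h3 : x = v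
    · rw [if_pos h3, (Nat.beq_eq ▸ h3 : Nat.beq x v = true)]
      simp only [cond_true]
      push_cast; ring
    · rw [if_neg h3]
      have : Nat.beq x v = false := by rw [← Bool.not_eq_true, Nat.beq_eq]; exact h3
      rw [this]
      simp only [cond_false]
      push_cast; ring
  rw [sum_congr rfl h1, sum_sub_distrib, sum_ite_eq', if_pos (mem_range.2 hv)]

/-- tight inequalities of type 1 -/
theorem S1' {D : W4 → ℚ} (hD : Cq D) (h : dl D (t1 0) = 0) : D ∈ Pc := by
  rw [dl_t1 D (by norm_num), pt_zero] at h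
  refine Pc0_le (S1 D hD.nn (by linarith only [h]) (fun h hh h0 => ?_) (fun h hh p hp hpr => ?_))
  · have h1 := t2_nonneg hD (v := 0) (by norm_num) hh h0
    rw [dl_t2 D (by norm_num) hh, pt_zero, Nat.zero_and] at h1
    have : pr 0 = false := by decide
    rw [this] at h1
    linarith only [h1]
  · have h0 : h ≠ 0 := by
      rintro rfl
      rw [Nat.and_zero] at hpr
      exact absurd hpr (by decide)
    have h1 := t2_nonneg hD (v := p) hp hh h0
    rw [dl_t2 D hp hh, hpr] at h1
    linarith only [h1]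

end Pool.Agent.helper25.AG
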